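import Pool.Agent.Bloch.Osc

set_option linter.unusedSectionVars false

open MvPolynomial

namespace Pool.Agent.Bloch

section BHm
variable {K : Type} [Field K] {σ : Type} {β : Type}

theorem BH.pow {bl : σ → β} {l : β} {m : ℕ} {f : MvPolynomial σ K}
    (hf : BH bl l m f) (n : ℕ) : BH bl l (m * n) (f ^ n) := by
  induction n with
  | zero => rw [mul_zero, pow_zero]; exact BH.one
  | succ n ih => rw [pow_succ, Nat.mul_succ]; exact ih.mul hf

theorem BH.prod {ι : Type} {bl : σ → β} {l : β} (s : Finset ι) (n : ι → ℕ)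
    (f : ι → MvPolynomial σ K) (hf : ∀ e ∈ s, BH bl l (n e) (f e)) :
    BH bl l (∑ e ∈ s, n e) (∏ e ∈ s, f e) := by
  classical
  induction s using Finset.induction_on with
  | empty => rw [Finset.sum_empty, Finset.prod_empty]; exact BH.one
  | insert e s he ih =>
    rw [Finset.sum_insert he, Finset.prod_insert he]
    exact (hf e (Finset.mem_insert_self _ _)).mul
      (ih fun x hx => hf x (Finset.mem_insert_of_mem hx))

theorem BH.aeval {κ : Type} [Field κ] [Algebra K κ] {τ γ : Type} {bl : σ → β} {l : β}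
    {bl' : τ → γ} {l' : γ} {d : ℕ} {f : MvPolynomial σ K} (hf : BH bl l d f)
    (y : σ → MvPolynomial τ κ) (hy : ∀ s, bl s = l → BH bl' l' 1 (y s)) :
    BH bl' l' d (MvPolynomial.aeval y f) := by
  classical
  rw [f.as_sum, map_sum]
  apply BH.sum
  intro m hm
  obtain ⟨h1, h2⟩ := hf m hm
  rw [aeval_monomial]
  have h3 : BH bl' l' (∑ s ∈ m.support, m s) (∏ s ∈ m.support, y s ^ m s) := by
    apply BH.prod
    intro s hs
    have h4 := (hy s (h1 s (Finsupp.mem_support_iff.1 hs))).pow (m s)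
    rwa [one_mul] at h4
  have h5 : ∑ s ∈ m.support, m s = d := h2
  rw [h5] at h3
  have h6 := (BH.C' (bl := bl') (l := l') (algebraMap K κ (coeff m f))).mul h3
  rw [zero_add] at h6
  exact h6

end BHm

section base
variable {𝕜 : Type} [Field 𝕜] [CharZero 𝕜]
variable {K : Type} [Field K] [Algebra 𝕜 K]
variable {σ : Type} [Fintype σ]

theorem exists_root {d : ℕ} (hd : 0 < d) {ζ : 𝕜} (hζ : IsPrimitiveRoot ζ d) (c : K)
    (hc : c ^ d = 1) : ∃ c' : 𝕜, c' ^ d = 1 ∧ algebraMap 𝕜 K c' = c := by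
  haveI : NeZero d := ⟨hd.ne'⟩
  have h1 : IsPrimitiveRoot (algebraMap 𝕜 K ζ) d := hζ.map_of_injective (algebraMap 𝕜 K).injective
  obtain ⟨j, _, hj⟩ := h1.eq_pow_of_pow_eq_one hc
  refine ⟨ζ ^ j, ?_, by rw [map_pow, hj]⟩
  rw [← pow_mul, mul_comm, pow_mul, hζ.pow_eq_one, one_pow]

/-- The part belonging to a nontrivial character which is a sum of many characters. -/
theorem chi_ne_K {t : ℕ} {d : ℕ} (hd : 0 < d) {ζ : 𝕜} (hζ : IsPrimitiveRoot ζ d)
    (β : σ → Fin t) (hβ : Function.Surjective β) {ι : Type} [Fintype ι]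
    (f : ι → Fin t → MvPolynomial σ K)
    (hf : ∀ e k, BH β k d (f e k))
    {Z : Set (PrimeSpectrum (MvPolynomial σ K))}
    (HZ : ∀ Q, Q ∈ Z ↔ ∀ e, ∑ k, f e k ∈ Q.asIdeal) {i q : ℕ}
    (hi : i + Fintype.card ι ≤ q) (a : Fin t → ℕ)
    (π : Fin t → Fin (q + 1)) (hπ : Function.Surjective π)
    (hπa : ∀ l, d ∣ ∑ k, if π k = l then a k else 0)
    (k₁ : Fin t) (hk₁ : ¬ d ∣ a k₁)
    (N : Submodule 𝕜 (VH Z (i + 1) →₀ 𝕜)) (hN1 : RelH 𝕜 Z (i + 1) ≤ N)
    (hN2 : ∀ c : Fin t → 𝕜, (∀ l, c l ^ d = 1) → ∀ V V' : VH Z (i + 1),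
      V'.1 = ctr K (scl K (fun s => algebraMap 𝕜 K (c (β s)))) V.1 →
        Finsupp.single V' 1 - (∏ k, c k ^ a k) • Finsupp.single V (1 : 𝕜) ∈ N) :
    ∀ V : VH Z (i + 1), Finsupp.single V 1 ∈ N := by
  classical
  intro V
  let π' : Fin t → Fin (q + 1) := fun k => Equiv.swap 0 (π k₁) (π k)
  have hπ'1 : π' k₁ = 0 := Equiv.swap_apply_right 0 (π k₁)
  have hπ's : Function.Surjective π' := (Equiv.swap 0 (π k₁)).surjective.comp hπ
  have hπ'a : ∀ l, d ∣ ∑ k ∈ Finset.univ.filter (fun k => π' k = l), a k := by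
    intro l
    have h1 := hπa (Equiv.swap 0 (π k₁) l)
    rw [Finset.sum_filter]
    have : ∀ k, (π' k = l) ↔ (π k = Equiv.swap 0 (π k₁) l) := by
      intro k
      change Equiv.swap 0 (π k₁) (π k) = l ↔ _
      constructor
      · rintro rfl; rw [Equiv.swap_apply_self]
      · intro h; rw [h, Equiv.swap_apply_self]
    simp only [this]
    exact h1
  -- another block in the same superblock
  obtain ⟨k₂, hk₂, hk₂π⟩ : ∃ k₂, k₂ ≠ k₁ ∧ π' k₂ = 0 := by
    by_contra hcon
    push Not at hcon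
    apply hk₁
    have h1 := hπ'a 0
    have h2 : Finset.univ.filter (fun k => π' k = 0) = {k₁} := by
      ext k
      rw [Finset.mem_filter, Finset.mem_singleton]
      constructor
      · intro h
        by_contra hne
        exact hcon k hne h.2
      · rintro rfl
        exact ⟨Finset.mem_univ _, hπ'1⟩
    rwa [h2, Finset.sum_singleton] at h1
  obtain ⟨s₀, hs₀⟩ := hβ k₂
  have hcard : (Finset.univ : Finset ι).card = Fintype.card ι := rfl
  have hζK : IsPrimitiveRoot (algebraMap 𝕜 K ζ) d := hζ.map_of_injective (algebraMap 𝕜 K).injective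
  have key := lemmaM 𝕜 hd hζK (fun s => π' (β s)) (Finset.univ : Finset ι) (grp π' f)
    (grp_bh π' hf) (Z := Z)
    (fun Q h => (HZ Q).2 (fun e => by rw [← grp_sum π']; exact h e (Finset.mem_univ _)))
    (fun Q hQ e _ => by rw [grp_sum]; exact (HZ Q).1 hQ e) (i := i) (by rw [hcard]; exact hi) N hN1
    (by
      intro c hc V V' h
      choose c' hc'1 hc'2 using fun l => exists_root (K := K) hd hζ (c l) (hc l)
      have h1 := hN2 (fun k => c' (π' k)) (fun k => hc'1 _) V V' (by
        rw [h]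
        simp only [hc'2])
      have h2 : (∏ k, c' (π' k) ^ a k) = 1 := by
        rw [← Finset.prod_fiberwise Finset.univ π' (fun k => c' (π' k) ^ a k)]
        apply Finset.prod_eq_one
        intro l _
        have h3 : ∏ k ∈ Finset.univ.filter (fun k => π' k = l), c' (π' k) ^ a k =
            c' l ^ (∑ k ∈ Finset.univ.filter (fun k => π' k = l), a k) := by
          rw [← Finset.prod_pow_eq_pow_sum]
          apply Finset.prod_congr rfl
          intro k hk
          rw [Finset.mem_filter] at hk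
          rw [hk.2]
        rw [h3]
        obtain ⟨m, hm⟩ := hπ'a l
        rw [hm, pow_mul, hc'1, one_pow]
      rw [h2, one_smul] at h1
      exact h1)
    s₀ (by rw [hs₀, hk₂π]) ∅ (Set.notMem_empty _)
    (by
      intro l _
      obtain ⟨k, hk⟩ := hπ's l
      obtain ⟨s, hs⟩ := hβ k
      exact ⟨s, by rw [hs, hk], Set.notMem_empty _⟩)
    V (fun s hs => absurd hs (Set.notMem_empty _))
  refine (sup_le le_rfl ?_ : _ ⊔ _ ≤ N) key
  rw [Submodule.span_le]
  rintro w ⟨V', ⟨-, hV'⟩, rfl⟩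
  -- the scaling of the block `k₁` fixes `V'`
  let c : Fin t → 𝕜 := Function.update (fun _ => 1) k₁ ζ
  have hc : ∀ k, c k ^ d = 1 := by
    intro k
    by_cases h : k = k₁
    · have : c k = ζ := by rw [h]; exact Function.update_self _ _ _
      rw [this, hζ.pow_eq_one]
    · have : c k = 1 := Function.update_of_ne h _ _
      rw [this, one_pow]
  have hfix : ctr K (scl K (fun s => algebraMap 𝕜 K (c (β s)))) V'.1 = V'.1 := by
    apply ctr_scl_fixed
    intro s hs
    have h1 : β s = k₁ := by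
      by_contra h
      apply hs
      have : c (β s) = 1 := Function.update_of_ne h _ _
      rw [this, map_one]
    apply hV' s
    · rw [h1, hπ'1]
    · rintro rfl
      rw [hs₀] at h1
      exact hk₂ h1
  have h1 := hN2 c hc V' V' hfix.symm
  have h2 : (∏ k, c k ^ a k) = ζ ^ a k₁ := by
    rw [Finset.prod_eq_single k₁]
    · have : c k₁ = ζ := Function.update_self _ _ _
      rw [this]
    · intro k _ h
      have : c k = 1 := Function.update_of_ne h _ _
      rw [this, one_pow]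
    · intro h; exact absurd (Finset.mem_univ _) h
  rw [h2] at h1
  have h3 : (1 - ζ ^ a k₁) ≠ 0 := by
    intro h
    apply hk₁
    exact hζ.dvd_of_pow_eq_one _ (sub_eq_zero.1 h).symm
  have h4 : Finsupp.single V' (1 : 𝕜) = (1 - ζ ^ a k₁)⁻¹ •
      (Finsupp.single V' 1 - ζ ^ a k₁ • Finsupp.single V' (1 : 𝕜)) := by
    rw [← one_smul 𝕜 (Finsupp.single V' (1 : 𝕜)), smul_smul, ← sub_smul, smul_smul, mul_one,
      inv_mul_cancel₀ h3]
  change Finsupp.single V' (1 : 𝕜) ∈ N
  rw [h4]
  exact Submodule.smul_mem _ _ h1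

end base

end Pool.Agent.Bloch
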