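import Pool.Agent.Bloch.Big0

set_option linter.unusedSectionVars false

open MvPolynomial

namespace Pool.Agent.Bloch

open Classical in
/-- The block `k` is big for the character `a`: the forms `f e k` are linear combinations of `ρ`
forms, and the block has more than `ρ (d - 1)` variables (more than `ρ (d - 1) + 1` variables if
the character is trivial on the block). -/
def BigBl {K : Type} [Field K] {σ T ι : Type} (β : σ → T) (f : ι → T → MvPolynomial σ K) (d : ℕ)
    (a : T → ℕ) (k : T) : Prop :=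
  ∃ (ρ : ℕ) (g : Fin ρ → MvPolynomial σ K) (A : ι → Fin ρ → K), (∀ j, BH β k d (g j)) ∧
    (∀ e, f e k = ∑ j, C (A e j) * g j) ∧
    ρ * (d - 1) + (if d ∣ a k then 1 else 0) < Nat.card {s : σ // β s = k}

/-- Either the character is nontrivial, or it is trivial and the submodule contains the
subvarieties on which all variables but one of each block not in `E` vanish. -/
def Hyp (𝕜 : Type) [Field 𝕜] {K : Type} [Field K] {σ : Type} [Fintype σ] {T Q : Type}
    (β : σ → T) (Z : Set (PrimeSpectrum (MvPolynomial σ K))) (i d : ℕ) (a : T → ℕ) (π : T → Q)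
    (E : Finset T) (N : Submodule 𝕜 (VH Z (i + 1) →₀ 𝕜)) : Prop :=
  (∃ k₁, ¬ d ∣ a k₁) ∨ ((∀ k, d ∣ a k) ∧ Function.Injective π ∧ ∃ J : T → σ, (∀ k, β (J k) = k) ∧
    ∀ V : VH Z (i + 1), (∀ s, β s ∉ E → s ≠ J (β s) → X s ∈ V.1.asIdeal) →
      Finsupp.single V 1 ∈ N)

open Classical in
/-- the vanishing statement for systems in which `n` big blocks are used -/
def BigStmt (𝕜 : Type) [Field 𝕜] [CharZero 𝕜] (d n : ℕ) : Prop :=
  ∀ (K : Type) [Field K] [Algebra 𝕜 K] (σ : Type) [Fintype σ] (T : Type) [Fintype T]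
    (Q : Type) [Fintype Q] (ι : Type) [Fintype ι]
    (β : σ → T) (f : ι → T → MvPolynomial σ K)
    (Z : Set (PrimeSpectrum (MvPolynomial σ K))) (i : ℕ) (a : T → ℕ) (π : T → Q)
    (E : Finset T) (N : Submodule 𝕜 (VH Z (i + 1) →₀ 𝕜)),
    Function.Surjective β → (∀ e k, BH β k d (f e k)) →
    (∀ P, P ∈ Z ↔ ∀ e, ∑ k, f e k ∈ P.asIdeal) →
    Function.Surjective π →
    (∀ l, d ∣ ∑ k ∈ Finset.univ.filter (fun k => π k = l), a k) →
    (∀ k ∈ E, BigBl β f d a k) →
    E.card = n → i + Fintype.card ι + 1 ≤ Fintype.card Q + n → Hyp 𝕜 β Z i d a π E N →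
    RelH 𝕜 Z (i + 1) ≤ N →
    (∀ c : T → 𝕜, (∀ l, c l ^ d = 1) → ∀ V V' : VH Z (i + 1),
      V'.1 = ctr K (scl K (fun s => algebraMap 𝕜 K (c (β s)))) V.1 →
        Finsupp.single V' 1 - (∏ k, c k ^ a k) • Finsupp.single V (1 : 𝕜) ∈ N) →
    ∀ V : VH Z (i + 1), Finsupp.single V 1 ∈ N

/-- Reduction to one variable in each block. -/
theorem step_one {𝕜 : Type} [Field 𝕜] [CharZero 𝕜] {K : Type} [Field K]
    {σ : Type} [Fintype σ] {t : ℕ} {d : ℕ} (hd : 0 < d) {ζ : K} (hζ : IsPrimitiveRoot ζ d)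
    (β : σ → Fin t) (J : Fin t → σ) (hJ : ∀ k, β (J k) = k) {ι : Type} [Fintype ι]
    (f : ι → Fin t → MvPolynomial σ K)
    (hf : ∀ e k, BH β k d (f e k))
    {Z : Set (PrimeSpectrum (MvPolynomial σ K))}
    (HZ : ∀ Q, Q ∈ Z ↔ ∀ e, ∑ k, f e k ∈ Q.asIdeal) {i : ℕ}
    (hi : i + Fintype.card ι < t)
    (N : Submodule 𝕜 (VH Z (i + 1) →₀ 𝕜)) (hN1 : RelH 𝕜 Z (i + 1) ≤ N)
    (hN2 : ∀ c : Fin t → K, (∀ l, c l ^ d = 1) → ∀ V V' : VH Z (i + 1),
      V'.1 = ctr K (scl K (fun s => c (β s))) V.1 →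
        Finsupp.single V' 1 - Finsupp.single V 1 ∈ N) (V : VH Z (i + 1)) :
    Finsupp.single V 1 ∈ N ⊔
      Submodule.span 𝕜 {w : VH Z (i + 1) →₀ 𝕜 | ∃ V' : VH Z (i + 1),
        (∀ s, s ≠ J (β s) → X s ∈ V'.1.asIdeal) ∧ w = Finsupp.single V' 1} := by
  classical
  obtain ⟨q, rfl⟩ : ∃ q, t = q + 1 := ⟨t - 1, by omega⟩
  have hcard : (Finset.univ : Finset ι).card = Fintype.card ι := rfl
  have step1 : ∀ T : Finset (Fin (q + 1)), ∀ V : VH Z (i + 1), Finsupp.single V 1 ∈ N ⊔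
      Submodule.span 𝕜 {w : VH Z (i + 1) →₀ 𝕜 | ∃ V' : VH Z (i + 1),
        (∀ s, β s ∈ T → s ≠ J (β s) → X s ∈ V'.1.asIdeal) ∧ w = Finsupp.single V' 1} := by
    intro T
    induction T using Finset.induction_on with
    | empty =>
      intro V
      refine Submodule.mem_sup_right (Submodule.subset_span ⟨V, ?_, rfl⟩)
      intro s hs
      exact absurd hs (Finset.notMem_empty _)
    | insert k₀ T hk₀ ih =>
      intro V
      refine (sup_le le_sup_left ?_ : _ ⊔ _ ≤ N ⊔ Submodule.span 𝕜 {w : VH Z (i + 1) →₀ 𝕜 |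
        ∃ V' : VH Z (i + 1), (∀ s, β s ∈ insert k₀ T → s ≠ J (β s) → X s ∈ V'.1.asIdeal) ∧
          w = Finsupp.single V' 1}) (ih V)
      rw [Submodule.span_le]
      rintro w ⟨V', hV', rfl⟩
      let π : Fin (q + 1) → Fin (q + 1) := Equiv.swap 0 k₀
      have hππ : ∀ k, π (π k) = k := fun k => Equiv.swap_apply_self 0 k₀ k
      have hπ0 : π k₀ = 0 := Equiv.swap_apply_right 0 k₀
      have key := lemmaM 𝕜 hd hζ (fun s => π (β s)) (Finset.univ : Finset ι) (grp π f)
        (grp_bh π hf) (Z := Z)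
        (fun Q h => (HZ Q).2 (fun e => by rw [← grp_sum π]; exact h e (Finset.mem_univ _)))
        (fun Q hQ e _ => by rw [grp_sum]; exact (HZ Q).1 hQ e) (i := i) (by rw [hcard]; omega) N hN1
        (fun c hc V V' h => hN2 (fun k => c (π k)) (fun k => hc _) V V' h)
        (J k₀) (by rw [hJ, hπ0])
        {s | β s ∈ T ∧ s ≠ J (β s)}
        (by
          rintro ⟨h1, -⟩
          rw [hJ] at h1
          exact hk₀ h1)
        (by
          intro l _
          refine ⟨J (π l), ?_, ?_⟩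
          · rw [hJ, hππ]
          · rintro ⟨-, h⟩
            apply h
            rw [hJ])
        V' (fun s hs => hV' s hs.1 hs.2)
      refine (sup_le_sup le_rfl (Submodule.span_mono ?_) : N ⊔ _ ≤ N ⊔ _) key
      rintro w ⟨V'', ⟨h1, h2⟩, rfl⟩
      refine ⟨V'', ?_, rfl⟩
      intro s hs hsJ
      rcases Finset.mem_insert.1 hs with h | h
      · apply h2 s
        · rw [h, hπ0]
        · rintro rfl
          apply hsJ
          rw [hJ]
      · exact h1 s ⟨h, hsJ⟩
  refine (sup_le_sup le_rfl (Submodule.span_mono ?_) : N ⊔ _ ≤ N ⊔ _) (step1 Finset.univ V)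
  rintro w ⟨V', h, rfl⟩
  exact ⟨V', fun s => h s (Finset.mem_univ _), rfl⟩

theorem bigStmt_zero (𝕜 : Type) [Field 𝕜] [CharZero 𝕜] {d : ℕ} (hd : 0 < d) {ζ : 𝕜}
    (hζ : IsPrimitiveRoot ζ d) : BigStmt 𝕜 d 0 := by
  classical
  intro K _ _ σ _ T _ Q _ ι _ β f Z i a π E N hβ hf HZ hπ hπa hE hEn hi hyp hN1 hN2 V
  let eT := Fintype.equivFin T
  have hf' : ∀ e k, BH (fun s => eT (β s)) k d (f e (eT.symm k)) := by
    intro e k
    exact (hf e (eT.symm k)).comp eT (eT.apply_symm_apply k)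
  have HZ' : ∀ P, P ∈ Z ↔ ∀ e, ∑ k, f e (eT.symm k) ∈ P.asIdeal := by
    intro P
    rw [HZ]
    have : ∀ e, ∑ k, f e (eT.symm k) = ∑ k, f e k := fun e => Equiv.sum_comp eT.symm (f e)
    simp only [this]
  rcases hyp with ⟨k₁, hk₁⟩ | ⟨ha, hπi, J, hJ, hyp⟩
  · obtain ⟨q, hq⟩ : ∃ q, Fintype.card Q = q + 1 := ⟨Fintype.card Q - 1, by omega⟩
    let eQ : Q ≃ Fin (q + 1) := Fintype.equivFinOfCardEq hq
    refine chi_ne_K hd hζ (fun s => eT (β s)) (eT.surjective.comp hβ)
      (fun e k => f e (eT.symm k)) hf' (Z := Z) HZ' (i := i) (q := q) (by omega)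
      (fun k => a (eT.symm k)) (fun k => eQ (π (eT.symm k)))
      (eQ.surjective.comp (hπ.comp eT.symm.surjective)) ?_ (eT k₁) ?_ N hN1 ?_ V
    · intro l
      have h1 := hπa (eQ.symm l)
      rw [Finset.sum_filter] at h1
      rw [← Equiv.sum_comp eT]
      simp only [Equiv.symm_apply_apply]
      have : ∀ k, (eQ (π k) = l) ↔ (π k = eQ.symm l) := fun k => (Equiv.eq_symm_apply eQ).symm
      simp only [this]
      exact h1
    · rw [Equiv.symm_apply_apply]; exact hk₁
    · intro c hc V V' h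
      have h1 := hN2 (fun k => c (eT k)) (fun k => hc _) V V' h
      have h2 : ∏ k, c (eT k) ^ a k = ∏ k, c k ^ a (eT.symm k) := by
        rw [← Equiv.prod_comp eT (fun k => c k ^ a (eT.symm k))]
        simp only [Equiv.symm_apply_apply]
      rw [h2] at h1
      exact h1
  · have hE0 : E = ∅ := Finset.card_eq_zero.1 hEn
    have hcard : Fintype.card Q ≤ Fintype.card T := Fintype.card_le_of_surjective _ hπ
    have hζK : IsPrimitiveRoot (algebraMap 𝕜 K ζ) d := hζ.map_of_injective (algebraMap 𝕜 K).injective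
    have key := step_one hd hζK (fun s => eT (β s)) (fun k => J (eT.symm k))
      (fun k => by rw [hJ, Equiv.apply_symm_apply]) (fun e k => f e (eT.symm k)) hf' HZ' (i := i)
      (by omega) N hN1 (by
        intro c hc V V' h
        choose c' hc'1 hc'2 using fun l => exists_root (K := K) hd hζ (c l) (hc l)
        have h1 := hN2 (fun k => c' (eT k)) (fun k => hc'1 _) V V' (by
          rw [h]
          simp only [hc'2])
        have h2 : (∏ k, c' (eT k) ^ a k) = 1 := by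
          apply Finset.prod_eq_one
          intro k _
          obtain ⟨m, hm⟩ := ha k
          rw [hm, pow_mul, hc'1, one_pow]
        rw [h2, one_smul] at h1
        exact h1) V
    refine (sup_le le_rfl ?_ : _ ⊔ _ ≤ N) key
    rw [Submodule.span_le]
    rintro w ⟨V', h1, rfl⟩
    apply hyp V'
    intro s _ hs
    apply h1 s
    intro h
    apply hs
    rw [h]
    simp only [hJ]

end Pool.Agent.Bloch
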