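import Pool.Agent.Bloch.Big1

set_option linter.unusedSectionVars false

open MvPolynomial

namespace Pool.Agent.Bloch

section
variable {𝕜 : Type} [Field 𝕜] [CharZero 𝕜]
variable {K : Type} [Field K] [Algebra 𝕜 K]
variable {κ : Type} [Field κ] [Algebra K κ] [Algebra.EssFiniteType K κ] [Algebra 𝕜 κ]
  [IsScalarTower 𝕜 K κ]
variable {σ : Type} [Fintype σ] {T : Type} [Fintype T] {β : σ → T} {k₀ : T} {s₀ : σ} {α : σ → κ}

noncomputable instance fintypeTau (β : σ → T) (k₀ : T) (s₀ : σ) : Fintype (Tau β k₀ s₀) :=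
  Fintype.ofFinite _

theorem th_C (x : K) : th β k₀ s₀ α K (C x) = C (algebraMap K κ x) := by
  unfold th
  rw [aeval_C]
  rfl

theorem th_X (s : σ) : th β k₀ s₀ α K (X s) = yy β k₀ s₀ α s := by
  unfold th
  rw [aeval_X]

theorem th_scl (hβ : β s₀ = k₀) (c : T → 𝕜) (f : MvPolynomial σ K) :
    th β k₀ s₀ α K (scl K (fun s => algebraMap 𝕜 K (c (β s))) f) =
      scl κ (fun s : Tau β k₀ s₀ => algebraMap 𝕜 κ (c (β s.1))) (th β k₀ s₀ α K f) := by
  induction f using MvPolynomial.induction_on with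
  | C x => rw [scl_C, th_C, scl_C]
  | add p q hp hq => rw [map_add, map_add, map_add, map_add, hp, hq]
  | mul_X p s hp =>
    rw [map_mul, map_mul, hp, map_mul, map_mul, scl_X, map_mul]
    congr 1
    have e1 : (algebraMap K K) (algebraMap 𝕜 K (c (β s))) = algebraMap 𝕜 K (c (β s)) := rfl
    rw [e1, th_C, th_X, ← IsScalarTower.algebraMap_apply 𝕜 K κ]
    by_cases h : β s = k₀ → s = s₀
    · have e2 : yy β k₀ s₀ α s = X ⟨s, h⟩ := by unfold yy; rw [dif_pos h]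
      rw [e2, scl_X]
      rfl
    · have e2 : yy β k₀ s₀ α s = C (α s) * X (tau0 β k₀ s₀) := by unfold yy; rw [dif_neg h]
      have h3 : β s = k₀ := by
        by_contra h4
        exact h (fun h5 => absurd h5 h4)
      have h4 : β (tau0 β k₀ s₀).1 = β s := by rw [h3]; exact hβ
      rw [e2, map_mul, scl_C, scl_X, h4]
      have e3 : (algebraMap κ κ) (algebraMap 𝕜 κ (c (β s))) = algebraMap 𝕜 κ (c (β s)) := rfl
      rw [e3]
      ring

theorem th_scl_ctr (hβ : β s₀ = k₀) (c : T → 𝕜)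
    (Q : PrimeSpectrum (MvPolynomial (Tau β k₀ s₀) κ)) :
    ctr K (th β k₀ s₀ α K)
      (ctr κ (scl κ (fun s : Tau β k₀ s₀ => algebraMap 𝕜 κ (c (β s.1)))) Q) =
    ctr K (scl K (fun s => algebraMap 𝕜 K (c (β s)))) (ctr K (th β k₀ s₀ α K) Q) := by
  apply PrimeSpectrum.ext
  ext f
  rw [mem_ctr, mem_ctr, mem_ctr, mem_ctr, th_scl hβ]

/-- the contraction to the variables of a block -/
noncomputable def bk (β : σ → T) (k₀ : T) (V : PrimeSpectrum (MvPolynomial σ K)) :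
    PrimeSpectrum (MvPolynomial {s : σ // β s = k₀} K) :=
  ctr K (rename Subtype.val) V

/-- a form in the variables of a block -/
theorem exists_bk {n : ℕ} {u : MvPolynomial σ K} (hu : BH β k₀ n u) :
    ∃ u' : MvPolynomial {s : σ // β s = k₀} K, rename Subtype.val u' = u := by
  classical
  refine ⟨aeval (fun s => if h : β s = k₀ then X ⟨s, h⟩ else 0) u, ?_⟩
  have h1 : ((rename Subtype.val : MvPolynomial {s : σ // β s = k₀} K →ₐ[K] _).comp
      (aeval (fun s => if h : β s = k₀ then X ⟨s, h⟩ else 0))) =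
      (aeval (fun s => if β s = k₀ then X s else 0) : MvPolynomial σ K →ₐ[K] _) := by
    apply MvPolynomial.algHom_ext
    intro s
    rw [AlgHom.comp_apply, aeval_X, aeval_X]
    split_ifs with h
    · rw [rename_X]
    · rw [map_zero]
  have h2 : rename Subtype.val (aeval (fun s => if h : β s = k₀ then X ⟨s, h⟩ else 0) u :
      MvPolynomial {s : σ // β s = k₀} K) =
      (aeval (fun s => if β s = k₀ then X s else 0) : MvPolynomial σ K →ₐ[K] _) u :=
    DFunLike.congr_fun h1 u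
  rw [h2, BH.aeval_congr hu _ X (fun s hs => if_pos hs), aeval_X_left]
  rfl

theorem bh_rename_sub {n : ℕ} {u : MvPolynomial {s : σ // β s = k₀} K} (hu : u.IsHomogeneous n) :
    BH β k₀ n (rename Subtype.val u) := by
  have h1 : BH (fun _ : {s : σ // β s = k₀} => ()) () n u := by
    intro m hm
    refine ⟨fun _ _ => rfl, ?_⟩
    rw [Finsupp.degree_eq_weight_one]
    exact hu (mem_support_iff.1 hm)
  have h2 := h1.aeval (bl' := β) (l' := k₀) (κ := K) (fun s => X s.1) (fun s _ => BH.X' s.2)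
  have h3 : (rename Subtype.val : MvPolynomial {s : σ // β s = k₀} K →ₐ[K] MvPolynomial σ K) =
      aeval (fun s => X s.1) := by
    apply MvPolynomial.algHom_ext
    intro s
    rw [rename_X, aeval_X]
  rw [h3]
  exact h2

/-- specialisation in the block -/
theorem bk_lt (hα : α s₀ = 1) {V V₀ : PrimeSpectrum (MvPolynomial σ K)} (hV₀ : HomP V₀)
    (hmem : ∀ (u : MvPolynomial σ K) (n : ℕ), BH β k₀ n u → (u ∈ V₀.asIdeal ↔ aeval α u = 0))
    (h1 : ∃ u ∈ locS β k₀ V₀, u ∈ V.asIdeal)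
    (h2 : ∀ x, th β k₀ s₀ α K x = 0 → x ∈ V.asIdeal) :
    dl K (bk β k₀ V) < dl K (bk β k₀ V₀) := by
  apply dl_lt
  refine lt_of_le_of_ne ?_ ?_
  · intro g hg
    have hg' : rename Subtype.val g ∈ V₀.asIdeal := hg
    change rename Subtype.val g ∈ V.asIdeal
    have h3 : ∀ n, rename Subtype.val (homogeneousComponent n g) ∈ V.asIdeal := by
      intro n
      have hb := bh_rename_sub (β := β) (k₀ := k₀) (homogeneousComponent_isHomogeneous n g)
      apply h2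
      rw [th_block hα hb, (hmem _ n hb).1, map_zero, mul_zero]
      rw [rename_homogeneousComponent]
      exact hV₀ _ hg' n
    have h4 : g = ∑ n ∈ Finset.range (g.totalDegree + 1), homogeneousComponent n g :=
      (sum_homogeneousComponent g).symm
    rw [h4, map_sum]
    exact Ideal.sum_mem _ fun n _ => h3 n
  · intro h3
    obtain ⟨u, ⟨⟨n, hn⟩, hu⟩, huV⟩ := h1
    obtain ⟨u', rfl⟩ := exists_bk hn
    apply hu
    have h4 : u' ∈ (bk β k₀ V).asIdeal := huV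
    rw [← h3] at h4
    exact h4

variable {ι : Type} [Fintype ι] {f : ι → T → MvPolynomial σ K} {d : ℕ}
  {Z : Set (PrimeSpectrum (MvPolynomial σ K))} {i : ℕ} {a : T → ℕ}

/-- the closed set over the generic point of the block -/
def Zth (β : σ → T) (k₀ : T) (s₀ : σ) (α : σ → κ) (Z : Set (PrimeSpectrum (MvPolynomial σ K))) :
    Set (PrimeSpectrum (MvPolynomial (Tau β k₀ s₀) κ)) := {P | ctr K (th β k₀ s₀ α K) P ∈ Z}

theorem z_up (HZ : ∀ P, P ∈ Z ↔ ∀ e, ∑ k, f e k ∈ P.asIdeal) :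
    ∀ p ∈ Z, ∀ q, p ≤ q → q ∈ Z := by
  intro p hp q hpq
  rw [HZ] at hp ⊢
  exact fun e => hpq (hp e)

/-- The transfer of the relations to the generic point of the block. -/
theorem gen_transfer (HZ : ∀ P, P ∈ Z ↔ ∀ e, ∑ k, f e k ∈ P.asIdeal) (hβ : β s₀ = k₀)
    (N : Submodule 𝕜 (VH Z (i + 1) →₀ 𝕜)) (hN1 : RelH 𝕜 Z (i + 1) ≤ N)
    (hN2 : ∀ c : T → 𝕜, (∀ l, c l ^ d = 1) → ∀ V V' : VH Z (i + 1),
      V'.1 = ctr K (scl K (fun s => algebraMap 𝕜 K (c (β s)))) V.1 →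
        Finsupp.single V' 1 - (∏ k, c k ^ a k) • Finsupp.single V (1 : 𝕜) ∈ N)
    (V₀ : VH Z (i + 1)) (h0 : X s₀ ∉ V₀.1.asIdeal)
    (hind : ∀ V : VH Z (i + 1), dl K (bk β k₀ V.1) < dl K (bk β k₀ V₀.1) →
      Finsupp.single V (1 : 𝕜) ∈ N)
    (hα : α s₀ = 1)
    (hmem : ∀ (u : MvPolynomial σ K) (n : ℕ), BH β k₀ n u → (u ∈ V₀.1.asIdeal ↔ aeval α u = 0))
    (hgen : Gen0 β k₀ α K) (hd : d ≠ 0) (k' : ℕ) (hk' : i + 1 = td K κ + k') :
    ∃ N' : Submodule 𝕜 (VH (Zth β k₀ s₀ α Z) k' →₀ 𝕜),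
      RelH 𝕜 (Zth β k₀ s₀ α Z) k' ≤ N' ∧
      (∀ c : T → 𝕜, (∀ l, c l ^ d = 1) → ∀ V V' : VH (Zth β k₀ s₀ α Z) k',
        V'.1 = ctr κ (scl κ (fun s : Tau β k₀ s₀ => algebraMap 𝕜 κ (c (β s.1)))) V.1 →
          Finsupp.single V' 1 - (∏ k, c k ^ a k) • Finsupp.single V (1 : 𝕜) ∈ N') ∧
      (∀ V' : VH (Zth β k₀ s₀ α Z) k', ctr K (th β k₀ s₀ α K) V'.1 = V₀.1 →
        Finsupp.single V' (1 : 𝕜) ∈ N' → Finsupp.single V₀ (1 : 𝕜) ∈ N) ∧
      ∀ V' : VH (Zth β k₀ s₀ α Z) k', (∀ V : VH Z (i + 1), V.1 = ctr K (th β k₀ s₀ α K) V'.1 →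
        Finsupp.single V (1 : 𝕜) ∈ N) → Finsupp.single V' (1 : 𝕜) ∈ N' := by
  set S := locS β k₀ V₀.1 with hS
  have hF : Frac K (th β k₀ s₀ α K) S :=
    th_frac hα hβ hgen (fun u n hu h1 h2 => h1 ((hmem u n hu).1 h2))
  have hup := z_up (Z := Z) HZ
  have hU : ∀ V' : PrimeSpectrum (MvPolynomial (Tau β k₀ s₀) κ),
      V' ∈ Uset K (th β k₀ s₀ α K) S ↔ X (tau0 β k₀ s₀) ∉ V'.asIdeal :=
    fun V' => th_uset_iff hα hβ (fun u n hu h1 h2 => h1 ((hmem u n hu).2 h2)) h0 V'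
  have hdown : ∀ V' : VH (Zth β k₀ s₀ α Z) k', V'.1 ∈ Uset K (th β k₀ s₀ α K) S →
      ∃ V : VH Z (i + 1), V.1 = ctr K (th β k₀ s₀ α K) V'.1 := by
    intro V' hV'
    refine ⟨⟨ctr K (th β k₀ s₀ α K) V'.1, th_gr.homP_ctr V'.2.1, V'.2.2.1, ?_⟩, rfl⟩
    rw [dl_uset hF hV', dl_tower K κ, V'.2.2.2, hk']
  refine ⟨N.comap (pushH 𝕜 (th β k₀ s₀ α K) S (Zth β k₀ s₀ α Z) k' Z (i + 1)), ?_, ?_, ?_, ?_⟩
  · intro z hz
    rw [Submodule.mem_comap]
    refine transH 𝕜 th_gr (locS_hom V₀.1) hF ?_ (fun Q hQ => hQ) hk' N hN1 ?_ hz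
    · intro p hp q hpq
      exact hup _ hp _ (ctr_mono K _ hpq)
    · intro V h1 h2
      exact hind V (bk_lt hα V₀.2.1 hmem h1 h2)
  · intro c hc V V' h
    rw [Submodule.mem_comap, map_sub, map_smul]
    have hc0 : ∀ l, algebraMap 𝕜 κ (c l) ≠ 0 := by
      intro l h1
      rw [map_eq_zero] at h1
      have h2 := hc l
      rw [h1, zero_pow hd] at h2
      exact zero_ne_one h2
    have hUU : V'.1 ∈ Uset K (th β k₀ s₀ α K) S ↔ V.1 ∈ Uset K (th β k₀ s₀ α K) S := by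
      rw [hU, hU, not_iff_not, h, mem_ctr, scl_X]
      constructor
      · intro h1
        refine (V.1.2.mem_or_mem h1).resolve_left (fun h2 => ?_)
        exact V.1.2.ne_top (Ideal.eq_top_of_isUnit_mem _ h2 ((IsUnit.mk0 _ (hc0 _)).map C))
      · intro h1
        exact Ideal.mul_mem_left _ _ h1
    by_cases hV : V.1 ∈ Uset K (th β k₀ s₀ α K) S
    · obtain ⟨W, hW⟩ := hdown V hV
      obtain ⟨W', hW'⟩ := hdown V' (hUU.2 hV)
      rw [pushH_single 𝕜 V W hW hV, pushH_single 𝕜 V' W' hW' (hUU.2 hV)]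
      apply hN2 c hc W W'
      rw [hW', hW, h, th_scl_ctr hβ]
    · rw [pushH_single_of_not 𝕜 V hV, pushH_single_of_not 𝕜 V' (fun h1 => hV (hUU.1 h1)),
        smul_zero, sub_zero]
      exact Submodule.zero_mem _
  · intro V' hV' h
    rw [Submodule.mem_comap, pushH_single 𝕜 V' V₀ hV'.symm (th_uset hα hβ hV')] at h
    exact h
  · intro V' h
    rw [Submodule.mem_comap]
    by_cases hV : V'.1 ∈ Uset K (th β k₀ s₀ α K) S
    · obtain ⟨W, hW⟩ := hdown V' hV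
      rw [pushH_single 𝕜 V' W hW hV]
      exact h W hW
    · rw [pushH_single_of_not 𝕜 V' hV]
      exact Submodule.zero_mem _

end

end Pool.Agent.Bloch
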