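import Pool.Agent.Bloch.Big2

set_option linter.unusedSectionVars false

open MvPolynomial

namespace Pool.Agent.Bloch

section pos
variable {K : Type} [Field K] {σ : Type} [Finite σ]

theorem dl_pos (V : PrimeSpectrum (MvPolynomial σ K)) (hV : HomP V) {s : σ}
    (hs : X s ∉ V.asIdeal) : 0 < dl K V := by
  let m : PrimeSpectrum (MvPolynomial σ K) := ⟨orig K σ, (orig_max σ).isPrime⟩
  have hle : V ≤ m := by
    intro f hf
    change f ∈ orig K σ
    rw [mem_orig]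
    have h1 := hV f hf 0
    rw [homogeneousComponent_zero] at h1
    have h2 : coeff 0 f = 0 := by
      by_contra h3
      exact V.2.ne_top (Ideal.eq_top_of_isUnit_mem _ h1 ((IsUnit.mk0 _ h3).map C))
    have h3 : aeval (fun _ => (0 : K)) f = constantCoeff f := by
      have := aeval_zero' (S₁ := K) f
      exact this
    rw [h3, constantCoeff_eq, h2]
  have hne : V ≠ m := by
    rintro h
    apply hs
    rw [h]
    change X s ∈ orig K σ
    rw [mem_orig, aeval_X]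
  have := dl_lt K (lt_of_le_of_ne hle hne)
  omega

end pos

section
variable {𝕜 : Type} [Field 𝕜] [CharZero 𝕜]
variable {K : Type} [Field K] [Algebra 𝕜 K]
variable {κ : Type} [Field κ] [Algebra K κ] [Algebra.EssFiniteType K κ] [Algebra 𝕜 κ]
  [IsScalarTower 𝕜 K κ]
variable {σ : Type} [Fintype σ] {T : Type} [Fintype T] {β : σ → T} {k₀ : T} {s₀ : σ} {α : σ → κ}

theorem th_bh (hβ : β s₀ = k₀) {n : ℕ} {k : T} {u : MvPolynomial σ K} (hu : BH β k n u) :
    BH (fun s : Tau β k₀ s₀ => β s.1) k n (th β k₀ s₀ α K u) := by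
  apply hu.aeval
  intro s hs
  unfold yy
  split_ifs with h
  · exact BH.X' hs
  · have h3 : β s = k₀ := by
      by_contra h4
      exact h (fun h5 => absurd h5 h4)
    have h4 := (BH.C' (bl := fun s : Tau β k₀ s₀ => β s.1) (l := k) (α s)).mul
      (BH.X' (K := κ) (bl := fun s : Tau β k₀ s₀ => β s.1) (l := k) (s := tau0 β k₀ s₀)
        (by rw [← hs, h3]; exact hβ))
    rwa [zero_add] at h4

theorem th_off (hβ : β s₀ = k₀) {n : ℕ} {k : T} (hk : k ≠ k₀) {u : MvPolynomial σ K}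
    (hu : BH β k n u) :
    ∃ g : MvPolynomial {s : Tau β k₀ s₀ // s ≠ tau0 β k₀ s₀} κ,
      rename Subtype.val g = th β k₀ s₀ α K u := by
  classical
  let z : σ → MvPolynomial {s : Tau β k₀ s₀ // s ≠ tau0 β k₀ s₀} κ := fun s =>
    if h : (β s = k₀ → s = s₀) ∧ s ≠ s₀ then
      X ⟨⟨s, h.1⟩, fun h2 => h.2 (congrArg Subtype.val h2)⟩ else 0
  refine ⟨aeval z u, ?_⟩
  have h1 := comp_aeval_apply (R := K) z
    ((rename Subtype.val : MvPolynomial {s : Tau β k₀ s₀ // s ≠ tau0 β k₀ s₀} κ →ₐ[κ]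
      MvPolynomial (Tau β k₀ s₀) κ).restrictScalars K) u
  refine Eq.trans h1 ?_
  unfold th
  apply hu.aeval_congr
  intro s hs
  change rename Subtype.val (z s) = _
  have h2 : β s ≠ k₀ := by rw [hs]; exact hk
  have h3 : (β s = k₀ → s = s₀) ∧ s ≠ s₀ :=
    ⟨fun h => absurd h h2, by rintro rfl; exact h2 hβ⟩
  simp only [z]
  rw [dif_pos h3, rename_X, yy_off h2]

variable {ι : Type} [Fintype ι] {f : ι → T → MvPolynomial σ K} {d : ℕ}
  {Z : Set (PrimeSpectrum (MvPolynomial σ K))} {i : ℕ} {a : T → ℕ}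

theorem zth_iff (HZ : ∀ P, P ∈ Z ↔ ∀ e, ∑ k, f e k ∈ P.asIdeal)
    (P : PrimeSpectrum (MvPolynomial (Tau β k₀ s₀) κ)) :
    P ∈ Zth β k₀ s₀ α Z ↔ ∀ e, ∑ k, th β k₀ s₀ α K (f e k) ∈ P.asIdeal := by
  unfold Zth
  rw [Set.mem_ofPred_eq, HZ]
  simp only [mem_ctr, map_sum]

theorem tau_surj (hβs : Function.Surjective β) (hβ : β s₀ = k₀) :
    Function.Surjective (fun s : Tau β k₀ s₀ => β s.1) := by
  intro k
  by_cases h : k = k₀
  · exact ⟨tau0 β k₀ s₀, by rw [h]; exact hβ⟩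
  · obtain ⟨s, hs⟩ := hβs k
    exact ⟨⟨s, fun h1 => absurd (hs.symm.trans h1) h⟩, hs⟩

theorem tau_card {k : T} (hk : k ≠ k₀) :
    Nat.card {s : σ // β s = k} ≤ Nat.card {s : Tau β k₀ s₀ // β s.1 = k} := by
  let g : {s : σ // β s = k} → {s : Tau β k₀ s₀ // β s.1 = k} := fun s =>
    ⟨⟨s.1, fun h => absurd (s.2.symm.trans h) hk⟩, s.2⟩
  apply Nat.card_le_card_of_injective g
  intro s s' h
  have h1 := congrArg (fun x => (x.1.1 : σ)) h
  exact Subtype.ext h1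

theorem big_th (hβ : β s₀ = k₀) {k : T} (hk : k ≠ k₀) (h : BigBl β f d a k) :
    BigBl (fun s : Tau β k₀ s₀ => β s.1) (fun e k => th β k₀ s₀ α K (f e k)) d a k := by
  obtain ⟨ρ, g, A, h1, h2, h3⟩ := h
  refine ⟨ρ, fun j => th β k₀ s₀ α K (g j), fun e j => algebraMap K κ (A e j),
    fun j => th_bh hβ (h1 j), ?_, lt_of_lt_of_le h3 (tau_card hk)⟩
  intro e
  simp only [h2, map_sum, map_mul, th_C]

/-- The case of a moving point of the block. -/
theorem loc_a {n : ℕ} (hI : BigStmt 𝕜 d n) (hd : 0 < d) (hβs : Function.Surjective β)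
    (hf : ∀ e k, BH β k d (f e k))
    (HZ : ∀ P, P ∈ Z ↔ ∀ e, ∑ k, f e k ∈ P.asIdeal) (hβ : β s₀ = k₀)
    (N : Submodule 𝕜 (VH Z (i + 1) →₀ 𝕜)) (hN1 : RelH 𝕜 Z (i + 1) ≤ N)
    (hN2 : ∀ c : T → 𝕜, (∀ l, c l ^ d = 1) → ∀ V V' : VH Z (i + 1),
      V'.1 = ctr K (scl K (fun s => algebraMap 𝕜 K (c (β s)))) V.1 →
        Finsupp.single V' 1 - (∏ k, c k ^ a k) • Finsupp.single V (1 : 𝕜) ∈ N)
    (V₀ : VH Z (i + 1)) (h0 : X s₀ ∉ V₀.1.asIdeal)
    (hind : ∀ V : VH Z (i + 1), dl K (bk β k₀ V.1) < dl K (bk β k₀ V₀.1) →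
      Finsupp.single V (1 : 𝕜) ∈ N)
    (hα : α s₀ = 1)
    (hmem : ∀ (u : MvPolynomial σ K) (n : ℕ), BH β k₀ n u → (u ∈ V₀.1.asIdeal ↔ aeval α u = 0))
    (hgen : Gen0 β k₀ α K)
    (V' : PrimeSpectrum (MvPolynomial (Tau β k₀ s₀) κ))
    (hV' : ctr K (th β k₀ s₀ α K) V' = V₀.1) (hXV' : X (tau0 β k₀ s₀) ∉ V'.asIdeal)
    (htd : 1 ≤ td K κ) {Q : Type} [Fintype Q] (π : T → Q) (hπ : Function.Surjective π)
    (hπa : open Classical in ∀ l, d ∣ ∑ k ∈ Finset.univ.filter (fun k => π k = l), a k)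
    (E : Finset T) (hyp : Hyp 𝕜 β Z i d a π E N)
    (hE : ∀ k ∈ E, BigBl β f d a k)
    (hEn : E.card = n + 1) (hk₀ : k₀ ∈ E)
    (hi : i + Fintype.card ι + 1 ≤ Fintype.card Q + (n + 1)) :
    Finsupp.single V₀ (1 : 𝕜) ∈ N := by
  classical
  have hF : Frac K (th β k₀ s₀ α K) (locS β k₀ V₀.1) :=
    th_frac hα hβ hgen (fun u n hu h1 h2 => h1 ((hmem u n hu).1 h2))
  have hU := th_uset (α := α) hα hβ hV'
  have hhom : HomP V' := th_gr.homP_of_ctr (locS_hom V₀.1) hF hU (by rw [hV']; exact V₀.2.1)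
  have hdl : td K κ + dl κ V' = i + 1 := by
    rw [← dl_tower K κ V', ← dl_uset hF hU, hV', V₀.2.2.2]
  have hpos := dl_pos V' hhom hXV'
  obtain ⟨i', hi'⟩ : ∃ i', dl κ V' = i' + 1 := ⟨dl κ V' - 1, by omega⟩
  obtain ⟨N', hN'1, hN'2, hN'3, hN'4⟩ := gen_transfer (α := α) HZ hβ N hN1 hN2 V₀ h0 hind hα hmem hgen
    hd.ne' (i' + 1) (by omega)
  let W : VH (Zth β k₀ s₀ α Z) (i' + 1) := ⟨V', hhom, by
    change ctr K (th β k₀ s₀ α K) V' ∈ Z
    rw [hV']; exact V₀.2.2.1, hi'⟩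
  have hyp' : Hyp 𝕜 (fun s : Tau β k₀ s₀ => β s.1) (Zth β k₀ s₀ α Z) i' d a π (E.erase k₀) N' := by
    rcases hyp with h | ⟨ha, hπi, J, hJ, hyp⟩
    · exact Or.inl h
    · let J' : T → Tau β k₀ s₀ := fun k => if h : k = k₀ then tau0 β k₀ s₀ else
        ⟨J k, fun h1 => absurd ((hJ k).symm.trans h1) h⟩
      have hJ1 : ∀ k, k = k₀ → J' k = tau0 β k₀ s₀ := fun k h => dif_pos h
      have hJ2 : ∀ k, k ≠ k₀ → (J' k).1 = J k := by
        intro k h
        have : J' k = ⟨J k, fun h1 => absurd ((hJ k).symm.trans h1) h⟩ := dif_neg h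
        rw [this]
      refine Or.inr ⟨ha, hπi, J', ?_, ?_⟩
      · intro k
        by_cases h : k = k₀
        · change β (J' k).1 = k
          rw [hJ1 k h, h]
          exact hβ
        · change β (J' k).1 = k
          rw [hJ2 k h]
          exact hJ k
      · intro V hV
        apply hN'4 V
        intro W hW
        apply hyp W
        intro s hs hsJ
        have h1 : β s ≠ k₀ := fun h => hs (h ▸ hk₀)
        rw [hW, mem_ctr, th_X, yy_off h1]
        apply hV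
        · intro h
          exact hs (Finset.mem_of_mem_erase h)
        · intro h
          apply hsJ
          rw [← hJ2 (β s) h1]
          exact congrArg Subtype.val h
  apply hN'3 W hV'
  refine hI κ (Tau β k₀ s₀) T Q ι (fun s => β s.1) (fun e k => th β k₀ s₀ α K (f e k))
    (Zth β k₀ s₀ α Z) i' a π (E.erase k₀) N' (tau_surj hβs hβ) (fun e k => th_bh hβ (hf e k))
    (zth_iff HZ) hπ hπa ?_ ?_ ?_ hyp' hN'1 hN'2 W
  · intro k hk
    rw [Finset.mem_erase] at hk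
    exact big_th hβ hk.1 (hE k hk.2)
  · rw [Finset.card_erase_of_mem hk₀, hEn]; rfl
  · omega

/-- The case of a fixed point of the block at which all equations vanish. -/
theorem loc_b (hd : 0 < d) {ζ : 𝕜} (hζ : IsPrimitiveRoot ζ d)
    (hf : ∀ e k, BH β k d (f e k))
    (HZ : ∀ P, P ∈ Z ↔ ∀ e, ∑ k, f e k ∈ P.asIdeal) (hβ : β s₀ = k₀)
    (N : Submodule 𝕜 (VH Z (i + 1) →₀ 𝕜)) (hN1 : RelH 𝕜 Z (i + 1) ≤ N)
    (hN2 : ∀ c : T → 𝕜, (∀ l, c l ^ d = 1) → ∀ V V' : VH Z (i + 1),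
      V'.1 = ctr K (scl K (fun s => algebraMap 𝕜 K (c (β s)))) V.1 →
        Finsupp.single V' 1 - (∏ k, c k ^ a k) • Finsupp.single V (1 : 𝕜) ∈ N)
    (V₀ : VH Z (i + 1)) (h0 : X s₀ ∉ V₀.1.asIdeal)
    (hind : ∀ V : VH Z (i + 1), dl K (bk β k₀ V.1) < dl K (bk β k₀ V₀.1) →
      Finsupp.single V (1 : 𝕜) ∈ N)
    (hα : α s₀ = 1)
    (hmem : ∀ (u : MvPolynomial σ K) (n : ℕ), BH β k₀ n u → (u ∈ V₀.1.asIdeal ↔ aeval α u = 0))
    (hgen : Gen0 β k₀ α K)
    (V' : PrimeSpectrum (MvPolynomial (Tau β k₀ s₀) κ))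
    (hV' : ctr K (th β k₀ s₀ α K) V' = V₀.1)
    (htd : td K κ = 0) (hzero : ∀ e, aeval α (f e k₀) = 0) (hk₀ : ¬ d ∣ a k₀) :
    Finsupp.single V₀ (1 : 𝕜) ∈ N := by
  classical
  have hF : Frac K (th β k₀ s₀ α K) (locS β k₀ V₀.1) :=
    th_frac hα hβ hgen (fun u n hu h1 h2 => h1 ((hmem u n hu).1 h2))
  have hU := th_uset (α := α) hα hβ hV'
  have hhom : HomP V' := th_gr.homP_of_ctr (locS_hom V₀.1) hF hU (by rw [hV']; exact V₀.2.1)
  have hdl : td K κ + dl κ V' = i + 1 := by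
    rw [← dl_tower K κ V', ← dl_uset hF hU, hV', V₀.2.2.2]
  obtain ⟨N', hN'1, hN'2, hN'3, hN'4⟩ := gen_transfer (α := α) HZ hβ N hN1 hN2 V₀ h0 hind hα hmem hgen
    hd.ne' (i + 1) (by omega)
  let W : VH (Zth β k₀ s₀ α Z) (i + 1) := ⟨V', hhom, by
    change ctr K (th β k₀ s₀ α K) V' ∈ Z
    rw [hV']; exact V₀.2.2.1, by omega⟩
  apply hN'3 W hV'
  set c₀ : κ := algebraMap 𝕜 κ ζ with hc₀
  have hζ0 : ζ ≠ 0 := by
    rintro rfl
    have := hζ.pow_eq_one
    rw [zero_pow hd.ne'] at this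
    exact zero_ne_one this
  have hc₀0 : c₀ ≠ 0 := by rw [hc₀, Ne, map_eq_zero]; exact hζ0
  -- the equations do not involve the distinguished variable
  have hnov : ∀ e, ∃ g : MvPolynomial {s : Tau β k₀ s₀ // s ≠ tau0 β k₀ s₀} κ,
      rename Subtype.val g = ∑ k, th β k₀ s₀ α K (f e k) := by
    intro e
    have h1 : ∀ k, ∃ g : MvPolynomial {s : Tau β k₀ s₀ // s ≠ tau0 β k₀ s₀} κ,
        rename Subtype.val g = th β k₀ s₀ α K (f e k) := by
      intro k
      by_cases hk : k = k₀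
      · refine ⟨0, ?_⟩
        rw [map_zero, hk, th_block hα (hf e k₀), hzero, map_zero, mul_zero]
      · exact th_off hβ hk (hf e k)
    choose g hg using h1
    exact ⟨∑ k, g k, by rw [map_sum]; exact Finset.sum_congr rfl fun k _ => hg k⟩
  let c : T → 𝕜 := Function.update (fun _ => 1) k₀ ζ
  have hc : ∀ k, c k ^ d = 1 := by
    intro k
    by_cases h : k = k₀
    · have : c k = ζ := by rw [h]; exact Function.update_self _ _ _
      rw [this, hζ.pow_eq_one]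
    · have : c k = 1 := Function.update_of_ne h _ _
      rw [this, one_pow]
  have hscl : (fun s : Tau β k₀ s₀ => algebraMap 𝕜 κ (c (β s.1))) = scw (tau0 β k₀ s₀) c₀ := by
    funext s
    unfold scw
    split_ifs with h
    · have : c (β s.1) = ζ := by
        rw [h]
        have : β (tau0 β k₀ s₀).1 = k₀ := hβ
        rw [this]
        exact Function.update_self _ _ _
      rw [this]
    · have : c (β s.1) = 1 := by
        apply Function.update_of_ne
        intro h1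
        exact h (Subtype.ext (s.2 h1))
      rw [this, map_one]
  let W' : VH (Zth β k₀ s₀ α Z) (i + 1) := ⟨ctr κ (scl κ (scw (tau0 β k₀ s₀) c₀)) V',
    homP_scl _ hhom, by
      rw [zth_iff HZ]
      intro e
      obtain ⟨g, hg⟩ := hnov e
      rw [mem_ctr, ← hg, scl_rename, hg]
      exact (zth_iff HZ V').1 W.2.2.1 e, by
      rw [dl_scl _ (scw_ne _ hc₀0)]; exact W.2.2.2⟩
  have h1 : Finsupp.single W' 1 - Finsupp.single W (1 : 𝕜) ∈ N' := by
    apply hN'1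
    apply caseB 𝕜 (tau0 β k₀ s₀) _ hc₀0 W W' rfl
    intro P hP
    rw [zth_iff HZ] at hP ⊢
    intro e
    obtain ⟨g, hg⟩ := hnov e
    have h2 := hP e
    rw [← hg] at h2 ⊢
    have h3 : g ∈ (dn (tau0 β k₀ s₀) P).asIdeal := h2
    rw [← dn_up (tau0 β k₀ s₀) (dn (tau0 β k₀ s₀) P)] at h3
    exact h3
  have h2 := hN'2 c hc W W' (by rw [hscl])
  have h3 : (∏ k, c k ^ a k) = ζ ^ a k₀ := by
    rw [Finset.prod_eq_single k₀]
    · have : c k₀ = ζ := Function.update_self _ _ _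
      rw [this]
    · intro k _ h
      have : c k = 1 := Function.update_of_ne h _ _
      rw [this, one_pow]
    · intro h; exact absurd (Finset.mem_univ _) h
  rw [h3] at h2
  have h4 : (1 - ζ ^ a k₀) ≠ 0 := by
    intro h
    apply hk₀
    exact hζ.dvd_of_pow_eq_one _ (sub_eq_zero.1 h).symm
  have h5 := Submodule.sub_mem _ h2 h1
  have h6 : Finsupp.single W' 1 - ζ ^ a k₀ • Finsupp.single W (1 : 𝕜) -
      (Finsupp.single W' 1 - Finsupp.single W (1 : 𝕜)) =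
      (1 - ζ ^ a k₀) • Finsupp.single W (1 : 𝕜) := by
    rw [sub_smul, one_smul]; abel
  rw [h6] at h5
  have h7 := Submodule.smul_mem _ (1 - ζ ^ a k₀)⁻¹ h5
  rwa [smul_smul, inv_mul_cancel₀ h4, one_smul] at h7

/-- The case of a block which vanishes. -/
theorem loc_dead (hd : 0 < d) {ζ : 𝕜} (hζ : IsPrimitiveRoot ζ d)
    (N : Submodule 𝕜 (VH Z (i + 1) →₀ 𝕜))
    (hN2 : ∀ c : T → 𝕜, (∀ l, c l ^ d = 1) → ∀ V V' : VH Z (i + 1),
      V'.1 = ctr K (scl K (fun s => algebraMap 𝕜 K (c (β s)))) V.1 →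
        Finsupp.single V' 1 - (∏ k, c k ^ a k) • Finsupp.single V (1 : 𝕜) ∈ N)
    (V₀ : VH Z (i + 1)) (h0 : ∀ s, β s = k₀ → X s ∈ V₀.1.asIdeal) (hk₀ : ¬ d ∣ a k₀) :
    Finsupp.single V₀ (1 : 𝕜) ∈ N := by
  classical
  let c : T → 𝕜 := Function.update (fun _ => 1) k₀ ζ
  have hc : ∀ k, c k ^ d = 1 := by
    intro k
    by_cases h : k = k₀
    · have : c k = ζ := by rw [h]; exact Function.update_self _ _ _
      rw [this, hζ.pow_eq_one]
    · have : c k = 1 := Function.update_of_ne h _ _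
      rw [this, one_pow]
  have hfix : ctr K (scl K (fun s => algebraMap 𝕜 K (c (β s)))) V₀.1 = V₀.1 := by
    apply ctr_scl_fixed
    intro s hs
    apply h0
    by_contra h
    apply hs
    have : c (β s) = 1 := Function.update_of_ne h _ _
    rw [this, map_one]
  have h1 := hN2 c hc V₀ V₀ hfix.symm
  have h2 : (∏ k, c k ^ a k) = ζ ^ a k₀ := by
    rw [Finset.prod_eq_single k₀]
    · have : c k₀ = ζ := Function.update_self _ _ _
      rw [this]
    · intro k _ h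
      have : c k = 1 := Function.update_of_ne h _ _
      rw [this, one_pow]
    · intro h; exact absurd (Finset.mem_univ _) h
  rw [h2] at h1
  have h3 : (1 - ζ ^ a k₀) ≠ 0 := by
    intro h
    apply hk₀
    exact hζ.dvd_of_pow_eq_one _ (sub_eq_zero.1 h).symm
  have h4 : Finsupp.single V₀ (1 : 𝕜) - ζ ^ a k₀ • Finsupp.single V₀ (1 : 𝕜) =
      (1 - ζ ^ a k₀) • Finsupp.single V₀ (1 : 𝕜) := by rw [sub_smul, one_smul]
  rw [h4] at h1
  have h7 := Submodule.smul_mem _ (1 - ζ ^ a k₀)⁻¹ h1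
  rwa [smul_smul, inv_mul_cancel₀ h3, one_smul] at h7

end

end Pool.Agent.Bloch
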