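import Pool.Agent.Bloch.Big3

set_option linter.unusedSectionVars false

open MvPolynomial

namespace Pool.Agent.Bloch

section st
variable {𝕜 : Type} [Field 𝕜] [CharZero 𝕜]
variable {K : Type} [Field K] [Algebra 𝕜 K]
variable {σ : Type} [Fintype σ] {T : Type}

/-- scaling of the blocks -/
noncomputable def sT (K : Type) [Field K] [Algebra 𝕜 K] (β : σ → T) (c : T → 𝕜) :
    MvPolynomial σ K →ₐ[K] MvPolynomial σ K :=
  scl K (fun s => algebraMap 𝕜 K (c (β s)))

theorem sT_X (β : σ → T) (c : T → 𝕜) (s : σ) :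
    sT K β c (X s) = C (algebraMap 𝕜 K (c (β s))) * X s := by
  unfold sT
  rw [scl_X]
  rfl

theorem sT_C (β : σ → T) (c : T → 𝕜) (x : K) : sT K β c (C x) = C x := by
  unfold sT
  rw [scl_C]

theorem ctr_sT (β : σ → T) (c c' : T → 𝕜) (P : PrimeSpectrum (MvPolynomial σ K)) :
    ctr K (sT K β c) (ctr K (sT K β c') P) = ctr K (sT K β (fun k => c' k * c k)) P := by
  unfold sT
  rw [ctr_scl_scl]
  simp only [map_mul]

theorem sT_ne {c : T → 𝕜} {d : ℕ} (hd : d ≠ 0) (hc : ∀ k, c k ^ d = 1) (k : T) :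
    algebraMap 𝕜 K (c k) ≠ 0 := by
  intro h1
  rw [map_eq_zero] at h1
  have h2 := hc k
  rw [h1, zero_pow hd] at h2
  exact zero_ne_one h2

theorem sT_gr (β : σ → T) (c : T → 𝕜) : Gr (sT K β c) := by
  intro f n hf
  have := homogeneousComponent_scl (fun s => algebraMap 𝕜 K (c (β s))) f n
  rw [homogeneousComponent_eq_self hf] at this
  unfold sT
  rw [← this]
  exact homogeneousComponent_isHomogeneous _ _

theorem sT_frac (β : σ → T) {c : T → 𝕜} {d : ℕ} (hd : d ≠ 0) (hc : ∀ k, c k ^ d = 1) :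
    Frac K (sT K β c) (⊥ : Submonoid (MvPolynomial σ K)) :=
  scl_frac _ (fun s => sT_ne hd hc (β s))

theorem dl_sT (β : σ → T) {c : T → 𝕜} {d : ℕ} (hd : d ≠ 0) (hc : ∀ k, c k ^ d = 1)
    (P : PrimeSpectrum (MvPolynomial σ K)) : dl K (ctr K (sT K β c) P) = dl K P :=
  dl_scl _ (fun s => sT_ne hd hc (β s)) P

theorem sT_inv_BH {β : σ → T} {k : T} {d : ℕ} {f : MvPolynomial σ K} (hf : BH β k d f)
    {c : T → 𝕜} (hc : c k ^ d = 1) : sT K β c f = f := by
  unfold sT
  have := scl_BH hf (fun k => algebraMap 𝕜 K (c k)) (by rw [← map_pow, hc, map_one])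
  exact this

end st

section surj
variable {K : Type} [Field K] (𝕜 : Type) [Field 𝕜] [CharZero 𝕜]
variable {σ τ : Type} [Finite σ] [Finite τ]

/-- push-forward of relations along closed immersions -/
theorem push_rel {θ : MvPolynomial σ K →ₐ[K] MvPolynomial τ K} (hθ : Gr θ)
    (hF : Frac K θ (⊥ : Submonoid (MvPolynomial σ K)))
    {Z' : Set (PrimeSpectrum (MvPolynomial τ K))} {Z : Set (PrimeSpectrum (MvPolynomial σ K))}
    {k : ℕ} (hup : ∀ p ∈ Z', ∀ q, p ≤ q → q ∈ Z') (hZ : ∀ Q ∈ Z', ctr K θ Q ∈ Z)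
    (N : Submodule 𝕜 (VH Z k →₀ 𝕜)) (hN : RelH 𝕜 Z k ≤ N)
    {z : VH Z' k →₀ 𝕜} (hz : z ∈ RelH 𝕜 Z' k) :
    pushH 𝕜 θ ⊥ Z' k Z k z ∈ N := by
  refine transH 𝕜 hθ ?_ hF hup hZ (by rw [td_self, zero_add]) N hN ?_ hz
  · intro u hu
    rw [Submonoid.mem_bot] at hu
    exact ⟨0, by rw [hu]; exact isHomogeneous_one _ _⟩
  · rintro V ⟨u, hu, huV⟩ _
    rw [Submonoid.mem_bot] at hu
    rw [hu] at huV
    exact absurd ((Ideal.eq_top_iff_one _).2 huV) V.1.2.ne_top

end surj

section
variable {𝕜 : Type} [Field 𝕜] [CharZero 𝕜]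
variable {K : Type} [Field K] [Algebra 𝕜 K]
variable {σ : Type} [Fintype σ] {T : Type} [Fintype T] (β : σ → T) (k₀ : T) (s₀ : σ) (α v : σ → K)

open Classical in
/-- the parametrisation of the plane -/
noncomputable def zz (s : σ) : MvPolynomial (Option (Tau β k₀ s₀)) K :=
  if h : β s = k₀ then C (α s) * X (some (tau0 β k₀ s₀)) + C (v s) * X none
  else X (some ⟨s, fun h' => absurd h' h⟩)

/-- the inclusion of the plane -/
noncomputable def thp : MvPolynomial σ K →ₐ[K] MvPolynomial (Option (Tau β k₀ s₀)) K :=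
  aeval (zz β k₀ s₀ α v)

/-- the blocks -/
def bp (x : Option (Tau β k₀ s₀)) : Option T := x.map (fun s => β s.1)

/-- the projection to the line -/
noncomputable def pl (K : Type) [Field K] (τ : Type) :
    MvPolynomial (Option τ) K →ₐ[K] MvPolynomial τ K :=
  aeval (fun x => x.elim 0 X)

variable {β k₀ s₀ α v}

theorem zz_block {s : σ} (h : β s = k₀) :
    zz β k₀ s₀ α v s = C (α s) * X (some (tau0 β k₀ s₀)) + C (v s) * X none := dif_pos h

theorem zz_off {s : σ} (h : β s ≠ k₀) :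
    zz β k₀ s₀ α v s = X (some ⟨s, fun h' => absurd h' h⟩) := dif_neg h

theorem thp_X (s : σ) : thp β k₀ s₀ α v (X s) = zz β k₀ s₀ α v s := by
  unfold thp; rw [aeval_X]

theorem thp_C (x : K) : thp β k₀ s₀ α v (C x) = C x := by
  unfold thp; rw [aeval_C]; rfl

theorem thp_gr : Gr (thp β k₀ s₀ α v) := by
  apply gr_aeval
  intro s
  by_cases h : β s = k₀
  · rw [zz_block h]
    have h1 := (isHomogeneous_C (Option (Tau β k₀ s₀)) (α s)).mul
      (isHomogeneous_X K (some (tau0 β k₀ s₀)))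
    have h2 := (isHomogeneous_C (Option (Tau β k₀ s₀)) (v s)).mul
      (isHomogeneous_X K (none : Option (Tau β k₀ s₀)))
    rw [zero_add] at h1 h2
    exact h1.add h2
  · rw [zz_off h]
    exact isHomogeneous_X _ _

theorem pl_X (τ : Type) (x : Option τ) : pl K τ (X x) = x.elim 0 X := by
  unfold pl; rw [aeval_X]

theorem pl_C (τ : Type) (x : K) : pl K τ (C x) = C x := by
  unfold pl; rw [aeval_C]; rfl

theorem pl_gr (τ : Type) [Finite τ] : Gr (pl K τ) := by
  apply gr_aeval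
  intro x
  cases x with
  | none => exact isHomogeneous_zero _ _ _
  | some x => exact isHomogeneous_X _ _

theorem pl_surj (τ : Type) : Function.Surjective (pl K τ) := by
  intro f
  refine ⟨rename some f, ?_⟩
  have h1 : (pl K τ).comp (rename some) = AlgHom.id K (MvPolynomial τ K) := by
    apply MvPolynomial.algHom_ext
    intro s
    rw [AlgHom.comp_apply, rename_X, pl_X]
    rfl
  exact DFunLike.congr_fun h1 f

theorem frac_of_surj {A B : Type} [CommRing A] [CommRing B] [Algebra K A] [Algebra K B]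
    {φ : A →ₐ[K] B} (h : Function.Surjective φ) : Frac K φ (⊥ : Submonoid A) := by
  intro t
  obtain ⟨a, ha⟩ := h t
  exact ⟨1, Submonoid.one_mem _, a, by rw [map_one, mul_one, ha]⟩

theorem pl_thp (hα : α s₀ = 1) (f : MvPolynomial σ K) :
    pl K (Tau β k₀ s₀) (thp β k₀ s₀ α v f) = th β k₀ s₀ α K f := by
  have h1 : (pl K (Tau β k₀ s₀)).comp (thp β k₀ s₀ α v) = th β k₀ s₀ α K := by
    apply MvPolynomial.algHom_ext
    intro s
    rw [AlgHom.comp_apply, thp_X, th_X]
    by_cases h : β s = k₀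
    · rw [zz_block h, yy_block hα h, map_add, map_mul, map_mul, pl_X, pl_X, pl_C]
      change C (α s) * X (tau0 β k₀ s₀) + _ * 0 = _
      ring
    · rw [zz_off h, yy_off h, pl_X]
      rfl
  exact DFunLike.congr_fun h1 f

theorem thp_surj (hβ : β s₀ = k₀) (hα : α s₀ = 1) {s₁ : σ} (hs₁ : β s₁ = k₀)
    (hv : v s₁ - α s₁ * v s₀ ≠ 0) : Function.Surjective (thp β k₀ s₀ α v) := by
  have h1 : ∃ g, thp β k₀ s₀ α v g = X none := by
    refine ⟨C (v s₁ - α s₁ * v s₀)⁻¹ * (X s₁ - C (α s₁) * X s₀), ?_⟩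
    rw [map_mul, map_sub, map_mul, thp_X, thp_X, thp_C, thp_C, zz_block hs₁, zz_block hβ, hα]
    have h2 : C (α s₁) * X (some (tau0 β k₀ s₀)) + C (v s₁) * X none -
        C (α s₁) * (C 1 * X (some (tau0 β k₀ s₀)) + C (v s₀) * X none) =
        (C (v s₁ - α s₁ * v s₀) * X none : MvPolynomial (Option (Tau β k₀ s₀)) K) := by
      rw [map_sub, map_mul, map_one]; ring
    rw [h2, ← mul_assoc, ← map_mul, inv_mul_cancel₀ hv, map_one, one_mul]
  obtain ⟨g₁, hg₁⟩ := h1
  have h2 : ∀ x : Option (Tau β k₀ s₀), ∃ g, thp β k₀ s₀ α v g = X x := by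
    intro x
    cases x with
    | none => exact ⟨g₁, hg₁⟩
    | some s =>
      by_cases h : β s.1 = k₀
      · have h3 : s = tau0 β k₀ s₀ := Subtype.ext (s.2 h)
        subst h3
        refine ⟨X s₀ - C (v s₀) * g₁, ?_⟩
        rw [map_sub, map_mul, thp_X, thp_C, hg₁, zz_block hβ, hα, map_one]
        ring
      · exact ⟨X s.1, by rw [thp_X, zz_off h]⟩
  intro f
  induction f using MvPolynomial.induction_on with
  | C x => exact ⟨C x, thp_C x⟩
  | add p q hp hq =>
    obtain ⟨a, ha⟩ := hp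
    obtain ⟨b, hb⟩ := hq
    exact ⟨a + b, by rw [map_add, ha, hb]⟩
  | mul_X p x hp =>
    obtain ⟨a, ha⟩ := hp
    obtain ⟨b, hb⟩ := h2 x
    exact ⟨a * b, by rw [map_mul, ha, hb]⟩

theorem thp_sT (c : Option T → 𝕜) (hc : c none = c (some k₀)) (hβ : β s₀ = k₀)
    (f : MvPolynomial σ K) :
    thp β k₀ s₀ α v (sT K β (fun k => c (some k)) f) =
      sT K (bp β k₀ s₀) c (thp β k₀ s₀ α v f) := by
  induction f using MvPolynomial.induction_on with
  | C x => rw [sT_C, thp_C, sT_C]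
  | add p q hp hq => simp only [map_add, hp, hq]
  | mul_X p s hp =>
    rw [map_mul, map_mul, hp, map_mul, map_mul, sT_X, map_mul, thp_C, thp_X]
    congr 1
    by_cases h : β s = k₀
    · rw [zz_block h, map_add, map_mul, map_mul, sT_C, sT_C, sT_X, sT_X, h]
      have e1 : bp β k₀ s₀ (some (tau0 β k₀ s₀)) = some k₀ := by
        unfold bp
        rw [Option.map_some]
        exact congrArg some hβ
      have e2 : bp β k₀ s₀ none = none := rfl
      rw [e1, e2, hc]
      ring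
    · rw [zz_off h, sT_X]
      rfl

variable {ι : Type} [Fintype ι] {f : ι → T → MvPolynomial σ K} {d : ℕ}
  {Z : Set (PrimeSpectrum (MvPolynomial σ K))} {i : ℕ} {a : T → ℕ}

open Classical in
/-- the equations on the plane -/
noncomputable def fp (β : σ → T) (k₀ : T) (s₀ : σ) (α v : σ → K) (d : ℕ)
    (f : ι → T → MvPolynomial σ K) (e : ι) :
    Option T → MvPolynomial (Option (Tau β k₀ s₀)) K
  | none => C (aeval v (f e k₀)) * X none ^ d
  | some k => if k = k₀ then C (aeval α (f e k₀)) * X (some (tau0 β k₀ s₀)) ^ d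
      else thp β k₀ s₀ α v (f e k)

open Classical in
theorem fp_some (e : ι) (k : T) : fp β k₀ s₀ α v d f e (some k) =
    if k = k₀ then C (aeval α (f e k₀)) * X (some (tau0 β k₀ s₀)) ^ d
      else thp β k₀ s₀ α v (f e k) := rfl

theorem fp_bh (hβ : β s₀ = k₀) (hf : ∀ e k, BH β k d (f e k)) (e : ι) (k : Option T) :
    BH (bp β k₀ s₀) k d (fp β k₀ s₀ α v d f e k) := by
  classical
  cases k with
  | none =>
    have h1 := (BH.C' (bl := bp β k₀ s₀) (l := none) (aeval v (f e k₀))).mul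
      ((BH.X' (K := K) (bl := bp β k₀ s₀) (l := none) (s := none) rfl).pow d)
    rw [zero_add, one_mul] at h1
    exact h1
  | some k =>
    rw [fp_some]
    split_ifs with h
    · have h1 := (BH.C' (bl := bp β k₀ s₀) (l := some k) (aeval α (f e k₀))).mul
        ((BH.X' (K := K) (bl := bp β k₀ s₀) (l := some k) (s := some (tau0 β k₀ s₀)) (by
          unfold bp
          rw [Option.map_some, h]
          exact congrArg some hβ)).pow d)
      rw [zero_add, one_mul] at h1
      exact h1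
    · apply (hf e k).aeval
      intro s hs
      have h2 : β s ≠ k₀ := by rw [hs]; exact h
      rw [zz_off h2]
      apply BH.X'
      unfold bp
      rw [Option.map_some]
      exact congrArg some hs

theorem thp_k₀ [CharZero K] (hβ : β s₀ = k₀) (hf : ∀ e k, BH β k d (f e k)) (e : ι)
    (hosc : ∀ (s u : K), aeval (fun j => s * α j + u * v j) (f e k₀) =
      s ^ d * aeval α (f e k₀) + u ^ d * aeval v (f e k₀)) :
    thp β k₀ s₀ α v (f e k₀) = C (aeval α (f e k₀)) * X (some (tau0 β k₀ s₀)) ^ d +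
      C (aeval v (f e k₀)) * X none ^ d := by
  haveI : Infinite K := CharZero.infinite K
  apply MvPolynomial.funext
  intro x
  have h1 := comp_aeval_apply (R := K) (zz β k₀ s₀ α v) (aeval x : _ →ₐ[K] K) (f e k₀)
  have h2 : eval x (thp β k₀ s₀ α v (f e k₀)) =
      aeval (fun s => aeval x (zz β k₀ s₀ α v s)) (f e k₀) := h1
  rw [h2, (hf e k₀).aeval_congr _ (fun s => x (some (tau0 β k₀ s₀)) * α s + x none * v s) (by
    intro s hs
    rw [zz_block hs, map_add, map_mul, map_mul, aeval_C, aeval_C, aeval_X, aeval_X]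
    change α s * _ + v s * _ = _
    ring), hosc]
  rw [eval_add, eval_mul, eval_mul, eval_C, eval_C, eval_pow, eval_pow, eval_X, eval_X]
  ring

theorem fp_sum [CharZero K] (hβ : β s₀ = k₀) (hf : ∀ e k, BH β k d (f e k)) (e : ι)
    (hosc : ∀ (s u : K), aeval (fun j => s * α j + u * v j) (f e k₀) =
      s ^ d * aeval α (f e k₀) + u ^ d * aeval v (f e k₀)) :
    ∑ k, fp β k₀ s₀ α v d f e k = thp β k₀ s₀ α v (∑ k, f e k) := by
  classical
  rw [Fintype.sum_option, map_sum, ← Finset.add_sum_erase _ _ (Finset.mem_univ k₀),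
    ← Finset.add_sum_erase _ (fun k => thp β k₀ s₀ α v (f e k)) (Finset.mem_univ k₀),
    thp_k₀ hβ hf e hosc]
  have h1 : fp β k₀ s₀ α v d f e none = C (aeval v (f e k₀)) * X none ^ d := rfl
  have h2 : fp β k₀ s₀ α v d f e (some k₀) =
      C (aeval α (f e k₀)) * X (some (tau0 β k₀ s₀)) ^ d := by
    rw [fp_some, if_pos rfl]
  have h3 : ∑ k ∈ Finset.univ.erase k₀, fp β k₀ s₀ α v d f e (some k) =
      ∑ k ∈ Finset.univ.erase k₀, thp β k₀ s₀ α v (f e k) := by
    apply Finset.sum_congr rfl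
    intro k hk
    rw [fp_some, if_neg (Finset.ne_of_mem_erase hk)]
  rw [h1, h2, h3]
  ring

end

end Pool.Agent.Bloch
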