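import Pool.Agent.Bloch.Big4

set_option linter.unusedSectionVars false

open MvPolynomial

namespace Pool.Agent.Bloch

section cc
variable {𝕜 : Type} [Field 𝕜] {d : ℕ} {T : Type}

/-- the tuple of scalars -/
def cc (c : T → rootsOfUnity d 𝕜) : T → 𝕜 := fun k => ((c k : 𝕜ˣ) : 𝕜)

theorem cc_mul (c c' : T → rootsOfUnity d 𝕜) (k : T) : cc (c * c') k = cc c k * cc c' k := rfl

theorem cc_pow (c : T → rootsOfUnity d 𝕜) (k : T) : cc c k ^ d = 1 := by
  have h1 := (c k).2
  rw [mem_rootsOfUnity'] at h1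
  exact h1

theorem exists_cc (hd : d ≠ 0) (c : T → 𝕜) (hc : ∀ k, c k ^ d = 1) :
    ∃ γ : T → rootsOfUnity d 𝕜, cc γ = c := by
  haveI : NeZero d := ⟨hd⟩
  exact ⟨fun k => rootsOfUnity.mkOfPowEq (c k) (hc k), by
    funext k
    exact rootsOfUnity.val_mkOfPowEq_coe (c k) (hc k)⟩

variable [Fintype T]

/-- the character -/
def chB (a : T → ℕ) (c : T → 𝕜) : 𝕜 := ∏ k, c k ^ a k

theorem chB_mul (a : T → ℕ) (c c' : T → rootsOfUnity d 𝕜) :
    chB a (cc (c * c')) = chB a (cc c) * chB a (cc c') := by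
  unfold chB
  rw [← Finset.prod_mul_distrib]
  exact Finset.prod_congr rfl fun k _ => by rw [cc_mul, mul_pow]

theorem chB_ne (hd : d ≠ 0) (a : T → ℕ) (c : T → 𝕜) (hc : ∀ k, c k ^ d = 1) : chB a c ≠ 0 := by
  unfold chB
  rw [Finset.prod_ne_zero_iff]
  intro k _
  apply pow_ne_zero
  intro h
  have := hc k
  rw [h, zero_pow hd] at this
  exact zero_ne_one this

end cc

section
variable {𝕜 : Type} [Field 𝕜] [CharZero 𝕜]
variable {K : Type} [Field K] [Algebra 𝕜 K]
variable {σ : Type} [Fintype σ] {T : Type} [Fintype T] {β : σ → T} {k₀ : T} {s₀ : σ} {α v : σ → K}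
variable {ι : Type} [Fintype ι] {f : ι → T → MvPolynomial σ K} {d : ℕ}
  {Z : Set (PrimeSpectrum (MvPolynomial σ K))} {i : ℕ} {a : T → ℕ}

theorem uset_bot {τ : Type} [Finite τ] (θ : MvPolynomial σ K →ₐ[K] MvPolynomial τ K)
    (P : PrimeSpectrum (MvPolynomial τ K)) : P ∈ Uset K θ (⊥ : Submonoid (MvPolynomial σ K)) := by
  rintro u hu h
  rw [Submonoid.mem_bot] at hu
  rw [hu, map_one] at h
  exact P.2.ne_top ((Ideal.eq_top_iff_one _).2 h)

theorem bp_surj (hβs : Function.Surjective β) (hβ : β s₀ = k₀) :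
    Function.Surjective (bp β k₀ s₀) := by
  intro x
  cases x with
  | none => exact ⟨none, rfl⟩
  | some k =>
    by_cases h : k = k₀
    · refine ⟨some (tau0 β k₀ s₀), ?_⟩
      unfold bp
      rw [Option.map_some, h]
      exact congrArg some hβ
    · obtain ⟨s, hs⟩ := hβs k
      refine ⟨some ⟨s, fun h1 => absurd (hs.symm.trans h1) h⟩, ?_⟩
      unfold bp
      rw [Option.map_some]
      exact congrArg some hs

theorem bp_card {k : T} (hk : k ≠ k₀) :
    Nat.card {s : σ // β s = k} ≤ Nat.card {s : Option (Tau β k₀ s₀) // bp β k₀ s₀ s = some k} := by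
  let g : {s : σ // β s = k} → {s : Option (Tau β k₀ s₀) // bp β k₀ s₀ s = some k} := fun s =>
    ⟨some ⟨s.1, fun h => absurd (s.2.symm.trans h) hk⟩, by
      unfold bp
      rw [Option.map_some]
      exact congrArg some s.2⟩
  apply Nat.card_le_card_of_injective g
  intro s s' h
  have h1 : some (⟨s.1, fun h => absurd (s.2.symm.trans h) hk⟩ : Tau β k₀ s₀) =
    some ⟨s'.1, fun h => absurd (s'.2.symm.trans h) hk⟩ := congrArg Subtype.val h
  have h2 := congrArg Subtype.val (Option.some_injective _ h1)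
  exact Subtype.ext h2

theorem pi_zero_sum {Q : Type} (π : T → Q)
    (hπa : open Classical in ∀ l, d ∣ ∑ k ∈ Finset.univ.filter (fun k => π k = l), a k) :
    open Classical in ∀ l : Option Q, d ∣ ∑ x ∈ Finset.univ.filter
      (fun x : Option T => x.map π = l), (x.elim 0 a : ℕ) := by
  classical
  intro l
  rw [Finset.sum_filter, Fintype.sum_option]
  cases l with
  | none =>
    have h1 : ∀ k : T, (if (some k).map π = none then ((some k).elim 0 a : ℕ) else 0) = 0 := by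
      intro k
      rw [if_neg]
      rw [Option.map_some]
      exact Option.some_ne_none _
    simp only [h1, Finset.sum_const_zero]
    simp
  | some l =>
    have h1 : ∀ k : T, (if (some k).map π = some l then ((some k).elim 0 a : ℕ) else 0) =
        if π k = l then a k else 0 := by
      intro k
      simp only [Option.map_some, Option.some_inj, Option.elim_some]
    simp only [h1]
    have h2 := hπa l
    rw [Finset.sum_filter] at h2
    simpa using h2

theorem big_thp (hβ : β s₀ = k₀) {k : T} (hk : k ≠ k₀) (h : BigBl β f d a k) :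
    BigBl (bp β k₀ s₀) (fp β k₀ s₀ α v d f) d (fun x : Option T => (x.elim 0 a : ℕ)) (some k) := by
  classical
  obtain ⟨ρ, g, A, h1, h2, h3⟩ := h
  refine ⟨ρ, fun j => thp β k₀ s₀ α v (g j), A, ?_, ?_, lt_of_lt_of_le h3 (bp_card hk)⟩
  · intro j
    apply (h1 j).aeval
    intro s hs
    have h2 : β s ≠ k₀ := by rw [hs]; exact hk
    rw [zz_off h2]
    apply BH.X'
    unfold bp
    rw [Option.map_some]
    exact congrArg some hs
  · intro e
    rw [fp_some, if_neg hk, h2, map_sum]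
    simp only [map_mul, thp_C]

/-- The case of an osculating direction. -/
theorem loc_c {n : ℕ} (hI : BigStmt 𝕜 d n) (hd : 0 < d) (hβs : Function.Surjective β)
    (hf : ∀ e k, BH β k d (f e k))
    (HZ : ∀ P, P ∈ Z ↔ ∀ e, ∑ k, f e k ∈ P.asIdeal) (hβ : β s₀ = k₀)
    (N : Submodule 𝕜 (VH Z (i + 1) →₀ 𝕜)) (hN1 : RelH 𝕜 Z (i + 1) ≤ N)
    (hN2 : ∀ c : T → 𝕜, (∀ l, c l ^ d = 1) → ∀ V V' : VH Z (i + 1),
      V'.1 = ctr K (scl K (fun s => algebraMap 𝕜 K (c (β s)))) V.1 →
        Finsupp.single V' 1 - (∏ k, c k ^ a k) • Finsupp.single V (1 : 𝕜) ∈ N)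
    (V₀ : VH Z (i + 1)) (hα : α s₀ = 1)
    (V₁ : PrimeSpectrum (MvPolynomial (Tau β k₀ s₀) K)) (hV₁ : HomP V₁)
    (hV₀ : ctr K (th β k₀ s₀ α K) V₁ = V₀.1)
    {s₁ : σ} (hs₁ : β s₁ = k₀) (hv : v s₁ - α s₁ * v s₀ ≠ 0)
    (hosc : ∀ (e : ι) (s u : K), aeval (fun j => s * α j + u * v j) (f e k₀) =
      s ^ d * aeval α (f e k₀) + u ^ d * aeval v (f e k₀))
    {Q : Type} [Fintype Q] (π : T → Q) (hπ : Function.Surjective π)
    (hπa : open Classical in ∀ l, d ∣ ∑ k ∈ Finset.univ.filter (fun k => π k = l), a k)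
    (E : Finset T) (hyp : Hyp 𝕜 β Z i d a π E N) (hE : ∀ k ∈ E, BigBl β f d a k)
    (hEn : E.card = n + 1) (hk₀ : k₀ ∈ E)
    (hi : i + Fintype.card ι + 1 ≤ Fintype.card Q + (n + 1)) :
    Finsupp.single V₀ (1 : 𝕜) ∈ N := by
  classical
  haveI : CharZero K := charZero_of_injective_algebraMap (algebraMap 𝕜 K).injective
  haveI : NeZero d := ⟨hd.ne'⟩
  haveI : Fintype (rootsOfUnity d 𝕜) := Fintype.ofFinite _
  set θ := thp β k₀ s₀ α v with hθ
  have hgr : Gr θ := thp_gr
  have hsurj : Function.Surjective θ := thp_surj hβ hα hs₁ hv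
  have hF : Frac K θ (⊥ : Submonoid (MvPolynomial σ K)) := frac_of_surj hsurj
  have hfp := fp_bh (v := v) (α := α) hβ hf
  let Z₂ : Set (PrimeSpectrum (MvPolynomial (Option (Tau β k₀ s₀)) K)) := {P | ctr K θ P ∈ Z}
  have HZ₂ : ∀ P, P ∈ Z₂ ↔ ∀ e, ∑ x, fp β k₀ s₀ α v d f e x ∈ P.asIdeal := by
    intro P
    change ctr K θ P ∈ Z ↔ _
    rw [HZ]
    simp only [mem_ctr]
    have : ∀ e, θ (∑ k, f e k) = ∑ x, fp β k₀ s₀ α v d f e x :=
      fun e => (fp_sum hβ hf e (hosc e)).symm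
    simp only [this]
  have hup₂ := z_up HZ₂
  let b := bp β k₀ s₀
  -- the action of the scalars
  have hZc : ∀ c : Option T → 𝕜, (∀ k, c k ^ d = 1) → ∀ P ∈ Z₂, ctr K (sT K b c) P ∈ Z₂ := by
    intro c hc P hP
    rw [HZ₂] at hP ⊢
    intro e
    rw [mem_ctr, map_sum]
    have : ∀ x, sT K b c (fp β k₀ s₀ α v d f e x) = fp β k₀ s₀ α v d f e x :=
      fun x => sT_inv_BH (hfp e x) (hc x)
    simp only [this]
    exact hP e
  have hact : ∀ (c : Option T → 𝕜), (∀ k, c k ^ d = 1) → ∀ V : VH Z₂ (i + 1),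
      ∃ W : VH Z₂ (i + 1), W.1 = ctr K (sT K b c) V.1 := by
    intro c hc V
    exact ⟨⟨ctr K (sT K b c) V.1, (sT_gr b c).homP_ctr V.2.1, hZc c hc _ V.2.2.1, by
      rw [dl_sT b hd.ne' hc]; exact V.2.2.2⟩, rfl⟩
  have hpt : ∀ V : VH Z₂ (i + 1), ∃ W : VH Z (i + 1), W.1 = ctr K θ V.1 := by
    intro V
    exact ⟨⟨ctr K θ V.1, hgr.homP_ctr V.2.1, V.2.2.1, by
      rw [dl_uset hF (uset_bot θ V.1)]; exact V.2.2.2⟩, rfl⟩
  let a₂ : Option T → ℕ := fun x => x.elim 0 a
  let pc : (Option T → rootsOfUnity d 𝕜) → ((VH Z₂ (i + 1) →₀ 𝕜) →ₗ[𝕜] (VH Z (i + 1) →₀ 𝕜)) :=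
    fun γ => (pushH 𝕜 θ ⊥ Z₂ (i + 1) Z (i + 1)) ∘ₗ
      (pushH 𝕜 (sT K b (cc γ)) ⊥ Z₂ (i + 1) Z₂ (i + 1))
  have hpc : ∀ γ (V : VH Z₂ (i + 1)) (W : VH Z (i + 1)),
      W.1 = ctr K θ (ctr K (sT K b (cc γ)) V.1) → pc γ (Finsupp.single V 1) =
        Finsupp.single W 1 := by
    intro γ V W hW
    obtain ⟨V₂, hV₂⟩ := hact (cc γ) (cc_pow γ) V
    change pushH 𝕜 θ ⊥ Z₂ (i + 1) Z (i + 1)
      (pushH 𝕜 (sT K b (cc γ)) ⊥ Z₂ (i + 1) Z₂ (i + 1) (Finsupp.single V 1)) = _
    rw [pushH_single 𝕜 V V₂ hV₂ (uset_bot _ _), pushH_single 𝕜 V₂ W (by rw [hW, hV₂])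
      (uset_bot _ _)]
  let Φ : (VH Z₂ (i + 1) →₀ 𝕜) →ₗ[𝕜] (VH Z (i + 1) →₀ 𝕜) :=
    ∑ γ : Option T → rootsOfUnity d 𝕜, (chB a₂ (cc γ))⁻¹ • pc γ
  have hΦ : ∀ z, Φ z = ∑ γ : Option T → rootsOfUnity d 𝕜, (chB a₂ (cc γ))⁻¹ • pc γ z := by
    intro z
    change (∑ γ : Option T → rootsOfUnity d 𝕜, (chB a₂ (cc γ))⁻¹ • pc γ) z = _
    rw [LinearMap.sum_apply]
    rfl
  -- the point
  have hlift : ctr K θ (ctr K (pl K (Tau β k₀ s₀)) V₁) = V₀.1 := by
    rw [← hV₀]
    apply PrimeSpectrum.ext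
    ext g
    rw [mem_ctr, mem_ctr, mem_ctr, pl_thp hα]
  let W : VH Z₂ (i + 1) := ⟨ctr K (pl K (Tau β k₀ s₀)) V₁, (pl_gr _).homP_ctr hV₁, by
    change ctr K θ _ ∈ Z
    rw [hlift]; exact V₀.2.2.1, by
    have h1 := dl_uset hF (uset_bot θ (ctr K (pl K (Tau β k₀ s₀)) V₁))
    rw [hlift] at h1
    rw [← h1]; exact V₀.2.2.2⟩
  have hyp' : Hyp 𝕜 b Z₂ i d a₂ (Option.map π) ((E.erase k₀).map Function.Embedding.some)
      (N.comap Φ) := by
    rcases hyp with ⟨k₁, hk₁⟩ | ⟨ha, hπi, J, hJ, hyp⟩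
    · exact Or.inl ⟨some k₁, hk₁⟩
    · refine Or.inr ⟨?_, Option.map_injective hπi, fun x => x.elim none (fun k =>
        if h : k = k₀ then some (tau0 β k₀ s₀) else
        some ⟨J k, fun h1 => absurd ((hJ k).symm.trans h1) h⟩), ?_, ?_⟩
      · intro x
        cases x with
        | none => exact dvd_zero _
        | some k => exact ha k
      · intro x
        cases x with
        | none => rfl
        | some k =>
          change b (if h : k = k₀ then some (tau0 β k₀ s₀) else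
            some ⟨J k, fun h1 => absurd ((hJ k).symm.trans h1) h⟩) = some k
          by_cases h : k = k₀
          · rw [dif_pos h, h]
            exact congrArg some hβ
          · rw [dif_neg h]
            exact congrArg some (hJ k)
      · intro V hV
        rw [Submodule.mem_comap, hΦ]
        apply Submodule.sum_mem
        intro γ _
        apply Submodule.smul_mem
        obtain ⟨V₂, hV₂⟩ := hact (cc γ) (cc_pow γ) V
        obtain ⟨V₃, hV₃⟩ := hpt V₂
        rw [hpc γ V V₃ (by rw [hV₃, hV₂])]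
        apply hyp V₃
        intro s hs hsJ
        have h1 : β s ≠ k₀ := fun h => hs (h ▸ hk₀)
        rw [hV₃, hV₂, mem_ctr, mem_ctr, hθ, thp_X, zz_off h1, sT_X]
        apply Ideal.mul_mem_left
        apply hV
        · intro h
          rw [Finset.mem_map] at h
          obtain ⟨k, hk, hk2⟩ := h
          apply hs
          have h2 : some k = some (β s) := hk2
          rw [← Option.some_injective _ h2]
          exact Finset.mem_of_mem_erase hk
        · intro h
          apply hsJ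
          have h2 : (some ⟨s, fun h' => absurd h' h1⟩ : Option (Tau β k₀ s₀)) =
            (if h : β s = k₀ then some (tau0 β k₀ s₀) else
            some ⟨J (β s), fun h1 => absurd ((hJ (β s)).symm.trans h1) h⟩) := h
          rw [dif_neg h1] at h2
          exact congrArg Subtype.val (Option.some_injective _ h2)
  have hW : Finsupp.single W (1 : 𝕜) ∈ N.comap Φ := by
    refine hI K (Option (Tau β k₀ s₀)) (Option T) (Option Q) ι b (fp β k₀ s₀ α v d f) Z₂ i a₂
      (Option.map π) ((E.erase k₀).map Function.Embedding.some) (N.comap Φ)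
      (bp_surj hβs hβ) hfp HZ₂ ?_ ?_ ?_ ?_ ?_ hyp' ?_ ?_ W
    · intro x
      cases x with
      | none => exact ⟨none, rfl⟩
      | some l =>
        obtain ⟨k, hk⟩ := hπ l
        exact ⟨some k, by rw [Option.map_some, hk]⟩
    · intro l
      have h1 := pi_zero_sum π hπa l
      convert h1
    · intro x hx
      rw [Finset.mem_map] at hx
      obtain ⟨k, hk, rfl⟩ := hx
      rw [Finset.mem_erase] at hk
      exact big_thp hβ hk.1 (hE k hk.2)
    · rw [Finset.card_map, Finset.card_erase_of_mem hk₀, hEn]; rfl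
    · rw [Fintype.card_option]; omega
    · intro z hz
      rw [Submodule.mem_comap, hΦ]
      apply Submodule.sum_mem
      intro γ _
      apply Submodule.smul_mem
      apply push_rel 𝕜 hgr hF hup₂ (fun Q hQ => hQ) N hN1
      exact push_rel 𝕜 (sT_gr b (cc γ)) (sT_frac b hd.ne' (cc_pow γ)) hup₂
        (fun Q hQ => hZc _ (cc_pow γ) Q hQ) (RelH 𝕜 Z₂ (i + 1)) le_rfl hz
    · intro c hc V V' h
      obtain ⟨γ', rfl⟩ := exists_cc hd.ne' c hc
      rw [Submodule.mem_comap, map_sub, map_smul, hΦ, hΦ]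
      have h1 : ∀ γ, pc γ (Finsupp.single V' 1) = pc (γ * γ') (Finsupp.single V 1) := by
        intro γ
        obtain ⟨V₂, hV₂⟩ := hact (cc γ) (cc_pow γ) V'
        obtain ⟨W', hW'⟩ := hpt V₂
        rw [hpc γ V' W' (by rw [hW', hV₂])]
        symm
        apply hpc
        rw [hW', hV₂, h]
        change ctr K θ (ctr K (sT K b (cc γ)) (ctr K (sT K b (cc γ')) V.1)) = _
        rw [ctr_sT]
        congr 3
        funext k
        rw [cc_mul, mul_comm]
      have h2 : ∀ γ, (chB a₂ (cc γ))⁻¹ • pc γ (Finsupp.single V' 1) =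
          chB a₂ (cc γ') • ((chB a₂ (cc (γ * γ')))⁻¹ • pc (γ * γ') (Finsupp.single V 1)) := by
        intro γ
        rw [h1, smul_smul, chB_mul, mul_inv]
        congr 1
        have := chB_ne hd.ne' a₂ (cc γ') (cc_pow γ')
        field_simp
      have h3 : ∑ γ, (chB a₂ (cc γ))⁻¹ • pc γ (Finsupp.single V' 1) =
          chB a₂ (cc γ') • ∑ γ, (chB a₂ (cc γ))⁻¹ • pc γ (Finsupp.single V 1) := by
        rw [Finset.smul_sum, ← Equiv.sum_comp (Equiv.mulRight γ')
          (fun γ => chB a₂ (cc γ') • ((chB a₂ (cc γ))⁻¹ • pc γ (Finsupp.single V 1)))]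
        exact Finset.sum_congr rfl fun γ _ => h2 γ
      rw [h3]
      change _ - chB a₂ (cc γ') • _ ∈ N
      rw [sub_self]
      exact Submodule.zero_mem _
  rw [Submodule.mem_comap, hΦ] at hW
  -- each term is congruent to `V₀`
  have hterm : ∀ γ : Option T → rootsOfUnity d 𝕜,
      (chB a₂ (cc γ))⁻¹ • pc γ (Finsupp.single W 1) - Finsupp.single V₀ (1 : 𝕜) ∈ N := by
    intro γ
    let γ₂ : Option T → rootsOfUnity d 𝕜 := fun x => x.elim (γ (some k₀)) (fun k => γ (some k))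
    let γ₃ : Option T → rootsOfUnity d 𝕜 := fun x => x.elim (γ none * (γ (some k₀))⁻¹) (fun k => 1)
    have e1 : γ₃ * γ₂ = γ := by
      funext x
      cases x with
      | none => exact inv_mul_cancel_right _ _
      | some k => exact one_mul _
    have e2 : ctr K (sT K b (cc γ)) W.1 = ctr K (sT K b (cc γ₂)) W.1 := by
      rw [← e1]
      have h1 : ctr K (sT K b (cc γ₃)) W.1 = W.1 := by
        unfold sT
        apply ctr_scl_fixed
        intro x hx
        cases x with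
        | none =>
          change pl K (Tau β k₀ s₀) (X none) ∈ V₁.asIdeal
          rw [pl_X]
          exact Ideal.zero_mem _
        | some s =>
          exfalso
          apply hx
          have : cc γ₃ (b (some s)) = 1 := rfl
          rw [this, map_one]
      conv_rhs => rw [← h1, ctr_sT]
      rfl
    obtain ⟨W₂, hW₂⟩ := hact (cc γ₂) (cc_pow γ₂) W
    obtain ⟨W₃, hW₃⟩ := hpt W₂
    rw [hpc γ W W₃ (by rw [hW₃, hW₂, e2])]
    have e3 : W₃.1 = ctr K (scl K (fun s => algebraMap 𝕜 K (cc (fun k => γ (some k)) (β s))))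
        V₀.1 := by
      rw [hW₃, hW₂, ← hlift]
      apply PrimeSpectrum.ext
      ext g
      have h1 := thp_sT (β := β) (k₀ := k₀) (s₀ := s₀) (α := α) (v := v) (K := K) (cc γ₂) rfl hβ g
      change sT K b (cc γ₂) (θ g) ∈ W.1.asIdeal ↔
        θ (sT K β (fun k => cc γ₂ (some k)) g) ∈ W.1.asIdeal
      rw [h1]
    have e4 := hN2 (cc (fun k => γ (some k))) (cc_pow _) V₀ W₃ e3
    have e5 : chB a₂ (cc γ) = ∏ k, cc (fun k => γ (some k)) k ^ a k := by
      unfold chB
      rw [Fintype.prod_option]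
      change cc γ none ^ 0 * _ = _
      rw [pow_zero, one_mul]
      rfl
    have e6 := Submodule.smul_mem _ (chB a₂ (cc γ))⁻¹ e4
    rw [smul_sub, ← e5, smul_smul, inv_mul_cancel₀ (chB_ne hd.ne' a₂ _ (cc_pow γ)), one_smul] at e6
    exact e6
  have h5 : (Fintype.card (Option T → rootsOfUnity d 𝕜) : 𝕜) • Finsupp.single V₀ (1 : 𝕜) ∈ N := by
    have h6 := Submodule.sum_mem N (t := Finset.univ) fun γ _ => hterm γ
    rw [Finset.sum_sub_distrib] at h6
    have h7 := Submodule.sub_mem _ hW h6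
    rw [sub_sub_cancel, Finset.sum_const, Finset.card_univ] at h7
    rw [Nat.cast_smul_eq_nsmul]
    exact h7
  have h8 : (Fintype.card (Option T → rootsOfUnity d 𝕜) : 𝕜) ≠ 0 :=
    Nat.cast_ne_zero.2 Fintype.card_ne_zero
  have h9 := Submodule.smul_mem _ (Fintype.card (Option T → rootsOfUnity d 𝕜) : 𝕜)⁻¹ h5
  rwa [smul_smul, inv_mul_cancel₀ h8, one_smul] at h9

end

end Pool.Agent.Bloch
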