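import Pool.Agent.Bloch.Big5

set_option linter.unusedSectionVars false

open MvPolynomial

namespace Pool.Agent.Bloch

section ext
variable {K : Type} [Field K] {κ : Type} [Field κ] [Algebra K κ] [Algebra.EssFiniteType K κ]

theorem isAlg_of_td (h : td K κ = 0) : Algebra.IsAlgebraic K κ := by
  unfold td at h
  rw [Cardinal.toNat_eq_zero] at h
  rcases h with h | h
  · exact _root_.trdeg_eq_zero_iff.1 h
  · exact absurd (trdeg_lt K κ) (not_lt.2 h)

theorem exists_galois_ext [CharZero K] [Algebra.IsAlgebraic K κ] (S : Set (AlgebraicClosure κ))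
    (hS : S.Finite) :
    ∃ L : IntermediateField K (AlgebraicClosure κ), FiniteDimensional K L ∧ IsGalois K L ∧
      (∀ x : κ, algebraMap κ (AlgebraicClosure κ) x ∈ L) ∧ S ⊆ L := by
  haveI h1 : Algebra.IsAlgebraic K (AlgebraicClosure κ) :=
    Algebra.IsAlgebraic.trans K κ (AlgebraicClosure κ)
  haveI h2 : IsAlgClosure K (AlgebraicClosure κ) := ⟨inferInstance, h1⟩
  haveI h3 : IsGalois K (AlgebraicClosure κ) := IsAlgClosure.isGalois K _
  haveI h4 : Module.Finite K κ := Algebra.finite_of_essFiniteType_of_isAlgebraic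
  let b := Module.finBasis K κ
  let t : Set (AlgebraicClosure κ) :=
    Set.range (fun j => algebraMap κ (AlgebraicClosure κ) (b j)) ∪ S
  haveI h5 : Finite t := ((Set.finite_range _).union hS).to_subtype
  let L := FiniteGaloisIntermediateField.adjoin K t
  have hL : t ⊆ L.toIntermediateField := FiniteGaloisIntermediateField.subset_adjoin K t
  refine ⟨L.toIntermediateField, L.finiteDimensional, L.isGalois, ?_, ?_⟩
  · intro x
    rw [← b.sum_repr x, map_sum]
    apply L.toIntermediateField.sum_mem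
    intro j _
    rw [Algebra.smul_def, map_mul, ← IsScalarTower.algebraMap_apply K κ (AlgebraicClosure κ)]
    exact L.toIntermediateField.mul_mem (L.toIntermediateField.algebraMap_mem _)
      (hL (Or.inl ⟨j, rfl⟩))
  · exact fun x hx => hL (Or.inr hx)

theorem exists_K' [CharZero K] (htd : td K κ = 0) {σ : Type} [Fintype σ] {ι : Type} [Fintype ι]
    (B : σ → Prop) (f : ι → MvPolynomial σ K) {d : ℕ} (hd1 : 1 ≤ d)
    (hf : ∀ e, (f e).IsHomogeneous d) (α : σ → κ) (s₀ : σ) (hs₀ : B s₀) (hα₀ : α s₀ = 1)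
    (hαB : ∀ s, ¬ B s → α s = 0) (z : Prop) [Decidable z] (hd : ¬ z → 2 ≤ d)
    (hn : Fintype.card ι * (d - 1) + (if z then 1 else 0) < Nat.card {s : σ // B s})
    (hne : ¬ z → ∃ e, aeval α (f e) ≠ 0) :
    ∃ (K' : Type) (_ : Field K') (_ : Algebra K K') (_ : FiniteDimensional K K')
      (_ : IsGalois K K') (_ : Algebra κ K') (_ : IsScalarTower K κ K') (v : σ → K') (s₁ : σ),
      B s₁ ∧ v s₁ - algebraMap κ K' (α s₁) * v s₀ ≠ 0 ∧
      ∀ e (s u : K'), aeval (fun j => s * algebraMap κ K' (α j) + u * v j) (f e) =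
        s ^ d * aeval (fun j => algebraMap κ K' (α j)) (f e) + u ^ d * aeval v (f e) := by
  haveI := isAlg_of_td htd
  let Ω := AlgebraicClosure κ
  haveI : CharZero Ω := charZero_of_injective_algebraMap (algebraMap K Ω).injective
  let α' : σ → Ω := fun j => algebraMap κ Ω (α j)
  obtain ⟨w, hw1, hw2, hwz, hw3⟩ := exists_osc B f hd1 hf α' s₀ hs₀ z hn
  obtain ⟨s₁, hs₁⟩ : ∃ s₁, w s₁ ≠ w s₀ * α' s₁ := by
    by_contra hcon
    push Not at hcon
    by_cases hz : z
    · apply hw2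
      funext s
      rw [hcon s, hwz hz, zero_mul]
      rfl
    · obtain ⟨e₀, he₀⟩ := hne hz
      have hα' : aeval α' (f e₀) ≠ 0 := by
        have h1 : aeval α' (f e₀) = algebraMap κ Ω (aeval α (f e₀)) :=
          aeval_algebraMap_apply Ω α (f e₀)
        rw [h1]
        intro h2
        exact he₀ ((map_eq_zero _).1 h2)
      exact osc_indep (hd hz) (hf e₀) α' w hα' hw2 (w s₀) (funext hcon) (hw3 e₀)
  have hBs₁ : B s₁ := by
    by_contra h
    apply hs₁
    have h1 : α' s₁ = 0 := by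
      change algebraMap κ Ω (α s₁) = 0
      rw [hαB s₁ h, map_zero]
    rw [hw1 s₁ h, h1, mul_zero]
  obtain ⟨L, hL1, hL2, hL3, hL4⟩ := exists_galois_ext (K := K) (Set.range w) (Set.finite_range w)
  let φ : κ →ₐ[K] L := (IsScalarTower.toAlgHom K κ Ω).codRestrict L.toSubalgebra hL3
  letI : Algebra κ L := φ.toRingHom.toAlgebra
  haveI hST : IsScalarTower K κ L := IsScalarTower.of_algebraMap_eq (fun x => (φ.commutes x).symm)
  let v : σ → L := fun s => ⟨w s, hL4 ⟨s, rfl⟩⟩
  have hval : ∀ (y : σ → L) (g : MvPolynomial σ K), ((aeval y g : L) : Ω) =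
      aeval (fun j => (y j : Ω)) g := by
    intro y g
    exact (aeval_algebraMap_apply Ω y g).symm
  refine ⟨L, inferInstance, inferInstance, hL1, hL2, inferInstance, hST, v, s₁, hBs₁, ?_, ?_⟩
  · intro h
    apply hs₁
    have h2 := congrArg (fun x : L => (x : Ω)) h
    have h3 : w s₁ - α' s₁ * w s₀ = 0 := h2
    rw [sub_eq_zero] at h3
    rw [h3, mul_comm]
  · intro e s u
    apply Subtype.ext
    rw [hval]
    have h1 := hw3 e (s : Ω) (u : Ω)
    refine Eq.trans h1 ?_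
    change _ = ((s : Ω)) ^ d * ((aeval (fun j => algebraMap κ L (α j)) (f e) : L) : Ω) +
      (u : Ω) ^ d * ((aeval v (f e) : L) : Ω)
    rw [hval, hval]
    rfl

end ext

section desc
attribute [local instance] MvPolynomial.algebraMvPolynomial

variable {𝕜 : Type} [Field 𝕜] [CharZero 𝕜]
variable {K : Type} [Field K] [Algebra 𝕜 K]
variable {κ : Type} [Field κ] [Algebra K κ] [Algebra.EssFiniteType K κ]
variable {K' : Type} [Field K'] [Algebra K K'] [FiniteDimensional K K'] [IsGalois K K']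
  [Algebra κ K'] [IsScalarTower K κ K'] [Algebra 𝕜 K'] [IsScalarTower 𝕜 K K']
variable {σ : Type} [Fintype σ] {T : Type} [Fintype T] {β : σ → T} {k₀ : T} {s₀ : σ} {α : σ → κ}
variable {ι : Type} [Fintype ι] {f : ι → T → MvPolynomial σ K} {d : ℕ}
  {Z : Set (PrimeSpectrum (MvPolynomial σ K))} {i : ℕ} {a : T → ℕ}

/-- base change of the homomorphism to the fibre -/
theorem th_bc (g : MvPolynomial σ K) :
    th β k₀ s₀ (fun s => algebraMap κ K' (α s)) K'
      (algebraMap (MvPolynomial σ K) (MvPolynomial σ K') g) =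
    MvPolynomial.map (algebraMap κ K') (th β k₀ s₀ α K g) := by
  induction g using MvPolynomial.induction_on with
  | C x =>
    have h1 : algebraMap (MvPolynomial σ K) (MvPolynomial σ K') (C x) = C (algebraMap K K' x) :=
      map_C _ _
    rw [h1]
    unfold th
    rw [aeval_C, aeval_C]
    change C (algebraMap K K' x) = map (algebraMap κ K') (C (algebraMap K κ x))
    rw [map_C, ← IsScalarTower.algebraMap_apply K κ K']
  | add p q hp hq => rw [map_add, map_add, map_add, map_add, hp, hq]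
  | mul_X p s hp =>
    rw [map_mul, map_mul, hp, map_mul, map_mul]
    congr 1
    have h1 : algebraMap (MvPolynomial σ K) (MvPolynomial σ K') (X s) = X s := map_X _ _
    rw [h1]
    unfold th
    rw [aeval_X, aeval_X]
    unfold yy
    split_ifs with h
    · rw [map_X]
    · rw [map_mul, map_C, map_X]

theorem bh_bc {k : T} {n : ℕ} {g : MvPolynomial σ K} (hg : BH β k n g) :
    BH β k n (map (algebraMap K K') g) := by
  intro m hm
  apply hg m
  rw [mem_support_iff] at hm ⊢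
  intro h
  apply hm
  rw [coeff_map, h, map_zero]

/-- the homogeneous core lies over the same point -/
theorem exists_homP_over (V' : PrimeSpectrum (MvPolynomial (Tau β k₀ s₀) κ)) (hV' : HomP V')
    [FiniteDimensional κ K'] [IsGalois κ K'] :
    ∃ V₁ : PrimeSpectrum (MvPolynomial (Tau β k₀ s₀) K'), HomP V₁ ∧
      ∀ g, g ∈ V'.asIdeal ↔ map (algebraMap κ K') g ∈ V₁.asIdeal := by
  obtain ⟨Q, hQ⟩ := exists_ct (K := κ) (K' := K') V'
  refine ⟨cone (K := K') (X : Tau β k₀ s₀ → MvPolynomial _ K') Q, homP_cone _ _, ?_⟩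
  intro g
  have h1 : ∀ g, g ∈ V'.asIdeal ↔ map (algebraMap κ K') g ∈ Q.asIdeal := by
    intro g
    rw [← hQ]
    rfl
  rw [mem_core]
  constructor
  · intro hg n
    have h2 := (h1 _).1 (hV' g hg n)
    have h3 : homogeneousComponent n (map (algebraMap κ K') g) =
      map (algebraMap κ K') (homogeneousComponent n g) := bc_hc g n
    rw [h3]
    exact h2
  · intro h
    rw [h1]
    exact mem_of_comp _ _ h

theorem big_bc {k : T} (h : BigBl β f d a k) :
    BigBl β (fun e k => map (algebraMap K K') (f e k)) d a k := by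
  obtain ⟨ρ, g, A, h1, h2, h3⟩ := h
  refine ⟨ρ, fun j => map (algebraMap K K') (g j), fun e j => algebraMap K K' (A e j),
    fun j => bh_bc (h1 j), ?_, h3⟩
  intro e
  simp only [h2, map_sum, map_mul, map_C]

/-- The case of an osculating direction over a finite Galois extension. -/
theorem desc_c {n : ℕ} (hI : BigStmt 𝕜 d n) (hd : 0 < d) (hβs : Function.Surjective β)
    (hf : ∀ e k, BH β k d (f e k))
    (HZ : ∀ P, P ∈ Z ↔ ∀ e, ∑ k, f e k ∈ P.asIdeal) (hβ : β s₀ = k₀)
    (N : Submodule 𝕜 (VH Z (i + 1) →₀ 𝕜)) (hN1 : RelH 𝕜 Z (i + 1) ≤ N)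
    (hN2 : ∀ c : T → 𝕜, (∀ l, c l ^ d = 1) → ∀ V V' : VH Z (i + 1),
      V'.1 = ctr K (scl K (fun s => algebraMap 𝕜 K (c (β s)))) V.1 →
        Finsupp.single V' 1 - (∏ k, c k ^ a k) • Finsupp.single V (1 : 𝕜) ∈ N)
    (V₀ : VH Z (i + 1)) (hα : α s₀ = 1)
    (V' : PrimeSpectrum (MvPolynomial (Tau β k₀ s₀) κ)) (hhom : HomP V')
    (hV' : ctr K (th β k₀ s₀ α K) V' = V₀.1)
    (v : σ → K')
    {s₁ : σ} (hs₁ : β s₁ = k₀) (hv : v s₁ - algebraMap κ K' (α s₁) * v s₀ ≠ 0)
    (hosc : ∀ (e : ι) (s u : K'), aeval (fun j => s * algebraMap κ K' (α j) + u * v j) (f e k₀) =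
      s ^ d * aeval (fun j => algebraMap κ K' (α j)) (f e k₀) + u ^ d * aeval v (f e k₀))
    {Q : Type} [Fintype Q] (π : T → Q) (hπ : Function.Surjective π)
    (hπa : open Classical in ∀ l, d ∣ ∑ k ∈ Finset.univ.filter (fun k => π k = l), a k)
    (E : Finset T) (hyp : Hyp 𝕜 β Z i d a π E N) (hE : ∀ k ∈ E, BigBl β f d a k)
    (hEn : E.card = n + 1) (hk₀ : k₀ ∈ E)
    (hi : i + Fintype.card ι + 1 ≤ Fintype.card Q + (n + 1)) :
    Finsupp.single V₀ (1 : 𝕜) ∈ N := by
  classical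
  haveI h1 : FiniteDimensional κ K' := FiniteDimensional.right K κ K'
  haveI h2 : IsGalois κ K' := IsGalois.tower_top_of_isGalois K κ K'
  obtain ⟨V₁, hV₁, hmem⟩ := exists_homP_over (K' := K') V' hhom
  let α' : σ → K' := fun s => algebraMap κ K' (α s)
  let f' : ι → T → MvPolynomial σ K' := fun e k => map (algebraMap K K') (f e k)
  let Z' : Set (PrimeSpectrum (MvPolynomial σ K')) := {P | ∀ e, ∑ k, f' e k ∈ P.asIdeal}
  have HZ' : ∀ P, P ∈ Z' ↔ ∀ e, ∑ k, f' e k ∈ P.asIdeal := fun P => Iff.rfl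
  have hZZ' : ∀ P : PrimeSpectrum (MvPolynomial σ K'), P ∈ Z' ↔ ct K (A := MvPolynomial σ K) P ∈ Z := by
    intro P
    rw [HZ', HZ]
    have h3 : ∀ e, (∑ k, f e k ∈ (ct K (A := MvPolynomial σ K) P).asIdeal) ↔
        ∑ k, f' e k ∈ P.asIdeal := by
      intro e
      change algebraMap (MvPolynomial σ K) (MvPolynomial σ K') (∑ k, f e k) ∈ P.asIdeal ↔ _
      rw [map_sum]
      rfl
    simp only [h3]
  have hV₀' : ct K (A := MvPolynomial σ K) (ctr K' (th β k₀ s₀ α' K') V₁) = V₀.1 := by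
    rw [← hV']
    apply PrimeSpectrum.ext
    ext g
    change th β k₀ s₀ α' K' (algebraMap (MvPolynomial σ K) (MvPolynomial σ K') g) ∈ V₁.asIdeal ↔
      th β k₀ s₀ α K g ∈ V'.asIdeal
    rw [th_bc, hmem]
  have hgr : Gr (th β k₀ s₀ α' K') := th_gr
  let W : VH Z' (i + 1) := ⟨ctr K' (th β k₀ s₀ α' K') V₁, hgr.homP_ctr hV₁, by
    rw [hZZ', hV₀']; exact V₀.2.2.1, by
    rw [← dl_K' (K := K), ← dl_ct, hV₀']; exact V₀.2.2.2⟩
  have hosc' : ∀ (e : ι) (s u : K'), aeval (fun j => s * α' j + u * v j) (f' e k₀) =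
      s ^ d * aeval α' (f' e k₀) + u ^ d * aeval v (f' e k₀) := by
    intro e s u
    have h3 := hosc e s u
    have h4 : ∀ (y : σ → K') (g : MvPolynomial σ K), aeval y (map (algebraMap K K') g) =
        aeval y g := fun y g => aeval_map_algebraMap K' y g
    rw [h4, h4, h4]
    exact h3
  have hdown : ∀ V : VH Z' (i + 1), ∃ V₂ : VH Z (i + 1), V₂.1 = ct K V.1 := by
    intro V
    refine ⟨⟨ct K V.1, ?_, (hZZ' _).1 V.2.2.1, by rw [dl_ct, dl_K']; exact V.2.2.2⟩, rfl⟩
    intro x hx n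
    have h3 : algebraMap (MvPolynomial σ K) (MvPolynomial σ K') x ∈ V.1.asIdeal := hx
    have h4 := V.2.1 _ h3 n
    rw [bc_hc] at h4
    exact h4
  refine descN_single 𝕜 N W V₀ hV₀'.symm ?_
  refine loc_c (α := α') (v := v) (f := f') (a := a) hI hd hβs (fun e k => bh_bc (hf e k)) HZ' hβ
    (descN 𝕜 Z' (i + 1) N) ?_ ?_ W ?_ V₁ hV₁ rfl hs₁ hv hosc' π hπ hπa E ?_
    (fun k hk => big_bc (hE k hk)) hEn hk₀ hi
  · exact descN_rel 𝕜 (z_up HZ') (z_up HZ) (fun Q hQ => (hZZ' Q).1 hQ) N hN1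
  · intro c hc V₁' V₂' h
    obtain ⟨U₁, hU₁⟩ := hdown V₁'
    have hc0 : ∀ s, algebraMap 𝕜 K (c (β s)) ≠ 0 := by
      intro s h3
      rw [map_eq_zero] at h3
      have h4 := hc (β s)
      rw [h3, zero_pow hd.ne'] at h4
      exact zero_ne_one h4
    obtain ⟨U₂, hU₂⟩ : ∃ U₂ : VH Z (i + 1),
        U₂.1 = ctr K (scl K (fun s => algebraMap 𝕜 K (c (β s)))) U₁.1 := by
      refine ⟨⟨ctr K (scl K (fun s => algebraMap 𝕜 K (c (β s)))) U₁.1, homP_scl _ U₁.2.1, ?_, ?_⟩,
        rfl⟩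
      · rw [HZ]
        intro e
        rw [mem_ctr, map_sum]
        have : ∀ k, scl K (fun s => algebraMap 𝕜 K (c (β s))) (f e k) = f e k :=
          fun k => sT_inv_BH (hf e k) (hc k)
        simp only [this]
        exact (HZ _).1 U₁.2.2.1 e
      · rw [dl_scl _ hc0]; exact U₁.2.2.2
    refine descN_scl 𝕜 N (fun s => algebraMap 𝕜 K (c (β s))) hc0 V₁' V₂' U₁ U₂ hU₁ ?_ hU₂ _
      (hN2 c hc U₁ U₂ hU₂)
    rw [h]
    simp only [← IsScalarTower.algebraMap_apply 𝕜 K K']
  · change algebraMap κ K' (α s₀) = 1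
    rw [hα, map_one]
  · rcases hyp with h | ⟨ha, hπi, J, hJ, hyp⟩
    · exact Or.inl h
    · refine Or.inr ⟨ha, hπi, J, hJ, ?_⟩
      intro V hV
      obtain ⟨U, hU⟩ := hdown V
      have h3 : Finsupp.single U (1 : 𝕜) ∈ N := by
        apply hyp U
        intro s hs hsJ
        rw [hU]
        change algebraMap (MvPolynomial σ K) (MvPolynomial σ K') (X s) ∈ V.1.asIdeal
        have h4 : algebraMap (MvPolynomial σ K) (MvPolynomial σ K') (X s) = X s := map_X _ _
        rw [h4]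
        exact hV s hs hsJ
      obtain ⟨c, _, hc⟩ := avg_pb (K := K) 𝕜 V.1
      rw [mem_descN]
      refine ⟨c • Finsupp.single U 1, Submodule.smul_mem _ _ h3, ?_⟩
      rw [map_smul, map_smul, emb_single, emb_single, hc, ← hU]

end desc

end Pool.Agent.Bloch
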