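import Pool.Agent.Bloch.Big6

set_option linter.unusedSectionVars false

open MvPolynomial

namespace Pool.Agent.Bloch

section
variable {𝕜 : Type} [Field 𝕜] [CharZero 𝕜]
variable {K : Type} [Field K] [Algebra 𝕜 K]
variable {κ : Type} [Field κ] [Algebra K κ] [Algebra.EssFiniteType K κ]
variable {σ : Type} [Fintype σ] {T : Type} [Fintype T] {β : σ → T} {k₀ : T} {s₀ : σ} {α : σ → κ}
variable {ι : Type} [Fintype ι] {f : ι → T → MvPolynomial σ K} {d : ℕ}
  {Z : Set (PrimeSpectrum (MvPolynomial σ K))} {i : ℕ} {a : T → ℕ}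

/-- The case of a fixed point of the block. -/
theorem loc_fix {n : ℕ} (hI : BigStmt 𝕜 d n) (hd : 0 < d) (hβs : Function.Surjective β)
    (hf : ∀ e k, BH β k d (f e k))
    (HZ : ∀ P, P ∈ Z ↔ ∀ e, ∑ k, f e k ∈ P.asIdeal) (hβ : β s₀ = k₀)
    (N : Submodule 𝕜 (VH Z (i + 1) →₀ 𝕜)) (hN1 : RelH 𝕜 Z (i + 1) ≤ N)
    (hN2 : ∀ c : T → 𝕜, (∀ l, c l ^ d = 1) → ∀ V V' : VH Z (i + 1),
      V'.1 = ctr K (scl K (fun s => algebraMap 𝕜 K (c (β s)))) V.1 →
        Finsupp.single V' 1 - (∏ k, c k ^ a k) • Finsupp.single V (1 : 𝕜) ∈ N)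
    (V₀ : VH Z (i + 1)) (hα : α s₀ = 1)
    (V' : PrimeSpectrum (MvPolynomial (Tau β k₀ s₀) κ)) (hhom : HomP V')
    (hV' : ctr K (th β k₀ s₀ α K) V' = V₀.1) (htd : td K κ = 0)
    (hne : ¬ d ∣ a k₀ → ∃ e, aeval α (f e k₀) ≠ 0)
    {Q : Type} [Fintype Q] (π : T → Q) (hπ : Function.Surjective π)
    (hπa : open Classical in ∀ l, d ∣ ∑ k ∈ Finset.univ.filter (fun k => π k = l), a k)
    (E : Finset T) (hyp : Hyp 𝕜 β Z i d a π E N) (hE : ∀ k ∈ E, BigBl β f d a k)
    (hEn : E.card = n + 1) (hk₀ : k₀ ∈ E)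
    (hi : i + Fintype.card ι + 1 ≤ Fintype.card Q + (n + 1)) :
    Finsupp.single V₀ (1 : 𝕜) ∈ N := by
  classical
  haveI : CharZero K := charZero_of_injective_algebraMap (algebraMap 𝕜 K).injective
  obtain ⟨ρ, g, A, hg1, hg2, hg3⟩ := hE k₀ hk₀
  let α₀ : σ → κ := fun s => if β s = k₀ then α s else 0
  have hα₀ : ∀ s, β s = k₀ → α₀ s = α s := fun s hs => if_pos hs
  have hα₀' : ∀ s, ¬ β s = k₀ → α₀ s = 0 := fun s hs => if_neg hs
  obtain ⟨K', iK', iKK', iFD, iG, iκK', iST, v, s₁, hβ₁, hv, hosc⟩ := exists_K' (K := K) htd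
    (fun s => β s = k₀) g hd (fun j => (hg1 j).isHomogeneous) α₀ s₀ hβ
    (by rw [hα₀ s₀ hβ, hα]) hα₀' (d ∣ a k₀) (by
      intro h
      by_contra h1
      have h2 : d = 1 := by omega
      apply h
      rw [h2]
      exact one_dvd _) (by rw [Fintype.card_fin]; convert hg3) (by
      intro h
      obtain ⟨e, he⟩ := hne h
      by_contra hcon
      push Not at hcon
      apply he
      rw [hg2, map_sum]
      apply Finset.sum_eq_zero
      intro j _
      rw [map_mul, (hg1 j).aeval_congr α α₀ (fun s hs => (hα₀ s hs).symm), hcon j, mul_zero])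
  letI : Algebra 𝕜 K' := ((algebraMap K K').comp (algebraMap 𝕜 K)).toAlgebra
  haveI : IsScalarTower 𝕜 K K' := IsScalarTower.of_algebraMap_eq (fun _ => rfl)
  refine desc_c (K' := K') (s₁ := s₁) hI hd hβs hf HZ hβ N hN1 hN2 V₀ hα V' hhom hV' v hβ₁
    ?_ ?_ π hπ hπa E hyp hE hEn hk₀ hi
  · rw [hα₀ s₁ hβ₁] at hv
    exact hv
  · intro e s u
    have h2 : aeval (fun j => s * algebraMap κ K' (α j) + u * v j) (f e k₀) =
        aeval (fun j => s * algebraMap κ K' (α₀ j) + u * v j) (f e k₀) := by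
      apply (hf e k₀).aeval_congr
      intro j hj
      rw [hα₀ j hj]
    have h3 : aeval (fun j => algebraMap κ K' (α j)) (f e k₀) =
        aeval (fun j => algebraMap κ K' (α₀ j)) (f e k₀) := by
      apply (hf e k₀).aeval_congr
      intro j hj
      rw [hα₀ j hj]
    rw [h2, h3, hg2, map_sum, map_sum, map_sum, Finset.mul_sum, Finset.mul_sum,
      ← Finset.sum_add_distrib]
    apply Finset.sum_congr rfl
    intro j _
    rw [map_mul, map_mul, map_mul, hosc j s u, aeval_C, aeval_C, aeval_C]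
    ring

end

/-- One more big block. -/
theorem bigStmt_succ (𝕜 : Type) [Field 𝕜] [CharZero 𝕜] {d : ℕ} (hd : 0 < d) {ζ : 𝕜}
    (hζ : IsPrimitiveRoot ζ d) {n : ℕ} (hI : BigStmt 𝕜 d n) : BigStmt 𝕜 d (n + 1) := by
  classical
  intro K _ _ σ _ T _ Q _ ι _ β f Z i a π E N hβs hf HZ hπ hπa hE hEn hi hyp hN1 hN2
  obtain ⟨k₀, hk₀⟩ : ∃ k₀, k₀ ∈ E := by
    have : 0 < E.card := by omega
    exact Finset.card_pos.1 this
  suffices H : ∀ (m : ℕ) (V : VH Z (i + 1)), dl K (bk β k₀ V.1) = m → Finsupp.single V (1 : 𝕜) ∈ N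
    from fun V => H _ V rfl
  intro m
  induction m using Nat.strong_induction_on with
  | _ m ih =>
  intro V₀ hV₀
  have hind : ∀ V : VH Z (i + 1), dl K (bk β k₀ V.1) < dl K (bk β k₀ V₀.1) →
      Finsupp.single V (1 : 𝕜) ∈ N := fun V h => ih _ (by rw [← hV₀]; exact h) V rfl
  by_cases hdead : ∀ s, β s = k₀ → X s ∈ V₀.1.asIdeal
  · by_cases hz : d ∣ a k₀
    · obtain ⟨s₀, hβ⟩ := hβs k₀
      let α : σ → K := fun s => if s = s₀ then 1 else 0
      have hα : α s₀ = 1 := if_pos rfl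
      let V' : PrimeSpectrum (MvPolynomial (Tau β k₀ s₀) K) :=
        ctr K (rename Subtype.val : MvPolynomial (Tau β k₀ s₀) K →ₐ[K] MvPolynomial σ K) V₀.1
      have hgr : Gr (rename Subtype.val :
          MvPolynomial (Tau β k₀ s₀) K →ₐ[K] MvPolynomial σ K) := by
        intro g n hg
        exact hg.rename_isHomogeneous
      have hV' : ctr K (th β k₀ s₀ α K) V' = V₀.1 := by
        apply PrimeSpectrum.ext
        ext g
        change rename Subtype.val (th β k₀ s₀ α K g) ∈ V₀.1.asIdeal ↔ _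
        have key : (Ideal.Quotient.mkₐ K V₀.1.asIdeal).comp
            ((rename Subtype.val : MvPolynomial (Tau β k₀ s₀) K →ₐ[K] MvPolynomial σ K).comp
              (th β k₀ s₀ α K)) = Ideal.Quotient.mkₐ K V₀.1.asIdeal := by
          apply MvPolynomial.algHom_ext
          intro s
          rw [AlgHom.comp_apply, AlgHom.comp_apply, th_X]
          unfold yy
          split_ifs with h
          · rw [rename_X]
          · have h1 : β s = k₀ := by
              by_contra h4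
              exact h (fun h5 => absurd h5 h4)
            rw [map_mul, rename_C, rename_X, map_mul]
            have h2 : Ideal.Quotient.mkₐ K V₀.1.asIdeal (X (tau0 β k₀ s₀).1) = 0 :=
              Ideal.Quotient.eq_zero_iff_mem.2 (hdead s₀ hβ)
            have h3 : Ideal.Quotient.mkₐ K V₀.1.asIdeal (X s) = 0 :=
              Ideal.Quotient.eq_zero_iff_mem.2 (hdead s h1)
            rw [h2, h3, mul_zero]
        have h1 := DFunLike.congr_fun key g
        rw [AlgHom.comp_apply, AlgHom.comp_apply] at h1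
        rw [← Ideal.Quotient.eq_zero_iff_mem, ← Ideal.Quotient.eq_zero_iff_mem]
        exact iff_of_eq (congrArg (· = 0) h1)
      exact loc_fix (α := α) hI hd hβs hf HZ hβ N hN1 hN2 V₀ hα V' (hgr.homP_ctr V₀.2.1) hV'
        (td_self K) (fun h => absurd hz h) π hπ hπa E hyp hE hEn hk₀ hi
    · exact loc_dead hd hζ N hN2 V₀ hdead hz
  push Not at hdead
  obtain ⟨s₀, hβ, h0⟩ := hdead
  obtain ⟨κ, iκ, iA, iE, α, hα, hmem, hgen, V', hV', hXV'⟩ := exists_loc β k₀ s₀ hβ V₀.1 h0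
  letI : Algebra 𝕜 κ := ((algebraMap K κ).comp (algebraMap 𝕜 K)).toAlgebra
  haveI : IsScalarTower 𝕜 K κ := IsScalarTower.of_algebraMap_eq (fun _ => rfl)
  by_cases htd : 1 ≤ td K κ
  · exact loc_a hI hd hβs hf HZ hβ N hN1 hN2 V₀ h0 hind hα hmem hgen V' hV' hXV' htd π hπ hπa E
      hyp hE hEn hk₀ hi
  have htd0 : td K κ = 0 := by omega
  have hF : Frac K (th β k₀ s₀ α K) (locS β k₀ V₀.1) :=
    th_frac hα hβ hgen (fun u n hu h1 h2 => h1 ((hmem u n hu).1 h2))
  have hU := th_uset (α := α) hα hβ hV'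
  have hhom : HomP V' := th_gr.homP_of_ctr (locS_hom V₀.1) hF hU (by rw [hV']; exact V₀.2.1)
  by_cases hfix : ¬ d ∣ a k₀ → ∃ e, aeval α (f e k₀) ≠ 0
  · exact loc_fix (α := α) hI hd hβs hf HZ hβ N hN1 hN2 V₀ hα V' hhom hV' htd0 hfix π hπ hπa E
      hyp hE hEn hk₀ hi
  push Not at hfix
  exact loc_b hd hζ hf HZ hβ N hN1 hN2 V₀ h0 hind hα hmem hgen V' hV' htd0 hfix.2 hfix.1

theorem bigStmt (𝕜 : Type) [Field 𝕜] [CharZero 𝕜] {d : ℕ} (hd : 0 < d) {ζ : 𝕜}
    (hζ : IsPrimitiveRoot ζ d) (n : ℕ) : BigStmt 𝕜 d n := by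
  induction n with
  | zero => exact bigStmt_zero 𝕜 hd hζ
  | succ n ih => exact bigStmt_succ 𝕜 hd hζ ih

end Pool.Agent.Bloch
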