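import Pool.Agent.Bloch.ChiZero

/-! Diagonal systems: the top dimensional case, and the vanishing of the isotypic part. -/

set_option linter.unusedSectionVars false

open MvPolynomial

namespace Pool.Agent.Bloch

variable {K : Type} [Field K]

section conj
variable {t r : ℕ}

/-- the projection to the variables in `S` and `L` -/
noncomputable def rho (S : Fin r ↪ Fin t) (L : Finset (Fin t)) :
    MvPolynomial (Fin t) K →ₐ[K] MvPolynomial (Fin r) (MvPolynomial L K) :=
  open Classical in
  aeval (fun k => if h : ∃ j, S j = k then X (Classical.choose h) else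
    if h' : k ∈ L then C (X ⟨k, h'⟩) else 0)

theorem rho_C (S : Fin r ↪ Fin t) (L : Finset (Fin t)) (a : K) :
    rho S L (C a : MvPolynomial (Fin t) K) = C (C a) := by
  rw [← algebraMap_eq, AlgHom.commutes]; rfl

theorem rho_S (S : Fin r ↪ Fin t) (L : Finset (Fin t)) (j : Fin r) :
    rho (K := K) S L (X (S j)) = X j := by
  classical
  unfold rho
  have h : ∃ j', S j' = S j := ⟨j, rfl⟩
  rw [aeval_X, dif_pos h]
  congr 1
  exact S.injective (Classical.choose_spec h)

theorem rho_L (S : Fin r ↪ Fin t) (L : Finset (Fin t)) {k : Fin t} (h : ∀ j, S j ≠ k)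
    (hk : k ∈ L) : rho (K := K) S L (X k) = C (X ⟨k, hk⟩) := by
  classical
  unfold rho
  rw [aeval_X, dif_neg (by rintro ⟨j, hj⟩; exact h j hj), dif_pos hk]

theorem rho_not (S : Fin r ↪ Fin t) (L : Finset (Fin t)) {k : Fin t} (h : ∀ j, S j ≠ k)
    (hk : k ∉ L) : rho (K := K) S L (X k) = 0 := by
  classical
  unfold rho
  rw [aeval_X, dif_neg (by rintro ⟨j, hj⟩; exact h j hj), dif_neg hk]

theorem rho_surj (S : Fin r ↪ Fin t) (L : Finset (Fin t)) (hL : ∀ k ∈ L, ∀ j, S j ≠ k) :
    Function.Surjective (rho (K := K) S L) := by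
  intro y
  induction y using MvPolynomial.induction_on with
  | C b =>
    induction b using MvPolynomial.induction_on with
    | C a => exact ⟨C a, rho_C S L a⟩
    | add a b ha hb =>
      obtain ⟨x, hx⟩ := ha
      obtain ⟨y, hy⟩ := hb
      exact ⟨x + y, by rw [map_add, hx, hy, C_add]⟩
    | mul_X a l ha =>
      obtain ⟨x, hx⟩ := ha
      refine ⟨x * X l.1, ?_⟩
      rw [map_mul, hx, rho_L S L (hL _ l.2) l.2, C_mul]
  | add a b ha hb =>
    obtain ⟨x, hx⟩ := ha
    obtain ⟨y, hy⟩ := hb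
    exact ⟨x + y, by rw [map_add, hx, hy]⟩
  | mul_X a j ha =>
    obtain ⟨x, hx⟩ := ha
    exact ⟨x * X (S j), by rw [map_mul, hx, rho_S]⟩

theorem rho_ker (S : Fin r ↪ Fin t) (L : Finset (Fin t)) (p : Ideal (MvPolynomial (Fin t) K))
    (hp : ∀ k, (∀ j, S j ≠ k) → k ∉ L → X k ∈ p) (x : MvPolynomial (Fin t) K)
    (hx : rho S L x = 0) : x ∈ p := by
  let ψ : MvPolynomial (Fin r) (MvPolynomial L K) →+* MvPolynomial (Fin t) K ⧸ p :=
    eval₂Hom ((aeval (fun l : L => Ideal.Quotient.mk p (X l.1)) :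
      MvPolynomial L K →ₐ[K] MvPolynomial (Fin t) K ⧸ p) : MvPolynomial L K →+* _)
      (fun j => Ideal.Quotient.mk p (X (S j)))
  have h : ∀ x, ψ (rho S L x) = Ideal.Quotient.mk p x := by
    intro x
    induction x using MvPolynomial.induction_on with
    | C a =>
      rw [rho_C]
      change eval₂Hom _ _ (C (C a)) = _
      rw [eval₂Hom_C]
      change aeval _ (C a) = _
      rw [aeval_C]
      rfl
    | add a b ha hb => rw [map_add, map_add, map_add, ha, hb]
    | mul_X a k ha =>
      have hk : ψ (rho S L (X k)) = Ideal.Quotient.mk p (X k) := by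
        by_cases h : ∃ j, S j = k
        · obtain ⟨j, rfl⟩ := h
          rw [rho_S]
          exact eval₂Hom_X' _ _ _
        · push Not at h
          by_cases hk : k ∈ L
          · rw [rho_L S L h hk]
            change eval₂Hom _ _ (C (X _)) = _
            rw [eval₂Hom_C]
            exact aeval_X _ _
          · rw [rho_not S L h hk, map_zero]
            exact (Ideal.Quotient.eq_zero_iff_mem.2 (hp k h hk)).symm
      rw [map_mul, map_mul, map_mul, ha, hk]
  have h1 := h x
  rw [hx, map_zero] at h1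
  exact Ideal.Quotient.eq_zero_iff_mem.1 h1.symm

theorem rho_sum (d : ℕ) (A : Fin r → Fin t → K) (S : Fin r ↪ Fin t) (L : Finset (Fin t))
    (hL : ∀ k ∈ L, ∀ j, S j ≠ k) (hd : 0 < d) (e : Fin r) :
    rho S L (∑ k, df d A e k) = expand d (lin (∑ l : L, C (A e l.1) * X l ^ d)
      (fun j => algebraMap K (MvPolynomial L K) (A e (S j)))) := by
  classical
  have h1 : ∀ k, rho S L (df d A e k) = C (C (A e k)) * (rho S L (X k)) ^ d := by
    intro k
    unfold df
    rw [map_mul, map_pow, rho_C]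
  rw [map_sum, Finset.sum_congr rfl (fun k _ => h1 k),
    ← Finset.sum_add_sum_compl (Finset.univ.map S)]
  unfold lin
  rw [map_add, expand_C, map_sum, map_sum, Finset.sum_map, add_comm]
  refine congrArg₂ (· + ·) ?_ ?_
  · have h2 : L ⊆ (Finset.univ.map S)ᶜ := by
      intro k hk
      rw [Finset.mem_compl, Finset.mem_map]
      rintro ⟨j, _, hj⟩
      exact hL k hk j hj
    rw [← Finset.sum_subset h2]
    · rw [← Finset.sum_coe_sort L]
      apply Finset.sum_congr rfl
      intro k _
      rw [rho_L S L (hL _ k.2) k.2, C_mul, C_pow]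
    · intro k hk hk'
      rw [Finset.mem_compl, Finset.mem_map] at hk
      rw [rho_not S L (by intro j hj; exact hk ⟨j, Finset.mem_univ _, hj⟩) hk', zero_pow hd.ne',
        mul_zero]
  · apply Finset.sum_congr rfl
    intro j _
    rw [rho_S, map_mul, expand_C, expand_X]
    rfl

/-- Components of the intersection with a coordinate space are conjugate. -/
theorem conj_zero {d : ℕ} (hd : 0 < d) {ζ : K} (hζ : IsPrimitiveRoot ζ d)
    (A : Fin r → Fin t → K) (S : Fin r ↪ Fin t) (B : Fin r → Fin r → K)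
    (hBA : ∀ j j', ∑ e, B j e * A e (S j') = if j = j' then 1 else 0)
    {Z : Set (PrimeSpectrum (MvPolynomial (Fin t) K))}
    (HZ : ∀ Q, Q ∈ Z ↔ ∀ e, ∑ k, df d A e k ∈ Q.asIdeal) {i : ℕ}
    (L : Finset (Fin t)) (hL : ∀ k ∈ L, ∀ j, S j ≠ k) (hLc : L.card ≤ i + 1)
    (V V' : VH Z (i + 1)) (hV : ∀ k, (∀ j, S j ≠ k) → k ∉ L → X k ∈ V.1.asIdeal)
    (hV' : ∀ k, (∀ j, S j ≠ k) → k ∉ L → X k ∈ V'.1.asIdeal) :
    ∃ c : Fin t → K, (∀ k, c k ^ d = 1) ∧ (∀ k, (∀ j, S j ≠ k) → c k = 1) ∧
      V'.1 = ctr K (scl K c) V.1 := by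
  classical
  have hF : Frac K (rho (K := K) S L) (⊥ : Submonoid (MvPolynomial (Fin t) K)) := by
    intro y
    obtain ⟨x, rfl⟩ := rho_surj S L hL y
    exact ⟨1, Submonoid.one_mem _, x, by rw [map_one, mul_one]⟩
  set g : Fin r → MvPolynomial L K := fun e => ∑ l : L, C (A e l.1) * X l ^ d with hg
  let θ : MvPolynomial (Fin r) (MvPolynomial L K) →ₐ[K] MvPolynomial L K :=
    (solve B g).restrictScalars K
  let 𝔨 : PrimeSpectrum (MvPolynomial (Fin r) (MvPolynomial L K)) := ctr K θ ⟨⊥, Ideal.isPrime_bot⟩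
  have hd𝔨 : dl K 𝔨 = L.card := by
    have h8 : dl K 𝔨 = dl K (⟨⊥, Ideal.isPrime_bot⟩ : PrimeSpectrum (MvPolynomial L K)) := by
      apply dl_ctr_eq_of_frac
      intro x
      refine ⟨1, C x, ?_, ?_⟩
      · rw [map_one, mul_one]
        exact (solve_C B g x).symm
      · rw [map_one]
        intro h
        rw [Ideal.mem_bot] at h
        exact one_ne_zero h
    have h9 : dl K (⟨⊥, Ideal.isPrime_bot⟩ : PrimeSpectrum (MvPolynomial L K)) = L.card := by
      unfold dl
      rw [td_congr K (AlgEquiv.quotientBot K (MvPolynomial L K))]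
      unfold td
      rw [MvPolynomial.trdeg_of_isDomain]
      simp
    rw [h8, h9]
  have hpt : ∀ V : VH Z (i + 1), (∀ k, (∀ j, S j ≠ k) → k ∉ L → X k ∈ V.1.asIdeal) →
      ∃ Q : PrimeSpectrum (MvPolynomial (Fin r) (MvPolynomial L K)), ctr K (rho S L) Q = V.1 ∧
        dl K Q = i + 1 ∧ ctr K (expK K d (Fin r) (MvPolynomial L K)) Q = 𝔨 := by
    intro V hV
    obtain ⟨Q, hQ, hQV⟩ := exists_uset hF V.1 (rho_ker S L V.1.asIdeal hV) (by
      intro u hu h
      rw [Submonoid.mem_bot] at hu
      rw [hu] at h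
      exact V.1.2.ne_top ((Ideal.eq_top_iff_one _).2 h))
    have hdQ : dl K Q = i + 1 := by rw [← dl_uset hF hQ, hQV, V.2.2.2]
    refine ⟨Q, hQV, hdQ, ?_⟩
    symm
    apply eq_of_le_of_dl K
    · intro x hx
      have hx0 : solve B g x = 0 := hx
      refine solve_ker (fun e l => A e (S l)) B hBA g _ ?_ x hx0
      intro e
      rw [mem_ctr, expK_apply, ← rho_sum d A S L hL hd e, ← mem_ctr, hQV]
      exact (HZ V.1).1 V.2.2.1 e
    · rw [hd𝔨, expK_dl hd, hdQ]
      exact hLc
  obtain ⟨Q, hQV, hdQ, hQ𝔨⟩ := hpt V hV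
  obtain ⟨Q', hQV', hdQ', hQ𝔨'⟩ := hpt V' hV'
  obtain ⟨c, hc1, hc2⟩ := exists_scl hd hζ Q Q' (by
    intro f hf
    have : f ∈ (ctr K (expK K d (Fin r) (MvPolynomial L K)) Q').asIdeal := hf
    rw [hQ𝔨', ← hQ𝔨] at this
    exact this) (by rw [hdQ, hdQ'])
  let c' : Fin t → K := fun k => if h : ∃ j, S j = k then c (Classical.choose h) else 1
  have hc'S : ∀ j, c' (S j) = c j := by
    intro j
    have h : ∃ j', S j' = S j := ⟨j, rfl⟩
    change (if h : ∃ j', S j' = S j then c (Classical.choose h) else 1) = c j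
    rw [dif_pos h]
    congr 1
    exact S.injective (Classical.choose_spec h)
  have hc'n : ∀ k, (∀ j, S j ≠ k) → c' k = 1 := by
    intro k hk
    exact dif_neg (by rintro ⟨j, hj⟩; exact hk j hj)
  refine ⟨c', ?_, hc'n, ?_⟩
  · intro k
    by_cases h : ∃ j, S j = k
    · obtain ⟨j, rfl⟩ := h
      rw [hc'S, hc1]
    · push Not at h
      rw [hc'n k h, one_pow]
  · have hcomm : ∀ x, scl (MvPolynomial L K) c (rho S L x) = rho S L (scl K c' x) := by
      intro x
      have : (scl (MvPolynomial L K) c).comp (rho S L) = (rho S L).comp (scl K c') := by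
        apply MvPolynomial.algHom_ext
        intro k
        rw [AlgHom.comp_apply, AlgHom.comp_apply, scl_X, map_mul]
        by_cases h : ∃ j, S j = k
        · obtain ⟨j, rfl⟩ := h
          rw [rho_S, scl_X, hc'S, rho_C]
          rfl
        · push Not at h
          rw [hc'n k h, map_one, C_1, map_one, one_mul]
          by_cases hk : k ∈ L
          · rw [rho_L S L h hk, scl_C]
          · rw [rho_not S L h hk, map_zero]
      exact DFunLike.congr_fun this x
    rw [← hQV', ← hQV, hc2]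
    apply PrimeSpectrum.ext
    ext x
    rw [mem_ctr, mem_ctr, mem_ctr, mem_ctr, hcomm]

end conj

section zero
variable {t r : ℕ} [CharZero K]

/-- The part belonging to a nontrivial character which is trivial on the indices of a nonzero
maximal minor vanishes. -/
theorem chi_zero {d : ℕ} (hd : 0 < d) {ζ : K} (hζ : IsPrimitiveRoot ζ d)
    (A : Fin r → Fin t → K) (S : Fin r ↪ Fin t) (B : Fin r → Fin r → K)
    (hAB : ∀ e e', ∑ l, A e (S l) * B l e' = if e = e' then 1 else 0)
    (hBA : ∀ j j', ∑ e, B j e * A e (S j') = if j = j' then 1 else 0)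
    {Z : Set (PrimeSpectrum (MvPolynomial (Fin t) K))}
    (HZ : ∀ Q, Q ∈ Z ↔ ∀ e, ∑ k, df d A e k ∈ Q.asIdeal) {i : ℕ}
    (a : Fin t → ℕ) (haS : ∀ j, d ∣ a (S j)) (has : d ∣ ∑ k, a k)
    (k₁ : Fin t) (hk₁ : ¬ d ∣ a k₁)
    (N : Submodule K (VH Z (i + 1) →₀ K)) (hN1 : RelH K Z (i + 1) ≤ N)
    (hN2 : ∀ c : Fin t → K, (∀ l, c l ^ d = 1) → ∀ V V' : VH Z (i + 1),
      V'.1 = ctr K (scl K c) V.1 →
        Finsupp.single V' 1 - (∏ k, c k ^ a k) • Finsupp.single V (1 : K) ∈ N) :
    ∀ V : VH Z (i + 1), Finsupp.single V 1 ∈ N := by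
  classical
  have hsuper : ∀ c : Fin (r + 1) → K, (∀ l, c l ^ d = 1) → ∀ V V' : VH Z (i + 1),
      V'.1 = ctr K (scl K (fun s => c (sb S s))) V.1 →
        Finsupp.single V' 1 - Finsupp.single V 1 ∈ N := by
    intro c hc V V' h
    have h1 := hN2 (fun k => c (sb S k)) (fun k => hc _) V V' h
    have h2 : (∏ k, c (sb S k) ^ a k) = 1 := by
      rw [← Finset.prod_mul_prod_compl (Finset.univ.map S)]
      have h3 : ∏ k ∈ Finset.univ.map S, c (sb S k) ^ a k = 1 := by
        rw [Finset.prod_map]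
        apply Finset.prod_eq_one
        intro j _
        obtain ⟨m, hm⟩ := haS j
        rw [hm, pow_mul, hc, one_pow]
      have h4 : ∏ k ∈ (Finset.univ.map S)ᶜ, c (sb S k) ^ a k =
          c 0 ^ ∑ k ∈ (Finset.univ.map S)ᶜ, a k := by
        rw [← Finset.prod_pow_eq_pow_sum]
        apply Finset.prod_congr rfl
        intro k hk
        rw [Finset.mem_compl, Finset.mem_map] at hk
        rw [sb_of_not S (fun j hj => hk ⟨j, Finset.mem_univ _, hj⟩)]
      have h5 : d ∣ ∑ k ∈ (Finset.univ.map S)ᶜ, a k := by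
        rw [← Finset.sum_add_sum_compl (Finset.univ.map S)] at has
        refine (Nat.dvd_add_right ?_).1 has
        rw [Finset.sum_map]
        exact Finset.dvd_sum (fun j _ => haS j)
      obtain ⟨m, hm⟩ := h5
      rw [h3, h4, hm, pow_mul, hc, one_pow, one_mul]
    rw [h2, one_smul] at h1
    exact h1
  have hsc : ∀ c : Fin t → K, (∀ k, c k ^ d = 1) → ∀ V : VH Z (i + 1), ∃ V' : VH Z (i + 1),
      V'.1 = ctr K (scl K c) V.1 := by
    intro c hc V
    refine ⟨⟨ctr K (scl K c) V.1, homP_scl _ V.2.1, ?_, ?_⟩, rfl⟩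
    · rw [HZ]
      intro e
      rw [mem_ctr, map_sum]
      have h1 : ∀ k, scl K c (df d A e k) = df d A e k := fun k =>
        scl_BH (df_bh d A e k) c (hc k)
      rw [Finset.sum_congr rfl (fun k _ => h1 k)]
      exact (HZ _).1 V.2.2.1 e
    · rw [dl_scl _ (fun s h => by
        have := hc s
        rw [h, zero_pow hd.ne'] at this
        exact zero_ne_one this)]
      exact V.2.2.2
  have top : ∀ V : VH Z (i + 1), (live S V.1).card ≤ i + 1 → Finsupp.single V 1 ∈ N := by
    intro V hLc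
    let c : Fin t → K := Function.update (fun _ => 1) k₁ ζ
    have hc : ∀ k, c k ^ d = 1 := by
      intro k
      by_cases h : k = k₁
      · have : c k = ζ := by rw [h]; exact Function.update_self _ _ _
        rw [this, hζ.pow_eq_one]
      · have : c k = 1 := Function.update_of_ne h _ _
        rw [this, one_pow]
    obtain ⟨V', hV'⟩ := hsc c hc V
    have h1 := hN2 c hc V V' hV'
    have h2 : (∏ k, c k ^ a k) = ζ ^ a k₁ := by
      rw [Finset.prod_eq_single k₁]
      · have : c k₁ = ζ := Function.update_self _ _ _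
        rw [this]
      · intro k _ h
        have : c k = 1 := Function.update_of_ne h _ _
        rw [this, one_pow]
      · intro h; exact absurd (Finset.mem_univ _) h
    rw [h2] at h1
    have hX : ∀ k, (∀ j, S j ≠ k) → k ∉ live S V.1 → X k ∈ V.1.asIdeal := by
      intro k hk hkl
      by_contra h
      exact hkl ((mem_live S V.1 k).2 ⟨hk, h⟩)
    have hX' : ∀ k, (∀ j, S j ≠ k) → k ∉ live S V.1 → X k ∈ V'.1.asIdeal := by
      intro k hk hkl
      rw [hV', mem_ctr, scl_X]
      exact Ideal.mul_mem_left _ _ (hX k hk hkl)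
    obtain ⟨c', hc'1, hc'2, hc'3⟩ := conj_zero hd hζ A S B hBA HZ (live S V.1)
      (fun k hk => ((mem_live S V.1 k).1 hk).1) hLc V V' hX hX'
    have h3 := hN2 c' hc'1 V V' hc'3
    have h4 : (∏ k, c' k ^ a k) = 1 := by
      apply Finset.prod_eq_one
      intro k _
      by_cases h : ∃ j, S j = k
      · obtain ⟨j, rfl⟩ := h
        obtain ⟨m, hm⟩ := haS j
        rw [hm, pow_mul, hc'1, one_pow]
      · push Not at h
        rw [hc'2 k h, one_pow]
    rw [h4, one_smul] at h3
    have h5 : (1 - ζ ^ a k₁) ≠ 0 := by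
      intro h
      apply hk₁
      exact hζ.dvd_of_pow_eq_one _ (sub_eq_zero.1 h).symm
    have h6 : Finsupp.single V (1 : K) = (1 - ζ ^ a k₁)⁻¹ •
        ((Finsupp.single V' 1 - ζ ^ a k₁ • Finsupp.single V (1 : K)) -
          (Finsupp.single V' 1 - Finsupp.single V 1)) := by
      have h7 : (Finsupp.single V' 1 - ζ ^ a k₁ • Finsupp.single V (1 : K)) -
          (Finsupp.single V' 1 - Finsupp.single V 1) = (1 - ζ ^ a k₁) • Finsupp.single V (1 : K) := by
        rw [sub_smul, one_smul]; abel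
      rw [h7, smul_smul, inv_mul_cancel₀ h5, one_smul]
    rw [h6]
    exact Submodule.smul_mem _ _ (Submodule.sub_mem _ h1 h3)
  have main : ∀ (n : ℕ) (V : VH Z (i + 1)), (live S V.1).card ≤ n →
      Finsupp.single V 1 ∈ N := by
    intro n
    induction n with
    | zero =>
      intro V hn
      -- covered by the top dimensional case below
      have hLc : (live S V.1).card ≤ i + 1 := by omega
      exact top V hLc
    | succ n ih =>
      intro V hn
      by_cases hV : i + 1 < (live S V.1).card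
      · refine (sup_le le_rfl ?_ : _ ⊔ _ ≤ N) (move_zero K hd hζ A S B hAB hBA HZ N hN1 hsuper V hV)
        rw [Submodule.span_le]
        rintro w ⟨V', h1, rfl⟩
        have := Finset.card_lt_card h1
        exact ih V' (by omega)
      · exact top V (by omega)
  intro V
  exact main _ V le_rfl

end zero

end Pool.Agent.Bloch
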