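import Pool.Agent.Bloch.ZeroSum2

/-! The number of parts of sum zero of a sequence in `ZMod d`, `d = 2, 3, 4, 5, 7`. -/

namespace Pool.Agent.Bloch

section main
variable {d t : ℕ}

/-- the value of a residue: the representative between `1` and `d` -/
def vl (x : ZMod d) : ℕ := if x = 0 then d else x.val

theorem sum_cnt {M : Type} [AddCommMonoid M] (c : Fin t → ZMod d) (S : Finset (Fin t))
    (p q r : ZMod d) (hpq : p ≠ q) (hpr : p ≠ r) (hqr : q ≠ r)
    (h : ∀ k ∈ S, c k = p ∨ c k = q ∨ c k = r) (f : ZMod d → M) :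
    ∑ k ∈ S, f (c k) = cnt c S p • f p + cnt c S q • f q + cnt c S r • f r := by
  classical
  have h1 : ∀ k ∈ S, c k ∈ ({p, q, r} : Finset (ZMod d)) := by
    intro k hk
    simpa using h k hk
  rw [← Finset.sum_fiberwise_of_maps_to h1, Finset.sum_insert (by simp [hpq, hpr]),
    Finset.sum_insert (by simp [hqr]), Finset.sum_singleton, ← add_assoc]
  have h2 : ∀ x, ∑ k ∈ S with c k = x, f (c k) = cnt c S x • f x := by
    intro x
    unfold cnt
    rw [← Finset.sum_const]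
    apply Finset.sum_congr rfl
    intro k hk
    rw [(Finset.mem_filter.1 hk).2]
  rw [h2, h2, h2]

theorem vl_neg [NeZero d] {x y : ZMod d} (hx : x ≠ 0) (hxy : x + y = 0) : vl x + vl y = d := by
  have hy : y = -x := (neg_eq_of_add_eq_zero_right hxy).symm
  have hy0 : y ≠ 0 := by rw [hy]; exact neg_ne_zero.2 hx
  unfold vl
  rw [if_neg hx, if_neg hy0, hy, ZMod.neg_val, if_neg hx]
  have := ZMod.val_lt x
  omega

theorem good_empty [NeZero d] (c : Fin t → ZMod d) (m : ℕ)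
    (h : ∀ u v : ZMod d, u * v = 1 → d * m ≤ ∑ k ∈ (∅ : Finset (Fin t)), vl (u * c k)) :
    Good c m ∅ := by
  have h1 := h 1 1 (one_mul 1)
  rw [Finset.sum_empty] at h1
  have h2 : 0 < d := Nat.pos_of_ne_zero (NeZero.ne d)
  have h3 : m = 0 := by
    rcases Nat.eq_zero_or_pos m with h | h
    · exact h
    · have := Nat.mul_pos h2 h
      omega
  rw [h3]
  trivial

/-- the reduction step -/
theorem good_reduce [NeZero d] (c : Fin t → ZMod d)
    (H : ∀ (S : Finset (Fin t)) (m : ℕ), (∀ k ∈ S, c k ≠ 0) →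
      (∀ k ∈ S, ∀ k' ∈ S, k ≠ k' → c k + c k' ≠ 0) → ∑ k ∈ S, c k = 0 →
      (∀ u v : ZMod d, u * v = 1 → d * m ≤ ∑ k ∈ S, vl (u * c k)) → Good c m S) :
    ∀ (n : ℕ) (S : Finset (Fin t)), S.card ≤ n → ∀ m : ℕ, ∑ k ∈ S, c k = 0 →
      (∀ u v : ZMod d, u * v = 1 → d * m ≤ ∑ k ∈ S, vl (u * c k)) → Good c m S := by
  classical
  intro n
  induction n with
  | zero =>
    intro S hS m h0 hu
    have : S = ∅ := Finset.card_eq_zero.1 (by omega)
    subst this
    exact good_empty c m hu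
  | succ n ih =>
    intro S hS m h0 hu
    rcases Nat.eq_zero_or_pos m with rfl | hm
    · trivial
    obtain ⟨m, rfl⟩ : ∃ m', m = m' + 1 := ⟨m - 1, by omega⟩
    have step : ∀ B ⊆ S, B.Nonempty → ∑ k ∈ B, c k = 0 →
        (∀ u v : ZMod d, u * v = 1 → ∑ k ∈ B, vl (u * c k) = d) → Good c (m + 1) S := by
      intro B hB hBn hB0 hBv
      refine ⟨B, hB, hBn, hB0, ih (S \ B) ?_ m ?_ ?_⟩
      · have h1 := Finset.card_sdiff_of_subset hB
        have h2 := Finset.card_pos.2 hBn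
        omega
      · have := Finset.sum_sdiff hB (f := c)
        rw [hB0, add_zero, h0] at this
        exact this
      · intro u v huv
        have h1 := Finset.sum_sdiff hB (f := fun k => vl (u * c k))
        rw [hBv u v huv] at h1
        have h2 := hu u v huv
        rw [← h1] at h2
        have h3 : d * (m + 1) = d * m + d := by ring
        omega
    by_cases hz : ∃ k ∈ S, c k = 0
    · obtain ⟨k, hk, hck⟩ := hz
      apply step {k} (Finset.singleton_subset_iff.2 hk) (Finset.singleton_nonempty k)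
      · rw [Finset.sum_singleton, hck]
      · intro u v _
        rw [Finset.sum_singleton, hck, mul_zero]
        exact if_pos rfl
    by_cases hp : ∃ k ∈ S, ∃ k' ∈ S, k ≠ k' ∧ c k + c k' = 0
    · obtain ⟨k, hk, k', hk', hne, hs⟩ := hp
      apply step {k, k'}
      · intro x hx
        rcases Finset.mem_insert.1 hx with rfl | hx
        · exact hk
        · rw [Finset.mem_singleton.1 hx]; exact hk'
      · exact ⟨k, Finset.mem_insert_self _ _⟩
      · rw [Finset.sum_pair hne, hs]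
      · intro u v huv
        rw [Finset.sum_pair hne]
        apply vl_neg
        · intro h
          apply hz
          refine ⟨k, hk, ?_⟩
          calc c k = (u * v) * c k := by rw [huv, one_mul]
            _ = v * (u * c k) := by ring
            _ = 0 := by rw [h, mul_zero]
        · rw [← mul_add, hs, mul_zero]
    push Not at hz hp
    exact H S (m + 1) hz hp h0 hu

theorem pick (c : Fin t → ZMod d) (S : Finset (Fin t))
    (hp : ∀ k ∈ S, ∀ k' ∈ S, k ≠ k' → c k + c k' ≠ 0) (x : ZMod d) (hx : x ≠ -x) :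
    ∃ e, (e = x ∨ e = -x) ∧ ∀ k ∈ S, c k = x ∨ c k = -x → c k = e := by
  by_cases h : ∃ k ∈ S, c k = x
  · obtain ⟨k, hk, hkx⟩ := h
    refine ⟨x, Or.inl rfl, fun k' hk' h' => ?_⟩
    rcases h' with h' | h'
    · exact h'
    · exfalso
      apply hp k hk k' hk'
      · rintro rfl
        exact hx (hkx.symm.trans h')
      · rw [hkx, h', add_neg_cancel]
  · push Not at h
    refine ⟨-x, Or.inr rfl, fun k' hk' h' => ?_⟩
    rcases h' with h' | h'
    · exact absurd h' (h k' hk')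
    · exact h'

/-- multiplication by a unit -/
theorem unit_hyp (c : Fin t → ZMod d) (S : Finset (Fin t)) (m : ℕ) (u v : ZMod d)
    (huv : u * v = 1)
    (h : ∀ u v : ZMod d, u * v = 1 → d * m ≤ ∑ k ∈ S, vl (u * c k)) (w w' : ZMod d)
    (hw : w * w' = 1) : d * m ≤ ∑ k ∈ S, vl (w * (u * c k)) := by
  have := h (w * u) (v * w') (by
    calc w * u * (v * w') = (u * v) * (w * w') := by ring
      _ = 1 := by rw [huv, hw, one_mul])
  simpa only [mul_assoc] using this

theorem units7 : ∀ e₁ e₂ e₃ : ZMod 7, (e₁ = 1 ∨ e₁ = -1) → (e₂ = 2 ∨ e₂ = -2) →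
    (e₃ = 3 ∨ e₃ = -3) → ∃ u v : ZMod 7, u * v = 1 ∧
      ((∀ x, x = e₁ ∨ x = e₂ ∨ x = e₃ → u * x = 1 ∨ u * x = 2 ∨ u * x = 3) ∨
       (∀ x, x = e₁ ∨ x = e₂ ∨ x = e₃ → u * x = 1 ∨ u * x = 2 ∨ u * x = 4)) := by
  rintro e₁ e₂ e₃ (rfl | rfl) (rfl | rfl) (rfl | rfl)
  · exact ⟨1, 1, by decide, Or.inl (by decide)⟩
  · exact ⟨1, 1, by decide, Or.inr (by decide)⟩
  · exact ⟨3, 5, by decide, Or.inl (by decide)⟩
  · exact ⟨2, 4, by decide, Or.inl (by decide)⟩
  · exact ⟨5, 3, by decide, Or.inl (by decide)⟩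
  · exact ⟨4, 2, by decide, Or.inl (by decide)⟩
  · exact ⟨6, 6, by decide, Or.inr (by decide)⟩
  · exact ⟨6, 6, by decide, Or.inl (by decide)⟩

theorem class7 : ∀ x : ZMod 7, x ≠ 0 → (x = 1 ∨ x = -1) ∨ (x = 2 ∨ x = -2) ∨
    (x = 3 ∨ x = -3) := by decide

theorem units5 : ∀ e₁ e₂ : ZMod 5, (e₁ = 1 ∨ e₁ = -1) → (e₂ = 2 ∨ e₂ = -2) →
    ∃ u v : ZMod 5, u * v = 1 ∧ (∀ x, x = e₁ ∨ x = e₂ → u * x = 1 ∨ u * x = 2) := by
  decide +kernel

theorem class5 : ∀ x : ZMod 5, x ≠ 0 → (x = 1 ∨ x = -1) ∨ (x = 2 ∨ x = -2) := by decide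

theorem units4 : ∀ e₁ : ZMod 4, (e₁ = 1 ∨ e₁ = -1) →
    ∃ u v : ZMod 4, u * v = 1 ∧ (∀ x, x = e₁ ∨ x = 2 → u * x = 1 ∨ u * x = 2) := by
  decide +kernel

theorem class4 : ∀ x : ZMod 4, x ≠ 0 → (x = 1 ∨ x = -1) ∨ x = 2 := by decide

theorem units3 : ∀ e₁ : ZMod 3, (e₁ = 1 ∨ e₁ = -1) →
    ∃ u v : ZMod 3, u * v = 1 ∧ (∀ x, x = e₁ → u * x = 1) := by
  decide +kernel

theorem class3 : ∀ x : ZMod 3, x ≠ 0 → (x = 1 ∨ x = -1) := by decide

theorem reduced7 (c : Fin t → ZMod 7) (S : Finset (Fin t)) (m : ℕ) (hz : ∀ k ∈ S, c k ≠ 0)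
    (hp : ∀ k ∈ S, ∀ k' ∈ S, k ≠ k' → c k + c k' ≠ 0) (h0 : ∑ k ∈ S, c k = 0)
    (hu : ∀ u v : ZMod 7, u * v = 1 → 7 * m ≤ ∑ k ∈ S, vl (u * c k)) : Good c m S := by
  obtain ⟨e₁, he₁, h₁⟩ := pick c S hp 1 (by decide)
  obtain ⟨e₂, he₂, h₂⟩ := pick c S hp 2 (by decide)
  obtain ⟨e₃, he₃, h₃⟩ := pick c S hp 3 (by decide)
  have hc : ∀ k ∈ S, c k = e₁ ∨ c k = e₂ ∨ c k = e₃ := by
    intro k hk
    rcases class7 (c k) (hz k hk) with h | h | h
    · exact Or.inl (h₁ k hk h)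
    · exact Or.inr (Or.inl (h₂ k hk h))
    · exact Or.inr (Or.inr (h₃ k hk h))
  obtain ⟨u, v, huv, hx⟩ := units7 e₁ e₂ e₃ he₁ he₂ he₃
  have hu' := unit_hyp c S m u v huv hu
  apply good_smul u v huv
  set c' : Fin t → ZMod 7 := fun k => u * c k with hc'
  have h0' : ∑ k ∈ S, c' k = 0 := by rw [hc', ← Finset.mul_sum, h0, mul_zero]
  rcases hx with hx | hx
  · have hcc : ∀ k ∈ S, c' k = (1 : ZMod 7) ∨ c' k = 2 ∨ c' k = 3 := fun k hk => hx _ (hc k hk)
    have hsum := sum_cnt c' S 1 2 3 (by decide) (by decide) (by decide) hcc id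
    have e1 := sum_cnt c' S 1 2 3 (by decide) (by decide) (by decide) hcc (fun x => vl (1 * x))
    have e4 := sum_cnt c' S 1 2 3 (by decide) (by decide) (by decide) hcc (fun x => vl (4 * x))
    have e5 := sum_cnt c' S 1 2 3 (by decide) (by decide) (by decide) hcc (fun x => vl (5 * x))
    have i1 := hu' 1 1 (by decide)
    have i4 := hu' 4 2 (by decide)
    have i5 := hu' 5 3 (by decide)
    have v11 : vl (1 * 1 : ZMod 7) = 1 := by decide
    have v12 : vl (1 * 2 : ZMod 7) = 2 := by decide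
    have v13 : vl (1 * 3 : ZMod 7) = 3 := by decide
    have v41 : vl (4 * 1 : ZMod 7) = 4 := by decide
    have v42 : vl (4 * 2 : ZMod 7) = 1 := by decide
    have v43 : vl (4 * 3 : ZMod 7) = 5 := by decide
    have v51 : vl (5 * 1 : ZMod 7) = 5 := by decide
    have v52 : vl (5 * 2 : ZMod 7) = 3 := by decide
    have v53 : vl (5 * 3 : ZMod 7) = 1 := by decide
    rw [v11, v12, v13] at e1
    rw [v41, v42, v43] at e4
    rw [v51, v52, v53] at e5
    have i1' : 7 * m ≤ ∑ k ∈ S, vl (1 * c' k) := i1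
    have i4' : 7 * m ≤ ∑ k ∈ S, vl (4 * c' k) := i4
    have i5' : 7 * m ≤ ∑ k ∈ S, vl (5 * c' k) := i5
    rw [e1] at i1'
    rw [e4] at i4'
    rw [e5] at i5'
    simp only [smul_eq_mul] at i1' i4' i5'
    have hd : 7 ∣ cnt c' S 1 + 2 * cnt c' S 2 + 3 * cnt c' S 3 := by
      rw [← ZMod.natCast_eq_zero_iff]
      have h2 : ∑ k ∈ S, id (c' k) = 0 := h0'
      rw [hsum] at h2
      simp only [id, nsmul_eq_mul] at h2
      push_cast
      linear_combination h2
    apply dec_good c' 1 2 3 (by decide) (by decide) (by decide)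
    have := dec7_123 m (cnt c' S 1) (cnt c' S 2) (cnt c' S 3) hd (by omega) (by omega) (by omega)
    exact_mod_cast this
  · have hcc : ∀ k ∈ S, c' k = (1 : ZMod 7) ∨ c' k = 2 ∨ c' k = 4 := fun k hk => hx _ (hc k hk)
    have hsum := sum_cnt c' S 1 2 4 (by decide) (by decide) (by decide) hcc id
    have e1 := sum_cnt c' S 1 2 4 (by decide) (by decide) (by decide) hcc (fun x => vl (1 * x))
    have e2 := sum_cnt c' S 1 2 4 (by decide) (by decide) (by decide) hcc (fun x => vl (2 * x))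
    have e4 := sum_cnt c' S 1 2 4 (by decide) (by decide) (by decide) hcc (fun x => vl (4 * x))
    have i1 : 7 * m ≤ ∑ k ∈ S, vl (1 * c' k) := hu' 1 1 (by decide)
    have i2 : 7 * m ≤ ∑ k ∈ S, vl (2 * c' k) := hu' 2 4 (by decide)
    have i4 : 7 * m ≤ ∑ k ∈ S, vl (4 * c' k) := hu' 4 2 (by decide)
    have v11 : vl (1 * 1 : ZMod 7) = 1 := by decide
    have v12 : vl (1 * 2 : ZMod 7) = 2 := by decide
    have v14 : vl (1 * 4 : ZMod 7) = 4 := by decide
    have v21 : vl (2 * 1 : ZMod 7) = 2 := by decide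
    have v22 : vl (2 * 2 : ZMod 7) = 4 := by decide
    have v24 : vl (2 * 4 : ZMod 7) = 1 := by decide
    have v41 : vl (4 * 1 : ZMod 7) = 4 := by decide
    have v42 : vl (4 * 2 : ZMod 7) = 1 := by decide
    have v44 : vl (4 * 4 : ZMod 7) = 2 := by decide
    rw [v11, v12, v14] at e1
    rw [v21, v22, v24] at e2
    rw [v41, v42, v44] at e4
    rw [e1] at i1
    rw [e2] at i2
    rw [e4] at i4
    simp only [smul_eq_mul] at i1 i2 i4
    have hd : 7 ∣ cnt c' S 1 + 2 * cnt c' S 2 + 4 * cnt c' S 4 := by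
      rw [← ZMod.natCast_eq_zero_iff]
      have h2 : ∑ k ∈ S, id (c' k) = 0 := h0'
      rw [hsum] at h2
      simp only [id, nsmul_eq_mul] at h2
      push_cast
      linear_combination h2
    obtain ⟨n, hn⟩ := hd
    by_cases c1 : 3 * cnt c' S 4 ≤ cnt c' S 1 + 2 * cnt c' S 2 ∧
        cnt c' S 2 + 2 * cnt c' S 4 ≤ 3 * cnt c' S 1
    · apply dec_good c' 1 2 4 (by decide) (by decide) (by decide)
      have := dec_of_le (m := m) (n := n) (by omega) (dec7_124_min n (cnt c' S 1) (cnt c' S 2)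
        (cnt c' S 4) hn c1.1 c1.2)
      exact_mod_cast this
    by_cases c2 : 3 * cnt c' S 2 ≤ cnt c' S 4 + 2 * cnt c' S 1 ∧
        cnt c' S 1 + 2 * cnt c' S 2 ≤ 3 * cnt c' S 4
    · obtain ⟨n', hn'⟩ : 7 ∣ cnt c' S 4 + 2 * cnt c' S 1 + 4 * cnt c' S 2 := by omega
      apply dec_good c' 4 1 2 (by decide) (by decide) (by decide)
      have h3 := dec_of_le (m := m) (n := n') (by omega) (dec7_124_min n' (cnt c' S 4)
        (cnt c' S 1) (cnt c' S 2) hn' c2.1 c2.2)
      have h4 : ∀ (m x y z : ℕ), Dec 7 1 2 4 m x y z → Dec 7 4 1 2 m x y z := by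
        intro m
        induction m with
        | zero => intros; trivial
        | succ m ih =>
          rintro x y z ⟨b₁, b₂, b₃, g1, g2, g3, g4, g5, g6⟩
          exact ⟨b₁, b₂, b₃, g1, g2, g3, g4, by omega, ih _ _ _ g6⟩
      have := h4 _ _ _ _ h3
      exact_mod_cast this
    · obtain ⟨n', hn'⟩ : 7 ∣ cnt c' S 2 + 2 * cnt c' S 4 + 4 * cnt c' S 1 := by omega
      apply dec_good c' 2 4 1 (by decide) (by decide) (by decide)
      have h3 := dec_of_le (m := m) (n := n') (by omega) (dec7_124_min n' (cnt c' S 2)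
        (cnt c' S 4) (cnt c' S 1) hn' (by omega) (by omega))
      have h4 : ∀ (m x y z : ℕ), Dec 7 1 2 4 m x y z → Dec 7 2 4 1 m x y z := by
        intro m
        induction m with
        | zero => intros; trivial
        | succ m ih =>
          rintro x y z ⟨b₁, b₂, b₃, g1, g2, g3, g4, g5, g6⟩
          exact ⟨b₁, b₂, b₃, g1, g2, g3, g4, by omega, ih _ _ _ g6⟩
      have := h4 _ _ _ _ h3
      exact_mod_cast this

theorem reduced5 (c : Fin t → ZMod 5) (S : Finset (Fin t)) (m : ℕ) (hz : ∀ k ∈ S, c k ≠ 0)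
    (hp : ∀ k ∈ S, ∀ k' ∈ S, k ≠ k' → c k + c k' ≠ 0) (h0 : ∑ k ∈ S, c k = 0)
    (hu : ∀ u v : ZMod 5, u * v = 1 → 5 * m ≤ ∑ k ∈ S, vl (u * c k)) : Good c m S := by
  obtain ⟨e₁, he₁, h₁⟩ := pick c S hp 1 (by decide)
  obtain ⟨e₂, he₂, h₂⟩ := pick c S hp 2 (by decide)
  have hc : ∀ k ∈ S, c k = e₁ ∨ c k = e₂ := by
    intro k hk
    rcases class5 (c k) (hz k hk) with h | h
    · exact Or.inl (h₁ k hk h)
    · exact Or.inr (h₂ k hk h)
  obtain ⟨u, v, huv, hx⟩ := units5 e₁ e₂ he₁ he₂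
  have hu' := unit_hyp c S m u v huv hu
  apply good_smul u v huv
  set c' : Fin t → ZMod 5 := fun k => u * c k with hc'
  have h0' : ∑ k ∈ S, c' k = 0 := by rw [hc', ← Finset.mul_sum, h0, mul_zero]
  have hcc : ∀ k ∈ S, c' k = (1 : ZMod 5) ∨ c' k = 2 ∨ c' k = 3 := fun k hk =>
    (hx _ (hc k hk)).imp_right Or.inl
  have h3 : cnt c' S 3 = 0 := by
    unfold cnt
    rw [Finset.card_eq_zero, Finset.filter_eq_empty_iff]
    intro k hk h
    rcases hx _ (hc k hk) with h' | h'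
    · exact absurd (h'.symm.trans h) (by decide)
    · exact absurd (h'.symm.trans h) (by decide)
  have hsum := sum_cnt c' S 1 2 3 (by decide) (by decide) (by decide) hcc id
  have e1 := sum_cnt c' S 1 2 3 (by decide) (by decide) (by decide) hcc (fun x => vl (1 * x))
  have e3 := sum_cnt c' S 1 2 3 (by decide) (by decide) (by decide) hcc (fun x => vl (3 * x))
  have i1 : 5 * m ≤ ∑ k ∈ S, vl (1 * c' k) := hu' 1 1 (by decide)
  have i3 : 5 * m ≤ ∑ k ∈ S, vl (3 * c' k) := hu' 3 2 (by decide)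
  have v11 : vl (1 * 1 : ZMod 5) = 1 := by decide
  have v12 : vl (1 * 2 : ZMod 5) = 2 := by decide
  have v31 : vl (3 * 1 : ZMod 5) = 3 := by decide
  have v32 : vl (3 * 2 : ZMod 5) = 1 := by decide
  rw [v11, v12, h3, zero_smul] at e1
  rw [v31, v32, h3, zero_smul] at e3
  rw [e1] at i1
  rw [e3] at i3
  simp only [smul_eq_mul] at i1 i3
  have hd : 5 ∣ cnt c' S 1 + 2 * cnt c' S 2 := by
    rw [← ZMod.natCast_eq_zero_iff]
    have h2 : ∑ k ∈ S, id (c' k) = 0 := h0'
    rw [hsum, h3, zero_smul] at h2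
    simp only [id, nsmul_eq_mul] at h2
    push_cast
    linear_combination h2
  apply dec_good c' 1 2 3 (by decide) (by decide) (by decide)
  have := dec5_12 m (cnt c' S 1) (cnt c' S 2) hd (by omega) (by omega)
  have h4 : Dec 5 1 2 3 m (cnt c' S 1) (cnt c' S 2) (cnt c' S 3) := by
    rw [h3]; exact this
  exact_mod_cast h4

theorem reduced4 (c : Fin t → ZMod 4) (S : Finset (Fin t)) (m : ℕ) (hz : ∀ k ∈ S, c k ≠ 0)
    (hp : ∀ k ∈ S, ∀ k' ∈ S, k ≠ k' → c k + c k' ≠ 0) (h0 : ∑ k ∈ S, c k = 0)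
    (hu : ∀ u v : ZMod 4, u * v = 1 → 4 * m ≤ ∑ k ∈ S, vl (u * c k)) : Good c m S := by
  obtain ⟨e₁, he₁, h₁⟩ := pick c S hp 1 (by decide)
  have hc : ∀ k ∈ S, c k = e₁ ∨ c k = 2 := by
    intro k hk
    rcases class4 (c k) (hz k hk) with h | h
    · exact Or.inl (h₁ k hk h)
    · exact Or.inr h
  obtain ⟨u, v, huv, hx⟩ := units4 e₁ he₁
  have hu' := unit_hyp c S m u v huv hu
  apply good_smul u v huv
  set c' : Fin t → ZMod 4 := fun k => u * c k with hc'
  have h0' : ∑ k ∈ S, c' k = 0 := by rw [hc', ← Finset.mul_sum, h0, mul_zero]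
  have hcc : ∀ k ∈ S, c' k = (1 : ZMod 4) ∨ c' k = 2 ∨ c' k = 3 := fun k hk =>
    (hx _ (hc k hk)).imp_right Or.inl
  have h3 : cnt c' S 3 = 0 := by
    unfold cnt
    rw [Finset.card_eq_zero, Finset.filter_eq_empty_iff]
    intro k hk h
    rcases hx _ (hc k hk) with h' | h'
    · exact absurd (h'.symm.trans h) (by decide)
    · exact absurd (h'.symm.trans h) (by decide)
  have h2le : cnt c' S 2 ≤ 1 := by
    unfold cnt
    rw [Finset.card_le_one]
    intro k hk k' hk'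
    rw [Finset.mem_filter] at hk hk'
    by_contra hne
    apply hp k hk.1 k' hk'.1 hne
    have e : c' k + c' k' = 0 := by rw [hk.2, hk'.2]; decide
    calc c k + c k' = (u * v) * (c k + c k') := by rw [huv, one_mul]
      _ = v * (c' k + c' k') := by simp only [hc']; ring
      _ = 0 := by rw [e, mul_zero]
  have hsum := sum_cnt c' S 1 2 3 (by decide) (by decide) (by decide) hcc id
  have e1 := sum_cnt c' S 1 2 3 (by decide) (by decide) (by decide) hcc (fun x => vl (1 * x))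
  have i1 : 4 * m ≤ ∑ k ∈ S, vl (1 * c' k) := hu' 1 1 (by decide)
  have v11 : vl (1 * 1 : ZMod 4) = 1 := by decide
  have v12 : vl (1 * 2 : ZMod 4) = 2 := by decide
  rw [v11, v12, h3, zero_smul] at e1
  rw [e1] at i1
  simp only [smul_eq_mul] at i1
  have hd : 4 ∣ cnt c' S 1 + 2 * cnt c' S 2 := by
    rw [← ZMod.natCast_eq_zero_iff]
    have h2 : ∑ k ∈ S, id (c' k) = 0 := h0'
    rw [hsum, h3, zero_smul] at h2
    simp only [id, nsmul_eq_mul] at h2
    push_cast
    linear_combination h2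
  apply dec_good c' 1 2 3 (by decide) (by decide) (by decide)
  have := dec4_12 m (cnt c' S 1) (cnt c' S 2) hd (by omega) (by omega)
  have h4 : Dec 4 1 2 3 m (cnt c' S 1) (cnt c' S 2) (cnt c' S 3) := by
    rw [h3]; exact this
  exact_mod_cast h4

theorem reduced3 (c : Fin t → ZMod 3) (S : Finset (Fin t)) (m : ℕ) (hz : ∀ k ∈ S, c k ≠ 0)
    (hp : ∀ k ∈ S, ∀ k' ∈ S, k ≠ k' → c k + c k' ≠ 0) (_ : ∑ k ∈ S, c k = 0)
    (hu : ∀ u v : ZMod 3, u * v = 1 → 3 * m ≤ ∑ k ∈ S, vl (u * c k)) : Good c m S := by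
  obtain ⟨e₁, he₁, h₁⟩ := pick c S hp 1 (by decide)
  have hc : ∀ k ∈ S, c k = e₁ := fun k hk => h₁ k hk (class3 (c k) (hz k hk))
  obtain ⟨u, v, huv, hx⟩ := units3 e₁ he₁
  have hu' := unit_hyp c S m u v huv hu
  apply good_smul u v huv
  set c' : Fin t → ZMod 3 := fun k => u * c k with hc'
  have hcc : ∀ k ∈ S, c' k = (1 : ZMod 3) ∨ c' k = 2 ∨ c' k = 3 := fun k hk =>
    Or.inl (hx _ (hc k hk))
  have h2 : cnt c' S 2 = 0 := by
    unfold cnt
    rw [Finset.card_eq_zero, Finset.filter_eq_empty_iff]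
    intro k hk h
    exact absurd ((hx _ (hc k hk)).symm.trans h) (by decide)
  have h3 : cnt c' S 3 = 0 := by
    unfold cnt
    rw [Finset.card_eq_zero, Finset.filter_eq_empty_iff]
    intro k hk h
    exact absurd ((hx _ (hc k hk)).symm.trans h) (by decide)
  have e1 := sum_cnt c' S 1 2 3 (by decide) (by decide) (by decide) hcc (fun x => vl (1 * x))
  have i1 : 3 * m ≤ ∑ k ∈ S, vl (1 * c' k) := hu' 1 1 (by decide)
  have v11 : vl (1 * 1 : ZMod 3) = 1 := by decide
  rw [v11, h2, h3, zero_smul, zero_smul] at e1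
  rw [e1] at i1
  simp only [smul_eq_mul] at i1
  apply dec_good c' 1 2 3 (by decide) (by decide) (by decide)
  have := dec3_1 m (cnt c' S 1) (by omega)
  have h4 : Dec 3 1 2 3 m (cnt c' S 1) (cnt c' S 2) (cnt c' S 3) := by
    rw [h2, h3]; exact this
  exact_mod_cast h4

theorem reduced2 (c : Fin t → ZMod 2) (S : Finset (Fin t)) (m : ℕ) (hz : ∀ k ∈ S, c k ≠ 0)
    (hp : ∀ k ∈ S, ∀ k' ∈ S, k ≠ k' → c k + c k' ≠ 0) (h0 : ∑ k ∈ S, c k = 0)
    (hu : ∀ u v : ZMod 2, u * v = 1 → 2 * m ≤ ∑ k ∈ S, vl (u * c k)) : Good c m S := by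
  have hc : ∀ x : ZMod 2, x ≠ 0 → x = 1 := by decide
  have hS : S = ∅ := by
    by_contra hne
    obtain ⟨k, hk⟩ := Finset.nonempty_iff_ne_empty.2 hne
    have h1 : S = {k} := by
      ext k'
      rw [Finset.mem_singleton]
      constructor
      · intro hk'
        by_contra hne
        apply hp k hk k' hk' (Ne.symm hne)
        rw [hc _ (hz k hk), hc _ (hz k' hk')]
        decide
      · rintro rfl; exact hk
    rw [h1, Finset.sum_singleton] at h0
    exact hz k hk h0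
  subst hS
  exact good_empty c m hu

/-- In `ZMod d`, `d = 2, 3, 4, 5, 7`, a sequence of sum zero splits into as many parts of sum zero
as the values of its multiples allow. -/
theorem good_of_val (hd : d = 2 ∨ d = 3 ∨ d = 4 ∨ d = 5 ∨ d = 7) (c : Fin t → ZMod d)
    (S : Finset (Fin t)) (m : ℕ) (h0 : ∑ k ∈ S, c k = 0)
    (hu : ∀ u v : ZMod d, u * v = 1 → d * m ≤ ∑ k ∈ S, vl (u * c k)) : Good c m S := by
  rcases hd with rfl | rfl | rfl | rfl | rfl
  · exact good_reduce c (fun S m => reduced2 c S m) _ S le_rfl m h0 hu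
  · exact good_reduce c (fun S m => reduced3 c S m) _ S le_rfl m h0 hu
  · exact good_reduce c (fun S m => reduced4 c S m) _ S le_rfl m h0 hu
  · exact good_reduce c (fun S m => reduced5 c S m) _ S le_rfl m h0 hu
  · exact good_reduce c (fun S m => reduced7 c S m) _ S le_rfl m h0 hu

end main

end Pool.Agent.Bloch
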