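import Pool.Agent.Bloch.MainQ
import Pool.Agent.Bloch.ChiZero2
import Pool.Agent.Bloch.ZeroSum3

/-! The main theorem with a hypothesis on each isotypic part, and its application to diagonal
complete intersections. -/

set_option linter.unusedSectionVars false

open MvPolynomial

namespace Pool.Agent.Bloch

section
variable {K : Type} [Field K] [CharZero K]
variable {σ : Type} [Fintype σ] {t : ℕ} {d : ℕ} [NeZero d]
variable (Y : Sys K σ t d)

theorem na_scl {i : ℕ} (a : Fin t → ℕ) (c : Fin t → K) (hc : ∀ l, c l ^ d = 1)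
    (V V' : VH Y.Z (i + 1)) (h : V'.1 = ctr K (scl K (fun s => c (Y.β s))) V.1) :
    Finsupp.single V' 1 - (∏ k, c k ^ a k) • Finsupp.single V (1 : K) ∈ Na Y (i + 1) a := by
  obtain ⟨γ, hγ⟩ := exists_wt c hc
  have h1 : V' = sc Y (i + 1) γ V := by
    apply Subtype.ext
    rw [h, sc_val]
    congr 2
    funext s
    rw [hγ]
  have h2 : (∏ k, c k ^ a k) = chr a γ := by
    unfold chr
    apply Finset.prod_congr rfl
    intro k _
    rw [hγ]
  rw [h1, h2]
  exact Submodule.mem_sup_right (Submodule.subset_span ⟨γ, V, rfl⟩)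

/-- The main theorem, with a hypothesis on the isotypic parts. -/
theorem main_K' [Fintype Y.ι] (hβ : Function.Surjective Y.β) {ζ : K} (hζ : IsPrimitiveRoot ζ d)
    {i : ℕ} (hcard : i + Fintype.card Y.ι < t) (G : Set (Gam K d t))
    (H : ∀ a : Fin t → ℕ, (∀ k, a k < d) → (∃ k, a k ≠ 0) → (d ∣ ∑ k, a k) →
      (∀ g ∈ G, chr a g = 1) → ∀ V, Finsupp.single V 1 ∈ Na Y (i + 1) a) :
    ∃ α : VH Y.Z (i + 1) →₀ K, ∀ V : VH Y.Z (i + 1),
      Finsupp.single V 1 ∈ RelH K Y.Z (i + 1) ⊔ IG Y (i + 1) G ⊔ Submodule.span K {α} := by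
  classical
  have hd : 0 < d := Nat.pos_of_ne_zero (NeZero.ne d)
  obtain ⟨α, hα⟩ := chi_one K hd hζ Y.β hβ Y.f Y.hf Y.HZ hcard (Na Y (i + 1) (fun _ => 0))
    le_sup_left (by
      intro c hc V V' h
      have := na_scl Y (fun _ => 0) c hc V V' h
      simp only [pow_zero, Finset.prod_const_one, one_smul] at this
      exact this)
  refine ⟨Em Y (i + 1) (fun _ => 0) α, fun V => ?_⟩
  set T := RelH K Y.Z (i + 1) ⊔ IG Y (i + 1) G ⊔
    Submodule.span K {Em Y (i + 1) (fun _ => 0) α} with hT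
  have hRT : RelH K Y.Z (i + 1) ≤ T := le_sup_left.trans le_sup_left
  have hIT : IG Y (i + 1) G ≤ T := le_sup_right.trans le_sup_left
  have key : ∀ a : Fin t → ℕ, (∀ k, a k < d) →
      Em Y (i + 1) a (Finsupp.single V 1) ∈ T := by
    intro a had
    by_cases hG : ∀ g ∈ G, chr a g = 1
    · by_cases hs : d ∣ ∑ k, a k
      · by_cases h0 : ∀ k, a k = 0
        · have : a = fun _ => 0 := funext h0
          subst this
          obtain ⟨x, hx, y, hy, hxy⟩ := Submodule.mem_sup.1 (hα V)
          rw [← hxy, map_add]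
          obtain ⟨c, rfl⟩ := Submodule.mem_span_singleton.1 hy
          refine Submodule.add_mem _ (hRT (Em_Na Y (i + 1) _ hx)) ?_
          rw [map_smul]
          exact Submodule.smul_mem _ _ (Submodule.mem_sup_right
            (Submodule.mem_span_singleton_self _))
        · push Not at h0
          exact hRT (Em_Na Y (i + 1) a (H a had h0 hs hG V))
      · -- diagonal scaling
        obtain ⟨δ, hδ⟩ := exists_wt (d := d) (fun _ : Fin t => ζ) (fun _ => hζ.pow_eq_one)
        have h1 : sc Y (i + 1) δ V = V := by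
          apply Subtype.ext
          rw [sc_val]
          have : (fun s => wt δ (Y.β s)) = fun _ => ζ := by
            funext s; rw [hδ]
          rw [this]
          exact scl_homog ζ V.2.1 (hζ.ne_zero hd.ne')
        have h2 := Em_Tm Y (i + 1) a δ (Finsupp.single V 1)
        rw [Tm_single, h1] at h2
        have h3 : chr a δ = ζ ^ (∑ k, a k) := by
          unfold chr
          simp only [hδ]
          exact Finset.prod_pow_eq_pow_sum _ _ _
        have h4 : chr a δ ≠ 1 := by
          rw [h3]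
          intro h
          exact hs (hζ.dvd_of_pow_eq_one _ h)
        have h5 : (1 - chr a δ) • Em Y (i + 1) a (Finsupp.single V 1) = 0 := by
          rw [sub_smul, one_smul, ← h2, sub_self]
        rw [(smul_eq_zero.1 h5).resolve_left (sub_ne_zero.2 h4.symm)]
        exact Submodule.zero_mem _
    · push Not at hG
      obtain ⟨g, hg, hg1⟩ := hG
      have h1 : Em Y (i + 1) a (Finsupp.single (sc Y (i + 1) g V) 1 - Finsupp.single V 1) ∈
          IG Y (i + 1) G :=
        Em_mem Y (i + 1) a (fun γ z hz => Tm_IG Y (i + 1) G γ hz)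
          (Submodule.subset_span ⟨g, hg, V, rfl⟩)
      rw [map_sub, ← Tm_single, Em_Tm] at h1
      have h2 : Em Y (i + 1) a (Finsupp.single V 1) = (chr a g - 1)⁻¹ •
          (chr a g • Em Y (i + 1) a (Finsupp.single V 1) - Em Y (i + 1) a (Finsupp.single V 1)) := by
        conv_rhs => rw [← one_smul K (Em Y (i + 1) a (Finsupp.single V 1)), smul_smul, ← sub_smul,
          smul_smul, mul_one, inv_mul_cancel₀ (sub_ne_zero.2 hg1), one_smul]
      rw [h2]
      exact Submodule.smul_mem _ _ (hIT h1)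
  have hsum := sum_Em Y (i + 1) (Finsupp.single V 1)
  have hd0 : ((d : K) ^ t) ≠ 0 := pow_ne_zero _ (Nat.cast_ne_zero.2 hd.ne')
  have h1 : ((d : K) ^ t) • Finsupp.single V (1 : K) ∈ T := by
    rw [← hsum]
    apply Submodule.sum_mem
    intro a _
    exact key (fun k => (a k : ℕ)) (fun k => (a k).2)
  have h2 := Submodule.smul_mem _ ((d : K) ^ t)⁻¹ h1
  rwa [smul_smul, inv_mul_cancel₀ hd0, one_smul] at h2

end


section
variable {σ : Type} [Fintype σ] {t : ℕ} {d : ℕ} [NeZero d]
variable (Y : Sys ℂ σ t d)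

/-- The main theorem with rational coefficients. -/
theorem main_Q' [Fintype Y.ι] (hβ : Function.Surjective Y.β) {ζ : ℂ} (hζ : IsPrimitiveRoot ζ d)
    {i : ℕ} (hcard : i + Fintype.card Y.ι < t) (G : Set (Gam ℂ d t))
    (H : ∀ a : Fin t → ℕ, (∀ k, a k < d) → (∃ k, a k ≠ 0) → (d ∣ ∑ k, a k) →
      (∀ g ∈ G, chr a g = 1) → ∀ V, Finsupp.single V 1 ∈ Na Y (i + 1) a) :
    Module.rank ℚ ((VH Y.Z (i + 1) →₀ ℚ) ⧸
      Submodule.span ℚ (pdiv Y.Z (i + 1) ∪ odiff Y (i + 1) G)) ≤ 1 := by
  obtain ⟨α, hα⟩ := main_K' Y hβ hζ hcard G H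
  apply descent _ α
  intro V
  rw [Set.image_union, Submodule.span_union]
  exact (sup_le_sup (sup_le_sup (relH_le Y.Z (i + 1)) (IG_le Y (i + 1) G)) le_rfl :
    _ ⊔ Submodule.span ℂ {α} ≤ _) (hα V)

end

end Pool.Agent.Bloch
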