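import Pool.Agent.Bloch.Big7
import Pool.Agent.Bloch.MainChi

/-! The vanishing of an isotypic part, with a grouping of the blocks depending on the character. -/

set_option linter.unusedSectionVars false

open MvPolynomial

namespace Pool.Agent.Bloch

section
variable {K : Type} [Field K] {σ : Type} {T T' : Type} [Fintype T]

open Classical in
/-- the grouped forms -/
noncomputable def gf (ρ : T → T') {ι : Type} (f : ι → T → MvPolynomial σ K) (e : ι) (j : T') :
    MvPolynomial σ K := ∑ k ∈ Finset.univ.filter (fun k => ρ k = j), f e k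

open Classical in
/-- the grouped character -/
noncomputable def ga' (ρ : T → T') (a : T → ℕ) (j : T') : ℕ := ∑ k ∈ Finset.univ.filter (fun k => ρ k = j), a k

theorem gf_bh (ρ : T → T') {ι : Type} {f : ι → T → MvPolynomial σ K} {β : σ → T} {d : ℕ}
    (hf : ∀ e k, BH β k d (f e k)) (e : ι) (j : T') :
    BH (fun s => ρ (β s)) j d (gf ρ f e j) := by
  classical
  unfold gf
  apply BH.sum
  intro k hk
  rw [Finset.mem_filter] at hk
  exact (hf e k).comp ρ hk.2

theorem gf_sum [Fintype T'] (ρ : T → T') {ι : Type} (f : ι → T → MvPolynomial σ K) (e : ι) :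
    ∑ j, gf ρ f e j = ∑ k, f e k := by
  classical
  unfold gf
  exact Finset.sum_fiberwise Finset.univ ρ (f e)

open Classical in
/-- A group of blocks is big if its number of variables is large compared with the rank of its
forms. -/
theorem bigBl_of_rank {ι : Type} [Finite ι] [Fintype T'] (ρ : T → T')
    {f : ι → T → MvPolynomial σ K} {β : σ → T} {d : ℕ} (hf : ∀ e k, BH β k d (f e k))
    (a : T → ℕ) (j : T') (h : Module.finrank K (Submodule.span K (Set.range fun e => gf ρ f e j)) *
      (d - 1) + (if d ∣ ga' ρ a j then 1 else 0) < Nat.card {s : σ // ρ (β s) = j}) :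
    BigBl (fun s => ρ (β s)) (gf ρ f) d (ga' ρ a) j := by
  haveI : FiniteDimensional K (Submodule.span K (Set.range fun e => gf ρ f e j)) :=
    FiniteDimensional.span_of_finite K (Set.finite_range _)
  let b := Module.finBasis K (Submodule.span K (Set.range fun e => gf ρ f e j))
  refine ⟨_, fun m => (b m : MvPolynomial σ K),
    fun e m => b.repr ⟨gf ρ f e j, Submodule.subset_span ⟨e, rfl⟩⟩ m, ?_, ?_, h⟩
  · intro m
    have h1 : ∀ x ∈ Submodule.span K (Set.range fun e => gf ρ f e j),
        BH (fun s => ρ (β s)) j d x := by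
      intro x hx
      induction hx using Submodule.span_induction with
      | mem x hx =>
        obtain ⟨e, rfl⟩ := hx
        exact gf_bh ρ hf e j
      | zero => exact BH.zero
      | add x y _ _ hx hy => exact hx.add hy
      | smul c x _ hx =>
        rw [MvPolynomial.smul_eq_C_mul]
        have := (BH.C' (bl := fun s => ρ (β s)) (l := j) c).mul hx
        rwa [zero_add] at this
    exact h1 _ (b m).2
  · intro e
    have h1 := b.sum_repr ⟨gf ρ f e j, Submodule.subset_span ⟨e, rfl⟩⟩
    have h2 := congrArg (Submodule.subtype _) h1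
    rw [map_sum] at h2
    simp only [map_smul, Submodule.subtype_apply] at h2
    rw [← h2]
    apply Finset.sum_congr rfl
    intro m _
    rw [MvPolynomial.smul_eq_C_mul]

end

section
variable {σ : Type} [Fintype σ] {t : ℕ} {d : ℕ} [NeZero d]
variable (Y : Sys ℂ σ t d)

open Classical in
/-- The vanishing of an isotypic part. -/
theorem chi_big [Fintype Y.ι] (hβ : Function.Surjective Y.β) {ζ : ℂ} (hζ : IsPrimitiveRoot ζ d)
    {i : ℕ} (a : Fin t → ℕ) {T' Q' : Type} [Fintype T'] [Fintype Q'] (ρ : Fin t → T')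
    (hρ : Function.Surjective ρ) (π : T' → Q') (hπ : Function.Surjective π)
    (hπa : ∀ l, d ∣ ∑ k ∈ Finset.univ.filter (fun k => π (ρ k) = l), a k)
    (E : Finset T') (hE : ∀ j ∈ E, BigBl (fun s => ρ (Y.β s)) (gf ρ Y.f) d (ga' ρ a) j)
    (hi : i + Fintype.card Y.ι + 1 ≤ Fintype.card Q' + E.card)
    (N : Submodule ℂ (VH Y.Z (i + 1) →₀ ℂ)) (hN : Na Y (i + 1) a ≤ N)
    (hyp : Hyp ℂ (fun s => ρ (Y.β s)) Y.Z i d (ga' ρ a) π E N) (V : VH Y.Z (i + 1)) :
    Finsupp.single V 1 ∈ N := by
  have hd : 0 < d := Nat.pos_of_ne_zero (NeZero.ne d)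
  refine bigStmt ℂ hd hζ E.card ℂ σ T' Q' Y.ι (fun s => ρ (Y.β s)) (gf ρ Y.f) Y.Z i (ga' ρ a) π E
    N (hρ.comp hβ) (gf_bh ρ Y.hf) ?_ hπ ?_ hE rfl hi hyp (le_sup_left.trans hN) ?_ V
  · intro P
    simp only [gf_sum]
    exact Y.HZ P
  · intro l
    have h1 : ∑ j ∈ Finset.univ.filter (fun j => π j = l), ga' ρ a j =
        ∑ k ∈ Finset.univ.filter (fun k => π (ρ k) = l), a k := by
      unfold ga'
      rw [Finset.sum_filter]
      have h2 : ∀ j, (if π j = l then ∑ k ∈ Finset.univ.filter (fun k => ρ k = j), a k else 0) =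
          ∑ k ∈ Finset.univ.filter (fun k => ρ k = j), if π (ρ k) = l then a k else 0 := by
        intro j
        split_ifs with h
        · apply Finset.sum_congr rfl
          intro k hk
          rw [(Finset.mem_filter.1 hk).2, if_pos h]
        · symm
          apply Finset.sum_eq_zero
          intro k hk
          rw [(Finset.mem_filter.1 hk).2, if_neg h]
      rw [Finset.sum_congr rfl (fun j _ => h2 j),
        Finset.sum_fiberwise Finset.univ ρ (fun k => if π (ρ k) = l then a k else 0),
        Finset.sum_filter]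
    rw [h1]
    exact hπa l
  · intro c hc V V' h
    have h1 := na_scl Y a (fun k => c (ρ k)) (fun k => hc _) V V' h
    have h2 : ∏ k, c (ρ k) ^ a k = ∏ j, c j ^ ga' ρ a j := by
      rw [← Finset.prod_fiberwise Finset.univ ρ (fun k => c (ρ k) ^ a k)]
      apply Finset.prod_congr rfl
      intro j _
      unfold ga'
      rw [← Finset.prod_pow_eq_pow_sum]
      apply Finset.prod_congr rfl
      intro k hk
      rw [(Finset.mem_filter.1 hk).2]
    rw [h2] at h1
    exact hN h1

end

end Pool.Agent.Bloch
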