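import Pool.Agent.Bloch.Scale

set_option linter.unusedSectionVars false

open MvPolynomial

namespace Pool.Agent.Bloch

section BH
variable {K : Type} [Field K] {σ : Type} {β : Type}

/-- homogeneous of degree `d` in the variables of the block `l` -/
def BH (bl : σ → β) (l : β) (d : ℕ) (f : MvPolynomial σ K) : Prop :=
  ∀ m ∈ f.support, (∀ s, m s ≠ 0 → bl s = l) ∧ m.degree = d

theorem BH.isHomogeneous {bl : σ → β} {l : β} {d : ℕ} {f : MvPolynomial σ K}
    (h : BH bl l d f) : f.IsHomogeneous d := by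
  intro m hm
  have := (h m (mem_support_iff.2 hm)).2
  rw [← this, Finsupp.degree_eq_weight_one]
  rfl

theorem BH.aeval_eq {bl : σ → β} {l : β} {d : ℕ} {f : MvPolynomial σ K}
    (h : BH bl l d f) {A : Type} [CommRing A] [Algebra K A] (x y : σ → A) (c : A)
    (hxy : ∀ s, bl s = l → x s = c * y s) : aeval x f = c ^ d * aeval y f := by
  rw [f.as_sum, map_sum, map_sum, Finset.mul_sum]
  apply Finset.sum_congr rfl
  intro m hm
  obtain ⟨h1, h2⟩ := h m hm
  rw [aeval_monomial, aeval_monomial]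
  have : (m.prod fun s k => x s ^ k) = c ^ d * m.prod fun s k => y s ^ k := by
    rw [← h2]
    change ∏ s ∈ m.support, x s ^ m s = c ^ (∑ s ∈ m.support, m s) * ∏ s ∈ m.support, y s ^ m s
    rw [← Finset.prod_pow_eq_pow_sum, ← Finset.prod_mul_distrib]
    apply Finset.prod_congr rfl
    intro s hs
    rw [hxy s (h1 s (Finsupp.mem_support_iff.1 hs)), mul_pow]
  rw [this]; ring

theorem BH.aeval_congr {bl : σ → β} {l : β} {d : ℕ} {f : MvPolynomial σ K}
    (h : BH bl l d f) {A : Type} [CommRing A] [Algebra K A] (x y : σ → A)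
    (hxy : ∀ s, bl s = l → x s = y s) : aeval x f = aeval y f := by
  rw [h.aeval_eq x y 1 (fun s hs => by rw [hxy s hs, one_mul]), one_pow, one_mul]

theorem isHomogeneous_aeval {d : ℕ} {f : MvPolynomial σ K}
    (h : f.IsHomogeneous d) {A : Type} [CommRing A] [Algebra K A] (x y : σ → A) (c : A)
    (hxy : ∀ s, x s = c * y s) : aeval x f = c ^ d * aeval y f := by
  have h' : BH (fun _ : σ => ()) () d f := by
    intro m hm
    refine ⟨fun _ _ => rfl, ?_⟩
    rw [Finsupp.degree_eq_weight_one]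
    exact h (mem_support_iff.1 hm)
  exact h'.aeval_eq x y c (fun s _ => hxy s)

end BH

variable {K : Type} [Field K] (𝕜 : Type) [Field 𝕜] [CharZero 𝕜]

section wrapper
variable {σ : Type} [Finite σ]
variable {S : Type} [CommRing S] [Algebra K S] [Algebra.EssFiniteType K S] [IsNoetherianRing S]
variable {L : Type} [CommRing L] [Algebra K L] [Algebra.EssFiniteType K L] [IsNoetherianRing L]

/-- The chart theorem for a flat integral homomorphism. -/
theorem chart' (φ : L →ₐ[K] S) (hφ : (φ : L →+* S).Flat)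
    {x : σ → S} {Sub : Submonoid (MvPolynomial σ K)}
    (hom : ∀ u ∈ Sub, ∃ n, u.IsHomogeneous n) (hF0 : Frac0 x Sub)
    {x₀ : MvPolynomial σ K} (hx₀ : x₀.IsHomogeneous 1) (hx₁ : aeval x x₀ = 1)
    (hint : ∀ Q : PrimeSpectrum S, dl K (ctr K φ Q) = dl K Q)
    {Z : Set (PrimeSpectrum (MvPolynomial σ K))} {ZL : Set (PrimeSpectrum L)}
    (hZ : ∀ Q : PrimeSpectrum S, ctr K φ Q ∈ ZL → cone x Q ∈ Z)
    {i : ℕ} (hvan : Van K 𝕜 i ZL) (N : Submodule 𝕜 (VH Z (i + 1) →₀ 𝕜))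
    (hN : RelH 𝕜 Z (i + 1) ≤ N) (V : VH Z (i + 1)) (Q₀ : PrimeSpectrum S)
    (hV : V.1 = cone x Q₀) (hQ₀ : ∀ u ∈ Sub, aeval x u ∉ Q₀.asIdeal) (hQ₀Z : ctr K φ Q₀ ∈ ZL)
    (hconj : ∀ Q : PrimeSpectrum S, ctr K φ Q = ctr K φ Q₀ → ∀ V' : VH Z (i + 1),
      V'.1 = cone x Q → Finsupp.single V' 1 - Finsupp.single V 1 ∈ N) :
    Finsupp.single V 1 ∈ N ⊔ Submodule.span 𝕜 {w : VH Z (i + 1) →₀ 𝕜 | ∃ V' : VH Z (i + 1),
      ((∃ Q : PrimeSpectrum S, cone x Q ≤ V'.1) ∧ ∃ v ∈ Sub, v ∈ V'.1.asIdeal) ∧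
        w = Finsupp.single V' 1} := by
  letI : Algebra L S := (φ : L →+* S).toAlgebra
  haveI : IsScalarTower K L S := IsScalarTower.of_algebraMap_eq (fun x => (φ.commutes x).symm)
  haveI : Module.Flat L S := hφ
  exact chart 𝕜 hom hF0 hx₀ hx₁ hint hZ hvan N hN V Q₀ hV hQ₀ hQ₀Z hconj

/-- the power map -/
noncomputable def expK (K : Type) [Field K] (d : ℕ) (τ R : Type) [CommRing R] [Algebra K R] :
    MvPolynomial τ R →ₐ[K] MvPolynomial τ R :=
  (expand d : MvPolynomial τ R →ₐ[R] MvPolynomial τ R).restrictScalars K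

theorem expK_apply (d : ℕ) (τ R : Type) [CommRing R] [Algebra K R] (f : MvPolynomial τ R) :
    expK K d τ R f = expand d f := rfl

theorem expK_flat {d : ℕ} (hd : 0 < d) (τ R : Type) [Fintype τ] [CommRing R] [Algebra K R] :
    ((expK K d τ R : MvPolynomial τ R →ₐ[K] MvPolynomial τ R) :
      MvPolynomial τ R →+* MvPolynomial τ R).Flat :=
  ss_flat τ R hd

theorem expK_dl {d : ℕ} (hd : 0 < d) (τ R : Type) [Fintype τ] [CommRing R] [Algebra K R]
    (Q : PrimeSpectrum (MvPolynomial τ R)) : dl K (ctr K (expK K d τ R) Q) = dl K Q :=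
  ss_dl τ R hd Q

end wrapper

section data
variable {σ : Type} {q : ℕ}

/-- variables which neither vanish nor are used for normalisation -/
abbrev Act (bl : σ → Fin (q + 1)) (Zr : Set σ) (pv : Fin (q + 1) → σ) : Type :=
  {s : σ // s ∉ Zr ∧ s ≠ pv (bl s)}

/-- the normalised coordinates -/
noncomputable def eta (K : Type) [Field K] (bl : σ → Fin (q + 1)) (Zr : Set σ)
    (pv : Fin (q + 1) → σ) (s : σ) : MvPolynomial (Act bl Zr pv) K :=
  open Classical in
  if h : s ∉ Zr ∧ s ≠ pv (bl s) then X ⟨s, h⟩ else if s ∈ Zr then 0 else 1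

theorem eta_zr {bl : σ → Fin (q + 1)} {Zr : Set σ} {pv : Fin (q + 1) → σ} {s : σ} (h : s ∈ Zr) :
    eta K bl Zr pv s = 0 := by
  unfold eta
  rw [dif_neg (fun h' => h'.1 h), if_pos h]

theorem eta_pv {bl : σ → Fin (q + 1)} {Zr : Set σ} {pv : Fin (q + 1) → σ} {l : Fin (q + 1)}
    (h : pv l ∉ Zr) (hbl : bl (pv l) = l) : eta K bl Zr pv (pv l) = 1 := by
  unfold eta
  rw [dif_neg (fun h' => h'.2 (by rw [hbl])), if_neg h]

theorem eta_act {bl : σ → Fin (q + 1)} {Zr : Set σ} {pv : Fin (q + 1) → σ}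
    (a : Act bl Zr pv) : eta K bl Zr pv a.1 = X a := by
  unfold eta
  rw [dif_pos a.2]

/-- the coordinate of a block -/
noncomputable def ww (B : Type) [CommRing B] (q : ℕ) (l : Fin (q + 1)) : MvPolynomial (Fin q) B :=
  Fin.cases 1 (fun l => X l) l

/-- the coordinates of the chart -/
noncomputable def xx (K : Type) [Field K] (bl : σ → Fin (q + 1)) (Zr : Set σ)
    (pv : Fin (q + 1) → σ) (s : σ) : MvPolynomial (Fin q) (MvPolynomial (Act bl Zr pv) K) :=
  ww _ q (bl s) * C (eta K bl Zr pv s)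

/-- the multiplicative set of normalising variables -/
noncomputable def nrm (K : Type) [Field K] (bl : σ → Fin (q + 1)) (Zr : Set σ)
    (pv : Fin (q + 1) → σ) : Submonoid (MvPolynomial σ K) :=
  Submonoid.closure {f | f = X (pv 0) ∨ ∃ a : Act bl Zr pv, f = X (pv (bl a.1))}

theorem nrm_hom (bl : σ → Fin (q + 1)) (Zr : Set σ) (pv : Fin (q + 1) → σ) :
    ∀ u ∈ nrm K bl Zr pv, ∃ n, u.IsHomogeneous n := by
  intro u hu
  induction hu using Submonoid.closure_induction with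
  | mem f hf =>
    rcases hf with rfl | ⟨a, rfl⟩
    · exact ⟨1, isHomogeneous_X K _⟩
    · exact ⟨1, isHomogeneous_X K _⟩
  | one => exact ⟨0, isHomogeneous_one σ K⟩
  | mul f g _ _ hf hg =>
    obtain ⟨n, hn⟩ := hf
    obtain ⟨m, hm⟩ := hg
    exact ⟨n + m, hn.mul hm⟩

theorem nrm_avoid {bl : σ → Fin (q + 1)} {Zr : Set σ} {pv : Fin (q + 1) → σ}
    (p : PrimeSpectrum (MvPolynomial σ K)) (h0 : X (pv 0) ∉ p.asIdeal)
    (hA : ∀ a : Act bl Zr pv, X (pv (bl a.1)) ∉ p.asIdeal) :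
    ∀ u ∈ nrm K bl Zr pv, u ∉ p.asIdeal := by
  intro u hu
  induction hu using Submonoid.closure_induction with
  | mem f hf =>
    rcases hf with rfl | ⟨a, rfl⟩
    · exact h0
    · exact hA a
  | one => exact fun h => p.2.ne_top ((Ideal.eq_top_iff_one _).2 h)
  | mul f g _ _ hf hg =>
    intro h
    rcases p.2.mem_or_mem h with h | h
    · exact hf h
    · exact hg h

variable {bl : σ → Fin (q + 1)} {Zr : Set σ} {pv : Fin (q + 1) → σ}

theorem xx_pv0 (hpv : ∀ l, bl (pv l) = l) (hpvZ : ∀ l, pv l ∉ Zr) :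
    xx K bl Zr pv (pv 0) = 1 := by
  unfold xx
  rw [eta_pv (hpvZ 0) (hpv 0), hpv 0, C_1, mul_one]
  rfl

theorem frac0_xx (hpv : ∀ l, bl (pv l) = l) (hpvZ : ∀ l, pv l ∉ Zr) :
    ∀ t : MvPolynomial (Fin q) (MvPolynomial (Act bl Zr pv) K), ∃ n, ∃ u ∈ nrm K bl Zr pv,
      ∃ a : MvPolynomial σ K, u.IsHomogeneous n ∧ a.IsHomogeneous n ∧
      t * aeval (xx K bl Zr pv) u = aeval (xx K bl Zr pv) a := by
  have hadd : ∀ t t' : MvPolynomial (Fin q) (MvPolynomial (Act bl Zr pv) K),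
      (∃ n, ∃ u ∈ nrm K bl Zr pv, ∃ a : MvPolynomial σ K, u.IsHomogeneous n ∧ a.IsHomogeneous n ∧
        t * aeval (xx K bl Zr pv) u = aeval (xx K bl Zr pv) a) →
      (∃ n, ∃ u ∈ nrm K bl Zr pv, ∃ a : MvPolynomial σ K, u.IsHomogeneous n ∧ a.IsHomogeneous n ∧
        t' * aeval (xx K bl Zr pv) u = aeval (xx K bl Zr pv) a) →
      (∃ n, ∃ u ∈ nrm K bl Zr pv, ∃ a : MvPolynomial σ K, u.IsHomogeneous n ∧ a.IsHomogeneous n ∧
        (t + t') * aeval (xx K bl Zr pv) u = aeval (xx K bl Zr pv) a) := by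
    rintro t t' ⟨n, u, hu, a, h1, h2, h3⟩ ⟨n', u', hu', a', h1', h2', h3'⟩
    refine ⟨n + n', u * u', Submonoid.mul_mem _ hu hu', a * u' + a' * u, h1.mul h1', ?_, ?_⟩
    · refine (h2.mul h1').add ?_
      rw [add_comm]; exact h2'.mul h1
    · rw [map_mul, map_add, map_mul, map_mul, ← h3, ← h3']; ring
  have hmul : ∀ t t' : MvPolynomial (Fin q) (MvPolynomial (Act bl Zr pv) K),
      (∃ n, ∃ u ∈ nrm K bl Zr pv, ∃ a : MvPolynomial σ K, u.IsHomogeneous n ∧ a.IsHomogeneous n ∧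
        t * aeval (xx K bl Zr pv) u = aeval (xx K bl Zr pv) a) →
      (∃ n, ∃ u ∈ nrm K bl Zr pv, ∃ a : MvPolynomial σ K, u.IsHomogeneous n ∧ a.IsHomogeneous n ∧
        t' * aeval (xx K bl Zr pv) u = aeval (xx K bl Zr pv) a) →
      (∃ n, ∃ u ∈ nrm K bl Zr pv, ∃ a : MvPolynomial σ K, u.IsHomogeneous n ∧ a.IsHomogeneous n ∧
        (t * t') * aeval (xx K bl Zr pv) u = aeval (xx K bl Zr pv) a) := by
    rintro t t' ⟨n, u, hu, a, h1, h2, h3⟩ ⟨n', u', hu', a', h1', h2', h3'⟩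
    refine ⟨n + n', u * u', Submonoid.mul_mem _ hu hu', a * a', h1.mul h1', h2.mul h2', ?_⟩
    rw [map_mul, map_mul, ← h3, ← h3']; ring
  intro t
  induction t using MvPolynomial.induction_on with
  | C b =>
    induction b using MvPolynomial.induction_on with
    | C r =>
      refine ⟨0, 1, Submonoid.one_mem _, C r, isHomogeneous_one σ K, isHomogeneous_C σ r, ?_⟩
      rw [map_one, mul_one, aeval_C]
      rfl
    | add b b' h h' => rw [C_add]; exact hadd _ _ h h'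
    | mul_X b a h =>
      rw [C_mul]
      refine hmul _ _ h ⟨1, X (pv (bl a.1)), Submonoid.subset_closure (Or.inr ⟨a, rfl⟩), X a.1,
        isHomogeneous_X K _, isHomogeneous_X K _, ?_⟩
      rw [aeval_X, aeval_X]
      unfold xx
      rw [eta_pv (hpvZ _) (hpv _), hpv, eta_act, C_1]
      ring
  | add t t' h h' => exact hadd _ _ h h'
  | mul_X t l h =>
    refine hmul _ _ h ⟨1, X (pv 0), Submonoid.subset_closure (Or.inl rfl), X (pv l.succ),
      isHomogeneous_X K _, isHomogeneous_X K _, ?_⟩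
    rw [aeval_X, aeval_X, xx_pv0 hpv hpvZ, mul_one]
    unfold xx
    rw [eta_pv (hpvZ _) (hpv _), hpv, C_1, mul_one]
    rfl

/-- existence of the point of the chart -/
theorem exists_chart_point [Finite σ] (hpv : ∀ l, bl (pv l) = l) (hpvZ : ∀ l, pv l ∉ Zr)
    (p : PrimeSpectrum (MvPolynomial σ K)) (hp : HomP p)
    (hZr : ∀ s ∈ Zr, X s ∈ p.asIdeal) (h0 : X (pv 0) ∉ p.asIdeal)
    (hA : ∀ a : Act bl Zr pv, X (pv (bl a.1)) ∉ p.asIdeal) :
    ∃ Q : PrimeSpectrum (MvPolynomial (Fin q) (MvPolynomial (Act bl Zr pv) K)),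
      cone (xx K bl Zr pv) Q = p := by
  let ξ : σ → Kap p := fun s => toKapA K p (X s)
  have hξ0 : ξ (pv 0) ≠ 0 := by
    intro h
    exact h0 ((toKap_eq_zero p _).1 h)
  have hξA : ∀ a : Act bl Zr pv, ξ (pv (bl a.1)) ≠ 0 := by
    intro a h
    exact hA a ((toKap_eq_zero p _).1 h)
  let ψB : MvPolynomial (Act bl Zr pv) K →ₐ[K] Kap p :=
    aeval (fun a => ξ a.1 / ξ (pv (bl a.1)))
  let ψ : MvPolynomial (Fin q) (MvPolynomial (Act bl Zr pv) K) →+* Kap p :=
    eval₂Hom (ψB : _ →+* Kap p) (fun l => ξ (pv l.succ) / ξ (pv 0))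
  have hψC : ∀ b, ψ (C b) = ψB b := fun b => eval₂Hom_C _ _ _
  have hψX : ∀ l, ψ (X l) = ξ (pv l.succ) / ξ (pv 0) := fun l => eval₂Hom_X' _ _ _
  have hψw : ∀ l, ψ (ww _ q l) = ξ (pv l) / ξ (pv 0) := by
    intro l
    refine Fin.cases ?_ (fun l => ?_) l
    · change ψ 1 = _
      rw [map_one, div_self hξ0]
    · exact hψX l
  have hψx : ∀ s, ψ (xx K bl Zr pv s) = ξ s / ξ (pv 0) := by
    intro s
    unfold xx
    rw [map_mul, hψw, hψC]
    by_cases hs : s ∈ Zr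
    · rw [eta_zr hs, map_zero, mul_zero]
      have : ξ s = 0 := (toKap_eq_zero p _).2 (hZr s hs)
      rw [this, zero_div]
    · by_cases hs2 : s = pv (bl s)
      · have h1 : eta K bl Zr pv s = 1 := by
          rw [hs2]; rw [eta_pv (hpvZ _) (hpv _)]
        rw [h1, map_one, mul_one, ← hs2]
      · have h1 : eta K bl Zr pv s = X ⟨s, hs, hs2⟩ := eta_act (K := K) (⟨s, hs, hs2⟩ : Act bl Zr pv)
        have h2 : ψB (X ⟨s, hs, hs2⟩) = ξ s / ξ (pv (bl s)) := aeval_X _ _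
        have h3 : ξ (pv (bl s)) ≠ 0 := hξA ⟨s, hs, hs2⟩
        rw [h1, h2]
        field_simp
  have hψa : ∀ f : MvPolynomial σ K, ψ (aeval (xx K bl Zr pv) f) =
      aeval (fun s => ξ s / ξ (pv 0)) f := by
    intro f
    induction f using MvPolynomial.induction_on with
    | C r =>
      rw [aeval_C, aeval_C]
      change ψ (C (C r)) = _
      rw [hψC]
      exact aeval_C _ r
    | add f g hf hg => rw [map_add, map_add, hf, hg, map_add]
    | mul_X f s hf => rw [map_mul, map_mul, hf, aeval_X, hψx, map_mul, aeval_X]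
  refine ⟨⟨RingHom.ker ψ, RingHom.ker_isPrime ψ⟩, ?_⟩
  have hhom : ∀ (n : ℕ) (f : MvPolynomial σ K), f.IsHomogeneous n →
      (aeval (xx K bl Zr pv) f ∈ RingHom.ker ψ ↔ f ∈ p.asIdeal) := by
    intro n f hf
    rw [RingHom.mem_ker, hψa, isHomogeneous_aeval hf (fun s => ξ s / ξ (pv 0)) ξ (ξ (pv 0))⁻¹
      (fun s => by rw [div_eq_inv_mul])]
    have : aeval ξ f = toKapA K p f := by
      have : (aeval ξ : MvPolynomial σ K →ₐ[K] Kap p) = toKapA K p := by
        apply MvPolynomial.algHom_ext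
        intro s
        rw [aeval_X]
      rw [this]
    rw [this, mul_eq_zero]
    have h1 : (ξ (pv 0))⁻¹ ^ n ≠ 0 := pow_ne_zero _ (inv_ne_zero hξ0)
    rw [or_iff_right h1]
    exact toKap_eq_zero p f
  apply PrimeSpectrum.ext
  ext f
  rw [mem_cone]
  constructor
  · intro h
    rw [← sum_homogeneousComponent f]
    apply Ideal.sum_mem
    intro n _
    exact (hhom n _ (homogeneousComponent_isHomogeneous n f)).1 (h n)
  · intro h n
    exact (hhom n _ (homogeneousComponent_isHomogeneous n f)).2 (hp f h n)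

theorem homogeneousComponent_scl [Fintype σ] (c : σ → K) (f : MvPolynomial σ K) (n : ℕ) :
    homogeneousComponent n (scl K c f) = scl K c (homogeneousComponent n f) := by
  ext m
  rw [coeff_homogeneousComponent, scl_coeff, scl_coeff, coeff_homogeneousComponent]
  split_ifs
  · rfl
  · rw [mul_zero]

theorem scl_xx [Fintype σ] (c : Fin q → K) (f : MvPolynomial σ K) :
    scl (MvPolynomial (Act bl Zr pv) K) c (aeval (xx K bl Zr pv) f) =
      aeval (xx K bl Zr pv) (scl K (fun s => (Fin.cases 1 c (bl s) : K)) f) := by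
  induction f using MvPolynomial.induction_on with
  | C r =>
    rw [scl_C, aeval_C]
    exact scl_C c _
  | add f g hf hg => simp only [map_add, hf, hg]
  | mul_X f s hf =>
    simp only [map_mul, hf, scl_X, aeval_X]
    congr 1
    unfold xx
    rw [map_mul, scl_C]
    have h1 : ∀ l, scl (MvPolynomial (Act bl Zr pv) K) c (ww _ q l) =
        C (C (Fin.cases 1 c l : K)) * ww _ q l := by
      intro l
      refine Fin.cases ?_ (fun l => ?_) l
      · change scl _ c 1 = C (C 1) * 1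
        rw [map_one, C_1, C_1, mul_one]
      · change scl _ c (X l) = C (C (c l)) * X l
        rw [scl_X]; rfl
    rw [h1]
    change _ = aeval (xx K bl Zr pv) (C _) * _
    rw [aeval_C, mul_assoc]
    rfl

end data

section chart
variable {σ : Type} [Fintype σ] {q : ℕ}
variable {bl : σ → Fin (q + 1)} {Zr : Set σ} {pv : Fin (q + 1) → σ}

theorem aeval_xx_sum {d : ℕ} {Fl : Fin (q + 1) → MvPolynomial σ K}
    (hFl : ∀ l, BH bl l d (Fl l)) :
    aeval (xx K bl Zr pv) (∑ l, Fl l) = expand d (lin (aeval (eta K bl Zr pv) (Fl 0))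
      (fun l => aeval (eta K bl Zr pv) (Fl l.succ))) := by
  have h1 : ∀ l, aeval (xx K bl Zr pv) (Fl l) =
      ww _ q l ^ d * C (aeval (eta K bl Zr pv) (Fl l)) := by
    intro l
    rw [(hFl l).aeval_eq (xx K bl Zr pv) (fun s => C (eta K bl Zr pv s)) (ww _ q l)
      (fun s hs => by unfold xx; rw [hs])]
    congr 1
    have : (aeval (fun s => C (eta K bl Zr pv s)) : MvPolynomial σ K →ₐ[K]
        MvPolynomial (Fin q) (MvPolynomial (Act bl Zr pv) K)) =
        ((Algebra.ofId (MvPolynomial (Act bl Zr pv) K)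
          (MvPolynomial (Fin q) (MvPolynomial (Act bl Zr pv) K))).restrictScalars K).comp
          (aeval (eta K bl Zr pv)) := by
      apply MvPolynomial.algHom_ext
      intro s
      rw [aeval_X, AlgHom.comp_apply, aeval_X]
      rfl
    rw [this]
    rfl
  rw [map_sum, Fin.sum_univ_succ, h1 0]
  unfold lin
  rw [map_add, expand_C, map_sum]
  have h2 : ww (MvPolynomial (Act bl Zr pv) K) q 0 = 1 := rfl
  rw [h2, one_pow, one_mul]
  congr 1
  apply Finset.sum_congr rfl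
  intro l _
  rw [h1, map_mul, expand_C, expand_X]
  have h3 : ww (MvPolynomial (Act bl Zr pv) K) q l.succ = X l := rfl
  rw [h3, mul_comm]

theorem chart_poly {d : ℕ} (hd : 0 < d) {ζ : K} (hζ : IsPrimitiveRoot ζ d)
    (hpv : ∀ l, bl (pv l) = l) (hpvZ : ∀ l, pv l ∉ Zr)
    {ι : Type} (Λ : Finset ι) (Fl : ι → Fin (q + 1) → MvPolynomial σ K)
    (hFl : ∀ e l, BH bl l d (Fl e l))
    {Z : Set (PrimeSpectrum (MvPolynomial σ K))}
    (HZ1 : ∀ Q : PrimeSpectrum (MvPolynomial σ K), (∀ s ∈ Zr, X s ∈ Q.asIdeal) →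
      (∀ e ∈ Λ, ∑ l, Fl e l ∈ Q.asIdeal) → Q ∈ Z)
    (HZ2 : ∀ Q ∈ Z, ∀ e ∈ Λ, ∑ l, Fl e l ∈ Q.asIdeal) {i : ℕ}
    (hvan : Van K 𝕜 i {P : PrimeSpectrum (MvPolynomial (Fin q) (MvPolynomial (Act bl Zr pv) K)) |
      ∀ e ∈ Λ, lin (aeval (eta K bl Zr pv) (Fl e 0))
        (fun l => aeval (eta K bl Zr pv) (Fl e l.succ)) ∈ P.asIdeal})
    (N : Submodule 𝕜 (VH Z (i + 1) →₀ 𝕜)) (hN1 : RelH 𝕜 Z (i + 1) ≤ N)
    (hN2 : ∀ c : Fin (q + 1) → K, (∀ l, c l ^ d = 1) → ∀ V V' : VH Z (i + 1),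
      V'.1 = ctr K (scl K (fun s => c (bl s))) V.1 →
        Finsupp.single V' 1 - Finsupp.single V 1 ∈ N)
    (V : VH Z (i + 1)) (hVZ : ∀ s ∈ Zr, X s ∈ V.1.asIdeal) (hV0 : X (pv 0) ∉ V.1.asIdeal)
    (hVA : ∀ a : Act bl Zr pv, X (pv (bl a.1)) ∉ V.1.asIdeal) :
    Finsupp.single V 1 ∈ N ⊔ Submodule.span 𝕜 {w : VH Z (i + 1) →₀ 𝕜 | ∃ V' : VH Z (i + 1),
      ((∀ s ∈ Zr, X s ∈ V'.1.asIdeal) ∧ (X (pv 0) ∈ V'.1.asIdeal ∨
        ∃ a : Act bl Zr pv, X (pv (bl a.1)) ∈ V'.1.asIdeal)) ∧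
        w = Finsupp.single V' 1} := by
  obtain ⟨Q₀, hQ₀⟩ := exists_chart_point hpv hpvZ V.1 V.2.1 hVZ hV0 hVA
  have hhomF : ∀ e, (∑ l, Fl e l).IsHomogeneous d := fun e =>
    IsHomogeneous.sum _ _ _ (fun l _ => (hFl e l).isHomogeneous)
  have hav : ∀ u ∈ nrm K bl Zr pv, aeval (xx K bl Zr pv) u ∉ Q₀.asIdeal := by
    intro u hu h
    obtain ⟨n, hn⟩ := nrm_hom bl Zr pv u hu
    refine nrm_avoid V.1 hV0 hVA u hu ?_
    rw [← hQ₀, mem_cone_homog _ _ hn]
    exact h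
  have hmemZ : ∀ Q : PrimeSpectrum (MvPolynomial (Fin q) (MvPolynomial (Act bl Zr pv) K)),
      ctr K (expK K d _ _) Q ∈
      {P : PrimeSpectrum (MvPolynomial (Fin q) (MvPolynomial (Act bl Zr pv) K)) |
      ∀ e ∈ Λ, lin (aeval (eta K bl Zr pv) (Fl e 0))
        (fun l => aeval (eta K bl Zr pv) (Fl e l.succ)) ∈ P.asIdeal} ↔
      ∀ e ∈ Λ, ∑ l, Fl e l ∈ (cone (xx K bl Zr pv) Q).asIdeal := by
    intro Q
    refine forall₂_congr (fun e he => ?_)
    rw [mem_cone_homog _ Q (hhomF e), aeval_xx_sum (hFl e), mem_ctr, expK_apply]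
  have hxs : ∀ s ∈ Zr, ∀ Q : PrimeSpectrum (MvPolynomial (Fin q)
      (MvPolynomial (Act bl Zr pv) K)),
      (X s : MvPolynomial σ K) ∈ (cone (xx K bl Zr pv) Q).asIdeal := by
    intro s hs Q
    rw [mem_cone_homog (xx K bl Zr pv) Q (isHomogeneous_X K s), aeval_X]
    have : xx K bl Zr pv s = 0 := by
      unfold xx
      rw [eta_zr hs, C_0, mul_zero]
    rw [this]; exact Ideal.zero_mem _
  have key := chart' 𝕜 (expK K d (Fin q) (MvPolynomial (Act bl Zr pv) K))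
    (expK_flat hd _ _) (x := xx K bl Zr pv)
    (Sub := nrm K bl Zr pv) (nrm_hom bl Zr pv) (frac0_xx hpv hpvZ) (x₀ := X (pv 0))
    (isHomogeneous_X K _) (by rw [aeval_X]; exact xx_pv0 hpv hpvZ)
    (expK_dl hd _ _) (Z := Z)
    (fun Q hQ => HZ1 _ (fun s hs => hxs s hs Q) ((hmemZ Q).1 hQ))
    hvan N hN1 V Q₀ hQ₀.symm hav
    ((hmemZ Q₀).2 (by
      intro e he
      have := HZ2 V.1 V.2.2.1 e he
      rw [← hQ₀] at this
      exact this))
    (by
      intro Q hQ V' hV'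
      have hdl : dl K Q = dl K Q₀ := by
        rw [← expK_dl (K := K) hd (Fin q) _ Q, hQ, expK_dl (K := K) hd (Fin q) _ Q₀]
      obtain ⟨c, hc1, hc2⟩ := exists_scl hd hζ Q₀ Q (by
        intro f hf
        have : f ∈ (ctr K (expK K d _ _) Q).asIdeal := hf
        rw [hQ] at this
        exact this) hdl
      apply hN2 (fun l => Fin.cases 1 c l) (by
        intro l
        refine Fin.cases ?_ (fun l => ?_) l
        · exact one_pow d
        · exact hc1 l) V V'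
      rw [hV']
      apply PrimeSpectrum.ext
      ext f
      rw [mem_cone, mem_ctr, ← hQ₀, mem_cone]
      refine forall_congr' (fun n => ?_)
      rw [homogeneousComponent_scl, ← scl_xx, hc2]
      exact Iff.rfl)
  refine (sup_le_sup le_rfl (Submodule.span_mono ?_) : N ⊔ _ ≤ N ⊔ _) key
  rintro w ⟨V', ⟨⟨Q, hQ⟩, v, hv, hvV⟩, rfl⟩
  refine ⟨V', ⟨fun s hs => hQ (hxs s hs Q), ?_⟩, rfl⟩
  by_contra hcon
  push Not at hcon
  exact nrm_avoid V'.1 hcon.1 hcon.2 v hv hvV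

end chart

end Pool.Agent.Bloch
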