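import Pool.Agent.Bloch.LemD

set_option linter.unusedSectionVars false

open MvPolynomial

namespace Pool.Agent.Bloch

variable {K : Type} [Field K]

section
variable {σ : Type} [Fintype σ]

/-- A prime containing the rescaled variables is fixed by the scaling. -/
theorem ctr_scl_fixed (c : σ → K) (p : PrimeSpectrum (MvPolynomial σ K))
    (h : ∀ s, c s ≠ 1 → X s ∈ p.asIdeal) : ctr K (scl K c) p = p := by
  have key : (Ideal.Quotient.mkₐ K p.asIdeal).comp (scl K c) = Ideal.Quotient.mkₐ K p.asIdeal := by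
    apply MvPolynomial.algHom_ext
    intro s
    rw [AlgHom.comp_apply, scl_X, map_mul]
    by_cases hs : c s = 1
    · rw [hs, map_one, C_1, map_one, one_mul]
    · have : Ideal.Quotient.mkₐ K p.asIdeal (X s) = 0 := Ideal.Quotient.eq_zero_iff_mem.2 (h s hs)
      rw [this, mul_zero]
  apply PrimeSpectrum.ext
  ext f
  rw [mem_ctr]
  have h2 : Ideal.Quotient.mkₐ K p.asIdeal (scl K c f) = Ideal.Quotient.mkₐ K p.asIdeal f :=
    DFunLike.congr_fun key f
  constructor
  · intro hf
    have : Ideal.Quotient.mkₐ K p.asIdeal (scl K c f) = 0 := Ideal.Quotient.eq_zero_iff_mem.2 hf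
    rw [h2] at this
    exact Ideal.Quotient.eq_zero_iff_mem.1 this
  · intro hf
    have : Ideal.Quotient.mkₐ K p.asIdeal f = 0 := Ideal.Quotient.eq_zero_iff_mem.2 hf
    rw [← h2] at this
    exact Ideal.Quotient.eq_zero_iff_mem.1 this

end

section super
variable {σ : Type} [Fintype σ] {t : ℕ}

/-- the equations grouped according to superblocks -/
noncomputable def grp {ι : Type} {q : ℕ} (π : Fin t → Fin (q + 1))
    (f : ι → Fin t → MvPolynomial σ K) (e : ι) (l : Fin (q + 1)) : MvPolynomial σ K :=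
  open Classical in ∑ k ∈ Finset.univ.filter (fun k => π k = l), f e k

theorem grp_bh {ι : Type} {q : ℕ} (π : Fin t → Fin (q + 1)) {d : ℕ} {β : σ → Fin t}
    {f : ι → Fin t → MvPolynomial σ K} (hf : ∀ e k, BH β k d (f e k)) (e : ι) (l : Fin (q + 1)) :
    BH (fun s => π (β s)) l d (grp π f e l) := by
  classical
  unfold grp
  apply BH.sum
  intro k hk
  rw [Finset.mem_filter] at hk
  exact (hf e k).comp π hk.2

theorem grp_sum {ι : Type} {q : ℕ} (π : Fin t → Fin (q + 1))
    (f : ι → Fin t → MvPolynomial σ K) (e : ι) : ∑ l, grp π f e l = ∑ k, f e k := by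
  classical
  unfold grp
  exact Finset.sum_fiberwise Finset.univ π (f e)

end super

section one
variable (𝕜 : Type) [Field 𝕜] [CharZero 𝕜]
variable {σ : Type} [Fintype σ] {t : ℕ}

/-- The invariant part is generated by one element. -/
theorem chi_one {d : ℕ} (hd : 0 < d) {ζ : K} (hζ : IsPrimitiveRoot ζ d)
    (β : σ → Fin t) (hβ : Function.Surjective β) {ι : Type} [Fintype ι]
    (f : ι → Fin t → MvPolynomial σ K)
    (hf : ∀ e k, BH β k d (f e k))
    {Z : Set (PrimeSpectrum (MvPolynomial σ K))}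
    (HZ : ∀ Q, Q ∈ Z ↔ ∀ e, ∑ k, f e k ∈ Q.asIdeal) {i : ℕ}
    (hi : i + Fintype.card ι < t)
    (N : Submodule 𝕜 (VH Z (i + 1) →₀ 𝕜)) (hN1 : RelH 𝕜 Z (i + 1) ≤ N)
    (hN2 : ∀ c : Fin t → K, (∀ l, c l ^ d = 1) → ∀ V V' : VH Z (i + 1),
      V'.1 = ctr K (scl K (fun s => c (β s))) V.1 →
        Finsupp.single V' 1 - Finsupp.single V 1 ∈ N) :
    ∃ α : VH Z (i + 1) →₀ 𝕜, ∀ V : VH Z (i + 1),
      Finsupp.single V 1 ∈ N ⊔ Submodule.span 𝕜 {α} := by
  classical
  obtain ⟨q, rfl⟩ : ∃ q, t = q + 1 := ⟨t - 1, by omega⟩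
  choose J hJ using hβ
  have hcard : (Finset.univ : Finset ι).card = Fintype.card ι := rfl
  -- reduction to one variable in each block
  have step1 : ∀ T : Finset (Fin (q + 1)), ∀ V : VH Z (i + 1), Finsupp.single V 1 ∈ N ⊔
      Submodule.span 𝕜 {w : VH Z (i + 1) →₀ 𝕜 | ∃ V' : VH Z (i + 1),
        (∀ s, β s ∈ T → s ≠ J (β s) → X s ∈ V'.1.asIdeal) ∧ w = Finsupp.single V' 1} := by
    intro T
    induction T using Finset.induction_on with
    | empty =>
      intro V
      refine Submodule.mem_sup_right (Submodule.subset_span ⟨V, ?_, rfl⟩)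
      intro s hs
      exact absurd hs (Finset.notMem_empty _)
    | insert k₀ T hk₀ ih =>
      intro V
      refine (sup_le le_sup_left ?_ : _ ⊔ _ ≤ N ⊔ Submodule.span 𝕜 {w : VH Z (i + 1) →₀ 𝕜 |
        ∃ V' : VH Z (i + 1), (∀ s, β s ∈ insert k₀ T → s ≠ J (β s) → X s ∈ V'.1.asIdeal) ∧
          w = Finsupp.single V' 1}) (ih V)
      rw [Submodule.span_le]
      rintro w ⟨V', hV', rfl⟩
      let π : Fin (q + 1) → Fin (q + 1) := Equiv.swap 0 k₀
      have hππ : ∀ k, π (π k) = k := fun k => Equiv.swap_apply_self 0 k₀ k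
      have hπ0 : π k₀ = 0 := Equiv.swap_apply_right 0 k₀
      have key := lemmaM 𝕜 hd hζ (fun s => π (β s)) (Finset.univ : Finset ι) (grp π f)
        (grp_bh π hf) (Z := Z)
        (fun Q h => (HZ Q).2 (fun e => by rw [← grp_sum π]; exact h e (Finset.mem_univ _)))
        (fun Q hQ e _ => by rw [grp_sum]; exact (HZ Q).1 hQ e) (i := i) (by rw [hcard]; omega) N hN1
        (fun c hc V V' h => hN2 (fun k => c (π k)) (fun k => hc _) V V' h)
        (J k₀) (by rw [hJ, hπ0])
        {s | β s ∈ T ∧ s ≠ J (β s)}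
        (by
          rintro ⟨h1, -⟩
          rw [hJ] at h1
          exact hk₀ h1)
        (by
          intro l _
          refine ⟨J (π l), ?_, ?_⟩
          · rw [hJ, hππ]
          · rintro ⟨-, h⟩
            apply h
            rw [hJ])
        V' (fun s hs => hV' s hs.1 hs.2)
      refine (sup_le_sup le_rfl (Submodule.span_mono ?_) : N ⊔ _ ≤ N ⊔ _) key
      rintro w ⟨V'', ⟨h1, h2⟩, rfl⟩
      refine ⟨V'', ?_, rfl⟩
      intro s hs hsJ
      rcases Finset.mem_insert.1 hs with h | h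
      · apply h2 s
        · rw [h, hπ0]
        · rintro rfl
          apply hsJ
          rw [hJ]
      · exact h1 s ⟨h, hsJ⟩
  obtain ⟨α, hα⟩ := lemmaD 𝕜 hd hζ β f hf J hJ N hN1 hN2 q Finset.univ
    (by rw [Finset.card_univ, Fintype.card_fin]) (Finset.univ : Finset ι)
    (by rw [hcard]; omega) (fun Q hQ e _ => (HZ Q).1 hQ e)
    (fun Q _ h => (HZ Q).2 (fun e => h e (Finset.mem_univ _)))
  refine ⟨α, fun V => ?_⟩
  refine (sup_le le_sup_left ?_ : _ ⊔ _ ≤ N ⊔ Submodule.span 𝕜 {α}) (step1 Finset.univ V)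
  rw [Submodule.span_le]
  rintro w ⟨V', hV', rfl⟩
  apply hα V'
  intro s hs
  apply hV' s (Finset.mem_univ _)
  intro h
  exact hs ⟨Finset.mem_univ _, h⟩

end one

section ne
variable [CharZero K]
variable {σ : Type} [Fintype σ] {t : ℕ}

/-- The part belonging to a nontrivial character which is a sum of many characters. -/
theorem chi_ne {d : ℕ} (hd : 0 < d) {ζ : K} (hζ : IsPrimitiveRoot ζ d)
    (β : σ → Fin t) (hβ : Function.Surjective β) {ι : Type} [Fintype ι]
    (f : ι → Fin t → MvPolynomial σ K)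
    (hf : ∀ e k, BH β k d (f e k))
    {Z : Set (PrimeSpectrum (MvPolynomial σ K))}
    (HZ : ∀ Q, Q ∈ Z ↔ ∀ e, ∑ k, f e k ∈ Q.asIdeal) {i q : ℕ}
    (hi : i + Fintype.card ι ≤ q) (a : Fin t → ℕ)
    (π : Fin t → Fin (q + 1)) (hπ : Function.Surjective π)
    (hπa : ∀ l, d ∣ ∑ k, if π k = l then a k else 0)
    (k₁ : Fin t) (hk₁ : ¬ d ∣ a k₁)
    (N : Submodule K (VH Z (i + 1) →₀ K)) (hN1 : RelH K Z (i + 1) ≤ N)
    (hN2 : ∀ c : Fin t → K, (∀ l, c l ^ d = 1) → ∀ V V' : VH Z (i + 1),
      V'.1 = ctr K (scl K (fun s => c (β s))) V.1 →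
        Finsupp.single V' 1 - (∏ k, c k ^ a k) • Finsupp.single V (1 : K) ∈ N) :
    ∀ V : VH Z (i + 1), Finsupp.single V 1 ∈ N := by
  classical
  intro V
  let π' : Fin t → Fin (q + 1) := fun k => Equiv.swap 0 (π k₁) (π k)
  have hπ'1 : π' k₁ = 0 := Equiv.swap_apply_right 0 (π k₁)
  have hπ's : Function.Surjective π' := (Equiv.swap 0 (π k₁)).surjective.comp hπ
  have hπ'a : ∀ l, d ∣ ∑ k ∈ Finset.univ.filter (fun k => π' k = l), a k := by
    intro l
    have h1 := hπa (Equiv.swap 0 (π k₁) l)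
    rw [Finset.sum_filter]
    have : ∀ k, (π' k = l) ↔ (π k = Equiv.swap 0 (π k₁) l) := by
      intro k
      change Equiv.swap 0 (π k₁) (π k) = l ↔ _
      constructor
      · rintro rfl; rw [Equiv.swap_apply_self]
      · intro h; rw [h, Equiv.swap_apply_self]
    simp only [this]
    exact h1
  -- another block in the same superblock
  obtain ⟨k₂, hk₂, hk₂π⟩ : ∃ k₂, k₂ ≠ k₁ ∧ π' k₂ = 0 := by
    by_contra hcon
    push Not at hcon
    apply hk₁
    have h1 := hπ'a 0
    have h2 : Finset.univ.filter (fun k => π' k = 0) = {k₁} := by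
      ext k
      rw [Finset.mem_filter, Finset.mem_singleton]
      constructor
      · intro h
        by_contra hne
        exact hcon k hne h.2
      · rintro rfl
        exact ⟨Finset.mem_univ _, hπ'1⟩
    rwa [h2, Finset.sum_singleton] at h1
  obtain ⟨s₀, hs₀⟩ := hβ k₂
  have hcard : (Finset.univ : Finset ι).card = Fintype.card ι := rfl
  have key := lemmaM K hd hζ (fun s => π' (β s)) (Finset.univ : Finset ι) (grp π' f)
    (grp_bh π' hf) (Z := Z)
    (fun Q h => (HZ Q).2 (fun e => by rw [← grp_sum π']; exact h e (Finset.mem_univ _)))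
    (fun Q hQ e _ => by rw [grp_sum]; exact (HZ Q).1 hQ e) (i := i) (by rw [hcard]; exact hi) N hN1
    (by
      intro c hc V V' h
      have h1 := hN2 (fun k => c (π' k)) (fun k => hc _) V V' h
      have h2 : (∏ k, c (π' k) ^ a k) = 1 := by
        rw [← Finset.prod_fiberwise Finset.univ π' (fun k => c (π' k) ^ a k)]
        apply Finset.prod_eq_one
        intro l _
        have h3 : ∏ k ∈ Finset.univ.filter (fun k => π' k = l), c (π' k) ^ a k =
            c l ^ (∑ k ∈ Finset.univ.filter (fun k => π' k = l), a k) := by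
          rw [← Finset.prod_pow_eq_pow_sum]
          apply Finset.prod_congr rfl
          intro k hk
          rw [Finset.mem_filter] at hk
          rw [hk.2]
        rw [h3]
        obtain ⟨m, hm⟩ := hπ'a l
        rw [hm, pow_mul, hc, one_pow]
      rw [h2, one_smul] at h1
      exact h1)
    s₀ (by rw [hs₀, hk₂π]) ∅ (Set.notMem_empty _)
    (by
      intro l _
      obtain ⟨k, hk⟩ := hπ's l
      obtain ⟨s, hs⟩ := hβ k
      exact ⟨s, by rw [hs, hk], Set.notMem_empty _⟩)
    V (fun s hs => absurd hs (Set.notMem_empty _))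
  refine (sup_le le_rfl ?_ : _ ⊔ _ ≤ N) key
  rw [Submodule.span_le]
  rintro w ⟨V', ⟨-, hV'⟩, rfl⟩
  -- the scaling of the block `k₁` fixes `V'`
  let c : Fin t → K := Function.update (fun _ => 1) k₁ ζ
  have hc : ∀ k, c k ^ d = 1 := by
    intro k
    by_cases h : k = k₁
    · have : c k = ζ := by rw [h]; exact Function.update_self _ _ _
      rw [this, hζ.pow_eq_one]
    · have : c k = 1 := Function.update_of_ne h _ _
      rw [this, one_pow]
  have hfix : ctr K (scl K (fun s => c (β s))) V'.1 = V'.1 := by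
    apply ctr_scl_fixed
    intro s hs
    have h1 : β s = k₁ := by
      by_contra h
      exact hs (Function.update_of_ne h _ _)
    apply hV' s
    · rw [h1, hπ'1]
    · rintro rfl
      rw [hs₀] at h1
      exact hk₂ h1
  have h1 := hN2 c hc V' V' hfix.symm
  have h2 : (∏ k, c k ^ a k) = ζ ^ a k₁ := by
    rw [Finset.prod_eq_single k₁]
    · have : c k₁ = ζ := Function.update_self _ _ _
      rw [this]
    · intro k _ h
      have : c k = 1 := Function.update_of_ne h _ _
      rw [this, one_pow]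
    · intro h; exact absurd (Finset.mem_univ _) h
  rw [h2] at h1
  have h3 : (1 - ζ ^ a k₁) ≠ 0 := by
    intro h
    apply hk₁
    exact hζ.dvd_of_pow_eq_one _ (sub_eq_zero.1 h).symm
  have h4 : Finsupp.single V' (1 : K) = (1 - ζ ^ a k₁)⁻¹ •
      (Finsupp.single V' 1 - ζ ^ a k₁ • Finsupp.single V' (1 : K)) := by
    rw [← one_smul K (Finsupp.single V' (1 : K)), smul_smul, ← sub_smul, smul_smul, mul_one,
      inv_mul_cancel₀ h3]
  change Finsupp.single V' (1 : K) ∈ N
  rw [h4]
  exact Submodule.smul_mem _ _ h1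

end ne

end Pool.Agent.Bloch
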