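import Pool.Agent.Bloch.Big8
import Pool.Agent.Bloch.ChiZero2

/-! Pivot blocks on which the character is trivial: reduction to a covering of projective space. -/

set_option linter.unusedSectionVars false

open MvPolynomial

namespace Pool.Agent.Bloch

variable {K : Type} [Field K]

section sb
variable {T : Type} {r : ℕ}

/-- the superblocks attached to a set of blocks -/
noncomputable def sbT (S : Fin r ↪ T) (k : T) : Fin (r + 1) :=
  open Classical in if h : ∃ j, S j = k then (Classical.choose h).succ else 0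

theorem sbT_S (S : Fin r ↪ T) (j : Fin r) : sbT S (S j) = j.succ := by
  have h : ∃ j', S j' = S j := ⟨j, rfl⟩
  unfold sbT
  rw [dif_pos h]
  congr 1
  exact S.injective (Classical.choose_spec h)

theorem sbT_of_not (S : Fin r ↪ T) {k : T} (h : ∀ j, S j ≠ k) : sbT S k = 0 := by
  unfold sbT
  rw [dif_neg]
  rintro ⟨j, hj⟩
  exact h j hj

theorem sbT_succ (S : Fin r ↪ T) {k : T} {j : Fin r} (h : sbT S k = j.succ) : k = S j := by
  by_cases h' : ∃ j', S j' = k
  · obtain ⟨j', rfl⟩ := h'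
    rw [sbT_S] at h
    rw [Fin.succ_injective r h]
  · push Not at h'
    rw [sbT_of_not S h'] at h
    exact absurd h (Fin.succ_ne_zero j).symm

end sb

section P
variable {σ : Type} [Fintype σ] {T : Type} [Fintype T] {r : ℕ}

/-- the variables of the pivot blocks other than the pivots vanish -/
def SupP (β : σ → T) (S : Fin r ↪ T) (J : Fin r → σ) (p : PrimeSpectrum (MvPolynomial σ K)) :
    Prop := ∀ s, (∃ j, S j = β s ∧ s ≠ J j) → X s ∈ p.asIdeal

/-- the variables outside the pivot blocks which do not vanish -/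
noncomputable def lvT (β : σ → T) (S : Fin r ↪ T) (p : PrimeSpectrum (MvPolynomial σ K)) :
    Finset σ :=
  open Classical in Finset.univ.filter (fun s => (∀ j, S j ≠ β s) ∧ X s ∉ p.asIdeal)

theorem mem_lvT (β : σ → T) (S : Fin r ↪ T) (p : PrimeSpectrum (MvPolynomial σ K)) (s : σ) :
    s ∈ lvT β S p ↔ (∀ j, S j ≠ β s) ∧ X s ∉ p.asIdeal := by
  classical
  unfold lvT
  rw [Finset.mem_filter]
  exact ⟨fun h => h.2, fun h => ⟨Finset.mem_univ _, h⟩⟩

open Classical in
/-- the coefficients of the pivots -/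
noncomputable def cfP (S : Fin r ↪ T) (J : Fin r → σ) (f : Fin r → T → MvPolynomial σ K)
    (e j : Fin r) : K := aeval (fun s => if s = J j then (1 : K) else 0) (f e (S j))

theorem gf_S (S : Fin r ↪ T) (f : Fin r → T → MvPolynomial σ K) (e j : Fin r) :
    gf (sbT S) f e j.succ = f e (S j) := by
  unfold gf
  rw [Finset.sum_filter, Finset.sum_eq_single (S j)]
  · rw [if_pos (sbT_S S j)]
  · intro k _ hk
    rw [if_neg]
    intro h
    exact hk (sbT_succ S h)
  · intro h; exact absurd (Finset.mem_univ _) h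

variable (𝕜 : Type) [Field 𝕜] [CharZero 𝕜]

theorem move_P {d : ℕ} (hd : 0 < d) {ζ : K} (hζ : IsPrimitiveRoot ζ d)
    (β : σ → T) (f : Fin r → T → MvPolynomial σ K) (hf : ∀ e k, BH β k d (f e k))
    (S : Fin r ↪ T) (J : Fin r → σ) (hJ : ∀ j, β (J j) = S j) (B : Fin r → Fin r → K)
    (hAB : ∀ e e', ∑ l, cfP S J f e l * B l e' = if e = e' then 1 else 0)
    (hBA : ∀ j j', ∑ e, B j e * cfP S J f e j' = if j = j' then 1 else 0)
    {Z : Set (PrimeSpectrum (MvPolynomial σ K))}
    (HZ : ∀ Q, Q ∈ Z ↔ ∀ e, ∑ k, f e k ∈ Q.asIdeal) {i : ℕ}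
    (N : Submodule 𝕜 (VH Z (i + 1) →₀ 𝕜)) (hN1 : RelH 𝕜 Z (i + 1) ≤ N)
    (hN2 : ∀ c : Fin (r + 1) → K, (∀ l, c l ^ d = 1) → ∀ V V' : VH Z (i + 1),
      V'.1 = ctr K (scl K (fun s => c (sbT S (β s)))) V.1 →
        Finsupp.single V' 1 - Finsupp.single V 1 ∈ N)
    (V : VH Z (i + 1)) (hsup : SupP β S J V.1) (hV : i + 1 < (lvT β S V.1).card) :
    Finsupp.single V 1 ∈ N ⊔ Submodule.span 𝕜 {w : VH Z (i + 1) →₀ 𝕜 | ∃ V' : VH Z (i + 1),
      SupP β S J V'.1 ∧ lvT β S V'.1 ⊂ lvT β S V.1 ∧ w = Finsupp.single V' 1} := by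
  classical
  obtain ⟨s₀, hs₀⟩ := Finset.card_pos.1 (lt_of_le_of_lt (Nat.zero_le _) hV)
  have hs₀' := (mem_lvT β S V.1 s₀).1 hs₀
  let bl : σ → Fin (r + 1) := fun s => sbT S (β s)
  let pv : Fin (r + 1) → σ := Fin.cases s₀ J
  have hpv0 : pv 0 = s₀ := rfl
  have hpvS : ∀ j : Fin r, pv j.succ = J j := fun j => rfl
  let Zr : Set σ := {s | (∃ j, S j = β s ∧ s ≠ J j) ∨ ((∀ j, S j ≠ β s) ∧ X s ∈ V.1.asIdeal)}
  have hpv : ∀ l, bl (pv l) = l := by
    intro l
    refine Fin.cases ?_ (fun j => ?_) l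
    · exact sbT_of_not S hs₀'.1
    · rw [hpvS]
      change sbT S (β (J j)) = _
      rw [hJ]
      exact sbT_S S j
  have hpvZ : ∀ l, pv l ∉ Zr := by
    intro l
    refine Fin.cases ?_ (fun j => ?_) l
    · rintro (⟨j, h, _⟩ | h)
      · exact hs₀'.1 j h
      · exact hs₀'.2 h.2
    · rw [hpvS]
      rintro (⟨j', h1, h2⟩ | h)
      · rw [hJ] at h1
        apply h2
        rw [S.injective h1]
      · exact h.1 j (hJ j).symm
  have hAct : ∀ a : Act bl Zr pv, a.1 ∈ (lvT β S V.1).erase s₀ := by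
    intro a
    have h1 : ∀ j, S j ≠ β a.1 := by
      intro j hj
      apply a.2.1
      refine Or.inl ⟨j, hj, ?_⟩
      intro h
      apply a.2.2
      have h2 : bl a.1 = j.succ := by
        change sbT S (β a.1) = _
        rw [← hj]
        exact sbT_S S j
      rw [h2, hpvS]
      exact h
    rw [Finset.mem_erase, mem_lvT]
    refine ⟨?_, h1, fun h => a.2.1 (Or.inr ⟨h1, h⟩)⟩
    intro h
    apply a.2.2
    have h2 : bl a.1 = 0 := sbT_of_not S h1
    rw [h2, h]
    exact hpv0.symm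
  have hActc : Fintype.card (Act bl Zr pv) = (lvT β S V.1).card - 1 := by
    rw [← Finset.card_erase_of_mem hs₀, ← Fintype.card_coe]
    apply Fintype.card_congr
    refine ⟨fun a => ⟨a.1, hAct a⟩, fun b => ⟨b.1, ?_⟩, fun a => rfl, fun b => rfl⟩
    have hb := b.2
    rw [Finset.mem_erase, mem_lvT] at hb
    refine ⟨?_, ?_⟩
    · rintro (⟨j, h, _⟩ | h)
      · exact hb.2.1 j h
      · exact hb.2.2 h.2
    · have h2 : bl b.1 = 0 := sbT_of_not S hb.2.1
      rw [h2]
      exact hb.1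
  have hφ : ∀ e (j : Fin r), aeval (eta K bl Zr pv) (gf (sbT S) f e j.succ) =
      algebraMap K (MvPolynomial (Act bl Zr pv) K) (cfP S J f e j) := by
    intro e j
    rw [gf_S]
    have h1 : aeval (eta K bl Zr pv) (f e (S j)) =
        aeval (fun s => algebraMap K (MvPolynomial (Act bl Zr pv) K)
          (if s = J j then (1 : K) else 0)) (f e (S j)) := by
      apply (hf e (S j)).aeval_congr
      intro s hs
      by_cases h : s = J j
      · have h2 : eta K bl Zr pv (J j) = 1 := by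
          have := eta_pv (K := K) (hpvZ j.succ) (hpv j.succ)
          rwa [hpvS] at this
        rw [if_pos h, h, h2, map_one]
      · rw [if_neg h, map_zero]
        exact eta_zr (Or.inl ⟨j, hs.symm, h⟩)
    rw [h1]
    exact aeval_algebraMap_apply _ _ _
  have hvan : Van K 𝕜 i {P : PrimeSpectrum (MvPolynomial (Fin r)
      (MvPolynomial (Act bl Zr pv) K)) |
      ∀ e ∈ (Finset.univ : Finset (Fin r)),
        lin (aeval (eta K bl Zr pv) (gf (sbT S) f e 0))
        (fun l => aeval (eta K bl Zr pv) (gf (sbT S) f e l.succ)) ∈ P.asIdeal} := by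
    simp only [hφ]
    set g : Fin r → MvPolynomial (Act bl Zr pv) K := fun e =>
      aeval (eta K bl Zr pv) (gf (sbT S) f e 0) with hg
    refine van_of_surj K 𝕜 ((solve B g).restrictScalars K) ?_ (Z := Set.univ) ?_ ?_
      (van_aff 𝕜 (Act bl Zr pv) (by rw [hActc]; omega))
    · intro x
      exact ⟨C x, solve_C B g x⟩
    · intro Q
      refine ⟨fun _ e _ => ?_, fun _ => Set.mem_univ _⟩
      rw [mem_ctr]
      change solve B g (lin (g e) _) ∈ Q.asIdeal
      rw [solve_lin (fun e l => cfP S J f e l) B hAB g e]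
      exact Ideal.zero_mem _
    · intro p hp x hx
      exact solve_ker (fun e l => cfP S J f e l) B hBA g p.asIdeal
        (fun e => hp e (Finset.mem_univ _)) x hx
  have key := chart_poly 𝕜 hd hζ hpv hpvZ (Finset.univ : Finset (Fin r)) (gf (sbT S) f)
    (gf_bh (sbT S) hf) (Z := Z)
    (fun Q _ h => (HZ Q).2 (fun e => by
      rw [← gf_sum (sbT S)]; exact h e (Finset.mem_univ _)))
    (fun Q hQ e _ => by rw [gf_sum]; exact (HZ Q).1 hQ e) hvan N hN1 hN2 V
    (by
      rintro s (h | h)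
      · exact hsup s h
      · exact h.2) hs₀'.2 (by
      intro a
      have h1 : bl a.1 = 0 := by
        have := hAct a
        rw [Finset.mem_erase, mem_lvT] at this
        exact sbT_of_not S this.2.1
      rw [h1]
      exact hs₀'.2)
  refine (sup_le_sup le_rfl (Submodule.span_mono ?_) : N ⊔ _ ≤ N ⊔ _) key
  rintro w ⟨V', ⟨h1, h2⟩, rfl⟩
  refine ⟨V', fun s hs => h1 s (Or.inl hs), ?_, rfl⟩
  have h3 : X s₀ ∈ V'.1.asIdeal := by
    rcases h2 with h2 | ⟨a, h2⟩
    · exact h2
    · have h4 : bl a.1 = 0 := by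
        have := hAct a
        rw [Finset.mem_erase, mem_lvT] at this
        exact sbT_of_not S this.2.1
      rw [h4] at h2
      exact h2
  rw [Finset.ssubset_iff_of_subset]
  · exact ⟨s₀, hs₀, fun h => ((mem_lvT β S V'.1 s₀).1 h).2 h3⟩
  · intro k hk
    rw [mem_lvT] at hk ⊢
    exact ⟨hk.1, fun h => hk.2 (h1 k (Or.inr ⟨hk.1, h⟩))⟩

end P

end Pool.Agent.Bloch
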