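import Pool.Agent.Bloch.ChiP

/-! Pivot blocks on which the character is trivial: the top dimensional case. -/

set_option linter.unusedSectionVars false

open MvPolynomial

namespace Pool.Agent.Bloch

variable {K : Type} [Field K]

section conj
variable {σ : Type} [Fintype σ] {T : Type} [Fintype T] {r : ℕ}

/-- the projection to the pivots and the variables in `L` -/
noncomputable def rhP (J : Fin r → σ) (L : Finset σ) :
    MvPolynomial σ K →ₐ[K] MvPolynomial (Fin r) (MvPolynomial L K) :=
  open Classical in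
  aeval (fun s => if h : ∃ j, J j = s then X (Classical.choose h) else
    if h' : s ∈ L then C (X ⟨s, h'⟩) else 0)

theorem rhP_C (J : Fin r → σ) (L : Finset σ) (a : K) :
    rhP J L (C a : MvPolynomial σ K) = C (C a) := by
  rw [← algebraMap_eq, AlgHom.commutes]; rfl

theorem rhP_J (J : Fin r → σ) (hJ : Function.Injective J) (L : Finset σ) (j : Fin r) :
    rhP (K := K) J L (X (J j)) = X j := by
  classical
  unfold rhP
  have h : ∃ j', J j' = J j := ⟨j, rfl⟩
  rw [aeval_X, dif_pos h]
  congr 1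
  exact hJ (Classical.choose_spec h)

theorem rhP_L (J : Fin r → σ) (L : Finset σ) {s : σ} (h : ∀ j, J j ≠ s)
    (hs : s ∈ L) : rhP (K := K) J L (X s) = C (X ⟨s, hs⟩) := by
  classical
  unfold rhP
  rw [aeval_X, dif_neg (by rintro ⟨j, hj⟩; exact h j hj), dif_pos hs]

theorem rhP_not (J : Fin r → σ) (L : Finset σ) {s : σ} (h : ∀ j, J j ≠ s)
    (hs : s ∉ L) : rhP (K := K) J L (X s) = 0 := by
  classical
  unfold rhP
  rw [aeval_X, dif_neg (by rintro ⟨j, hj⟩; exact h j hj), dif_neg hs]

theorem rhP_surj (J : Fin r → σ) (hJ : Function.Injective J) (L : Finset σ)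
    (hL : ∀ s ∈ L, ∀ j, J j ≠ s) : Function.Surjective (rhP (K := K) J L) := by
  intro y
  induction y using MvPolynomial.induction_on with
  | C b =>
    induction b using MvPolynomial.induction_on with
    | C a => exact ⟨C a, rhP_C J L a⟩
    | add a b ha hb =>
      obtain ⟨x, hx⟩ := ha
      obtain ⟨y, hy⟩ := hb
      exact ⟨x + y, by rw [map_add, hx, hy, C_add]⟩
    | mul_X a l ha =>
      obtain ⟨x, hx⟩ := ha
      refine ⟨x * X l.1, ?_⟩
      rw [map_mul, hx, rhP_L J L (hL _ l.2) l.2, C_mul]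
  | add a b ha hb =>
    obtain ⟨x, hx⟩ := ha
    obtain ⟨y, hy⟩ := hb
    exact ⟨x + y, by rw [map_add, hx, hy]⟩
  | mul_X a j ha =>
    obtain ⟨x, hx⟩ := ha
    exact ⟨x * X (J j), by rw [map_mul, hx, rhP_J J hJ]⟩

theorem rhP_ker (J : Fin r → σ) (hJ : Function.Injective J) (L : Finset σ)
    (p : Ideal (MvPolynomial σ K))
    (hp : ∀ s, (∀ j, J j ≠ s) → s ∉ L → X s ∈ p) (x : MvPolynomial σ K)
    (hx : rhP J L x = 0) : x ∈ p := by
  let ψ : MvPolynomial (Fin r) (MvPolynomial L K) →+* MvPolynomial σ K ⧸ p :=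
    eval₂Hom ((aeval (fun l : L => Ideal.Quotient.mk p (X l.1)) :
      MvPolynomial L K →ₐ[K] MvPolynomial σ K ⧸ p) : MvPolynomial L K →+* _)
      (fun j => Ideal.Quotient.mk p (X (J j)))
  have h : ∀ x, ψ (rhP J L x) = Ideal.Quotient.mk p x := by
    intro x
    induction x using MvPolynomial.induction_on with
    | C a =>
      rw [rhP_C]
      change eval₂Hom _ _ (C (C a)) = _
      rw [eval₂Hom_C]
      change aeval _ (C a) = _
      rw [aeval_C]
      rfl
    | add a b ha hb => rw [map_add, map_add, map_add, ha, hb]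
    | mul_X a k ha =>
      have hk : ψ (rhP J L (X k)) = Ideal.Quotient.mk p (X k) := by
        by_cases h : ∃ j, J j = k
        · obtain ⟨j, rfl⟩ := h
          rw [rhP_J J hJ]
          exact eval₂Hom_X' _ _ _
        · push Not at h
          by_cases hk : k ∈ L
          · rw [rhP_L J L h hk]
            change eval₂Hom _ _ (C (X _)) = _
            rw [eval₂Hom_C]
            exact aeval_X _ _
          · rw [rhP_not J L h hk, map_zero]
            exact (Ideal.Quotient.eq_zero_iff_mem.2 (hp k h hk)).symm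
      rw [map_mul, map_mul, map_mul, ha, hk]
  have h1 := h x
  rw [hx, map_zero] at h1
  exact Ideal.Quotient.eq_zero_iff_mem.1 h1.symm

open Classical in
/-- the restriction to the variables in `L` -/
noncomputable def resL (L : Finset σ) (f : MvPolynomial σ K) : MvPolynomial L K :=
  aeval (fun s => if h : s ∈ L then X ⟨s, h⟩ else 0) f

theorem rhP_sum {d : ℕ} (β : σ → T) (f : Fin r → T → MvPolynomial σ K)
    (hf : ∀ e k, BH β k d (f e k)) (S : Fin r ↪ T) (J : Fin r → σ) (hJ : ∀ j, β (J j) = S j)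
    (L : Finset σ) (hL : ∀ s ∈ L, ∀ j, S j ≠ β s) (e : Fin r) :
    rhP J L (∑ k, f e k) = expand d (lin (resL L (gf (sbT S) f e 0))
      (fun j => algebraMap K (MvPolynomial L K) (cfP S J f e j))) := by
  classical
  have hJi : Function.Injective J := by
    intro j j' h
    apply S.injective
    rw [← hJ, ← hJ, h]
  rw [← gf_sum (sbT S) f e, map_sum, Fin.sum_univ_succ]
  unfold lin
  rw [map_add, expand_C, map_sum]
  congr 1
  · -- the variables outside the pivot blocks
    have h1 : rhP J L (gf (sbT S) f e 0) = aeval (fun s =>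
        algebraMap (MvPolynomial L K) (MvPolynomial (Fin r) (MvPolynomial L K))
        (if h : s ∈ L then (X ⟨s, h⟩ : MvPolynomial L K) else 0)) (gf (sbT S) f e 0) := by
      unfold rhP
      apply (gf_bh (sbT S) hf e 0).aeval_congr
      intro s hs
      have h2 : ∀ j, S j ≠ β s := by
        intro j hj
        rw [← hj, sbT_S] at hs
        exact Fin.succ_ne_zero j hs
      have h3 : ¬ ∃ j, J j = s := by
        rintro ⟨j, rfl⟩
        exact h2 j (hJ j).symm
      rw [dif_neg h3]
      split_ifs with h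
      · rfl
      · rw [map_zero]
    rw [h1]
    exact aeval_algebraMap_apply _ _ _
  · apply Finset.sum_congr rfl
    intro j _
    rw [gf_S, map_mul, expand_C, expand_X]
    have h1 : rhP J L (f e (S j)) = (X j : MvPolynomial (Fin r) (MvPolynomial L K)) ^ d *
        aeval (fun s => algebraMap K (MvPolynomial (Fin r) (MvPolynomial L K))
          (if s = J j then (1 : K) else 0)) (f e (S j)) := by
      unfold rhP
      apply (hf e (S j)).aeval_eq
      intro s hs
      by_cases h : s = J j
      · have h2 : ∃ j', J j' = s := ⟨j, h.symm⟩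
        rw [dif_pos h2, if_pos h, map_one, mul_one]
        congr 1
        apply hJi
        rw [Classical.choose_spec h2, h]
      · have h2 : ¬ ∃ j', J j' = s := by
          rintro ⟨j', rfl⟩
          rw [hJ] at hs
          apply h
          rw [S.injective hs]
        have h3 : s ∉ L := fun h3 => hL s h3 j hs.symm
        rw [dif_neg h2, dif_neg h3, if_neg h, map_zero, mul_zero]
    rw [h1, mul_comm]
    congr 1
    exact aeval_algebraMap_apply _ _ _

/-- Components of the intersection with a coordinate space are conjugate. -/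
theorem conj_P {d : ℕ} (hd : 0 < d) {ζ : K} (hζ : IsPrimitiveRoot ζ d)
    (β : σ → T) (f : Fin r → T → MvPolynomial σ K) (hf : ∀ e k, BH β k d (f e k))
    (S : Fin r ↪ T) (J : Fin r → σ) (hJ : ∀ j, β (J j) = S j) (B : Fin r → Fin r → K)
    (hBA : ∀ j j', ∑ e, B j e * cfP S J f e j' = if j = j' then 1 else 0)
    {Z : Set (PrimeSpectrum (MvPolynomial σ K))}
    (HZ : ∀ Q, Q ∈ Z ↔ ∀ e, ∑ k, f e k ∈ Q.asIdeal) {i : ℕ}
    (L : Finset σ) (hL : ∀ s ∈ L, ∀ j, S j ≠ β s) (hLc : L.card ≤ i + 1)
    (V V' : VH Z (i + 1)) (hsV : SupP β S J V.1) (hsV' : SupP β S J V'.1)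
    (hV : lvT β S V.1 ⊆ L) (hV' : lvT β S V'.1 ⊆ L) :
    ∃ c : T → K, (∀ k, c k ^ d = 1) ∧ (∀ k, (∀ j, S j ≠ k) → c k = 1) ∧
      V'.1 = ctr K (scl K (fun s => c (β s))) V.1 := by
  classical
  have hJi : Function.Injective J := by
    intro j j' h
    apply S.injective
    rw [← hJ, ← hJ, h]
  have hLJ : ∀ s ∈ L, ∀ j, J j ≠ s := by
    rintro s hs j rfl
    exact hL _ hs j (hJ j).symm
  have hF : Frac K (rhP (K := K) J L) (⊥ : Submonoid (MvPolynomial σ K)) :=
    frac_of_surj (rhP_surj J hJi L hLJ)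
  set g : Fin r → MvPolynomial L K := fun e => resL L (gf (sbT S) f e 0) with hg
  let θ : MvPolynomial (Fin r) (MvPolynomial L K) →ₐ[K] MvPolynomial L K :=
    (solve B g).restrictScalars K
  let 𝔨 : PrimeSpectrum (MvPolynomial (Fin r) (MvPolynomial L K)) := ctr K θ ⟨⊥, Ideal.isPrime_bot⟩
  have hd𝔨 : dl K 𝔨 = L.card := by
    have h8 : dl K 𝔨 = dl K (⟨⊥, Ideal.isPrime_bot⟩ : PrimeSpectrum (MvPolynomial L K)) := by
      apply dl_ctr_eq_of_frac
      intro x
      refine ⟨1, C x, ?_, ?_⟩
      · rw [map_one, mul_one]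
        exact (solve_C B g x).symm
      · rw [map_one]
        intro h
        rw [Ideal.mem_bot] at h
        exact one_ne_zero h
    have h9 : dl K (⟨⊥, Ideal.isPrime_bot⟩ : PrimeSpectrum (MvPolynomial L K)) = L.card := by
      unfold dl
      rw [td_congr K (AlgEquiv.quotientBot K (MvPolynomial L K))]
      unfold td
      rw [MvPolynomial.trdeg_of_isDomain]
      simp
    rw [h8, h9]
  have hpt : ∀ V : VH Z (i + 1), SupP β S J V.1 → lvT β S V.1 ⊆ L →
      ∃ Q : PrimeSpectrum (MvPolynomial (Fin r) (MvPolynomial L K)), ctr K (rhP J L) Q = V.1 ∧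
        dl K Q = i + 1 ∧ ctr K (expK K d (Fin r) (MvPolynomial L K)) Q = 𝔨 := by
    intro V hsV hV
    have hX : ∀ s, (∀ j, J j ≠ s) → s ∉ L → X s ∈ V.1.asIdeal := by
      intro s hs hsL
      by_cases h : ∃ j, S j = β s
      · obtain ⟨j, hj⟩ := h
        exact hsV s ⟨j, hj, fun h => hs j h.symm⟩
      · push Not at h
        by_contra h1
        exact hsL (hV ((mem_lvT β S V.1 s).2 ⟨h, h1⟩))
    obtain ⟨Q, hQ, hQV⟩ := exists_uset hF V.1 (rhP_ker J hJi L V.1.asIdeal hX) (by
      intro u hu h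
      rw [Submonoid.mem_bot] at hu
      rw [hu] at h
      exact V.1.2.ne_top ((Ideal.eq_top_iff_one _).2 h))
    have hdQ : dl K Q = i + 1 := by rw [← dl_uset hF hQ, hQV, V.2.2.2]
    refine ⟨Q, hQV, hdQ, ?_⟩
    symm
    apply eq_of_le_of_dl K
    · intro x hx
      have hx0 : solve B g x = 0 := hx
      refine solve_ker (fun e l => cfP S J f e l) B hBA g _ ?_ x hx0
      intro e
      rw [mem_ctr, expK_apply, ← rhP_sum β f hf S J hJ L hL e, ← mem_ctr, hQV]
      exact (HZ V.1).1 V.2.2.1 e
    · rw [hd𝔨, expK_dl hd, hdQ]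
      exact hLc
  obtain ⟨Q, hQV, hdQ, hQ𝔨⟩ := hpt V hsV hV
  obtain ⟨Q', hQV', hdQ', hQ𝔨'⟩ := hpt V' hsV' hV'
  obtain ⟨c, hc1, hc2⟩ := exists_scl hd hζ Q Q' (by
    intro f hf
    have : f ∈ (ctr K (expK K d (Fin r) (MvPolynomial L K)) Q').asIdeal := hf
    rw [hQ𝔨', ← hQ𝔨] at this
    exact this) (by rw [hdQ, hdQ'])
  let c' : T → K := fun k => if h : ∃ j, S j = k then c (Classical.choose h) else 1
  have hc'S : ∀ j, c' (S j) = c j := by
    intro j
    have h : ∃ j', S j' = S j := ⟨j, rfl⟩
    change (if h : ∃ j', S j' = S j then c (Classical.choose h) else 1) = c j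
    rw [dif_pos h]
    congr 1
    exact S.injective (Classical.choose_spec h)
  have hc'n : ∀ k, (∀ j, S j ≠ k) → c' k = 1 := by
    intro k hk
    exact dif_neg (by rintro ⟨j, hj⟩; exact hk j hj)
  refine ⟨c', ?_, hc'n, ?_⟩
  · intro k
    by_cases h : ∃ j, S j = k
    · obtain ⟨j, rfl⟩ := h
      rw [hc'S, hc1]
    · push Not at h
      rw [hc'n k h, one_pow]
  · have hcomm : ∀ x, scl (MvPolynomial L K) c (rhP J L x) =
        rhP J L (scl K (fun s => c' (β s)) x) := by
      intro x
      have : (scl (MvPolynomial L K) c).comp (rhP J L) =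
          (rhP J L).comp (scl K (fun s => c' (β s))) := by
        apply MvPolynomial.algHom_ext
        intro k
        rw [AlgHom.comp_apply, AlgHom.comp_apply, scl_X, map_mul]
        by_cases h : ∃ j, J j = k
        · obtain ⟨j, rfl⟩ := h
          rw [rhP_J J hJi, scl_X, hJ, hc'S, rhP_C]
          rfl
        · push Not at h
          by_cases hk : k ∈ L
          · rw [rhP_L J L h hk, scl_C, hc'n _ (hL k hk), map_one, C_1, map_one, one_mul]
          · rw [rhP_not J L h hk, map_zero, mul_zero]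
      exact DFunLike.congr_fun this x
    rw [← hQV', ← hQV, hc2]
    apply PrimeSpectrum.ext
    ext x
    rw [mem_ctr, mem_ctr, mem_ctr, mem_ctr, hcomm]

end conj

end Pool.Agent.Bloch
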