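import Pool.Agent.Bloch.ChiP2

/-! Pivot blocks on which the character is trivial: subvarieties of dimension one more. -/

set_option linter.unusedSectionVars false

open MvPolynomial

namespace Pool.Agent.Bloch

variable {K : Type} [Field K]

section kk
variable {r : ℕ}

/-- the graph which is the image of the covering -/
noncomputable def kkP {τ : Type} [Finite τ] (B : Fin r → Fin r → K)
    (g : Fin r → MvPolynomial τ K) :
    PrimeSpectrum (MvPolynomial (Fin r) (MvPolynomial τ K)) :=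
  ctr K ((solve B g).restrictScalars K) ⟨⊥, Ideal.isPrime_bot⟩

theorem dl_kkP {τ : Type} [Fintype τ] (B : Fin r → Fin r → K) (g : Fin r → MvPolynomial τ K) :
    dl K (kkP B g) = Fintype.card τ := by
  have h8 : dl K (kkP B g) =
      dl K (⟨⊥, Ideal.isPrime_bot⟩ : PrimeSpectrum (MvPolynomial τ K)) := by
    apply dl_ctr_eq_of_frac
    intro x
    refine ⟨1, C x, ?_, ?_⟩
    · rw [map_one, mul_one]
      exact (solve_C B g x).symm
    · rw [map_one]
      intro h
      rw [Ideal.mem_bot] at h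
      exact one_ne_zero h
  have h9 : dl K (⟨⊥, Ideal.isPrime_bot⟩ : PrimeSpectrum (MvPolynomial τ K)) =
      Fintype.card τ := by
    unfold dl
    rw [td_congr K (AlgEquiv.quotientBot K (MvPolynomial τ K))]
    unfold td
    rw [MvPolynomial.trdeg_of_isDomain]
    simp
  rw [h8, h9]

end kk

section down
variable {σ : Type} [Fintype σ] {T : Type} [Fintype T] {r : ℕ}

theorem pt_P {d : ℕ} (β : σ → T) (f : Fin r → T → MvPolynomial σ K)
    (hf : ∀ e k, BH β k d (f e k))
    (S : Fin r ↪ T) (J : Fin r → σ) (hJ : ∀ j, β (J j) = S j) (B : Fin r → Fin r → K)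
    (hBA : ∀ j j', ∑ e, B j e * cfP S J f e j' = if j = j' then 1 else 0)
    (L : Finset σ) (hL : ∀ s ∈ L, ∀ j, S j ≠ β s)
    (P : PrimeSpectrum (MvPolynomial σ K)) (hP : ∀ e, ∑ k, f e k ∈ P.asIdeal)
    (hs : SupP β S J P) (hl : lvT β S P ⊆ L) :
    ∃ Q : PrimeSpectrum (MvPolynomial (Fin r) (MvPolynomial L K)), ctr K (rhP J L) Q = P ∧
      dl K Q = dl K P ∧ kkP B (fun e => resL L (gf (sbT S) f e 0)) ≤
        ctr K (expK K d (Fin r) (MvPolynomial L K)) Q := by
  classical
  have hJi : Function.Injective J := by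
    intro j j' h
    apply S.injective
    rw [← hJ, ← hJ, h]
  have hLJ : ∀ s ∈ L, ∀ j, J j ≠ s := by
    rintro s hs j rfl
    exact hL _ hs j (hJ j).symm
  have hF : Frac K (rhP (K := K) J L) (⊥ : Submonoid (MvPolynomial σ K)) :=
    frac_of_surj (rhP_surj J hJi L hLJ)
  have hX : ∀ s, (∀ j, J j ≠ s) → s ∉ L → X s ∈ P.asIdeal := by
    intro s hs' hsL
    by_cases h : ∃ j, S j = β s
    · obtain ⟨j, hj⟩ := h
      exact hs s ⟨j, hj, fun h => hs' j h.symm⟩
    · push Not at h
      by_contra h1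
      exact hsL (hl ((mem_lvT β S P s).2 ⟨h, h1⟩))
  obtain ⟨Q, hQ, hQV⟩ := exists_uset hF P (rhP_ker J hJi L P.asIdeal hX) (by
    intro u hu h
    rw [Submonoid.mem_bot] at hu
    rw [hu] at h
    exact P.2.ne_top ((Ideal.eq_top_iff_one _).2 h))
  have hdQ : dl K Q = dl K P := by rw [← dl_uset hF hQ, hQV]
  refine ⟨Q, hQV, hdQ, ?_⟩
  intro x hx
  have hx0 : solve B (fun e => resL L (gf (sbT S) f e 0)) x = 0 := hx
  refine solve_ker (fun e l => cfP S J f e l) B hBA _ _ ?_ x hx0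
  intro e
  rw [mem_ctr, expK_apply, ← rhP_sum β f hf S J hJ L hL e, ← mem_ctr, hQV]
  exact hP e

theorem dl_supP {d : ℕ} (hd : 0 < d) (β : σ → T) (f : Fin r → T → MvPolynomial σ K)
    (hf : ∀ e k, BH β k d (f e k))
    (S : Fin r ↪ T) (J : Fin r → σ) (hJ : ∀ j, β (J j) = S j) (B : Fin r → Fin r → K)
    (hBA : ∀ j j', ∑ e, B j e * cfP S J f e j' = if j = j' then 1 else 0)
    (L : Finset σ) (hL : ∀ s ∈ L, ∀ j, S j ≠ β s)
    (P : PrimeSpectrum (MvPolynomial σ K)) (hP : ∀ e, ∑ k, f e k ∈ P.asIdeal)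
    (hs : SupP β S J P) (hl : lvT β S P ⊆ L) : dl K P ≤ L.card := by
  obtain ⟨Q, _, h2, h3⟩ := pt_P β f hf S J hJ B hBA L hL P hP hs hl
  have h4 := dl_le K h3
  rw [expK_dl hd, dl_kkP, h2, Fintype.card_coe] at h4
  exact h4

/-- A supported subvariety lies on one whose nonvanishing variables are prescribed. -/
theorem down_P {d : ℕ} (hd : 0 < d) (β : σ → T) (f : Fin r → T → MvPolynomial σ K)
    (hf : ∀ e k, BH β k d (f e k))
    (S : Fin r ↪ T) (J : Fin r → σ) (hJ : ∀ j, β (J j) = S j) (B : Fin r → Fin r → K)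
    (hAB : ∀ e e', ∑ l, cfP S J f e l * B l e' = if e = e' then 1 else 0)
    (hBA : ∀ j j', ∑ e, B j e * cfP S J f e j' = if j = j' then 1 else 0)
    (M : Finset σ) (hM : ∀ s ∈ M, ∀ j, S j ≠ β s)
    (V : PrimeSpectrum (MvPolynomial σ K)) (hV : ∀ e, ∑ k, f e k ∈ V.asIdeal)
    (hs : SupP β S J V) (hl : lvT β S V ⊆ M) :
    ∃ W : PrimeSpectrum (MvPolynomial σ K), W ≤ V ∧ HomP W ∧ (∀ e, ∑ k, f e k ∈ W.asIdeal) ∧
      dl K W = M.card ∧ SupP β S J W ∧ lvT β S W = M := by
  classical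
  have hJi : Function.Injective J := by
    intro j j' h
    apply S.injective
    rw [← hJ, ← hJ, h]
  have hMJ : ∀ s ∈ M, ∀ j, J j ≠ s := by
    rintro s hs j rfl
    exact hM _ hs j (hJ j).symm
  have hF : Frac K (rhP (K := K) J M) (⊥ : Submonoid (MvPolynomial σ K)) :=
    frac_of_surj (rhP_surj J hJi M hMJ)
  obtain ⟨Q, h1, h2, h3⟩ := pt_P β f hf S J hJ B hBA M hM V hV hs hl
  obtain ⟨Q', h4, h5⟩ : ∃ Q' ≤ Q, ctr K (expK K d (Fin r) (MvPolynomial M K)) Q' =
      kkP B (fun e => resL M (gf (sbT S) f e 0)) := by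
    have hg := RingHom.Flat.generalizingMap_comap
      (expK_flat (K := K) hd (Fin r) (MvPolynomial M K))
    obtain ⟨Q', h5, h6⟩ := hg ((PrimeSpectrum.le_iff_specializes _ _).1 h3)
    exact ⟨Q', (PrimeSpectrum.le_iff_specializes _ _).2 h5, h6⟩
  set W : PrimeSpectrum (MvPolynomial σ K) := ctr K (rhP J M) Q' with hW
  have hWV : W ≤ V := by rw [← h1]; exact ctr_mono K _ h4
  have hWe : ∀ e, ∑ k, f e k ∈ W.asIdeal := by
    intro e
    rw [mem_ctr, rhP_sum β f hf S J hJ M hM e, ← expK_apply (K := K), ← mem_ctr, h5]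
    change solve B _ _ = 0
    exact solve_lin (fun e l => cfP S J f e l) B hAB _ e
  have hWs : SupP β S J W := by
    rintro s ⟨j, hj, hsJ⟩
    rw [mem_ctr, rhP_not J M ?_ ?_]
    · exact Ideal.zero_mem _
    · rintro j' rfl
      rw [hJ] at hj
      apply hsJ
      rw [S.injective hj]
    · intro h
      exact hM s h j hj
  have hWl : lvT β S W = M := by
    ext s
    rw [mem_lvT]
    constructor
    · rintro ⟨hs1, hs2⟩
      by_contra h
      apply hs2
      rw [mem_ctr, rhP_not J M ?_ h]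
      · exact Ideal.zero_mem _
      · rintro j rfl
        exact hs1 j (hJ j).symm
    · intro hsM
      refine ⟨hM s hsM, ?_⟩
      rw [mem_ctr, rhP_L J M (hMJ s hsM) hsM]
      intro h
      have h6 : C (X ⟨s, hsM⟩) ∈ (ctr K (expK K d (Fin r) (MvPolynomial M K)) Q').asIdeal := by
        rw [mem_ctr, expK_apply, expand_C]
        exact h
      rw [h5] at h6
      have h7 : solve B (fun e => resL M (gf (sbT S) f e 0)) (C (X ⟨s, hsM⟩)) = 0 := h6
      rw [solve_C] at h7
      exact X_ne_zero _ h7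
  have hWd : dl K W = M.card := by
    have h6 : dl K W = dl K Q' := dl_uset hF (by
      intro u hu h
      rw [Submonoid.mem_bot] at hu
      rw [hu, map_one] at h
      exact Q'.2.ne_top ((Ideal.eq_top_iff_one _).2 h))
    rw [h6, ← expK_dl (K := K) hd, h5, dl_kkP, Fintype.card_coe]
  refine ⟨W, hWV, ?_, hWe, hWd, hWs, hWl⟩
  -- homogeneity
  have hcore : ∀ {g : MvPolynomial σ K} {n : ℕ}, g.IsHomogeneous n → g ∈ W.asIdeal →
      g ∈ (cone (K := K) (X : σ → MvPolynomial σ K) W).asIdeal := by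
    intro g n hg hgW
    rw [mem_core]
    intro m
    rw [homogeneousComponent_of_mem hg]
    split_ifs
    · exact hgW
    · exact Ideal.zero_mem _
  have hle : cone (K := K) (X : σ → MvPolynomial σ K) W ≤ W := core_le W
  have h6 : cone (K := K) (X : σ → MvPolynomial σ K) W = W := by
    refine eq_of_le_of_dl K hle ?_
    rw [hWd]
    refine dl_supP hd β f hf S J hJ B hBA M hM _ ?_ ?_ ?_
    · intro e
      refine hcore (n := d) ?_ (hWe e)
      refine MvPolynomial.IsHomogeneous.sum _ _ _ fun k _ => (hf e k).isHomogeneous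
    · intro s hs
      exact hcore (isHomogeneous_X K s) (hWs s hs)
    · intro s hs
      rw [mem_lvT] at hs
      rw [← hWl, mem_lvT]
      exact ⟨hs.1, fun h => hs.2 (hcore (isHomogeneous_X K s) h)⟩
  rw [← h6]
  exact homP_cone _ _

end down

end Pool.Agent.Bloch
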