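import Pool.Agent.Bloch.ChiP3

/-! Pivot blocks on which the character is trivial: the exchange argument. -/

set_option linter.unusedSectionVars false

open MvPolynomial

namespace Pool.Agent.Bloch

variable {K : Type} [Field K]

section exch
variable (𝕜 : Type) [Field 𝕜] [CharZero 𝕜]
variable {σ : Type} [Fintype σ] {T : Type} [Fintype T] {r : ℕ}

theorem supP_mono {β : σ → T} {S : Fin r ↪ T} {J : Fin r → σ}
    {p q : PrimeSpectrum (MvPolynomial σ K)} (h : p ≤ q) (hp : SupP β S J p) : SupP β S J q :=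
  fun s hs => h (hp s hs)

theorem lvT_mono {β : σ → T} {S : Fin r ↪ T}
    {p q : PrimeSpectrum (MvPolynomial σ K)} (h : p ≤ q) : lvT β S q ⊆ lvT β S p := by
  intro s hs
  rw [mem_lvT] at hs ⊢
  exact ⟨hs.1, fun h' => hs.2 (h h')⟩

theorem conj_mem {d : ℕ} (hd : 0 < d) {ζ : K} (hζ : IsPrimitiveRoot ζ d)
    (β : σ → T) (f : Fin r → T → MvPolynomial σ K) (hf : ∀ e k, BH β k d (f e k))
    (S : Fin r ↪ T) (J : Fin r → σ) (hJ : ∀ j, β (J j) = S j) (B : Fin r → Fin r → K)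
    (hBA : ∀ j j', ∑ e, B j e * cfP S J f e j' = if j = j' then 1 else 0)
    {Z : Set (PrimeSpectrum (MvPolynomial σ K))}
    (HZ : ∀ Q, Q ∈ Z ↔ ∀ e, ∑ k, f e k ∈ Q.asIdeal) {i : ℕ}
    (N : Submodule 𝕜 (VH Z (i + 1) →₀ 𝕜))
    (hN2 : ∀ c : Fin (r + 1) → K, (∀ l, c l ^ d = 1) → ∀ V V' : VH Z (i + 1),
      V'.1 = ctr K (scl K (fun s => c (sbT S (β s)))) V.1 →
        Finsupp.single V' 1 - Finsupp.single V 1 ∈ N)
    (L : Finset σ) (hL : ∀ s ∈ L, ∀ j, S j ≠ β s) (hLc : L.card ≤ i + 1)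
    (V V' : VH Z (i + 1)) (hsV : SupP β S J V.1) (hsV' : SupP β S J V'.1)
    (hV : lvT β S V.1 ⊆ L) (hV' : lvT β S V'.1 ⊆ L) :
    Finsupp.single V' 1 - Finsupp.single V 1 ∈ N := by
  obtain ⟨c, h1, h2, h3⟩ := conj_P hd hζ β f hf S J hJ B hBA HZ L hL hLc V V' hsV hsV' hV hV'
  let c' : Fin (r + 1) → K := Fin.cases 1 (fun j => c (S j))
  have hc' : ∀ k, c' (sbT S k) = c k := by
    intro k
    by_cases h : ∃ j, S j = k
    · obtain ⟨j, rfl⟩ := h
      rw [sbT_S]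
      rfl
    · push Not at h
      rw [sbT_of_not S h, h2 k h]
      rfl
  apply hN2 c'
  · intro l
    refine Fin.cases ?_ (fun j => ?_) l
    · exact one_pow _
    · exact h1 _
  · rw [h3]
    simp only [hc']

theorem exch_P {d : ℕ} (hd : 0 < d) {ζ : K} (hζ : IsPrimitiveRoot ζ d)
    (β : σ → T) (f : Fin r → T → MvPolynomial σ K) (hf : ∀ e k, BH β k d (f e k))
    (S : Fin r ↪ T) (J : Fin r → σ) (hJ : ∀ j, β (J j) = S j) (B : Fin r → Fin r → K)
    (hAB : ∀ e e', ∑ l, cfP S J f e l * B l e' = if e = e' then 1 else 0)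
    (hBA : ∀ j j', ∑ e, B j e * cfP S J f e j' = if j = j' then 1 else 0)
    {Z : Set (PrimeSpectrum (MvPolynomial σ K))}
    (HZ : ∀ Q, Q ∈ Z ↔ ∀ e, ∑ k, f e k ∈ Q.asIdeal) {i : ℕ}
    (N : Submodule 𝕜 (VH Z (i + 1) →₀ 𝕜)) (hN1 : RelH 𝕜 Z (i + 1) ≤ N)
    (hN2 : ∀ c : Fin (r + 1) → K, (∀ l, c l ^ d = 1) → ∀ V V' : VH Z (i + 1),
      V'.1 = ctr K (scl K (fun s => c (sbT S (β s)))) V.1 →
        Finsupp.single V' 1 - Finsupp.single V 1 ∈ N)
    (L : Finset σ) (hL : ∀ s ∈ L, ∀ j, S j ≠ β s) (hLc : L.card ≤ i + 1)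
    (V : VH Z (i + 1)) (hsV : SupP β S J V.1) (hV : lvT β S V.1 ⊆ L)
    {a b : σ} (ha : a ∈ L) (hb : b ∉ L) (hbS : ∀ j, S j ≠ β b) (W₀ : Submodule 𝕜 (VH Z (i + 1) →₀ 𝕜))
    (hNW : N ≤ W₀) (hW₀ : ∀ V' : VH Z (i + 1), SupP β S J V'.1 →
      (∀ s ∈ lvT β S V'.1, s = b ∨ s ∈ L) → a ∉ lvT β S V'.1 → Finsupp.single V' 1 ∈ W₀) :
    Finsupp.single V 1 ∈ W₀ := by
  classical
  have hLc' : L.card = i + 1 := by
    apply le_antisymm hLc
    have := dl_supP hd β f hf S J hJ B hBA L hL V.1 ((HZ V.1).1 V.2.2.1) hsV hV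
    rwa [V.2.2.2] at this
  have hM : ∀ s ∈ insert b L, ∀ j, S j ≠ β s := by
    intro s hs
    rcases Finset.mem_insert.1 hs with rfl | h
    · exact hbS
    · exact hL s h
  obtain ⟨W, h1, h2, h3, h4, h5, h6⟩ := down_P hd β f hf S J hJ B hAB hBA (insert b L) hM V.1
    ((HZ V.1).1 V.2.2.1) hsV (hV.trans (Finset.subset_insert _ _))
  rw [Finset.card_insert_of_notMem hb, hLc'] at h4
  have hbW : X b ∉ W.asIdeal := by
    have : b ∈ lvT β S W := by rw [h6]; exact Finset.mem_insert_self _ _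
    exact ((mem_lvT β S W b).1 this).2
  have haW : X a ∉ W.asIdeal := by
    have : a ∈ lvT β S W := by rw [h6]; exact Finset.mem_insert_of_mem ha
    exact ((mem_lvT β S W a).1 this).2
  have hbV : X b ∈ V.1.asIdeal := by
    by_contra h
    exact hb (hV ((mem_lvT β S V.1 b).2 ⟨hbS, h⟩))
  let Wv : VH Z (i + 1 + 1) := ⟨W, h2, (HZ W).2 h3, h4⟩
  have hrel : res 𝕜 Z (i + 1) (divCyc K 𝕜 (i + 1) W (X b) - divCyc K 𝕜 (i + 1) W (X a)) ∈ W₀ :=
    hNW (hN1 (Submodule.subset_span ⟨Wv, 1, X b, X a, isHomogeneous_X K b, isHomogeneous_X K a,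
      hbW, haW, rfl⟩))
  have hA : res 𝕜 Z (i + 1) (divCyc K 𝕜 (i + 1) W (X a)) ∈ W₀ := by
    have h7 := finsupp_mem_span 𝕜 (res 𝕜 Z (i + 1) (divCyc K 𝕜 (i + 1) W (X a)))
      {V' : VH Z (i + 1) | W ≤ V'.1 ∧ X a ∈ V'.1.asIdeal} (by
        intro V' hV'
        rw [res_apply] at hV'
        have := (divCyc_ne_zero_iff K 𝕜 h4 haW V'.1).1 hV'
        exact this.2)
    refine (Submodule.span_le.2 ?_) h7
    rintro w ⟨V', ⟨h8, h9⟩, rfl⟩
    apply hW₀ V' (supP_mono h8 h5)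
    · intro s hs
      have := lvT_mono (β := β) (S := S) h8 hs
      rwa [h6, Finset.mem_insert] at this
    · intro h
      exact ((mem_lvT β S V'.1 a).1 h).2 h9
  have hB : res 𝕜 Z (i + 1) (divCyc K 𝕜 (i + 1) W (X b)) ∈ W₀ := by
    have := Submodule.add_mem _ hrel hA
    rwa [map_sub, sub_add_cancel] at this
  set D := res 𝕜 Z (i + 1) (divCyc K 𝕜 (i + 1) W (X b)) with hD
  -- all components are conjugate
  have hcomp : ∀ V' ∈ D.support, Finsupp.single V' 1 - Finsupp.single V 1 ∈ W₀ := by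
    intro V' hV'
    rw [Finsupp.mem_support_iff, hD, res_apply] at hV'
    obtain ⟨_, h8, h9⟩ := (divCyc_ne_zero_iff K 𝕜 h4 hbW V'.1).1 hV'
    apply hNW
    refine conj_mem 𝕜 hd hζ β f hf S J hJ B hBA HZ N hN2 L hL hLc V V' hsV
      (supP_mono h8 h5) hV ?_
    intro s hs
    have h10 := lvT_mono (β := β) (S := S) h8 hs
    rw [h6] at h10
    rcases Finset.mem_insert.1 h10 with rfl | h
    · exact absurd h9 ((mem_lvT β S V'.1 s).1 hs).2
    · exact h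
  let n : VH Z (i + 1) → ℕ := fun V' =>
    (len V'.1 (MvPolynomial σ K ⧸ (W.asIdeal ⊔ Ideal.span {X b}))).toNat
  have hn : ∀ V', D V' = (n V' : 𝕜) := by
    intro V'
    rw [hD, res_apply, divCyc_apply K 𝕜 h4 hbW V'.1 V'.2.2.2]
  have hDV : D V ≠ 0 := by
    rw [hD, res_apply, divCyc_ne_zero_iff K 𝕜 h4 hbW]
    exact ⟨V.2.2.2, h1, hbV⟩
  have hsum : ((∑ V' ∈ D.support, n V' : ℕ) : 𝕜) • Finsupp.single V (1 : 𝕜) ∈ W₀ := by
    have h8 : ((∑ V' ∈ D.support, n V' : ℕ) : 𝕜) • Finsupp.single V (1 : 𝕜) =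
        D - ∑ V' ∈ D.support, D V' • (Finsupp.single V' (1 : 𝕜) - Finsupp.single V 1) := by
      have h9 : D = ∑ V' ∈ D.support, D V' • Finsupp.single V' (1 : 𝕜) := by
        conv_lhs => rw [← Finsupp.sum_single D]
        apply Finset.sum_congr rfl
        intro V' _
        rw [Finsupp.smul_single, smul_eq_mul, mul_one]
      have h10 : ∑ V' ∈ D.support, D V' • (Finsupp.single V' (1 : 𝕜) - Finsupp.single V 1) =
          ∑ V' ∈ D.support, D V' • Finsupp.single V' (1 : 𝕜) -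
          (∑ V' ∈ D.support, D V') • Finsupp.single V (1 : 𝕜) := by
        rw [Finset.sum_smul, ← Finset.sum_sub_distrib]
        apply Finset.sum_congr rfl
        intro V' _
        rw [smul_sub]
      rw [h10, ← h9, sub_sub_cancel]
      congr 1
      push_cast
      exact Finset.sum_congr rfl (fun V' _ => (hn V').symm)
    rw [h8]
    refine Submodule.sub_mem _ hB (Submodule.sum_mem _ fun V' hV' => Submodule.smul_mem _ _ (hcomp V' hV'))
  have hne : ((∑ V' ∈ D.support, n V' : ℕ) : 𝕜) ≠ 0 := by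
    rw [Nat.cast_ne_zero]
    have h8 : V ∈ D.support := Finsupp.mem_support_iff.2 hDV
    have h9 : n V ≠ 0 := by
      intro h
      apply hDV
      rw [hn, h, Nat.cast_zero]
    have h10 : n V ≤ ∑ V' ∈ D.support, n V' :=
      Finset.single_le_sum (f := n) (fun _ _ => Nat.zero_le _) h8
    omega
  have h11 := Submodule.smul_mem _ (((∑ V' ∈ D.support, n V' : ℕ) : 𝕜))⁻¹ hsum
  rwa [smul_smul, inv_mul_cancel₀ hne, one_smul] at h11

end exch

end Pool.Agent.Bloch
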