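import Pool.Agent.Bloch.ChiP4

/-! Pivot blocks on which the character is trivial: the conclusions for supported cycles. -/

set_option linter.unusedSectionVars false

open MvPolynomial

namespace Pool.Agent.Bloch

variable {K : Type} [Field K]

section one
variable (𝕜 : Type) [Field 𝕜] [CharZero 𝕜]
variable {σ : Type} [Fintype σ] {T : Type} [Fintype T] {r : ℕ}

theorem one_P {d : ℕ} (hd : 0 < d) {ζ : K} (hζ : IsPrimitiveRoot ζ d)
    (β : σ → T) (f : Fin r → T → MvPolynomial σ K) (hf : ∀ e k, BH β k d (f e k))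
    (S : Fin r ↪ T) (J : Fin r → σ) (hJ : ∀ j, β (J j) = S j) (B : Fin r → Fin r → K)
    (hAB : ∀ e e', ∑ l, cfP S J f e l * B l e' = if e = e' then 1 else 0)
    (hBA : ∀ j j', ∑ e, B j e * cfP S J f e j' = if j = j' then 1 else 0)
    {Z : Set (PrimeSpectrum (MvPolynomial σ K))}
    (HZ : ∀ Q, Q ∈ Z ↔ ∀ e, ∑ k, f e k ∈ Q.asIdeal) {i : ℕ}
    (N : Submodule 𝕜 (VH Z (i + 1) →₀ 𝕜)) (hN1 : RelH 𝕜 Z (i + 1) ≤ N)
    (hN2 : ∀ c : Fin (r + 1) → K, (∀ l, c l ^ d = 1) → ∀ V V' : VH Z (i + 1),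
      V'.1 = ctr K (scl K (fun s => c (sbT S (β s)))) V.1 →
        Finsupp.single V' 1 - Finsupp.single V 1 ∈ N) :
    ∃ α : VH Z (i + 1) →₀ 𝕜, ∀ V : VH Z (i + 1), SupP β S J V.1 →
      Finsupp.single V 1 ∈ N ⊔ Submodule.span 𝕜 {α} := by
  classical
  -- subvarieties supported on a small set
  have hsmall : ∀ L : Finset σ, (∀ s ∈ L, ∀ j, S j ≠ β s) → L.card ≤ i + 1 →
      ∃ α : VH Z (i + 1) →₀ 𝕜, ∀ V : VH Z (i + 1), SupP β S J V.1 → lvT β S V.1 ⊆ L →
        Finsupp.single V 1 ∈ N ⊔ Submodule.span 𝕜 {α} := by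
    intro L hL hLc
    by_cases h : ∃ V₀ : VH Z (i + 1), SupP β S J V₀.1 ∧ lvT β S V₀.1 ⊆ L
    · obtain ⟨V₀, h1, h2⟩ := h
      refine ⟨Finsupp.single V₀ 1, fun V h3 h4 => ?_⟩
      have h5 := conj_mem 𝕜 hd hζ β f hf S J hJ B hBA HZ N hN2 L hL hLc V₀ V h1 h3 h2 h4
      rw [← sub_add_cancel (Finsupp.single V (1 : 𝕜)) (Finsupp.single V₀ 1)]
      exact Submodule.add_mem _ (Submodule.mem_sup_left h5)
        (Submodule.mem_sup_right (Submodule.mem_span_singleton_self _))
    · push Not at h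
      exact ⟨0, fun V h3 h4 => absurd h4 (h V h3)⟩
  let X₀ : Finset σ := Finset.univ.filter (fun s => ∀ j, S j ≠ β s)
  have hX₀ : ∀ s ∈ X₀, ∀ j, S j ≠ β s := fun s hs => (Finset.mem_filter.1 hs).2
  have hlv : ∀ V : VH Z (i + 1), lvT β S V.1 ⊆ X₀ := by
    intro V s hs
    rw [mem_lvT] at hs
    exact Finset.mem_filter.2 ⟨Finset.mem_univ _, hs.1⟩
  by_cases hc : X₀.card ≤ i + 1
  · obtain ⟨α, hα⟩ := hsmall X₀ hX₀ hc
    exact ⟨α, fun V hV => hα V hV (hlv V)⟩
  push Not at hc
  obtain ⟨L₀, hL₀, hL₀c⟩ := Finset.exists_subset_card_eq hc.le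
  obtain ⟨α, hα⟩ := hsmall L₀ (fun s hs => hX₀ s (hL₀ hs)) hL₀c.le
  refine ⟨α, ?_⟩
  have claim1 : ∀ (n : ℕ) (V : VH Z (i + 1)), SupP β S J V.1 → (lvT β S V.1).card ≤ i + 1 →
      (lvT β S V.1 \ L₀).card ≤ n → Finsupp.single V 1 ∈ N ⊔ Submodule.span 𝕜 {α} := by
    intro n
    induction n with
    | zero =>
      intro V h1 h2 h3
      apply hα V h1
      rw [← Finset.sdiff_eq_empty_iff_subset]
      exact Finset.card_eq_zero.1 (Nat.le_zero.1 h3)
    | succ n ih =>
      intro V h1 h2 h3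
      by_cases h4 : lvT β S V.1 ⊆ L₀
      · exact hα V h1 h4
      · obtain ⟨a, ha1, ha2⟩ := Finset.not_subset.1 h4
        have hLc : (lvT β S V.1).card = i + 1 := by
          apply le_antisymm h2
          have := dl_supP hd β f hf S J hJ B hBA (lvT β S V.1)
            (fun s hs => ((mem_lvT β S V.1 s).1 hs).1) V.1 ((HZ V.1).1 V.2.2.1) h1 subset_rfl
          rwa [V.2.2.2] at this
        have h5 : ¬ L₀ ⊆ lvT β S V.1 := by
          intro h
          have := Finset.eq_of_subset_of_card_le h (by rw [hLc, hL₀c])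
          exact h4 this.symm.subset
        obtain ⟨b, hb1, hb2⟩ := Finset.not_subset.1 h5
        refine exch_P 𝕜 hd hζ β f hf S J hJ B hAB hBA HZ N hN1 hN2 (lvT β S V.1)
          (fun s hs => ((mem_lvT β S V.1 s).1 hs).1) h2 V h1 subset_rfl ha1 hb2
          (hX₀ b (hL₀ hb1)) _ le_sup_left ?_
        intro V' h6 h7 h8
        have h9 : lvT β S V'.1 ⊆ (insert b (lvT β S V.1)).erase a := by
          intro s hs
          rw [Finset.mem_erase, Finset.mem_insert]
          exact ⟨fun h => h8 (h ▸ hs), h7 s hs⟩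
        apply ih V' h6
        · refine (Finset.card_le_card h9).trans ?_
          rw [Finset.card_erase_of_mem (Finset.mem_insert_of_mem ha1),
            Finset.card_insert_of_notMem hb2, hLc]
          exact le_rfl
        · have h10 : lvT β S V'.1 \ L₀ ⊆ (lvT β S V.1 \ L₀).erase a := by
            intro s hs
            rw [Finset.mem_sdiff] at hs
            have h11 := h9 hs.1
            rw [Finset.mem_erase, Finset.mem_insert] at h11
            rw [Finset.mem_erase, Finset.mem_sdiff]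
            refine ⟨h11.1, ?_, hs.2⟩
            rcases h11.2 with rfl | h
            · exact absurd hb1 hs.2
            · exact h
          have h12 := Finset.card_le_card h10
          rw [Finset.card_erase_of_mem (Finset.mem_sdiff.2 ⟨ha1, ha2⟩)] at h12
          omega
  have claim2 : ∀ (m : ℕ) (V : VH Z (i + 1)), SupP β S J V.1 → (lvT β S V.1).card ≤ m →
      Finsupp.single V 1 ∈ N ⊔ Submodule.span 𝕜 {α} := by
    intro m
    induction m with
    | zero =>
      intro V h1 h2
      exact claim1 _ V h1 (by omega) le_rfl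
    | succ m ih =>
      intro V h1 h2
      by_cases h3 : (lvT β S V.1).card ≤ i + 1
      · exact claim1 _ V h1 h3 le_rfl
      · refine (sup_le le_sup_left ?_ : _ ⊔ _ ≤ N ⊔ Submodule.span 𝕜 {α})
          (move_P 𝕜 hd hζ β f hf S J hJ B hAB hBA HZ N hN1 hN2 V h1 (by omega))
        rw [Submodule.span_le]
        rintro w ⟨V', h4, h5, rfl⟩
        have := Finset.card_lt_card h5
        exact ih V' h4 (by omega)
  exact fun V hV => claim2 _ V hV le_rfl

end one

section chi
variable [CharZero K]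
variable {σ : Type} [Fintype σ] {T : Type} [Fintype T] {r : ℕ}

theorem chi_P {d : ℕ} (hd : 0 < d) {ζ : K} (hζ : IsPrimitiveRoot ζ d)
    (β : σ → T) (f : Fin r → T → MvPolynomial σ K) (hf : ∀ e k, BH β k d (f e k))
    (S : Fin r ↪ T) (J : Fin r → σ) (hJ : ∀ j, β (J j) = S j) (B : Fin r → Fin r → K)
    (hAB : ∀ e e', ∑ l, cfP S J f e l * B l e' = if e = e' then 1 else 0)
    (hBA : ∀ j j', ∑ e, B j e * cfP S J f e j' = if j = j' then 1 else 0)
    {Z : Set (PrimeSpectrum (MvPolynomial σ K))}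
    (HZ : ∀ Q, Q ∈ Z ↔ ∀ e, ∑ k, f e k ∈ Q.asIdeal) {i : ℕ}
    (a : T → ℕ) (haS : ∀ j, d ∣ a (S j)) (has : d ∣ ∑ k, a k)
    (k₁ : T) (hk₁ : ¬ d ∣ a k₁)
    (N : Submodule K (VH Z (i + 1) →₀ K)) (hN1 : RelH K Z (i + 1) ≤ N)
    (hN2 : ∀ c : T → K, (∀ l, c l ^ d = 1) → ∀ V V' : VH Z (i + 1),
      V'.1 = ctr K (scl K (fun s => c (β s))) V.1 →
        Finsupp.single V' 1 - (∏ k, c k ^ a k) • Finsupp.single V (1 : K) ∈ N) :
    ∀ V : VH Z (i + 1), SupP β S J V.1 → Finsupp.single V 1 ∈ N := by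
  classical
  have hsuper : ∀ c : Fin (r + 1) → K, (∀ l, c l ^ d = 1) → ∀ V V' : VH Z (i + 1),
      V'.1 = ctr K (scl K (fun s => c (sbT S (β s)))) V.1 →
        Finsupp.single V' 1 - Finsupp.single V 1 ∈ N := by
    intro c hc V V' h
    have h1 := hN2 (fun k => c (sbT S k)) (fun k => hc _) V V' h
    have h2 : (∏ k, c (sbT S k) ^ a k) = 1 := by
      rw [← Finset.prod_mul_prod_compl (Finset.univ.map S)]
      have h3 : ∏ k ∈ Finset.univ.map S, c (sbT S k) ^ a k = 1 := by
        rw [Finset.prod_map]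
        apply Finset.prod_eq_one
        intro j _
        obtain ⟨m, hm⟩ := haS j
        rw [hm, pow_mul, hc, one_pow]
      have h4 : ∏ k ∈ (Finset.univ.map S)ᶜ, c (sbT S k) ^ a k =
          c 0 ^ ∑ k ∈ (Finset.univ.map S)ᶜ, a k := by
        rw [← Finset.prod_pow_eq_pow_sum]
        apply Finset.prod_congr rfl
        intro k hk
        rw [Finset.mem_compl, Finset.mem_map] at hk
        rw [sbT_of_not S (fun j hj => hk ⟨j, Finset.mem_univ _, hj⟩)]
      have h5 : d ∣ ∑ k ∈ (Finset.univ.map S)ᶜ, a k := by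
        rw [← Finset.sum_add_sum_compl (Finset.univ.map S)] at has
        refine (Nat.dvd_add_right ?_).1 has
        rw [Finset.sum_map]
        exact Finset.dvd_sum (fun j _ => haS j)
      obtain ⟨m, hm⟩ := h5
      rw [h3, h4, hm, pow_mul, hc, one_pow, one_mul]
    rw [h2, one_smul] at h1
    exact h1
  have hsc : ∀ c : T → K, (∀ k, c k ^ d = 1) → ∀ V : VH Z (i + 1), ∃ V' : VH Z (i + 1),
      V'.1 = ctr K (scl K (fun s => c (β s))) V.1 := by
    intro c hc V
    refine ⟨⟨ctr K (scl K (fun s => c (β s))) V.1, homP_scl _ V.2.1, ?_, ?_⟩, rfl⟩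
    · rw [HZ]
      intro e
      rw [mem_ctr, map_sum]
      have h1 : ∀ k, scl K (fun s => c (β s)) (f e k) = f e k := fun k =>
        scl_BH (hf e k) c (hc k)
      rw [Finset.sum_congr rfl (fun k _ => h1 k)]
      exact (HZ _).1 V.2.2.1 e
    · rw [dl_scl _ (fun s h => by
        have := hc (β s)
        rw [h, zero_pow hd.ne'] at this
        exact zero_ne_one this)]
      exact V.2.2.2
  have top : ∀ V : VH Z (i + 1), SupP β S J V.1 → (lvT β S V.1).card ≤ i + 1 →
      Finsupp.single V 1 ∈ N := by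
    intro V hsV hLc
    let c : T → K := Function.update (fun _ => 1) k₁ ζ
    have hc : ∀ k, c k ^ d = 1 := by
      intro k
      by_cases h : k = k₁
      · have : c k = ζ := by rw [h]; exact Function.update_self _ _ _
        rw [this, hζ.pow_eq_one]
      · have : c k = 1 := Function.update_of_ne h _ _
        rw [this, one_pow]
    obtain ⟨V', hV'⟩ := hsc c hc V
    have h1 := hN2 c hc V V' hV'
    have h2 : (∏ k, c k ^ a k) = ζ ^ a k₁ := by
      rw [Finset.prod_eq_single k₁]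
      · have : c k₁ = ζ := Function.update_self _ _ _
        rw [this]
      · intro k _ h
        have : c k = 1 := Function.update_of_ne h _ _
        rw [this, one_pow]
      · intro h; exact absurd (Finset.mem_univ _) h
    rw [h2] at h1
    have hsV' : SupP β S J V'.1 := by
      intro s hs
      rw [hV', mem_ctr, scl_X]
      exact Ideal.mul_mem_left _ _ (hsV s hs)
    have hlV' : lvT β S V'.1 ⊆ lvT β S V.1 := by
      intro s hs
      rw [mem_lvT] at hs ⊢
      refine ⟨hs.1, fun h => hs.2 ?_⟩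
      rw [hV', mem_ctr, scl_X]
      exact Ideal.mul_mem_left _ _ h
    have h3 := conj_mem K hd hζ β f hf S J hJ B hBA HZ N hsuper (lvT β S V.1)
      (fun k hk => ((mem_lvT β S V.1 k).1 hk).1) hLc V V' hsV hsV' subset_rfl hlV'
    have h5 : (1 - ζ ^ a k₁) ≠ 0 := by
      intro h
      apply hk₁
      exact hζ.dvd_of_pow_eq_one _ (sub_eq_zero.1 h).symm
    have h6 : Finsupp.single V (1 : K) = (1 - ζ ^ a k₁)⁻¹ •
        ((Finsupp.single V' 1 - ζ ^ a k₁ • Finsupp.single V (1 : K)) -
          (Finsupp.single V' 1 - Finsupp.single V 1)) := by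
      have h7 : (Finsupp.single V' 1 - ζ ^ a k₁ • Finsupp.single V (1 : K)) -
          (Finsupp.single V' 1 - Finsupp.single V 1) = (1 - ζ ^ a k₁) • Finsupp.single V (1 : K) := by
        rw [sub_smul, one_smul]; abel
      rw [h7, smul_smul, inv_mul_cancel₀ h5, one_smul]
    rw [h6]
    exact Submodule.smul_mem _ _ (Submodule.sub_mem _ h1 h3)
  have main : ∀ (n : ℕ) (V : VH Z (i + 1)), SupP β S J V.1 → (lvT β S V.1).card ≤ n →
      Finsupp.single V 1 ∈ N := by
    intro n
    induction n with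
    | zero =>
      intro V hsV hn
      exact top V hsV (by omega)
    | succ n ih =>
      intro V hsV hn
      by_cases hV : i + 1 < (lvT β S V.1).card
      · refine (sup_le le_rfl ?_ : _ ⊔ _ ≤ N)
          (move_P K hd hζ β f hf S J hJ B hAB hBA HZ N hN1 hsuper V hsV hV)
        rw [Submodule.span_le]
        rintro w ⟨V', h1, h2, rfl⟩
        have := Finset.card_lt_card h2
        exact ih V' h1 (by omega)
      · exact top V hsV (by omega)
  exact fun V hV => main _ V hV le_rfl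

end chi

end Pool.Agent.Bloch
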