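import Pool.Agent.Bloch.Solve

/-! Diagonal systems: characters which vanish on the indices of a nonzero maximal minor. -/

set_option linter.unusedSectionVars false

open MvPolynomial

namespace Pool.Agent.Bloch

variable {K : Type} [Field K]

section diag
variable {t r : ℕ}

/-- the terms of the diagonal equations -/
noncomputable def df (d : ℕ) (A : Fin r → Fin t → K) (e : Fin r) (k : Fin t) :
    MvPolynomial (Fin t) K := C (A e k) * X k ^ d

theorem df_bh (d : ℕ) (A : Fin r → Fin t → K) (e : Fin r) (k : Fin t) :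
    BH (fun s : Fin t => s) k d (df d A e k) := by
  classical
  intro m hm
  unfold df at hm
  rw [C_mul_X_pow_eq_monomial] at hm
  have h1 := support_monomial_subset hm
  rw [Finset.mem_singleton] at h1
  subst h1
  refine ⟨fun s hs => ?_, ?_⟩
  · by_contra h
    exact hs (Finsupp.single_eq_of_ne h)
  · rw [Finsupp.degree_single]

/-- the superblocks attached to a set of indices -/
noncomputable def sb (S : Fin r ↪ Fin t) (k : Fin t) : Fin (r + 1) :=
  open Classical in if h : ∃ j, S j = k then (Classical.choose h).succ else 0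

theorem sb_S (S : Fin r ↪ Fin t) (j : Fin r) : sb S (S j) = j.succ := by
  have h : ∃ j', S j' = S j := ⟨j, rfl⟩
  unfold sb
  rw [dif_pos h]
  congr 1
  exact S.injective (Classical.choose_spec h)

theorem sb_of_not (S : Fin r ↪ Fin t) {k : Fin t} (h : ∀ j, S j ≠ k) : sb S k = 0 := by
  unfold sb
  rw [dif_neg]
  rintro ⟨j, hj⟩
  exact h j hj

theorem sb_succ (S : Fin r ↪ Fin t) {k : Fin t} {j : Fin r} (h : sb S k = j.succ) : k = S j := by
  by_cases h' : ∃ j', S j' = k
  · obtain ⟨j', rfl⟩ := h'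
    rw [sb_S] at h
    rw [Fin.succ_injective r h]
  · push Not at h'
    rw [sb_of_not S h'] at h
    exact absurd h (Fin.succ_ne_zero j).symm

/-- the indices outside `S` of variables which do not vanish -/
noncomputable def live (S : Fin r ↪ Fin t) (p : PrimeSpectrum (MvPolynomial (Fin t) K)) :
    Finset (Fin t) :=
  open Classical in Finset.univ.filter (fun k => (∀ j, S j ≠ k) ∧ X k ∉ p.asIdeal)

theorem mem_live (S : Fin r ↪ Fin t) (p : PrimeSpectrum (MvPolynomial (Fin t) K)) (k : Fin t) :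
    k ∈ live S p ↔ (∀ j, S j ≠ k) ∧ X k ∉ p.asIdeal := by
  classical
  unfold live
  rw [Finset.mem_filter]
  exact ⟨fun h => h.2, fun h => ⟨Finset.mem_univ _, h⟩⟩

variable (𝕜 : Type) [Field 𝕜] [CharZero 𝕜]

theorem move_zero {d : ℕ} (hd : 0 < d) {ζ : K} (hζ : IsPrimitiveRoot ζ d)
    (A : Fin r → Fin t → K) (S : Fin r ↪ Fin t) (B : Fin r → Fin r → K)
    (hAB : ∀ e e', ∑ l, A e (S l) * B l e' = if e = e' then 1 else 0)
    (hBA : ∀ j j', ∑ e, B j e * A e (S j') = if j = j' then 1 else 0)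
    {Z : Set (PrimeSpectrum (MvPolynomial (Fin t) K))}
    (HZ : ∀ Q, Q ∈ Z ↔ ∀ e, ∑ k, df d A e k ∈ Q.asIdeal) {i : ℕ}
    (N : Submodule 𝕜 (VH Z (i + 1) →₀ 𝕜)) (hN1 : RelH 𝕜 Z (i + 1) ≤ N)
    (hN2 : ∀ c : Fin (r + 1) → K, (∀ l, c l ^ d = 1) → ∀ V V' : VH Z (i + 1),
      V'.1 = ctr K (scl K (fun s => c (sb S s))) V.1 →
        Finsupp.single V' 1 - Finsupp.single V 1 ∈ N)
    (V : VH Z (i + 1)) (hV : i + 1 < (live S V.1).card) :
    Finsupp.single V 1 ∈ N ⊔ Submodule.span 𝕜 {w : VH Z (i + 1) →₀ 𝕜 | ∃ V' : VH Z (i + 1),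
      live S V'.1 ⊂ live S V.1 ∧ w = Finsupp.single V' 1} := by
  classical
  obtain ⟨k₀, hk₀⟩ := Finset.card_pos.1 (lt_of_le_of_lt (Nat.zero_le _) hV)
  have hk₀' := (mem_live S V.1 k₀).1 hk₀
  let pv : Fin (r + 1) → Fin t := Fin.cases k₀ S
  have hpv0 : pv 0 = k₀ := rfl
  have hpvS : ∀ j : Fin r, pv j.succ = S j := fun j => rfl
  let Zr : Set (Fin t) := {k | (∀ j, S j ≠ k) ∧ X k ∈ V.1.asIdeal}
  have hpv : ∀ l, sb S (pv l) = l := by
    intro l
    refine Fin.cases ?_ (fun j => ?_) l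
    · exact sb_of_not S hk₀'.1
    · rw [hpvS]; exact sb_S S j
  have hpvZ : ∀ l, pv l ∉ Zr := by
    intro l
    refine Fin.cases ?_ (fun j => ?_) l
    · exact fun h => hk₀'.2 h.2
    · rw [hpvS]; exact fun h => h.1 j rfl
  have hAct : ∀ a : Act (sb S) Zr pv, a.1 ∈ (live S V.1).erase k₀ := by
    intro a
    have h1 : ∀ j, S j ≠ a.1 := by
      intro j hj
      apply a.2.2
      rw [← hj, sb_S]
      exact (hpvS j).symm
    rw [Finset.mem_erase, mem_live]
    refine ⟨?_, h1, fun h => a.2.1 ⟨h1, h⟩⟩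
    intro h
    apply a.2.2
    rw [sb_of_not S h1, h]
    exact hpv0.symm
  have hActc : Fintype.card (Act (sb S) Zr pv) = (live S V.1).card - 1 := by
    rw [← Finset.card_erase_of_mem hk₀, ← Fintype.card_coe]
    apply Fintype.card_congr
    refine ⟨fun a => ⟨a.1, hAct a⟩, fun b => ⟨b.1, ?_⟩, fun a => rfl, fun b => rfl⟩
    have hb := b.2
    rw [Finset.mem_erase, mem_live] at hb
    refine ⟨fun h => hb.2.2 h.2, ?_⟩
    rw [sb_of_not S hb.2.1]
    exact hb.1
  have hgrp : ∀ (e j : Fin r), grp (sb S) (df d A) e j.succ = df d A e (S j) := by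
    intro e j
    unfold grp
    have : Finset.univ.filter (fun k => sb S k = j.succ) = {S j} := by
      ext k
      rw [Finset.mem_filter, Finset.mem_singleton]
      constructor
      · intro h; exact sb_succ S h.2
      · rintro rfl; exact ⟨Finset.mem_univ _, sb_S S j⟩
    rw [this, Finset.sum_singleton]
  have hφ : ∀ e (j : Fin r), aeval (eta K (sb S) Zr pv) (grp (sb S) (df d A) e j.succ) =
      algebraMap K (MvPolynomial (Act (sb S) Zr pv) K) (A e (S j)) := by
    intro e j
    rw [hgrp]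
    unfold df
    rw [map_mul, map_pow, aeval_C, aeval_X]
    have h1 : eta K (sb S) Zr pv (S j) = 1 := by
      have := eta_pv (K := K) (hpvZ j.succ) (hpv j.succ)
      rwa [hpvS] at this
    rw [h1, one_pow, mul_one]
  have hvan : Van K 𝕜 i {P : PrimeSpectrum (MvPolynomial (Fin r)
      (MvPolynomial (Act (sb S) Zr pv) K)) |
      ∀ e ∈ (Finset.univ : Finset (Fin r)),
        lin (aeval (eta K (sb S) Zr pv) (grp (sb S) (df d A) e 0))
        (fun l => aeval (eta K (sb S) Zr pv) (grp (sb S) (df d A) e l.succ)) ∈ P.asIdeal} := by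
    simp only [hφ]
    set g : Fin r → MvPolynomial (Act (sb S) Zr pv) K := fun e =>
      aeval (eta K (sb S) Zr pv) (grp (sb S) (df d A) e 0) with hg
    refine van_of_surj K 𝕜 ((solve B g).restrictScalars K) ?_ (Z := Set.univ) ?_ ?_
      (van_aff 𝕜 (Act (sb S) Zr pv) (by rw [hActc]; omega))
    · intro x
      exact ⟨C x, solve_C B g x⟩
    · intro Q
      refine ⟨fun _ e _ => ?_, fun _ => Set.mem_univ _⟩
      rw [mem_ctr]
      change solve B g (lin (g e) _) ∈ Q.asIdeal
      rw [solve_lin (fun e l => A e (S l)) B hAB g e]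
      exact Ideal.zero_mem _
    · intro p hp x hx
      exact solve_ker (fun e l => A e (S l)) B hBA g p.asIdeal
        (fun e => hp e (Finset.mem_univ _)) x hx
  have key := chart_poly 𝕜 hd hζ hpv hpvZ (Finset.univ : Finset (Fin r)) (grp (sb S) (df d A))
    (grp_bh (sb S) (df_bh d A)) (Z := Z)
    (fun Q _ h => (HZ Q).2 (fun e => by
      rw [← grp_sum (sb S)]; exact h e (Finset.mem_univ _)))
    (fun Q hQ e _ => by rw [grp_sum]; exact (HZ Q).1 hQ e) hvan N hN1 hN2 V
    (fun s hs => hs.2) hk₀'.2 (by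
      intro a
      have h1 : sb S a.1 = 0 := by
        have := hAct a
        rw [Finset.mem_erase, mem_live] at this
        exact sb_of_not S this.2.1
      rw [h1]
      exact hk₀'.2)
  refine (sup_le_sup le_rfl (Submodule.span_mono ?_) : N ⊔ _ ≤ N ⊔ _) key
  rintro w ⟨V', ⟨h1, h2⟩, rfl⟩
  refine ⟨V', ?_, rfl⟩
  have h3 : X k₀ ∈ V'.1.asIdeal := by
    rcases h2 with h2 | ⟨a, h2⟩
    · exact h2
    · have h4 : sb S a.1 = 0 := by
        have := hAct a
        rw [Finset.mem_erase, mem_live] at this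
        exact sb_of_not S this.2.1
      rw [h4] at h2
      exact h2
  rw [Finset.ssubset_iff_of_subset]
  · exact ⟨k₀, hk₀, fun h => ((mem_live S V'.1 k₀).1 h).2 h3⟩
  · intro k hk
    rw [mem_live] at hk ⊢
    exact ⟨hk.1, fun h => hk.2 (h1 k ⟨hk.1, h⟩)⟩

end diag

end Pool.Agent.Bloch
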