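import Pool.Agent.Bloch.Desc

/-! Combinatorics of zero-sum partitions with weights. -/

set_option linter.unusedSectionVars false

namespace Pool.Agent.Bloch

section comb
variable {t : ℕ}

/-- The condition on the weights: every set `M` of at most `d` indices contains `j` disjoint
subsets of weight at least `d`, where the weight of `M` is at most `d (1 + j)`; moreover, if `M`
has weight greater than `d` and all its proper subsets have weight less than `d`, the weight of `M`
is `d + 1`. -/
def Cond (d : ℕ) (m : Fin t → ℕ) : Prop :=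
  ∀ M : Finset (Fin t), M.Nonempty → M.card ≤ d →
    (∃ (j : ℕ) (φ : Fin t → ℕ), (∀ l < j, d ≤ ∑ k ∈ M.filter (fun k => φ k = l), m k) ∧
      ∑ k ∈ M, m k ≤ d * (1 + j)) ∧
    (d < ∑ k ∈ M, m k → (∀ k ∈ M, ∑ l ∈ M.erase k, m l < d) → ∑ k ∈ M, m k = d + 1)

/-- minimal zero-sum subsets -/
def MinZS (d : ℕ) (a : Fin t → ℕ) (M : Finset (Fin t)) : Prop :=
  M.Nonempty ∧ d ∣ ∑ k ∈ M, a k ∧ ∀ M' ⊆ M, M'.Nonempty → d ∣ ∑ k ∈ M', a k → M' = M

theorem exists_minZS (d : ℕ) (a : Fin t → ℕ) (U : Finset (Fin t)) (hU : U.Nonempty)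
    (hs : d ∣ ∑ k ∈ U, a k) : ∃ M ⊆ U, MinZS d a M := by
  classical
  let S : Finset (Finset (Fin t)) :=
    U.powerset.filter (fun M => M.Nonempty ∧ d ∣ ∑ k ∈ M, a k)
  have hS : S.Nonempty :=
    ⟨U, Finset.mem_filter.2 ⟨Finset.mem_powerset_self U, hU, hs⟩⟩
  obtain ⟨M, hM, hmin⟩ := Finset.exists_min_image S Finset.card hS
  rw [Finset.mem_filter, Finset.mem_powerset] at hM
  refine ⟨M, hM.1, hM.2.1, hM.2.2, ?_⟩
  intro M' h1 h2 h3
  have h4 := hmin M' (Finset.mem_filter.2 ⟨Finset.mem_powerset.2 (h1.trans hM.1), h2, h3⟩)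
  exact Finset.eq_of_subset_of_card_le h1 h4

/-- A zero-sum set is a disjoint union of minimal zero-sum sets. -/
theorem exists_part (d : ℕ) (a : Fin t → ℕ) : ∀ (n : ℕ) (U : Finset (Fin t)), U.card ≤ n →
    d ∣ ∑ k ∈ U, a k → ∃ part : Fin t → Finset (Fin t), ∀ k ∈ U, k ∈ part k ∧ part k ⊆ U ∧
      MinZS d a (part k) ∧ ∀ l ∈ part k, part l = part k := by
  classical
  intro n
  induction n with
  | zero =>
    intro U hU _
    have : U = ∅ := Finset.card_eq_zero.1 (by omega)
    subst this
    exact ⟨fun _ => ∅, fun k hk => absurd hk (Finset.notMem_empty _)⟩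
  | succ n ih =>
    intro U hU hs
    by_cases hne : U.Nonempty
    · obtain ⟨M, hMU, hM⟩ := exists_minZS d a U hne hs
      have h1 := Finset.sum_sdiff hMU (f := a)
      have h2 : d ∣ ∑ k ∈ U \ M, a k := by
        rw [← h1] at hs
        exact (Nat.dvd_add_left hM.2.1).1 hs
      have h3 : (U \ M).card ≤ n := by
        rw [Finset.card_sdiff_of_subset hMU]
        have := Finset.card_pos.2 hM.1
        omega
      obtain ⟨part, hp⟩ := ih (U \ M) h3 h2
      refine ⟨fun k => if k ∈ M then M else part k, fun k hk => ?_⟩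
      by_cases hkM : k ∈ M
      · simp only [if_pos hkM]
        refine ⟨hkM, hMU, hM, fun l hl => if_pos hl⟩
      · simp only [if_neg hkM]
        obtain ⟨h4, h5, h6, h7⟩ := hp k (Finset.mem_sdiff.2 ⟨hk, hkM⟩)
        refine ⟨h4, h5.trans Finset.sdiff_subset, h6, fun l hl => ?_⟩
        have h8 := Finset.mem_sdiff.1 (h5 hl)
        rw [if_neg h8.2]
        exact h7 l hl
    · rw [Finset.not_nonempty_iff_eq_empty] at hne
      subst hne
      exact ⟨fun _ => ∅, fun k hk => absurd hk (Finset.notMem_empty _)⟩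

theorem minZS_card {d : ℕ} (hd : 0 < d) {a : Fin t → ℕ} {M : Finset (Fin t)}
    (hM : MinZS d a M) : M.card ≤ d := by
  classical
  haveI : NeZero d := ⟨hd.ne'⟩
  by_contra hcon
  push Not at hcon
  obtain ⟨k, hk⟩ := hM.1
  obtain ⟨S, hS, hne, _, h0⟩ := exists_zero_sum (fun k => (a k : ZMod d)) (M.erase k) (by
    rw [Finset.card_erase_of_mem hk]; omega)
  have h1 : d ∣ ∑ k ∈ S, a k := by
    rw [← ZMod.natCast_eq_zero_iff, Nat.cast_sum]
    exact h0
  have h2 := hM.2.2 S (hS.trans (Finset.erase_subset _ _)) hne h1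
  have h3 := hS (h2 ▸ hk)
  exact Finset.notMem_erase k M h3

/-- the grouping of a minimal zero-sum set -/
def LP (d : ℕ) (a m : Fin t → ℕ) (M : Finset (Fin t)) (φ : Fin t → ℕ) (E : Finset ℕ) : Prop :=
  (∀ l ∈ E, d ≤ ∑ k ∈ M.filter (fun k => φ k = l), m k ∧
    (d ∣ ∑ k ∈ M.filter (fun k => φ k = l), a k →
      d + 1 ≤ ∑ k ∈ M.filter (fun k => φ k = l), m k)) ∧
  ∑ k ∈ M, m k ≤ d * (1 + E.card) ∧
  ((∃ x ∈ M, ¬ d ∣ ∑ k ∈ M.filter (fun k => φ k = φ x), a k) ∨
    ((∀ k ∈ M, φ k = 0) ∧ (E = ∅ ∨ (E = {0} ∧ ∑ k ∈ M, m k = d + 1))))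

theorem exists_LP {d : ℕ} (hd : 0 < d) {a m : Fin t → ℕ} (hm : Cond d m)
    {M : Finset (Fin t)} (hM : MinZS d a M) : ∃ φ E, LP d a m M φ E := by
  classical
  obtain ⟨⟨j, φ, hφ, hj⟩, hC2⟩ := hm M hM.1 (minZS_card hd hM)
  -- proper nonempty subsets do not have sum zero
  have hprop : ∀ G ⊆ M, G.Nonempty → G ≠ M → ¬ d ∣ ∑ k ∈ G, a k :=
    fun G h1 h2 h3 h4 => h3 (hM.2.2 G h1 h2 h4)
  by_cases hall : ∀ k ∈ M, ∑ l ∈ M.erase k, m l < d
  · -- all proper subsets are small
    by_cases hle : ∑ k ∈ M, m k ≤ d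
    · by_cases hcard : M.card ≤ 1
      · refine ⟨fun _ => 0, ∅, fun l hl => absurd hl (Finset.notMem_empty _), ?_,
          Or.inr ⟨fun _ _ => rfl, Or.inl rfl⟩⟩
        rw [Finset.card_empty, add_zero, mul_one]
        exact hle
      · refine ⟨fun k => k, ∅, fun l hl => absurd hl (Finset.notMem_empty _), ?_, Or.inl ?_⟩
        · rw [Finset.card_empty, add_zero, mul_one]
          exact hle
        · obtain ⟨x, hx⟩ := hM.1
          refine ⟨x, hx, hprop _ (Finset.filter_subset _ _)
            ⟨x, Finset.mem_filter.2 ⟨hx, rfl⟩⟩ ?_⟩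
          intro h
          apply hcard
          rw [← h]
          apply Finset.card_le_one.2
          intro u hu v hv
          rw [Finset.mem_filter] at hu hv
          exact Fin.ext (hu.2.trans hv.2.symm)
    · push Not at hle
      have h1 := hC2 hle hall
      refine ⟨fun _ => 0, {0}, ?_, ?_, Or.inr ⟨fun _ _ => rfl, Or.inr ⟨rfl, h1⟩⟩⟩
      · intro l hl
        rw [Finset.mem_singleton] at hl
        subst hl
        rw [Finset.filter_true_of_mem (fun _ _ => rfl), h1]
        exact ⟨Nat.le_succ d, fun _ => le_rfl⟩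
      · rw [h1, Finset.card_singleton]
        omega
  · push Not at hall
    obtain ⟨x, hx, hxd⟩ := hall
    have hx2 : (M.erase x).Nonempty := by
      rw [Finset.nonempty_iff_ne_empty]
      intro h
      rw [h, Finset.sum_empty] at hxd
      omega
    have hx3 : M.erase x ≠ M := fun h => Finset.notMem_erase x M (h.symm ▸ hx)
    by_cases hj2 : j < 2
    · refine ⟨fun k => if k = x then 1 else 0, {0}, ?_, ?_, Or.inl ?_⟩
      · intro l hl
        rw [Finset.mem_singleton] at hl
        subst hl
        have h1 : M.filter (fun k => (if k = x then 1 else 0) = 0) = M.erase x := by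
          ext k
          rw [Finset.mem_filter, Finset.mem_erase]
          constructor
          · rintro ⟨h1, h2⟩
            refine ⟨?_, h1⟩
            rintro rfl
            rw [if_pos rfl] at h2
            exact absurd h2 one_ne_zero
          · rintro ⟨h1, h2⟩
            exact ⟨h2, if_neg h1⟩
        rw [h1]
        exact ⟨hxd, fun h => absurd h (hprop _ (Finset.erase_subset _ _) hx2 hx3)⟩
      · rw [Finset.card_singleton]
        refine hj.trans (Nat.mul_le_mul_left d ?_)
        omega
      · obtain ⟨y, hy⟩ := hx2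
        rw [Finset.mem_erase] at hy
        refine ⟨y, hy.2, ?_⟩
        have h1 : M.filter (fun k => (if k = x then 1 else 0) = if y = x then 1 else 0) =
            M.erase x := by
          ext k
          rw [if_neg hy.1, Finset.mem_filter, Finset.mem_erase]
          constructor
          · rintro ⟨h1, h2⟩
            refine ⟨?_, h1⟩
            rintro rfl
            rw [if_pos rfl] at h2
            exact absurd h2 one_ne_zero
          · rintro ⟨h1, h2⟩
            exact ⟨h2, if_neg h1⟩
        rw [h1]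
        exact hprop _ (Finset.erase_subset _ _) ⟨y, Finset.mem_erase.2 hy⟩ hx3
    · push Not at hj2
      have hne : ∀ l < j, (M.filter (fun k => φ k = l)).Nonempty := by
        intro l hl
        rw [Finset.nonempty_iff_ne_empty]
        intro h
        have := hφ l hl
        rw [h, Finset.sum_empty] at this
        omega
      have hpr : ∀ l < j, ¬ d ∣ ∑ k ∈ M.filter (fun k => φ k = l), a k := by
        intro l hl
        refine hprop _ (Finset.filter_subset _ _) (hne l hl) ?_
        intro h
        obtain ⟨l', hl', hll⟩ : ∃ l' < j, l' ≠ l := by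
          by_cases h0 : l = 0
          · exact ⟨1, by omega, by omega⟩
          · exact ⟨0, by omega, by omega⟩
        obtain ⟨y, hy⟩ := hne l' hl'
        rw [Finset.mem_filter] at hy
        rw [← h, Finset.mem_filter] at hy
        exact hll (hy.2.symm.trans hy.1.2)
      refine ⟨φ, Finset.range j, ?_, ?_, Or.inl ?_⟩
      · intro l hl
        rw [Finset.mem_range] at hl
        exact ⟨hφ l hl, fun h => absurd h (hpr l hl)⟩
      · rw [Finset.card_range]
        exact hj
      · obtain ⟨y, hy⟩ := hne 0 (by omega)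
        rw [Finset.mem_filter] at hy
        refine ⟨y, hy.1, ?_⟩
        rw [hy.2]
        exact hpr 0 (by omega)

end comb

end Pool.Agent.Bloch
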