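import Pool.Agent.Bloch.CombF

/-! The grouping of the blocks attached to a character. -/

set_option linter.unusedSectionVars false

namespace Pool.Agent.Bloch

section plan
variable {t : ℕ}

theorem arith_plan {d i p : ℕ} (hd : 2 ≤ d) (hi : 1 ≤ i) (h : d * (1 + i) < p * (d + 1)) :
    i + 3 ≤ 2 * p := by
  by_contra hcon
  push Not at hcon
  have h1 : 2 * p ≤ i + 2 := by omega
  have h2 : 2 * (p * (d + 1)) ≤ (i + 2) * (d + 1) := by
    calc 2 * (p * (d + 1)) = 2 * p * (d + 1) := by ring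
      _ ≤ (i + 2) * (d + 1) := Nat.mul_le_mul_right _ h1
  obtain ⟨e, rfl⟩ : ∃ e, d = e + 2 := ⟨d - 2, by omega⟩
  obtain ⟨u, rfl⟩ : ∃ u, i = u + 1 := ⟨i - 1, by omega⟩
  have h3 : 2 * ((e + 2) * (1 + (u + 1))) + 2 ≤ (u + 1 + 2) * (e + 2 + 1) := by omega
  have h4 : 2 * ((e + 2) * (1 + (u + 1))) + 2 = 2 * (e * u) + 4 * e + 4 * u + 10 := by ring
  have h5 : (u + 1 + 2) * (e + 2 + 1) = e * u + 3 * e + 3 * u + 9 := by ring
  rw [h4, h5] at h3
  have := Nat.zero_le (e * u)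
  omega

open Classical in
theorem exists_plan {d : ℕ} (hd : 2 ≤ d) {i : ℕ} (hi : 1 ≤ i) {a m : Fin t → ℕ}
    (hm : Cond d m) (hsum : d * (1 + i) < ∑ k, m k) (has : d ∣ ∑ k, a k) :
    ∃ (T' Q' : Type) (_ : Fintype T') (_ : Fintype Q') (ρ : Fin t → T') (π : T' → Q')
      (E : Finset T'), Function.Surjective ρ ∧ Function.Surjective π ∧
      (∀ l, d ∣ ∑ k ∈ Finset.univ.filter (fun k => π (ρ k) = l), a k) ∧
      (∀ j ∈ E, d ≤ ∑ k ∈ Finset.univ.filter (fun k => ρ k = j), m k ∧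
        (d ∣ ∑ k ∈ Finset.univ.filter (fun k => ρ k = j), a k →
          d + 1 ≤ ∑ k ∈ Finset.univ.filter (fun k => ρ k = j), m k)) ∧
      i + 2 ≤ Fintype.card Q' + E.card ∧
      ((∃ j, ¬ d ∣ ∑ k ∈ Finset.univ.filter (fun k => ρ k = j), a k) ∨
        (Function.Injective π ∧ ∃ g, g ∉ E ∧
          ((∃ k₁, ρ k₁ = g ∧ ¬ d ∣ a k₁) ∨ ∃ k₀, ∀ k, ρ k = g ↔ k = k₀))) := by
  have hd0 : 0 < d := by omega
  obtain ⟨part, hpart⟩ := exists_part d a _ (Finset.univ : Finset (Fin t)) le_rfl has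
  have hp1 : ∀ k, k ∈ part k := fun k => (hpart k (Finset.mem_univ _)).1
  have hp2 : ∀ k, MinZS d a (part k) := fun k => (hpart k (Finset.mem_univ _)).2.2.1
  have hp3 : ∀ k, ∀ l ∈ part k, part l = part k := fun k => (hpart k (Finset.mem_univ _)).2.2.2
  have hLP : ∀ M : Finset (Fin t), ∃ φ E, MinZS d a M → LP d a m M φ E := by
    intro M
    by_cases h : MinZS d a M
    · obtain ⟨φ, E, h1⟩ := exists_LP hd0 hm h
      exact ⟨φ, E, fun _ => h1⟩
    · exact ⟨fun _ => 0, ∅, fun h' => absurd h' h⟩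
  choose φ E hLP using hLP
  let ρ₀ : Fin t → Finset (Fin t) × ℕ := fun k => (part k, φ (part k) k)
  obtain ⟨T', _, eT, hTi, hTr⟩ : ∃ (T' : Type) (_ : Fintype T')
      (eT : T' → Finset (Fin t) × ℕ), Function.Injective eT ∧
        ∀ x, (∃ y, eT y = x) ↔ ∃ k, ρ₀ k = x := by
    refine ⟨Set.range ρ₀, Fintype.ofFinite _, Subtype.val,
      Subtype.val_injective, fun x => ?_⟩
    constructor
    · rintro ⟨y, rfl⟩
      exact y.2
    · intro h
      exact ⟨⟨x, h⟩, rfl⟩
  obtain ⟨Q', _, eQ, hQi, hQr⟩ : ∃ (Q' : Type) (_ : Fintype Q')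
      (eQ : Q' → Finset (Fin t)), Function.Injective eQ ∧
        ∀ x, (∃ y, eQ y = x) ↔ ∃ k, part k = x := by
    refine ⟨Set.range part, Fintype.ofFinite _, Subtype.val,
      Subtype.val_injective, fun x => ?_⟩
    constructor
    · rintro ⟨y, rfl⟩
      exact y.2
    · intro h
      exact ⟨⟨x, h⟩, rfl⟩
  choose ρ hρ₀ using fun k => (hTr (ρ₀ k)).2 ⟨k, rfl⟩
  have hT' : ∀ x : T', ∃ k, ρ k = x := by
    intro x
    obtain ⟨k, hk⟩ := (hTr (eT x)).1 ⟨x, rfl⟩
    exact ⟨k, hTi (by rw [hρ₀, hk])⟩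
  have hρ1 : ∀ k, (eT (ρ k)).1 = part k := fun k => by rw [hρ₀]
  have hρ2 : ∀ k, (eT (ρ k)).2 = φ (part k) k := fun k => by rw [hρ₀]
  have hπe : ∀ x : T', ∃ q : Q', eQ q = (eT x).1 := by
    intro x
    obtain ⟨k, hk⟩ := hT' x
    rw [hQr]
    exact ⟨k, by rw [← hk, hρ1]⟩
  choose π hπ₀ using hπe
  have hπρ : ∀ k, eQ (π (ρ k)) = part k := fun k => by rw [hπ₀, hρ1]
  have hQ' : ∀ q : Q', ∃ k, part k = eQ q := fun q => (hQr (eQ q)).1 ⟨q, rfl⟩
  have hQm : ∀ q : Q', MinZS d a (eQ q) := by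
    intro q
    obtain ⟨k, hk⟩ := hQ' q
    rw [← hk]; exact hp2 k
  have hfQ : ∀ q : Q', Finset.univ.filter (fun k => π (ρ k) = q) = (eQ q) := by
    intro q
    obtain ⟨k₀, hk₀⟩ := hQ' q
    ext k
    rw [Finset.mem_filter]
    constructor
    · rintro ⟨_, h⟩
      rw [← h, hπρ]
      exact hp1 k
    · intro h
      refine ⟨Finset.mem_univ _, hQi ?_⟩
      rw [hπρ]
      rw [← hk₀] at h ⊢
      exact hp3 k₀ k h
  have hfT : ∀ x : T', Finset.univ.filter (fun k => ρ k = x) =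
      (eT x).1.filter (fun k => φ (eT x).1 k = (eT x).2) := by
    intro x
    obtain ⟨k₀, hk₀⟩ := hT' x
    have h1 : part k₀ = (eT x).1 := by rw [← hk₀, hρ1]
    ext k
    rw [Finset.mem_filter, Finset.mem_filter]
    constructor
    · rintro ⟨_, h⟩
      rw [← h, hρ1, hρ2]
      exact ⟨hp1 k, rfl⟩
    · rintro ⟨h2, h3⟩
      rw [← h1] at h2
      have h4 := hp3 k₀ k h2
      refine ⟨Finset.mem_univ _, hTi (Prod.ext ?_ ?_)⟩
      · rw [hρ1, h4, h1]
      · rw [hρ2, h4, h1, h3]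
  let E' : Finset T' := Finset.univ.filter (fun x => (eT x).2 ∈ E (eT x).1)
  have hE' : ∀ x : T', x ∈ E' ↔ (eT x).2 ∈ E (eT x).1 := fun x => by simp [E']
  have hTm : ∀ x : T', MinZS d a (eT x).1 := fun x => by rw [← hπ₀]; exact hQm (π x)
  have hbig : ∀ j ∈ E', d ≤ ∑ k ∈ Finset.univ.filter (fun k => ρ k = j), m k ∧
        (d ∣ ∑ k ∈ Finset.univ.filter (fun k => ρ k = j), a k →
          d + 1 ≤ ∑ k ∈ Finset.univ.filter (fun k => ρ k = j), m k) := by
    intro j hj
    rw [hfT]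
    exact (hLP (eT j).1 (hTm j)).1 _ ((hE' j).1 hj)
  -- counting
  have hcount : ∑ k, m k ≤ d * (Fintype.card Q' + E'.card) := by
    have h1 : ∑ k, m k = ∑ q : Q', ∑ k ∈ (eQ q), m k := by
      rw [← Finset.sum_fiberwise Finset.univ (fun k => π (ρ k)) m]
      apply Finset.sum_congr rfl
      intro q _
      rw [hfQ]
    have h2 : ∑ q : Q', ∑ k ∈ (eQ q), m k ≤ ∑ q : Q', d * (1 + (E (eQ q)).card) :=
      Finset.sum_le_sum (fun q _ => (hLP (eQ q) (hQm q)).2.1)
    have h3 : ∑ q : Q', d * (1 + (E (eQ q)).card) = d * (Fintype.card Q' + ∑ q : Q', (E (eQ q)).card) := by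
      rw [← Finset.mul_sum, Finset.sum_add_distrib, Finset.sum_const, smul_eq_mul, mul_one,
        Finset.card_univ]
    have h4 : ∑ q : Q', (E (eQ q)).card ≤ E'.card := by
      rw [Finset.card_eq_sum_card_fiberwise (f := π) (s := E') (t := Finset.univ)
        (fun x _ => Finset.mem_univ _)]
      apply Finset.sum_le_sum
      intro q _
      apply Finset.card_le_card_of_surjOn (fun x : T' => (eT x).2)
      intro l hl
      have hl' : l ∈ E (eQ q) := hl
      have h5 := ((hLP (eQ q) (hQm q)).1 l hl').1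
      obtain ⟨k, hk⟩ : ((eQ q).filter (fun k => φ (eQ q) k = l)).Nonempty := by
        rw [Finset.nonempty_iff_ne_empty]
        intro h
        rw [h, Finset.sum_empty] at h5
        omega
      rw [Finset.mem_filter] at hk
      have h6 : k ∈ Finset.univ.filter (fun k => π (ρ k) = q) := by rw [hfQ]; exact hk.1
      have h7 : part k = (eQ q) := by rw [← hπρ, (Finset.mem_filter.1 h6).2]
      have h8 : (eT (ρ k)).2 = l := by rw [hρ2, h7, hk.2]
      refine ⟨ρ k, ?_, h8⟩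
      rw [Finset.mem_coe, Finset.mem_filter, hE']
      refine ⟨?_, (Finset.mem_filter.1 h6).2⟩
      rw [h8, hρ1, h7]
      exact hl'
    calc ∑ k, m k = ∑ q : Q', ∑ k ∈ (eQ q), m k := h1
      _ ≤ _ := h2
      _ = _ := h3
      _ ≤ _ := Nat.mul_le_mul_left _ (Nat.add_le_add_left h4 _)
  have hcount' : i + 2 ≤ Fintype.card Q' + E'.card := by
    have h1 := lt_of_lt_of_le hsum hcount
    have h2 := lt_of_mul_lt_mul_left h1 (Nat.zero_le d)
    omega
  have hρs : Function.Surjective ρ := hT'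
  have hπs : Function.Surjective π := by
    intro q
    obtain ⟨k, hk⟩ := hQ' q
    exact ⟨ρ k, hQi (by rw [hπρ, hk])⟩
  have hπa : ∀ l, d ∣ ∑ k ∈ Finset.univ.filter (fun k => π (ρ k) = l), a k := by
    intro l
    rw [hfQ]
    exact (hQm l).2.1
  by_cases h1 : ∃ j : T', ¬ d ∣ ∑ k ∈ Finset.univ.filter (fun k => ρ k = j), a k
  · exact ⟨T', Q', inferInstance, inferInstance, ρ, π, E', hρs, hπs, hπa, hbig, hcount', Or.inl h1⟩
  -- all groups have sum zero
  push Not at h1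
  have htype2 : ∀ q : Q', (∀ k ∈ (eQ q), φ (eQ q) k = 0) ∧
      (E (eQ q) = ∅ ∨ (E (eQ q) = {0} ∧ ∑ k ∈ (eQ q), m k = d + 1)) := by
    intro q
    refine (hLP (eQ q) (hQm q)).2.2.resolve_left ?_
    rintro ⟨x, hx, hx2⟩
    apply hx2
    have h2 : x ∈ Finset.univ.filter (fun k => π (ρ k) = q) := by rw [hfQ]; exact hx
    have h3 : part x = (eQ q) := by rw [← hπρ, (Finset.mem_filter.1 h2).2]
    have h4 := h1 (ρ x)
    rw [hfT, hρ1, hρ2, h3] at h4
    exact h4
  have hx0 : ∀ x : T', (eT x).2 = 0 := by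
    intro x
    obtain ⟨k, hk⟩ := hT' x
    have h2 := (htype2 (π (ρ k))).1 k (by rw [hπρ]; exact hp1 k)
    rw [← hk, hρ2, ← hπρ]
    exact h2
  have hπi : Function.Injective π := by
    intro x y hxy
    apply hTi
    apply Prod.ext
    · rw [← hπ₀, ← hπ₀, hxy]
    · rw [hx0, hx0]
  have hgk : ∀ g : T', (∃ k₁, ρ k₁ = g ∧ ¬ d ∣ a k₁) ∨ ∃ k₀, ∀ k, ρ k = g ↔ k = k₀ := by
    intro g
    obtain ⟨k₀, hk₀⟩ := hT' g
    by_cases h : ∀ k, ρ k = g → k = k₀
    · exact Or.inr ⟨k₀, fun k => ⟨h k, fun h => h ▸ hk₀⟩⟩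
    · push Not at h
      obtain ⟨k₁, hk₁, hne⟩ := h
      refine Or.inl ⟨k₁, hk₁, ?_⟩
      intro hdv
      have h2 := (hTm g).2.2 {k₁} ?_ (Finset.singleton_nonempty _)
        (by rwa [Finset.sum_singleton])
      · have h3 : k₀ ∈ (eT g).1 := by rw [← hk₀, hρ1]; exact hp1 k₀
        rw [← h2, Finset.mem_singleton] at h3
        exact hne h3.symm
      · rw [Finset.singleton_subset_iff, ← hk₁, hρ1]
        exact hp1 k₁
  by_cases hall : ∀ g : T', g ∈ E'
  · -- one group is removed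
    have hs : ∀ q : Q', ∑ k ∈ (eQ q), m k = d + 1 := by
      intro q
      obtain ⟨x, hx⟩ := hπs q
      rcases (htype2 q).2 with h | h
      · have h2 := (hE' x).1 (hall x)
        have h3 : (eT x).1 = (eQ q) := by rw [← hπ₀, hx]
        rw [h3, h] at h2
        exact absurd h2 (Finset.notMem_empty _)
      · exact h.2
    have h2 : ∑ k, m k = Fintype.card Q' * (d + 1) := by
      rw [← Finset.sum_fiberwise Finset.univ (fun k => π (ρ k)) m,
        Finset.sum_congr rfl (fun q _ => by rw [hfQ q, hs q]), Finset.sum_const, smul_eq_mul,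
        Finset.card_univ]
    rw [h2] at hsum
    have h3 := arith_plan hd hi hsum
    have h4 : E'.card = Fintype.card Q' := by
      have h5 : E' = Finset.univ := Finset.eq_univ_iff_forall.2 hall
      rw [h5, Finset.card_univ]
      exact Fintype.card_of_bijective ⟨hπi, hπs⟩
    obtain ⟨g⟩ : Nonempty T' := by
      rw [← Fintype.card_pos_iff, Fintype.card_of_bijective ⟨hπi, hπs⟩]
      omega
    refine ⟨T', Q', inferInstance, inferInstance, ρ, π, E'.erase g, hρs, hπs, hπa,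
      fun j hj => hbig j (Finset.mem_of_mem_erase hj), ?_, Or.inr ⟨hπi, g, ?_, hgk g⟩⟩
    · rw [Finset.card_erase_of_mem (hall g), h4]
      omega
    · exact Finset.notMem_erase g E'
  · push Not at hall
    obtain ⟨g, hg⟩ := hall
    exact ⟨T', Q', inferInstance, inferInstance, ρ, π, E', hρs, hπs, hπa, hbig, hcount',
      Or.inr ⟨hπi, g, hg, hgk g⟩⟩

/-- the grouping for the trivial character -/
theorem exists_plan_zero {d : ℕ} (hd : 2 ≤ d) {i : ℕ} (hi : 1 ≤ i) {m : Fin t → ℕ}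
    (hm : Cond d m) (hsum : d * (1 + i) < ∑ k, m k) :
    ∃ E : Finset (Fin t), (∀ k ∈ E, d + 1 ≤ m k) ∧ i + 2 ≤ t + E.card ∧ ∃ k₀, k₀ ∉ E := by
  classical
  have hd0 : 0 < d := by omega
  have hm1 : ∀ k, d < m k → m k = d + 1 := by
    intro k hk
    have := (hm {k} (Finset.singleton_nonempty _) (by rw [Finset.card_singleton]; omega)).2
    rw [Finset.sum_singleton] at this
    apply this hk
    intro l hl
    rw [Finset.mem_singleton] at hl
    subst hl
    rw [Finset.erase_singleton, Finset.sum_empty]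
    exact hd0
  set E : Finset (Fin t) := Finset.univ.filter (fun k => d < m k) with hE
  have hcount : ∑ k, m k ≤ d * (t + E.card) := by
    have h1 : ∀ k, m k ≤ d * (1 + if d < m k then 1 else 0) := by
      intro k
      split_ifs with h
      · rw [hm1 k h]; omega
      · omega
    refine (Finset.sum_le_sum (fun k _ => h1 k)).trans ?_
    rw [← Finset.mul_sum, Finset.sum_add_distrib, Finset.sum_const, smul_eq_mul, mul_one,
      Finset.card_univ, Fintype.card_fin, hE, Finset.card_filter]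
  have hcount' : i + 2 ≤ t + E.card := by
    have h2 := lt_of_mul_lt_mul_left (lt_of_lt_of_le hsum hcount) (Nat.zero_le d)
    omega
  by_cases hall : ∀ k, k ∈ E
  · have h1 : ∑ k, m k = t * (d + 1) := by
      rw [Finset.sum_congr rfl (fun k _ => hm1 k (Finset.mem_filter.1 (hall k)).2),
        Finset.sum_const, smul_eq_mul, Finset.card_univ, Fintype.card_fin]
    rw [h1] at hsum
    have h3 := arith_plan hd hi hsum
    have h4 : E.card = t := by
      rw [Finset.eq_univ_iff_forall.2 hall, Finset.card_univ, Fintype.card_fin]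
    have k₀ : Fin t := ⟨0, by omega⟩
    refine ⟨E.erase k₀, fun k hk => ?_, ?_, k₀, Finset.notMem_erase k₀ E⟩
    · exact (Finset.mem_filter.1 (Finset.mem_of_mem_erase hk)).2
    · rw [Finset.card_erase_of_mem (hall k₀), h4]
      omega
  · push Not at hall
    obtain ⟨k₀, hk₀⟩ := hall
    exact ⟨E, fun k hk => (Finset.mem_filter.1 hk).2, hcount', k₀, hk₀⟩

end plan

end Pool.Agent.Bloch
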