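import Pool.Agent.Bloch.Comb2

/-! The grouping of the blocks attached to a nontrivial character: groups of nonzero sum only. -/

set_option linter.unusedSectionVars false

namespace Pool.Agent.Bloch

section plan
variable {t : ℕ}

/-- The weights `ω` are controlled by disjoint big proper subsets. -/
def CondW (d W : ℕ) (big : Finset (Fin t) → Prop) (ω : Fin t → ℕ) : Prop :=
  ∀ M : Finset (Fin t), M.Nonempty → M.card ≤ d →
    ∃ (j : ℕ) (φ : Fin t → ℕ), (∀ l < j, (M.filter (fun k => φ k = l)).Nonempty ∧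
      big (M.filter (fun k => φ k = l)) ∧ M.filter (fun k => φ k = l) ≠ M) ∧
      ∑ k ∈ M, ω k ≤ W * (1 + j)

open Classical in
theorem exists_planW {d : ℕ} (hd : 0 < d) {W R : ℕ} {a ω : Fin t → ℕ}
    {big : Finset (Fin t) → Prop}
    (hm : CondW d W big ω) (hsum : W * R < ∑ k, ω k) (has : d ∣ ∑ k, a k)
    (ha : ∃ k, ¬ d ∣ a k) :
    ∃ (T' Q' : Type) (_ : Fintype T') (_ : Fintype Q') (ρ : Fin t → T') (π : T' → Q')
      (E : Finset T'), Function.Surjective ρ ∧ Function.Surjective π ∧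
      (∀ l, d ∣ ∑ k ∈ Finset.univ.filter (fun k => π (ρ k) = l), a k) ∧
      (∀ j ∈ E, big (Finset.univ.filter (fun k => ρ k = j)) ∧
        ¬ d ∣ ∑ k ∈ Finset.univ.filter (fun k => ρ k = j), a k) ∧
      R + 1 ≤ Fintype.card Q' + E.card ∧
      (∃ j, ¬ d ∣ ∑ k ∈ Finset.univ.filter (fun k => ρ k = j), a k) := by
  obtain ⟨part, hpart⟩ := exists_part d a _ (Finset.univ : Finset (Fin t)) le_rfl has
  have hp1 : ∀ k, k ∈ part k := fun k => (hpart k (Finset.mem_univ _)).1
  have hp2 : ∀ k, MinZS d a (part k) := fun k => (hpart k (Finset.mem_univ _)).2.2.1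
  have hp3 : ∀ k, ∀ l ∈ part k, part l = part k := fun k => (hpart k (Finset.mem_univ _)).2.2.2
  have hLP : ∀ M : Finset (Fin t), ∃ (φ : Fin t → ℕ) (j : ℕ), MinZS d a M →
      (∀ l < j, (M.filter (fun k => φ k = l)).Nonempty ∧
        big (M.filter (fun k => φ k = l)) ∧ ¬ d ∣ ∑ k ∈ M.filter (fun k => φ k = l), a k) ∧
      ∑ k ∈ M, ω k ≤ W * (1 + j) ∧
      (1 < M.card → ∃ x ∈ M, ¬ d ∣ ∑ k ∈ M.filter (fun k => φ k = φ x), a k) := by
    intro M
    by_cases h : MinZS d a M
    · have hprop : ∀ G ⊆ M, G.Nonempty → G ≠ M → ¬ d ∣ ∑ k ∈ G, a k :=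
        fun G h1 h2 h3 h4 => h3 (h.2.2 G h1 h2 h4)
      obtain ⟨j, φ, h1, h2⟩ := hm M h.1 (minZS_card hd h)
      by_cases hj : j = 0
      · refine ⟨fun k => k, 0, fun _ => ⟨fun l hl => absurd hl (Nat.not_lt_zero _), ?_, ?_⟩⟩
        · rw [hj] at h2; exact h2
        · intro hc
          obtain ⟨x, hx⟩ := h.1
          refine ⟨x, hx, hprop _ (Finset.filter_subset _ _)
            ⟨x, Finset.mem_filter.2 ⟨hx, rfl⟩⟩ ?_⟩
          intro h'
          have h3 : M.card ≤ 1 := by
            apply Finset.card_le_one.2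
            intro u hu v hv
            rw [← h', Finset.mem_filter] at hu hv
            exact Fin.ext (hu.2.trans hv.2.symm)
          omega
      · refine ⟨φ, j, fun _ => ⟨fun l hl => ⟨(h1 l hl).1, (h1 l hl).2.1,
          hprop _ (Finset.filter_subset _ _) (h1 l hl).1 (h1 l hl).2.2⟩, h2, fun _ => ?_⟩⟩
        obtain ⟨h3, _, h4⟩ := h1 0 (Nat.pos_of_ne_zero hj)
        have h5 := hprop _ (Finset.filter_subset _ _) h3 h4
        obtain ⟨x, hx⟩ := h3
        rw [Finset.mem_filter] at hx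
        refine ⟨x, hx.1, ?_⟩
        rw [hx.2]
        exact h5
    · exact ⟨fun _ => 0, 0, fun h' => absurd h' h⟩
  choose φ e hLP using hLP
  let ρ₀ : Fin t → Finset (Fin t) × ℕ := fun k => (part k, φ (part k) k)
  obtain ⟨T', _, eT, hTi, hTr⟩ : ∃ (T' : Type) (_ : Fintype T')
      (eT : T' → Finset (Fin t) × ℕ), Function.Injective eT ∧
        ∀ x, (∃ y, eT y = x) ↔ ∃ k, ρ₀ k = x := by
    refine ⟨Set.range ρ₀, Fintype.ofFinite _, Subtype.val,
      Subtype.val_injective, fun x => ?_⟩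
    constructor
    · rintro ⟨y, rfl⟩
      exact y.2
    · intro h
      exact ⟨⟨x, h⟩, rfl⟩
  obtain ⟨Q', _, eQ, hQi, hQr⟩ : ∃ (Q' : Type) (_ : Fintype Q')
      (eQ : Q' → Finset (Fin t)), Function.Injective eQ ∧
        ∀ x, (∃ y, eQ y = x) ↔ ∃ k, part k = x := by
    refine ⟨Set.range part, Fintype.ofFinite _, Subtype.val,
      Subtype.val_injective, fun x => ?_⟩
    constructor
    · rintro ⟨y, rfl⟩
      exact y.2
    · intro h
      exact ⟨⟨x, h⟩, rfl⟩
  choose ρ hρ₀ using fun k => (hTr (ρ₀ k)).2 ⟨k, rfl⟩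
  have hT' : ∀ x : T', ∃ k, ρ k = x := by
    intro x
    obtain ⟨k, hk⟩ := (hTr (eT x)).1 ⟨x, rfl⟩
    exact ⟨k, hTi (by rw [hρ₀, hk])⟩
  have hρ1 : ∀ k, (eT (ρ k)).1 = part k := fun k => by rw [hρ₀]
  have hρ2 : ∀ k, (eT (ρ k)).2 = φ (part k) k := fun k => by rw [hρ₀]
  have hπe : ∀ x : T', ∃ q : Q', eQ q = (eT x).1 := by
    intro x
    obtain ⟨k, hk⟩ := hT' x
    rw [hQr]
    exact ⟨k, by rw [← hk, hρ1]⟩
  choose π hπ₀ using hπe
  have hπρ : ∀ k, eQ (π (ρ k)) = part k := fun k => by rw [hπ₀, hρ1]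
  have hQ' : ∀ q : Q', ∃ k, part k = eQ q := fun q => (hQr (eQ q)).1 ⟨q, rfl⟩
  have hQm : ∀ q : Q', MinZS d a (eQ q) := by
    intro q
    obtain ⟨k, hk⟩ := hQ' q
    rw [← hk]; exact hp2 k
  have hfQ : ∀ q : Q', Finset.univ.filter (fun k => π (ρ k) = q) = (eQ q) := by
    intro q
    obtain ⟨k₀, hk₀⟩ := hQ' q
    ext k
    rw [Finset.mem_filter]
    constructor
    · rintro ⟨_, h⟩
      rw [← h, hπρ]
      exact hp1 k
    · intro h
      refine ⟨Finset.mem_univ _, hQi ?_⟩
      rw [hπρ]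
      rw [← hk₀] at h ⊢
      exact hp3 k₀ k h
  have hfT : ∀ x : T', Finset.univ.filter (fun k => ρ k = x) =
      (eT x).1.filter (fun k => φ (eT x).1 k = (eT x).2) := by
    intro x
    obtain ⟨k₀, hk₀⟩ := hT' x
    have h1 : part k₀ = (eT x).1 := by rw [← hk₀, hρ1]
    ext k
    rw [Finset.mem_filter, Finset.mem_filter]
    constructor
    · rintro ⟨_, h⟩
      rw [← h, hρ1, hρ2]
      exact ⟨hp1 k, rfl⟩
    · rintro ⟨h2, h3⟩
      rw [← h1] at h2
      have h4 := hp3 k₀ k h2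
      refine ⟨Finset.mem_univ _, hTi (Prod.ext ?_ ?_)⟩
      · rw [hρ1, h4, h1]
      · rw [hρ2, h4, h1, h3]
  let E' : Finset T' := Finset.univ.filter (fun x => (eT x).2 < e (eT x).1)
  have hE' : ∀ x : T', x ∈ E' ↔ (eT x).2 < e (eT x).1 := fun x => by simp [E']
  have hTm : ∀ x : T', MinZS d a (eT x).1 := fun x => by rw [← hπ₀]; exact hQm (π x)
  have hbig : ∀ j ∈ E', big (Finset.univ.filter (fun k => ρ k = j)) ∧
        ¬ d ∣ ∑ k ∈ Finset.univ.filter (fun k => ρ k = j), a k := by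
    intro j hj
    rw [hfT]
    exact ((hLP (eT j).1 (hTm j)).1 _ ((hE' j).1 hj)).2
  -- counting
  have hcount : ∑ k, ω k ≤ W * (Fintype.card Q' + E'.card) := by
    have h1 : ∑ k, ω k = ∑ q : Q', ∑ k ∈ (eQ q), ω k := by
      rw [← Finset.sum_fiberwise Finset.univ (fun k => π (ρ k)) ω]
      apply Finset.sum_congr rfl
      intro q _
      rw [hfQ]
    have h2 : ∑ q : Q', ∑ k ∈ (eQ q), ω k ≤ ∑ q : Q', W * (1 + e (eQ q)) :=
      Finset.sum_le_sum (fun q _ => (hLP (eQ q) (hQm q)).2.1)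
    have h3 : ∑ q : Q', W * (1 + e (eQ q)) = W * (Fintype.card Q' + ∑ q : Q', e (eQ q)) := by
      rw [← Finset.mul_sum, Finset.sum_add_distrib, Finset.sum_const, smul_eq_mul, mul_one,
        Finset.card_univ]
    have h4 : ∑ q : Q', e (eQ q) ≤ E'.card := by
      rw [Finset.card_eq_sum_card_fiberwise (f := π) (s := E') (t := Finset.univ)
        (fun x _ => Finset.mem_univ _)]
      apply Finset.sum_le_sum
      intro q _
      rw [← Finset.card_range (e (eQ q))]
      apply Finset.card_le_card_of_surjOn (fun x : T' => (eT x).2)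
      intro l hl
      have hl' : l < e (eQ q) := by simpa using hl
      obtain ⟨k, hk⟩ := ((hLP (eQ q) (hQm q)).1 l hl').1
      rw [Finset.mem_filter] at hk
      have h6 : k ∈ Finset.univ.filter (fun k => π (ρ k) = q) := by rw [hfQ]; exact hk.1
      have h7 : part k = (eQ q) := by rw [← hπρ, (Finset.mem_filter.1 h6).2]
      have h8 : (eT (ρ k)).2 = l := by rw [hρ2, h7, hk.2]
      refine ⟨ρ k, ?_, h8⟩
      rw [Finset.mem_coe, Finset.mem_filter, hE']
      refine ⟨?_, (Finset.mem_filter.1 h6).2⟩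
      rw [h8, hρ1, h7]
      exact hl'
    calc ∑ k, ω k = ∑ q : Q', ∑ k ∈ (eQ q), ω k := h1
      _ ≤ _ := h2
      _ = _ := h3
      _ ≤ _ := Nat.mul_le_mul_left _ (Nat.add_le_add_left h4 _)
  have hcount' : R + 1 ≤ Fintype.card Q' + E'.card := by
    have h1 := lt_of_lt_of_le hsum hcount
    exact lt_of_mul_lt_mul_left h1 (Nat.zero_le W)
  refine ⟨T', Q', inferInstance, inferInstance, ρ, π, E', hT', ?_, ?_, hbig, hcount', ?_⟩
  · intro q
    obtain ⟨k, hk⟩ := hQ' q
    exact ⟨ρ k, hQi (by rw [hπρ, hk])⟩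
  · intro l
    rw [hfQ]
    exact (hQm l).2.1
  · obtain ⟨k, hk⟩ := ha
    have h1 : 1 < (part k).card := by
      by_contra hcon
      push Not at hcon
      apply hk
      have h2 := (hp2 k).2.1
      have h3 : part k = {k} := by
        ext l
        rw [Finset.mem_singleton]
        exact ⟨fun h => Finset.card_le_one.1 hcon l h k (hp1 k), fun h => h ▸ hp1 k⟩
      rwa [h3, Finset.sum_singleton] at h2
    obtain ⟨x, hx, hx2⟩ := (hLP (part k) (hp2 k)).2.2 h1
    refine ⟨ρ x, ?_⟩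
    have h3 : part x = part k := hp3 k x hx
    rw [hfT, hρ1, hρ2, h3]
    exact hx2

/-- single big blocks -/
theorem condW_single {d : ℕ} (hd : 0 < d) (big : Finset (Fin t) → Prop) (ω : Fin t → ℕ)
    (hω : ∀ k, ω k ≤ 1 ∨ (ω k ≤ d ∧ big {k})) : CondW d d big ω := by
  classical
  intro M hM hMc
  have hωd : ∀ k, ω k ≤ d := by
    intro k
    rcases hω k with h | h
    · omega
    · exact h.1
  by_cases hc : M.card ≤ 1
  · obtain ⟨x, hx⟩ := hM
    have h3 : M = {x} := by
      ext l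
      rw [Finset.mem_singleton]
      exact ⟨fun h => Finset.card_le_one.1 hc l h x hx, fun h => h ▸ hx⟩
    refine ⟨0, fun _ => 0, fun l hl => absurd hl (Nat.not_lt_zero _), ?_⟩
    rw [h3, Finset.sum_singleton, add_zero, mul_one]
    exact hωd x
  · push Not at hc
    set B := M.filter (fun k => ¬ ω k ≤ 1) with hB
    obtain ⟨eB⟩ : Nonempty (B ≃ Fin B.card) := ⟨B.equivFin⟩
    let φ : Fin t → ℕ := fun k => if h : k ∈ B then (eB ⟨k, h⟩ : ℕ) else B.card
    have hφ : ∀ l (hl : l < B.card), M.filter (fun k => φ k = l) = {(eB.symm ⟨l, hl⟩).1} := by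
      intro l hl
      ext k
      rw [Finset.mem_filter, Finset.mem_singleton]
      constructor
      · rintro ⟨hk, h⟩
        by_cases hkB : k ∈ B
        · have h1 : φ k = (eB ⟨k, hkB⟩ : ℕ) := dif_pos hkB
          have h2 : eB ⟨k, hkB⟩ = ⟨l, hl⟩ := Fin.ext (h1.symm.trans h)
          rw [← h2, Equiv.symm_apply_apply]
        · have h1 : φ k = B.card := dif_neg hkB
          omega
      · intro h
        have h1 := (eB.symm ⟨l, hl⟩).2
        rw [← h] at h1
        refine ⟨(Finset.mem_filter.1 h1).1, ?_⟩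
        have h2 : φ k = (eB ⟨k, h1⟩ : ℕ) := dif_pos h1
        rw [h2]
        have h3 : (⟨k, h1⟩ : B) = eB.symm ⟨l, hl⟩ := Subtype.ext h
        rw [h3, Equiv.apply_symm_apply]
    refine ⟨B.card, φ, ?_, ?_⟩
    · intro l hl
      rw [hφ l hl]
      have h1 := Finset.mem_filter.1 (eB.symm ⟨l, hl⟩).2
      refine ⟨Finset.singleton_nonempty _, ((hω _).resolve_left h1.2).2, ?_⟩
      intro h
      rw [← h, Finset.card_singleton] at hc
      exact lt_irrefl _ hc
    · rw [← Finset.sum_filter_add_sum_filter_not M (fun k => ω k ≤ 1) ω]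
      have h1 : ∑ k ∈ M.filter (fun k => ω k ≤ 1), ω k ≤ (M.filter (fun k => ω k ≤ 1)).card * 1 := by
        rw [← smul_eq_mul]
        exact Finset.sum_le_card_nsmul _ _ _ (fun k hk => (Finset.mem_filter.1 hk).2)
      have h2 : ∑ k ∈ M.filter (fun k => ¬ ω k ≤ 1), ω k ≤ B.card * d := by
        rw [← smul_eq_mul]
        exact Finset.sum_le_card_nsmul _ _ _ (fun k _ => hωd k)
      have h3 := Finset.card_filter_add_card_filter_not (s := M) (fun k => ω k ≤ 1)
      have h4 : d * (1 + B.card) = B.card * d + d := by ring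
      omega

/-- groups of `g` blocks -/
theorem condW_group {d g : ℕ} (hg : 0 < g) (big : Finset (Fin t) → Prop)
    (hbig : g < d → ∀ S : Finset (Fin t), S.card = g → big S) :
    CondW d g big (fun _ => 1) := by
  classical
  intro M hM hMc
  rw [Finset.sum_const, smul_eq_mul, mul_one]
  by_cases hgd : g < d
  · set j := (M.card - 1) / g with hj
    have h1 : j * g ≤ M.card - 1 := Nat.div_mul_le_self _ _
    have hMp := Finset.card_pos.2 hM
    obtain ⟨φ, hφ⟩ := group_card g j M (by omega)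
    refine ⟨j, φ, ?_, ?_⟩
    · intro l hl
      have h2 := hφ l hl
      refine ⟨Finset.card_pos.1 (by omega), hbig hgd _ h2, ?_⟩
      intro h
      rw [h] at h2
      have h3 : 1 * g ≤ j * g := Nat.mul_le_mul_right _ (by omega)
      omega
    · have h2 : M.card - 1 < g * (j + 1) := by
        have := Nat.lt_mul_div_succ (M.card - 1) hg
        exact this
      have h3 : g * (1 + j) = g * (j + 1) := by ring
      omega
  · refine ⟨0, fun _ => 0, fun l hl => absurd hl (Nat.not_lt_zero _), ?_⟩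
    omega

end plan

end Pool.Agent.Bloch
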