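import Pool.Agent.Bloch.Comb

/-! Families of weights satisfying the condition. -/

set_option linter.unusedSectionVars false

namespace Pool.Agent.Bloch

section fam
variable {t : ℕ}

open Classical in
/-- adding one group -/
noncomputable def consφ (G : Finset (Fin t)) (φ : Fin t → ℕ) (k : Fin t) : ℕ :=
  if k ∈ G then 0 else φ k + 1

open Classical in
theorem consφ_zero {U G : Finset (Fin t)} (hG : G ⊆ U) (φ : Fin t → ℕ) :
    U.filter (fun k => consφ G φ k = 0) = G := by
  ext k
  rw [Finset.mem_filter]
  unfold consφ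
  constructor
  · rintro ⟨_, h⟩
    by_contra hk
    rw [if_neg hk] at h
    exact absurd h (Nat.succ_ne_zero _)
  · intro h
    exact ⟨hG h, if_pos h⟩

open Classical in
theorem consφ_succ (U G : Finset (Fin t)) (φ : Fin t → ℕ) (l : ℕ) :
    U.filter (fun k => consφ G φ k = l + 1) = (U \ G).filter (fun k => φ k = l) := by
  ext k
  rw [Finset.mem_filter, Finset.mem_filter, Finset.mem_sdiff]
  unfold consφ
  constructor
  · rintro ⟨h1, h⟩
    by_cases hk : k ∈ G
    · rw [if_pos hk] at h
      exact absurd h (Nat.succ_ne_zero _).symm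
    · rw [if_neg hk] at h
      exact ⟨⟨h1, hk⟩, Nat.succ_injective h⟩
  · rintro ⟨⟨h1, h2⟩, h3⟩
    exact ⟨h1, by rw [if_neg h2, h3]⟩

/-- exact subset sums for divisor chains -/
theorem chain_exact {d : ℕ} (m : Fin t → ℕ) (U : Finset (Fin t)) (hpos : ∀ k ∈ U, 0 < m k)
    (hdiv : ∀ k ∈ U, m k ∣ d) (hch : ∀ k ∈ U, ∀ l ∈ U, m k ∣ m l ∨ m l ∣ m k)
    (hU : d ≤ ∑ k ∈ U, m k) : ∃ G ⊆ U, ∑ k ∈ G, m k = d := by
  classical
  let S : Finset (Finset (Fin t)) := U.powerset.filter (fun G =>
    ∑ k ∈ G, m k ≤ d ∧ ∀ k ∈ G, ∀ l ∈ U \ G, m l ∣ m k)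
  have hS : S.Nonempty := ⟨∅, Finset.mem_filter.2 ⟨Finset.empty_mem_powerset _, by simp, by simp⟩⟩
  obtain ⟨G, hG, hmax⟩ := Finset.exists_max_image S Finset.card hS
  rw [Finset.mem_filter, Finset.mem_powerset] at hG
  obtain ⟨hGU, hGd, hGt⟩ := hG
  refine ⟨G, hGU, ?_⟩
  by_contra hne
  have hlt : ∑ k ∈ G, m k < d := lt_of_le_of_ne hGd hne
  have hne' : (U \ G).Nonempty := by
    rw [Finset.nonempty_iff_ne_empty]
    intro h
    rw [Finset.sdiff_eq_empty_iff_subset] at h
    have := Finset.Subset.antisymm h hGU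
    rw [this] at hU
    omega
  obtain ⟨x, hx, hxmax⟩ := Finset.exists_max_image (U \ G) m hne'
  have hxU := (Finset.mem_sdiff.1 hx).1
  have hxG := (Finset.mem_sdiff.1 hx).2
  have h1 : m x ∣ ∑ k ∈ G, m k := Finset.dvd_sum (fun k hk => hGt k hk x hx)
  have h2 : ∑ k ∈ G, m k + m x ≤ d := by
    obtain ⟨u, hu⟩ := h1
    obtain ⟨v, hv⟩ := hdiv x hxU
    rw [hu] at hlt ⊢
    rw [hv] at hlt ⊢
    have := lt_of_mul_lt_mul_left hlt (Nat.zero_le _)
    calc m x * u + m x = m x * (u + 1) := by ring
      _ ≤ m x * v := Nat.mul_le_mul_left _ this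
  have h3 : insert x G ∈ S := by
    rw [Finset.mem_filter, Finset.mem_powerset]
    refine ⟨Finset.insert_subset hxU hGU, ?_, ?_⟩
    · rw [Finset.sum_insert hxG]; omega
    · intro k hk l hl
      rw [Finset.mem_sdiff, Finset.mem_insert] at hl
      push Not at hl
      have hlG : l ∈ U \ G := Finset.mem_sdiff.2 ⟨hl.1, hl.2.2⟩
      rcases Finset.mem_insert.1 hk with rfl | hk
      · rcases hch l hl.1 k hxU with h | h
        · exact h
        · have h4 := hxmax l hlG
          have h5 := Nat.le_of_dvd (hpos l hl.1) h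
          have h6 : m l = m k := le_antisymm h4 h5
          rw [h6]
      · exact hGt k hk l hlG
  have h4 := hmax _ h3
  rw [Finset.card_insert_of_notMem hxG] at h4
  omega

theorem chain_pack {d : ℕ} (hd : 0 < d) (m : Fin t → ℕ) : ∀ (n : ℕ) (U : Finset (Fin t)),
    U.card ≤ n → (∀ k ∈ U, 0 < m k) → (∀ k ∈ U, m k ∣ d) →
    (∀ k ∈ U, ∀ l ∈ U, m k ∣ m l ∨ m l ∣ m k) →
    ∃ (j : ℕ) (φ : Fin t → ℕ), (∀ l < j, ∑ k ∈ U.filter (fun k => φ k = l), m k = d) ∧
      ∑ k ∈ U, m k < d * (1 + j) := by
  classical
  intro n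
  induction n with
  | zero =>
    intro U hU _ _ _
    have : U = ∅ := Finset.card_eq_zero.1 (by omega)
    subst this
    exact ⟨0, fun _ => 0, fun l hl => absurd hl (Nat.not_lt_zero _), by simpa using hd⟩
  | succ n ih =>
    intro U hU hpos hdiv hch
    by_cases hlt : ∑ k ∈ U, m k < d
    · exact ⟨0, fun _ => 0, fun l hl => absurd hl (Nat.not_lt_zero _), by simpa using hlt⟩
    · push Not at hlt
      obtain ⟨G, hG, hGd⟩ := chain_exact m U hpos hdiv hch hlt
      have hGne : 0 < G.card := by
        rw [Finset.card_pos, Finset.nonempty_iff_ne_empty]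
        rintro rfl
        rw [Finset.sum_empty] at hGd
        omega
      obtain ⟨j, φ, h1, h2⟩ := ih (U \ G) (by
          rw [Finset.card_sdiff_of_subset hG]; omega)
        (fun k hk => hpos k (Finset.mem_sdiff.1 hk).1)
        (fun k hk => hdiv k (Finset.mem_sdiff.1 hk).1)
        (fun k hk l hl => hch k (Finset.mem_sdiff.1 hk).1 l (Finset.mem_sdiff.1 hl).1)
      refine ⟨j + 1, consφ G φ, ?_, ?_⟩
      · intro l hl
        cases l with
        | zero => rw [consφ_zero hG]; exact hGd
        | succ l => rw [consφ_succ]; exact h1 l (by omega)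
      · have := Finset.sum_sdiff hG (f := m)
        rw [hGd] at this
        rw [← this]
        have h3 : d * (1 + (j + 1)) = d * (1 + j) + d := by ring
        omega

/-- divisor chains, with one possible exception -/
theorem cond_chain {d : ℕ} (hd : 0 < d) (m : Fin t → ℕ) (hpos : ∀ k, 0 < m k)
    (hdiv : ∀ k, m k ∣ d ∨ m k = d + 1)
    (hone : ∀ k l, m k = d + 1 → m l = d + 1 → k = l)
    (hch : ∀ k l, m k ∣ d → m l ∣ d → (m k ∣ m l ∨ m l ∣ m k)) : Cond d m := by
  classical
  have hnd : ¬ (d + 1) ∣ d := fun h => by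
    have := Nat.le_of_dvd hd h
    omega
  intro M hM hMc
  refine ⟨?_, ?_⟩
  · by_cases hbig : ∃ x ∈ M, m x = d + 1
    · obtain ⟨x, hx, hxd⟩ := hbig
      have hdv : ∀ k ∈ M.erase x, m k ∣ d := by
        intro k hk
        rw [Finset.mem_erase] at hk
        refine (hdiv k).resolve_right ?_
        intro h
        exact hk.1 (hone k x h hxd)
      obtain ⟨j, φ, h1, h2⟩ := chain_pack hd m _ (M.erase x) le_rfl (fun k _ => hpos k) hdv
        (fun k hk l hl => hch k l (hdv k hk) (hdv l hl))
      refine ⟨j + 1, consφ {x} φ, ?_, ?_⟩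
      · intro l hl
        cases l with
        | zero =>
          rw [consφ_zero (Finset.singleton_subset_iff.2 hx), Finset.sum_singleton, hxd]
          exact Nat.le_succ d
        | succ l =>
          rw [consφ_succ, Finset.sdiff_singleton_eq_erase]
          exact (h1 l (by omega)).ge
      · rw [← Finset.add_sum_erase M m hx, hxd]
        have h3 : d * (1 + (j + 1)) = d * (1 + j) + d := by ring
        omega
    · push Not at hbig
      have hdv : ∀ k ∈ M, m k ∣ d := fun k hk => (hdiv k).resolve_right (hbig k hk)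
      obtain ⟨j, φ, h1, h2⟩ := chain_pack hd m _ M le_rfl (fun k _ => hpos k) hdv
        (fun k hk l hl => hch k l (hdv k hk) (hdv l hl))
      exact ⟨j, φ, fun l hl => (h1 l hl).ge, h2.le⟩
  · intro h1 h2
    by_cases hbig : ∃ x ∈ M, m x = d + 1
    · obtain ⟨x, hx, hxd⟩ := hbig
      by_cases hne : ∃ y ∈ M, y ≠ x
      · obtain ⟨y, hy, hyx⟩ := hne
        have h3 := h2 y hy
        have h4 : m x ≤ ∑ l ∈ M.erase y, m l :=
          Finset.single_le_sum (f := m) (fun _ _ => Nat.zero_le _)
            (Finset.mem_erase.2 ⟨hyx.symm, hx⟩)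
        omega
      · push Not at hne
        have : M = {x} := by
          ext y
          rw [Finset.mem_singleton]
          exact ⟨fun h => hne y h, fun h => h ▸ hx⟩
        rw [this, Finset.sum_singleton, hxd]
    · push Not at hbig
      have hdv : ∀ k ∈ M, m k ∣ d := fun k hk => (hdiv k).resolve_right (hbig k hk)
      obtain ⟨G, hG, hGd⟩ := chain_exact m M (fun k _ => hpos k) hdv
        (fun k hk l hl => hch k l (hdv k hk) (hdv l hl)) h1.le
      obtain ⟨x, hx, hxG⟩ : ∃ x ∈ M, x ∉ G := by
        by_contra hcon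
        push Not at hcon
        have := Finset.Subset.antisymm hG hcon
        rw [this] at hGd
        omega
      have h3 := h2 x hx
      have h4 : ∑ l ∈ G, m l ≤ ∑ l ∈ M.erase x, m l := by
        apply Finset.sum_le_sum_of_subset
        intro y hy
        rw [Finset.mem_erase]
        refine ⟨?_, hG hy⟩
        rintro rfl
        exact hxG hy
      omega

theorem peel {d : ℕ} (m : Fin t → ℕ) (R : Finset (Fin t)) (j₀ : ℕ) (φ₀ : Fin t → ℕ)
    (h₀ : ∀ l < j₀, d ≤ ∑ k ∈ R.filter (fun k => φ₀ k = l), m k) (B : Finset (Fin t))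
    (hB : ∀ k ∈ B, d ≤ m k) (hdis : Disjoint B R) : ∃ φ : Fin t → ℕ, ∀ l < B.card + j₀,
      d ≤ ∑ k ∈ (B ∪ R).filter (fun k => φ k = l), m k := by
  classical
  induction B using Finset.induction_on with
  | empty =>
    refine ⟨φ₀, ?_⟩
    rw [Finset.card_empty, zero_add, Finset.empty_union]
    exact h₀
  | insert x B hx ih =>
    rw [Finset.disjoint_insert_left] at hdis
    obtain ⟨φ, hφ⟩ := ih (fun k hk => hB k (Finset.mem_insert_of_mem hk)) hdis.2
    refine ⟨consφ {x} φ, ?_⟩
    intro l hl
    rw [Finset.card_insert_of_notMem hx] at hl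
    cases l with
    | zero =>
      rw [consφ_zero (by
        rw [Finset.singleton_subset_iff]
        exact Finset.mem_union_left _ (Finset.mem_insert_self _ _)), Finset.sum_singleton]
      exact hB x (Finset.mem_insert_self _ _)
    | succ l =>
      rw [consφ_succ]
      have h1 : (insert x B ∪ R) \ {x} = B ∪ R := by
        ext y
        rw [Finset.mem_sdiff, Finset.mem_union, Finset.mem_insert, Finset.mem_singleton,
          Finset.mem_union]
        constructor
        · rintro ⟨(h | h) | h, h'⟩
          · exact absurd h h'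
          · exact Or.inl h
          · exact Or.inr h
        · rintro (h | h)
          · exact ⟨Or.inl (Or.inr h), fun h' => hx (h' ▸ h)⟩
          · exact ⟨Or.inr h, fun h' => hdis.1 (h' ▸ h)⟩
      rw [h1]
      exact hφ l (by omega)

/-- weights at most two, `d`, and one weight `d + 1` -/
theorem cond_two {d : ℕ} (hd : 0 < d) (m : Fin t → ℕ) (hpos : ∀ k, 0 < m k)
    (hsz : ∀ k, m k ≤ 2 ∨ m k = d ∨ m k = d + 1)
    (hone : ∀ k l, m k = d + 1 → m l = d + 1 → k = l) : Cond d m := by
  classical
  intro M hM hMc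
  have hbg : ∀ k, d ≤ m k → m k = d ∨ m k = d + 1 := by
    intro k hk
    have := hpos k
    rcases hsz k with h | h | h <;> omega
  have hsm : ∀ k, ¬ d ≤ m k → m k ≤ 2 := by
    intro k hk
    rcases hsz k with h | h | h <;> omega
  set Bg := M.filter (fun k => d ≤ m k) with hBg
  set Sm := M.filter (fun k => ¬ d ≤ m k) with hSm
  have hsum : ∑ k ∈ Bg, m k + ∑ k ∈ Sm, m k = ∑ k ∈ M, m k :=
    Finset.sum_filter_add_sum_filter_not M (fun k => d ≤ m k) m
  have hcard : Bg.card + Sm.card = M.card :=
    Finset.card_filter_add_card_filter_not (fun k => d ≤ m k)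
  have hun : Bg ∪ Sm = M := Finset.filter_union_filter_not_eq _ _
  have hdis : Disjoint Bg Sm := Finset.disjoint_filter_filter_not _ _ _
  have hSm2 : ∑ k ∈ Sm, m k ≤ Sm.card * 2 := by
    rw [← smul_eq_mul]
    apply Finset.sum_le_card_nsmul
    intro k hk
    rw [hSm, Finset.mem_filter] at hk
    exact hsm k hk.2
  have hBg2 : ∑ k ∈ Bg, m k ≤ Bg.card * d + 1 := by
    by_cases hbig : ∃ x ∈ Bg, m x = d + 1
    · obtain ⟨x, hx, hxd⟩ := hbig
      rw [← Finset.add_sum_erase Bg m hx, hxd]
      have h1 : ∑ k ∈ Bg.erase x, m k ≤ (Bg.erase x).card * d := by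
        rw [← smul_eq_mul]
        apply Finset.sum_le_card_nsmul
        intro k hk
        rw [Finset.mem_erase] at hk
        rcases hbg k (Finset.mem_filter.1 hk.2).2 with h | h
        · exact h.le
        · exact absurd (hone k x h hxd) hk.1
      rw [Finset.card_erase_of_mem hx] at h1
      have h2 := Finset.card_pos.2 ⟨x, hx⟩
      obtain ⟨c, hc⟩ : ∃ c, Bg.card = c + 1 := ⟨Bg.card - 1, by omega⟩
      rw [hc, Nat.add_sub_cancel] at h1
      rw [hc]
      have : (c + 1) * d = c * d + d := by ring
      omega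
    · push Not at hbig
      have h1 : ∑ k ∈ Bg, m k ≤ Bg.card * d := by
        rw [← smul_eq_mul]
        apply Finset.sum_le_card_nsmul
        intro k hk
        rcases hbg k (Finset.mem_filter.1 hk).2 with h | h
        · exact h.le
        · exact absurd h (hbig k hk)
      omega
  have hBg0 : Bg.card = 0 → ∑ k ∈ Bg, m k = 0 := by
    intro h
    rw [Finset.card_eq_zero.1 h, Finset.sum_empty]
  refine ⟨?_, ?_⟩
  · by_cases hlt : ∑ k ∈ Sm, m k < d
    · obtain ⟨φ, hφ⟩ := peel (d := d) m Sm 0 (fun _ => 0)
        (fun l hl => absurd hl (Nat.not_lt_zero _)) Bg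
        (fun k hk => (Finset.mem_filter.1 hk).2) hdis
      refine ⟨Bg.card, φ, ?_, ?_⟩
      · rw [hun] at hφ
        exact hφ
      · have h1 : d * (1 + Bg.card) = Bg.card * d + d := by ring
        omega
    · push Not at hlt
      obtain ⟨φ, hφ⟩ := peel (d := d) m Sm 1 (fun _ => 0)
        (by
          intro l hl
          have : l = 0 := by omega
          subst this
          rw [Finset.filter_true_of_mem (fun _ _ => rfl)]
          exact hlt) Bg
        (fun k hk => (Finset.mem_filter.1 hk).2) hdis
      refine ⟨Bg.card + 1, φ, ?_, ?_⟩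
      · rw [hun] at hφ
        exact hφ
      · have h1 : d * (1 + (Bg.card + 1)) = Bg.card * d + 2 * d := by ring
        by_cases hb : Bg.card = 0
        · have := hBg0 hb
          omega
        · omega
  · intro h1 h2
    by_cases hbig : ∃ x ∈ M, d ≤ m x
    · obtain ⟨x, hx, hxd⟩ := hbig
      by_cases hne : ∃ y ∈ M, y ≠ x
      · obtain ⟨y, hy, hyx⟩ := hne
        have h3 := h2 y hy
        have h4 : m x ≤ ∑ l ∈ M.erase y, m l :=
          Finset.single_le_sum (f := m) (fun _ _ => Nat.zero_le _)
            (Finset.mem_erase.2 ⟨hyx.symm, hx⟩)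
        omega
      · push Not at hne
        have : M = {x} := by
          ext y
          rw [Finset.mem_singleton]
          exact ⟨fun h => hne y h, fun h => h ▸ hx⟩
        rw [this, Finset.sum_singleton] at h1 ⊢
        rcases hbg x hxd with h | h
        · omega
        · exact h
    · push Not at hbig
      obtain ⟨x, hx⟩ := hM
      have h3 := h2 x hx
      have h4 := Finset.add_sum_erase M m hx
      have h5 := hsm x (by have := hbig x hx; omega)
      omega

/-- weights at most three, `d` not congruent to one modulo three -/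
theorem cond_three {d : ℕ} (hd : 0 < d) (m : Fin t → ℕ) (hpos : ∀ k, 0 < m k)
    (hsz : ∀ k, m k ≤ 3) (hmod : ¬ d % 3 = 1) : Cond d m := by
  classical
  intro M hM hMc
  refine ⟨?_, ?_⟩
  · by_cases h1 : ∑ k ∈ M, m k ≤ d
    · exact ⟨0, fun _ => 0, fun l hl => absurd hl (Nat.not_lt_zero _), by simpa using h1⟩
    by_cases h2 : ∑ k ∈ M, m k ≤ 2 * d
    · refine ⟨1, fun _ => 0, ?_, by omega⟩
      intro l hl
      have : l = 0 := by omega
      subst this
      rw [Finset.filter_true_of_mem (fun _ _ => rfl)]
      omega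
    push Not at h2
    -- a subset of weight `d` or `d + 1`
    let S : Finset (Finset (Fin t)) := M.powerset.filter (fun G =>
      ∑ k ∈ G, m k ≤ d + 1 ∧ ∀ k ∈ G, ∀ l ∈ M \ G, m l ≤ m k)
    have hS : S.Nonempty :=
      ⟨∅, Finset.mem_filter.2 ⟨Finset.empty_mem_powerset _, by simp, by simp⟩⟩
    obtain ⟨G, hG, hmax⟩ := Finset.exists_max_image S Finset.card hS
    rw [Finset.mem_filter, Finset.mem_powerset] at hG
    obtain ⟨hGU, hGd, hGt⟩ := hG
    have hsd := Finset.sum_sdiff hGU (f := m)
    have hGge : d ≤ ∑ k ∈ G, m k := by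
      by_contra hcon
      push Not at hcon
      have hne' : (M \ G).Nonempty := by
        rw [Finset.nonempty_iff_ne_empty]
        intro h
        rw [h, Finset.sum_empty] at hsd
        omega
      obtain ⟨x, hx, hxmax⟩ := Finset.exists_max_image (M \ G) m hne'
      have hxU := (Finset.mem_sdiff.1 hx).1
      have hxG := (Finset.mem_sdiff.1 hx).2
      by_cases hle : ∑ k ∈ G, m k + m x ≤ d + 1
      · have h3 : insert x G ∈ S := by
          rw [Finset.mem_filter, Finset.mem_powerset]
          refine ⟨Finset.insert_subset hxU hGU, ?_, ?_⟩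
          · rw [Finset.sum_insert hxG]; omega
          · intro k hk l hl
            rw [Finset.mem_sdiff, Finset.mem_insert] at hl
            push Not at hl
            have hlG : l ∈ M \ G := Finset.mem_sdiff.2 ⟨hl.1, hl.2.2⟩
            rcases Finset.mem_insert.1 hk with rfl | hk
            · exact hxmax l hlG
            · exact hGt k hk l hlG
        have h4 := hmax _ h3
        rw [Finset.card_insert_of_notMem hxG] at h4
        omega
      · have hx3 : m x = 3 := by have := hsz x; omega
        have h5 : ∑ k ∈ G, m k = G.card * 3 := by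
          rw [← smul_eq_mul, ← Finset.sum_const]
          apply Finset.sum_congr rfl
          intro k hk
          have := hGt k hk x hx
          have := hsz k
          omega
        apply hmod
        omega
    refine ⟨2, fun k => if k ∈ G then 0 else 1, ?_, ?_⟩
    · intro l hl
      have h3 : l = 0 ∨ l = 1 := by omega
      rcases h3 with rfl | rfl
      · have h4 : M.filter (fun k => (if k ∈ G then 0 else 1) = 0) = G := by
          ext k
          rw [Finset.mem_filter]
          constructor
          · rintro ⟨_, h⟩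
            by_contra hk
            rw [if_neg hk] at h
            exact absurd h one_ne_zero
          · intro h
            exact ⟨hGU h, if_pos h⟩
        rw [h4]
        exact hGge
      · have h4 : M.filter (fun k => (if k ∈ G then 0 else 1) = 1) = M \ G := by
          ext k
          rw [Finset.mem_filter, Finset.mem_sdiff]
          constructor
          · rintro ⟨h, h'⟩
            refine ⟨h, fun hk => ?_⟩
            rw [if_pos hk] at h'
            exact absurd h' zero_ne_one
          · rintro ⟨h, h'⟩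
            exact ⟨h, if_neg h'⟩
        rw [h4]
        omega
    · have h3 : ∑ k ∈ M, m k ≤ M.card * 3 := by
        rw [← smul_eq_mul]
        exact Finset.sum_le_card_nsmul _ _ _ (fun k _ => hsz k)
      omega
  · intro h1 h2
    by_contra hne
    obtain ⟨x, hx⟩ := hM
    have h3 : ∀ k ∈ M, m k = 3 := by
      intro k hk
      have h4 := h2 k hk
      have h5 := Finset.add_sum_erase M m hk
      have h6 := hsz k
      omega
    have h4 : ∑ k ∈ M, m k = M.card * 3 := by
      rw [← smul_eq_mul, ← Finset.sum_const]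
      exact Finset.sum_congr rfl h3
    have h5 := h2 x hx
    have h6 := Finset.add_sum_erase M m hx
    have h7 := h3 x hx
    omega

/-- equal weights dividing `d + 1` -/
theorem group_card (g : ℕ) : ∀ (j : ℕ) (U : Finset (Fin t)), j * g ≤ U.card →
    ∃ φ : Fin t → ℕ, ∀ l < j, (U.filter (fun k => φ k = l)).card = g := by
  classical
  intro j
  induction j with
  | zero => intro U _; exact ⟨fun _ => 0, fun l hl => absurd hl (Nat.not_lt_zero _)⟩
  | succ j ih =>
    intro U hU
    have h0 : (j + 1) * g = j * g + g := by ring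
    obtain ⟨G, hG, hGc⟩ := Finset.exists_subset_card_eq (s := U) (n := g) (by omega)
    obtain ⟨φ, hφ⟩ := ih (U \ G) (by rw [Finset.card_sdiff_of_subset hG]; omega)
    refine ⟨consφ G φ, ?_⟩
    intro l hl
    cases l with
    | zero => rw [consφ_zero hG]; exact hGc
    | succ l => rw [consφ_succ]; exact hφ l (by omega)

theorem cond_eq {d : ℕ} (m : Fin t → ℕ) (w : ℕ) (hw : ∀ k, m k = w)
    (hdiv : w ∣ d + 1) : Cond d m := by
  classical
  obtain ⟨g, hg⟩ := hdiv
  have hw0 : 0 < w := Nat.pos_of_ne_zero (by rintro rfl; omega)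
  have hg0 : 0 < g := Nat.pos_of_ne_zero (by rintro rfl; omega)
  have hsum : ∀ U : Finset (Fin t), ∑ k ∈ U, m k = U.card * w := by
    intro U
    rw [Finset.sum_congr rfl (fun k _ => hw k), Finset.sum_const, smul_eq_mul]
  intro M hM hMc
  refine ⟨?_, ?_⟩
  · obtain ⟨φ, hφ⟩ := group_card g (M.card / g) M (Nat.div_mul_le_self _ _)
    refine ⟨M.card / g, φ, ?_, ?_⟩
    · intro l hl
      rw [hsum, hφ l hl]
      have : g * w = w * g := by ring
      omega
    · rw [hsum]
      set j := M.card / g with hj
      have h1 : M.card = g * j + M.card % g := (Nat.div_add_mod _ _).symm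
      have h2 : M.card % g < g := Nat.mod_lt _ hg0
      have h3 : j < w := by
        by_contra h
        push Not at h
        have : g * w ≤ g * j := Nat.mul_le_mul_left g h
        have h4 : g * w = w * g := by ring
        omega
      have h5 : M.card + 1 ≤ g * (j + 1) := by
        have : g * (j + 1) = g * j + g := by ring
        omega
      have h6 : (M.card + 1) * w ≤ g * (j + 1) * w := Nat.mul_le_mul_right w h5
      have h7 : g * (j + 1) * w = (w * g) * (j + 1) := by ring
      rw [h7, ← hg] at h6
      have h8 : (M.card + 1) * w = M.card * w + w := by ring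
      have h9 : (d + 1) * (j + 1) = d * (1 + j) + (j + 1) := by ring
      omega
  · intro h1 h2
    obtain ⟨x, hx⟩ := hM
    have h3 := h2 x hx
    rw [hsum, Finset.card_erase_of_mem hx] at h3
    rw [hsum] at h1 ⊢
    obtain ⟨c, hc⟩ : ∃ c, M.card = c + 1 := ⟨M.card - 1, by have := Finset.card_pos.2 ⟨x, hx⟩; omega⟩
    rw [hc, Nat.add_sub_cancel] at h3
    rw [hc] at h1 ⊢
    -- `c w < d < (c + 1) w`
    have h4 : c < g := by
      by_contra h
      push Not at h
      have : w * g ≤ w * c := Nat.mul_le_mul_left w h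
      have h5 : w * c = c * w := by ring
      omega
    have h5 : (c + 1) * w ≤ w * g := by
      have : w * (c + 1) ≤ w * g := Nat.mul_le_mul_left w h4
      have h6 : w * (c + 1) = (c + 1) * w := by ring
      omega
    omega

end fam

end Pool.Agent.Bloch
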