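import Pool.Agent.Bloch.Gen

set_option linter.unusedSectionVars false

open MvPolynomial

namespace Pool.Agent.Bloch

variable (K : Type) [Field K] (𝕜 : Type) [Field 𝕜] [CharZero 𝕜]

section cone
variable {σ : Type} [Finite σ]
variable {S : Type} [CommRing S] [Algebra K S] [Algebra.EssFiniteType K S] [IsNoetherianRing S]

/-- homogeneous primes -/
def HomP {K : Type} [Field K] {σ : Type} (p : PrimeSpectrum (MvPolynomial σ K)) : Prop :=
  ∀ f ∈ p.asIdeal, ∀ n, homogeneousComponent n f ∈ p.asIdeal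

/-- the cone over an affine chart -/
noncomputable def coneMap (x : σ → S) : MvPolynomial σ K →ₐ[K] Polynomial S :=
  aeval (fun s => Polynomial.C (x s) * Polynomial.X)

variable {K}

theorem coneMap_monomial (x : σ → S) (m : σ →₀ ℕ) (r : K) :
    coneMap K x (monomial m r) =
      Polynomial.C (aeval x (monomial m r)) * Polynomial.X ^ m.degree := by
  unfold coneMap
  rw [aeval_monomial, aeval_monomial]
  simp only [mul_pow]
  rw [Finsupp.prod_mul, map_mul, ← mul_assoc]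
  congr 1
  · congr 1
    rw [Finsupp.prod, Finsupp.prod, map_prod]
    simp
  · rw [Finsupp.prod, Finset.prod_pow_eq_pow_sum]
    rfl

theorem coneMap_coeff (x : σ → S) (f : MvPolynomial σ K) (n : ℕ) :
    (coneMap K x f).coeff n = aeval x (homogeneousComponent n f) := by
  induction f using MvPolynomial.induction_on' with
  | monomial m r =>
    rw [coneMap_monomial, homogeneousComponent_of_mem (isHomogeneous_monomial r rfl),
      Polynomial.coeff_C_mul, Polynomial.coeff_X_pow]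
    split_ifs
    · rw [mul_one]
    · rw [mul_zero, map_zero]
  | add p q hp hq => rw [map_add, Polynomial.coeff_add, hp, hq, map_add, map_add]

theorem coneMap_homog (x : σ → S) {f : MvPolynomial σ K} {n : ℕ} (hf : f.IsHomogeneous n) :
    coneMap K x f = Polynomial.C (aeval x f) * Polynomial.X ^ n := by
  ext m
  rw [coneMap_coeff, homogeneousComponent_of_mem hf, Polynomial.coeff_C_mul,
    Polynomial.coeff_X_pow]
  split_ifs
  · rw [mul_one]
  · rw [mul_zero, map_zero]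

/-- the homogeneous prime attached to a point of an affine chart -/
noncomputable def cone (x : σ → S) (Q : PrimeSpectrum S) : PrimeSpectrum (MvPolynomial σ K) :=
  ctr K (coneMap K x) (ext Q)

theorem mem_cone (x : σ → S) (Q : PrimeSpectrum S) (f : MvPolynomial σ K) :
    f ∈ (cone x Q).asIdeal ↔ ∀ n, aeval x (homogeneousComponent n f) ∈ Q.asIdeal := by
  unfold cone
  rw [mem_ctr, mem_ext]
  simp only [coneMap_coeff]

theorem mem_cone_homog (x : σ → S) (Q : PrimeSpectrum S) {f : MvPolynomial σ K} {n : ℕ}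
    (hf : f.IsHomogeneous n) : f ∈ (cone x Q).asIdeal ↔ aeval x f ∈ Q.asIdeal := by
  rw [mem_cone]
  constructor
  · intro h
    have := h n
    rwa [homogeneousComponent_eq_self hf] at this
  · intro h m
    rw [homogeneousComponent_of_mem hf]
    split_ifs
    · exact h
    · rw [map_zero]; exact Ideal.zero_mem _

theorem homP_cone (x : σ → S) (Q : PrimeSpectrum S) : HomP (K := K) (cone x Q) := by
  intro f hf n
  rw [mem_cone_homog x Q (homogeneousComponent_isHomogeneous n f)]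
  rw [mem_cone] at hf
  exact hf n

theorem ext_mem_uset (x : σ → S) (Sub : Submonoid (MvPolynomial σ K))
    (hom : ∀ u ∈ Sub, ∃ n, u.IsHomogeneous n) (Q : PrimeSpectrum S) :
    ext Q ∈ Uset K (coneMap K x) Sub ↔ ∀ u ∈ Sub, aeval x u ∉ Q.asIdeal := by
  unfold Uset
  refine forall₂_congr (fun u hu => ?_)
  obtain ⟨n, hn⟩ := hom u hu
  rw [not_iff_not, ← mem_ctr, ← mem_cone_homog x Q hn]
  rfl

/-- every element of the chart is a quotient of homogeneous elements of the same degree -/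
def Frac0 (x : σ → S) (Sub : Submonoid (MvPolynomial σ K)) : Prop :=
  ∀ t : S, ∃ n, ∃ u ∈ Sub, ∃ a : MvPolynomial σ K, u.IsHomogeneous n ∧ a.IsHomogeneous n ∧
    t * aeval x u = aeval x a

theorem frac_cone {x : σ → S} {Sub : Submonoid (MvPolynomial σ K)} (h : Frac0 x Sub)
    {x₀ : MvPolynomial σ K} (hx₀ : x₀.IsHomogeneous 1) (hx₁ : aeval x x₀ = 1) :
    Frac K (coneMap K x) Sub := by
  intro t
  have hX : coneMap K x x₀ = Polynomial.X := by
    rw [coneMap_homog x hx₀, hx₁, map_one, one_mul, pow_one]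
  induction t using Polynomial.induction_on' with
  | add s t hs ht =>
    obtain ⟨u, hu, a, h1⟩ := hs
    obtain ⟨v, hv, b, h2⟩ := ht
    refine ⟨u * v, Sub.mul_mem hu hv, a * v + b * u, ?_⟩
    rw [map_mul, map_add, map_mul, map_mul, ← h1, ← h2]; ring
  | monomial n t =>
    obtain ⟨m, u, hu, a, h1, h2, h3⟩ := h t
    refine ⟨u, hu, a * x₀ ^ n, ?_⟩
    rw [map_mul, map_pow, hX, coneMap_homog x h1, coneMap_homog x h2, ← h3,
      ← Polynomial.C_mul_X_pow_eq_monomial, map_mul]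
    ring

end cone

section rel
variable {σ : Type} [Finite σ]

/-- subvarieties of the projective scheme given by `Z`, by dimension of the cone -/
def VH {K : Type} [Field K] {σ : Type} (Z : Set (PrimeSpectrum (MvPolynomial σ K))) (k : ℕ) :
    Type :=
  {p : PrimeSpectrum (MvPolynomial σ K) // HomP p ∧ p ∈ Z ∧ dl K p = k}

/-- restriction of cycles to homogeneous primes -/
noncomputable def res {K : Type} [Field K] (Z : Set (PrimeSpectrum (MvPolynomial σ K))) (k : ℕ) :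
    (PrimeSpectrum (MvPolynomial σ K) →₀ 𝕜) →ₗ[𝕜] (VH Z k →₀ 𝕜) :=
  Finsupp.lcomapDomain Subtype.val Subtype.val_injective

variable {K}
variable (Z : Set (PrimeSpectrum (MvPolynomial σ K)))

theorem res_apply (k : ℕ) (z : PrimeSpectrum (MvPolynomial σ K) →₀ 𝕜) (V : VH Z k) :
    res 𝕜 Z k z V = z V.1 := rfl

theorem res_single (k : ℕ) (V : VH Z k) (c : 𝕜) :
    res 𝕜 Z k (Finsupp.single V.1 c) = Finsupp.single V c := by
  classical
  ext W
  rw [res_apply, Finsupp.single_apply, Finsupp.single_apply]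
  congr 1
  rw [eq_iff_iff]
  exact ⟨fun h => Subtype.ext h, fun h => by rw [h]⟩

theorem res_single_of_not (k : ℕ) (p : PrimeSpectrum (MvPolynomial σ K))
    (hp : ¬ (HomP p ∧ p ∈ Z ∧ dl K p = k)) (c : 𝕜) :
    res 𝕜 Z k (Finsupp.single p c) = 0 := by
  classical
  ext W
  rw [res_apply, Finsupp.single_apply, if_neg]
  · rfl
  · rintro rfl
    exact hp W.2

/-- rational equivalence on the projective scheme given by `Z` -/
noncomputable def RelH (k : ℕ) : Submodule 𝕜 (VH Z k →₀ 𝕜) :=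
  Submodule.span 𝕜 {z | ∃ (W : VH Z (k + 1)) (n : ℕ) (f g : MvPolynomial σ K),
    f.IsHomogeneous n ∧ g.IsHomogeneous n ∧ f ∉ W.1.asIdeal ∧ g ∉ W.1.asIdeal ∧
    z = res 𝕜 Z k (divCyc K 𝕜 k W.1 f - divCyc K 𝕜 k W.1 g)}

theorem res_span_le (k : ℕ) (B : Set (PrimeSpectrum (MvPolynomial σ K)))
    {z : PrimeSpectrum (MvPolynomial σ K) →₀ 𝕜}
    (hz : z ∈ Submodule.span 𝕜 {w : PrimeSpectrum (MvPolynomial σ K) →₀ 𝕜 |
      ∃ p ∈ B, w = Finsupp.single p 1}) :
    res 𝕜 Z k z ∈ Submodule.span 𝕜 {w : VH Z k →₀ 𝕜 | ∃ V : VH Z k, V.1 ∈ B ∧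
      w = Finsupp.single V 1} := by
  induction hz using Submodule.span_induction with
  | mem z hz =>
    obtain ⟨p, hp, rfl⟩ := hz
    by_cases h : HomP p ∧ p ∈ Z ∧ dl K p = k
    · apply Submodule.subset_span
      exact ⟨⟨p, h⟩, hp, res_single 𝕜 Z k ⟨p, h⟩ 1⟩
    · rw [res_single_of_not 𝕜 Z k p h]
      exact Submodule.zero_mem _
  | zero => rw [map_zero]; exact Submodule.zero_mem _
  | add x y _ _ hx hy => rw [map_add]; exact Submodule.add_mem _ hx hy
  | smul c x _ hx => rw [map_smul]; exact Submodule.smul_mem _ _ hx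

end rel

section chart
variable {K}
variable {σ : Type} [Finite σ]
variable {S : Type} [CommRing S] [Algebra K S] [Algebra.EssFiniteType K S] [IsNoetherianRing S]
variable {L : Type} [CommRing L] [Algebra K L] [Algebra.EssFiniteType K L] [IsNoetherianRing L]
variable [Algebra L S] [IsScalarTower K L S] [Module.Flat L S]

/-- the cycle map from the affine chart to the projective scheme -/
noncomputable def toProj (x : σ → S) (Sub : Submonoid (MvPolynomial σ K))
    (Z : Set (PrimeSpectrum (MvPolynomial σ K))) (k : ℕ) :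
    (PrimeSpectrum S →₀ 𝕜) →ₗ[𝕜] (VH Z k →₀ 𝕜) :=
  res 𝕜 Z k ∘ₗ push K 𝕜 (coneMap K x) Sub ∘ₗ pull K 𝕜 (Polynomial S) 1

theorem toProj_single (x : σ → S) (Sub : Submonoid (MvPolynomial σ K))
    (hom : ∀ u ∈ Sub, ∃ n, u.IsHomogeneous n)
    (Z : Set (PrimeSpectrum (MvPolynomial σ K))) (k : ℕ) (Q : PrimeSpectrum S)
    (hQ : ∀ u ∈ Sub, aeval x u ∉ Q.asIdeal) (V : VH Z k) (hV : V.1 = cone x Q) :
    toProj 𝕜 x Sub Z k (Finsupp.single Q 1) = Finsupp.single V 1 := by
  unfold toProj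
  rw [LinearMap.comp_apply, LinearMap.comp_apply, pull_poly, push_single, ← res_single, hV]
  · rfl
  · rw [ext_mem_uset x Sub hom]; exact hQ

theorem toProj_single_of_not (x : σ → S) (Sub : Submonoid (MvPolynomial σ K))
    (hom : ∀ u ∈ Sub, ∃ n, u.IsHomogeneous n)
    (Z : Set (PrimeSpectrum (MvPolynomial σ K))) (k : ℕ) (Q : PrimeSpectrum S)
    (hQ : ¬ ∀ u ∈ Sub, aeval x u ∉ Q.asIdeal) :
    toProj 𝕜 x Sub Z k (Finsupp.single Q 1) = 0 := by
  unfold toProj
  rw [LinearMap.comp_apply, LinearMap.comp_apply, pull_poly, push_single_of_not, map_zero]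
  rw [ext_mem_uset x Sub hom]; exact hQ

/-- The image of a principal divisor of the chart. -/
theorem toProj_div {x : σ → S} {Sub : Submonoid (MvPolynomial σ K)}
    (hom : ∀ u ∈ Sub, ∃ n, u.IsHomogeneous n) (hF0 : Frac0 x Sub)
    (hF : Frac K (coneMap K x) Sub)
    {Z : Set (PrimeSpectrum (MvPolynomial σ K))} {k : ℕ} {q : PrimeSpectrum S}
    (hq : cone x q ∈ Z) (hd : dl K q = k + 1) {t : S} (ht : t ∉ q.asIdeal) :
    toProj 𝕜 x Sub Z (k + 1) (divCyc K 𝕜 k q t) ∈ RelH 𝕜 Z (k + 1) ⊔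
      Submodule.span 𝕜 {w : VH Z (k + 1) →₀ 𝕜 | ∃ V : VH Z (k + 1),
        V.1 ∈ {p : PrimeSpectrum (MvPolynomial σ K) | cone x q ≤ p ∧ ∃ v ∈ Sub, v ∈ p.asIdeal} ∧
        w = Finsupp.single V 1} := by
  have h1 := pull_divCyc K 𝕜 (Polynomial S) (rho_poly K) q hd t ht
  have key : ∀ z ∈ Submodule.span 𝕜 {z : PrimeSpectrum (Polynomial S) →₀ 𝕜 |
      ∃ Q : PrimeSpectrum (Polynomial S), q ≤ ct K Q ∧
        dl K Q = k + 1 + 1 ∧ z = divCyc K 𝕜 (k + 1) Q (algebraMap S (Polynomial S) t)},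
      res 𝕜 Z (k + 1) (push K 𝕜 (coneMap K x) Sub z) ∈ RelH 𝕜 Z (k + 1) ⊔
      Submodule.span 𝕜 {w : VH Z (k + 1) →₀ 𝕜 | ∃ V : VH Z (k + 1),
        V.1 ∈ {p : PrimeSpectrum (MvPolynomial σ K) | cone x q ≤ p ∧ ∃ v ∈ Sub, v ∈ p.asIdeal} ∧
        w = Finsupp.single V 1} := by
    intro z hz
    induction hz using Submodule.span_induction with
    | mem z hz =>
      obtain ⟨Q, hQ1, hQ2, rfl⟩ := hz
      have hcQ : q = ct K Q := by
        have := rho_poly K Q
        exact eq_of_le_of_dl K hQ1 (by omega)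
      have hQe : ext q = Q := by
        refine eq_of_le_of_dl K ?_ (by rw [dl_ext]; omega)
        rw [hcQ]
        exact ext_ctr_le K Q
      subst hQe
      have ht' : algebraMap S (Polynomial S) t ∉ (ext q).asIdeal := by
        intro h
        apply ht
        have : t ∈ (ctr K (polyC K S) (ext q)).asIdeal := h
        rwa [ctr_ext] at this
      by_cases hU : ext q ∈ Uset K (coneMap K x) Sub
      · obtain ⟨n, u, hu, a, hun, han, hta⟩ := hF0 t
        have hΘ : algebraMap S (Polynomial S) t * coneMap K x u = coneMap K x a := by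
          rw [coneMap_homog x hun, coneMap_homog x han, ← hta, Polynomial.algebraMap_eq, map_mul,
            mul_assoc]
        have h2 := transfer_div K 𝕜 hF hU hQ2 ht' hu hΘ
        have hdc : dl K (cone (K := K) x q) = k + 1 + 1 := by
          unfold cone; rw [dl_uset hF hU, hQ2]
        have huc : u ∉ (cone x q).asIdeal := hU u hu
        have hac : a ∉ (cone x q).asIdeal := by
          unfold cone
          rw [mem_ctr, ← hΘ]
          intro h
          rcases (ext q).2.mem_or_mem h with h | h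
          · exact ht' h
          · exact hU u hu h
        have h3 : divCyc K 𝕜 (k + 1) (cone x q) u ∈ Submodule.span 𝕜
            {w : PrimeSpectrum (MvPolynomial σ K) →₀ 𝕜 |
              ∃ p ∈ {p : PrimeSpectrum (MvPolynomial σ K) | cone x q ≤ p ∧
                ∃ v ∈ Sub, v ∈ p.asIdeal}, w = Finsupp.single p 1} := by
          apply finsupp_mem_span
          intro p hp
          rw [divCyc_ne_zero_iff K 𝕜 hdc huc] at hp
          exact ⟨hp.2.1, u, hu, hp.2.2⟩
        have h4 : push K 𝕜 (coneMap K x) Sub (divCyc K 𝕜 (k + 1) (ext q)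
            (algebraMap S (Polynomial S) t)) - divCyc K 𝕜 (k + 1) (cone x q) a ∈ Submodule.span 𝕜
            {w : PrimeSpectrum (MvPolynomial σ K) →₀ 𝕜 |
              ∃ p ∈ {p : PrimeSpectrum (MvPolynomial σ K) | cone x q ≤ p ∧
                ∃ v ∈ Sub, v ∈ p.asIdeal}, w = Finsupp.single p 1} := by
          refine Submodule.span_mono ?_ h2
          rintro w ⟨p, ⟨_, g2, _, g4⟩, rfl⟩
          exact ⟨p, ⟨g2, g4⟩, rfl⟩
        have h5 := res_span_le 𝕜 Z (k + 1) _ (Submodule.add_mem _ h4 h3)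
        have h6 : res 𝕜 Z (k + 1) (divCyc K 𝕜 (k + 1) (cone x q) a -
            divCyc K 𝕜 (k + 1) (cone x q) u) ∈ RelH 𝕜 Z (k + 1) :=
          Submodule.subset_span ⟨⟨cone x q, homP_cone x q, hq, hdc⟩, n, a, u, han, hun, hac, huc,
            rfl⟩
        have h7 : res 𝕜 Z (k + 1) (push K 𝕜 (coneMap K x) Sub (divCyc K 𝕜 (k + 1) (ext q)
            (algebraMap S (Polynomial S) t))) =
            res 𝕜 Z (k + 1) (divCyc K 𝕜 (k + 1) (cone x q) a -
            divCyc K 𝕜 (k + 1) (cone x q) u) +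
            res 𝕜 Z (k + 1) (push K 𝕜 (coneMap K x) Sub (divCyc K 𝕜 (k + 1) (ext q)
            (algebraMap S (Polynomial S) t)) - divCyc K 𝕜 (k + 1) (cone x q) a +
            divCyc K 𝕜 (k + 1) (cone x q) u) := by
          rw [← map_add]; congr 1; abel
        rw [h7]
        exact Submodule.add_mem_sup h6 h5
      · rw [push_div_of_not K 𝕜 hU hQ2 ht', map_zero]
        exact Submodule.zero_mem _
    | zero => rw [map_zero, map_zero]; exact Submodule.zero_mem _
    | add x y _ _ hx hy => rw [map_add, map_add]; exact Submodule.add_mem _ hx hy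
    | smul c x _ hx => rw [map_smul, map_smul]; exact Submodule.smul_mem _ _ hx
  exact key _ h1

/-- The chart theorem. -/
theorem chart {x : σ → S} {Sub : Submonoid (MvPolynomial σ K)}
    (hom : ∀ u ∈ Sub, ∃ n, u.IsHomogeneous n) (hF0 : Frac0 x Sub)
    {x₀ : MvPolynomial σ K} (hx₀ : x₀.IsHomogeneous 1) (hx₁ : aeval x x₀ = 1)
    (hint : ∀ Q : PrimeSpectrum S, dl K (ct K (A := L) Q) = dl K Q)
    {Z : Set (PrimeSpectrum (MvPolynomial σ K))} {ZL : Set (PrimeSpectrum L)}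
    (hZ : ∀ Q : PrimeSpectrum S, ct K Q ∈ ZL → cone x Q ∈ Z)
    {i : ℕ} (hvan : Van K 𝕜 i ZL) (N : Submodule 𝕜 (VH Z (i + 1) →₀ 𝕜))
    (hN : RelH 𝕜 Z (i + 1) ≤ N) (V : VH Z (i + 1)) (Q₀ : PrimeSpectrum S)
    (hV : V.1 = cone x Q₀) (hQ₀ : ∀ u ∈ Sub, aeval x u ∉ Q₀.asIdeal) (hQ₀Z : ct K Q₀ ∈ ZL)
    (hconj : ∀ Q : PrimeSpectrum S, ct K (A := L) Q = ct K Q₀ → ∀ V' : VH Z (i + 1),
      V'.1 = cone x Q → Finsupp.single V' 1 - Finsupp.single V 1 ∈ N) :
    Finsupp.single V 1 ∈ N ⊔ Submodule.span 𝕜 {w : VH Z (i + 1) →₀ 𝕜 | ∃ V' : VH Z (i + 1),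
      ((∃ Q : PrimeSpectrum S, cone x Q ≤ V'.1) ∧ ∃ v ∈ Sub, v ∈ V'.1.asIdeal) ∧
        w = Finsupp.single V' 1} := by
  classical
  set Bad := Submodule.span 𝕜 {w : VH Z (i + 1) →₀ 𝕜 | ∃ V' : VH Z (i + 1),
      ((∃ Q : PrimeSpectrum S, cone x Q ≤ V'.1) ∧ ∃ v ∈ Sub, v ∈ V'.1.asIdeal) ∧
        w = Finsupp.single V' 1} with hBad
  have hF : Frac K (coneMap K x) Sub := frac_cone hF0 hx₀ hx₁
  have hU₀ : ext Q₀ ∈ Uset K (coneMap K x) Sub := (ext_mem_uset x Sub hom Q₀).2 hQ₀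
  have hd₀ : dl K Q₀ = i := by
    have h1 : dl K (cone (K := K) x Q₀) = dl K (ext Q₀) := dl_uset hF hU₀
    rw [← hV, V.2.2.2, dl_ext] at h1
    omega
  have hρ : ∀ P : PrimeSpectrum S, dl K P ≤ dl K (ct K (A := L) P) + 0 := fun P => by
    rw [hint]; omega
  have hdp : dl K (ct K (A := L) Q₀) = i := by rw [hint, hd₀]
  have h1 : Finsupp.single (ct K (A := L) Q₀) 1 ∈ Rel K 𝕜 i ZL := hvan _ hQ₀Z hdp
  have h2 := pull_rel K 𝕜 S hρ h1
  rw [add_zero] at h2
  set z := pull K 𝕜 S 0 (Finsupp.single (ct K (A := L) Q₀) (1 : 𝕜)) with hz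
  -- the image of `z` is in `N ⊔ Bad`
  have h3 : toProj 𝕜 x Sub Z (i + 1) z ∈ N ⊔ Bad := by
    have : ∀ z ∈ Rel K 𝕜 i {P : PrimeSpectrum S | ct K P ∈ ZL},
        toProj 𝕜 x Sub Z (i + 1) z ∈ N ⊔ Bad := by
      intro z hz
      unfold Rel at hz
      induction hz using Submodule.span_induction with
      | mem z hz =>
        obtain ⟨q, hq, t, hqd, hqt, rfl⟩ := hz
        refine (sup_le_sup hN ?_ : _ ⊔ _ ≤ N ⊔ Bad)
          (toProj_div 𝕜 hom hF0 hF (hZ q hq) hqd hqt)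
        rw [hBad]
        apply Submodule.span_mono
        rintro w ⟨V', ⟨g1, g2⟩, rfl⟩
        exact ⟨V', ⟨⟨q, g1⟩, g2⟩, rfl⟩
      | zero => rw [map_zero]; exact Submodule.zero_mem _
      | add x y _ _ hx hy => rw [map_add]; exact Submodule.add_mem _ hx hy
      | smul c x _ hx => rw [map_smul]; exact Submodule.smul_mem _ _ hx
    exact this z h2
  -- the values of `z`
  have hzv : z = cyc K 𝕜 (R := S) i (S ⧸ (ct K (A := L) Q₀).asIdeal.map (algebraMap L S)) := by
    rw [hz, pull_single, one_smul, hdp, add_zero]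
  have hsup : ∀ Q : PrimeSpectrum S,
      Q ∈ Module.support S (S ⧸ (ct K (A := L) Q₀).asIdeal.map (algebraMap L S)) ↔
        ct K Q₀ ≤ ct K (A := L) Q := by
    intro Q
    rw [support_quot]
    exact Ideal.map_le_iff_le_comap
  have hbd : Bd K (R := S) i (S ⧸ (ct K (A := L) Q₀).asIdeal.map (algebraMap L S)) := by
    refine ⟨inferInstance, fun Q hQ => ?_⟩
    rw [hsup] at hQ
    have := dl_le K hQ
    rw [hdp, hint] at this
    exact this
  let nn : PrimeSpectrum S → ℕ := fun Q =>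
    if dl K Q = i then
      (len Q (S ⧸ (ct K (A := L) Q₀).asIdeal.map (algebraMap L S))).toNat else 0
  have hznn : ∀ Q, z Q = (nn Q : 𝕜) := by
    intro Q
    rw [hzv, cyc_apply K 𝕜 hbd]
    change _ = ((if dl K Q = i then _ else 0 : ℕ) : 𝕜)
    split_ifs
    · rfl
    · simp
  have hzQ : ∀ Q, z Q ≠ 0 → dl K Q = i ∧ ct K Q = ct K (A := L) Q₀ := by
    intro Q hQ
    rw [hznn, Nat.cast_ne_zero] at hQ
    have hdQ : dl K Q = i := by
      by_contra h
      exact hQ (if_neg h)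
    refine ⟨hdQ, ?_⟩
    have hQ' : (len Q (S ⧸ (ct K (A := L) Q₀).asIdeal.map (algebraMap L S))).toNat ≠ 0 := by
      have : nn Q = _ := if_pos hdQ
      rwa [this] at hQ
    have hQs : Q ∈ Module.support S (S ⧸ (ct K (A := L) Q₀).asIdeal.map (algebraMap L S)) := by
      rw [← len_pos_iff, pos_iff_ne_zero]
      intro h0; rw [h0] at hQ'; exact hQ' rfl
    rw [hsup] at hQs
    symm
    exact eq_of_le_of_dl K hQs (by rw [hdp, hint, hdQ])
  have hz0 : nn Q₀ ≠ 0 := by
    have h4 : nn Q₀ = _ := if_pos hd₀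
    rw [h4]
    have h5 := bd_len K hbd Q₀ hd₀
    have h6 : 0 < len Q₀ (S ⧸ (ct K (A := L) Q₀).asIdeal.map (algebraMap L S)) := by
      rw [len_pos_iff, hsup]
    intro h7
    rw [ENat.toNat_eq_zero] at h7
    rcases h7 with h7 | h7
    · rw [h7] at h6; exact lt_irrefl _ h6
    · exact h5 h7
  let cc : PrimeSpectrum S → ℕ := fun Q => if ∀ u ∈ Sub, aeval x u ∉ Q.asIdeal then 1 else 0
  have hcc : ∀ Q, dl K Q = i → ct K Q = ct K (A := L) Q₀ →
      toProj 𝕜 x Sub Z (i + 1) (Finsupp.single Q 1) - (cc Q : 𝕜) • Finsupp.single V 1 ∈ N := by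
    intro Q hdQ hcQ
    by_cases hQ : ∀ u ∈ Sub, aeval x u ∉ Q.asIdeal
    · have hUQ : ext Q ∈ Uset K (coneMap K x) Sub := (ext_mem_uset x Sub hom Q).2 hQ
      let V' : VH Z (i + 1) := ⟨cone x Q, homP_cone x Q, hZ Q (by rw [hcQ]; exact hQ₀Z), by
        have h1 : dl K (cone (K := K) x Q) = dl K (ext Q) := dl_uset hF hUQ
        rw [h1, dl_ext, hdQ]⟩
      rw [toProj_single 𝕜 x Sub hom Z (i + 1) Q hQ V' rfl]
      have : cc Q = 1 := if_pos hQ
      rw [this, Nat.cast_one, one_smul]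
      exact hconj Q hcQ V' rfl
    · rw [toProj_single_of_not 𝕜 x Sub hom Z (i + 1) Q hQ]
      have : cc Q = 0 := if_neg hQ
      rw [this, Nat.cast_zero, zero_smul, sub_zero]
      exact Submodule.zero_mem _
  have hsum : toProj 𝕜 x Sub Z (i + 1) z -
      ((∑ Q ∈ z.support, nn Q * cc Q : ℕ) : 𝕜) • Finsupp.single V 1 ∈ N := by
    have e1 : toProj 𝕜 x Sub Z (i + 1) z =
        ∑ Q ∈ z.support, (nn Q : 𝕜) • toProj 𝕜 x Sub Z (i + 1) (Finsupp.single Q 1) := by
      conv_lhs => rw [← Finsupp.sum_single z]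
      rw [Finsupp.sum, map_sum]
      apply Finset.sum_congr rfl
      intro Q _
      rw [← map_smul, Finsupp.smul_single, smul_eq_mul, mul_one, hznn]
    rw [e1, Nat.cast_sum, Finset.sum_smul, ← Finset.sum_sub_distrib]
    apply Submodule.sum_mem
    intro Q hQ
    rw [Finsupp.mem_support_iff] at hQ
    obtain ⟨g1, g2⟩ := hzQ Q hQ
    rw [Nat.cast_mul, mul_smul, ← smul_sub]
    exact Submodule.smul_mem _ _ (hcc Q g1 g2)
  have hpos : ((∑ Q ∈ z.support, nn Q * cc Q : ℕ) : 𝕜) ≠ 0 := by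
    rw [Nat.cast_ne_zero]
    have hQ0s : Q₀ ∈ z.support := by
      rw [Finsupp.mem_support_iff, hznn, Nat.cast_ne_zero]; exact hz0
    have : 0 < ∑ Q ∈ z.support, nn Q * cc Q := by
      refine Finset.sum_pos' (fun _ _ => Nat.zero_le _) ⟨Q₀, hQ0s, ?_⟩
      have : cc Q₀ = 1 := if_pos hQ₀
      rw [this, mul_one]
      exact Nat.pos_of_ne_zero hz0
    omega
  have h8 : ((∑ Q ∈ z.support, nn Q * cc Q : ℕ) : 𝕜) • Finsupp.single V (1 : 𝕜) ∈ N ⊔ Bad := by
    have : ((∑ Q ∈ z.support, nn Q * cc Q : ℕ) : 𝕜) • Finsupp.single V (1 : 𝕜) =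
      toProj 𝕜 x Sub Z (i + 1) z - (toProj 𝕜 x Sub Z (i + 1) z -
      ((∑ Q ∈ z.support, nn Q * cc Q : ℕ) : 𝕜) • Finsupp.single V 1) := by abel
    rw [this]
    exact Submodule.sub_mem _ h3 (Submodule.mem_sup_left hsum)
  have h9 := Submodule.smul_mem _ ((∑ Q ∈ z.support, nn Q * cc Q : ℕ) : 𝕜)⁻¹ h8
  rwa [smul_smul, inv_mul_cancel₀ hpos, one_smul] at h9

end chart

end Pool.Agent.Bloch
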