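import Pool.Agent.Bloch.Loc

set_option linter.unusedSectionVars false

open MvPolynomial

namespace Pool.Agent.Bloch

section eq
variable (K : Type) [Field K]
variable {A B : Type} [CommRing A] [CommRing B] [Algebra K A] [Algebra K B]

theorem dl_ctr_equiv (e : A ≃ₐ[K] B) (Q : PrimeSpectrum B) :
    dl K (ctr K (e : A →ₐ[K] B) Q) = dl K Q := by
  apply dl_ctr_eq_of_frac
  intro b
  refine ⟨1, e.symm b, ?_, ?_⟩
  · rw [map_one, mul_one]
    exact (e.apply_symm_apply b).symm
  · rw [map_one]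
    intro h
    exact Q.2.ne_top ((Ideal.eq_top_iff_one _).2 h)

theorem ctr_ctr_symm (e : A ≃ₐ[K] B) (Q : PrimeSpectrum B) :
    ctr K (e.symm : B →ₐ[K] A) (ctr K (e : A →ₐ[K] B) Q) = Q := by
  apply PrimeSpectrum.ext
  ext b
  rw [mem_ctr, mem_ctr]
  change e (e.symm b) ∈ Q.asIdeal ↔ _
  rw [e.apply_symm_apply]

theorem ctr_symm_ctr (e : A ≃ₐ[K] B) (Q : PrimeSpectrum A) :
    ctr K (e : A →ₐ[K] B) (ctr K (e.symm : B →ₐ[K] A) Q) = Q := by
  apply PrimeSpectrum.ext
  ext b
  rw [mem_ctr, mem_ctr]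
  change e.symm (e b) ∈ Q.asIdeal ↔ _
  rw [e.symm_apply_apply]

end eq

section split
variable {K : Type} [Field K] {τ : Type}

open Classical in
/-- polynomials as polynomials in one of the variables -/
noncomputable def splitE (K : Type) [Field K] {τ : Type} (s₀ : τ) :
    MvPolynomial τ K ≃ₐ[K] Polynomial (MvPolynomial {s : τ // s ≠ s₀} K) :=
  (renameEquiv K (Equiv.optionSubtypeNe s₀).symm).trans (optionEquivLeft K _)

theorem splitE_X (s₀ : τ) : splitE K s₀ (X s₀) = Polynomial.X := by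
  classical
  unfold splitE
  rw [AlgEquiv.trans_apply, renameEquiv_apply, rename_X, Equiv.optionSubtypeNe_symm_self,
    optionEquivLeft_X_none]

theorem splitE_rename (s₀ : τ) (g : MvPolynomial {s : τ // s ≠ s₀} K) :
    splitE K s₀ (rename Subtype.val g) = Polynomial.C g := by
  classical
  have h : ((splitE K s₀ : MvPolynomial τ K →ₐ[K] Polynomial (MvPolynomial {s : τ // s ≠ s₀} K)).comp
      (rename Subtype.val)) = Polynomial.CAlgHom := by
    apply MvPolynomial.algHom_ext
    intro s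
    rw [AlgHom.comp_apply, rename_X]
    change splitE K s₀ (X s.1) = Polynomial.C (X s)
    unfold splitE
    rw [AlgEquiv.trans_apply, renameEquiv_apply, rename_X,
      Equiv.optionSubtypeNe_symm_of_ne s.2, optionEquivLeft_X_some]
  exact DFunLike.congr_fun h g

theorem splitE_symm_C (s₀ : τ) (g : MvPolynomial {s : τ // s ≠ s₀} K) :
    (splitE K s₀).symm (Polynomial.C g) = rename Subtype.val g := by
  rw [← splitE_rename, AlgEquiv.symm_apply_apply]

theorem splitE_symm_X (s₀ : τ) : (splitE K s₀).symm Polynomial.X = X s₀ := by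
  rw [← splitE_X, AlgEquiv.symm_apply_apply]

variable [Finite τ]

theorem hc_mul' (f g : MvPolynomial τ K) {N : ℕ} (hg : g.IsHomogeneous N) (n : ℕ) :
    homogeneousComponent n (f * g) =
      if N ≤ n then homogeneousComponent (n - N) f * g else 0 := by
  have h1 := coneMap_coeff (X : τ → MvPolynomial τ K) (f * g) n
  rw [map_mul, coneMap_homog X hg, aeval_X_left, AlgHom.coe_id, id_eq, id_eq, ← mul_assoc,
    Polynomial.coeff_mul_X_pow'] at h1
  rw [← h1]
  split_ifs
  · rw [Polynomial.coeff_mul_C, coneMap_coeff, aeval_X_left, AlgHom.coe_id, id_eq]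
  · rfl

theorem split_hc (s₀ : τ) (p : Polynomial (MvPolynomial {s : τ // s ≠ s₀} K)) (n l : ℕ) :
    (splitE K s₀ (homogeneousComponent n ((splitE K s₀).symm p))).coeff l =
      if l ≤ n then homogeneousComponent (n - l) (p.coeff l) else 0 := by
  induction p using Polynomial.induction_on' with
  | add p q hp hq =>
    rw [map_add, map_add, map_add, Polynomial.coeff_add, hp, hq, Polynomial.coeff_add]
    split_ifs
    · rw [map_add]
    · rw [add_zero]
  | monomial m a =>
    rw [← Polynomial.C_mul_X_pow_eq_monomial, map_mul, map_pow, splitE_symm_C, splitE_symm_X,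
      hc_mul' _ _ (isHomogeneous_X_pow s₀ m)]
    by_cases hmn : m ≤ n
    · rw [if_pos hmn, map_mul, map_pow, splitE_X, ← rename_homogeneousComponent, splitE_rename,
        Polynomial.coeff_C_mul, Polynomial.coeff_C_mul, Polynomial.coeff_X_pow]
      by_cases hlm : l = m
      · subst hlm
        rw [if_pos rfl, if_pos hmn, mul_one, mul_one]
      · rw [if_neg hlm, mul_zero, mul_zero, map_zero, ite_self]
    · rw [if_neg hmn, map_zero, Polynomial.coeff_zero, Polynomial.coeff_C_mul,
        Polynomial.coeff_X_pow]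
      by_cases hlm : l = m
      · subst hlm
        rw [if_neg hmn]
      · rw [if_neg hlm, mul_zero, map_zero, ite_self]

/-- the contraction to the polynomial ring in the other variables -/
noncomputable def dn (s₀ : τ) (Q : PrimeSpectrum (MvPolynomial τ K)) :
    PrimeSpectrum (MvPolynomial {s : τ // s ≠ s₀} K) :=
  ctr K (rename Subtype.val) Q

/-- the extension of a prime from the polynomial ring in the other variables -/
noncomputable def up (s₀ : τ) (q : PrimeSpectrum (MvPolynomial {s : τ // s ≠ s₀} K)) :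
    PrimeSpectrum (MvPolynomial τ K) :=
  ctr K (splitE K s₀ : MvPolynomial τ K →ₐ[K] _) (ext q)

theorem mem_up (s₀ : τ) (q : PrimeSpectrum (MvPolynomial {s : τ // s ≠ s₀} K))
    (f : MvPolynomial τ K) : f ∈ (up s₀ q).asIdeal ↔ ∀ n, (splitE K s₀ f).coeff n ∈ q.asIdeal := by
  unfold up
  rw [mem_ctr, mem_ext]
  exact Iff.rfl

theorem mem_dn (s₀ : τ) (Q : PrimeSpectrum (MvPolynomial τ K))
    (g : MvPolynomial {s : τ // s ≠ s₀} K) :
    g ∈ (dn s₀ Q).asIdeal ↔ rename Subtype.val g ∈ Q.asIdeal := Iff.rfl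

theorem dn_up (s₀ : τ) (q : PrimeSpectrum (MvPolynomial {s : τ // s ≠ s₀} K)) :
    dn s₀ (up s₀ q) = q := by
  apply PrimeSpectrum.ext
  ext g
  rw [mem_dn, mem_up, splitE_rename]
  constructor
  · intro h
    have := h 0
    rwa [Polynomial.coeff_C_zero] at this
  · intro h n
    rw [Polynomial.coeff_C]
    split_ifs
    · exact h
    · exact Ideal.zero_mem _

theorem dn_eq (s₀ : τ) (Q : PrimeSpectrum (MvPolynomial τ K)) :
    dn s₀ Q = ctr K (polyC K _) (ctr K ((splitE K s₀).symm : _ →ₐ[K] MvPolynomial τ K) Q) := by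
  apply PrimeSpectrum.ext
  ext g
  rw [mem_dn, mem_ctr, mem_ctr]
  change _ ↔ (splitE K s₀).symm (Polynomial.C g) ∈ _
  rw [splitE_symm_C]

theorem up_dn_le (s₀ : τ) (Q : PrimeSpectrum (MvPolynomial τ K)) : up s₀ (dn s₀ Q) ≤ Q := by
  intro f hf
  have h1 : splitE K s₀ f ∈ (ext (dn s₀ Q)).asIdeal := hf
  rw [dn_eq] at h1
  have h2 := ext_ctr_le K _ h1
  rw [mem_ctr] at h2
  change (splitE K s₀).symm (splitE K s₀ f) ∈ _ at h2
  rwa [AlgEquiv.symm_apply_apply] at h2

theorem dl_up (s₀ : τ) (q : PrimeSpectrum (MvPolynomial {s : τ // s ≠ s₀} K)) :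
    dl K (up s₀ q) = dl K q + 1 := by
  exact (dl_ctr_equiv K (splitE K s₀) (ext q)).trans (dl_ext K q)

theorem dl_dn_of_ne (s₀ : τ) (Q : PrimeSpectrum (MvPolynomial τ K)) (h : Q ≠ up s₀ (dn s₀ Q)) :
    dl K Q = dl K (dn s₀ Q) := by
  have h1 := dl_ctr_equiv K (splitE K s₀).symm Q
  rw [← h1, dn_eq]
  refine dl_eq_ctr_of_ne K _ (fun h2 => h ?_)
  have h3 := ctr_symm_ctr K (splitE K s₀) Q
  rw [h2, ← dn_eq] at h3
  exact h3.symm

/-- the scaling of one variable -/
noncomputable def scw (s₀ : τ) (c : K) (s : τ) : K := open Classical in if s = s₀ then c else 1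

theorem scw_ne (s₀ : τ) {c : K} (hc : c ≠ 0) (s : τ) : scw s₀ c s ≠ 0 := by
  unfold scw
  split_ifs
  · exact hc
  · exact one_ne_zero

variable [Fintype τ]

theorem scl_rename (s₀ : τ) (c : K) (g : MvPolynomial {s : τ // s ≠ s₀} K) :
    scl K (scw s₀ c) (rename Subtype.val g) = rename Subtype.val g := by
  have h : (scl K (scw s₀ c)).comp (rename Subtype.val : MvPolynomial {s : τ // s ≠ s₀} K →ₐ[K] _) =
      rename Subtype.val := by
    apply MvPolynomial.algHom_ext
    intro s
    rw [AlgHom.comp_apply, rename_X, scl_X]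
    unfold scw
    rw [if_neg s.2, map_one, map_one, one_mul]
  exact DFunLike.congr_fun h g

theorem up_le_iff (s₀ : τ) (q : PrimeSpectrum (MvPolynomial {s : τ // s ≠ s₀} K))
    (Q : PrimeSpectrum (MvPolynomial τ K)) (h : q ≤ dn s₀ Q) : up s₀ q ≤ Q := by
  refine le_trans ?_ (up_dn_le s₀ Q)
  intro f hf
  rw [mem_up] at hf ⊢
  exact fun n => h (hf n)

theorem scl_up (s₀ : τ) {c : K} (hc : c ≠ 0)
    (q : PrimeSpectrum (MvPolynomial {s : τ // s ≠ s₀} K)) :
    ctr K (scl K (scw s₀ c)) (up s₀ q) = up s₀ q := by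
  symm
  apply eq_of_le_of_dl K
  · apply up_le_iff
    intro g hg
    rw [mem_dn, mem_ctr, scl_rename, ← mem_dn, dn_up]
    exact hg
  · rw [dl_scl _ (scw_ne s₀ hc)]

theorem homP_up (s₀ : τ) {q : PrimeSpectrum (MvPolynomial {s : τ // s ≠ s₀} K)} (hq : HomP q) :
    HomP (up s₀ q) := by
  intro f hf n
  rw [mem_up] at hf ⊢
  intro l
  have h := split_hc s₀ (splitE K s₀ f) n l
  rw [AlgEquiv.symm_apply_apply] at h
  rw [h]
  split_ifs
  · exact hq _ (hf l) _
  · exact Ideal.zero_mem _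

theorem homP_dn (s₀ : τ) {Q : PrimeSpectrum (MvPolynomial τ K)} (hQ : HomP Q) :
    HomP (dn s₀ Q) := by
  intro g hg n
  rw [mem_dn] at hg ⊢
  rw [rename_homogeneousComponent]
  exact hQ _ hg n

end split

end Pool.Agent.Bloch
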