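import Pool.Agent.Bloch.ConeB

set_option linter.unusedSectionVars false

open MvPolynomial

namespace Pool.Agent.Bloch

section bar
variable {A : Type} [CommRing A]

theorem bar_eq_zero (q : PrimeSpectrum A) (p : Polynomial A) :
    p.map (Ideal.Quotient.mk q.asIdeal) = 0 ↔ p ∈ (ext q).asIdeal := by
  rw [mem_ext, Polynomial.ext_iff]
  simp only [Polynomial.coeff_map, Polynomial.coeff_zero, Ideal.Quotient.eq_zero_iff_mem]

end bar

section main
variable {K : Type} [Field K] {τ : Type} [Fintype τ]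

/-- The components of a good hypersurface section. -/
theorem caseB_key (s₀ : τ) (V : PrimeSpectrum (MvPolynomial τ K)) (hV : HomP V)
    (hne : V ≠ up s₀ (dn s₀ V)) :
    ∃ (n : ℕ) (F : MvPolynomial τ K), F.IsHomogeneous n ∧ F ∈ V.asIdeal ∧
      F ∉ (up s₀ (dn s₀ V)).asIdeal ∧ ∀ Q : PrimeSpectrum (MvPolynomial τ K),
        up s₀ (dn s₀ V) ≤ Q → F ∈ Q.asIdeal → dl K Q = dl K V →
          Q = V ∨ Q = up s₀ (dn s₀ Q) := by
  classical
  set q := dn s₀ V with hq
  set P := ctr K ((splitE K s₀).symm : Polynomial (MvPolynomial {s : τ // s ≠ s₀} K) →ₐ[K] MvPolynomial τ K) V with hPdef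
  have hqP : ctr K (polyC K _) P = q := (dn_eq s₀ V).symm
  have hPne : P ≠ ext (ctr K (polyC K _) P) := by
    intro h
    apply hne
    have h3 := ctr_symm_ctr K (splitE K s₀) V
    rw [← hPdef, h, hqP] at h3
    exact h3.symm
  obtain ⟨f₀, hf₀, hf₀n, hgen⟩ := exists_gen K P hPne
  rw [hqP] at hf₀n hgen
  have hmemP : ∀ g, g ∈ P.asIdeal ↔ (splitE K s₀).symm g ∈ V.asIdeal := fun g => Iff.rfl
  set F₀ := (splitE K s₀).symm f₀ with hF₀
  have hF₀V : F₀ ∈ V.asIdeal := (hmemP f₀).1 hf₀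
  have hF₀W : F₀ ∉ (up s₀ q).asIdeal := by
    intro h
    rw [mem_up] at h
    apply hf₀n
    rw [mem_ext]
    intro n
    have := h n
    rwa [hF₀, AlgEquiv.apply_symm_apply] at this
  obtain ⟨n, hn⟩ : ∃ n, homogeneousComponent n F₀ ∉ (up s₀ q).asIdeal := by
    by_contra h
    push Not at h
    exact hF₀W (mem_of_comp _ _ h)
  set F := homogeneousComponent n F₀ with hF
  have hFV : F ∈ V.asIdeal := hV _ hF₀V n
  refine ⟨n, F, homogeneousComponent_isHomogeneous _ _, hFV, hn, ?_⟩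
  -- the degree argument
  have hsF : splitE K s₀ F ∈ P.asIdeal := by
    rw [hmemP, AlgEquiv.symm_apply_apply]
    exact hFV
  obtain ⟨u, hu, hmem⟩ := hgen _ hsF
  obtain ⟨w, hw, h', hh', hwh⟩ := Submodule.mem_sup.1 hmem
  obtain ⟨h, rfl⟩ := Ideal.mem_span_singleton'.1 hh'
  have hqhom : HomP q := homP_dn s₀ hV
  have hbar : (h.map (Ideal.Quotient.mk q.asIdeal)) * (f₀.map (Ideal.Quotient.mk q.asIdeal)) =
      Polynomial.C (Ideal.Quotient.mk q.asIdeal u) *
        ((splitE K s₀ F).map (Ideal.Quotient.mk q.asIdeal)) := by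
    have h1 := congrArg (Polynomial.map (Ideal.Quotient.mk q.asIdeal)) hwh
    rw [Polynomial.map_add, Polynomial.map_mul, Polynomial.map_mul, Polynomial.map_C,
      (bar_eq_zero q w).2 hw, zero_add] at h1
    exact h1
  have hf₀0 : f₀.map (Ideal.Quotient.mk q.asIdeal) ≠ 0 := fun h => hf₀n ((bar_eq_zero q _).1 h)
  have hF0 : (splitE K s₀ F).map (Ideal.Quotient.mk q.asIdeal) ≠ 0 :=
    fun h => hn ((bar_eq_zero q _).1 h)
  have hu0 : Ideal.Quotient.mk q.asIdeal u ≠ 0 := fun h =>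
    hu (Ideal.Quotient.eq_zero_iff_mem.1 h)
  have hh0 : h.map (Ideal.Quotient.mk q.asIdeal) ≠ 0 := by
    intro h1
    rw [h1, zero_mul] at hbar
    exact mul_ne_zero (Polynomial.C_ne_zero.2 hu0) hF0 hbar.symm
  have hdegF : ((splitE K s₀ F).map (Ideal.Quotient.mk q.asIdeal)).natDegree ≤
      (f₀.map (Ideal.Quotient.mk q.asIdeal)).natDegree := by
    rw [Polynomial.natDegree_le_iff_coeff_eq_zero]
    intro l hl
    have h1 := Polynomial.coeff_eq_zero_of_natDegree_lt hl
    rw [Polynomial.coeff_map, Ideal.Quotient.eq_zero_iff_mem] at h1 ⊢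
    rw [hF, hF₀, split_hc]
    split_ifs
    · exact hqhom _ h1 _
    · exact Ideal.zero_mem _
  have hdegh : (h.map (Ideal.Quotient.mk q.asIdeal)).natDegree = 0 := by
    have h1 := congrArg Polynomial.natDegree hbar
    rw [Polynomial.natDegree_mul hh0 hf₀0, Polynomial.natDegree_mul (Polynomial.C_ne_zero.2 hu0) hF0,
      Polynomial.natDegree_C] at h1
    omega
  have hhc : h.coeff 0 ∉ q.asIdeal := by
    intro h1
    apply hh0
    rw [Polynomial.eq_C_of_natDegree_eq_zero hdegh, Polynomial.coeff_map,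
      Ideal.Quotient.eq_zero_iff_mem.2 h1, map_zero]
  have hhdiff : h - Polynomial.C (h.coeff 0) ∈ (ext q).asIdeal := by
    rw [← bar_eq_zero, Polynomial.map_sub, Polynomial.map_C]
    conv_lhs => rw [Polynomial.eq_C_of_natDegree_eq_zero hdegh]
    rw [Polynomial.coeff_map, sub_self]
  intro Q hWQ hFQ hdQ
  have hqQ : q ≤ dn s₀ Q := by
    intro g hg
    rw [mem_dn]
    apply hWQ
    rw [← mem_dn, dn_up]
    exact hg
  by_cases hqe : q = dn s₀ Q
  · left
    set Qe := ctr K ((splitE K s₀).symm : Polynomial (MvPolynomial {s : τ // s ≠ s₀} K) →ₐ[K] MvPolynomial τ K) Q with hQe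
    have hqQe : ctr K (polyC K _) Qe = q := by rw [hqe]; exact (dn_eq s₀ Q).symm
    have hext : ext q ≤ Qe := by
      have := ext_ctr_le K Qe
      rwa [hqQe] at this
    have hFQe : splitE K s₀ F ∈ Qe.asIdeal := by
      change (splitE K s₀).symm (splitE K s₀ F) ∈ Q.asIdeal
      rw [AlgEquiv.symm_apply_apply]
      exact hFQ
    have h1 : h * f₀ ∈ Qe.asIdeal := by
      have h2 : h * f₀ = Polynomial.C u * splitE K s₀ F - w := by rw [← hwh]; ring
      rw [h2]
      exact Ideal.sub_mem _ (Ideal.mul_mem_left _ _ hFQe) (hext hw)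
    have h2 : f₀ ∈ Qe.asIdeal := by
      rcases Qe.2.mem_or_mem h1 with h3 | h3
      · exfalso
        apply hhc
        have h4 : Polynomial.C (h.coeff 0) ∈ Qe.asIdeal := by
          have h5 := Ideal.sub_mem _ h3 (hext hhdiff)
          rwa [sub_sub_cancel] at h5
        rw [← hqQe]
        exact h4
      · exact h3
    have hPQ : P ≤ Qe := by
      intro g hg
      obtain ⟨u', hu', hg'⟩ := hgen g hg
      have h3 : Polynomial.C u' * g ∈ Qe.asIdeal := by
        refine (sup_le hext ?_ : (ext q).asIdeal ⊔ Ideal.span {f₀} ≤ Qe.asIdeal) hg'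
        rw [Ideal.span_le]
        intro x hx
        rw [Set.mem_singleton_iff] at hx
        rw [hx]
        exact h2
      refine (Qe.2.mem_or_mem h3).resolve_left (fun h4 => hu' ?_)
      rw [← hqQe]
      exact h4
    symm
    apply eq_of_le_of_dl K
    · intro g hg
      have h3 : splitE K s₀ g ∈ P.asIdeal := by
        rw [hmemP, AlgEquiv.symm_apply_apply]; exact hg
      have h4 := hPQ h3
      change (splitE K s₀).symm (splitE K s₀ g) ∈ Q.asIdeal at h4
      rwa [AlgEquiv.symm_apply_apply] at h4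
    · exact hdQ.ge
  · right
    by_contra h1
    have h2 := dl_dn_of_ne s₀ Q h1
    have h3 := dl_lt K (lt_of_le_of_ne hqQ hqe)
    have h4 : dl K V = dl K q := dl_dn_of_ne s₀ V hne
    omega

variable (𝕜 : Type) [Field 𝕜] [CharZero 𝕜]

/-- Scaling of a variable which does not occur in the equations acts trivially on cycle
classes. -/
theorem caseB (s₀ : τ) {Z : Set (PrimeSpectrum (MvPolynomial τ K))}
    (hZ : ∀ Q ∈ Z, up s₀ (dn s₀ Q) ∈ Z) {k : ℕ} {c : K} (hc : c ≠ 0) (V V' : VH Z k)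
    (h : V'.1 = ctr K (scl K (scw s₀ c)) V.1) :
    Finsupp.single V' 1 - Finsupp.single V (1 : 𝕜) ∈ RelH 𝕜 Z k := by
  classical
  by_cases hne : V.1 = up s₀ (dn s₀ V.1)
  · have h1 : V' = V := by
      apply Subtype.ext
      rw [h]
      conv_lhs => rw [hne]
      rw [scl_up s₀ hc, ← hne]
    rw [h1, sub_self]
    exact Submodule.zero_mem _
  obtain ⟨n, F, hF, hFV, hFW, hkey⟩ := caseB_key s₀ V.1 V.2.1 hne
  have hdW : dl K (up s₀ (dn s₀ V.1)) = k + 1 := by
    rw [dl_up, ← dl_dn_of_ne s₀ V.1 hne, V.2.2.2]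
  let W : VH Z (k + 1) := ⟨up s₀ (dn s₀ V.1), homP_up s₀ (homP_dn s₀ V.2.1), hZ _ V.2.2.1, hdW⟩
  have hci : c⁻¹ ≠ 0 := inv_ne_zero hc
  have hcc : ∀ f : MvPolynomial τ K, scl K (scw s₀ c) (scl K (scw s₀ c⁻¹) f) = f := by
    intro f
    rw [scl_scl]
    have : (fun l => scw s₀ c l * scw s₀ c⁻¹ l) = fun _ => (1 : K) := by
      funext l
      unfold scw
      split_ifs
      · exact mul_inv_cancel₀ hc
      · rw [mul_one]
    rw [this, scl_one]
  have hcc' : ∀ f : MvPolynomial τ K, scl K (scw s₀ c⁻¹) (scl K (scw s₀ c) f) = f := by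
    intro f
    rw [scl_scl]
    have : (fun l => scw s₀ c⁻¹ l * scw s₀ c l) = fun _ => (1 : K) := by
      funext l
      unfold scw
      split_ifs
      · exact inv_mul_cancel₀ hc
      · rw [mul_one]
    rw [this, scl_one]
  have hctr1 : ∀ Q : PrimeSpectrum (MvPolynomial τ K),
      ctr K (scl K (scw s₀ c)) (ctr K (scl K (scw s₀ c⁻¹)) Q) = Q := by
    intro Q
    apply PrimeSpectrum.ext
    ext f
    rw [mem_ctr, mem_ctr, hcc']
  have hctr2 : ∀ Q : PrimeSpectrum (MvPolynomial τ K),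
      ctr K (scl K (scw s₀ c⁻¹)) (ctr K (scl K (scw s₀ c)) Q) = Q := by
    intro Q
    apply PrimeSpectrum.ext
    ext f
    rw [mem_ctr, mem_ctr, hcc]
  set F' := scl K (scw s₀ c⁻¹) F with hF'
  have hF'hom : F'.IsHomogeneous n := by
    have := homogeneousComponent_scl (scw s₀ c⁻¹) F n
    rw [homogeneousComponent_eq_self hF] at this
    rw [hF', ← this]
    exact homogeneousComponent_isHomogeneous _ _
  have hWinv : ctr K (scl K (scw s₀ c)) W.1 = W.1 := scl_up s₀ hc _
  have hF'W : F' ∉ W.1.asIdeal := by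
    intro h1
    rw [← hWinv, mem_ctr, hF', hcc] at h1
    exact hFW h1
  have hFr : Frac K (scl K (scw s₀ c)) (⊥ : Submonoid (MvPolynomial τ K)) := by
    intro y
    exact ⟨1, Submonoid.one_mem _, scl K (scw s₀ c⁻¹) y, by rw [map_one, mul_one, hcc]⟩
  -- the multiplicities
  have hdiv : ∀ U : PrimeSpectrum (MvPolynomial τ K), dl K U = k →
      divCyc K 𝕜 k W.1 F' (ctr K (scl K (scw s₀ c)) U) = divCyc K 𝕜 k W.1 F U := by
    intro U hU
    rw [divCyc_apply K 𝕜 hdW hF'W _ (by rw [dl_scl _ (scw_ne s₀ hc), hU]),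
      divCyc_apply K 𝕜 hdW hFW _ hU]
    have hU : U ∈ Uset K (scl K (scw s₀ c)) (⊥ : Submonoid (MvPolynomial τ K)) := by
      intro u hu h
      rw [Submonoid.mem_bot] at hu
      rw [hu, map_one] at h
      exact U.2.ne_top ((Ideal.eq_top_iff_one _).2 h)
    have e3 := len_uset_div (Q₀ := W.1) hFr hU (Submonoid.one_mem _)
      (show F * scl K (scw s₀ c) 1 = scl K (scw s₀ c) F' by rw [map_one, mul_one, hF', hcc])
    rw [e3, hWinv]
  have hzero : ∀ U : PrimeSpectrum (MvPolynomial τ K), dl K U = k →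
      divCyc K 𝕜 k W.1 F U ≠ 0 → U = V.1 ∨ ctr K (scl K (scw s₀ c)) U = U := by
    intro U hU h1
    rw [divCyc_ne_zero_iff K 𝕜 hdW hFW] at h1
    rcases hkey U h1.2.1 h1.2.2 (by rw [hU, V.2.2.2]) with h2 | h2
    · exact Or.inl h2
    · right
      conv_lhs => rw [h2]
      rw [scl_up s₀ hc, ← h2]
  have hm : divCyc K 𝕜 k W.1 F V.1 ≠ 0 := by
    rw [divCyc_ne_zero_iff K 𝕜 hdW hFW]
    exact ⟨V.2.2.2, up_dn_le s₀ V.1, hFV⟩
  have key : res 𝕜 Z k (divCyc K 𝕜 k W.1 F - divCyc K 𝕜 k W.1 F') =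
      divCyc K 𝕜 k W.1 F V.1 • (Finsupp.single V 1 - Finsupp.single V' 1) := by
    ext U
    rw [res_apply, Finsupp.sub_apply, Finsupp.smul_apply, Finsupp.sub_apply, smul_eq_mul]
    set U'' := ctr K (scl K (scw s₀ c⁻¹)) U.1 with hU''
    have hUU : ctr K (scl K (scw s₀ c)) U'' = U.1 := hctr1 U.1
    have hdU'' : dl K U'' = k := by rw [hU'', dl_scl _ (scw_ne s₀ hci), U.2.2.2]
    have e1 : divCyc K 𝕜 k W.1 F' U.1 = divCyc K 𝕜 k W.1 F U'' := by
      have := hdiv U'' hdU''
      rwa [hUU] at this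
    have hV'iff : V' = U ↔ U'' = V.1 := by
      constructor
      · intro h1
        rw [hU'', ← h1, h, hctr2]
      · intro h1
        apply Subtype.ext
        rw [h, ← h1, hUU]
    have hViff : V = U ↔ U.1 = V.1 := by
      constructor
      · rintro rfl; rfl
      · intro h1; exact Subtype.ext h1.symm
    rw [e1, Finsupp.single_apply, Finsupp.single_apply]
    by_cases hc1 : U'' = U.1
    · rw [hc1, sub_self]
      have : (V = U) ↔ (V' = U) := by rw [hViff, hV'iff, hc1]
      by_cases h3 : V = U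
      · rw [if_pos h3, if_pos (this.1 h3), sub_self, mul_zero]
      · rw [if_neg h3, if_neg (fun h4 => h3 (this.2 h4)), sub_self, mul_zero]
    · have a1 : divCyc K 𝕜 k W.1 F U.1 = divCyc K 𝕜 k W.1 F V.1 * (if V = U then 1 else 0) := by
        by_cases h3 : V = U
        · rw [if_pos h3, mul_one, h3]
        · rw [if_neg h3, mul_zero]
          by_contra h4
          rcases hzero U.1 U.2.2.2 h4 with h5 | h5
          · exact h3 (hViff.2 h5)
          · apply hc1
            rw [hU'']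
            conv_lhs => rw [← h5]
            rw [hctr2]
      have a2 : divCyc K 𝕜 k W.1 F U'' = divCyc K 𝕜 k W.1 F V.1 * (if V' = U then 1 else 0) := by
        by_cases h3 : V' = U
        · rw [if_pos h3, mul_one, hV'iff.1 h3]
        · rw [if_neg h3, mul_zero]
          by_contra h4
          rcases hzero U'' hdU'' h4 with h5 | h5
          · exact h3 (hV'iff.2 h5)
          · apply hc1
            rw [← h5, hUU]
      rw [a1, a2, mul_sub]
  have hrel : res 𝕜 Z k (divCyc K 𝕜 k W.1 F - divCyc K 𝕜 k W.1 F') ∈ RelH 𝕜 Z k :=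
    Submodule.subset_span ⟨W, n, F, F', hF, hF'hom, hFW, hF'W, rfl⟩
  rw [key] at hrel
  have h2 := Submodule.smul_mem _ (-(divCyc K 𝕜 k W.1 F V.1)⁻¹) hrel
  rw [smul_smul, neg_mul, inv_mul_cancel₀ hm, neg_one_smul, neg_sub] at h2
  exact h2

end main

end Pool.Agent.Bloch
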