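import Pool.Agent.Bloch.Herbrand

set_option linter.unusedSectionVars false

namespace Pool.Agent.Bloch

variable (K : Type) [Field K] (𝕜 : Type) [Field 𝕜] [CharZero 𝕜]

section
variable {R : Type} [CommRing R] [Algebra K R] [Algebra.EssFiniteType K R] [IsNoetherianRing R]

/-- the values of the cycle of dimension `k` of a module -/
noncomputable def cycFun (k : ℕ) (M : Type) [AddCommGroup M] [Module R M]
    (p : PrimeSpectrum R) : 𝕜 :=
  open Classical in if dl K p = k then ((len p M).toNat : 𝕜) else 0

/-- the cycle of dimension `k` of a module -/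
noncomputable def cyc (k : ℕ) (M : Type) [AddCommGroup M] [Module R M] :
    PrimeSpectrum R →₀ 𝕜 :=
  open Classical in
  if h : (Function.support (cycFun K 𝕜 (R := R) k M)).Finite then Finsupp.ofSupportFinite _ h else 0

/-- a finite module with support of dimension at most `k` -/
def Bd (k : ℕ) (M : Type) [AddCommGroup M] [Module R M] : Prop :=
  Module.Finite R M ∧ ∀ p ∈ Module.support R M, dl K p ≤ k

variable {M N P : Type} [AddCommGroup M] [Module R M] [AddCommGroup N] [Module R N]
  [AddCommGroup P] [Module R P]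

theorem bd_len {k : ℕ} (h : Bd K (R := R) k M) (p : PrimeSpectrum R) (hp : dl K p = k) :
    len p M ≠ ⊤ :=
  len_ne_top h.1 p (fun q hq hqp => eq_of_le_of_dl K hqp (by rw [hp]; exact h.2 q hq))

theorem bd_minimal {k : ℕ} (h : Bd K (R := R) k M) (p : PrimeSpectrum R) (hp : dl K p = k)
    (hs : p ∈ Module.support R M) : p.asIdeal ∈ (Module.annihilator R M).minimalPrimes := by
  haveI := h.1
  obtain ⟨q, hq, hqp⟩ := Ideal.exists_minimalPrimes_le (J := p.asIdeal)
    (Module.mem_support_iff_of_finite.1 hs)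
  have hqs : (⟨q, hq.1.1⟩ : PrimeSpectrum R) ∈ Module.support R M :=
    Module.mem_support_iff_of_finite.2 hq.1.2
  have : (⟨q, hq.1.1⟩ : PrimeSpectrum R) = p :=
    eq_of_le_of_dl K hqp (by rw [hp]; exact h.2 _ hqs)
  rw [← this]; exact hq

theorem cycFun_finite {k : ℕ} (h : Bd K (R := R) k M) :
    (Function.support (cycFun K 𝕜 (R := R) k M)).Finite := by
  have hf := (Module.annihilator R M).finite_minimalPrimes_of_isNoetherianRing R
  refine (hf.preimage (f := PrimeSpectrum.asIdeal) (fun p _ q _ hpq => PrimeSpectrum.ext hpq)).subset ?_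
  intro p hp
  rw [Function.mem_support] at hp
  unfold cycFun at hp
  split_ifs at hp with h1
  · apply bd_minimal K h p h1
    rw [← len_pos_iff]
    rw [pos_iff_ne_zero]
    intro h0
    apply hp
    rw [h0]; simp
  · exact absurd rfl hp

theorem cyc_apply {k : ℕ} (h : Bd K (R := R) k M) (p : PrimeSpectrum R) :
    cyc K 𝕜 k M p = open Classical in if dl K p = k then ((len p M).toNat : 𝕜) else 0 := by
  unfold cyc
  rw [dif_pos (cycFun_finite K 𝕜 h)]
  rfl

theorem cyc_congr_len {k : ℕ} (h : ∀ p : PrimeSpectrum R, dl K p = k → len p M = len p N) :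
    cyc K 𝕜 k M = cyc K 𝕜 (R := R) k N := by
  have : cycFun K 𝕜 (R := R) k M = cycFun K 𝕜 (R := R) k N := by
    funext p
    unfold cycFun
    split_ifs with h1
    · rw [h p h1]
    · rfl
  unfold cyc
  rw [this]

theorem cyc_congr {k : ℕ} (e : M ≃ₗ[R] N) : cyc K 𝕜 k M = cyc K 𝕜 (R := R) k N :=
  cyc_congr_len K 𝕜 (fun p _ => len_congr p e)

theorem cyc_eq_zero {k : ℕ} (h : ∀ p ∈ Module.support R M, dl K p ≠ k) :
    cyc K 𝕜 (R := R) k M = 0 := by
  have h1 : cycFun K 𝕜 (R := R) k M = 0 := by
    funext p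
    unfold cycFun
    split_ifs with h1
    · have : len p M = 0 := by
        rw [len_eq_zero_iff]
        intro hp
        exact h p hp h1
      rw [this]; simp
    · rfl
  unfold cyc
  split_ifs with h2
  · ext p
    rw [Finsupp.ofSupportFinite_coe, h1]; rfl
  · rfl

theorem bd_of_injective {k : ℕ} (h : Bd K (R := R) k N) (f : M →ₗ[R] N)
    (hf : Function.Injective f) : Bd K (R := R) k M := by
  haveI := h.1
  refine ⟨Module.Finite.of_injective f hf, fun p hp => h.2 p ?_⟩
  exact Module.support_subset_of_injective f hf hp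

theorem bd_of_surjective {k : ℕ} (h : Bd K (R := R) k N) (f : N →ₗ[R] M)
    (hf : Function.Surjective f) : Bd K (R := R) k M := by
  haveI := h.1
  refine ⟨Module.Finite.of_surjective f hf, fun p hp => h.2 p ?_⟩
  exact Module.support_subset_of_surjective f hf hp

theorem cyc_exact {k : ℕ} (h : Bd K (R := R) k N) (f : M →ₗ[R] N) (g : N →ₗ[R] P)
    (hf : Function.Injective f) (hg : Function.Surjective g) (hfg : Function.Exact f g) :
    cyc K 𝕜 (R := R) k N = cyc K 𝕜 k M + cyc K 𝕜 k P := by
  have hM := bd_of_injective K h f hf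
  have hP := bd_of_surjective K h g hg
  ext p
  rw [Finsupp.add_apply, cyc_apply K 𝕜 h, cyc_apply K 𝕜 hM, cyc_apply K 𝕜 hP]
  split_ifs with h1
  · rw [len_exact p f g hf hg hfg, ENat.toNat_add (bd_len K hM p h1) (bd_len K hP p h1)]
    push_cast; rfl
  · rw [add_zero]

theorem bd_quot {k : ℕ} (q : PrimeSpectrum R) (h : dl K q ≤ k) :
    Bd K (R := R) k (R ⧸ q.asIdeal) := by
  refine ⟨inferInstance, fun p hp => ?_⟩
  rw [support_quot] at hp
  exact (dl_le K hp).trans h

theorem cyc_quot_self {k : ℕ} (q : PrimeSpectrum R) (h : dl K q = k) :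
    cyc K 𝕜 k (R ⧸ q.asIdeal) = Finsupp.single q 1 := by
  ext p
  rw [cyc_apply K 𝕜 (bd_quot K q h.le)]
  rcases eq_or_ne q p with rfl | hne
  · rw [if_pos h, len_quot_self, Finsupp.single_eq_same]; simp
  · rw [Finsupp.single_eq_of_ne' hne]
    split_ifs with h1
    · have : len p (R ⧸ q.asIdeal) = 0 := by
        rw [len_eq_zero_iff, support_quot]
        intro hp
        exact hne (eq_of_le_of_dl K hp (by rw [h, h1]))
      rw [this]; simp
    · rfl

/-- the divisor of `a` on the subvariety `q` -/
noncomputable def divCyc (k : ℕ) (q : PrimeSpectrum R) (a : R) : PrimeSpectrum R →₀ 𝕜 :=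
  cyc K 𝕜 k (R ⧸ (q.asIdeal ⊔ Ideal.span {a}))

/-- the cokernel of multiplication on a cyclic module -/
noncomputable def ckQuot (q : Ideal R) (a : R) :
    Ck a (R ⧸ q) ≃ₗ[R] (R ⧸ (q ⊔ Ideal.span {a})) := by
  refine LinearEquiv.ofLinearMap
    (Submodule.liftQ _ (Submodule.factor (le_sup_left : q ≤ q ⊔ Ideal.span {a})) ?_)
    (Submodule.liftQ _ ((LinearMap.range (mul a (R ⧸ q))).mkQ ∘ₗ (Submodule.mkQ q)) ?_) ?_ ?_
  · rintro x ⟨y, rfl⟩
    obtain ⟨y, rfl⟩ := Submodule.Quotient.mk_surjective _ y
    rw [LinearMap.mem_ker, mul_apply, ← Submodule.Quotient.mk_smul]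
    change Submodule.Quotient.mk (a • y) = _
    rw [Submodule.Quotient.mk_eq_zero]
    exact Submodule.mem_sup_right (Ideal.mul_mem_right _ _ (Ideal.mem_span_singleton_self a))
  · refine sup_le ?_ ?_
    · intro x hx
      rw [LinearMap.mem_ker, LinearMap.comp_apply]
      have : (Submodule.mkQ q) x = 0 := by
        rw [Submodule.mkQ_apply, Submodule.Quotient.mk_eq_zero]; exact hx
      rw [this, map_zero]
    · rw [Ideal.span_le]
      rintro x rfl
      change _ ∈ LinearMap.ker _
      rw [LinearMap.mem_ker, LinearMap.comp_apply, Submodule.mkQ_apply (LinearMap.range _),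
        Submodule.Quotient.mk_eq_zero]
      refine ⟨Submodule.mkQ q 1, ?_⟩
      rw [mul_apply, ← map_smul, smul_eq_mul, mul_one]
  · apply Submodule.linearMap_qext
    ext
    rfl
  · apply Submodule.linearMap_qext
    apply Submodule.linearMap_qext
    ext
    rfl

theorem bd_ck {k : ℕ} {a : R} {Z : Set (PrimeSpectrum R)}
    (hM : Module.Finite R M) (hsup : Module.support R M ⊆ Z)
    (hZ : ∀ q ∈ Z, dl K q ≤ k + 1) (ha : ∀ q ∈ Z, dl K q = k + 1 → a ∉ q.asIdeal) :
    Bd K (R := R) k (Ck a M) := by
  refine ⟨inferInstance, fun p hp => ?_⟩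
  have h1 := hsup (Module.support_subset_of_surjective _ (Submodule.mkQ_surjective _) hp)
  have h2 : a ∈ p.asIdeal := by
    apply Module.annihilator_le_of_mem_support hp
    rw [Module.mem_annihilator]
    intro m
    obtain ⟨m, rfl⟩ := Submodule.Quotient.mk_surjective _ m
    rw [← Submodule.Quotient.mk_smul, Submodule.Quotient.mk_eq_zero]
    exact ⟨m, rfl⟩
  by_contra h3
  have h4 := hZ p h1
  exact ha p h1 (by omega) h2

theorem bd_kr {k : ℕ} {a : R} {Z : Set (PrimeSpectrum R)}
    (hM : Module.Finite R M) (hsup : Module.support R M ⊆ Z)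
    (hZ : ∀ q ∈ Z, dl K q ≤ k + 1) (ha : ∀ q ∈ Z, dl K q = k + 1 → a ∉ q.asIdeal) :
    Bd K (R := R) k (Kr a M) := by
  refine ⟨Module.Finite.of_injective _ (Submodule.injective_subtype _), fun p hp => ?_⟩
  have h1 := hsup (Module.support_subset_of_injective _ (Submodule.injective_subtype _) hp)
  have h2 : a ∈ p.asIdeal := by
    apply Module.annihilator_le_of_mem_support hp
    rw [Module.mem_annihilator]
    rintro ⟨m, hm⟩
    exact Subtype.ext hm
  by_contra h3
  have h4 := hZ p h1
  exact ha p h1 (by omega) h2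

theorem len_kr_ck {p : PrimeSpectrum R} (a : R) (h : len p M ≠ ⊤) :
    len p (Kr a M) = len p (Ck a M) := by
  have h1 := len_ker_add_range p (mul a M)
  have h2 : len p M = len p (LinearMap.range (mul a M)) + len p (Ck a M) :=
    len_exact p (LinearMap.range (mul a M)).subtype (LinearMap.range (mul a M)).mkQ
      (Submodule.injective_subtype _) (Submodule.mkQ_surjective _)
      (LinearMap.exact_subtype_mkQ _)
  have h3 : len p (LinearMap.range (mul a M)) ≠ ⊤ := by
    intro h4; rw [h4, top_add] at h2; exact h h2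
  rw [h2, add_comm] at h1
  exact (ENat.add_left_injective_of_ne_top h3 h1).symm

/-- The divisor of `a` on a module is a combination of divisors on subvarieties. -/
theorem cyc_ck_kr (k : ℕ) (a : R) (Z : Set (PrimeSpectrum R))
    (hZ : ∀ q ∈ Z, dl K q ≤ k + 1) (ha : ∀ q ∈ Z, dl K q = k + 1 → a ∉ q.asIdeal)
    (hM : Module.Finite R M) (hsup : Module.support R M ⊆ Z) :
    cyc K 𝕜 k (Ck a M) - cyc K 𝕜 k (Kr a M) ∈
      Submodule.span 𝕜 {z : PrimeSpectrum R →₀ 𝕜 | ∃ q ∈ Z, dl K q = k + 1 ∧
        z = divCyc K 𝕜 k q a} := by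
  revert hsup
  induction hM using IsNoetherianRing.induction_on_isQuotientEquivQuotientPrime R with
  | subsingleton N =>
    intro _
    have h1 : cyc K 𝕜 (R := R) k (Ck a N) = 0 := by
      apply cyc_eq_zero
      intro p hp
      rw [Module.support_eq_empty] at hp
      exact absurd hp (Set.notMem_empty _)
    have h2 : cyc K 𝕜 (R := R) k (Kr a N) = 0 := by
      apply cyc_eq_zero
      intro p hp
      rw [Module.support_eq_empty] at hp
      exact absurd hp (Set.notMem_empty _)
    rw [h1, h2, sub_zero]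
    exact Submodule.zero_mem _
  | quotient N q e =>
    intro hsup
    have hq : q ∈ Z := by
      apply hsup
      rw [e.support_eq, support_quot]
      exact le_refl q.asIdeal
    by_cases hd : dl K q = k + 1
    · have haq := ha q hq hd
      have h1 : cyc K 𝕜 (R := R) k (Kr a N) = 0 := by
        apply cyc_eq_zero
        intro p hp
        have : Subsingleton (Kr a N) := by
          constructor
          rintro ⟨x, hx⟩ ⟨y, hy⟩
          have hz : ∀ x : N, a • x = 0 → x = 0 := by
            intro x hx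
            have h2 : a • e x = 0 := by rw [← map_smul, hx, map_zero]
            obtain ⟨b, hb⟩ := Ideal.Quotient.mk_surjective (e x)
            rw [← hb] at h2
            have h3 : Ideal.Quotient.mk q.asIdeal (a * b) = 0 := h2
            rw [Ideal.Quotient.eq_zero_iff_mem] at h3
            have h4 := (q.2.mem_or_mem h3).resolve_left haq
            rw [← Ideal.Quotient.eq_zero_iff_mem, hb] at h4
            exact (LinearEquiv.map_eq_zero_iff e).1 h4
          rw [Subtype.mk.injEq, hz x hx, hz y hy]
        rw [Module.support_eq_empty] at hp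
        exact absurd hp (Set.notMem_empty _)
      rw [h1, sub_zero]
      apply Submodule.subset_span
      refine ⟨q, hq, hd, ?_⟩
      unfold divCyc
      refine Eq.trans (cyc_congr K 𝕜 ?_) (cyc_congr K 𝕜 (ckQuot q.asIdeal a))
      refine Submodule.Quotient.equiv _ _ e ?_
      apply le_antisymm
      · rintro _ ⟨_, ⟨x, rfl⟩, rfl⟩
        refine ⟨e x, ?_⟩
        rw [mul_apply, mul_apply]
        exact (map_smul e a x).symm
      · rintro _ ⟨x, rfl⟩
        refine ⟨a • e.symm x, ⟨e.symm x, rfl⟩, ?_⟩
        rw [mul_apply]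
        change e (a • e.symm x) = _
        rw [map_smul, e.apply_symm_apply]
    · have hd' : dl K q ≤ k := by have := hZ q hq; omega
      have hB : Bd K (R := R) k N :=
        bd_of_injective K (bd_quot K q hd') (e : N →ₗ[R] R ⧸ q.asIdeal) e.injective
      rw [cyc_congr_len K 𝕜 (M := Ck a N) (N := Kr a N) (fun p hp =>
        (len_kr_ck a (bd_len K hB p hp)).symm), sub_self]
      exact Submodule.zero_mem _
  | exact N₁ N₂ N₃ f g hf hg hfg h₁ h₃ =>
    intro hsup
    rw [Module.support_of_exact hfg hf hg] at hsup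
    have hs1 := Set.subset_union_left.trans hsup
    have hs3 := Set.subset_union_right.trans hsup
    have f1 : Module.Finite R N₁ := Module.Finite.of_injective f hf
    have f3 : Module.Finite R N₃ := Module.Finite.of_surjective g hg
    have key : cyc K 𝕜 k (Ck a N₂) - cyc K 𝕜 k (Kr a N₂) =
        (cyc K 𝕜 k (Ck a N₁) - cyc K 𝕜 k (Kr a N₁)) +
        (cyc K 𝕜 k (Ck a N₃) - cyc K 𝕜 (R := R) k (Kr a N₃)) := by
      have b1 := bd_ck K f1 hs1 hZ ha
      have b2 := bd_ck K ‹Module.Finite R N₂› (by rw [Module.support_of_exact hfg hf hg]; exact hsup) hZ ha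
      have b3 := bd_ck K f3 hs3 hZ ha
      have c1 := bd_kr K f1 hs1 hZ ha
      have c2 := bd_kr K ‹Module.Finite R N₂› (by rw [Module.support_of_exact hfg hf hg]; exact hsup) hZ ha
      have c3 := bd_kr K f3 hs3 hZ ha
      ext p
      simp only [Finsupp.add_apply, Finsupp.sub_apply]
      rw [cyc_apply K 𝕜 b1, cyc_apply K 𝕜 b2, cyc_apply K 𝕜 b3, cyc_apply K 𝕜 c1,
        cyc_apply K 𝕜 c2, cyc_apply K 𝕜 c3]
      split_ifs with hp
      · have h := congrArg ENat.toNat (len_herbrand p a f g hf hg hfg)
        have t1 := bd_len K b1 p hp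
        have t2 := bd_len K b2 p hp
        have t3 := bd_len K b3 p hp
        have u1 := bd_len K c1 p hp
        have u2 := bd_len K c2 p hp
        have u3 := bd_len K c3 p hp
        rw [ENat.toNat_add (by simp [t2, u1]) u3, ENat.toNat_add t2 u1,
          ENat.toNat_add (by simp [u2, t1]) t3, ENat.toNat_add u2 t1] at h
        have h' := congrArg (fun n : ℕ => (n : 𝕜)) h
        simp only [Nat.cast_add] at h'
        linear_combination h'
      · simp
    rw [key]
    exact Submodule.add_mem _ (h₁ hs1) (h₃ hs3)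

end

end Pool.Agent.Bloch
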