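import Mathlib

namespace Pool.Agent.Bloch

section descent

/-- extension of coefficients -/
noncomputable def castf {ι : Type} : (ι →₀ ℚ) →ₗ[ℚ] (ι →₀ ℂ) :=
  Finsupp.mapRange.linearMap (Algebra.linearMap ℚ ℂ)

theorem castf_apply {ι : Type} (z : ι →₀ ℚ) (V : ι) : castf z V = ((z V : ℚ) : ℂ) := by
  unfold castf
  simp

/-- A bound for the rank of a quotient can be checked over the complex numbers. -/
theorem descent {ι : Type} (S : Set (ι →₀ ℚ)) (α : ι →₀ ℂ)
    (h : ∀ V : ι, Finsupp.single V (1 : ℂ) ∈ Submodule.span ℂ (castf '' S) ⊔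
      Submodule.span ℂ {α}) :
    Module.rank ℚ ((ι →₀ ℚ) ⧸ Submodule.span ℚ S) ≤ 1 := by
  classical
  obtain ⟨τ, hτ⟩ := LinearMap.exists_leftInverse_of_injective (Algebra.linearMap ℚ ℂ)
    (LinearMap.ker_eq_bot.2 (algebraMap ℚ ℂ).injective)
  have hτ' : ∀ q : ℚ, τ (q : ℂ) = q := fun q => DFunLike.congr_fun hτ q
  have hτ1 : ∀ (c : ℂ) (q : ℚ), τ (c * (q : ℂ)) = τ c * q := by
    intro c q
    have : c * (q : ℂ) = q • c := by rw [Rat.smul_def, mul_comm]
    rw [this, map_smul, smul_eq_mul, mul_comm]
  let τs : (ι →₀ ℂ) →ₗ[ℚ] (ι →₀ ℚ) := Finsupp.mapRange.linearMap τ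
  have hτs : ∀ (c : ℂ) (z : ι →₀ ℚ), τs (c • castf z) = τ c • z := by
    intro c z
    ext V
    change τ (c * castf z V) = τ c * z V
    rw [castf_apply, hτ1]
  have hτs1 : ∀ z : ι →₀ ℚ, τs (castf z) = z := by
    intro z
    have h1 := hτs 1 z
    have h2 : τ 1 = 1 := by
      have := hτ' 1
      rwa [Rat.cast_one] at this
    rwa [one_smul, h2, one_smul] at h1
  have hU : ∀ w ∈ Submodule.span ℂ (castf '' S), τs w ∈ Submodule.span ℚ S := by
    intro w hw
    have : ∀ c : ℂ, τs (c • w) ∈ Submodule.span ℚ S := by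
      induction hw using Submodule.span_induction with
      | mem w hw =>
        obtain ⟨s, hs, rfl⟩ := hw
        intro c
        rw [hτs]
        exact Submodule.smul_mem _ _ (Submodule.subset_span hs)
      | zero => intro c; rw [smul_zero, map_zero]; exact Submodule.zero_mem _
      | add x y _ _ hx hy =>
        intro c; rw [smul_add, map_add]; exact Submodule.add_mem _ (hx c) (hy c)
      | smul c' x _ hx => intro c; rw [smul_smul]; exact hx _
    have h1 := this 1
    rwa [one_smul] at h1
  have hall : ∀ z : ι →₀ ℚ, castf z ∈ Submodule.span ℂ (castf '' S) ⊔ Submodule.span ℂ {α} := by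
    intro z
    induction z using Finsupp.induction_linear with
    | zero => rw [map_zero]; exact Submodule.zero_mem _
    | add x y hx hy => rw [map_add]; exact Submodule.add_mem _ hx hy
    | single V q =>
      have : castf (Finsupp.single V q) = (q : ℂ) • Finsupp.single V (1 : ℂ) := by
        ext W
        rw [castf_apply, Finsupp.smul_apply, Finsupp.single_apply, Finsupp.single_apply]
        split_ifs <;> simp
      rw [this]
      exact Submodule.smul_mem _ _ (h V)
  rw [rank_le_one_iff]
  by_cases hz : ∀ z : ι →₀ ℚ, castf z ∈ Submodule.span ℂ (castf '' S)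
  · refine ⟨0, fun v => ⟨0, ?_⟩⟩
    obtain ⟨z, rfl⟩ := Submodule.Quotient.mk_surjective _ v
    rw [smul_zero]
    symm
    rw [Submodule.Quotient.mk_eq_zero, ← hτs1 z]
    exact hU _ (hz z)
  · push Not at hz
    obtain ⟨z₀, hz₀⟩ := hz
    obtain ⟨u₀, hu₀, y₀, hy₀, he₀⟩ := Submodule.mem_sup.1 (hall z₀)
    obtain ⟨c₀, rfl⟩ := Submodule.mem_span_singleton.1 hy₀
    have hc₀ : c₀ ≠ 0 := by
      rintro rfl
      apply hz₀
      rw [← he₀, zero_smul, add_zero]
      exact hu₀
    refine ⟨Submodule.Quotient.mk z₀, fun v => ?_⟩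
    obtain ⟨z, rfl⟩ := Submodule.Quotient.mk_surjective _ v
    obtain ⟨u, hu, y, hy, he⟩ := Submodule.mem_sup.1 (hall z)
    obtain ⟨c, rfl⟩ := Submodule.mem_span_singleton.1 hy
    have h1 : castf z - (c / c₀) • castf z₀ ∈ Submodule.span ℂ (castf '' S) := by
      rw [← he, ← he₀, smul_add, smul_smul, div_mul_cancel₀ _ hc₀]
      have : u + c • α - ((c / c₀) • u₀ + c • α) = u - (c / c₀) • u₀ := by abel
      rw [this]
      exact Submodule.sub_mem _ hu (Submodule.smul_mem _ _ hu₀)
    have h2 := hU _ h1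
    rw [map_sub, hτs1, hτs] at h2
    refine ⟨τ (c / c₀), ?_⟩
    rw [← Submodule.Quotient.mk_smul, eq_comm, ← sub_eq_zero, ← Submodule.Quotient.mk_sub,
      Submodule.Quotient.mk_eq_zero]
    exact h2

end descent

section davenport

/-- Any `d` elements of `ℤ/d` contain a nonempty subset of sum zero. -/
theorem exists_zero_sum {d t : ℕ} [NeZero d] (c : Fin t → ZMod d) (T : Finset (Fin t))
    (hT : d ≤ T.card) : ∃ S ⊆ T, S.Nonempty ∧ S.card ≤ d ∧ ∑ k ∈ S, c k = 0 := by
  classical
  obtain ⟨T', hT', hcard⟩ := Finset.exists_subset_card_eq hT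
  let e : Fin d ≃ T' := (Finset.equivFinOfCardEq hcard).symm
  let pre : Fin (d + 1) → Finset (Fin t) := fun j =>
    (Finset.univ.filter (fun m : Fin d => (m : ℕ) < j)).map
      ((Equiv.toEmbedding e).trans (Function.Embedding.subtype _))
  let s : Fin (d + 1) → ZMod d := fun j => ∑ k ∈ pre j, c k
  have hpre : ∀ j, pre j ⊆ T := by
    intro j x hx
    rw [Finset.mem_map] at hx
    obtain ⟨m, _, rfl⟩ := hx
    exact hT' (e m).2
  have hmono : ∀ i j : Fin (d + 1), i ≤ j → pre i ⊆ pre j := by
    intro i j hij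
    apply Finset.map_subset_map.2
    intro m hm
    rw [Finset.mem_filter] at hm ⊢
    exact ⟨hm.1, lt_of_lt_of_le hm.2 hij⟩
  have hcardp : ∀ j : Fin (d + 1), (pre j).card = j := by
    intro j
    change (Finset.map _ _).card = _
    rw [Finset.card_map]
    have : (Finset.univ.filter (fun m : Fin d => (m : ℕ) < j)).card = (Finset.range j).card := by
      refine Finset.card_bij (fun m _ => (m : ℕ)) ?_ ?_ ?_
      · intro m hm; rw [Finset.mem_filter] at hm; exact Finset.mem_range.2 hm.2
      · intro m _ m' _ h; exact Fin.ext h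
      · intro m hm
        rw [Finset.mem_range] at hm
        have := j.2
        exact ⟨⟨m, by omega⟩, by rw [Finset.mem_filter]; exact ⟨Finset.mem_univ _, hm⟩, rfl⟩
    rw [this, Finset.card_range]
  obtain ⟨i, j, hij, hs⟩ : ∃ i j : Fin (d + 1), i ≠ j ∧ s i = s j := by
    apply Fintype.exists_ne_map_eq_of_card_lt
    rw [ZMod.card, Fintype.card_fin]
    omega
  have key : ∀ i j : Fin (d + 1), i < j → s i = s j →
      ∃ S ⊆ T, S.Nonempty ∧ S.card ≤ d ∧ ∑ k ∈ S, c k = 0 := by
    intro i j hij hs
    refine ⟨pre j \ pre i, Finset.sdiff_subset.trans (hpre j), ?_, ?_, ?_⟩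
    · rw [← Finset.card_pos, Finset.card_sdiff_of_subset (hmono i j hij.le), hcardp, hcardp]
      have : (i : ℕ) < j := hij
      omega
    · rw [Finset.card_sdiff_of_subset (hmono i j hij.le), hcardp, hcardp]
      have := j.2
      omega
    · have := Finset.sum_sdiff (hmono i j hij.le) (f := c)
      change ∑ k ∈ pre i, c k = ∑ k ∈ pre j, c k at hs
      rw [← this] at hs
      have h2 : ∑ k ∈ pre j \ pre i, c k + ∑ k ∈ pre i, c k = 0 + ∑ k ∈ pre i, c k := by
        rw [← hs, zero_add]
      exact add_right_cancel h2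
  rcases lt_or_gt_of_ne hij with h | h
  · exact key i j h hs
  · exact key j i h hs.symm

theorem davenport {d t : ℕ} [NeZero d] (c : Fin t → ZMod d) : ∀ (m : ℕ) (T : Finset (Fin t)),
    d * m < T.card → ∑ k ∈ T, c k = 0 → ∃ π : Fin t → Fin (m + 1),
      (∀ l, ∃ k ∈ T, π k = l) ∧ ∀ l, ∑ k ∈ T, (if π k = l then c k else 0) = 0 := by
  classical
  intro m
  induction m with
  | zero =>
    intro T hT hs
    refine ⟨fun _ => 0, fun l => ?_, fun l => ?_⟩
    · obtain ⟨k, hk⟩ := Finset.card_pos.1 (lt_of_le_of_lt (Nat.zero_le _) hT)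
      exact ⟨k, hk, (Fin.fin_one_eq_zero l).symm⟩
    · simp only [Fin.fin_one_eq_zero l, if_true]
      exact hs
  | succ m ih =>
    intro T hT hs
    obtain ⟨S, hST, hSne, hSd, hS0⟩ := exists_zero_sum c T (by nlinarith)
    have hcard : (T \ S).card = T.card - S.card := Finset.card_sdiff_of_subset hST
    obtain ⟨π, hπ1, hπ2⟩ := ih (T \ S) (by
      rw [hcard]
      have : d * (m + 1) = d * m + d := by ring
      omega) (by
      have := Finset.sum_sdiff hST (f := c)
      rw [hS0, add_zero, hs] at this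
      exact this)
    refine ⟨fun k => if k ∈ S then Fin.last (m + 1) else (π k).castSucc, ?_, ?_⟩
    · intro l
      refine Fin.lastCases ?_ (fun l => ?_) l
      · obtain ⟨k, hk⟩ := hSne
        exact ⟨k, hST hk, if_pos hk⟩
      · obtain ⟨k, hk, hkl⟩ := hπ1 l
        rw [Finset.mem_sdiff] at hk
        refine ⟨k, hk.1, ?_⟩
        change (if k ∈ S then Fin.last (m + 1) else (π k).castSucc) = l.castSucc
        rw [if_neg hk.2, hkl]
    · intro l
      rw [← Finset.sum_sdiff hST]
      refine Fin.lastCases ?_ (fun l => ?_) l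
      · have h1 : ∑ k ∈ T \ S, (if (if k ∈ S then Fin.last (m + 1) else (π k).castSucc) =
            Fin.last (m + 1) then c k else 0) = 0 := by
          apply Finset.sum_eq_zero
          intro k hk
          rw [Finset.mem_sdiff] at hk
          rw [if_neg hk.2, if_neg (Fin.castSucc_ne_last _)]
        have h2 : ∑ k ∈ S, (if (if k ∈ S then Fin.last (m + 1) else (π k).castSucc) =
            Fin.last (m + 1) then c k else 0) = ∑ k ∈ S, c k := by
          apply Finset.sum_congr rfl
          intro k hk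
          rw [if_pos hk, if_pos rfl]
        rw [h1, h2, hS0, zero_add]
      · have h1 : ∑ k ∈ T \ S, (if (if k ∈ S then Fin.last (m + 1) else (π k).castSucc) =
            l.castSucc then c k else 0) = ∑ k ∈ T \ S, (if π k = l then c k else 0) := by
          apply Finset.sum_congr rfl
          intro k hk
          rw [Finset.mem_sdiff] at hk
          rw [if_neg hk.2]
          simp only [Fin.castSucc_inj]
        have h2 : ∑ k ∈ S, (if (if k ∈ S then Fin.last (m + 1) else (π k).castSucc) =
            l.castSucc then c k else 0) = 0 := by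
          apply Finset.sum_eq_zero
          intro k hk
          rw [if_pos hk, if_neg (Fin.castSucc_ne_last _).symm]
        rw [h1, h2, hπ2, add_zero]

end davenport

end Pool.Agent.Bloch
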