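import Mathlib

open Cardinal

namespace Pool.Agent.Bloch

variable (K : Type) [Field K]

/-- transcendence degree, as a natural number -/
noncomputable def td (A : Type) [CommRing A] [Algebra K A] : ℕ :=
  Cardinal.toNat (Algebra.trdeg K A)

/-- dimension of the closure of a point of `Spec R`, for an algebra over a field `K` -/
noncomputable def dl {R : Type} [CommRing R] [Algebra K R] (p : PrimeSpectrum R) : ℕ :=
  td K (R ⧸ p.asIdeal)

theorem trdeg_lt (A : Type) [CommRing A] [IsDomain A] [Algebra K A]
    [Algebra.EssFiniteType K A] : Algebra.trdeg K A < ℵ₀ := by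
  have h : Algebra.EssFiniteType K A := inferInstance
  rw [Algebra.essFiniteType_iff_exists_subalgebra] at h
  obtain ⟨S₀, M, fin, islocal⟩ := h
  rw [← _root_.trdeg_add_eq K S₀ (A := A), _root_.trdeg_eq_zero_iff.2 islocal.isAlgebraic,
    add_zero]
  exact _root_.trdeg_lt_aleph0_of_finiteType

theorem coe_td (A : Type) [CommRing A] [IsDomain A] [Algebra K A] [Algebra.EssFiniteType K A] :
    ((td K A : ℕ) : Cardinal) = Algebra.trdeg K A :=
  Cardinal.cast_toNat_of_lt_aleph0 (trdeg_lt K A)

/-- An injective algebraic homomorphism preserves the transcendence degree. -/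
theorem td_eq_of_algebraic {A B : Type} [CommRing A] [CommRing B] [IsDomain B]
    [Algebra K A] [Algebra K B] (f : A →ₐ[K] B) (hf : Function.Injective f)
    (h : ∀ b : B, ∃ P : Polynomial A, P ≠ 0 ∧ P.eval₂ (f : A →+* B) b = 0) :
    td K A = td K B := by
  letI : Algebra A B := f.toRingHom.toAlgebra
  haveI : IsScalarTower K A B := IsScalarTower.of_algebraMap_eq (fun x => (f.commutes x).symm)
  haveI : FaithfulSMul A B := (faithfulSMul_iff_algebraMap_injective A B).2 hf
  haveI : Nontrivial A := by
    by_contra hA
    rw [not_nontrivial_iff_subsingleton] at hA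
    have : (1 : B) = 0 := by
      rw [← map_one f, Subsingleton.elim (1 : A) 0, map_zero]
    exact one_ne_zero this
  haveI : IsDomain A := hf.isDomain f.toRingHom
  have halg : Algebra.IsAlgebraic A B := ⟨fun b => by
    obtain ⟨P, hP, h0⟩ := h b
    exact ⟨P, hP, h0⟩⟩
  unfold td
  rw [← _root_.trdeg_add_eq K A (A := B), _root_.trdeg_eq_zero_iff.2 halg, add_zero]

theorem td_le_of_injective {A B : Type} [CommRing A] [CommRing B] [IsDomain B]
    [Algebra K A] [Algebra K B] [Algebra.EssFiniteType K B] (f : A →ₐ[K] B)
    (hf : Function.Injective f) :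
    td K A ≤ td K B :=
  Cardinal.toNat_le_toNat (_root_.trdeg_le_of_injective f hf) (trdeg_lt K B)

/-- If `B` is generated by one element over the image of `A` then the transcendence degree
increases by at most one. -/
theorem td_le_succ {A B : Type} [CommRing A] [CommRing B] [IsDomain B]
    [Algebra K A] [Algebra K B] [Algebra.EssFiniteType K A] (f : Polynomial A →ₐ[K] B)
    (hf : Function.Surjective f) (hinj : Function.Injective fun a : A => f (Polynomial.C a)) :
    td K B ≤ td K A + 1 := by
  let g : A →+* B := (f : Polynomial A →+* B).comp Polynomial.C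
  letI : Algebra A B := g.toAlgebra
  haveI : IsScalarTower K A B := IsScalarTower.of_algebraMap_eq (fun x => by
    change _ = f (Polynomial.C (algebraMap K A x))
    rw [← f.commutes x]; rfl)
  haveI : FaithfulSMul A B := (faithfulSMul_iff_algebraMap_injective A B).2 hinj
  haveI : IsDomain A := (FaithfulSMul.algebraMap_injective A B).isDomain
  have h1 : Algebra.trdeg A B ≤ 1 := by
    have hsurj : Function.Surjective (Polynomial.aeval (R := A) (f Polynomial.X)) := by
      intro b
      obtain ⟨P, rfl⟩ := hf b
      refine ⟨P, ?_⟩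
      induction P using Polynomial.induction_on' with
      | add p q hp hq => rw [map_add, map_add, hp, hq]
      | monomial n a =>
        rw [Polynomial.aeval_monomial, ← Polynomial.C_mul_X_pow_eq_monomial, map_mul, map_pow]
        rfl
    have := _root_.trdeg_le_of_surjective _ hsurj
    rwa [Polynomial.trdeg_of_isDomain] at this
  have h2 : Algebra.trdeg K B ≤ Algebra.trdeg K A + 1 := by
    rw [← _root_.trdeg_add_eq K A (A := B)]
    gcongr
  have h3 : Algebra.trdeg K A + 1 < ℵ₀ :=
    Cardinal.add_lt_aleph0 (trdeg_lt K A) Cardinal.one_lt_aleph0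
  calc td K B ≤ Cardinal.toNat (Algebra.trdeg K A + 1) := Cardinal.toNat_le_toNat h2 h3
    _ = td K A + 1 := by
      rw [Cardinal.toNat_add (trdeg_lt K A) Cardinal.one_lt_aleph0]
      simp [td]

theorem td_polynomial (A : Type) [CommRing A] [IsDomain A] [Algebra K A]
    [Algebra.EssFiniteType K A] [FaithfulSMul K A] :
    td K (Polynomial A) = td K A + 1 := by
  unfold td
  rw [← _root_.trdeg_add_eq K A (A := Polynomial A), Polynomial.trdeg_of_isDomain,
    Cardinal.toNat_add (trdeg_lt K A) Cardinal.one_lt_aleph0]
  simp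

/-- Strict decrease of the dimension under specialisation. -/
theorem td_quotient_lt {A : Type} [CommRing A] [IsDomain A] [Algebra K A]
    [Algebra.EssFiniteType K A]
    (q : Ideal A) [q.IsPrime] (hq : q ≠ ⊥) : td K (A ⧸ q) < td K A := by
  have hle : Algebra.trdeg K (A ⧸ q) ≤ Algebra.trdeg K A :=
    _root_.trdeg_le_of_surjective (Ideal.Quotient.mkₐ K q) (Ideal.Quotient.mkₐ_surjective K q)
  have hlt : Algebra.trdeg K (A ⧸ q) < Algebra.trdeg K A := by
    refine lt_of_le_of_ne hle ?_
    intro heq
    obtain ⟨ι, x, hx⟩ := exists_isTranscendenceBasis' K (A ⧸ q)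
    have hcard := hx.cardinalMk_eq_trdeg
    haveI : Finite ι := by
      rw [← Cardinal.lt_aleph0_iff_finite, hcard]
      exact lt_of_le_of_lt hle (trdeg_lt K A)
    choose y hy using fun i => Ideal.Quotient.mkₐ_surjective K q (x i)
    have hxy : (Ideal.Quotient.mkₐ K q) ∘ y = x := funext hy
    have hyi : AlgebraicIndependent K y := by
      apply AlgebraicIndependent.of_comp (Ideal.Quotient.mkₐ K q)
      rw [hxy]; exact hx.1
    have hyb : IsTranscendenceBasis K y :=
      AlgebraicIndependent.isTranscendenceBasis_of_trdeg_le_of_finite hyi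
        (by rw [hcard, heq])
    obtain ⟨a, haq, ha0⟩ := Submodule.exists_mem_ne_zero_of_ne_bot hq
    have halg := hyb.isAlgebraic
    obtain ⟨r, hr0, hr⟩ := (halg.isAlgebraic a).exists_nonzero_dvd
      (mem_nonZeroDivisors_of_ne_zero ha0)
    have hrq : (r : A) ∈ q := Ideal.mem_of_dvd _ hr haq
    obtain ⟨r, hrmem⟩ := r
    rw [Algebra.adjoin_range_eq_range_aeval] at hrmem
    obtain ⟨P, hP⟩ := hrmem
    have hP' : MvPolynomial.aeval y P = r := hP
    have hz : MvPolynomial.aeval x P = 0 := by
      have : MvPolynomial.aeval x P = Ideal.Quotient.mkₐ K q (MvPolynomial.aeval y P) := by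
        rw [← hxy]
        exact (MvPolynomial.comp_aeval_apply y (Ideal.Quotient.mkₐ K q) P).symm
      rw [this, hP']
      exact Ideal.Quotient.eq_zero_iff_mem.2 hrq
    have hP0 : P = 0 := by
      apply hx.1
      rw [hz, map_zero]
    apply hr0
    apply Subtype.ext
    change r = 0
    rw [← hP', hP0, map_zero]
  exact Cardinal.toNat_lt_toNat hlt (trdeg_lt K A)

end Pool.Agent.Bloch
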