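import Pool.Agent.Bloch.Dim

open Cardinal

set_option linter.unusedSectionVars false

namespace Pool.Agent.Bloch

variable (K : Type) [Field K]

theorem td_congr {A B : Type} [CommRing A] [CommRing B] [Algebra K A] [Algebra K B]
    (e : A ≃ₐ[K] B) : td K A = td K B := by
  unfold td
  congr 1
  exact le_antisymm (_root_.trdeg_le_of_injective (e : A →ₐ[K] B) e.injective)
    (_root_.trdeg_le_of_injective (e.symm : B →ₐ[K] A) e.symm.injective)

section
variable {R : Type} [CommRing R] [Algebra K R] [Algebra.EssFiniteType K R]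

/-- The dimension drops strictly under specialisation. -/
theorem dl_lt {p q : PrimeSpectrum R} (h : p < q) : dl K q < dl K p := by
  have hle : p.asIdeal ≤ q.asIdeal := le_of_lt h
  let q' : Ideal (R ⧸ p.asIdeal) := q.asIdeal.map (Ideal.Quotient.mkₐ K p.asIdeal)
  have e : ((R ⧸ p.asIdeal) ⧸ q') ≃ₐ[K] (R ⧸ q.asIdeal) := DoubleQuot.quotQuotEquivQuotOfLEₐ K hle
  haveI : q'.IsPrime := by
    have : IsDomain ((R ⧸ p.asIdeal) ⧸ q') := e.toRingEquiv.toMulEquiv.isDomain _
    exact (Ideal.Quotient.isDomain_iff_prime q').1 this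
  have hne : q' ≠ ⊥ := by
    intro h0
    apply not_le_of_gt h
    intro x hx
    have : Ideal.Quotient.mkₐ K p.asIdeal x ∈ q' := Ideal.mem_map_of_mem _ hx
    rw [h0, Ideal.mem_bot] at this
    exact Ideal.Quotient.eq_zero_iff_mem.1 this
  have h1 := td_quotient_lt K q' hne
  rw [td_congr K e] at h1
  exact h1

theorem dl_le {p q : PrimeSpectrum R} (h : p ≤ q) : dl K q ≤ dl K p := by
  rcases eq_or_lt_of_le h with h | h
  · rw [h]
  · exact le_of_lt (dl_lt K h)

theorem eq_of_le_of_dl {p q : PrimeSpectrum R} (h : p ≤ q) (h' : dl K p ≤ dl K q) : p = q := by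
  rcases eq_or_lt_of_le h with h | h
  · exact h
  · exact absurd (dl_lt K h) (not_lt_of_ge h')

end

section
variable {A B : Type} [CommRing A] [CommRing B] [Algebra K A] [Algebra K B]

/-- the contraction of a prime -/
def ctr {A B : Type} [CommRing A] [CommRing B] [Algebra K A] [Algebra K B]
    (φ : A →ₐ[K] B) (P : PrimeSpectrum B) : PrimeSpectrum A :=
  PrimeSpectrum.comap (φ : A →+* B) P

theorem mem_ctr (φ : A →ₐ[K] B) (P : PrimeSpectrum B) (a : A) :
    a ∈ (ctr K φ P).asIdeal ↔ φ a ∈ P.asIdeal := Iff.rfl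

theorem ctr_mono (φ : A →ₐ[K] B) {P Q : PrimeSpectrum B} (h : P ≤ Q) :
    ctr K φ P ≤ ctr K φ Q := fun _ hx => h hx

/-- the induced map on residue rings -/
noncomputable def qmap (φ : A →ₐ[K] B) (P : PrimeSpectrum B) :
    (A ⧸ (ctr K φ P).asIdeal) →ₐ[K] (B ⧸ P.asIdeal) :=
  Ideal.quotientMapₐ P.asIdeal φ le_rfl

theorem qmap_mk (φ : A →ₐ[K] B) (P : PrimeSpectrum B) (a : A) :
    qmap K φ P (Ideal.Quotient.mk _ a) = Ideal.Quotient.mk _ (φ a) := rfl

theorem qmap_injective (φ : A →ₐ[K] B) (P : PrimeSpectrum B) :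
    Function.Injective (qmap K φ P) := by
  rw [injective_iff_map_eq_zero]
  intro a ha
  obtain ⟨a, rfl⟩ := Ideal.Quotient.mk_surjective a
  rw [qmap_mk, Ideal.Quotient.eq_zero_iff_mem] at ha
  exact Ideal.Quotient.eq_zero_iff_mem.2 ha

theorem dl_ctr_le [Algebra.EssFiniteType K B] (φ : A →ₐ[K] B) (P : PrimeSpectrum B) :
    dl K (ctr K φ P) ≤ dl K P :=
  td_le_of_injective K (qmap K φ P) (qmap_injective K φ P)

/-- Contraction preserves the dimension if every element satisfies a nontrivial equation. -/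
theorem dl_ctr_eq (φ : A →ₐ[K] B) (P : PrimeSpectrum B)
    (h : ∀ b : B, ∃ F : Polynomial A, F.eval₂ (φ : A →+* B) b ∈ P.asIdeal ∧
      ∃ n, F.coeff n ∉ (ctr K φ P).asIdeal) :
    dl K (ctr K φ P) = dl K P := by
  apply td_eq_of_algebraic K (qmap K φ P) (qmap_injective K φ P)
  intro b
  obtain ⟨b, rfl⟩ := Ideal.Quotient.mk_surjective b
  obtain ⟨F, hF, n, hn⟩ := h b
  refine ⟨F.map (Ideal.Quotient.mk _), ?_, ?_⟩
  · intro h0
    apply hn
    have : (F.map (Ideal.Quotient.mk (ctr K φ P).asIdeal)).coeff n = 0 := by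
      rw [h0, Polynomial.coeff_zero]
    rw [Polynomial.coeff_map] at this
    exact Ideal.Quotient.eq_zero_iff_mem.1 this
  · rw [Polynomial.eval₂_map]
    have : ((qmap K φ P : _ →+* (B ⧸ P.asIdeal)).comp (Ideal.Quotient.mk (ctr K φ P).asIdeal))
        = (Ideal.Quotient.mk P.asIdeal).comp (φ : A →+* B) := by
      ext a; rfl
    rw [this, ← Polynomial.hom_eval₂]
    exact Ideal.Quotient.eq_zero_iff_mem.2 hF

theorem dl_ctr_eq_of_integral (φ : A →ₐ[K] B) (hφ : (φ : A →+* B).IsIntegral)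
    (P : PrimeSpectrum B) : dl K (ctr K φ P) = dl K P := by
  apply dl_ctr_eq
  intro b
  obtain ⟨F, hF, h0⟩ := hφ b
  refine ⟨F, by rw [h0]; exact P.asIdeal.zero_mem, F.natDegree, ?_⟩
  rw [hF.coeff_natDegree]
  intro h1
  exact (ctr K φ P).2.ne_top ((Ideal.eq_top_iff_one _).2 h1)

/-- local quotient maps preserve the dimension -/
theorem dl_ctr_eq_of_frac (φ : A →ₐ[K] B) (P : PrimeSpectrum B)
    (h : ∀ b : B, ∃ u a : A, b * φ u = φ a ∧ φ u ∉ P.asIdeal) :
    dl K (ctr K φ P) = dl K P := by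
  apply dl_ctr_eq
  intro b
  obtain ⟨u, a, h1, h2⟩ := h b
  refine ⟨Polynomial.C u * Polynomial.X - Polynomial.C a, ?_, 1, ?_⟩
  · have : (Polynomial.C u * Polynomial.X - Polynomial.C a).eval₂ (φ : A →+* B) b = 0 := by
      rw [Polynomial.eval₂_sub, Polynomial.eval₂_mul, Polynomial.eval₂_C, Polynomial.eval₂_X,
        Polynomial.eval₂_C]
      change φ u * b - φ a = 0
      rw [mul_comm, h1, sub_self]
    rw [this]; exact P.asIdeal.zero_mem
  · simpa [Polynomial.coeff_C, mem_ctr] using h2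

end

section poly
variable {A : Type} [CommRing A] [Algebra K A] [Algebra.EssFiniteType K A]

/-- the inclusion of `A` in `A[X]` -/
noncomputable abbrev polyC (A : Type) [CommRing A] [Algebra K A] : A →ₐ[K] Polynomial A :=
  Polynomial.CAlgHom

theorem polyC_apply (a : A) : polyC K A a = Polynomial.C a := rfl

instance essPoly : Algebra.EssFiniteType K (Polynomial A) :=
  Algebra.EssFiniteType.comp K A (Polynomial A)

/-- the extension of a prime to the polynomial ring -/
noncomputable def ext {A : Type} [CommRing A] (p : PrimeSpectrum A) :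
    PrimeSpectrum (Polynomial A) :=
  ⟨p.asIdeal.map Polynomial.C, by
    haveI := p.2
    exact Ideal.isPrime_map_C_of_isPrime⟩

theorem mem_ext (p : PrimeSpectrum A) (f : Polynomial A) :
    f ∈ (ext p).asIdeal ↔ ∀ n, f.coeff n ∈ p.asIdeal := Ideal.mem_map_C_iff

theorem ctr_ext (p : PrimeSpectrum A) : ctr K (polyC K A) (ext p) = p := by
  apply PrimeSpectrum.ext
  ext a
  rw [mem_ctr, polyC_apply, mem_ext]
  constructor
  · intro h; simpa using h 0
  · intro h n
    rw [Polynomial.coeff_C]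
    split_ifs
    · exact h
    · exact p.asIdeal.zero_mem

theorem ext_ctr_le (P : PrimeSpectrum (Polynomial A)) : ext (ctr K (polyC K A) P) ≤ P := by
  change (Ideal.map Polynomial.C (Ideal.comap Polynomial.C P.asIdeal)) ≤ P.asIdeal
  exact Ideal.map_comap_le

theorem dl_ext (p : PrimeSpectrum A) : dl K (ext p) = dl K p + 1 := by
  unfold dl
  rw [← td_polynomial K (A ⧸ p.asIdeal)]
  symm
  let e : Polynomial (A ⧸ p.asIdeal) ≃+* (Polynomial A ⧸ (p.asIdeal.map Polynomial.C)) :=
    Ideal.polynomialQuotientEquivQuotientPolynomial p.asIdeal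
  refine td_congr K (AlgEquiv.ofRingEquiv (f := e) ?_)
  intro r
  have h1 : algebraMap K (Polynomial (A ⧸ p.asIdeal)) r
      = (Polynomial.C (algebraMap K A r)).map (Ideal.Quotient.mk p.asIdeal) := by
    rw [Polynomial.map_C]; rfl
  rw [h1]
  change (Ideal.polynomialQuotientEquivQuotientPolynomial p.asIdeal) _ = _
  rw [Ideal.polynomialQuotientEquivQuotientPolynomial_map_mk]
  rfl

theorem dl_le_ctr_succ (P : PrimeSpectrum (Polynomial A)) :
    dl K P ≤ dl K (ctr K (polyC K A) P) + 1 := by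
  rw [← dl_ext]
  exact dl_le K (ext_ctr_le K P)

/-- A prime which is not extended has the same dimension as its contraction. -/
theorem dl_eq_ctr_of_ne (P : PrimeSpectrum (Polynomial A))
    (h : P ≠ ext (ctr K (polyC K A) P)) : dl K P = dl K (ctr K (polyC K A) P) := by
  have hlt : ext (ctr K (polyC K A) P) < P := lt_of_le_of_ne (ext_ctr_le K P) (Ne.symm h)
  have h1 := dl_lt K hlt
  rw [dl_ext] at h1
  have h2 := dl_ctr_le K (polyC K A) P
  omega

end poly

end Pool.Agent.Bloch
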