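import Pool.Agent.Bloch.Cycle

set_option linter.unusedSectionVars false

open TensorProduct

namespace Pool.Agent.Bloch

variable (K : Type) [Field K] (𝕜 : Type) [Field 𝕜] [CharZero 𝕜]

section
variable {A : Type} [CommRing A] [Algebra K A] [Algebra.EssFiniteType K A] [IsNoetherianRing A]
variable (B : Type) [CommRing B] [Algebra K B] [Algebra.EssFiniteType K B] [IsNoetherianRing B]
variable [Algebra A B] [IsScalarTower K A B]

/-- contraction along the structure map -/
noncomputable abbrev ct {A : Type} [CommRing A] [Algebra K A] {B : Type} [CommRing B] [Algebra K B]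
    [Algebra A B] [IsScalarTower K A B] (P : PrimeSpectrum B) : PrimeSpectrum A :=
  ctr K (IsScalarTower.toAlgHom K A B) P

/-- flat pull-back of cycles of relative dimension `ρ` -/
noncomputable def pull (ρ : ℕ) : (PrimeSpectrum A →₀ 𝕜) →ₗ[𝕜] (PrimeSpectrum B →₀ 𝕜) :=
  Finsupp.linearCombination 𝕜
    (fun p : PrimeSpectrum A => cyc K 𝕜 (dl K p + ρ) (B ⧸ p.asIdeal.map (algebraMap A B)))

theorem pull_single (ρ : ℕ) (p : PrimeSpectrum A) (c : 𝕜) :
    pull K 𝕜 B ρ (Finsupp.single p c) =
      c • cyc K 𝕜 (dl K p + ρ) (B ⧸ p.asIdeal.map (algebraMap A B)) := by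
  unfold pull
  rw [Finsupp.linearCombination_single]

variable {M N P : Type} [AddCommGroup M] [Module A M] [AddCommGroup N] [Module A N]
  [AddCommGroup P] [Module A P]

theorem support_tensor_le (hM : Module.Finite A M) {P : PrimeSpectrum B}
    (hP : P ∈ Module.support B (B ⊗[A] M)) : ct K P ∈ Module.support A M := by
  rw [Module.mem_support_iff_of_finite]
  intro a ha
  change algebraMap A B a ∈ P.asIdeal
  apply Module.annihilator_le_of_mem_support hP
  rw [Module.mem_annihilator] at ha ⊢
  intro x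
  induction x using TensorProduct.induction_on with
  | zero => rw [smul_zero]
  | tmul b m => rw [algebraMap_smul, ← TensorProduct.tmul_smul, ha, TensorProduct.tmul_zero]
  | add x y hx hy => rw [smul_add, hx, hy, add_zero]

theorem bd_tensor {k ρ : ℕ} (hρ : ∀ P : PrimeSpectrum B, dl K P ≤ dl K (ct K (A := A) P) + ρ)
    (h : Bd K (R := A) k M) : Bd K (R := B) (k + ρ) (B ⊗[A] M) := by
  haveI := h.1
  refine ⟨inferInstance, fun P hP => ?_⟩
  have h1 := h.2 _ (support_tensor_le K B h.1 hP)
  have h2 := hρ P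
  omega

theorem cyc_tensor [Module.Flat A B] {k ρ : ℕ}
    (hρ : ∀ P : PrimeSpectrum B, dl K P ≤ dl K (ct K (A := A) P) + ρ)
    (h : Bd K (R := A) k M) :
    cyc K 𝕜 (R := B) (k + ρ) (B ⊗[A] M) = pull K 𝕜 B ρ (cyc K 𝕜 (R := A) k M) := by
  obtain ⟨hM, hb⟩ := h
  revert hb
  induction hM using IsNoetherianRing.induction_on_isQuotientEquivQuotientPrime A with
  | subsingleton N =>
    intro hb
    rw [cyc_eq_zero K 𝕜 (R := A) (M := N), map_zero, cyc_eq_zero]
    · intro p hp
      rw [Module.support_eq_empty] at hp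
      exact absurd hp (Set.notMem_empty _)
    · intro p hp
      rw [Module.support_eq_empty] at hp
      exact absurd hp (Set.notMem_empty _)
  | quotient N q e =>
    intro hb
    have hqN : q ∈ Module.support A N := by
      rw [e.support_eq, support_quot]
      exact le_refl q.asIdeal
    have hqk := hb q hqN
    rw [cyc_congr K 𝕜 (R := A) e]
    rcases eq_or_lt_of_le hqk with hq | hq
    · rw [cyc_quot_self K 𝕜 q hq, pull_single, one_smul, hq]
      refine cyc_congr K 𝕜 ?_
      exact (LinearEquiv.baseChange A B _ _ e).trans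
        (Algebra.TensorProduct.quotIdealMapEquivTensorQuot B q.asIdeal).toLinearEquiv.symm
    · rw [cyc_eq_zero K 𝕜 (R := A) (M := A ⧸ q.asIdeal), map_zero, cyc_eq_zero]
      · intro P hP
        have h1 := support_tensor_le K B ‹_› hP
        rw [e.support_eq, support_quot] at h1
        have h2 := dl_le K (show q ≤ ct K P from h1)
        have h3 := hρ P
        omega
      · intro p hp
        rw [support_quot] at hp
        have := dl_le K (show q ≤ p from hp)
        omega
  | exact N₁ N₂ N₃ f g hf hg hfg h₁ h₃ =>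
    intro hb
    have f1 : Module.Finite A N₁ := Module.Finite.of_injective f hf
    have f3 : Module.Finite A N₃ := Module.Finite.of_surjective g hg
    have hb2 : Bd K (R := A) k N₂ := ⟨‹_›, hb⟩
    have hb1 := bd_of_injective K hb2 f hf
    have hb3 := bd_of_surjective K hb2 g hg
    rw [cyc_exact K 𝕜 hb2 f g hf hg hfg, map_add, ← h₁ hb1.2, ← h₃ hb3.2]
    refine cyc_exact K 𝕜 (bd_tensor K B hρ hb2) (f.baseChange B) (g.baseChange B) ?_ ?_ ?_
    · rw [LinearMap.baseChange_eq_ltensor]
      exact Module.Flat.lTensor_preserves_injective_linearMap f hf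
    · rw [LinearMap.baseChange_eq_ltensor]
      exact LinearMap.lTensor_surjective B hg
    · rw [LinearMap.baseChange_eq_ltensor, LinearMap.baseChange_eq_ltensor]
      exact lTensor_exact B hfg hg

/-- The flat pull-back of a principal divisor. -/
theorem pull_divCyc [Module.Flat A B] {k ρ : ℕ}
    (hρ : ∀ P : PrimeSpectrum B, dl K P ≤ dl K (ct K (A := A) P) + ρ)
    (q : PrimeSpectrum A) (hq : dl K q = k + 1) (a : A) (ha : a ∉ q.asIdeal) :
    pull K 𝕜 B ρ (divCyc K 𝕜 k q a) ∈
      Submodule.span 𝕜 {z : PrimeSpectrum B →₀ 𝕜 | ∃ Q : PrimeSpectrum B, q ≤ ct K Q ∧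
        dl K Q = k + ρ + 1 ∧ z = divCyc K 𝕜 (k + ρ) Q (algebraMap A B a)} := by
  have hinj : Function.Injective (mul a (A ⧸ q.asIdeal)) := by
    rw [injective_iff_map_eq_zero]
    intro x hx
    obtain ⟨x, rfl⟩ := Ideal.Quotient.mk_surjective x
    have h3 : Ideal.Quotient.mk q.asIdeal (a * x) = 0 := hx
    rw [Ideal.Quotient.eq_zero_iff_mem] at h3
    exact Ideal.Quotient.eq_zero_iff_mem.2 ((q.2.mem_or_mem h3).resolve_left ha)
  have hbd : Bd K (R := A) k (Ck a (A ⧸ q.asIdeal)) := by
    refine bd_ck K (Z := {p | q ≤ p}) inferInstance ?_ ?_ ?_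
    · rw [support_quot]; exact fun p hp => hp
    · intro p hp; rw [← hq]; exact dl_le K hp
    · intro p hp hp2
      have : q = p := eq_of_le_of_dl K hp (by rw [hq, hp2])
      rw [← this]; exact ha
  have e1 : divCyc K 𝕜 k q a = cyc K 𝕜 (R := A) k (Ck a (A ⧸ q.asIdeal)) :=
    (cyc_congr K 𝕜 (ckQuot q.asIdeal a)).symm
  rw [e1, ← cyc_tensor K 𝕜 B hρ hbd]
  have hm : (mul a (A ⧸ q.asIdeal)).baseChange B
      = mul (algebraMap A B a) (B ⊗[A] (A ⧸ q.asIdeal)) := by
    apply LinearMap.ext
    intro x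
    induction x using TensorProduct.induction_on with
    | zero => rw [map_zero, map_zero]
    | tmul b m =>
      rw [LinearMap.baseChange_tmul, mul_apply, mul_apply, algebraMap_smul,
        ← TensorProduct.tmul_smul]
    | add x y hx hy => rw [map_add, map_add, hx, hy]
  have e2 : cyc K 𝕜 (R := B) (k + ρ) (B ⊗[A] Ck a (A ⧸ q.asIdeal)) =
      cyc K 𝕜 (R := B) (k + ρ) (Ck (algebraMap A B a) (B ⊗[A] (A ⧸ q.asIdeal))) := by
    apply cyc_congr
    let g : (B ⊗[A] (A ⧸ q.asIdeal)) →ₗ[B] (B ⊗[A] Ck a (A ⧸ q.asIdeal)) :=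
      (LinearMap.range (mul a (A ⧸ q.asIdeal))).mkQ.baseChange B
    have hg : Function.Surjective g := by
      change Function.Surjective (LinearMap.baseChange B _)
      rw [LinearMap.baseChange_eq_ltensor]
      exact LinearMap.lTensor_surjective B (Submodule.mkQ_surjective _)
    have hk : LinearMap.ker g = LinearMap.range (mul (algebraMap A B a) (B ⊗[A] (A ⧸ q.asIdeal))) := by
      rw [← hm]
      apply Function.Exact.linearMap_ker_eq
      change Function.Exact (LinearMap.baseChange B _) (LinearMap.baseChange B _)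
      rw [LinearMap.baseChange_eq_ltensor, LinearMap.baseChange_eq_ltensor]
      apply lTensor_exact B _ (Submodule.mkQ_surjective _)
      intro x
      rw [Submodule.mkQ_apply, Submodule.Quotient.mk_eq_zero]
      exact Iff.rfl
    exact ((Submodule.quotEquivOfEq _ _ hk.symm).trans
      (g.quotKerEquivOfSurjective hg)).symm
  have e3 : cyc K 𝕜 (R := B) (k + ρ) (Kr (algebraMap A B a) (B ⊗[A] (A ⧸ q.asIdeal))) = 0 := by
    apply cyc_eq_zero
    intro p hp
    have : Subsingleton (Kr (algebraMap A B a) (B ⊗[A] (A ⧸ q.asIdeal))) := by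
      rw [Submodule.subsingleton_iff_eq_bot, ← hm, LinearMap.ker_eq_bot,
        LinearMap.baseChange_eq_ltensor]
      exact Module.Flat.lTensor_preserves_injective_linearMap _ hinj
    rw [Module.support_eq_empty] at hp
    exact absurd hp (Set.notMem_empty _)
  rw [e2, ← sub_zero (cyc K 𝕜 (k + ρ) (Ck _ _)), ← e3]
  refine Submodule.span_mono ?_ (cyc_ck_kr K 𝕜 (k + ρ) (algebraMap A B a)
    {Q : PrimeSpectrum B | q ≤ ct K Q} ?_ ?_ inferInstance ?_)
  · rintro z ⟨Q, hQ1, hQ2, hQ3⟩
    exact ⟨Q, hQ1, hQ2, hQ3⟩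
  · intro Q hQ
    have h1 := hρ Q
    have h2 := dl_le K hQ
    omega
  · intro Q hQ hQ2
    have h1 := hρ Q
    have h3 : q = ct K Q := eq_of_le_of_dl K hQ (by omega)
    intro h4
    apply ha
    rw [h3]
    exact h4
  · intro P hP
    have h1 := support_tensor_le K B inferInstance hP
    rw [support_quot] at h1
    exact h1

end

end Pool.Agent.Bloch
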