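import Pool.Agent.Bloch.ConeB2

set_option linter.unusedSectionVars false

open TensorProduct

namespace Pool.Agent.Bloch

variable (K : Type) [Field K] (𝕜 : Type) [Field 𝕜] [CharZero 𝕜]

section
variable {R : Type} [CommRing R] [Algebra K R] [Algebra.EssFiniteType K R] [IsNoetherianRing R]
variable {M N P : Type} [AddCommGroup M] [Module R M] [AddCommGroup N] [Module R N]
  [AddCommGroup P] [Module R P]

/-- The divisor of `a` on a module, exact form. -/
theorem cyc_ck_kr_eq (k : ℕ) (a : R) (Z : Set (PrimeSpectrum R))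
    (hZ : ∀ q ∈ Z, dl K q ≤ k + 1) (ha : ∀ q ∈ Z, dl K q = k + 1 → a ∉ q.asIdeal)
    (hM : Module.Finite R M) (hsup : Module.support R M ⊆ Z) :
    cyc K 𝕜 k (Ck a M) - cyc K 𝕜 k (Kr a M) =
      Finsupp.linearCombination 𝕜 (fun q => divCyc K 𝕜 k q a) (cyc K 𝕜 (k + 1) M) := by
  revert hsup
  induction hM using IsNoetherianRing.induction_on_isQuotientEquivQuotientPrime R with
  | subsingleton N =>
    intro _
    have h1 : cyc K 𝕜 (R := R) k (Ck a N) = 0 := by
      apply cyc_eq_zero
      intro p hp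
      rw [Module.support_eq_empty] at hp
      exact absurd hp (Set.notMem_empty _)
    have h2 : cyc K 𝕜 (R := R) k (Kr a N) = 0 := by
      apply cyc_eq_zero
      intro p hp
      rw [Module.support_eq_empty] at hp
      exact absurd hp (Set.notMem_empty _)
    have h3 : cyc K 𝕜 (R := R) (k + 1) N = 0 := by
      apply cyc_eq_zero
      intro p hp
      rw [Module.support_eq_empty] at hp
      exact absurd hp (Set.notMem_empty _)
    rw [h1, h2, h3, sub_zero, map_zero]
  | quotient N q e =>
    intro hsup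
    have hq : q ∈ Z := by
      apply hsup
      rw [e.support_eq, support_quot]
      exact le_refl q.asIdeal
    by_cases hd : dl K q = k + 1
    · have haq := ha q hq hd
      have h1 : cyc K 𝕜 (R := R) k (Kr a N) = 0 := by
        apply cyc_eq_zero
        intro p hp
        have : Subsingleton (Kr a N) := by
          constructor
          rintro ⟨x, hx⟩ ⟨y, hy⟩
          have hz : ∀ x : N, a • x = 0 → x = 0 := by
            intro x hx
            have h2 : a • e x = 0 := by rw [← map_smul, hx, map_zero]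
            obtain ⟨b, hb⟩ := Ideal.Quotient.mk_surjective (e x)
            rw [← hb] at h2
            have h3 : Ideal.Quotient.mk q.asIdeal (a * b) = 0 := h2
            rw [Ideal.Quotient.eq_zero_iff_mem] at h3
            have h4 := (q.2.mem_or_mem h3).resolve_left haq
            rw [← Ideal.Quotient.eq_zero_iff_mem, hb] at h4
            exact (LinearEquiv.map_eq_zero_iff e).1 h4
          rw [Subtype.mk.injEq, hz x hx, hz y hy]
        rw [Module.support_eq_empty] at hp
        exact absurd hp (Set.notMem_empty _)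
      rw [h1, sub_zero, cyc_congr K 𝕜 (R := R) e, cyc_quot_self K 𝕜 q hd,
        Finsupp.linearCombination_single, one_smul]
      unfold divCyc
      refine Eq.trans (cyc_congr K 𝕜 ?_) (cyc_congr K 𝕜 (ckQuot q.asIdeal a))
      refine Submodule.Quotient.equiv _ _ e ?_
      apply le_antisymm
      · rintro _ ⟨_, ⟨x, rfl⟩, rfl⟩
        refine ⟨e x, ?_⟩
        rw [mul_apply, mul_apply]
        exact (map_smul e a x).symm
      · rintro _ ⟨x, rfl⟩
        refine ⟨a • e.symm x, ⟨e.symm x, rfl⟩, ?_⟩
        rw [mul_apply]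
        change e (a • e.symm x) = _
        rw [map_smul, e.apply_symm_apply]
    · have hd' : dl K q ≤ k := by have := hZ q hq; omega
      have hB : Bd K (R := R) k N :=
        bd_of_injective K (bd_quot K q hd') (e : N →ₗ[R] R ⧸ q.asIdeal) e.injective
      have h3 : cyc K 𝕜 (R := R) (k + 1) N = 0 := by
        apply cyc_eq_zero
        intro p hp h
        have := hB.2 p hp
        omega
      rw [cyc_congr_len K 𝕜 (M := Ck a N) (N := Kr a N) (fun p hp =>
        (len_kr_ck a (bd_len K hB p hp)).symm), sub_self, h3, map_zero]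
  | exact N₁ N₂ N₃ f g hf hg hfg h₁ h₃ =>
    intro hsup
    have hbd : Bd K (R := R) (k + 1) N₂ := ⟨‹Module.Finite R N₂›, fun p hp => hZ p (hsup hp)⟩
    rw [Module.support_of_exact hfg hf hg] at hsup
    have hs1 := Set.subset_union_left.trans hsup
    have hs3 := Set.subset_union_right.trans hsup
    have f1 : Module.Finite R N₁ := Module.Finite.of_injective f hf
    have f3 : Module.Finite R N₃ := Module.Finite.of_surjective g hg
    have key : cyc K 𝕜 k (Ck a N₂) - cyc K 𝕜 k (Kr a N₂) =
        (cyc K 𝕜 k (Ck a N₁) - cyc K 𝕜 k (Kr a N₁)) +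
        (cyc K 𝕜 k (Ck a N₃) - cyc K 𝕜 (R := R) k (Kr a N₃)) := by
      have b1 := bd_ck K f1 hs1 hZ ha
      have b2 := bd_ck K ‹Module.Finite R N₂› (by rw [Module.support_of_exact hfg hf hg]; exact hsup) hZ ha
      have b3 := bd_ck K f3 hs3 hZ ha
      have c1 := bd_kr K f1 hs1 hZ ha
      have c2 := bd_kr K ‹Module.Finite R N₂› (by rw [Module.support_of_exact hfg hf hg]; exact hsup) hZ ha
      have c3 := bd_kr K f3 hs3 hZ ha
      ext p
      simp only [Finsupp.add_apply, Finsupp.sub_apply]
      rw [cyc_apply K 𝕜 b1, cyc_apply K 𝕜 b2, cyc_apply K 𝕜 b3, cyc_apply K 𝕜 c1,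
        cyc_apply K 𝕜 c2, cyc_apply K 𝕜 c3]
      split_ifs with hp
      · have h := congrArg ENat.toNat (len_herbrand p a f g hf hg hfg)
        have t1 := bd_len K b1 p hp
        have t2 := bd_len K b2 p hp
        have t3 := bd_len K b3 p hp
        have u1 := bd_len K c1 p hp
        have u2 := bd_len K c2 p hp
        have u3 := bd_len K c3 p hp
        rw [ENat.toNat_add (by simp [t2, u1]) u3, ENat.toNat_add t2 u1,
          ENat.toNat_add (by simp [u2, t1]) t3, ENat.toNat_add u2 t1] at h
        have h' := congrArg (fun n : ℕ => (n : 𝕜)) h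
        simp only [Nat.cast_add] at h'
        linear_combination h'
      · simp
    rw [key, h₁ hs1, h₃ hs3, ← map_add, ← cyc_exact K 𝕜 hbd f g hf hg hfg]

theorem divCyc_congr {k : ℕ} {q : PrimeSpectrum R} {a b : R} (h : a - b ∈ q.asIdeal) :
    divCyc K 𝕜 k q a = divCyc K 𝕜 k q b := by
  have h1 : q.asIdeal ⊔ Ideal.span {a} = q.asIdeal ⊔ Ideal.span {b} := by
    apply le_antisymm
    · refine sup_le le_sup_left ?_
      rw [Ideal.span_singleton_le_iff_mem]
      have : a = (a - b) + b := by ring
      rw [this]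
      exact Ideal.add_mem _ (Ideal.mem_sup_left h)
        (Ideal.mem_sup_right (Ideal.mem_span_singleton_self b))
    · refine sup_le le_sup_left ?_
      rw [Ideal.span_singleton_le_iff_mem]
      have : b = a - (a - b) := by ring
      rw [this]
      exact Ideal.sub_mem _ (Ideal.mem_sup_right (Ideal.mem_span_singleton_self a))
        (Ideal.mem_sup_left h)
  unfold divCyc
  rw [h1]

theorem divCyc_mul {k : ℕ} {q : PrimeSpectrum R} (hq : dl K q = k + 1) {a b : R}
    (ha : a ∉ q.asIdeal) (hb : b ∉ q.asIdeal) :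
    divCyc K 𝕜 k q (a * b) = divCyc K 𝕜 k q a + divCyc K 𝕜 k q b := by
  have hab : a * b ∉ q.asIdeal := fun h => (q.2.mem_or_mem h).elim ha hb
  have hle1 : q.asIdeal ⊔ Ideal.span {b} ≤
      Submodule.comap (LinearMap.lsmul R R a) (q.asIdeal ⊔ Ideal.span {a * b}) := by
    refine sup_le ?_ ?_
    · intro x hx
      exact Ideal.mem_sup_left (q.asIdeal.mul_mem_left a hx)
    · rw [Ideal.span_le]
      rintro x rfl
      exact Ideal.mem_sup_right (Ideal.mem_span_singleton_self _)
  have hle2 : q.asIdeal ⊔ Ideal.span {a * b} ≤ q.asIdeal ⊔ Ideal.span {a} := by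
    refine sup_le le_sup_left ?_
    rw [Ideal.span_singleton_le_iff_mem]
    exact Ideal.mem_sup_right (Ideal.mem_span_singleton'.2 ⟨b, mul_comm _ _⟩)
  let f : (R ⧸ (q.asIdeal ⊔ Ideal.span {b})) →ₗ[R] (R ⧸ (q.asIdeal ⊔ Ideal.span {a * b})) :=
    Submodule.mapQ _ _ (LinearMap.lsmul R R a) hle1
  let g : (R ⧸ (q.asIdeal ⊔ Ideal.span {a * b})) →ₗ[R] (R ⧸ (q.asIdeal ⊔ Ideal.span {a})) :=
    Submodule.factor hle2
  have hf : Function.Injective f := by
    rw [injective_iff_map_eq_zero]
    intro x hx
    obtain ⟨x, rfl⟩ := Submodule.Quotient.mk_surjective _ x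
    change Submodule.Quotient.mk (a * x) = 0 at hx
    rw [Submodule.Quotient.mk_eq_zero] at hx ⊢
    obtain ⟨y, hy, z, hz, h⟩ := Submodule.mem_sup.1 hx
    obtain ⟨w, rfl⟩ := Ideal.mem_span_singleton'.1 hz
    have h1 : a * (x - w * b) ∈ q.asIdeal := by
      have : a * (x - w * b) = y := by linear_combination -h
      rw [this]; exact hy
    have h2 := (q.2.mem_or_mem h1).resolve_left ha
    have : x = (x - w * b) + w * b := by ring
    rw [this]
    exact Ideal.add_mem _ (Ideal.mem_sup_left h2)
      (Ideal.mem_sup_right (Ideal.mem_span_singleton'.2 ⟨w, rfl⟩))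
  have hg : Function.Surjective g := Submodule.factor_surjective hle2
  have hfg : Function.Exact f g := by
    intro x
    obtain ⟨x, rfl⟩ := Submodule.Quotient.mk_surjective _ x
    constructor
    · intro hx
      change Submodule.Quotient.mk x = 0 at hx
      rw [Submodule.Quotient.mk_eq_zero] at hx
      obtain ⟨y, hy, z, hz, h⟩ := Submodule.mem_sup.1 hx
      obtain ⟨w, rfl⟩ := Ideal.mem_span_singleton'.1 hz
      refine ⟨Submodule.Quotient.mk w, ?_⟩
      change Submodule.Quotient.mk (a * w) = Submodule.Quotient.mk x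
      rw [Submodule.Quotient.eq]
      have : a * w - x = -y := by linear_combination h
      rw [this]
      exact Submodule.neg_mem _ (Ideal.mem_sup_left hy)
    · rintro ⟨w, hw⟩
      obtain ⟨w, rfl⟩ := Submodule.Quotient.mk_surjective _ w
      rw [← hw]
      change Submodule.Quotient.mk (a * w) = 0
      rw [Submodule.Quotient.mk_eq_zero]
      exact Ideal.mem_sup_right (Ideal.mem_span_singleton'.2 ⟨w, mul_comm _ _⟩)
  unfold divCyc
  rw [cyc_exact K 𝕜 (bd_div K hq hab) f g hf hg hfg, add_comm]

theorem divCyc_one {k : ℕ} (q : PrimeSpectrum R) : divCyc K 𝕜 k q 1 = 0 := by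
  unfold divCyc
  apply cyc_eq_zero
  intro p hp
  rw [support_div] at hp
  exact absurd ((Ideal.eq_top_iff_one _).2 hp.2) p.2.ne_top

theorem divCyc_prod {ι : Type} {k : ℕ} {q : PrimeSpectrum R} (hq : dl K q = k + 1)
    (s : Finset ι) (a : ι → R) (ha : ∀ e ∈ s, a e ∉ q.asIdeal) :
    divCyc K 𝕜 k q (∏ e ∈ s, a e) = ∑ e ∈ s, divCyc K 𝕜 k q (a e) := by
  classical
  induction s using Finset.induction_on with
  | empty => rw [Finset.prod_empty, Finset.sum_empty, divCyc_one]
  | insert e s he ih =>
    rw [Finset.prod_insert he, Finset.sum_insert he, divCyc_mul K 𝕜 hq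
      (ha e (Finset.mem_insert_self _ _)), ih fun x hx => ha x (Finset.mem_insert_of_mem hx)]
    intro h
    obtain ⟨x, hx, hx2⟩ := q.2.prod_mem_iff.1 h
    exact ha x (Finset.mem_insert_of_mem hx) hx2

end

section
variable {A : Type} [CommRing A] [Algebra K A] [Algebra.EssFiniteType K A] [IsNoetherianRing A]
variable (B : Type) [CommRing B] [Algebra K B] [Algebra.EssFiniteType K B] [IsNoetherianRing B]
variable [Algebra A B] [IsScalarTower K A B]

/-- The flat pull-back of a principal divisor, exact form. -/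
theorem pull_divCyc_eq [Module.Flat A B] {k ρ : ℕ}
    (hρ : ∀ P : PrimeSpectrum B, dl K P ≤ dl K (ct K (A := A) P) + ρ)
    (q : PrimeSpectrum A) (hq : dl K q = k + 1) (a : A) (ha : a ∉ q.asIdeal) :
    pull K 𝕜 B ρ (divCyc K 𝕜 k q a) =
      Finsupp.linearCombination 𝕜 (fun Q => divCyc K 𝕜 (k + ρ) Q (algebraMap A B a))
        (pull K 𝕜 B ρ (Finsupp.single q 1)) := by
  have hinj : Function.Injective (mul a (A ⧸ q.asIdeal)) := by
    rw [injective_iff_map_eq_zero]
    intro x hx
    obtain ⟨x, rfl⟩ := Ideal.Quotient.mk_surjective x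
    have h3 : Ideal.Quotient.mk q.asIdeal (a * x) = 0 := hx
    rw [Ideal.Quotient.eq_zero_iff_mem] at h3
    exact Ideal.Quotient.eq_zero_iff_mem.2 ((q.2.mem_or_mem h3).resolve_left ha)
  have hbd : Bd K (R := A) k (Ck a (A ⧸ q.asIdeal)) := by
    refine bd_ck K (Z := {p | q ≤ p}) inferInstance ?_ ?_ ?_
    · rw [support_quot]; exact fun p hp => hp
    · intro p hp; rw [← hq]; exact dl_le K hp
    · intro p hp hp2
      have : q = p := eq_of_le_of_dl K hp (by rw [hq, hp2])
      rw [← this]; exact ha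
  have e1 : divCyc K 𝕜 k q a = cyc K 𝕜 (R := A) k (Ck a (A ⧸ q.asIdeal)) :=
    (cyc_congr K 𝕜 (ckQuot q.asIdeal a)).symm
  rw [e1, ← cyc_tensor K 𝕜 B hρ hbd, ← cyc_quot_self K 𝕜 q hq,
    ← cyc_tensor K 𝕜 B hρ (bd_quot K q hq.le)]
  have hm : (mul a (A ⧸ q.asIdeal)).baseChange B
      = mul (algebraMap A B a) (B ⊗[A] (A ⧸ q.asIdeal)) := by
    apply LinearMap.ext
    intro x
    induction x using TensorProduct.induction_on with
    | zero => rw [map_zero, map_zero]
    | tmul b m =>
      rw [LinearMap.baseChange_tmul, mul_apply, mul_apply, algebraMap_smul,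
        ← TensorProduct.tmul_smul]
    | add x y hx hy => rw [map_add, map_add, hx, hy]
  have e2 : cyc K 𝕜 (R := B) (k + ρ) (B ⊗[A] Ck a (A ⧸ q.asIdeal)) =
      cyc K 𝕜 (R := B) (k + ρ) (Ck (algebraMap A B a) (B ⊗[A] (A ⧸ q.asIdeal))) := by
    apply cyc_congr
    let g : (B ⊗[A] (A ⧸ q.asIdeal)) →ₗ[B] (B ⊗[A] Ck a (A ⧸ q.asIdeal)) :=
      (LinearMap.range (mul a (A ⧸ q.asIdeal))).mkQ.baseChange B
    have hg : Function.Surjective g := by
      change Function.Surjective (LinearMap.baseChange B _)
      rw [LinearMap.baseChange_eq_ltensor]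
      exact LinearMap.lTensor_surjective B (Submodule.mkQ_surjective _)
    have hk : LinearMap.ker g = LinearMap.range (mul (algebraMap A B a) (B ⊗[A] (A ⧸ q.asIdeal))) := by
      rw [← hm]
      apply Function.Exact.linearMap_ker_eq
      change Function.Exact (LinearMap.baseChange B _) (LinearMap.baseChange B _)
      rw [LinearMap.baseChange_eq_ltensor, LinearMap.baseChange_eq_ltensor]
      apply lTensor_exact B _ (Submodule.mkQ_surjective _)
      intro x
      rw [Submodule.mkQ_apply, Submodule.Quotient.mk_eq_zero]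
      exact Iff.rfl
    exact ((Submodule.quotEquivOfEq _ _ hk.symm).trans
      (g.quotKerEquivOfSurjective hg)).symm
  have e3 : cyc K 𝕜 (R := B) (k + ρ) (Kr (algebraMap A B a) (B ⊗[A] (A ⧸ q.asIdeal))) = 0 := by
    apply cyc_eq_zero
    intro p hp
    have : Subsingleton (Kr (algebraMap A B a) (B ⊗[A] (A ⧸ q.asIdeal))) := by
      rw [Submodule.subsingleton_iff_eq_bot, ← hm, LinearMap.ker_eq_bot,
        LinearMap.baseChange_eq_ltensor]
      exact Module.Flat.lTensor_preserves_injective_linearMap _ hinj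
    rw [Module.support_eq_empty] at hp
    exact absurd hp (Set.notMem_empty _)
  have hk1 : k + 1 + ρ = (k + ρ) + 1 := by ring
  rw [e2, ← sub_zero (cyc K 𝕜 (k + ρ) (Ck _ _)), ← e3, hk1]
  refine cyc_ck_kr_eq K 𝕜 (k + ρ) (algebraMap A B a)
    {Q : PrimeSpectrum B | q ≤ ct K Q} ?_ ?_ inferInstance ?_
  · intro Q hQ
    have h1 := hρ Q
    have h2 := dl_le K hQ
    omega
  · intro Q hQ hQ2
    have h1 := hρ Q
    have h3 : q = ct K Q := eq_of_le_of_dl K hQ (by omega)
    intro h4
    apply ha
    rw [h3]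
    exact h4
  · intro P hP
    have h1 := support_tensor_le K B inferInstance hP
    rw [support_quot] at h1
    exact h1

end

end Pool.Agent.Bloch
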