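import Pool.Agent.Bloch.Gal1

set_option linter.unusedSectionVars false

open MvPolynomial

namespace Pool.Agent.Bloch

section approx
variable {K : Type} [Field K] {σ : Type} [Finite σ]

theorem approx1 (O : Finset (PrimeSpectrum (MvPolynomial σ K))) (hO : ∀ Q ∈ O, HomP Q)
    (hinc : ∀ Q ∈ O, ∀ Q' ∈ O, Q' ≤ Q → Q' = Q) (Q : PrimeSpectrum (MvPolynomial σ K))
    (hQ : Q ∈ O) : ∃ (D : ℕ) (a : MvPolynomial σ K), a.IsHomogeneous D ∧ a ∉ Q.asIdeal ∧
      ∀ Q' ∈ O, Q' ≠ Q → a ∈ Q'.asIdeal := by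
  classical
  have hex : ∀ Q' : PrimeSpectrum (MvPolynomial σ K), ∃ (D : ℕ) (b : MvPolynomial σ K),
      b.IsHomogeneous D ∧ b ∉ Q.asIdeal ∧ (Q' ∈ O → Q' ≠ Q → b ∈ Q'.asIdeal) := by
    intro Q'
    by_cases h : Q' ∈ O ∧ Q' ≠ Q
    · have hnle : ¬ Q' ≤ Q := fun h1 => h.2 (hinc Q hQ Q' h.1 h1)
      obtain ⟨x, hx, hxn⟩ := Set.not_subset.1 (fun h1 => hnle h1)
      obtain ⟨n, hn⟩ : ∃ n, homogeneousComponent n x ∉ Q.asIdeal := by
        by_contra hc
        push Not at hc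
        exact hxn (mem_of_comp _ _ hc)
      exact ⟨n, homogeneousComponent n x, homogeneousComponent_isHomogeneous _ _, hn,
        fun _ _ => hO Q' h.1 x hx n⟩
    · exact ⟨0, 1, isHomogeneous_one _ _, fun h1 => Q.2.ne_top ((Ideal.eq_top_iff_one _).2 h1),
        fun h1 h2 => absurd ⟨h1, h2⟩ h⟩
  choose D b h1 h2 h3 using hex
  refine ⟨∑ Q' ∈ O, D Q', ∏ Q' ∈ O, b Q', IsHomogeneous.prod _ _ _ (fun Q' _ => h1 Q'), ?_, ?_⟩
  · intro h
    obtain ⟨Q', _, h4⟩ := Q.2.prod_mem_iff.1 h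
    exact h2 Q' h4
  · intro Q' hQ' hne
    exact Ideal.mem_of_dvd _ (Finset.dvd_prod_of_mem _ hQ') (h3 Q' hQ' hne)

theorem approx (O : Finset (PrimeSpectrum (MvPolynomial σ K))) (hO : ∀ Q ∈ O, HomP Q)
    (hinc : ∀ Q ∈ O, ∀ Q' ∈ O, Q' ≤ Q → Q' = Q) (h : MvPolynomial σ K)
    (hh1 : h.IsHomogeneous 1) (hh : ∀ Q ∈ O, h ∉ Q.asIdeal)
    (Q₀ : PrimeSpectrum (MvPolynomial σ K)) (hQ₀ : Q₀ ∈ O) :
    ∃ (D : ℕ) (a b : MvPolynomial σ K), a.IsHomogeneous D ∧ b.IsHomogeneous D ∧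
      a ∉ Q₀.asIdeal ∧ (∀ Q ∈ O, Q ≠ Q₀ → a ∈ Q.asIdeal) ∧ b ∈ Q₀.asIdeal ∧
      ∀ Q ∈ O, Q ≠ Q₀ → b ∉ Q.asIdeal := by
  classical
  have hex : ∀ Q : PrimeSpectrum (MvPolynomial σ K), ∃ (D : ℕ) (a : MvPolynomial σ K),
      a.IsHomogeneous D ∧ (Q ∈ O → a ∉ Q.asIdeal ∧ ∀ Q' ∈ O, Q' ≠ Q → a ∈ Q'.asIdeal) := by
    intro Q
    by_cases hQ : Q ∈ O
    · obtain ⟨D, a, h1, h2, h3⟩ := approx1 O hO hinc Q hQ
      exact ⟨D, a, h1, fun _ => ⟨h2, h3⟩⟩
    · exact ⟨0, 1, isHomogeneous_one _ _, fun h1 => absurd h1 hQ⟩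
  choose D a h1 h2 using hex
  set M := ∑ Q ∈ O, D Q with hM
  let a' : PrimeSpectrum (MvPolynomial σ K) → MvPolynomial σ K := fun Q => h ^ (M - D Q) * a Q
  have ha'h : ∀ Q ∈ O, (a' Q).IsHomogeneous M := by
    intro Q hQ
    have h3 : D Q ≤ M := Finset.single_le_sum (fun _ _ => Nat.zero_le _) hQ
    have h4 := (hh1.pow (M - D Q)).mul (h1 Q)
    rwa [one_mul, Nat.sub_add_cancel h3] at h4
  have ha'n : ∀ Q ∈ O, a' Q ∉ Q.asIdeal := by
    intro Q hQ h3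
    rcases Q.2.mem_or_mem h3 with h4 | h4
    · exact hh Q hQ (Q.2.mem_of_pow_mem _ h4)
    · exact (h2 Q hQ).1 h4
  have ha'm : ∀ Q ∈ O, ∀ Q' ∈ O, Q' ≠ Q → a' Q ∈ Q'.asIdeal :=
    fun Q hQ Q' hQ' hne => Ideal.mul_mem_left _ _ ((h2 Q hQ).2 Q' hQ' hne)
  refine ⟨M, a' Q₀, ∑ Q ∈ O.erase Q₀, a' Q, ha'h Q₀ hQ₀, ?_, ha'n Q₀ hQ₀,
    fun Q hQ hne => ha'm Q₀ hQ₀ Q hQ hne, ?_, ?_⟩
  · apply IsHomogeneous.sum
    intro Q hQ
    exact ha'h Q (Finset.mem_of_mem_erase hQ)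
  · apply Ideal.sum_mem
    intro Q hQ
    rw [Finset.mem_erase] at hQ
    exact ha'm Q hQ.2 Q₀ hQ₀ (Ne.symm hQ.1)
  · intro Q hQ hne h3
    have hQe : Q ∈ O.erase Q₀ := Finset.mem_erase.2 ⟨hne, hQ⟩
    rw [← Finset.add_sum_erase _ _ hQe] at h3
    apply ha'n Q hQ
    have h4 : ∑ Q' ∈ (O.erase Q₀).erase Q, a' Q' ∈ Q.asIdeal := by
      apply Ideal.sum_mem
      intro Q' hQ'
      rw [Finset.mem_erase, Finset.mem_erase] at hQ'
      exact ha'm Q' hQ'.2.2 Q hQ (Ne.symm hQ'.1)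
    have h5 := Ideal.sub_mem _ h3 h4
    rwa [add_sub_cancel_right] at h5

end approx

attribute [local instance] MvPolynomial.algebraMvPolynomial

section gal
variable {K : Type} [Field K] {K' : Type} [Field K'] [Algebra K K'] [FiniteDimensional K K']
  [IsGalois K K'] {σ : Type} [Fintype σ]

/-- the action of the Galois group on polynomials -/
noncomputable def gm (σ : Type) (γ : K' ≃ₐ[K] K') : MvPolynomial σ K' →ₐ[K] MvPolynomial σ K' :=
  mapAlgHom (γ : K' →ₐ[K] K')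

theorem gm_coeff (γ : K' ≃ₐ[K] K') (f : MvPolynomial σ K') (m : σ →₀ ℕ) :
    coeff m (gm σ γ f) = γ (coeff m f) := by
  unfold gm
  rw [mapAlgHom_apply, coeff_map]
  rfl

theorem gm_gm (γ δ : K' ≃ₐ[K] K') (f : MvPolynomial σ K') :
    gm σ γ (gm σ δ f) = gm σ (γ * δ) f := by
  ext m
  rw [gm_coeff, gm_coeff, gm_coeff]
  rfl

theorem gm_one (f : MvPolynomial σ K') : gm σ (1 : K' ≃ₐ[K] K') f = f := by
  ext m
  rw [gm_coeff]
  rfl

theorem gm_bc (γ : K' ≃ₐ[K] K') (a : MvPolynomial σ K) :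
    gm σ γ (algebraMap (MvPolynomial σ K) (MvPolynomial σ K') a) =
      algebraMap (MvPolynomial σ K) (MvPolynomial σ K') a := by
  ext m
  rw [gm_coeff]
  change γ (coeff m (map (algebraMap K K') a)) = coeff m (map (algebraMap K K') a)
  rw [coeff_map, γ.commutes]

theorem bc_inj : Function.Injective
    (algebraMap (MvPolynomial σ K) (MvPolynomial σ K')) :=
  map_injective _ (algebraMap K K').injective

theorem gm_fixed (f : MvPolynomial σ K') (hf : ∀ γ : K' ≃ₐ[K] K', gm σ γ f = f) :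
    ∃ a : MvPolynomial σ K, algebraMap (MvPolynomial σ K) (MvPolynomial σ K') a = f := by
  have h1 : ∀ m, ∃ c : K, algebraMap K K' c = coeff m f := by
    intro m
    apply (IsGalois.mem_range_algebraMap_iff_fixed (F := K) (coeff m f)).2
    intro γ
    rw [← gm_coeff, hf]
  choose c hc using h1
  refine ⟨∑ m ∈ f.support, monomial m (c m), ?_⟩
  rw [map_sum]
  conv_rhs => rw [f.as_sum]
  apply Finset.sum_congr rfl
  intro m _
  change map (algebraMap K K') (monomial m (c m)) = _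
  rw [map_monomial, hc]

theorem gm_hom (γ : K' ≃ₐ[K] K') {f : MvPolynomial σ K'} {n : ℕ} (hf : f.IsHomogeneous n) :
    (gm σ γ f).IsHomogeneous n := by
  intro m hm
  rw [gm_coeff] at hm
  apply hf
  intro h
  rw [h, map_zero] at hm
  exact hm rfl

theorem gm_hc (γ : K' ≃ₐ[K] K') (f : MvPolynomial σ K') (n : ℕ) :
    homogeneousComponent n (gm σ γ f) = gm σ γ (homogeneousComponent n f) := by
  classical
  ext m
  rw [gm_coeff, coeff_homogeneousComponent, coeff_homogeneousComponent, gm_coeff]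
  split_ifs
  · rfl
  · rw [map_zero]

theorem bc_hc (f : MvPolynomial σ K) (n : ℕ) :
    homogeneousComponent n (algebraMap (MvPolynomial σ K) (MvPolynomial σ K') f) =
      algebraMap (MvPolynomial σ K) (MvPolynomial σ K') (homogeneousComponent n f) := by
  classical
  ext m
  change _ = coeff m (map (algebraMap K K') (homogeneousComponent n f))
  rw [coeff_homogeneousComponent, coeff_map, coeff_homogeneousComponent]
  change (if m.degree = n then coeff m (map (algebraMap K K') f) else 0) = _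
  rw [coeff_map]
  split_ifs
  · rfl
  · rw [map_zero]

theorem bc_hom {f : MvPolynomial σ K} {n : ℕ}
    (h : (algebraMap (MvPolynomial σ K) (MvPolynomial σ K') f).IsHomogeneous n) :
    f.IsHomogeneous n := by
  intro m hm
  apply h
  change coeff m (map (algebraMap K K') f) ≠ 0
  rw [coeff_map]
  intro h1
  exact hm ((map_eq_zero _).1 h1)

/-- the action of the Galois group on primes -/
noncomputable def gq (γ : K' ≃ₐ[K] K') (Q : PrimeSpectrum (MvPolynomial σ K')) :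
    PrimeSpectrum (MvPolynomial σ K') := ctr K (gm σ γ) Q

theorem mem_gq (γ : K' ≃ₐ[K] K') (Q : PrimeSpectrum (MvPolynomial σ K'))
    (f : MvPolynomial σ K') : f ∈ (gq γ Q).asIdeal ↔ gm σ γ f ∈ Q.asIdeal := Iff.rfl

theorem gq_gq (γ δ : K' ≃ₐ[K] K') (Q : PrimeSpectrum (MvPolynomial σ K')) :
    gq γ (gq δ Q) = gq (δ * γ) Q := by
  apply PrimeSpectrum.ext
  ext f
  rw [mem_gq, mem_gq, mem_gq, gm_gm]

theorem gq_one (Q : PrimeSpectrum (MvPolynomial σ K')) : gq (1 : K' ≃ₐ[K] K') Q = Q := by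
  apply PrimeSpectrum.ext
  ext f
  rw [mem_gq, gm_one]

theorem gq_inj (γ : K' ≃ₐ[K] K') :
    Function.Injective (gq γ : PrimeSpectrum (MvPolynomial σ K') → _) := by
  intro Q Q' h
  have := congrArg (gq γ⁻¹) h
  rwa [gq_gq, gq_gq, mul_inv_cancel, gq_one, gq_one] at this

theorem homP_gq (γ : K' ≃ₐ[K] K') {Q : PrimeSpectrum (MvPolynomial σ K')} (hQ : HomP Q) :
    HomP (gq γ Q) := by
  intro f hf n
  rw [mem_gq] at hf ⊢
  rw [← gm_hc]
  exact hQ _ hf n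

theorem gm_frac (γ : K' ≃ₐ[K] K') :
    Frac K (gm σ γ) (⊥ : Submonoid (MvPolynomial σ K')) := by
  intro y
  exact ⟨1, Submonoid.one_mem _, gm σ γ⁻¹ y, by
    rw [map_one, mul_one, gm_gm, mul_inv_cancel, gm_one]⟩

theorem bot_uset {A B : Type} [CommRing A] [CommRing B] [Algebra K A] [Algebra K B]
    (φ : A →ₐ[K] B) (Q : PrimeSpectrum B) : Q ∈ Uset K φ (⊥ : Submonoid A) := by
  intro u hu h
  rw [Submonoid.mem_bot] at hu
  rw [hu, map_one] at h
  exact Q.2.ne_top ((Ideal.eq_top_iff_one _).2 h)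

theorem dl_gq (γ : K' ≃ₐ[K] K') (Q : PrimeSpectrum (MvPolynomial σ K')) :
    dl K (gq γ Q) = dl K Q := dl_uset (gm_frac γ) (bot_uset _ Q)

theorem ct_gq (γ : K' ≃ₐ[K] K') (Q : PrimeSpectrum (MvPolynomial σ K')) :
    ct K (A := MvPolynomial σ K) (gq γ Q) = ct K Q := by
  apply PrimeSpectrum.ext
  ext f
  change gm σ γ (algebraMap (MvPolynomial σ K) (MvPolynomial σ K') f) ∈ Q.asIdeal ↔
    algebraMap (MvPolynomial σ K) (MvPolynomial σ K') f ∈ Q.asIdeal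
  rw [gm_bc]

theorem dl_ct (Q : PrimeSpectrum (MvPolynomial σ K')) :
    dl K (ct K (A := MvPolynomial σ K) Q) = dl K Q := by
  apply dl_ctr_eq_of_integral
  exact (inferInstance : Algebra.IsIntegral (MvPolynomial σ K) (MvPolynomial σ K')).isIntegral

theorem exists_ct (p : PrimeSpectrum (MvPolynomial σ K)) :
    ∃ Q : PrimeSpectrum (MvPolynomial σ K'), ct K Q = p := by
  obtain ⟨Q, hQ⟩ := Algebra.IsIntegral.comap_surjective (R := MvPolynomial σ K)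
    (S := MvPolynomial σ K') p
  exact ⟨Q, hQ⟩

instance flat_bc : Module.Flat (MvPolynomial σ K) (MvPolynomial σ K') :=
  Module.Flat.isBaseChange K (MvPolynomial σ K) K' (MvPolynomial σ K')
    (Algebra.IsPushout.out (R := K) (S := MvPolynomial σ K) (R' := K') (S' := MvPolynomial σ K'))

/-- primes with the same contraction are conjugate -/
theorem gq_trans (Q Q' : PrimeSpectrum (MvPolynomial σ K'))
    (h : ct K (A := MvPolynomial σ K) Q = ct K Q') : ∃ γ : K' ≃ₐ[K] K', Q' = gq γ Q := by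
  classical
  by_contra hcon
  push Not at hcon
  have hdl : dl K Q' = dl K Q := by rw [← dl_ct Q, ← dl_ct Q', h]
  have hnle : ∀ γ : K' ≃ₐ[K] K', ¬ Q'.asIdeal ≤ (gq γ Q).asIdeal := by
    intro γ hle
    apply hcon γ
    apply eq_of_le_of_dl K hle
    rw [dl_gq, hdl]
  have hav : ∃ f ∈ Q'.asIdeal, ∀ γ : K' ≃ₐ[K] K', f ∉ (gq γ Q).asIdeal := by
    by_contra hc2
    push Not at hc2
    have hsub : (Q'.asIdeal : Set (MvPolynomial σ K')) ⊆
        ⋃ γ ∈ ((Finset.univ : Finset (K' ≃ₐ[K] K')) : Set (K' ≃ₐ[K] K')),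
          ((gq γ Q).asIdeal : Set (MvPolynomial σ K')) := by
      intro f hf
      obtain ⟨g, hg⟩ := hc2 f hf
      simp only [Set.mem_iUnion]
      exact ⟨g, Finset.mem_coe.2 (Finset.mem_univ g), hg⟩
    rw [Ideal.subset_union_prime (1 : K' ≃ₐ[K] K') 1 (fun g _ _ _ => (gq g Q).2)] at hsub
    obtain ⟨g, _, hg⟩ := hsub
    exact hnle g hg
  obtain ⟨f, hfQ', hf⟩ := hav
  set nf := ∏ γ : K' ≃ₐ[K] K', gm σ γ f with hnf
  obtain ⟨h', hh'⟩ := gm_fixed nf (by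
    intro γ
    rw [hnf, map_prod]
    refine Fintype.prod_equiv (Equiv.mulLeft γ) _ _ (fun g => ?_)
    rw [gm_gm]
    rfl)
  have h1 : nf ∈ Q'.asIdeal := by
    rw [hnf]
    apply Ideal.mem_of_dvd _ (Finset.dvd_prod_of_mem _ (Finset.mem_univ (1 : K' ≃ₐ[K] K')))
    rw [gm_one]
    exact hfQ'
  have h2 : nf ∈ Q.asIdeal := by
    rw [← hh'] at h1 ⊢
    have h3 : h' ∈ (ct K (A := MvPolynomial σ K) Q').asIdeal := h1
    rw [← h] at h3
    exact h3
  rw [hnf] at h2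
  obtain ⟨g, _, hg⟩ := Q.2.prod_mem_iff.1 h2
  exact hf g hg

end gal

end Pool.Agent.Bloch
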