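import Pool.Agent.Bloch.Gal2

set_option linter.unusedSectionVars false

open MvPolynomial

namespace Pool.Agent.Bloch

attribute [local instance] MvPolynomial.algebraMvPolynomial

section gal
variable {K : Type} [Field K] {K' : Type} [Field K'] [Algebra K K'] [FiniteDimensional K K']
  [IsGalois K K'] {σ : Type} [Fintype σ]
variable (𝕜 : Type) [Field 𝕜] [CharZero 𝕜]

/-- the action of the Galois group on cycles -/
noncomputable def ga (γ : K' ≃ₐ[K] K') :
    (PrimeSpectrum (MvPolynomial σ K') →₀ 𝕜) →ₗ[𝕜] (PrimeSpectrum (MvPolynomial σ K') →₀ 𝕜) :=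
  Finsupp.lmapDomain 𝕜 𝕜 (gq γ)

theorem ga_single (γ : K' ≃ₐ[K] K') (Q : PrimeSpectrum (MvPolynomial σ K')) (c : 𝕜) :
    ga 𝕜 γ (Finsupp.single Q c) = Finsupp.single (gq γ Q) c := Finsupp.mapDomain_single

theorem ga_apply (γ : K' ≃ₐ[K] K') (z : PrimeSpectrum (MvPolynomial σ K') →₀ 𝕜)
    (Q : PrimeSpectrum (MvPolynomial σ K')) : ga 𝕜 γ z (gq γ Q) = z Q :=
  Finsupp.mapDomain_apply (gq_inj γ) z Q

theorem ga_ga (γ δ : K' ≃ₐ[K] K') (z : PrimeSpectrum (MvPolynomial σ K') →₀ 𝕜) :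
    ga 𝕜 γ (ga 𝕜 δ z) = ga 𝕜 (δ * γ) z := by
  induction z using Finsupp.induction_linear with
  | zero => simp only [map_zero]
  | add x y hx hy => simp only [map_add, hx, hy]
  | single V c => rw [ga_single, ga_single, ga_single, gq_gq]

theorem ga_one (z : PrimeSpectrum (MvPolynomial σ K') →₀ 𝕜) :
    ga 𝕜 (1 : K' ≃ₐ[K] K') z = z := by
  induction z using Finsupp.induction_linear with
  | zero => simp only [map_zero]
  | add x y hx hy => simp only [map_add, hx, hy]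
  | single V c => rw [ga_single, gq_one]

variable (K K') in
/-- the sum over the Galois group -/
noncomputable def avg (σ : Type) [Fintype σ] :
    (PrimeSpectrum (MvPolynomial σ K') →₀ 𝕜) →ₗ[𝕜] (PrimeSpectrum (MvPolynomial σ K') →₀ 𝕜) :=
  ∑ γ : K' ≃ₐ[K] K', ga 𝕜 γ

theorem avg_def (z : PrimeSpectrum (MvPolynomial σ K') →₀ 𝕜) :
    avg K K' 𝕜 σ z = ∑ γ : K' ≃ₐ[K] K', ga 𝕜 γ z := by
  unfold avg
  rw [LinearMap.sum_apply]

theorem ga_avg (δ : K' ≃ₐ[K] K') (z : PrimeSpectrum (MvPolynomial σ K') →₀ 𝕜) :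
    ga 𝕜 δ (avg K K' 𝕜 σ z) = avg K K' 𝕜 σ z := by
  rw [avg_def, map_sum]
  refine Fintype.sum_equiv (Equiv.mulRight δ) _ _ (fun γ => ?_)
  rw [ga_ga]
  rfl

theorem avg_ga (δ : K' ≃ₐ[K] K') (z : PrimeSpectrum (MvPolynomial σ K') →₀ 𝕜) :
    avg K K' 𝕜 σ (ga 𝕜 δ z) = avg K K' 𝕜 σ z := by
  rw [avg_def, avg_def]
  refine Fintype.sum_equiv (Equiv.mulLeft δ) _ _ (fun γ => ?_)
  rw [ga_ga]
  rfl

theorem divCyc_gq (γ : K' ≃ₐ[K] K') {k : ℕ} {W : PrimeSpectrum (MvPolynomial σ K')}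
    (hW : dl K W = k + 1) {f : MvPolynomial σ K'} (hf : f ∉ (gq γ W).asIdeal) :
    divCyc K 𝕜 k (gq γ W) f = ga 𝕜 γ (divCyc K 𝕜 k W (gm σ γ f)) := by
  ext Q'
  obtain ⟨Q, rfl⟩ : ∃ Q, Q' = gq γ Q := ⟨gq γ⁻¹ Q', by rw [gq_gq, inv_mul_cancel, gq_one]⟩
  have hf' : gm σ γ f ∉ W.asIdeal := hf
  have hW' : dl K (gq γ W) = k + 1 := by rw [dl_gq, hW]
  rw [ga_apply]
  unfold divCyc
  rw [cyc_apply K 𝕜 (bd_div K hW' hf), cyc_apply K 𝕜 (bd_div K hW hf'), dl_gq]
  split_ifs with h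
  · have e3 := len_uset_div (Q₀ := W) (gm_frac γ) (bot_uset (gm σ γ) Q) (Submonoid.one_mem _)
      (show gm σ γ f * gm σ γ 1 = gm σ γ f by rw [map_one, mul_one])
    rw [e3]
    rfl
  · rfl

/-- the pull-back of cycles -/
noncomputable abbrev pb (K K' : Type) [Field K] [Field K'] [Algebra K K'] [FiniteDimensional K K']
    (𝕜 : Type) [Field 𝕜] [CharZero 𝕜]
    (σ : Type) [Fintype σ] :
    (PrimeSpectrum (MvPolynomial σ K) →₀ 𝕜) →ₗ[𝕜] (PrimeSpectrum (MvPolynomial σ K') →₀ 𝕜) :=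
  pull K 𝕜 (MvPolynomial σ K') 0

theorem pb_bd (p : PrimeSpectrum (MvPolynomial σ K)) :
    Bd K (R := MvPolynomial σ K') (dl K p) (MvPolynomial σ K' ⧸
      p.asIdeal.map (algebraMap (MvPolynomial σ K) (MvPolynomial σ K'))) := by
  refine ⟨inferInstance, fun Q hQ => ?_⟩
  rw [support_quot] at hQ
  have h1 : p ≤ ct K Q := Ideal.map_le_iff_le_comap.1 hQ
  rw [← dl_ct]
  exact dl_le K h1

theorem pb_apply (p : PrimeSpectrum (MvPolynomial σ K)) (Q : PrimeSpectrum (MvPolynomial σ K')) :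
    pb K K' 𝕜 σ (Finsupp.single p 1) Q = if dl K Q = dl K p then
      ((len Q (MvPolynomial σ K' ⧸
        p.asIdeal.map (algebraMap (MvPolynomial σ K) (MvPolynomial σ K')))).toNat : 𝕜) else 0 := by
  unfold pb
  rw [pull_single, one_smul, add_zero, cyc_apply K 𝕜 (pb_bd p)]

theorem pb_ne_zero_iff (p : PrimeSpectrum (MvPolynomial σ K))
    (Q : PrimeSpectrum (MvPolynomial σ K')) :
    pb K K' 𝕜 σ (Finsupp.single p 1) Q ≠ 0 ↔ ct K Q = p := by
  rw [pb_apply]
  constructor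
  · intro h
    by_cases h1 : dl K Q = dl K p
    · rw [if_pos h1, Nat.cast_ne_zero] at h
      have h2 : 0 < len Q (MvPolynomial σ K' ⧸
          p.asIdeal.map (algebraMap (MvPolynomial σ K) (MvPolynomial σ K'))) := by
        rw [pos_iff_ne_zero]
        intro h3
        rw [h3] at h
        exact h rfl
      rw [len_pos_iff, support_quot] at h2
      have h3 : p ≤ ct K Q := Ideal.map_le_iff_le_comap.1 h2
      exact (eq_of_le_of_dl K h3 (by rw [dl_ct, h1])).symm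
    · rw [if_neg h1] at h
      exact absurd rfl h
  · rintro rfl
    have h1 : dl K Q = dl K (ct K (A := MvPolynomial σ K) Q) := (dl_ct Q).symm
    rw [if_pos h1, Nat.cast_ne_zero]
    have h2 : 0 < len Q (MvPolynomial σ K' ⧸
        (ct K (A := MvPolynomial σ K) Q).asIdeal.map
          (algebraMap (MvPolynomial σ K) (MvPolynomial σ K'))) := by
      rw [len_pos_iff, support_quot]
      exact Ideal.map_le_iff_le_comap.2 le_rfl
    have h3 := bd_len K (pb_bd (K' := K') (ct K (A := MvPolynomial σ K) Q)) Q h1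
    intro h4
    rw [ENat.toNat_eq_zero] at h4
    rcases h4 with h4 | h4
    · rw [h4] at h2; exact lt_irrefl _ h2
    · exact h3 h4

theorem pb_gq (p : PrimeSpectrum (MvPolynomial σ K)) (γ : K' ≃ₐ[K] K')
    (Q : PrimeSpectrum (MvPolynomial σ K')) :
    pb K K' 𝕜 σ (Finsupp.single p 1) (gq γ Q) = pb K K' 𝕜 σ (Finsupp.single p 1) Q := by
  rw [pb_apply, pb_apply, dl_gq]
  have h := len_uset (gm_frac γ) (bot_uset (gm σ γ) Q)
    (p.asIdeal.map (algebraMap (MvPolynomial σ K) (MvPolynomial σ K')))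
  have hJ : (p.asIdeal.map (algebraMap (MvPolynomial σ K) (MvPolynomial σ K'))).comap
      (gm σ γ : MvPolynomial σ K' →+* MvPolynomial σ K') =
      p.asIdeal.map (algebraMap (MvPolynomial σ K) (MvPolynomial σ K')) := by
    have hle : ∀ δ : K' ≃ₐ[K] K',
        p.asIdeal.map (algebraMap (MvPolynomial σ K) (MvPolynomial σ K')) ≤
        (p.asIdeal.map (algebraMap (MvPolynomial σ K) (MvPolynomial σ K'))).comap
          (gm σ δ : MvPolynomial σ K' →+* MvPolynomial σ K') := by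
      intro δ
      rw [Ideal.map_le_iff_le_comap]
      intro a ha
      rw [Ideal.mem_comap, Ideal.mem_comap]
      change gm σ δ (algebraMap (MvPolynomial σ K) (MvPolynomial σ K') a) ∈ _
      rw [gm_bc]
      exact Ideal.mem_map_of_mem _ ha
    apply le_antisymm
    · intro x hx
      rw [Ideal.mem_comap] at hx
      have h1 := hle γ⁻¹ hx
      rw [Ideal.mem_comap] at h1
      change gm σ γ⁻¹ (gm σ γ x) ∈ _ at h1
      rwa [gm_gm, inv_mul_cancel, gm_one] at h1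
    · exact hle γ
  rw [hJ] at h
  rw [h]
  rfl

/-- the Galois average is a pull-back -/
theorem avg_pb (Q : PrimeSpectrum (MvPolynomial σ K')) : ∃ c : 𝕜, c ≠ 0 ∧
    avg K K' 𝕜 σ (Finsupp.single Q 1) = c • pb K K' 𝕜 σ (Finsupp.single (ct K Q) 1) := by
  classical
  have h1 : pb K K' 𝕜 σ (Finsupp.single (ct K Q) 1) Q ≠ 0 := (pb_ne_zero_iff 𝕜 _ Q).2 rfl
  have h2 : ∀ Q' : PrimeSpectrum (MvPolynomial σ K'), avg K K' 𝕜 σ (Finsupp.single Q 1) Q' =
      ((Finset.univ.filter (fun γ : K' ≃ₐ[K] K' => gq γ Q = Q')).card : 𝕜) := by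
    intro Q'
    rw [avg_def, Finsupp.finsetSum_apply, Finset.card_filter]
    push_cast
    apply Finset.sum_congr rfl
    intro γ _
    rw [ga_single, Finsupp.single_apply]
  have h3 : avg K K' 𝕜 σ (Finsupp.single Q 1) Q ≠ 0 := by
    rw [h2, Nat.cast_ne_zero, Finset.card_ne_zero]
    exact ⟨1, Finset.mem_filter.2 ⟨Finset.mem_univ _, gq_one Q⟩⟩
  refine ⟨avg K K' 𝕜 σ (Finsupp.single Q 1) Q / pb K K' 𝕜 σ (Finsupp.single (ct K Q) 1) Q,
    div_ne_zero h3 h1, ?_⟩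
  ext Q'
  rw [Finsupp.smul_apply, smul_eq_mul]
  by_cases h : ct K (A := MvPolynomial σ K) Q' = ct K Q
  · obtain ⟨γ, rfl⟩ := gq_trans Q Q' h.symm
    rw [pb_gq, div_mul_cancel₀ _ h1]
    conv_lhs => rw [← ga_avg 𝕜 γ]
    rw [ga_apply]
  · have h4 : pb K K' 𝕜 σ (Finsupp.single (ct K Q) 1) Q' = 0 := by
      by_contra h5
      exact h ((pb_ne_zero_iff 𝕜 _ Q').1 h5)
    rw [h4, mul_zero, h2, Nat.cast_eq_zero, Finset.card_eq_zero, Finset.filter_eq_empty_iff]
    intro γ _ h5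
    apply h
    rw [← h5, ct_gq]

theorem pb_value (z : PrimeSpectrum (MvPolynomial σ K) →₀ 𝕜)
    (Q : PrimeSpectrum (MvPolynomial σ K')) :
    pb K K' 𝕜 σ z Q = z (ct K Q) * pb K K' 𝕜 σ (Finsupp.single (ct K Q) 1) Q := by
  classical
  induction z using Finsupp.induction_linear with
  | zero => rw [map_zero, Finsupp.zero_apply, Finsupp.zero_apply, zero_mul]
  | add x y hx hy => rw [map_add, Finsupp.add_apply, Finsupp.add_apply, hx, hy, add_mul]
  | single p c =>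
    have h1 : (Finsupp.single p c : PrimeSpectrum (MvPolynomial σ K) →₀ 𝕜) =
        c • Finsupp.single p 1 := by rw [Finsupp.smul_single, smul_eq_mul, mul_one]
    rw [h1, map_smul, Finsupp.smul_apply, Finsupp.smul_apply, smul_eq_mul, smul_eq_mul]
    by_cases h : ct K Q = p
    · rw [h, Finsupp.single_eq_same, mul_one]
    · have h4 : pb K K' 𝕜 σ (Finsupp.single p 1) Q = 0 := by
        by_contra h5
        exact h ((pb_ne_zero_iff 𝕜 _ Q).1 h5)
      rw [h4, Finsupp.single_apply, if_neg (fun h5 => h h5.symm), mul_zero, zero_mul]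

theorem pb_inj {z w : PrimeSpectrum (MvPolynomial σ K) →₀ 𝕜}
    (h : pb K K' 𝕜 σ z = pb K K' 𝕜 σ w) : z = w := by
  ext p
  obtain ⟨Q, rfl⟩ := exists_ct (K' := K') p
  have h1 := DFunLike.congr_fun h Q
  rw [pb_value, pb_value 𝕜 w] at h1
  exact mul_right_cancel₀ ((pb_ne_zero_iff 𝕜 _ Q).2 rfl) h1

end gal

end Pool.Agent.Bloch
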