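import Pool.Agent.Bloch.Gal3

set_option linter.unusedSectionVars false

open MvPolynomial

namespace Pool.Agent.Bloch

attribute [local instance] MvPolynomial.algebraMvPolynomial

section td
variable (K : Type) [Field K]

theorem td_self : td K K = 0 := by
  unfold td
  have : Algebra.trdeg K K = 0 := _root_.trdeg_eq_zero_iff.2 inferInstance
  rw [this]; simp

theorem td_alg (K' : Type) [Field K'] [Algebra K K'] [Algebra.IsAlgebraic K K'] : td K K' = 0 := by
  unfold td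
  have : Algebra.trdeg K K' = 0 := _root_.trdeg_eq_zero_iff.2 inferInstance
  rw [this]; simp

theorem dl_vars {σ : Type} (W : PrimeSpectrum (MvPolynomial σ K)) (h : ∀ s, X s ∈ W.asIdeal) :
    dl K W = 0 := by
  have hsurj : ∀ b : MvPolynomial σ K ⧸ W.asIdeal, ∃ c : K, algebraMap K _ c = b := by
    intro b
    obtain ⟨f, rfl⟩ := Ideal.Quotient.mk_surjective b
    induction f using MvPolynomial.induction_on with
    | C c => exact ⟨c, rfl⟩
    | add p q hp hq =>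
      obtain ⟨c, hc⟩ := hp
      obtain ⟨c', hc'⟩ := hq
      exact ⟨c + c', by rw [map_add, hc, hc', map_add]⟩
    | mul_X p s _ =>
      refine ⟨0, ?_⟩
      rw [map_zero, map_mul, Ideal.Quotient.eq_zero_iff_mem.2 (h s), mul_zero]
  have h1 := td_eq_of_algebraic K (Algebra.ofId K (MvPolynomial σ K ⧸ W.asIdeal))
    (RingHom.injective _) (by
      intro b
      obtain ⟨c, hc⟩ := hsurj b
      refine ⟨Polynomial.X - Polynomial.C c, Polynomial.X_sub_C_ne_zero c, ?_⟩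
      rw [Polynomial.eval₂_sub, Polynomial.eval₂_X, Polynomial.eval₂_C, ← hc]
      exact sub_self _)
  unfold dl
  rw [← h1, td_self]

end td

section gal
variable {K : Type} [Field K] {K' : Type} [Field K'] [Algebra K K'] [FiniteDimensional K K']
  [IsGalois K K'] {σ : Type} [Fintype σ]
variable (𝕜 : Type) [Field 𝕜] [CharZero 𝕜]

theorem gm_X (γ : K' ≃ₐ[K] K') (s : σ) : gm σ γ (X s) = X s := by
  unfold gm
  rw [mapAlgHom_apply, map_X]

theorem exists_var {k : ℕ} (W : PrimeSpectrum (MvPolynomial σ K')) (hd : dl K W = k + 1) :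
    ∃ s, X s ∉ W.asIdeal := by
  by_contra h
  push Not at h
  have h1 := dl_vars K' W h
  have h2 := dl_tower K K' W
  rw [h1, td_alg K K'] at h2
  omega

/-- the norm of a principal divisor -/
theorem norm_div (W : PrimeSpectrum (MvPolynomial σ K')) {k : ℕ} (hd : dl K W = k + 1)
    {f' : MvPolynomial σ K'} (hf' : ∀ γ : K' ≃ₐ[K] K', f' ∉ (gq γ W).asIdeal)
    {F : MvPolynomial σ K} (hF : algebraMap (MvPolynomial σ K) (MvPolynomial σ K') F =
      ∏ γ : K' ≃ₐ[K] K', gm σ γ f') {c₀ : 𝕜}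
    (hc₀ : avg K K' 𝕜 σ (Finsupp.single W 1) = c₀ • pb K K' 𝕜 σ (Finsupp.single (ct K W) 1)) :
    F ∉ (ct K (A := MvPolynomial σ K) W).asIdeal ∧
    avg K K' 𝕜 σ (∑ γ : K' ≃ₐ[K] K', divCyc K 𝕜 k (gq γ W) f') =
      c₀ • pb K K' 𝕜 σ (divCyc K 𝕜 k (ct K W) F) := by
  have hFW : F ∉ (ct K (A := MvPolynomial σ K) W).asIdeal := by
    intro h
    have h1 : algebraMap (MvPolynomial σ K) (MvPolynomial σ K') F ∈ W.asIdeal := h
    rw [hF] at h1
    obtain ⟨γ, _, h2⟩ := W.2.prod_mem_iff.1 h1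
    exact hf' γ h2
  refine ⟨hFW, ?_⟩
  have hdc : dl K (ct K (A := MvPolynomial σ K) W) = k + 1 := by rw [dl_ct, hd]
  have e1 := pull_divCyc_eq K 𝕜 (MvPolynomial σ K') (k := k) (ρ := 0)
    (fun P => by rw [add_zero, dl_ct]) (ct K W) hdc F hFW
  rw [add_zero] at e1
  have e2 : Finsupp.linearCombination 𝕜 (fun Q => divCyc K 𝕜 k Q
      (algebraMap (MvPolynomial σ K) (MvPolynomial σ K') F))
      (avg K K' 𝕜 σ (Finsupp.single W 1)) = c₀ • pb K K' 𝕜 σ (divCyc K 𝕜 k (ct K W) F) := by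
    rw [hc₀, map_smul]
    unfold pb
    rw [e1]
  have e3 : ∀ γ : K' ≃ₐ[K] K', Finsupp.linearCombination 𝕜 (fun Q => divCyc K 𝕜 k Q
      (algebraMap (MvPolynomial σ K) (MvPolynomial σ K') F)) (ga 𝕜 γ (Finsupp.single W 1)) =
      ∑ δ : K' ≃ₐ[K] K', ga 𝕜 δ⁻¹ (divCyc K 𝕜 k (gq (γ * δ) W) f') := by
    intro γ
    rw [ga_single, Finsupp.linearCombination_single, one_smul, hF,
      divCyc_prod K 𝕜 (by rw [dl_gq, hd])]
    · apply Finset.sum_congr rfl
      intro δ _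
      have h1 := divCyc_gq 𝕜 δ (W := gq γ W) (k := k) (by rw [dl_gq, hd]) (f := f') (by
        rw [gq_gq]; exact hf' _)
      rw [gq_gq] at h1
      rw [h1, ga_ga, mul_inv_cancel, ga_one]
    · intro δ _ h
      rw [mem_gq, gm_gm] at h
      exact hf' (γ * δ) h
  have e4 : Finsupp.linearCombination 𝕜 (fun Q => divCyc K 𝕜 k Q
      (algebraMap (MvPolynomial σ K) (MvPolynomial σ K') F))
      (avg K K' 𝕜 σ (Finsupp.single W 1)) =
      ∑ δ : K' ≃ₐ[K] K', ga 𝕜 δ⁻¹ (∑ γ : K' ≃ₐ[K] K', divCyc K 𝕜 k (gq (γ * δ) W) f') := by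
    rw [avg_def, map_sum, Finset.sum_congr rfl (fun γ _ => e3 γ), Finset.sum_comm]
    apply Finset.sum_congr rfl
    intro δ _
    rw [map_sum]
  have e5 : ∀ δ : K' ≃ₐ[K] K', ∑ γ : K' ≃ₐ[K] K', divCyc K 𝕜 k (gq (γ * δ) W) f' =
      ∑ γ : K' ≃ₐ[K] K', divCyc K 𝕜 k (gq γ W) f' := fun δ =>
    Fintype.sum_equiv (Equiv.mulRight δ) _ _ (fun γ => rfl)
  rw [← e2, e4, avg_def]
  refine Fintype.sum_equiv (Equiv.inv _) _ _ (fun δ => ?_)
  rw [Equiv.inv_apply, inv_inv, e5]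

end gal

end Pool.Agent.Bloch
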