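import Pool.Agent.Bloch.Gal4

set_option linter.unusedSectionVars false

open MvPolynomial

namespace Pool.Agent.Bloch

attribute [local instance] MvPolynomial.algebraMvPolynomial

section gal
variable {K : Type} [Field K] {K' : Type} [Field K'] [Algebra K K'] [FiniteDimensional K K']
  [IsGalois K K'] {σ : Type} [Fintype σ]
variable (𝕜 : Type) [Field 𝕜] [CharZero 𝕜]

theorem exists_norm (f : MvPolynomial σ K') {n : ℕ} (hf : f.IsHomogeneous n) :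
    ∃ F : MvPolynomial σ K, F.IsHomogeneous (∑ _γ : K' ≃ₐ[K] K', n) ∧
      algebraMap (MvPolynomial σ K) (MvPolynomial σ K') F = ∏ γ : K' ≃ₐ[K] K', gm σ γ f := by
  obtain ⟨F, hF⟩ := gm_fixed (∏ γ : K' ≃ₐ[K] K', gm σ γ f) (by
    intro γ
    rw [map_prod]
    refine Fintype.prod_equiv (Equiv.mulLeft γ) _ _ (fun g => ?_)
    rw [gm_gm]
    rfl)
  refine ⟨F, ?_, hF⟩
  apply bc_hom (K' := K')
  rw [hF]
  apply IsHomogeneous.prod
  intro γ _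
  exact gm_hom γ hf

/-- The Galois average of a principal divisor comes from the base field. -/
theorem avg_div (W : PrimeSpectrum (MvPolynomial σ K')) (hW : HomP W) {k : ℕ}
    (hd : dl K W = k + 1) {n : ℕ} {f g : MvPolynomial σ K'} (hf : f.IsHomogeneous n)
    (hg : g.IsHomogeneous n) (hfW : f ∉ W.asIdeal) (hgW : g ∉ W.asIdeal) :
    ∃ (m : ℕ) (F G : MvPolynomial σ K) (c : 𝕜), F.IsHomogeneous m ∧ G.IsHomogeneous m ∧
      F ∉ (ct K (A := MvPolynomial σ K) W).asIdeal ∧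
      G ∉ (ct K (A := MvPolynomial σ K) W).asIdeal ∧
      avg K K' 𝕜 σ (divCyc K 𝕜 k W f - divCyc K 𝕜 k W g) =
        c • pb K K' 𝕜 σ (divCyc K 𝕜 k (ct K W) F - divCyc K 𝕜 k (ct K W) G) := by
  classical
  obtain ⟨s, hs⟩ := exists_var W hd
  let O : Finset (PrimeSpectrum (MvPolynomial σ K')) :=
    Finset.univ.image (fun γ : K' ≃ₐ[K] K' => gq γ W)
  have hO : ∀ Q, Q ∈ O ↔ ∃ γ : K' ≃ₐ[K] K', gq γ W = Q := by
    intro Q
    rw [Finset.mem_image]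
    simp only [Finset.mem_univ, true_and]
  have hWO : W ∈ O := (hO W).2 ⟨1, gq_one W⟩
  have hOd : ∀ Q ∈ O, dl K Q = k + 1 := by
    intro Q hQ
    obtain ⟨γ, rfl⟩ := (hO Q).1 hQ
    rw [dl_gq, hd]
  obtain ⟨D, a, b, ha, hb, haW, haQ, hbW, hbQ⟩ := approx O
    (by
      intro Q hQ
      obtain ⟨γ, rfl⟩ := (hO Q).1 hQ
      exact homP_gq γ hW)
    (by
      intro Q hQ Q' hQ' hle
      exact eq_of_le_of_dl K hle (by rw [hOd Q hQ, hOd Q' hQ']))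
    (X s) (isHomogeneous_X _ s)
    (by
      intro Q hQ
      obtain ⟨γ, rfl⟩ := (hO Q).1 hQ
      rw [mem_gq, gm_X]
      exact hs) W hWO
  have hcomm : ∀ f : MvPolynomial σ K', f.IsHomogeneous n → f ∉ W.asIdeal →
      (f * a + X s ^ n * b).IsHomogeneous (n + D) ∧
      ∀ γ : K' ≃ₐ[K] K', f * a + X s ^ n * b ∉ (gq γ W).asIdeal := by
    intro f hf hfW
    constructor
    · exact (hf.mul ha).add ((isHomogeneous_X_pow s n).mul hb)
    · intro γ h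
      by_cases hγ : gq γ W = W
      · rw [hγ] at h
        have h1 := Ideal.sub_mem _ h (Ideal.mul_mem_left _ (X s ^ n) hbW)
        rw [add_sub_cancel_right] at h1
        exact (W.2.mem_or_mem h1).elim hfW haW
      · have hmem : gq γ W ∈ O := (hO _).2 ⟨γ, rfl⟩
        have h1 := Ideal.sub_mem _ h (Ideal.mul_mem_left _ f (haQ _ hmem hγ))
        rw [add_sub_cancel_left] at h1
        rcases (gq γ W).2.mem_or_mem h1 with h2 | h2
        · have h3 := (gq γ W).2.mem_of_pow_mem _ h2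
          rw [mem_gq, gm_X] at h3
          exact hs h3
        · exact hbQ _ hmem hγ h2
  obtain ⟨hf1, hf2⟩ := hcomm f hf hfW
  obtain ⟨hg1, hg2⟩ := hcomm g hg hgW
  obtain ⟨F, hF1, hF2⟩ := exists_norm (K := K) _ hf1
  obtain ⟨G, hG1, hG2⟩ := exists_norm (K := K) _ hg1
  obtain ⟨c₀, _, hc₀⟩ := avg_pb (K := K) 𝕜 W
  obtain ⟨hFW, eF⟩ := norm_div 𝕜 W hd hf2 hF2 hc₀
  obtain ⟨hGW, eG⟩ := norm_div 𝕜 W hd hg2 hG2 hc₀
  set Ns := (Finset.univ.filter (fun γ : K' ≃ₐ[K] K' => gq γ W = W)).card with hNs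
  have hNs0 : (Ns : 𝕜) ≠ 0 := by
    rw [Nat.cast_ne_zero, hNs, Finset.card_ne_zero]
    exact ⟨1, Finset.mem_filter.2 ⟨Finset.mem_univ _, gq_one W⟩⟩
  have hdiff : ∑ γ : K' ≃ₐ[K] K', divCyc K 𝕜 k (gq γ W) (f * a + X s ^ n * b) -
      ∑ γ : K' ≃ₐ[K] K', divCyc K 𝕜 k (gq γ W) (g * a + X s ^ n * b) =
      (Ns : 𝕜) • (divCyc K 𝕜 k W f - divCyc K 𝕜 k W g) := by
    rw [← Finset.sum_sub_distrib]
    have h1 : ∀ γ : K' ≃ₐ[K] K', divCyc K 𝕜 k (gq γ W) (f * a + X s ^ n * b) -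
        divCyc K 𝕜 k (gq γ W) (g * a + X s ^ n * b) =
        if gq γ W = W then divCyc K 𝕜 k W f - divCyc K 𝕜 k W g else 0 := by
      intro γ
      split_ifs with hγ
      · rw [hγ]
        have h2 : ∀ f : MvPolynomial σ K', f ∉ W.asIdeal →
            divCyc K 𝕜 k W (f * a + X s ^ n * b) = divCyc K 𝕜 k W f + divCyc K 𝕜 k W a := by
          intro f hf
          rw [← divCyc_mul K 𝕜 hd hf haW]
          apply divCyc_congr
          rw [add_sub_cancel_left]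
          exact Ideal.mul_mem_left _ _ hbW
        rw [h2 f hfW, h2 g hgW, add_sub_add_right_eq_sub]
      · have hmem : gq γ W ∈ O := (hO _).2 ⟨γ, rfl⟩
        rw [sub_eq_zero]
        apply divCyc_congr
        rw [add_sub_add_right_eq_sub, ← sub_mul]
        exact Ideal.mul_mem_left _ _ (haQ _ hmem hγ)
    rw [Finset.sum_congr rfl (fun γ _ => h1 γ), ← Finset.sum_filter, Finset.sum_const,
      Nat.cast_smul_eq_nsmul]
  refine ⟨_, F, G, (Ns : 𝕜)⁻¹ * c₀, hF1, hG1, hFW, hGW, ?_⟩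
  have h1 := congrArg (avg K K' 𝕜 σ) hdiff
  rw [map_sub, eF, eG, map_smul, ← smul_sub, ← map_sub] at h1
  rw [mul_smul, h1, smul_smul, inv_mul_cancel₀ hNs0, one_smul]

variable {Z : Set (PrimeSpectrum (MvPolynomial σ K))} {k : ℕ}
  {Z' : Set (PrimeSpectrum (MvPolynomial σ K'))}

/-- the relations over the extension field -/
noncomputable def descN (Z' : Set (PrimeSpectrum (MvPolynomial σ K'))) (k : ℕ)
    (N : Submodule 𝕜 (VH Z k →₀ 𝕜)) : Submodule 𝕜 (VH Z' k →₀ 𝕜) :=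
  ((N.map (emb 𝕜 Z k)).map (pb K K' 𝕜 σ)).comap (avg K K' 𝕜 σ ∘ₗ emb 𝕜 Z' k)

theorem mem_descN (N : Submodule 𝕜 (VH Z k →₀ 𝕜)) (z : VH Z' k →₀ 𝕜) :
    z ∈ descN 𝕜 Z' k N ↔ ∃ w ∈ N, pb K K' 𝕜 σ (emb 𝕜 Z k w) = avg K K' 𝕜 σ (emb 𝕜 Z' k z) := by
  unfold descN
  rw [Submodule.mem_comap, LinearMap.comp_apply]
  constructor
  · rintro ⟨_, ⟨w, hw, rfl⟩, h⟩
    exact ⟨w, hw, h⟩
  · rintro ⟨w, hw, h⟩
    exact ⟨_, ⟨w, hw, rfl⟩, h⟩

theorem dl_K' (Q : PrimeSpectrum (MvPolynomial σ K')) : dl K Q = dl K' Q := by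
  rw [dl_tower K K' Q, td_alg K K', zero_add]

theorem descN_rel (hup' : ∀ p ∈ Z', ∀ q, p ≤ q → q ∈ Z') (hup : ∀ p ∈ Z, ∀ q, p ≤ q → q ∈ Z)
    (hZ : ∀ Q ∈ Z', ct K Q ∈ Z) (N : Submodule 𝕜 (VH Z k →₀ 𝕜)) (hN : RelH 𝕜 Z k ≤ N) :
    RelH 𝕜 Z' k ≤ descN 𝕜 Z' k N := by
  unfold RelH
  rw [Submodule.span_le]
  rintro z ⟨W, n, f, g, hf, hg, hfW, hgW, rfl⟩
  have hd : dl K W.1 = k + 1 := by rw [dl_K', W.2.2.2]
  obtain ⟨m, F, G, c, hF, hG, hFW, hGW, h⟩ := avg_div (K := K) 𝕜 W.1 W.2.1 hd hf hg hfW hgW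
  let W₀ : VH Z (k + 1) := ⟨ct K W.1, by
    intro x hx n
    have h1 : algebraMap (MvPolynomial σ K) (MvPolynomial σ K') x ∈ W.1.asIdeal := hx
    have h2 := W.2.1 _ h1 n
    rw [bc_hc] at h2
    exact h2, hZ _ W.2.2.1, by rw [dl_ct, hd]⟩
  rw [SetLike.mem_coe, mem_descN]
  refine ⟨c • res 𝕜 Z k (divCyc K 𝕜 k W₀.1 F - divCyc K 𝕜 k W₀.1 G), ?_, ?_⟩
  · exact Submodule.smul_mem _ _ (hN (Submodule.subset_span ⟨W₀, m, F, G, hF, hG, hFW, hGW, rfl⟩))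
  · have h0 : td K K' = 0 := td_alg K K'
    rw [map_smul, map_sub, map_sub, emb_res_div 𝕜 Z k hup W₀ hF hFW,
      emb_res_div 𝕜 Z k hup W₀ hG hGW, map_sub, map_sub, emb_res_div 𝕜 Z' k hup' W hf hfW,
      emb_res_div 𝕜 Z' k hup' W hg hgW, divCyc_tower K K' 𝕜 k, divCyc_tower K K' 𝕜 k, h0,
      zero_add, h, map_smul]

theorem descN_single (N : Submodule 𝕜 (VH Z k →₀ 𝕜)) (V' : VH Z' k) (V : VH Z k)
    (hV : V.1 = ct K V'.1) (h : Finsupp.single V' (1 : 𝕜) ∈ descN 𝕜 Z' k N) :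
    Finsupp.single V (1 : 𝕜) ∈ N := by
  rw [mem_descN] at h
  obtain ⟨w, hw, h⟩ := h
  obtain ⟨c, hc, h2⟩ := avg_pb (K := K) 𝕜 V'.1
  rw [emb_single, h2, ← hV, ← map_smul] at h
  have h3 := pb_inj 𝕜 h
  rw [← emb_single 𝕜 Z k, ← map_smul] at h3
  have h4 := emb_inj 𝕜 Z k h3
  rw [h4] at hw
  have h5 := Submodule.smul_mem _ c⁻¹ hw
  rwa [smul_smul, inv_mul_cancel₀ hc, one_smul] at h5

end gal

end Pool.Agent.Bloch
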