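import Pool.Agent.Bloch.Gal5

set_option linter.unusedSectionVars false

open MvPolynomial

namespace Pool.Agent.Bloch

attribute [local instance] MvPolynomial.algebraMvPolynomial

section gal
variable {K : Type} [Field K] {K' : Type} [Field K'] [Algebra K K'] [FiniteDimensional K K']
  [IsGalois K K'] {σ : Type} [Fintype σ]
variable (𝕜 : Type) [Field 𝕜] [CharZero 𝕜]

theorem scl_alg (c : σ → K) (f : MvPolynomial σ K') :
    scl K' (fun s => algebraMap K K' (c s)) f = scl K' c f := by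
  ext m
  rw [scl_coeff, scl_coeff]
  congr 1
  rw [map_finsuppProd, map_finsuppProd]
  simp only [map_pow]
  rfl

theorem scl_bc (c : σ → K) (f : MvPolynomial σ K) :
    scl K' c (algebraMap (MvPolynomial σ K) (MvPolynomial σ K') f) =
      algebraMap (MvPolynomial σ K) (MvPolynomial σ K') (scl K c f) := by
  ext m
  rw [scl_coeff]
  change _ * coeff m (map (algebraMap K K') f) = coeff m (map (algebraMap K K') (scl K c f))
  rw [coeff_map, coeff_map, scl_coeff, map_mul]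
  rfl

theorem scl_gm (c : σ → K) (γ : K' ≃ₐ[K] K') (f : MvPolynomial σ K') :
    gm σ γ (scl K' c f) = scl K' c (gm σ γ f) := by
  ext m
  rw [gm_coeff, scl_coeff, scl_coeff, gm_coeff, map_mul, γ.commutes]

theorem scl_inv {R : Type} [CommRing R] [Algebra K R] (c : σ → K) (hc : ∀ s, c s ≠ 0)
    (f : MvPolynomial σ R) : scl R c (scl R (fun s => (c s)⁻¹) f) = f := by
  rw [scl_scl]
  have : (fun l => c l * (c l)⁻¹) = fun _ => (1 : K) := by
    funext l
    exact mul_inv_cancel₀ (hc l)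
  rw [this, scl_one]

theorem scl_inv' {R : Type} [CommRing R] [Algebra K R] (c : σ → K) (hc : ∀ s, c s ≠ 0)
    (f : MvPolynomial σ R) : scl R (fun s => (c s)⁻¹) (scl R c f) = f := by
  rw [scl_scl]
  have : (fun l => (c l)⁻¹ * c l) = fun _ => (1 : K) := by
    funext l
    exact inv_mul_cancel₀ (hc l)
  rw [this, scl_one]

theorem scl_frac {R : Type} [CommRing R] [Algebra K R] (c : σ → K) (hc : ∀ s, c s ≠ 0) :
    Frac K (scl R c) (⊥ : Submonoid (MvPolynomial σ R)) := by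
  intro y
  exact ⟨1, Submonoid.one_mem _, scl R (fun s => (c s)⁻¹) y, by
    rw [map_one, mul_one, scl_inv c hc]⟩

theorem ctr_scl_inj {R : Type} [CommRing R] [Algebra K R] (c : σ → K) (hc : ∀ s, c s ≠ 0) :
    Function.Injective (ctr K (scl R c)) := by
  intro Q Q' h
  apply PrimeSpectrum.ext
  ext f
  have h1 : scl R (fun s => (c s)⁻¹) f ∈ (ctr K (scl R c) Q).asIdeal ↔
      scl R (fun s => (c s)⁻¹) f ∈ (ctr K (scl R c) Q').asIdeal := by rw [h]
  rwa [mem_ctr, mem_ctr, scl_inv c hc] at h1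

theorem pb_scl (c : σ → K) (hc : ∀ s, c s ≠ 0) (p : PrimeSpectrum (MvPolynomial σ K)) :
    Finsupp.lmapDomain 𝕜 𝕜 (ctr K (scl K' c)) (pb K K' 𝕜 σ (Finsupp.single p 1)) =
      pb K K' 𝕜 σ (Finsupp.single (ctr K (scl K c) p) 1) := by
  ext Q'
  obtain ⟨Q, rfl⟩ : ∃ Q, Q' = ctr K (scl K' c) Q := by
    refine ⟨ctr K (scl K' fun s => (c s)⁻¹) Q', ?_⟩
    apply PrimeSpectrum.ext
    ext f
    rw [mem_ctr, mem_ctr, scl_inv' c hc]
  have e0 : (Finsupp.lmapDomain 𝕜 𝕜 (ctr K (scl K' c)) (pb K K' 𝕜 σ (Finsupp.single p 1)))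
      (ctr K (scl K' c) Q) = pb K K' 𝕜 σ (Finsupp.single p 1) Q :=
    Finsupp.mapDomain_apply (ctr_scl_inj c hc) _ Q
  rw [e0, pb_apply, pb_apply, dl_scl c hc, dl_scl c hc]
  have h := len_uset (scl_frac c hc) (bot_uset (scl K' c) Q)
    (p.asIdeal.map (algebraMap (MvPolynomial σ K) (MvPolynomial σ K')))
  have hle : ∀ (c : σ → K) (hc : ∀ s, c s ≠ 0) (p : PrimeSpectrum (MvPolynomial σ K)),
      (ctr K (scl K c) p).asIdeal.map (algebraMap (MvPolynomial σ K) (MvPolynomial σ K')) ≤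
        (p.asIdeal.map (algebraMap (MvPolynomial σ K) (MvPolynomial σ K'))).comap
          (scl K' c : MvPolynomial σ K' →+* MvPolynomial σ K') := by
    intro c hc p
    rw [Ideal.map_le_iff_le_comap]
    intro a ha
    rw [Ideal.mem_comap, Ideal.mem_comap]
    change scl K' c (algebraMap (MvPolynomial σ K) (MvPolynomial σ K') a) ∈ _
    rw [scl_bc]
    exact Ideal.mem_map_of_mem _ ha
  have hJ : (p.asIdeal.map (algebraMap (MvPolynomial σ K) (MvPolynomial σ K'))).comap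
      (scl K' c : MvPolynomial σ K' →+* MvPolynomial σ K') =
      (ctr K (scl K c) p).asIdeal.map (algebraMap (MvPolynomial σ K) (MvPolynomial σ K')) := by
    apply le_antisymm _ (hle c hc p)
    intro x hx
    rw [Ideal.mem_comap] at hx
    have hci : ∀ s, (c s)⁻¹ ≠ 0 := fun s => inv_ne_zero (hc s)
    have hp : p = ctr K (scl K fun s => (c s)⁻¹) (ctr K (scl K c) p) := by
      apply PrimeSpectrum.ext
      ext f
      rw [mem_ctr, mem_ctr, scl_inv c hc]
    rw [hp] at hx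
    have h1 := hle (fun s => (c s)⁻¹) hci (ctr K (scl K c) p) hx
    rw [Ideal.mem_comap] at h1
    change scl K' (fun s => (c s)⁻¹) (scl K' c x) ∈ _ at h1
    rwa [scl_inv' c hc] at h1
  rw [hJ] at h
  rw [h]

theorem avg_scl (c : σ → K) (z : PrimeSpectrum (MvPolynomial σ K') →₀ 𝕜) :
    avg K K' 𝕜 σ (Finsupp.lmapDomain 𝕜 𝕜 (ctr K (scl K' c)) z) =
      Finsupp.lmapDomain 𝕜 𝕜 (ctr K (scl K' c)) (avg K K' 𝕜 σ z) := by
  rw [avg_def, avg_def, map_sum]
  apply Finset.sum_congr rfl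
  intro γ _
  induction z using Finsupp.induction_linear with
  | zero => simp only [map_zero]
  | add x y hx hy => simp only [map_add, hx, hy]
  | single V a =>
    have h1 : ∀ (Q : PrimeSpectrum (MvPolynomial σ K')),
        Finsupp.lmapDomain 𝕜 𝕜 (ctr K (scl K' c)) (Finsupp.single Q a) =
          Finsupp.single (ctr K (scl K' c) Q) a := fun Q => Finsupp.mapDomain_single
    rw [h1, ga_single, ga_single, h1]
    congr 1
    apply PrimeSpectrum.ext
    ext f
    rw [mem_gq, mem_ctr, mem_ctr, mem_gq, scl_gm]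

variable {Z : Set (PrimeSpectrum (MvPolynomial σ K))} {k : ℕ}
  {Z' : Set (PrimeSpectrum (MvPolynomial σ K'))}

theorem descN_scl (N : Submodule 𝕜 (VH Z k →₀ 𝕜)) (c : σ → K) (hc : ∀ s, c s ≠ 0)
    (V₁' V₂' : VH Z' k) (V₁ V₂ : VH Z k) (h1 : V₁.1 = ct K V₁'.1)
    (h2 : V₂'.1 = ctr K' (scl K' (fun s => algebraMap K K' (c s))) V₁'.1)
    (h3 : V₂.1 = ctr K (scl K c) V₁.1) (x : 𝕜)
    (hN : Finsupp.single V₂ 1 - x • Finsupp.single V₁ (1 : 𝕜) ∈ N) :
    Finsupp.single V₂' 1 - x • Finsupp.single V₁' (1 : 𝕜) ∈ descN 𝕜 Z' k N := by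
  obtain ⟨c₁, _, hc₁⟩ := avg_pb (K := K) 𝕜 V₁'.1
  rw [← h1] at hc₁
  have h2' : V₂'.1 = ctr K (scl K' c) V₁'.1 := by
    rw [h2]
    apply PrimeSpectrum.ext
    ext f
    rw [mem_ctr, mem_ctr, scl_alg]
  have hc₂ : avg K K' 𝕜 σ (Finsupp.single V₂'.1 1) = c₁ • pb K K' 𝕜 σ (Finsupp.single V₂.1 1) := by
    have e1 : (Finsupp.single V₂'.1 (1 : 𝕜)) =
        Finsupp.lmapDomain 𝕜 𝕜 (ctr K (scl K' c)) (Finsupp.single V₁'.1 1) := by
      rw [h2']
      exact Finsupp.mapDomain_single.symm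
    rw [e1, avg_scl, hc₁, map_smul, pb_scl 𝕜 c hc, ← h3]
  rw [mem_descN]
  refine ⟨c₁ • (Finsupp.single V₂ 1 - x • Finsupp.single V₁ (1 : 𝕜)), Submodule.smul_mem _ _ hN, ?_⟩
  have e1 : emb 𝕜 Z k (Finsupp.single V₂ 1 - x • Finsupp.single V₁ (1 : 𝕜)) =
      Finsupp.single V₂.1 1 - x • Finsupp.single V₁.1 (1 : 𝕜) := by
    rw [map_sub, map_smul, emb_single, emb_single]
  have e2 : emb 𝕜 Z' k (Finsupp.single V₂' 1 - x • Finsupp.single V₁' (1 : 𝕜)) =
      Finsupp.single V₂'.1 1 - x • Finsupp.single V₁'.1 (1 : 𝕜) := by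
    rw [map_sub, map_smul, emb_single, emb_single]
  rw [map_smul, e1, e2, map_smul, map_sub, map_smul, map_sub, map_smul, hc₁, hc₂, smul_sub,
    smul_comm x c₁]

end gal

end Pool.Agent.Bloch
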