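import Pool.Agent.Bloch.Lin

set_option linter.unusedSectionVars false

open MvPolynomial

namespace Pool.Agent.Bloch

variable (K : Type) [Field K] (𝕜 : Type) [Field 𝕜] [CharZero 𝕜]

section
variable {A L : Type} [CommRing A] [Algebra K A] [CommRing L] [Algebra K L]
variable [Algebra.EssFiniteType K A] [IsNoetherianRing A] [Algebra.EssFiniteType K L]
  [IsNoetherianRing L]

/-- Induction on the dimension of the contraction. -/
theorem van_of_step (φ : A →ₐ[K] L) (Z : Set (PrimeSpectrum L)) (i : ℕ)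
    (h : ∀ P ∈ Z, dl K P = i → Finsupp.single P 1 ∈ Rel K 𝕜 i Z ⊔
      Submodule.span 𝕜 {w : PrimeSpectrum L →₀ 𝕜 | ∃ p ∈ {p : PrimeSpectrum L |
        p ∈ Z ∧ dl K p = i ∧ dl K (ctr K φ p) < dl K (ctr K φ P)}, w = Finsupp.single p 1}) :
    Van K 𝕜 i Z := by
  have : ∀ n, ∀ P ∈ Z, dl K P = i → dl K (ctr K φ P) ≤ n → Finsupp.single P 1 ∈ Rel K 𝕜 i Z := by
    intro n
    induction n with
    | zero =>
      intro P hP hd hn
      refine (sup_le le_rfl ?_ : _ ⊔ _ ≤ Rel K 𝕜 i Z) (h P hP hd)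
      rw [Submodule.span_le]
      rintro w ⟨p, ⟨h1, h2, h3⟩, rfl⟩
      omega
    | succ n ih =>
      intro P hP hd hn
      refine (sup_le le_rfl ?_ : _ ⊔ _ ≤ Rel K 𝕜 i Z) (h P hP hd)
      rw [Submodule.span_le]
      rintro w ⟨p, ⟨h1, h2, h3⟩, rfl⟩
      exact ih p h1 h2 (by omega)
  intro P hP hd
  exact this _ P hP hd le_rfl

end

section kap
variable {A : Type} [CommRing A] [Algebra K A] [Algebra.EssFiniteType K A] [IsNoetherianRing A]

/-- the map to the residue field, as an algebra homomorphism -/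
noncomputable def toKapA (p : PrimeSpectrum A) : A →ₐ[K] Kap p :=
  (IsScalarTower.toAlgHom K (A ⧸ p.asIdeal) (Kap p)).comp (Ideal.Quotient.mkₐ K p.asIdeal)

theorem toKapA_apply (p : PrimeSpectrum A) (a : A) : toKapA K p a = toKap p a := rfl

instance essKap (p : PrimeSpectrum A) : Algebra.EssFiniteType K (Kap p) := by
  haveI : Algebra.EssFiniteType (A ⧸ p.asIdeal) (Kap p) :=
    Algebra.EssFiniteType.of_isLocalization _ (nonZeroDivisors (A ⧸ p.asIdeal))
  exact Algebra.EssFiniteType.comp K (A ⧸ p.asIdeal) (Kap p)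

theorem ctr_kap (p : PrimeSpectrum A) (Q : PrimeSpectrum (Kap p)) : ctr K (toKapA K p) Q = p := by
  apply PrimeSpectrum.ext
  ext x
  rw [mem_ctr, toKapA_apply]
  have : Q.asIdeal = ⊥ := by
    rcases Ideal.eq_bot_or_top Q.asIdeal with h | h
    · exact h
    · exact absurd h Q.2.ne_top
  rw [this, Ideal.mem_bot, toKap_eq_zero]

theorem dl_kap (p : PrimeSpectrum A) (Q : PrimeSpectrum (Kap p)) : dl K Q = dl K p := by
  rw [← dl_ctr_eq_of_frac K (toKapA K p) Q, ctr_kap]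
  intro b
  obtain ⟨u, a, h1, h2⟩ := toKap_frac p b
  refine ⟨u, a, h1, ?_⟩
  intro h3
  apply h2
  rw [← ctr_kap K p Q]
  exact h3

theorem van_kap (p : PrimeSpectrum A) (j : ℕ) (hj : j < dl K p) :
    Van K 𝕜 j (Set.univ : Set (PrimeSpectrum (Kap p))) := by
  intro Q _ hd
  rw [dl_kap] at hd
  omega

theorem van_kap_poly (p : PrimeSpectrum A) (j : ℕ) (hj : j < dl K p + 1) :
    Van K 𝕜 j (Set.univ : Set (PrimeSpectrum (Polynomial (Kap p)))) := by
  have h := van_poly K 𝕜 (Set.univ : Set (PrimeSpectrum (Kap p))) (fun _ _ _ _ => Set.mem_univ _) j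
    (fun j' hj' => van_kap K 𝕜 p j' (by omega))
  exact h

theorem dl_kap_poly (p : PrimeSpectrum A) (Q : PrimeSpectrum (Polynomial (Kap p))) :
    dl K p + 1 ≤ dl K Q + 1 := by
  have h1 := dl_ctr_le K (polyC K (Kap p)) Q
  rw [dl_kap] at h1
  omega

end kap

section step
variable {A : Type} [CommRing A] [Algebra K A] [Algebra.EssFiniteType K A] [IsNoetherianRing A]
variable {D : Type} [CommRing D] [Algebra K D] [Algebra A D] [IsScalarTower K A D]
  [Algebra.EssFiniteType K D] [IsNoetherianRing D]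
variable {D' : Type} [CommRing D'] [Algebra K D'] [Algebra.EssFiniteType K D']
  [IsNoetherianRing D']

/-- the inclusion of the base in the polynomial ring -/
noncomputable def baseMap (A D : Type) [CommRing A] [Algebra K A] [CommRing D] [Algebra K D]
    [Algebra A D] [IsScalarTower K A D] (q : ℕ) : A →ₐ[K] MvPolynomial (Fin q) D :=
  IsScalarTower.toAlgHom K A (MvPolynomial (Fin q) D)

theorem baseMap_apply (q : ℕ) (a : A) : baseMap K A D q a = C (algebraMap A D a) := rfl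

theorem mem_of_coeffs {R : Type} [CommRing R] {q : ℕ} (P : Ideal (MvPolynomial (Fin q) R))
    (x : MvPolynomial (Fin q) R) (h : ∀ m, C (coeff m x) ∈ P) : x ∈ P := by
  rw [MvPolynomial.as_sum x]
  apply Ideal.sum_mem
  intro m _
  rw [← mul_one (coeff m x), ← C_mul_monomial]
  exact Ideal.mul_mem_right _ _ (h m)

/-- One step of the descent to the generic fibre. -/
theorem lin_step (𝔠 : PrimeSpectrum A) [Algebra (Kap 𝔠) D'] [IsScalarTower K (Kap 𝔠) D']
    (δ : D →ₐ[K] D') (hδ : ∀ a : A, δ (algebraMap A D a) = algebraMap (Kap 𝔠) D' (toKap 𝔠 a))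
    (hfrac : ∀ t : D', ∃ u ∉ 𝔠.asIdeal, ∃ a : D, t * δ (algebraMap A D u) = δ a)
    (hker : ∀ x : D, δ x = 0 → ∀ 𝔮 : PrimeSpectrum D,
      (∀ a ∈ 𝔠.asIdeal, algebraMap A D a ∈ 𝔮.asIdeal) → x ∈ 𝔮.asIdeal)
    (N : ℕ) (hN1 : ∀ j < N, Van K 𝕜 j (Set.univ : Set (PrimeSpectrum D')))
    (hN2 : ∀ p : PrimeSpectrum D', N ≤ dl K p + 1) (q : ℕ)
    (ι : Type) (Λ : Finset ι) (g : ι → D) (φ : ι → Fin q → A) (i : ℕ)
    (hi : i + Λ.card < q + N) (P : PrimeSpectrum (MvPolynomial (Fin q) D))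
    (hP : ∀ e ∈ Λ, lin (g e) (fun l => algebraMap A D (φ e l)) ∈ P.asIdeal) (hd : dl K P = i)
    (hc : ctr K (baseMap K A D q) P = 𝔠) :
    Finsupp.single P 1 ∈ Rel K 𝕜 i {P : PrimeSpectrum (MvPolynomial (Fin q) D) |
        ∀ e ∈ Λ, lin (g e) (fun l => algebraMap A D (φ e l)) ∈ P.asIdeal} ⊔
      Submodule.span 𝕜 {w : PrimeSpectrum (MvPolynomial (Fin q) D) →₀ 𝕜 | ∃ p ∈
        {p : PrimeSpectrum (MvPolynomial (Fin q) D) | p ∈
        {P : PrimeSpectrum (MvPolynomial (Fin q) D) |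
        ∀ e ∈ Λ, lin (g e) (fun l => algebraMap A D (φ e l)) ∈ P.asIdeal} ∧ dl K p = i ∧
          dl K (ctr K (baseMap K A D q) p) < dl K (ctr K (baseMap K A D q) P)},
            w = Finsupp.single p 1} := by
  set θ : MvPolynomial (Fin q) D →ₐ[K] MvPolynomial (Fin q) D' := MvPolynomial.mapAlgHom δ with hθ
  have hθC : ∀ x : D, θ (C x) = C (δ x) := by
    intro x; rw [hθ, mapAlgHom_apply]; simp
  have hθX : ∀ l, θ (X l) = X l := by
    intro l; rw [hθ, mapAlgHom_apply]; simp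
  have hθc : ∀ x m, coeff m (θ x) = δ (coeff m x) := by
    intro x m
    rw [hθ]
    exact coeff_map (δ : D →+* D') x m
  let S : Submonoid (MvPolynomial (Fin q) D) := 𝔠.asIdeal.primeCompl.map (baseMap K A D q)
  have hF : Frac K θ S := by
    intro t
    induction t using MvPolynomial.induction_on with
    | C x =>
      obtain ⟨u, hu, a, h⟩ := hfrac x
      refine ⟨baseMap K A D q u, Submonoid.mem_map_of_mem _ hu, C a, ?_⟩
      rw [baseMap_apply, hθC, hθC, ← C_mul, h]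
    | add x y hx hy =>
      obtain ⟨u, hu, a, h⟩ := hx
      obtain ⟨v, hv, b, h'⟩ := hy
      refine ⟨u * v, S.mul_mem hu hv, a * v + b * u, ?_⟩
      rw [map_mul, map_add, map_mul, map_mul, ← h, ← h']; ring
    | mul_X x l hx =>
      obtain ⟨u, hu, a, h⟩ := hx
      refine ⟨u, hu, a * X l, ?_⟩
      rw [map_mul, ← h, hθX]; ring
  have hlin : ∀ e, θ (lin (g e) (fun l => algebraMap A D (φ e l))) =
      lin (δ (g e)) (fun l => algebraMap (Kap 𝔠) D' (toKap 𝔠 (φ e l))) := by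
    intro e
    unfold lin
    rw [map_add, map_sum, hθC]
    congr 1
    apply Finset.sum_congr rfl
    intro l _
    rw [map_mul, hθC, hθX, hδ]
  have hcmem : ∀ a ∈ 𝔠.asIdeal, C (algebraMap A D a) ∈ P.asIdeal := by
    intro a ha
    rw [← hc] at ha
    exact ha
  obtain ⟨P', hP', hP'c⟩ := exists_uset hF P (by
    intro x hx
    apply mem_of_coeffs
    intro m
    have h1 : δ (coeff m x) = 0 := by rw [← hθc, hx, coeff_zero]
    exact hker _ h1 (ctr K ((Algebra.ofId D (MvPolynomial (Fin q) D)).restrictScalars K) P)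
      (fun a ha => hcmem a ha)) (by
    rintro _ ⟨u, hu, rfl⟩ h1
    apply hu
    change u ∈ 𝔠.asIdeal
    rw [← hc]
    exact h1)
  have hd' : dl K P' = i := by rw [← dl_uset hF hP', hP'c, hd]
  have hvan := lin_field K 𝕜 N hN1 hN2 q ι Λ (fun e => δ (g e)) (fun e l => toKap 𝔠 (φ e l)) i hi
    P' (by
      intro e he
      rw [← hlin]
      have := hP e he
      rw [← hP'c] at this
      exact this) hd'
  have h2 := transfer_rel K 𝕜 hF (Z' := {P : PrimeSpectrum (MvPolynomial (Fin q) D) |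
        ∀ e ∈ Λ, lin (g e) (fun l => algebraMap A D (φ e l)) ∈ P.asIdeal}) (by
      intro Q hQ _ e he
      rw [mem_ctr, hlin]
      exact hQ e he) hvan
  rw [push_single K 𝕜 θ S hP', hP'c] at h2
  refine (sup_le_sup le_rfl (Submodule.span_mono ?_) : _ ⊔ _ ≤ Rel K 𝕜 i _ ⊔ _) h2
  rintro w ⟨p, ⟨h3, ⟨Q₀, hQ₀, h4, h5⟩, v, hv, hvp⟩, rfl⟩
  refine ⟨p, ⟨fun e he => h4 (h5 e he), h3, ?_⟩, rfl⟩
  rw [hc]
  have hle : 𝔠 ≤ ctr K (baseMap K A D q) p := by
    intro a ha
    apply h4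
    change θ (C (algebraMap A D a)) ∈ Q₀.asIdeal
    rw [hθC, hδ, (toKap_eq_zero 𝔠 a).2 ha, map_zero, map_zero]
    exact Ideal.zero_mem _
  apply dl_lt K
  refine lt_of_le_of_ne hle ?_
  intro heq
  obtain ⟨u, hu, rfl⟩ := hv
  apply hu
  change u ∈ 𝔠.asIdeal
  rw [heq]
  exact hvp

/-- Vanishing for families of affine linear spaces. -/
theorem van_lin (q : ℕ) (ι : Type) (Λ : Finset ι) (g : ι → A) (φ : ι → Fin q → A) (i : ℕ)
    (hi : i + Λ.card < q) :
    Van K 𝕜 i {P : PrimeSpectrum (MvPolynomial (Fin q) A) |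
        ∀ e ∈ Λ, lin (g e) (φ e) ∈ P.asIdeal} := by
  apply van_of_step K 𝕜 (baseMap K A A q)
  intro P hP hd
  set 𝔠 := ctr K (baseMap K A A q) P with hc
  refine lin_step K 𝕜 (D := A) 𝔠 (toKapA K 𝔠) (fun a => rfl) ?_ ?_ (dl K 𝔠) ?_ ?_ q ι Λ g φ i ?_
    P hP hd hc.symm
  · intro t
    obtain ⟨u, a, h1, h2⟩ := toKap_frac 𝔠 t
    exact ⟨u, h2, a, h1⟩
  · intro x hx 𝔮 h𝔮
    exact h𝔮 x ((toKap_eq_zero 𝔠 x).1 hx)
  · exact fun j hj => van_kap K 𝕜 𝔠 j hj
  · intro p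
    rw [dl_kap]; omega
  · omega

/-- Vanishing for families of affine linear spaces, with one additional free parameter. -/
theorem van_lin_poly (q : ℕ) (ι : Type) (Λ : Finset ι) (g : ι → Polynomial A)
    (φ : ι → Fin q → A) (i : ℕ) (hi : i + Λ.card ≤ q) :
    Van K 𝕜 i {P : PrimeSpectrum (MvPolynomial (Fin q) (Polynomial A)) |
        ∀ e ∈ Λ, lin (g e) (fun l => Polynomial.C (φ e l)) ∈ P.asIdeal} := by
  apply van_of_step K 𝕜 (baseMap K A (Polynomial A) q)
  intro P hP hd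
  set 𝔠 := ctr K (baseMap K A (Polynomial A) q) P with hc
  refine lin_step K 𝕜 (D := Polynomial A) 𝔠 (Polynomial.mapAlgHom (toKapA K 𝔠)) (fun a => ?_)
    ?_ ?_ (dl K 𝔠 + 1) ?_ ?_ q ι Λ g φ i ?_ P hP hd hc.symm
  · rw [Polynomial.algebraMap_eq, Polynomial.algebraMap_eq, Polynomial.coe_mapAlgHom,
      Polynomial.map_C]
    rfl
  · intro t
    obtain ⟨u, a, h1, h2⟩ := toKap_poly_frac 𝔠 t
    refine ⟨u, h2, a, ?_⟩
    rw [Polynomial.algebraMap_eq, Polynomial.coe_mapAlgHom, Polynomial.map_C]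
    exact h1
  · intro x hx 𝔮 h𝔮
    have h1 : x.map (toKap 𝔠) = 0 := hx
    rw [x.as_sum_range_C_mul_X_pow]
    apply Ideal.sum_mem
    intro n _
    apply Ideal.mul_mem_right
    apply h𝔮
    rw [← toKap_eq_zero, ← Polynomial.coeff_map, h1, Polynomial.coeff_zero]
  · exact fun j hj => van_kap_poly K 𝕜 𝔠 j hj
  · exact fun p => dl_kap_poly K 𝔠 p
  · omega

end step

end Pool.Agent.Bloch
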