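import Pool.Agent.Bloch.Rep

set_option linter.unusedSectionVars false

open MvPolynomial

namespace Pool.Agent.Bloch

section core
variable {K : Type} [Field K] {σ : Type} [Finite σ]

theorem mem_core (Q : PrimeSpectrum (MvPolynomial σ K)) (f : MvPolynomial σ K) :
    f ∈ (cone (K := K) (X : σ → MvPolynomial σ K) Q).asIdeal ↔
      ∀ n, homogeneousComponent n f ∈ Q.asIdeal := by
  rw [mem_cone]
  simp only [aeval_X_left, AlgHom.coe_id, id_eq]

theorem mem_of_comp (p : Ideal (MvPolynomial σ K)) (f : MvPolynomial σ K)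
    (h : ∀ n, homogeneousComponent n f ∈ p) : f ∈ p := by
  rw [← sum_homogeneousComponent f]
  exact Ideal.sum_mem _ fun n _ => h n

theorem core_le (Q : PrimeSpectrum (MvPolynomial σ K)) :
    cone (K := K) (X : σ → MvPolynomial σ K) Q ≤ Q := by
  intro f hf
  exact mem_of_comp _ f ((mem_core Q f).1 hf)

/-- A component of the intersection of a homogeneous subvariety with a hypersurface is
homogeneous. -/
theorem homP_of_div {k : ℕ} {W Q : PrimeSpectrum (MvPolynomial σ K)} (hW : HomP W)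
    (hd : dl K W = k + 1) {n : ℕ} {f : MvPolynomial σ K} (hf : f.IsHomogeneous n)
    (hfW : f ∉ W.asIdeal) (h1 : W ≤ Q) (h2 : f ∈ Q.asIdeal) (h3 : dl K Q = k) : HomP Q := by
  set Q' := cone (K := K) (X : σ → MvPolynomial σ K) Q with hQ'
  have hle : Q' ≤ Q := core_le Q
  have hWQ : W ≤ Q' := by
    intro g hg
    rw [mem_core]
    intro m
    exact h1 (hW g hg m)
  have hfQ : f ∈ Q'.asIdeal := by
    rw [mem_core]
    intro m
    rw [homogeneousComponent_of_mem hf]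
    split_ifs
    · exact h2
    · exact Ideal.zero_mem _
  have hne : W ≠ Q' := by
    rintro h
    rw [← h] at hfQ
    exact hfW hfQ
  have h4 := dl_lt K (lt_of_le_of_ne hWQ hne)
  have h5 := dl_le K hle
  have h6 : Q' = Q := eq_of_le_of_dl K hle (by omega)
  rw [← h6]
  exact homP_cone _ _

end core

section emb
variable {K : Type} [Field K] (𝕜 : Type) [Field 𝕜] [CharZero 𝕜] {σ : Type} [Finite σ]

/-- cycles on the projective scheme as cycles on the cone -/
noncomputable def emb (Z : Set (PrimeSpectrum (MvPolynomial σ K))) (k : ℕ) :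
    (VH Z k →₀ 𝕜) →ₗ[𝕜] (PrimeSpectrum (MvPolynomial σ K) →₀ 𝕜) :=
  Finsupp.lmapDomain 𝕜 𝕜 Subtype.val

variable (Z : Set (PrimeSpectrum (MvPolynomial σ K))) (k : ℕ)

theorem emb_single (V : VH Z k) (c : 𝕜) :
    emb 𝕜 Z k (Finsupp.single V c) = Finsupp.single V.1 c := Finsupp.mapDomain_single

theorem emb_apply (z : VH Z k →₀ 𝕜) (V : VH Z k) : emb 𝕜 Z k z V.1 = z V :=
  Finsupp.mapDomain_apply Subtype.val_injective z V

theorem emb_apply_of_not (z : VH Z k →₀ 𝕜) (p : PrimeSpectrum (MvPolynomial σ K))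
    (hp : ¬ (HomP p ∧ p ∈ Z ∧ dl K p = k)) : emb 𝕜 Z k z p = 0 := by
  apply Finsupp.mapDomain_notin_range
  rintro ⟨V, rfl⟩
  exact hp V.2

theorem res_emb (z : VH Z k →₀ 𝕜) : res 𝕜 Z k (emb 𝕜 Z k z) = z := by
  ext V
  rw [res_apply, emb_apply]

theorem emb_inj : Function.Injective (emb 𝕜 Z k) :=
  Function.LeftInverse.injective (res_emb 𝕜 Z k)

theorem emb_res (D : PrimeSpectrum (MvPolynomial σ K) →₀ 𝕜)
    (hD : ∀ p, D p ≠ 0 → HomP p ∧ p ∈ Z ∧ dl K p = k) : emb 𝕜 Z k (res 𝕜 Z k D) = D := by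
  ext p
  by_cases hp : HomP p ∧ p ∈ Z ∧ dl K p = k
  · have := emb_apply 𝕜 Z k (res 𝕜 Z k D) ⟨p, hp⟩
    exact this
  · rw [emb_apply_of_not 𝕜 Z k _ p hp]
    by_contra h
    exact hp (hD p (Ne.symm h))

theorem emb_res_div (hup : ∀ p ∈ Z, ∀ q, p ≤ q → q ∈ Z) (W : VH Z (k + 1)) {n : ℕ}
    {f : MvPolynomial σ K} (hf : f.IsHomogeneous n) (hfW : f ∉ W.1.asIdeal) :
    emb 𝕜 Z k (res 𝕜 Z k (divCyc K 𝕜 k W.1 f)) = divCyc K 𝕜 k W.1 f := by
  apply emb_res
  intro p hp
  rw [divCyc_ne_zero_iff K 𝕜 W.2.2.2 hfW] at hp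
  exact ⟨homP_of_div W.2.1 W.2.2.2 hf hfW hp.2.1 hp.2.2 hp.1, hup _ W.2.2.1 _ hp.2.1, hp.1⟩

end emb

section tower
variable (K : Type) [Field K] (κ : Type) [Field κ] [Algebra K κ] [Algebra.EssFiniteType K κ]
variable {R : Type} [CommRing R] [Algebra κ R] [Algebra K R] [IsScalarTower K κ R]
  [Algebra.EssFiniteType κ R]

theorem td_tower (A : Type) [CommRing A] [IsDomain A] [Algebra κ A] [Algebra K A]
    [IsScalarTower K κ A] [Algebra.EssFiniteType κ A] : td K A = td K κ + td κ A := by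
  unfold td
  rw [← _root_.trdeg_add_eq K κ (A := A),
    Cardinal.toNat_add (trdeg_lt K κ) (trdeg_lt κ A)]

theorem dl_tower (Q : PrimeSpectrum R) : dl K Q = td K κ + dl κ Q := by
  unfold dl
  exact td_tower K κ (R ⧸ Q.asIdeal)

end tower

end Pool.Agent.Bloch
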