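import Pool.Agent.Bloch.Grade

set_option linter.unusedSectionVars false

open MvPolynomial

namespace Pool.Agent.Bloch

section tower
variable (K : Type) [Field K] (κ : Type) [Field κ] [Algebra K κ] [Algebra.EssFiniteType K κ]
variable (𝕜 : Type) [Field 𝕜] [CharZero 𝕜]
variable {R : Type} [CommRing R] [Algebra κ R] [Algebra K R] [IsScalarTower K κ R]
  [Algebra.EssFiniteType κ R] [Algebra.EssFiniteType K R] [IsNoetherianRing R]

theorem cyc_tower (k' : ℕ) (M : Type) [AddCommGroup M] [Module R M] :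
    cyc κ 𝕜 (R := R) k' M = cyc K 𝕜 (td K κ + k') M := by
  have h : cycFun κ 𝕜 (R := R) k' M = cycFun K 𝕜 (td K κ + k') M := by
    funext p
    unfold cycFun
    have h1 := dl_tower K κ p
    by_cases h2 : dl κ p = k'
    · rw [if_pos h2, if_pos (by omega)]
    · rw [if_neg h2, if_neg (by omega)]
  unfold cyc
  by_cases hf : (Function.support (cycFun κ 𝕜 (R := R) k' M)).Finite
  · have hf' : (Function.support (cycFun K 𝕜 (R := R) (td K κ + k') M)).Finite := by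
      rw [← h]; exact hf
    rw [dif_pos hf, dif_pos hf']
    ext p
    rw [Finsupp.ofSupportFinite_coe, Finsupp.ofSupportFinite_coe, h]
  · have hf' : ¬ (Function.support (cycFun K 𝕜 (R := R) (td K κ + k') M)).Finite := by
      rw [← h]; exact hf
    rw [dif_neg hf, dif_neg hf']

theorem divCyc_tower (k' : ℕ) (q : PrimeSpectrum R) (a : R) :
    divCyc κ 𝕜 k' q a = divCyc K 𝕜 (td K κ + k') q a := by
  unfold divCyc
  exact cyc_tower K κ 𝕜 k' _

end tower

section gr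
variable {K : Type} [Field K] {κ : Type} [Field κ] [Algebra K κ] [Algebra.EssFiniteType K κ]
variable {σ τ : Type} [Finite σ] [Finite τ]

theorem hc_mul (f g : MvPolynomial σ K) {N : ℕ} (hg : g.IsHomogeneous N) (n : ℕ) :
    homogeneousComponent (n + N) (f * g) = homogeneousComponent n f * g := by
  have h1 := coneMap_coeff (X : σ → MvPolynomial σ K) (f * g) (n + N)
  rw [map_mul, coneMap_homog X hg, aeval_X_left, AlgHom.coe_id, id_eq, id_eq, ← mul_assoc,
    Polynomial.coeff_mul_X_pow, Polynomial.coeff_mul_C, coneMap_coeff, aeval_X_left,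
    AlgHom.coe_id, id_eq] at h1
  exact h1.symm

/-- graded homomorphisms -/
def Gr (θ : MvPolynomial σ K →ₐ[K] MvPolynomial τ κ) : Prop :=
  ∀ (f : MvPolynomial σ K) (n : ℕ), f.IsHomogeneous n → (θ f).IsHomogeneous n

variable {θ : MvPolynomial σ K →ₐ[K] MvPolynomial τ κ} {S : Submonoid (MvPolynomial σ K)}

theorem Gr.comp (hθ : Gr θ) (f : MvPolynomial σ K) (n : ℕ) :
    homogeneousComponent n (θ f) = θ (homogeneousComponent n f) := by
  conv_lhs => rw [← sum_homogeneousComponent f, map_sum, map_sum]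
  conv_rhs => rw [← sum_homogeneousComponent f, map_sum, map_sum]
  apply Finset.sum_congr rfl
  intro m _
  rw [homogeneousComponent_of_mem (hθ _ m (homogeneousComponent_isHomogeneous m f)),
    homogeneousComponent_of_mem (homogeneousComponent_isHomogeneous m f)]
  split_ifs
  · rfl
  · rw [map_zero]

theorem Gr.frac (hθ : Gr θ) (hS : ∀ u ∈ S, ∃ n, u.IsHomogeneous n) (hF : Frac K θ S)
    {f : MvPolynomial τ κ} {n : ℕ} (hf : f.IsHomogeneous n) :
    ∃ u ∈ S, ∃ N, u.IsHomogeneous N ∧ ∃ a : MvPolynomial σ K, a.IsHomogeneous (n + N) ∧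
      f * θ u = θ a := by
  obtain ⟨u, hu, a, h⟩ := hF f
  obtain ⟨N, hN⟩ := hS u hu
  refine ⟨u, hu, N, hN, homogeneousComponent (n + N) a,
    homogeneousComponent_isHomogeneous _ _, ?_⟩
  rw [← hθ.comp, ← h, hc_mul f _ (hθ u N hN), homogeneousComponent_eq_self hf]

theorem Gr.frac2 (hθ : Gr θ) (hS : ∀ u ∈ S, ∃ n, u.IsHomogeneous n) (hF : Frac K θ S)
    {f g : MvPolynomial τ κ} {n : ℕ} (hf : f.IsHomogeneous n) (hg : g.IsHomogeneous n) :
    ∃ u ∈ S, ∃ m, ∃ a b : MvPolynomial σ K, a.IsHomogeneous m ∧ b.IsHomogeneous m ∧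
      f * θ u = θ a ∧ g * θ u = θ b := by
  obtain ⟨u, hu, N, hN, a, ha, h1⟩ := hθ.frac hS hF hf
  obtain ⟨v, hv, M, hM, b, hb, h2⟩ := hθ.frac hS hF hg
  refine ⟨u * v, S.mul_mem hu hv, n + N + M, a * v, b * u, ha.mul hM, ?_, ?_, ?_⟩
  · have : n + N + M = (n + M) + N := by ring
    rw [this]
    exact hb.mul hN
  · rw [map_mul, map_mul, ← mul_assoc, h1]
  · rw [map_mul, map_mul, ← h2]; ring

theorem Gr.homP_ctr (hθ : Gr θ) {Q : PrimeSpectrum (MvPolynomial τ κ)} (hQ : HomP Q) :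
    HomP (ctr K θ Q) := by
  intro f hf n
  rw [mem_ctr] at hf ⊢
  rw [← hθ.comp]
  exact hQ _ hf n

theorem Gr.homP_of_ctr (hθ : Gr θ) (hS : ∀ u ∈ S, ∃ n, u.IsHomogeneous n) (hF : Frac K θ S)
    {Q : PrimeSpectrum (MvPolynomial τ κ)} (hU : Q ∈ Uset K θ S) (hQ : HomP (ctr K θ Q)) :
    HomP Q := by
  intro f hf n
  obtain ⟨u, hu, a, h⟩ := hF f
  obtain ⟨N, hN⟩ := hS u hu
  have ha : a ∈ (ctr K θ Q).asIdeal := by
    rw [mem_ctr, ← h]
    exact Ideal.mul_mem_right _ _ hf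
  have h1 := hQ a ha (n + N)
  rw [mem_ctr, ← hθ.comp, ← h, hc_mul f _ (hθ u N hN)] at h1
  exact (Q.2.mem_or_mem h1).resolve_right (hU u hu)

variable (𝕜 : Type) [Field 𝕜] [CharZero 𝕜]

/-- the push-forward of homogeneous cycles -/
noncomputable def pushH (θ : MvPolynomial σ K →ₐ[K] MvPolynomial τ κ)
    (S : Submonoid (MvPolynomial σ K)) (Z' : Set (PrimeSpectrum (MvPolynomial τ κ))) (k' : ℕ)
    (Z : Set (PrimeSpectrum (MvPolynomial σ K))) (k : ℕ) :
    (VH Z' k' →₀ 𝕜) →ₗ[𝕜] (VH Z k →₀ 𝕜) :=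
  res 𝕜 Z k ∘ₗ push K 𝕜 θ S ∘ₗ emb 𝕜 Z' k'

variable {Z' : Set (PrimeSpectrum (MvPolynomial τ κ))} {k' : ℕ}
  {Z : Set (PrimeSpectrum (MvPolynomial σ K))} {k : ℕ}

theorem pushH_single (V' : VH Z' k') (V : VH Z k) (hV : V.1 = ctr K θ V'.1)
    (hU : V'.1 ∈ Uset K θ S) (c : 𝕜) :
    pushH 𝕜 θ S Z' k' Z k (Finsupp.single V' c) = Finsupp.single V c := by
  unfold pushH
  rw [LinearMap.comp_apply, LinearMap.comp_apply, emb_single, push_single K 𝕜 θ S hU, ← hV,
    res_single]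

theorem pushH_single_of_not (V' : VH Z' k') (hU : V'.1 ∉ Uset K θ S) (c : 𝕜) :
    pushH 𝕜 θ S Z' k' Z k (Finsupp.single V' c) = 0 := by
  unfold pushH
  rw [LinearMap.comp_apply, LinearMap.comp_apply, emb_single, push_single_of_not K 𝕜 θ S hU,
    map_zero]

/-- Transfer of rational equivalence. -/
theorem transH (hθ : Gr θ) (hS : ∀ u ∈ S, ∃ n, u.IsHomogeneous n) (hF : Frac K θ S)
    (hup : ∀ p ∈ Z', ∀ q, p ≤ q → q ∈ Z') (hZ : ∀ Q ∈ Z', ctr K θ Q ∈ Z)
    (hk : k = td K κ + k') (N : Submodule 𝕜 (VH Z k →₀ 𝕜)) (hN : RelH 𝕜 Z k ≤ N)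
    (hB : ∀ V : VH Z k, (∃ u ∈ S, u ∈ V.1.asIdeal) → (∀ x, θ x = 0 → x ∈ V.1.asIdeal) →
      Finsupp.single V 1 ∈ N) {z : VH Z' k' →₀ 𝕜} (hz : z ∈ RelH 𝕜 Z' k') :
    pushH 𝕜 θ S Z' k' Z k z ∈ N := by
  unfold RelH at hz
  induction hz using Submodule.span_induction with
  | zero => rw [map_zero]; exact Submodule.zero_mem _
  | add x y _ _ hx hy => rw [map_add]; exact Submodule.add_mem _ hx hy
  | smul c x _ hx => rw [map_smul]; exact Submodule.smul_mem _ _ hx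
  | mem z hz =>
    obtain ⟨W, n, f, g, hf, hg, hfW, hgW, rfl⟩ := hz
    unfold pushH
    rw [LinearMap.comp_apply, LinearMap.comp_apply, map_sub, map_sub,
      emb_res_div 𝕜 Z' k' hup W hf hfW, emb_res_div 𝕜 Z' k' hup W hg hgW,
      divCyc_tower K κ 𝕜 k', divCyc_tower K κ 𝕜 k', ← hk, map_sub]
    have hdW : dl K W.1 = k + 1 := by
      rw [dl_tower K κ W.1, W.2.2.2, hk]; ring
    by_cases hU : W.1 ∈ Uset K θ S
    · obtain ⟨u, hu, m, a, b, ha, hb, h1, h2⟩ := hθ.frac2 hS hF hf hg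
      have hne : ∀ {f : MvPolynomial τ κ} {a : MvPolynomial σ K}, f ∉ W.1.asIdeal →
          f * θ u = θ a → a ∉ (ctr K θ W.1).asIdeal := by
        intro f a hf h ha
        rw [mem_ctr, ← h] at ha
        rcases W.1.2.mem_or_mem ha with h | h
        · exact hf h
        · exact hU u hu h
      have haW := hne hfW h1
      have hbW := hne hgW h2
      have herr : ∀ {f : MvPolynomial τ κ} {a : MvPolynomial σ K}, f ∉ W.1.asIdeal →
          f * θ u = θ a → res 𝕜 Z k (push K 𝕜 θ S (divCyc K 𝕜 k W.1 f) -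
            divCyc K 𝕜 k (ctr K θ W.1) a) ∈ N := by
        intro f a hfW h
        have h3 := transfer_div K 𝕜 hF hU hdW hfW hu h
        have h4 := res_span_le 𝕜 Z k _ h3
        refine (Submodule.span_le.2 ?_) h4
        rintro w ⟨V, ⟨_, hV2, _, hV4⟩, rfl⟩
        apply hB V hV4
        intro x hx
        apply hV2
        rw [mem_ctr, hx]
        exact Ideal.zero_mem _
      have e1 := herr hfW h1
      have e2 := herr hgW h2
      have hdc : dl K (ctr K θ W.1) = k + 1 := by rw [dl_uset hF hU, hdW]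
      have e3 : res 𝕜 Z k (divCyc K 𝕜 k (ctr K θ W.1) a - divCyc K 𝕜 k (ctr K θ W.1) b) ∈ N := by
        apply hN
        exact Submodule.subset_span ⟨⟨ctr K θ W.1, hθ.homP_ctr W.2.1, hZ _ W.2.2.1, hdc⟩, m, a, b,
          ha, hb, haW, hbW, rfl⟩
      have e4 := Submodule.sub_mem _ (Submodule.add_mem _ e1 e3) e2
      have e5 : res 𝕜 Z k (push K 𝕜 θ S (divCyc K 𝕜 k W.1 f) -
            push K 𝕜 θ S (divCyc K 𝕜 k W.1 g)) =
          res 𝕜 Z k (push K 𝕜 θ S (divCyc K 𝕜 k W.1 f) - divCyc K 𝕜 k (ctr K θ W.1) a) +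
          res 𝕜 Z k (divCyc K 𝕜 k (ctr K θ W.1) a - divCyc K 𝕜 k (ctr K θ W.1) b) -
          res 𝕜 Z k (push K 𝕜 θ S (divCyc K 𝕜 k W.1 g) - divCyc K 𝕜 k (ctr K θ W.1) b) := by
        rw [← map_add (res 𝕜 Z k), ← map_sub (res 𝕜 Z k)]
        congr 1
        abel
      rw [e5]
      exact e4
    · rw [push_div_of_not K 𝕜 hU hdW hfW, push_div_of_not K 𝕜 hU hdW hgW, sub_zero, map_zero]
      exact Submodule.zero_mem _

end gr

end Pool.Agent.Bloch
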