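import Pool.Agent.Bloch.Len

set_option linter.unusedSectionVars false

namespace Pool.Agent.Bloch

section
variable {R : Type} [CommRing R]
variable {M N P : Type} [AddCommGroup M] [Module R M] [AddCommGroup N] [Module R N]
  [AddCommGroup P] [Module R P]

theorem len_ker_add_range (p : PrimeSpectrum R) (f : M →ₗ[R] N) :
    len p M = len p (LinearMap.ker f) + len p (LinearMap.range f) :=
  len_exact p (LinearMap.ker f).subtype f.rangeRestrict (Submodule.injective_subtype _)
    f.surjective_rangeRestrict (by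
      intro x
      constructor
      · intro h
        exact ⟨⟨x, by
          rw [LinearMap.mem_ker]
          exact congrArg Subtype.val h⟩, rfl⟩
      · rintro ⟨y, rfl⟩
        apply Subtype.ext
        exact y.2)

theorem len_add_range_of_exact (p : PrimeSpectrum R) (f : M →ₗ[R] N) (g : N →ₗ[R] P)
    (h : Function.Exact f g) :
    len p N = len p (LinearMap.range f) + len p (LinearMap.range g) := by
  rw [len_ker_add_range p g]
  have : LinearMap.ker g = LinearMap.range f := h.linearMap_ker_eq
  rw [this]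

theorem len_range_inj (p : PrimeSpectrum R) (f : M →ₗ[R] N) (h : Function.Injective f) :
    len p (LinearMap.range f) = len p M :=
  (len_congr p (LinearEquiv.ofInjective f h)).symm

theorem len_range_surj (p : PrimeSpectrum R) (f : M →ₗ[R] N) (h : Function.Surjective f) :
    len p (LinearMap.range f) = len p N := by
  rw [LinearMap.range_eq_top.2 h]
  exact len_congr p Submodule.topEquiv

theorem len_six {K₁ K₂ K₃ C₁ C₂ C₃ : Type}
    [AddCommGroup K₁] [AddCommGroup K₂] [AddCommGroup K₃]
    [AddCommGroup C₁] [AddCommGroup C₂] [AddCommGroup C₃]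
    [Module R K₁] [Module R K₂] [Module R K₃] [Module R C₁] [Module R C₂] [Module R C₃]
    (p : PrimeSpectrum R)
    (k₁ : K₁ →ₗ[R] K₂) (k₂ : K₂ →ₗ[R] K₃) (d : K₃ →ₗ[R] C₁) (c₁ : C₁ →ₗ[R] C₂)
    (c₂ : C₂ →ₗ[R] C₃) (h1 : Function.Injective k₁) (h2 : Function.Exact k₁ k₂)
    (h3 : Function.Exact k₂ d) (h4 : Function.Exact d c₁) (h5 : Function.Exact c₁ c₂)
    (h6 : Function.Surjective c₂) :
    len p C₂ + len p K₁ + len p K₃ = len p K₂ + len p C₁ + len p C₃ := by
  rw [len_add_range_of_exact p k₁ k₂ h2, len_add_range_of_exact p k₂ d h3,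
    len_add_range_of_exact p d c₁ h4, len_add_range_of_exact p c₁ c₂ h5,
    len_range_inj p k₁ h1, len_range_surj p c₂ h6]
  abel

/-- multiplication by `a` -/
noncomputable def mul (a : R) (M : Type) [AddCommGroup M] [Module R M] : M →ₗ[R] M :=
  LinearMap.lsmul R M a

theorem mul_apply (a : R) (m : M) : mul a M m = a • m := rfl

/-- kernel of multiplication by `a` -/
abbrev Kr (a : R) (M : Type) [AddCommGroup M] [Module R M] : Type := LinearMap.ker (mul a M)

/-- cokernel of multiplication by `a` -/
abbrev Ck (a : R) (M : Type) [AddCommGroup M] [Module R M] : Type :=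
  M ⧸ LinearMap.range (mul a M)

/-- functoriality of the kernel -/
noncomputable def krMap (a : R) (f : M →ₗ[R] N) : Kr a M →ₗ[R] Kr a N :=
  f.restrict (fun x hx => by
    rw [LinearMap.mem_ker, mul_apply] at hx ⊢
    rw [← map_smul, hx, map_zero])

/-- functoriality of the cokernel -/
noncomputable def ckMap (a : R) (f : M →ₗ[R] N) : Ck a M →ₗ[R] Ck a N :=
  Submodule.mapQ _ _ f (by
    rintro x ⟨y, rfl⟩
    exact ⟨f y, by rw [mul_apply, mul_apply, map_smul]⟩)

theorem len_herbrand (p : PrimeSpectrum R) (a : R) (f : M →ₗ[R] N) (g : N →ₗ[R] P)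
    (hf : Function.Injective f) (hg : Function.Surjective g) (h : Function.Exact f g) :
    len p (Ck a N) + len p (Kr a M) + len p (Kr a P)
      = len p (Kr a N) + len p (Ck a M) + len p (Ck a P) := by
  have e1 : f ∘ₗ mul a M = mul a N ∘ₗ f := by
    ext x; simp [mul_apply]
  have e2 : g ∘ₗ mul a N = mul a P ∘ₗ g := by
    ext x; simp [mul_apply]
  have exK : ∀ (M : Type) [AddCommGroup M] [Module R M],
      Function.Exact (LinearMap.ker (mul a M)).subtype (mul a M) := by
    intro M _ _ x
    constructor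
    · intro hx; exact ⟨⟨x, hx⟩, rfl⟩
    · rintro ⟨y, rfl⟩; exact y.2
  have exC : ∀ (M : Type) [AddCommGroup M] [Module R M],
      Function.Exact (mul a M) (LinearMap.range (mul a M)).mkQ := by
    intro M _ _ x
    rw [Submodule.mkQ_apply, Submodule.Quotient.mk_eq_zero]
    exact Iff.rfl
  refine len_six p (krMap a f) (krMap a g)
    (SnakeLemma.δ' (mul a M) (mul a N) (mul a P) f g h f g h e1 e2
      (LinearMap.ker (mul a P)).subtype (exK P) (LinearMap.range (mul a M)).mkQ (exC M) hg hf)
    (ckMap a f) (ckMap a g) ?_ ?_ ?_ ?_ ?_ ?_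
  · intro x y hxy
    apply Subtype.ext
    apply hf
    exact congrArg Subtype.val hxy
  · intro x
    constructor
    · intro hx
      have hx' : g x.1 = 0 := congrArg Subtype.val hx
      obtain ⟨y, hy⟩ := (h x.1).1 hx'
      refine ⟨⟨y, ?_⟩, Subtype.ext hy⟩
      rw [LinearMap.mem_ker, mul_apply]
      apply hf
      rw [map_smul, hy, map_zero]
      exact x.2
    · rintro ⟨y, rfl⟩
      apply Subtype.ext
      exact h.apply_apply_eq_zero y.1
  · exact SnakeLemma.exact_δ'_right (mul a M) (mul a N) (mul a P) f g h f g h e1 e2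
      (LinearMap.ker (mul a N)).subtype (exK N)
      (LinearMap.ker (mul a P)).subtype (exK P) (LinearMap.range (mul a M)).mkQ (exC M) hg hf
      (krMap a g) rfl (Submodule.injective_subtype _)
  · exact SnakeLemma.exact_δ'_left (mul a M) (mul a N) (mul a P) f g h f g h e1 e2
      (LinearMap.ker (mul a P)).subtype (exK P) (LinearMap.range (mul a M)).mkQ (exC M)
      (LinearMap.range (mul a N)).mkQ (exC N) hg hf
      (ckMap a f) rfl (Submodule.mkQ_surjective _)
  · intro x
    obtain ⟨x, rfl⟩ := Submodule.mkQ_surjective _ x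
    constructor
    · intro hx
      have hx' : (LinearMap.range (mul a P)).mkQ (g x) = 0 := hx
      obtain ⟨y, hy⟩ := (exC P (g x)).1 hx'
      obtain ⟨z, rfl⟩ := hg y
      have : g (x - a • z) = 0 := by
        rw [map_sub, map_smul, ← hy, mul_apply, sub_self]
      obtain ⟨w, hw⟩ := (h _).1 this
      refine ⟨(LinearMap.range (mul a M)).mkQ w, ?_⟩
      change (LinearMap.range (mul a N)).mkQ (f w) = _
      rw [hw, map_sub, sub_eq_self]
      exact (exC N _).2 ⟨z, rfl⟩
    · rintro ⟨y, hy⟩
      obtain ⟨y, rfl⟩ := Submodule.mkQ_surjective _ y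
      rw [← hy]
      change (LinearMap.range (mul a P)).mkQ (g (f y)) = 0
      rw [h.apply_apply_eq_zero, map_zero]
  · intro x
    obtain ⟨x, rfl⟩ := Submodule.mkQ_surjective _ x
    obtain ⟨y, rfl⟩ := hg x
    exact ⟨(LinearMap.range (mul a N)).mkQ y, rfl⟩

end

end Pool.Agent.Bloch
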