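import Pool.Agent.Bloch.LinSub

set_option linter.unusedSectionVars false

open MvPolynomial

namespace Pool.Agent.Bloch

section BHsum
variable {K : Type} [Field K] {σ : Type} {β : Type}

theorem BH.comp {γ : Type} {bl : σ → β} {k : β} {d : ℕ} {f : MvPolynomial σ K}
    (h : BH bl k d f) (π : β → γ) {l : γ} (hl : π k = l) : BH (fun s => π (bl s)) l d f := by
  intro m hm
  obtain ⟨h1, h2⟩ := h m hm
  exact ⟨fun s hs => by rw [← hl, ← h1 s hs], h2⟩

theorem BH.sum {ι : Type} {bl : σ → β} {k : β} {d : ℕ} (s : Finset ι)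
    (f : ι → MvPolynomial σ K) (h : ∀ e ∈ s, BH bl k d (f e)) : BH bl k d (∑ e ∈ s, f e) := by
  classical
  intro m hm
  have := MvPolynomial.support_sum (s := s) (f := f) hm
  rw [Finset.mem_biUnion] at this
  obtain ⟨e, he, hme⟩ := this
  exact h e he m hme

end BHsum

variable {K : Type} [Field K] (𝕜 : Type) [Field 𝕜] [CharZero 𝕜]

section lemmaD
variable {σ : Type} [Fintype σ] {t : ℕ}

/-- the coefficient of a power of the distinguished variable of a block -/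
noncomputable def cf {ι : Type} (J : Fin t → σ) (f : ι → Fin t → MvPolynomial σ K) (e : ι)
    (k : Fin t) : K :=
  open Classical in aeval (fun s => if s = J k then (1 : K) else 0) (f e k)

/-- Evaluation of a sum of forms in separate variables when all but one variable of each block
vanish. -/
theorem red_eval {d : ℕ} (hd : 0 < d) (β : σ → Fin t) {ι : Type}
    (f : ι → Fin t → MvPolynomial σ K) (hf : ∀ e k, BH β k d (f e k))
    (J : Fin t → σ) (T : Finset (Fin t)) {A : Type} [CommRing A] [Algebra K A]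
    (x : σ → A) (hx : ∀ s, ¬ (β s ∈ T ∧ s = J (β s)) → x s = 0) (e : ι) :
    aeval x (∑ k, f e k) = ∑ k ∈ T, cf J f e k • x (J k) ^ d := by
  classical
  rw [map_sum]
  have h1 : ∀ k, aeval x (f e k) = if k ∈ T then cf J f e k • x (J k) ^ d else 0 := by
    intro k
    split_ifs with hk
    · rw [(hf e k).aeval_eq x (fun s => algebraMap K A (if s = J k then (1 : K) else 0)) (x (J k))]
      · rw [Algebra.smul_def, mul_comm]
        congr 1
        exact aeval_algebraMap_apply A (fun s => if s = J k then (1 : K) else 0) (f e k)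
      · intro s hs
        by_cases h : s = J k
        · rw [if_pos h, map_one, mul_one, h]
        · rw [if_neg h, map_zero, mul_zero]
          apply hx
          rintro ⟨-, h2⟩
          rw [hs] at h2
          exact h h2
    · rw [(hf e k).aeval_eq x (fun _ => 0) 0, zero_pow hd.ne', zero_mul]
      intro s hs
      rw [mul_zero]
      apply hx
      rintro ⟨h2, -⟩
      rw [hs] at h2
      exact hk h2
  rw [Finset.sum_congr rfl (fun k _ => h1 k), Finset.sum_ite_mem, Finset.univ_inter]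

/-- the linear functional of an equation -/
noncomputable def fn {ι : Type} (J : Fin t → σ) (f : ι → Fin t → MvPolynomial σ K)
    (T : Finset (Fin t)) (e : ι) : Module.Dual K (T → K) :=
  ∑ k : T, cf J f e k.1 • LinearMap.proj k

theorem fn_single {ι : Type} (J : Fin t → σ) (f : ι → Fin t → MvPolynomial σ K)
    (T : Finset (Fin t)) (e : ι) (k : T) :
    fn J f T e (Pi.single k 1) = cf J f e k.1 := by
  classical
  unfold fn
  rw [LinearMap.sum_apply, Finset.sum_eq_single k]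
  · rw [LinearMap.smul_apply, LinearMap.proj_apply, Pi.single_eq_same, smul_eq_mul, mul_one]
  · intro k' _ h
    rw [LinearMap.smul_apply, LinearMap.proj_apply, Pi.single_eq_of_ne h, smul_zero]
  · intro h; exact absurd (Finset.mem_univ _) h

/-- dependent equations are redundant -/
theorem dep_mem {d : ℕ} (hd : 0 < d) (β : σ → Fin t) {ι : Type}
    (f : ι → Fin t → MvPolynomial σ K) (hf : ∀ e k, BH β k d (f e k))
    (J : Fin t → σ) (T : Finset (Fin t)) (Λ : Set ι) (e₀ : ι)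
    (hdep : fn J f T e₀ ∈ Submodule.span K (fn J f T '' Λ))
    (Q : PrimeSpectrum (MvPolynomial σ K))
    (hQ : ∀ s, ¬ (β s ∈ T ∧ s = J (β s)) → X s ∈ Q.asIdeal)
    (hQΛ : ∀ e ∈ Λ, ∑ k, f e k ∈ Q.asIdeal) : ∑ k, f e₀ k ∈ Q.asIdeal := by
  classical
  let A := MvPolynomial σ K ⧸ Q.asIdeal
  let x : σ → A := fun s => Ideal.Quotient.mkₐ K Q.asIdeal (X s)
  have hx : ∀ s, ¬ (β s ∈ T ∧ s = J (β s)) → x s = 0 := fun s hs =>
    Ideal.Quotient.eq_zero_iff_mem.2 (hQ s hs)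
  have hmk : ∀ g : MvPolynomial σ K, aeval x g = Ideal.Quotient.mkₐ K Q.asIdeal g := by
    intro g
    have : (aeval x : MvPolynomial σ K →ₐ[K] A) = Ideal.Quotient.mkₐ K Q.asIdeal := by
      apply MvPolynomial.algHom_ext
      intro s
      rw [aeval_X]
    rw [this]
  let Ev : Module.Dual K (T → K) →ₗ[K] A :=
    { toFun := fun l => ∑ k : T, l (Pi.single k 1) • x (J k.1) ^ d
      map_add' := fun l l' => by
        rw [← Finset.sum_add_distrib]
        apply Finset.sum_congr rfl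
        intro k _
        rw [LinearMap.add_apply, add_smul]
      map_smul' := fun c l => by
        rw [Finset.smul_sum]
        apply Finset.sum_congr rfl
        intro k _
        rw [LinearMap.smul_apply, smul_eq_mul, mul_smul]
        rfl }
  have hEv : ∀ e, Ev (fn J f T e) = Ideal.Quotient.mkₐ K Q.asIdeal (∑ k, f e k) := by
    intro e
    rw [← hmk, red_eval hd β f hf J T x hx e]
    change ∑ k : T, fn J f T e (Pi.single k 1) • x (J k.1) ^ d = _
    simp only [fn_single]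
    exact Finset.sum_coe_sort T (fun k => cf J f e k • x (J k) ^ d)
  have h1 : Submodule.span K (fn J f T '' Λ) ≤ LinearMap.ker Ev := by
    rw [Submodule.span_le]
    rintro _ ⟨e, he, rfl⟩
    change Ev _ = 0
    rw [hEv]
    exact Ideal.Quotient.eq_zero_iff_mem.2 (hQΛ e he)
  have h2 : Ev (fn J f T e₀) = 0 := h1 hdep
  rw [hEv] at h2
  exact Ideal.Quotient.eq_zero_iff_mem.1 h2

/-- The case of independent equations of complementary dimension. -/
theorem stepB {d : ℕ} (hd : 0 < d) {ζ : K} (hζ : IsPrimitiveRoot ζ d)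
    (β : σ → Fin t) {ι : Type} (f : ι → Fin t → MvPolynomial σ K)
    (hf : ∀ e k, BH β k d (f e k)) (J : Fin t → σ) (hJ : ∀ k, β (J k) = k)
    {Z : Set (PrimeSpectrum (MvPolynomial σ K))} {i : ℕ}
    (N : Submodule 𝕜 (VH Z (i + 1) →₀ 𝕜))
    (hN2 : ∀ c : Fin t → K, (∀ l, c l ^ d = 1) → ∀ V V' : VH Z (i + 1),
      V'.1 = ctr K (scl K (fun s => c (β s))) V.1 →
        Finsupp.single V' 1 - Finsupp.single V 1 ∈ N)
    (n : ℕ) (T : Finset (Fin t)) (hT : T.card = n + 1) (Λ : Finset ι) (hΛ : i + Λ.card = n)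
    (HZ2 : ∀ Q ∈ Z, ∀ e ∈ Λ, ∑ k, f e k ∈ Q.asIdeal)
    (hind : ∀ e₀ ∈ Λ, fn J f T e₀ ∉ Submodule.span K (fn J f T '' ((Λ : Set ι) \ {e₀})))
    (V V' : VH Z (i + 1))
    (hV : ∀ s, ¬ (β s ∈ T ∧ s = J (β s)) → X s ∈ V.1.asIdeal)
    (hV' : ∀ s, ¬ (β s ∈ T ∧ s = J (β s)) → X s ∈ V'.1.asIdeal) :
    Finsupp.single V' 1 - Finsupp.single V 1 ∈ N := by
  classical
  let x : σ → MvPolynomial T K := fun s =>
    if h : β s ∈ T ∧ s = J (β s) then X ⟨β s, h.1⟩ else 0
  have hx : ∀ s, ¬ (β s ∈ T ∧ s = J (β s)) → x s = 0 := fun s hs => dif_neg hs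
  have hxJ : ∀ k : T, x (J k.1) = X k := by
    intro k
    have h : β (J k.1) ∈ T ∧ J k.1 = J (β (J k.1)) := by
      rw [hJ]; exact ⟨k.2, rfl⟩
    change (if h : β (J k.1) ∈ T ∧ J k.1 = J (β (J k.1)) then
      (X ⟨β (J k.1), h.1⟩ : MvPolynomial T K) else 0) = X k
    rw [dif_pos h]
    congr 1
    exact Subtype.ext (hJ k.1)
  let ρ : MvPolynomial σ K →ₐ[K] MvPolynomial T K := aeval x
  let κ : MvPolynomial T K →ₐ[K] MvPolynomial σ K := aeval (fun k : T => X (J k.1))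
  have hρX : ∀ s, ρ (X s) = x s := fun s => aeval_X _ _
  have hκX : ∀ k, κ (X k) = X (J k.1) := fun s => aeval_X _ _
  have hρκ : ∀ y, ρ (κ y) = y := by
    intro y
    have : ρ.comp κ = AlgHom.id K _ := by
      apply MvPolynomial.algHom_ext
      intro k
      rw [AlgHom.comp_apply, hκX, hρX, hxJ, AlgHom.id_apply]
    exact DFunLike.congr_fun this y
  have hF : Frac K ρ (⊥ : Submonoid (MvPolynomial σ K)) := by
    intro y
    exact ⟨1, Submonoid.one_mem _, κ y, by rw [map_one, mul_one, hρκ]⟩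
  have hker : ∀ V : VH Z (i + 1), (∀ s, ¬ (β s ∈ T ∧ s = J (β s)) → X s ∈ V.1.asIdeal) →
      ∀ y, ρ y = 0 → y ∈ V.1.asIdeal := by
    intro V hV y hy
    have key : (Ideal.Quotient.mkₐ K V.1.asIdeal) =
        (Ideal.Quotient.mkₐ K V.1.asIdeal).comp (κ.comp ρ) := by
      apply MvPolynomial.algHom_ext
      intro s
      change Ideal.Quotient.mk V.1.asIdeal (X s) = Ideal.Quotient.mk V.1.asIdeal (κ (ρ (X s)))
      rw [hρX]
      by_cases hs : β s ∈ T ∧ s = J (β s)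
      · have : x s = X ⟨β s, hs.1⟩ := dif_pos hs
        rw [this, hκX]
        congr 2
        exact hs.2
      · rw [hx s hs, map_zero, map_zero]
        exact Ideal.Quotient.eq_zero_iff_mem.2 (hV s hs)
    have h2 : Ideal.Quotient.mk V.1.asIdeal y = Ideal.Quotient.mk V.1.asIdeal (κ (ρ y)) :=
      DFunLike.congr_fun key y
    rw [hy, map_zero, map_zero] at h2
    exact Ideal.Quotient.eq_zero_iff_mem.1 h2
  obtain ⟨𝔨, h𝔨⟩ := ctr_unique (K := K) Λ (fn J f T) hind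
  have hpt : ∀ V : VH Z (i + 1), (∀ s, ¬ (β s ∈ T ∧ s = J (β s)) → X s ∈ V.1.asIdeal) →
      ∃ Q : PrimeSpectrum (MvPolynomial T K), ctr K ρ Q = V.1 ∧ dl K Q = i + 1 ∧
        ctr K (expK K d T K) Q = 𝔨 := by
    intro V hV
    obtain ⟨Q, hQ, hQV⟩ := exists_uset hF V.1 (hker V hV) (by
      intro u hu h
      rw [Submonoid.mem_bot] at hu
      rw [hu] at h
      exact V.1.2.ne_top ((Ideal.eq_top_iff_one _).2 h))
    have hdQ : dl K Q = i + 1 := by rw [← dl_uset hF hQ, hQV, V.2.2.2]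
    refine ⟨Q, hQV, hdQ, ?_⟩
    apply h𝔨
    · intro e he
      rw [mem_ctr, expK_apply]
      have h1 : expand d (LF T (fn J f T e)) = ρ (∑ k, f e k) := by
        rw [LF_apply]
        change _ = aeval x (∑ k, f e k)
        rw [red_eval hd β f hf J T x hx e, map_sum,
          ← Finset.sum_coe_sort T (fun k => cf J f e k • x (J k) ^ d)]
        apply Finset.sum_congr rfl
        intro k _
        rw [fn_single, map_smul, expand_X, hxJ]
      rw [h1]
      have h2 := HZ2 V.1 V.2.2.1 e he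
      rw [← hQV] at h2
      exact h2
    · rw [expK_dl hd, hdQ, Fintype.card_coe, hT]
      omega
  obtain ⟨Q, hQV, hdQ, hQ𝔨⟩ := hpt V hV
  obtain ⟨Q', hQV', hdQ', hQ𝔨'⟩ := hpt V' hV'
  obtain ⟨c, hc1, hc2⟩ := exists_scl hd hζ Q Q' (by
    intro g hg
    have : g ∈ (ctr K (expK K d T K) Q').asIdeal := hg
    rw [hQ𝔨', ← hQ𝔨] at this
    exact this) (by rw [hdQ, hdQ'])
  let c' : Fin t → K := fun k => if h : k ∈ T then c ⟨k, h⟩ else 1
  apply hN2 c' (by
    intro k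
    by_cases h : k ∈ T
    · change (if h : k ∈ T then c ⟨k, h⟩ else 1) ^ d = 1
      rw [dif_pos h]; exact hc1 _
    · change (if h : k ∈ T then c ⟨k, h⟩ else 1) ^ d = 1
      rw [dif_neg h, one_pow]) V V'
  rw [← hQV', ← hQV, hc2]
  have hcomm : ∀ g, scl K c (ρ g) = ρ (scl K (fun s => c' (β s)) g) := by
    intro g
    have : (scl K c).comp ρ = ρ.comp (scl K (fun s => c' (β s))) := by
      apply MvPolynomial.algHom_ext
      intro s
      rw [AlgHom.comp_apply, AlgHom.comp_apply, hρX, scl_X, map_mul, hρX]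
      by_cases hs : β s ∈ T ∧ s = J (β s)
      · have h1 : x s = X ⟨β s, hs.1⟩ := dif_pos hs
        have h2 : c' (β s) = c ⟨β s, hs.1⟩ := dif_pos hs.1
        rw [h1, h2, scl_X]
        congr 1
        exact (aeval_C x _).symm
      · rw [hx s hs, map_zero, mul_zero]
    exact DFunLike.congr_fun this g
  apply PrimeSpectrum.ext
  ext g
  rw [mem_ctr, mem_ctr, mem_ctr, mem_ctr, hcomm]

/-- The case of few equations: reduction to a smaller number of variables. -/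
theorem stepA {d : ℕ} (hd : 0 < d) {ζ : K} (hζ : IsPrimitiveRoot ζ d)
    (β : σ → Fin t) {ι : Type} (f : ι → Fin t → MvPolynomial σ K)
    (hf : ∀ e k, BH β k d (f e k)) (J : Fin t → σ) (hJ : ∀ k, β (J k) = k)
    {Z : Set (PrimeSpectrum (MvPolynomial σ K))} {i : ℕ}
    (N : Submodule 𝕜 (VH Z (i + 1) →₀ 𝕜)) (hN1 : RelH 𝕜 Z (i + 1) ≤ N)
    (hN2 : ∀ c : Fin t → K, (∀ l, c l ^ d = 1) → ∀ V V' : VH Z (i + 1),
      V'.1 = ctr K (scl K (fun s => c (β s))) V.1 →
        Finsupp.single V' 1 - Finsupp.single V 1 ∈ N)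
    (n : ℕ) (T : Finset (Fin t)) (hT : T.card = n + 1) (Λ : Finset ι) (hΛ : i + Λ.card < n)
    (HZ2 : ∀ Q ∈ Z, ∀ e ∈ Λ, ∑ k, f e k ∈ Q.asIdeal)
    (HZ1 : ∀ Q : PrimeSpectrum (MvPolynomial σ K),
        (∀ s, ¬ (β s ∈ T ∧ s = J (β s)) → X s ∈ Q.asIdeal) →
        (∀ e ∈ Λ, ∑ k, f e k ∈ Q.asIdeal) → Q ∈ Z)
    (k₁ : Fin t) (hk₁ : k₁ ∈ T) (V : VH Z (i + 1))
    (hV : ∀ s, ¬ (β s ∈ T ∧ s = J (β s)) → X s ∈ V.1.asIdeal) :
    Finsupp.single V 1 ∈ N ⊔ Submodule.span 𝕜 {w : VH Z (i + 1) →₀ 𝕜 | ∃ V' : VH Z (i + 1),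
      (∀ s, ¬ (β s ∈ T.erase k₁ ∧ s = J (β s)) → X s ∈ V'.1.asIdeal) ∧
        w = Finsupp.single V' 1} := by
  classical
  have hdead : ∀ V' : VH Z (i + 1), (∀ s, ¬ (β s ∈ T ∧ s = J (β s)) → X s ∈ V'.1.asIdeal) →
      X (J k₁) ∈ V'.1.asIdeal →
      ∀ s, ¬ (β s ∈ T.erase k₁ ∧ s = J (β s)) → X s ∈ V'.1.asIdeal := by
    intro V' h1 h2 s hs
    by_cases h : β s ∈ T ∧ s = J (β s)
    · have : β s = k₁ := by
        by_contra h3
        exact hs ⟨Finset.mem_erase.2 ⟨h3, h.1⟩, h.2⟩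
      rw [h.2, this]; exact h2
    · exact h1 s h
  by_cases hJV : X (J k₁) ∈ V.1.asIdeal
  · exact Submodule.mem_sup_right (Submodule.subset_span ⟨V, hdead V hV hJV, rfl⟩)
  -- the numbering of the live blocks
  let e₀ : T ≃ Fin (n + 1) := Finset.equivFinOfCardEq hT
  let e : T ≃ Fin (n + 1) := e₀.trans (Equiv.swap (e₀ ⟨k₁, hk₁⟩) 0)
  have he0 : e ⟨k₁, hk₁⟩ = 0 := Equiv.swap_apply_left _ _
  let π : Fin t → Fin (n + 1) := fun k => if h : k ∈ T then e ⟨k, h⟩ else 0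
  have hπ : ∀ k : T, π k.1 = e k := by
    intro k
    change (if h : k.1 ∈ T then e ⟨k.1, h⟩ else 0) = e k
    rw [dif_pos k.2]
  let bl : σ → Fin (n + 1) := fun s => π (β s)
  let Zr : Set σ := {s | ¬ (β s ∈ T ∧ s = J (β s))}
  let pv : Fin (n + 1) → σ := fun l => J (e.symm l).1
  have hpv : ∀ l, bl (pv l) = l := by
    intro l
    change π (β (J (e.symm l).1)) = l
    rw [hJ, hπ, e.apply_symm_apply]
  have hpvZ : ∀ l, pv l ∉ Zr := by
    intro l h
    apply h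
    change β (J (e.symm l).1) ∈ T ∧ J (e.symm l).1 = J (β (J (e.symm l).1))
    rw [hJ]
    exact ⟨(e.symm l).2, rfl⟩
  have hAct : ∀ a : Act bl Zr pv, False := by
    intro a
    have h1 : β a.1 ∈ T ∧ a.1 = J (β a.1) := by
      by_contra h
      exact a.2.1 h
    apply a.2.2
    change a.1 = J (e.symm (π (β a.1))).1
    have h2 : π (β a.1) = e ⟨β a.1, h1.1⟩ := hπ ⟨β a.1, h1.1⟩
    rw [h2, e.symm_apply_apply]
    exact h1.2
  have hpv0 : pv 0 = J k₁ := by
    change J (e.symm 0).1 = J k₁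
    rw [← he0, e.symm_apply_apply]
  let Fl : ι → Fin (n + 1) → MvPolynomial σ K := fun e' l =>
    ∑ k ∈ Finset.univ.filter (fun k => π k = l), f e' k
  have hFl : ∀ e' l, BH bl l d (Fl e' l) := by
    intro e' l
    apply BH.sum
    intro k hk
    rw [Finset.mem_filter] at hk
    exact (hf e' k).comp π hk.2
  have hsum : ∀ e', ∑ l, Fl e' l = ∑ k, f e' k := fun e' =>
    Finset.sum_fiberwise Finset.univ π (f e')
  have hvan := van_lin K 𝕜 (A := MvPolynomial (Act bl Zr pv) K) n ι Λ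
    (fun e' => aeval (eta K bl Zr pv) (Fl e' 0))
    (fun e' l => aeval (eta K bl Zr pv) (Fl e' l.succ)) i hΛ
  have key := chart_poly 𝕜 hd hζ hpv hpvZ Λ Fl hFl (Z := Z)
    (fun Q h1 h2 => HZ1 Q h1 (fun e' he' => by rw [← hsum]; exact h2 e' he'))
    (fun Q hQ e' he' => by rw [hsum]; exact HZ2 Q hQ e' he') hvan N hN1
    (fun c hc V V' h => hN2 (fun k => c (π k)) (fun k => hc _) V V' h) V hV
    (by rw [hpv0]; exact hJV) (fun a => (hAct a).elim)
  refine (sup_le_sup le_rfl (Submodule.span_mono ?_) : N ⊔ _ ≤ N ⊔ _) key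
  rintro w ⟨V', ⟨h1, h2⟩, rfl⟩
  refine ⟨V', hdead V' h1 ?_, rfl⟩
  rcases h2 with h2 | ⟨a, _⟩
  · rw [← hpv0]; exact h2
  · exact (hAct a).elim

/-- The diagonal case. -/
theorem lemmaD {d : ℕ} (hd : 0 < d) {ζ : K} (hζ : IsPrimitiveRoot ζ d)
    (β : σ → Fin t) {ι : Type} (f : ι → Fin t → MvPolynomial σ K)
    (hf : ∀ e k, BH β k d (f e k)) (J : Fin t → σ) (hJ : ∀ k, β (J k) = k)
    {Z : Set (PrimeSpectrum (MvPolynomial σ K))} {i : ℕ}
    (N : Submodule 𝕜 (VH Z (i + 1) →₀ 𝕜)) (hN1 : RelH 𝕜 Z (i + 1) ≤ N)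
    (hN2 : ∀ c : Fin t → K, (∀ l, c l ^ d = 1) → ∀ V V' : VH Z (i + 1),
      V'.1 = ctr K (scl K (fun s => c (β s))) V.1 →
        Finsupp.single V' 1 - Finsupp.single V 1 ∈ N) :
    ∀ (n : ℕ) (T : Finset (Fin t)), T.card = n + 1 → ∀ (Λ : Finset ι), i + Λ.card ≤ n →
      (∀ Q ∈ Z, ∀ e ∈ Λ, ∑ k, f e k ∈ Q.asIdeal) →
      (∀ Q : PrimeSpectrum (MvPolynomial σ K),
        (∀ s, ¬ (β s ∈ T ∧ s = J (β s)) → X s ∈ Q.asIdeal) →
        (∀ e ∈ Λ, ∑ k, f e k ∈ Q.asIdeal) → Q ∈ Z) →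
      ∃ α : VH Z (i + 1) →₀ 𝕜, ∀ V : VH Z (i + 1),
        (∀ s, ¬ (β s ∈ T ∧ s = J (β s)) → X s ∈ V.1.asIdeal) →
          Finsupp.single V 1 ∈ N ⊔ Submodule.span 𝕜 {α} := by
  classical
  intro n
  induction n with
  | zero =>
    intro T hT Λ hΛ HZ2 HZ1
    have hΛ' : i + Λ.card = 0 := by omega
    have hΛe : Λ = ∅ := by rw [← Finset.card_eq_zero]; omega
    by_cases hex : ∃ V : VH Z (i + 1), ∀ s, ¬ (β s ∈ T ∧ s = J (β s)) → X s ∈ V.1.asIdeal
    · obtain ⟨V₀, hV₀⟩ := hex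
      refine ⟨Finsupp.single V₀ 1, fun V hV => ?_⟩
      have := stepB 𝕜 hd hζ β f hf J hJ N hN2 0 T hT Λ hΛ' HZ2
        (by rw [hΛe]; intro e he; exact absurd he (Finset.notMem_empty e)) V₀ V hV₀ hV
      have h2 : Finsupp.single V (1 : 𝕜) = (Finsupp.single V 1 - Finsupp.single V₀ 1) +
        Finsupp.single V₀ 1 := by abel
      rw [h2]
      exact Submodule.add_mem_sup this (Submodule.mem_span_singleton_self _)
    · push Not at hex
      refine ⟨0, fun V hV => ?_⟩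
      obtain ⟨s, hs1, hs2⟩ := hex V
      exact absurd (hV s (by rw [not_and]; exact hs1)) hs2
  | succ n ih =>
    intro T hT Λ hΛ HZ2 HZ1
    have hA : ∀ Λ' : Finset ι, i + Λ'.card < n + 1 →
        (∀ Q ∈ Z, ∀ e ∈ Λ', ∑ k, f e k ∈ Q.asIdeal) →
        (∀ Q : PrimeSpectrum (MvPolynomial σ K),
          (∀ s, ¬ (β s ∈ T ∧ s = J (β s)) → X s ∈ Q.asIdeal) →
          (∀ e ∈ Λ', ∑ k, f e k ∈ Q.asIdeal) → Q ∈ Z) →
        ∃ α : VH Z (i + 1) →₀ 𝕜, ∀ V : VH Z (i + 1),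
        (∀ s, ¬ (β s ∈ T ∧ s = J (β s)) → X s ∈ V.1.asIdeal) →
          Finsupp.single V 1 ∈ N ⊔ Submodule.span 𝕜 {α} := by
      intro Λ' hΛ' HZ2' HZ1'
      obtain ⟨k₁, hk₁⟩ : T.Nonempty := by
        rw [← Finset.card_pos, hT]; omega
      obtain ⟨α, hα⟩ := ih (T.erase k₁) (by rw [Finset.card_erase_of_mem hk₁, hT]; rfl) Λ'
        (by omega) HZ2' (by
          intro Q hQ hQ2
          refine HZ1' Q (fun s hs => hQ s ?_) hQ2
          intro h
          exact hs ⟨Finset.mem_of_mem_erase h.1, h.2⟩)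
      refine ⟨α, fun V hV => ?_⟩
      have key := stepA 𝕜 hd hζ β f hf J hJ N hN1 hN2 (n + 1) T hT Λ' hΛ' HZ2' HZ1' k₁ hk₁ V hV
      refine (sup_le le_sup_left ?_ : _ ⊔ _ ≤ N ⊔ Submodule.span 𝕜 {α}) key
      rw [Submodule.span_le]
      rintro w ⟨V', h1, rfl⟩
      exact hα V' h1
    rcases lt_or_eq_of_le hΛ with hlt | heq
    · exact hA Λ hlt HZ2 HZ1
    · by_cases hdep : ∃ e₀ ∈ Λ, fn J f T e₀ ∈ Submodule.span K
          (fn J f T '' ((Λ : Set ι) \ {e₀}))
      · obtain ⟨e₀, he₀, hdep⟩ := hdep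
        have hcard : 0 < Λ.card := Finset.card_pos.2 ⟨e₀, he₀⟩
        refine hA (Λ.erase e₀) (by rw [Finset.card_erase_of_mem he₀]; omega)
          (fun Q hQ e he => HZ2 Q hQ e (Finset.mem_of_mem_erase he)) ?_
        intro Q hQ hQ2
        apply HZ1 Q hQ
        intro e he
        by_cases h : e = e₀
        · rw [h]
          refine dep_mem hd β f hf J T ((Λ : Set ι) \ {e₀}) e₀ hdep Q hQ ?_
          intro e' he'
          exact hQ2 e' (Finset.mem_erase.2 ⟨he'.2, he'.1⟩)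
        · exact hQ2 e (Finset.mem_erase.2 ⟨h, he⟩)
      · push Not at hdep
        by_cases hex : ∃ V : VH Z (i + 1), ∀ s, ¬ (β s ∈ T ∧ s = J (β s)) → X s ∈ V.1.asIdeal
        · obtain ⟨V₀, hV₀⟩ := hex
          refine ⟨Finsupp.single V₀ 1, fun V hV => ?_⟩
          have := stepB 𝕜 hd hζ β f hf J hJ N hN2 (n + 1) T hT Λ heq HZ2 hdep V₀ V hV₀ hV
          have h2 : Finsupp.single V (1 : 𝕜) = (Finsupp.single V 1 - Finsupp.single V₀ 1) +
            Finsupp.single V₀ 1 := by abel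
          rw [h2]
          exact Submodule.add_mem_sup this (Submodule.mem_span_singleton_self _)
        · push Not at hex
          refine ⟨0, fun V hV => ?_⟩
          obtain ⟨s, hs1, hs2⟩ := hex V
          exact absurd (hV s (by rw [not_and]; exact hs1)) hs2

end lemmaD

end Pool.Agent.Bloch
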