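import Pool.Agent.Bloch.ChartPoly

set_option linter.unusedSectionVars false

open MvPolynomial

namespace Pool.Agent.Bloch

variable {K : Type} [Field K] (𝕜 : Type) [Field 𝕜] [CharZero 𝕜]

section eta
variable {σ : Type} [Fintype σ] {q : ℕ}
variable {bl : σ → Fin (q + 1)} {Zr : Set σ} {pv : Fin (q + 1) → σ}

theorem aeval_C_comp {A' : Type} (b : σ → MvPolynomial A' K) (f : MvPolynomial σ K) :
    aeval (fun s => Polynomial.C (b s)) f = Polynomial.C (aeval b f) := by
  have : (aeval (fun s => Polynomial.C (b s)) : MvPolynomial σ K →ₐ[K] Polynomial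
      (MvPolynomial A' K)) = (polyC K (MvPolynomial A' K)).comp (aeval b) := by
    apply MvPolynomial.algHom_ext
    intro s
    rw [aeval_X, AlgHom.comp_apply, aeval_X]
    rfl
  rw [this]; rfl

/-- vanishing in a chart in which one of the affine coordinates of the zeroth block is free -/
theorem van_eta {d : ℕ} {ι : Type} (Λ : Finset ι) (Fl : ι → Fin (q + 1) → MvPolynomial σ K)
    (hFl : ∀ e l, BH bl l d (Fl e l)) {i : ℕ} (hi : i + Λ.card ≤ q)
    (a₀ : Act bl Zr pv) (ha₀ : bl a₀.1 = 0) :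
    Van K 𝕜 i {P : PrimeSpectrum (MvPolynomial (Fin q) (MvPolynomial (Act bl Zr pv) K)) |
      ∀ e ∈ Λ, lin (aeval (eta K bl Zr pv) (Fl e 0))
        (fun l => aeval (eta K bl Zr pv) (Fl e l.succ)) ∈ P.asIdeal} := by
  classical
  let A' : Type := {a : Act bl Zr pv // a ≠ a₀}
  let ee : Option A' ≃ Act bl Zr pv := Equiv.optionSubtypeNe a₀
  let τ : MvPolynomial (Act bl Zr pv) K ≃ₐ[K] Polynomial (MvPolynomial A' K) :=
    (renameEquiv K ee.symm).trans (optionEquivLeft K A')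
  have hτ : ∀ a : Act bl Zr pv, a ≠ a₀ → ∃ b, τ (X a) = Polynomial.C b := by
    intro a ha
    refine ⟨X ⟨a, ha⟩, ?_⟩
    change optionEquivLeft K A' (rename ee.symm (X a)) = _
    rw [rename_X]
    have : ee.symm a = some ⟨a, ha⟩ := Equiv.optionSubtypeNe_symm_of_ne ha
    rw [this, optionEquivLeft_X_some]
  have hη : ∀ s, bl s ≠ 0 → ∃ b, τ (eta K bl Zr pv s) = Polynomial.C b := by
    intro s hs
    by_cases h : s ∉ Zr ∧ s ≠ pv (bl s)
    · have : eta K bl Zr pv s = X ⟨s, h⟩ := eta_act (K := K) (⟨s, h⟩ : Act bl Zr pv)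
      rw [this]
      apply hτ
      rintro rfl
      exact hs ha₀
    · unfold eta
      rw [dif_neg h]
      split_ifs
      · exact ⟨0, by rw [map_zero, map_zero]⟩
      · exact ⟨1, by rw [map_one, map_one]⟩
  choose! b hb using hη
  have hφ : ∀ e (l : Fin q), τ (aeval (eta K bl Zr pv) (Fl e l.succ)) =
      Polynomial.C (aeval b (Fl e l.succ)) := by
    intro e l
    have h1 : τ (aeval (eta K bl Zr pv) (Fl e l.succ)) =
        aeval (fun s => τ (eta K bl Zr pv s)) (Fl e l.succ) := by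
      have : (aeval (fun s => τ (eta K bl Zr pv s)) : MvPolynomial σ K →ₐ[K] _) =
          (τ : _ →ₐ[K] Polynomial (MvPolynomial A' K)).comp (aeval (eta K bl Zr pv)) := by
        apply MvPolynomial.algHom_ext
        intro s
        rw [aeval_X, AlgHom.comp_apply, aeval_X]
        rfl
      rw [this]; rfl
    rw [h1, (hFl e l.succ).aeval_congr (fun s => τ (eta K bl Zr pv s))
      (fun s => Polynomial.C (b s)) (fun s hs => hb s (by rw [hs]; exact Fin.succ_ne_zero l)),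
      aeval_C_comp]
  let θ : MvPolynomial (Fin q) (MvPolynomial (Act bl Zr pv) K) ≃ₐ[K]
      MvPolynomial (Fin q) (Polynomial (MvPolynomial A' K)) := mapAlgEquiv (Fin q) τ
  have hθC : ∀ x, θ (C x) = C (τ x) := by
    intro x
    change map _ (C x) = _
    rw [map_C]; rfl
  have hθX : ∀ l, θ (X l) = X l := by
    intro l
    change map _ (X l) = _
    rw [map_X]
  have hθlin : ∀ e, θ (lin (aeval (eta K bl Zr pv) (Fl e 0))
        (fun l => aeval (eta K bl Zr pv) (Fl e l.succ))) =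
      lin (τ (aeval (eta K bl Zr pv) (Fl e 0))) (fun l => Polynomial.C (aeval b (Fl e l.succ))) := by
    intro e
    unfold lin
    rw [map_add, map_sum, hθC]
    congr 1
    apply Finset.sum_congr rfl
    intro l _
    rw [map_mul, hθC, hθX, hφ]
  refine van_of_surj K 𝕜 (θ : _ →ₐ[K] _) θ.surjective ?_ ?_
    (van_lin_poly K 𝕜 q ι Λ (fun e => τ (aeval (eta K bl Zr pv) (Fl e 0)))
      (fun e l => aeval b (Fl e l.succ)) i hi)
  · intro Q
    refine forall₂_congr (fun e he => ?_)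
    rw [mem_ctr]
    change _ ↔ θ _ ∈ _
    rw [hθlin]
  · intro p _ x hx
    have : x = 0 := (map_eq_zero_iff _ θ.injective).1 hx
    rw [this]; exact Ideal.zero_mem _

end eta

section lemmaM
variable {σ : Type} [Fintype σ] {q : ℕ}

/-- the measure of complexity of a subvariety -/
noncomputable def mu (bl : σ → Fin (q + 1)) (s₀ : σ) (p : PrimeSpectrum (MvPolynomial σ K)) : ℕ :=
  open Classical in
  (Finset.univ.filter (fun s => bl s = 0 ∧ s ≠ s₀ ∧ X s ∉ p.asIdeal)).card +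
    ∑ l : Fin q, max 1 (Finset.univ.filter (fun s => bl s = l.succ ∧ X s ∉ p.asIdeal)).card

/-- Reduction to subvarieties on which all variables but one of a block vanish. -/
theorem lemmaM {d : ℕ} (hd : 0 < d) {ζ : K} (hζ : IsPrimitiveRoot ζ d)
    (bl : σ → Fin (q + 1)) {ι : Type} (Λ : Finset ι) (Fl : ι → Fin (q + 1) → MvPolynomial σ K)
    (hFl : ∀ e l, BH bl l d (Fl e l))
    {Z : Set (PrimeSpectrum (MvPolynomial σ K))}
    (HZ1 : ∀ Q : PrimeSpectrum (MvPolynomial σ K), (∀ e ∈ Λ, ∑ l, Fl e l ∈ Q.asIdeal) → Q ∈ Z)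
    (HZ2 : ∀ Q ∈ Z, ∀ e ∈ Λ, ∑ l, Fl e l ∈ Q.asIdeal) {i : ℕ} (hi : i + Λ.card ≤ q)
    (N : Submodule 𝕜 (VH Z (i + 1) →₀ 𝕜)) (hN1 : RelH 𝕜 Z (i + 1) ≤ N)
    (hN2 : ∀ c : Fin (q + 1) → K, (∀ l, c l ^ d = 1) → ∀ V V' : VH Z (i + 1),
      V'.1 = ctr K (scl K (fun s => c (bl s))) V.1 →
        Finsupp.single V' 1 - Finsupp.single V 1 ∈ N)
    (s₀ : σ) (hs₀ : bl s₀ = 0) (Zr₀ : Set σ) (hZ0 : s₀ ∉ Zr₀)
    (hZl : ∀ l : Fin (q + 1), l ≠ 0 → ∃ s, bl s = l ∧ s ∉ Zr₀) :
    ∀ V : VH Z (i + 1), (∀ s ∈ Zr₀, X s ∈ V.1.asIdeal) → Finsupp.single V 1 ∈ N ⊔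
      Submodule.span 𝕜 {w : VH Z (i + 1) →₀ 𝕜 | ∃ V' : VH Z (i + 1),
      ((∀ s ∈ Zr₀, X s ∈ V'.1.asIdeal) ∧ (∀ s, bl s = 0 → s ≠ s₀ → X s ∈ V'.1.asIdeal)) ∧
        w = Finsupp.single V' 1} := by
  classical
  set T := N ⊔ Submodule.span 𝕜 {w : VH Z (i + 1) →₀ 𝕜 | ∃ V' : VH Z (i + 1),
      ((∀ s ∈ Zr₀, X s ∈ V'.1.asIdeal) ∧ (∀ s, bl s = 0 → s ≠ s₀ → X s ∈ V'.1.asIdeal)) ∧
        w = Finsupp.single V' 1} with hT
  have main : ∀ n, ∀ V : VH Z (i + 1), mu bl s₀ V.1 ≤ n → (∀ s ∈ Zr₀, X s ∈ V.1.asIdeal) →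
      Finsupp.single V 1 ∈ T := by
    intro n
    induction n using Nat.strong_induction_on with
    | _ n ih =>
    intro V hn hV
    by_cases hdone : ∀ s, bl s = 0 → s ≠ s₀ → X s ∈ V.1.asIdeal
    · exact Submodule.mem_sup_right (Submodule.subset_span ⟨V, ⟨hV, hdone⟩, rfl⟩)
    push Not at hdone
    obtain ⟨s₁, hs₁, hs₁₀, hs₁V⟩ := hdone
    -- the normalising variables
    have hpvex : ∀ l : Fin (q + 1), ∃ s, bl s = l ∧ (l = 0 → s = s₁) ∧
        (l ≠ 0 → (X s ∉ V.1.asIdeal ∨ ((∀ s', bl s' = l → X s' ∈ V.1.asIdeal) ∧ s ∉ Zr₀))) := by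
      intro l
      by_cases hl : l = 0
      · exact ⟨s₁, by rw [hl, hs₁], fun _ => rfl, fun h => absurd hl h⟩
      · by_cases hw : ∃ s, bl s = l ∧ X s ∉ V.1.asIdeal
        · obtain ⟨s, h1, h2⟩ := hw
          exact ⟨s, h1, fun h => absurd h hl, fun _ => Or.inl h2⟩
        · push Not at hw
          obtain ⟨s, h1, h2⟩ := hZl l hl
          exact ⟨s, h1, fun h => absurd h hl, fun _ => Or.inr ⟨hw, h2⟩⟩
    choose pv hpv hpv0 hpvl using hpvex
    have hpv0' : pv 0 = s₁ := hpv0 0 rfl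
    set Zr : Set σ := {s | X s ∈ V.1.asIdeal ∧ s ≠ s₀ ∧ s ≠ pv (bl s)} with hZr
    have hpvZ : ∀ l, pv l ∉ Zr := by
      intro l h
      apply h.2.2
      rw [hpv]
    have hV0 : X (pv 0) ∉ V.1.asIdeal := by rw [hpv0']; exact hs₁V
    have hsub : ∀ s ∈ Zr₀, s ∈ Zr := by
      intro s hs
      refine ⟨hV s hs, fun h => hZ0 (h ▸ hs), ?_⟩
      intro h
      by_cases hl : bl s = 0
      · rw [hl, hpv0'] at h
        apply hs₁V
        rw [← h]; exact hV s hs
      · rcases hpvl (bl s) hl with h1 | ⟨_, h1⟩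
        · apply h1
          rw [← h]; exact hV s hs
        · apply h1
          rw [← h]; exact hs
    have hact : ∀ a : Act bl Zr pv, bl a.1 ≠ 0 → X a.1 ∉ V.1.asIdeal := by
      intro a ha h
      apply a.2.1
      refine ⟨h, ?_, a.2.2⟩
      intro h2
      apply ha
      rw [h2, hs₀]
    have hVA : ∀ a : Act bl Zr pv, X (pv (bl a.1)) ∉ V.1.asIdeal := by
      intro a
      by_cases hl : bl a.1 = 0
      · rw [hl]; exact hV0
      · rcases hpvl (bl a.1) hl with h1 | ⟨h1, _⟩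
        · exact h1
        · exact absurd (h1 a.1 rfl) (hact a hl)
    have hs₀Z : s₀ ∉ Zr := fun h => h.2.1 rfl
    have hs₀pv : s₀ ≠ pv (bl s₀) := by rw [hs₀, hpv0']; exact hs₁₀.symm
    have hvan := van_eta (K := K) 𝕜 Λ Fl hFl hi (⟨s₀, hs₀Z, hs₀pv⟩ : Act bl Zr pv) hs₀
    have key := chart_poly 𝕜 hd hζ hpv hpvZ Λ Fl hFl (fun Q _ h => HZ1 Q h) HZ2 hvan N hN1 hN2 V
      (fun s hs => hs.1) hV0 hVA
    refine (sup_le (le_sup_left) ?_ : _ ⊔ _ ≤ T) key
    rw [Submodule.span_le]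
    rintro w ⟨V', ⟨hB1, hB2⟩, rfl⟩
    refine ih (mu bl s₀ V'.1) ?_ V' le_rfl (fun s hs => hB1 s (hsub s hs))
    refine lt_of_lt_of_le ?_ hn
    -- the measure decreases
    have h0sub : (Finset.univ.filter (fun s => bl s = 0 ∧ s ≠ s₀ ∧ X s ∉ V'.1.asIdeal)) ⊆
        (Finset.univ.filter (fun s => bl s = 0 ∧ s ≠ s₀ ∧ X s ∉ V.1.asIdeal)) := by
      intro s hs
      rw [Finset.mem_filter] at hs ⊢
      refine ⟨Finset.mem_univ _, hs.2.1, hs.2.2.1, fun h => hs.2.2.2 (hB1 s ⟨h, hs.2.2.1, ?_⟩)⟩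
      rw [hs.2.1, hpv0']
      rintro rfl
      exact hs₁V h
    have hlsub : ∀ l : Fin q, (∃ s, bl s = l.succ ∧ X s ∉ V.1.asIdeal) →
        (Finset.univ.filter (fun s => bl s = l.succ ∧ X s ∉ V'.1.asIdeal)) ⊆
        (Finset.univ.filter (fun s => bl s = l.succ ∧ X s ∉ V.1.asIdeal)) := by
      rintro l ⟨s', hs', hs'V⟩ s hs
      rw [Finset.mem_filter] at hs ⊢
      refine ⟨Finset.mem_univ _, hs.2.1, fun h => hs.2.2 (hB1 s ⟨h, ?_, ?_⟩)⟩
      · rintro rfl
        rw [hs₀] at hs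
        exact Fin.succ_ne_zero l hs.2.1.symm
      · rw [hs.2.1]
        intro h2
        rcases hpvl l.succ (Fin.succ_ne_zero l) with h3 | ⟨h3, _⟩
        · apply h3
          rw [← h2]; exact h
        · exact hs'V (h3 s' hs')
    have hlle : ∀ l : Fin q,
        max 1 (Finset.univ.filter (fun s => bl s = l.succ ∧ X s ∉ V'.1.asIdeal)).card ≤
        max 1 (Finset.univ.filter (fun s => bl s = l.succ ∧ X s ∉ V.1.asIdeal)).card := by
      intro l
      by_cases hw : ∃ s, bl s = l.succ ∧ X s ∉ V.1.asIdeal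
      · exact max_le_max le_rfl (Finset.card_le_card (hlsub l hw))
      · push Not at hw
        have : (Finset.univ.filter (fun s => bl s = l.succ ∧ X s ∉ V'.1.asIdeal)) ⊆
            {pv l.succ} := by
          intro s hs
          rw [Finset.mem_filter] at hs
          rw [Finset.mem_singleton]
          by_contra hne
          apply hs.2.2
          refine hB1 s ⟨hw s hs.2.1, ?_, ?_⟩
          · rintro rfl
            rw [hs₀] at hs
            exact Fin.succ_ne_zero l hs.2.1.symm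
          · rw [hs.2.1]; exact hne
        have h2 := Finset.card_le_card this
        rw [Finset.card_singleton] at h2
        exact (max_le le_rfl h2).trans (le_max_left _ _)
    have hcase : (X (pv 0) ∈ V'.1.asIdeal) ∨ ∃ l : Fin q, ∃ a : Act bl Zr pv, bl a.1 = l.succ ∧
        X (pv l.succ) ∈ V'.1.asIdeal := by
      rcases hB2 with h | ⟨a, h⟩
      · exact Or.inl h
      · by_cases hl : bl a.1 = 0
        · left; rw [hl] at h; exact h
        · obtain ⟨l, hl'⟩ := Fin.exists_succ_eq.2 hl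
          right
          refine ⟨l, a, hl'.symm, ?_⟩
          rw [hl']; exact h
    unfold mu
    rcases hcase with h | ⟨l, a, hal, h⟩
    · refine add_lt_add_of_lt_of_le (Finset.card_lt_card ?_)
        (Finset.sum_le_sum (fun l _ => hlle l))
      rw [Finset.ssubset_iff_subset_ne]
      refine ⟨h0sub, ?_⟩
      intro heq
      have : s₁ ∈ (Finset.univ.filter (fun s => bl s = 0 ∧ s ≠ s₀ ∧ X s ∉ V.1.asIdeal)) := by
        rw [Finset.mem_filter]
        exact ⟨Finset.mem_univ _, hs₁, hs₁₀, hs₁V⟩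
      rw [← heq, Finset.mem_filter] at this
      rw [hpv0'] at h
      exact this.2.2.2 h
    · refine add_lt_add_of_le_of_lt (Finset.card_le_card h0sub)
        (Finset.sum_lt_sum (fun l _ => hlle l) ⟨l, Finset.mem_univ _, ?_⟩)
      have haV : X a.1 ∉ V.1.asIdeal := hact a (by rw [hal]; exact Fin.succ_ne_zero l)
      have hpV : X (pv l.succ) ∉ V.1.asIdeal := by
        have := hVA a
        rwa [hal] at this
      have hapv : a.1 ≠ pv l.succ := by
        have := a.2.2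
        rwa [hal] at this
      have hss : (Finset.univ.filter (fun s => bl s = l.succ ∧ X s ∉ V'.1.asIdeal)) ⊂
          (Finset.univ.filter (fun s => bl s = l.succ ∧ X s ∉ V.1.asIdeal)) := by
        rw [Finset.ssubset_iff_subset_ne]
        refine ⟨hlsub l ⟨a.1, hal, haV⟩, ?_⟩
        intro heq
        have : pv l.succ ∈
            (Finset.univ.filter (fun s => bl s = l.succ ∧ X s ∉ V.1.asIdeal)) := by
          rw [Finset.mem_filter]
          exact ⟨Finset.mem_univ _, hpv _, hpV⟩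
        rw [← heq, Finset.mem_filter] at this
        exact this.2.2 h
      have h2 := Finset.card_lt_card hss
      have h3 : 1 < (Finset.univ.filter (fun s => bl s = l.succ ∧ X s ∉ V.1.asIdeal)).card := by
        rw [Finset.one_lt_card]
        refine ⟨a.1, ?_, pv l.succ, ?_, hapv⟩
        · rw [Finset.mem_filter]
          exact ⟨Finset.mem_univ _, hal, haV⟩
        · rw [Finset.mem_filter]
          exact ⟨Finset.mem_univ _, hpv _, hpV⟩
      rw [max_lt_iff]
      exact ⟨lt_of_lt_of_le h3 (le_max_right _ _), lt_of_lt_of_le h2 (le_max_right _ _)⟩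
  intro V hV
  exact main _ V le_rfl hV

end lemmaM

end Pool.Agent.Bloch
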