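import Pool.Agent.Bloch.Dim2

set_option linter.unusedSectionVars false

namespace Pool.Agent.Bloch

section len
variable {R : Type} [CommRing R]

/-- the length of the localisation of a module at a prime -/
noncomputable def len (p : PrimeSpectrum R) (M : Type) [AddCommGroup M] [Module R M] : ℕ∞ :=
  Module.length (Localization.AtPrime p.asIdeal) (LocalizedModule p.asIdeal.primeCompl M)

variable {M N P : Type} [AddCommGroup M] [Module R M] [AddCommGroup N] [Module R N]
  [AddCommGroup P] [Module R P]

theorem len_exact (p : PrimeSpectrum R) (f : M →ₗ[R] N) (g : N →ₗ[R] P)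
    (hf : Function.Injective f) (hg : Function.Surjective g) (h : Function.Exact f g) :
    len p N = len p M + len p P :=
  Module.length_eq_add_of_exact
    (LocalizedModule.map p.asIdeal.primeCompl f) (LocalizedModule.map p.asIdeal.primeCompl g)
    (LocalizedModule.map_injective _ f hf) (LocalizedModule.map_surjective _ g hg)
    (LocalizedModule.map_exact _ f g h)

theorem len_congr (p : PrimeSpectrum R) (e : M ≃ₗ[R] N) : len p M = len p N := by
  have h := len_exact p (e : M →ₗ[R] N) (0 : N →ₗ[R] PUnit.{1}) e.injective
    (Function.surjective_to_subsingleton _)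
    ((LinearMap.exact_zero_iff_surjective PUnit.{1} (e : M →ₗ[R] N)).2 e.surjective)
  have h0 : len p PUnit.{1} = 0 := by
    unfold len
    exact Module.length_eq_zero
  rw [h, h0, add_zero]

theorem len_eq_zero_iff (p : PrimeSpectrum R) : len p M = 0 ↔ p ∉ Module.support R M := by
  rw [Module.notMem_support_iff]
  exact Module.length_eq_zero_iff

theorem len_pos_iff (p : PrimeSpectrum R) : 0 < len p M ↔ p ∈ Module.support R M := by
  rw [pos_iff_ne_zero, ne_eq, len_eq_zero_iff, not_not]

theorem len_quot_self (p : PrimeSpectrum R) : len p (R ⧸ p.asIdeal) = 1 := by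
  unfold len
  rw [Module.length_eq_one_iff, isSimpleModule_iff_toSpanSingleton_surjective]
  constructor
  · rw [← Module.mem_support_iff, Module.mem_support_iff']
    refine ⟨Ideal.Quotient.mk _ 1, fun r hr h => hr ?_⟩
    have : (Ideal.Quotient.mk p.asIdeal) (r * 1) = 0 := h
    rw [mul_one] at this
    exact Ideal.Quotient.eq_zero_iff_mem.1 this
  · intro x hx y
    induction x using LocalizedModule.induction_on with
    | _ m s =>
    induction y using LocalizedModule.induction_on with
    | _ b t =>
    obtain ⟨r, rfl⟩ := Ideal.Quotient.mk_surjective m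
    obtain ⟨b, rfl⟩ := Ideal.Quotient.mk_surjective b
    have hr : r ∉ p.asIdeal := by
      intro h
      apply hx
      rw [Ideal.Quotient.eq_zero_iff_mem.2 h, LocalizedModule.zero_mk]
    refine ⟨Localization.mk (b * s) (⟨r, hr⟩ * t), ?_⟩
    rw [LinearMap.toSpanSingleton_apply, LocalizedModule.mk_smul_mk]
    rw [LocalizedModule.mk_eq]
    refine ⟨1, ?_⟩
    rw [one_smul, one_smul]
    change (t : R) • ((b * s) • Ideal.Quotient.mk p.asIdeal r) =
      ((r * t) * s) • Ideal.Quotient.mk p.asIdeal b
    rw [← Ideal.Quotient.mk_eq_mk, ← Ideal.Quotient.mk_eq_mk]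
    rw [← Submodule.Quotient.mk_smul, ← Submodule.Quotient.mk_smul, ← Submodule.Quotient.mk_smul]
    congr 1
    simp only [smul_eq_mul]
    ring

theorem support_quot (q : Ideal R) :
    Module.support R (R ⧸ q) = {p | q ≤ p.asIdeal} := by
  ext p
  rw [Module.mem_support_iff_of_finite, Ideal.annihilator_quotient]
  rfl

/-- If a finite module over a Noetherian ring has `p` as a minimal point of its support
(or `p` is not in the support), its length at `p` is finite. -/
theorem len_ne_top [IsNoetherianRing R] (hM : Module.Finite R M) (p : PrimeSpectrum R)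
    (h : ∀ q ∈ Module.support R M, q ≤ p → q = p) : len p M ≠ ⊤ := by
  revert h
  induction hM using IsNoetherianRing.induction_on_isQuotientEquivQuotientPrime R with
  | subsingleton N =>
    intro _
    have : len p N = 0 := by
      rw [len_eq_zero_iff, Module.support_eq_empty]
      exact Set.notMem_empty _
    rw [this]; exact ENat.zero_ne_top
  | quotient N q e =>
    intro h
    rw [len_congr p e]
    by_cases hqp : q ≤ p
    · have hq : q ∈ Module.support R N := by
        rw [e.support_eq, support_quot]
        exact le_refl q.asIdeal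
      have := h q hq hqp
      subst this
      rw [len_quot_self]; exact ENat.one_ne_top
    · have : len p (R ⧸ q.asIdeal) = 0 := by
        rw [len_eq_zero_iff, support_quot]
        exact hqp
      rw [this]; exact ENat.zero_ne_top
  | exact N₁ N₂ N₃ f g hf hg hfg h₁ h₃ =>
    intro h
    rw [len_exact p f g hf hg hfg]
    have hs := Module.support_of_exact hfg hf hg
    have a1 := h₁ (fun q hq hqp => h q (by rw [hs]; exact Or.inl hq) hqp)
    have a3 := h₃ (fun q hq hqp => h q (by rw [hs]; exact Or.inr hq) hqp)
    rw [ne_eq, ENat.add_eq_top, not_or]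
    exact ⟨a1, a3⟩

end len

end Pool.Agent.Bloch
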