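import Pool.Agent.Bloch.LocQuot

set_option linter.unusedSectionVars false

open MvPolynomial

namespace Pool.Agent.Bloch

variable (K : Type) [Field K] (𝕜 : Type) [Field 𝕜] [CharZero 𝕜]

instance essMv (A : Type) [CommRing A] [Algebra K A] [Algebra.EssFiniteType K A] (σ : Type)
    [Finite σ] : Algebra.EssFiniteType K (MvPolynomial σ A) :=
  Algebra.EssFiniteType.comp K A (MvPolynomial σ A)

section surj
variable {P T : Type} [CommRing P] [Algebra K P] [CommRing T] [Algebra K T]
variable [Algebra.EssFiniteType K P] [IsNoetherianRing P] [Algebra.EssFiniteType K T]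
  [IsNoetherianRing T]

/-- Vanishing passes along closed immersions. -/
theorem van_of_surj (θ : P →ₐ[K] T) (hθ : Function.Surjective θ) {k : ℕ}
    {Z : Set (PrimeSpectrum T)} {Z' : Set (PrimeSpectrum P)}
    (hZ : ∀ Q, Q ∈ Z ↔ ctr K θ Q ∈ Z') (hker : ∀ p ∈ Z', ∀ x, θ x = 0 → x ∈ p.asIdeal)
    (h : Van K 𝕜 k Z) : Van K 𝕜 k Z' := by
  intro p hp hd
  have hF : Frac K θ (⊥ : Submonoid P) := by
    intro t
    obtain ⟨a, rfl⟩ := hθ t
    exact ⟨1, Submonoid.one_mem _, a, by simp⟩
  obtain ⟨Q, hQ, rfl⟩ := exists_uset hF p (hker p hp) (by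
    intro u hu h1
    rw [Submonoid.mem_bot] at hu
    rw [hu] at h1
    exact p.2.ne_top ((Ideal.eq_top_iff_one _).2 h1))
  have h1 := h Q ((hZ Q).2 hp) (by rw [← dl_uset hF hQ, hd])
  have h2 := transfer_rel K 𝕜 hF (Z' := Z') (fun Q hQ _ => (hZ Q).1 hQ) h1
  rw [push_single K 𝕜 θ ⊥ hQ] at h2
  have h3 : Submodule.span 𝕜 {w : PrimeSpectrum P →₀ 𝕜 | ∃ p ∈ {p : PrimeSpectrum P |
        dl K p = k ∧ (∃ Q₀ ∈ Z, ctr K θ Q₀ ≤ p ∧ ctr K θ Q₀ ∈ Z') ∧
          ∃ v ∈ (⊥ : Submonoid P), v ∈ p.asIdeal}, w = Finsupp.single p 1} ≤ Rel K 𝕜 k Z' := by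
    rw [Submodule.span_le]
    rintro w ⟨p, ⟨_, _, v, hv, hvp⟩, rfl⟩
    exfalso
    rw [Submonoid.mem_bot] at hv
    rw [hv] at hvp
    exact p.2.ne_top ((Ideal.eq_top_iff_one _).2 hvp)
  exact (sup_le le_rfl h3) h2

end surj

section field
variable {F : Type} [Field F] [Algebra K F]
variable {D : Type} [CommRing D] [Algebra K D] [Algebra F D] [IsScalarTower K F D]
  [Algebra.EssFiniteType K D] [IsNoetherianRing D]

/-- an affine linear form -/
noncomputable def lin {q : ℕ} {D : Type} [CommRing D] (g : D) (φ : Fin q → D) :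
    MvPolynomial (Fin q) D :=
  C g + ∑ l, C (φ l) * X l

theorem lin_field (N : ℕ) (hN1 : ∀ j < N, Van K 𝕜 j (Set.univ : Set (PrimeSpectrum D)))
    (hN2 : ∀ p : PrimeSpectrum D, N ≤ dl K p + 1) (q : ℕ) :
    ∀ (ι : Type) (Λ : Finset ι) (g : ι → D) (φ : ι → Fin q → F) (i : ℕ),
      i + Λ.card < q + N → Van K 𝕜 i {P : PrimeSpectrum (MvPolynomial (Fin q) D) |
        ∀ e ∈ Λ, lin (g e) (fun l => algebraMap F D (φ e l)) ∈ P.asIdeal} := by
  classical
  induction q with
  | zero =>
    intro ι Λ g φ i hi
    refine van_of_surj K 𝕜 ((isEmptyAlgEquiv D (Fin 0)).toAlgHom.restrictScalars K)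
      (isEmptyAlgEquiv D (Fin 0)).surjective (Z := {p : PrimeSpectrum D | ∀ e ∈ Λ, g e ∈ p.asIdeal})
      ?_ ?_ ?_
    · intro Q
      change (∀ e ∈ Λ, g e ∈ Q.asIdeal) ↔ (∀ e ∈ Λ, (isEmptyAlgEquiv D (Fin 0))
        (lin (g e) (fun l => algebraMap F D (φ e l))) ∈ Q.asIdeal)
      refine forall₂_congr (fun e he => ?_)
      have : (isEmptyAlgEquiv D (Fin 0)) (lin (g e) (fun l => algebraMap F D (φ e l))) = g e := by
        unfold lin
        rw [Finset.univ_eq_empty, Finset.sum_empty, add_zero]
        exact AlgEquiv.commutes (isEmptyAlgEquiv D (Fin 0)) (g e)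
      rw [this]
    · intro p _ x hx
      have : x = 0 := (map_eq_zero_iff _ (isEmptyAlgEquiv D (Fin 0)).injective).1 hx
      rw [this]; exact Ideal.zero_mem _
    · by_cases hg : ∀ e ∈ Λ, g e = 0
      · intro p _ hd
        refine rel_mono K 𝕜 i ?_ (hN1 i (by omega) p (Set.mem_univ _) hd)
        intro p _ e he
        rw [hg e he]; exact Ideal.zero_mem _
      · push Not at hg
        obtain ⟨e, he, _⟩ := hg
        have : 0 < Λ.card := Finset.card_pos.2 ⟨e, he⟩
        intro p _ hd
        have := hN2 p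
        omega
  | succ q ih =>
    intro ι Λ g φ i hi
    by_cases hcol : ∀ e ∈ Λ, φ e 0 = 0
    · have h1 : Van K 𝕜 i {P : PrimeSpectrum (Polynomial (MvPolynomial (Fin q) D)) |
          ctr K (polyC K (MvPolynomial (Fin q) D)) P ∈
            {P : PrimeSpectrum (MvPolynomial (Fin q) D) |
        ∀ e ∈ Λ, lin (g e) (fun l => algebraMap F D (φ e l.succ)) ∈ P.asIdeal}} := by
        apply van_poly
        · intro p hp p' hpp' e he
          exact hpp' (hp e he)
        · intro j hj
          exact ih ι Λ g (fun e l => φ e l.succ) j (by omega)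
      refine van_of_surj K 𝕜 ((finSuccEquiv D q).toAlgHom.restrictScalars K)
        (finSuccEquiv D q).surjective ?_ ?_ h1
      · intro Q
        change (∀ e ∈ Λ, Polynomial.C (lin (g e) (fun l => algebraMap F D (φ e l.succ)))
          ∈ Q.asIdeal) ↔ (∀ e ∈ Λ, (finSuccEquiv D q)
          (lin (g e) (fun l => algebraMap F D (φ e l))) ∈ Q.asIdeal)
        refine forall₂_congr (fun e he => ?_)
        have : (finSuccEquiv D q) (lin (g e) (fun l => algebraMap F D (φ e l))) =
            Polynomial.C (lin (g e) (fun l => algebraMap F D (φ e l.succ))) := by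
          unfold lin
          rw [map_add, map_sum, Fin.sum_univ_succ]
          simp [hcol e he, finSuccEquiv_apply, map_sum]
        rw [this]
      · intro p _ x hx
        have : x = 0 := (map_eq_zero_iff _ (finSuccEquiv D q).injective).1 hx
        rw [this]; exact Ideal.zero_mem _
    · push Not at hcol
      obtain ⟨μ, hμ, hμ0⟩ := hcol
      set c : MvPolynomial (Fin q) D :=
        - C (algebraMap F D (φ μ 0)⁻¹) * lin (g μ) (fun l => algebraMap F D (φ μ l.succ)) with hc
      let θ₀ : MvPolynomial (Fin (q + 1)) D →ₐ[D] MvPolynomial (Fin q) D :=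
        aeval (Fin.cases c X)
      let θ : MvPolynomial (Fin (q + 1)) D →ₐ[K] MvPolynomial (Fin q) D := θ₀.restrictScalars K
      have hθX : ∀ l : Fin q, θ (X l.succ) = X l := by
        intro l
        change θ₀ (X l.succ) = X l
        simp [θ₀]
      have hθC : ∀ x : D, θ (C x) = C x := by
        intro x
        change θ₀ (C x) = C x
        simp [θ₀, algebraMap_eq]
      have hθ0 : θ (X 0) = c := by
        change θ₀ (X 0) = c
        simp [θ₀]
      have hone : algebraMap F D (φ μ 0)⁻¹ * algebraMap F D (φ μ 0) = 1 := by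
        rw [← map_mul, inv_mul_cancel₀ hμ0, map_one]
      let ιR : MvPolynomial (Fin q) D →ₐ[D] MvPolynomial (Fin (q + 1)) D := rename Fin.succ
      have hθι : ∀ x, θ (ιR x) = x := by
        intro x
        change (θ₀.comp ιR) x = (AlgHom.id D _) x
        congr 1
        apply MvPolynomial.algHom_ext
        intro l
        change θ (ιR (X l)) = X l
        rw [rename_X]; exact hθX l
      have hsurj : Function.Surjective θ := fun x => ⟨ιR x, hθι x⟩
      have hE : ∀ e, θ (lin (g e) (fun l => algebraMap F D (φ e l))) =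
          lin (g e - algebraMap F D (φ e 0 * (φ μ 0)⁻¹) * g μ)
            (fun l => algebraMap F D (φ e l.succ - φ e 0 * (φ μ 0)⁻¹ * φ μ l.succ)) := by
        intro e
        unfold lin
        rw [map_add, map_sum, Fin.sum_univ_succ, hθC, map_mul, hθC, hθ0, hc]
        unfold lin
        simp only [map_mul, hθC, hθX, map_sub, sub_mul, Finset.sum_sub_distrib]
        rw [mul_add, neg_mul, neg_mul, mul_add, mul_neg, mul_neg, Finset.mul_sum, Finset.mul_sum,
          ← sub_eq_zero]
        have : ∀ l : Fin q, C (algebraMap F D (φ e 0)) * (C (algebraMap F D (φ μ 0)⁻¹) *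
            (C (algebraMap F D (φ μ l.succ)) * X l)) = C (algebraMap F D (φ e 0)) *
              C (algebraMap F D (φ μ 0)⁻¹) * C (algebraMap F D (φ μ l.succ)) * X l := by
          intro l; ring
        rw [Finset.sum_congr rfl (fun l _ => this l)]
        ring
      refine van_of_surj K 𝕜 θ hsurj (Z := {P : PrimeSpectrum (MvPolynomial (Fin q) D) |
        ∀ e ∈ Λ.erase μ, lin (g e - algebraMap F D (φ e 0 * (φ μ 0)⁻¹) * g μ)
            (fun l => algebraMap F D (φ e l.succ - φ e 0 * (φ μ 0)⁻¹ * φ μ l.succ)) ∈ P.asIdeal})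
        ?_ ?_ ?_
      · intro Q
        change _ ↔ (∀ e ∈ Λ, θ (lin (g e) (fun l => algebraMap F D (φ e l))) ∈ Q.asIdeal)
        constructor
        · intro h e he
          rw [hE]
          by_cases hem : e = μ
          · subst hem
            have : lin (g e - algebraMap F D (φ e 0 * (φ e 0)⁻¹) * g e)
                (fun l => algebraMap F D (φ e l.succ - φ e 0 * (φ e 0)⁻¹ * φ e l.succ)) = 0 := by
              rw [mul_inv_cancel₀ hμ0]
              simp [lin]
            rw [this]; exact Ideal.zero_mem _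
          · exact h e (Finset.mem_erase.2 ⟨hem, he⟩)
        · intro h e he
          rw [← hE]
          exact h e (Finset.mem_of_mem_erase he)
      · intro p hp x hx
        have hp' := hp μ hμ
        have key : (Ideal.Quotient.mkₐ D p.asIdeal) =
            ((Ideal.Quotient.mkₐ D p.asIdeal).comp ιR).comp θ₀ := by
          apply MvPolynomial.algHom_ext
          intro l
          refine Fin.cases ?_ (fun l => ?_) l
          · change Ideal.Quotient.mk p.asIdeal (X 0) = Ideal.Quotient.mk p.asIdeal (ιR (θ (X 0)))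
            rw [hθ0, Ideal.Quotient.eq]
            have : (X 0 : MvPolynomial (Fin (q+1)) D) - ιR c = C (algebraMap F D (φ μ 0)⁻¹) *
                lin (g μ) (fun l => algebraMap F D (φ μ l)) := by
              rw [hc]
              unfold lin
              rw [Fin.sum_univ_succ]
              simp only [map_neg, map_mul, map_add, map_sum, ιR, rename_X, rename_C]
              have h1 : C (algebraMap F D (φ μ 0)⁻¹) * C (algebraMap F D (φ μ 0)) =
                (1 : MvPolynomial (Fin (q+1)) D) := by rw [← C_mul, hone, C_1]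
              linear_combination (-(X 0 : MvPolynomial (Fin (q+1)) D)) * h1
            rw [this]
            exact Ideal.mul_mem_left _ _ hp'
          · change Ideal.Quotient.mk p.asIdeal (X l.succ) =
              Ideal.Quotient.mk p.asIdeal (ιR (θ (X l.succ)))
            rw [hθX, rename_X]
        have h2 : Ideal.Quotient.mk p.asIdeal x = Ideal.Quotient.mk p.asIdeal (ιR (θ x)) :=
          DFunLike.congr_fun key x
        rw [hx, map_zero, map_zero] at h2
        exact Ideal.Quotient.eq_zero_iff_mem.1 h2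
      · apply ih ι (Λ.erase μ)
        rw [Finset.card_erase_of_mem hμ]
        have : 0 < Λ.card := Finset.card_pos.2 ⟨μ, hμ⟩
        omega

end field

end Pool.Agent.Bloch
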