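import Pool.Agent.Bloch.LemM

set_option linter.unusedSectionVars false

open MvPolynomial

namespace Pool.Agent.Bloch

variable {K : Type} [Field K]

section
variable {T : Type} [Fintype T] [DecidableEq T]

/-- the linear form attached to a functional -/
noncomputable def LF (T : Type) [Fintype T] [DecidableEq T] :
    Module.Dual K (T → K) →ₗ[K] MvPolynomial T K where
  toFun l := ∑ k, l (Pi.single k 1) • X k
  map_add' l l' := by
    rw [← Finset.sum_add_distrib]
    apply Finset.sum_congr rfl
    intro k _
    rw [LinearMap.add_apply, add_smul]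
  map_smul' c l := by
    rw [Finset.smul_sum]
    apply Finset.sum_congr rfl
    intro k _
    rw [LinearMap.smul_apply, smul_eq_mul, mul_smul]
    rfl

theorem LF_apply (l : Module.Dual K (T → K)) : LF T l = ∑ k, l (Pi.single k 1) • X k := rfl

/-- The prime ideal of a linear subspace is determined by its equations and its dimension. -/
theorem ctr_unique {ι : Type} (Λ : Finset ι) (φ : ι → Module.Dual K (T → K))
    (hind : ∀ e₀ ∈ Λ, φ e₀ ∉ Submodule.span K (φ '' ((Λ : Set ι) \ {e₀}))) :
    ∃ 𝔨 : PrimeSpectrum (MvPolynomial T K), ∀ p : PrimeSpectrum (MvPolynomial T K),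
      (∀ e ∈ Λ, LF T (φ e) ∈ p.asIdeal) → dl K p + Λ.card = Fintype.card T → p = 𝔨 := by
  classical
  set Φ₀ : Submodule K (Module.Dual K (T → K)) := Submodule.span K (φ '' (Λ : Set ι)) with hΦ₀
  set W : Submodule K (T → K) := Φ₀.dualCoannihilator with hW
  have hli : LinearIndependent K (fun e : Λ => φ e.1) := by
    rw [linearIndependent_iff_notMem_span]
    intro e he
    apply hind e.1 e.2
    refine Submodule.span_mono ?_ he
    rintro _ ⟨e', he', rfl⟩
    refine ⟨e'.1, ⟨e'.2, ?_⟩, rfl⟩
    intro h
    apply he'.2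
    exact Subtype.ext h
  have hfr : Module.finrank K Φ₀ = Λ.card := by
    have h1 := finrank_span_eq_card hli
    have h2 : Set.range (fun e : Λ => φ e.1) = φ '' (Λ : Set ι) := by
      ext x
      constructor
      · rintro ⟨e, rfl⟩; exact ⟨e.1, e.2, rfl⟩
      · rintro ⟨e, he, rfl⟩; exact ⟨⟨e, he⟩, rfl⟩
    rw [h2] at h1
    rw [hΦ₀, h1, Fintype.card_coe]
  have hfW : Λ.card + Module.finrank K W = Fintype.card T := by
    have := Subspace.finrank_add_finrank_dualCoannihilator_eq (K := K) (V := T → K) Φ₀
    rw [hfr, Module.finrank_fintype_fun_eq_card] at this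
    exact this
  let m := Module.finrank K W
  let b : Module.Basis (Fin m) K W := Module.finBasis K W
  obtain ⟨g, hg⟩ := LinearMap.exists_leftInverse_of_injective W.subtype (Submodule.ker_subtype W)
  have hg' : ∀ w : W, g w.1 = w := fun w => DFunLike.congr_fun hg w
  let Φ : MvPolynomial T K →ₐ[K] MvPolynomial (Fin m) K :=
    aeval (fun k => ∑ j, ((b j).1 k) • X j)
  let Ψ : MvPolynomial (Fin m) K →ₐ[K] MvPolynomial T K :=
    aeval (fun j => ∑ k, (b.repr (g (Pi.single k 1)) j) • X k)
  have hΦX : ∀ k, Φ (X k) = ∑ j, ((b j).1 k) • X j := fun k => aeval_X _ _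
  have hΨX : ∀ j, Ψ (X j) = ∑ k, (b.repr (g (Pi.single k 1)) j) • X k := fun k => aeval_X _ _
  -- `Φ ∘ Ψ = id`
  have hΦΨ : ∀ x, Φ (Ψ x) = x := by
    intro x
    have : Φ.comp Ψ = AlgHom.id K _ := by
      apply MvPolynomial.algHom_ext
      intro j
      rw [AlgHom.comp_apply, hΨX, map_sum, AlgHom.id_apply]
      simp only [map_smul, hΦX, Finset.smul_sum, smul_smul]
      rw [Finset.sum_comm]
      have h1 : ∀ j' : Fin m, ∑ k : T, (b.repr (g (Pi.single k 1)) j * (b j').1 k) =
          if j' = j then (1 : K) else 0 := by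
        intro j'
        have h2 : (b j').1 = ∑ k : T, (b j').1 k • (Pi.single k (1 : K) : T → K) := by
          funext k
          rw [Finset.sum_apply, Finset.sum_eq_single k]
          · simp
          · intro k' _ h; simp [Pi.single_eq_of_ne h.symm]
          · intro h; exact absurd (Finset.mem_univ _) h
        have h3 := congrArg (fun v => b.repr (g v) j) h2
        simp only [hg', map_sum, map_smul, Module.Basis.repr_self, Finsupp.coe_finsetSum,
          Finset.sum_apply, Finsupp.smul_apply, smul_eq_mul, Finsupp.single_apply] at h3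
        rw [h3]
        apply Finset.sum_congr rfl
        intro k _
        ring
      have h4 : ∀ j' : Fin m, ∑ k : T, (b.repr (g (Pi.single k 1)) j * (b j').1 k) •
          (X j' : MvPolynomial (Fin m) K) = (if j' = j then (1 : K) else 0) • X j' := by
        intro j'
        rw [← Finset.sum_smul, h1]
      rw [Finset.sum_congr rfl (fun j' _ => h4 j'), Finset.sum_eq_single j]
      · rw [if_pos rfl, one_smul]
      · intro j' _ h; rw [if_neg h, zero_smul]
      · intro h; exact absurd (Finset.mem_univ _) h
    exact DFunLike.congr_fun this x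
  refine ⟨ctr K Φ ⟨⊥, Ideal.isPrime_bot⟩, fun p hp hdl => ?_⟩
  -- `v_k - Ψ (Φ v_k)` is in `p`
  have hmem : ∀ k, (X k : MvPolynomial T K) - Ψ (Φ (X k)) ∈ p.asIdeal := by
    intro k
    let lk : Module.Dual K (T → K) :=
      LinearMap.proj k - (LinearMap.proj k ∘ₗ W.subtype ∘ₗ g)
    have h1 : lk ∈ Φ₀ := by
      rw [← Subspace.dualCoannihilator_dualAnnihilator_eq (W := Φ₀), Submodule.mem_dualAnnihilator]
      intro w hw
      change w k - (g w).1 k = 0
      have := hg' ⟨w, hw⟩
      rw [this, sub_self]
    have h2 : LF T lk = X k - Ψ (Φ (X k)) := by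
      rw [LF_apply]
      have h3 : ∀ k', lk (Pi.single k' 1) = (if k' = k then (1 : K) else 0) -
          (g (Pi.single k' 1)).1 k := by
        intro k'
        change (Pi.single k' (1 : K) : T → K) k - (g (Pi.single k' 1)).1 k = _
        congr 1
        rw [Pi.single_apply]
        congr 1
        rw [eq_iff_iff]
        exact eq_comm
      simp only [h3, sub_smul, Finset.sum_sub_distrib]
      congr 1
      · rw [Finset.sum_eq_single k]
        · rw [if_pos rfl, one_smul]
        · intro k' _ h; rw [if_neg h, zero_smul]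
        · intro h; exact absurd (Finset.mem_univ _) h
      · rw [hΦX, map_sum]
        simp only [map_smul, hΨX, Finset.smul_sum, smul_smul]
        rw [Finset.sum_comm]
        apply Finset.sum_congr rfl
        intro k' _
        rw [← Finset.sum_smul]
        congr 1
        have h5 := b.sum_repr (g (Pi.single k' 1))
        have h6 := congrArg (fun w : W => w.1 k) h5
        simp only [Submodule.coe_sum, Submodule.coe_smul, Finset.sum_apply, Pi.smul_apply,
          smul_eq_mul] at h6
        rw [← h6]
        apply Finset.sum_congr rfl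
        intro j _
        ring
    rw [← h2]
    have h7 : Φ₀ ≤ Submodule.comap (LF T) (p.asIdeal.restrictScalars K) := by
      rw [hΦ₀, Submodule.span_le]
      rintro _ ⟨e, he, rfl⟩
      exact hp e he
    exact h7 h1
  have hle : ctr K Φ ⟨⊥, Ideal.isPrime_bot⟩ ≤ p := by
    intro x hx
    have hx0 : Φ x = 0 := hx
    have key : (Ideal.Quotient.mkₐ K p.asIdeal) =
        (Ideal.Quotient.mkₐ K p.asIdeal).comp (Ψ.comp Φ) := by
      apply MvPolynomial.algHom_ext
      intro k
      change Ideal.Quotient.mk p.asIdeal (X k) = Ideal.Quotient.mk p.asIdeal (Ψ (Φ (X k)))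
      rw [Ideal.Quotient.eq]
      exact hmem k
    have h2 : Ideal.Quotient.mk p.asIdeal x = Ideal.Quotient.mk p.asIdeal (Ψ (Φ x)) :=
      DFunLike.congr_fun key x
    rw [hx0, map_zero, map_zero] at h2
    exact Ideal.Quotient.eq_zero_iff_mem.1 h2
  symm
  refine eq_of_le_of_dl K hle ?_
  have h8 : dl K (ctr K Φ ⟨⊥, Ideal.isPrime_bot⟩) =
      dl K (⟨⊥, Ideal.isPrime_bot⟩ : PrimeSpectrum (MvPolynomial (Fin m) K)) := by
    apply dl_ctr_eq_of_frac
    intro x
    refine ⟨1, Ψ x, by rw [map_one, mul_one, hΦΨ], ?_⟩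
    rw [map_one]
    intro h
    rw [Ideal.mem_bot] at h
    exact one_ne_zero h
  have h9 : dl K (⟨⊥, Ideal.isPrime_bot⟩ : PrimeSpectrum (MvPolynomial (Fin m) K)) = m := by
    unfold dl
    rw [td_congr K (AlgEquiv.quotientBot K (MvPolynomial (Fin m) K))]
    unfold td
    rw [MvPolynomial.trdeg_of_isDomain]
    simp
  rw [h8, h9]
  omega

end

end Pool.Agent.Bloch
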