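import Pool.Agent.Bloch.Grade2

set_option linter.unusedSectionVars false

open MvPolynomial

namespace Pool.Agent.Bloch

section BHm
variable {K : Type} [Field K] {σ : Type} {β : Type}

theorem BH.mul {bl : σ → β} {l : β} {m n : ℕ} {f g : MvPolynomial σ K}
    (hf : BH bl l m f) (hg : BH bl l n g) : BH bl l (m + n) (f * g) := by
  classical
  intro x hx
  obtain ⟨y, hy, z, hz, rfl⟩ := Finset.mem_add.1 (MvPolynomial.support_mul f g hx)
  refine ⟨fun s hs => ?_, ?_⟩
  · rw [Finsupp.add_apply] at hs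
    by_cases h : y s = 0
    · exact (hg z hz).1 s (by omega)
    · exact (hf y hy).1 s h
  · rw [map_add, (hf y hy).2, (hg z hz).2]

theorem BH.one {bl : σ → β} {l : β} : BH bl l 0 (1 : MvPolynomial σ K) := by
  classical
  intro m hm
  rw [mem_support_iff] at hm
  have : m = 0 := by
    by_contra h
    apply hm
    rw [← C_1, coeff_C, if_neg (fun h' => h h'.symm)]
  subst this
  exact ⟨fun s hs => absurd rfl hs, map_zero _⟩

theorem BH.C' {bl : σ → β} {l : β} (c : K) : BH bl l 0 (C c : MvPolynomial σ K) := by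
  classical
  intro m hm
  rw [mem_support_iff] at hm
  have : m = 0 := by
    by_contra h
    apply hm
    rw [coeff_C, if_neg (fun h' => h h'.symm)]
  subst this
  exact ⟨fun s hs => absurd rfl hs, map_zero _⟩

theorem BH.X' {bl : σ → β} {l : β} {s : σ} (hs : bl s = l) :
    BH bl l 1 (X s : MvPolynomial σ K) := by
  classical
  intro m hm
  rw [mem_support_iff, coeff_X] at hm
  split_ifs at hm with h
  · subst h
    refine ⟨fun s' hs' => ?_, by rw [Finsupp.degree_single]⟩
    rw [Finsupp.single_apply] at hs'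
    split_ifs at hs' with h2
    · rw [← h2]; exact hs
    · exact absurd rfl hs'
  · exact absurd rfl hm

theorem BH.add {bl : σ → β} {l : β} {n : ℕ} {f g : MvPolynomial σ K}
    (hf : BH bl l n f) (hg : BH bl l n g) : BH bl l n (f + g) := by
  classical
  intro m hm
  rcases Finset.mem_union.1 (MvPolynomial.support_add hm) with h | h
  · exact hf m h
  · exact hg m h

theorem BH.zero {bl : σ → β} {l : β} {n : ℕ} : BH bl l n (0 : MvPolynomial σ K) := by
  intro m hm
  rw [support_zero] at hm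
  exact absurd hm (Finset.notMem_empty _)

end BHm

section gr
variable {K : Type} [Field K] {κ : Type} [Field κ] [Algebra K κ] [Algebra.EssFiniteType K κ]
variable {σ τ : Type} [Finite σ] [Finite τ]

theorem gr_aeval (y : σ → MvPolynomial τ κ) (hy : ∀ s, (y s).IsHomogeneous 1) :
    Gr (aeval y : MvPolynomial σ K →ₐ[K] MvPolynomial τ κ) := by
  intro f n hf
  have := hf.aeval y hy
  rwa [one_mul] at this

end gr

section loc
variable {K : Type} [Field K] {σ : Type} [Finite σ] {T : Type} (β : σ → T) (k₀ : T) (s₀ : σ)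

/-- the variables after the block has been replaced by one of its variables -/
abbrev Tau : Type := {s : σ // β s = k₀ → s = s₀}

/-- the distinguished variable -/
def tau0 : Tau β k₀ s₀ := ⟨s₀, fun _ => rfl⟩

variable {κ : Type} [Field κ] [Algebra K κ] (α : σ → κ)

/-- the images of the variables -/
noncomputable def yy (s : σ) : MvPolynomial (Tau β k₀ s₀) κ :=
  open Classical in
  if h : β s = k₀ → s = s₀ then X ⟨s, h⟩ else C (α s) * X (tau0 β k₀ s₀)

/-- the homomorphism to the generic fibre -/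
noncomputable def th (K : Type) [Field K] [Algebra K κ] :
    MvPolynomial σ K →ₐ[K] MvPolynomial (Tau β k₀ s₀) κ :=
  aeval (yy β k₀ s₀ α)

variable {β k₀ s₀ α}

theorem yy_tau (s : Tau β k₀ s₀) : yy β k₀ s₀ α s.1 = X s := by
  unfold yy
  rw [dif_pos s.2]

theorem yy_block (hα : α s₀ = 1) {s : σ} (hs : β s = k₀) :
    yy β k₀ s₀ α s = X (tau0 β k₀ s₀) * C (α s) := by
  unfold yy
  split_ifs with h
  · have h1 := h hs
    subst h1
    rw [hα, map_one, mul_one]
    rfl
  · rw [mul_comm]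

theorem yy_off {s : σ} (hs : β s ≠ k₀) :
    yy β k₀ s₀ α s = X ⟨s, fun h => absurd h hs⟩ := by
  unfold yy
  rw [dif_pos (fun h => absurd h hs)]

theorem yy_homog (s : σ) : (yy β k₀ s₀ α s).IsHomogeneous 1 := by
  unfold yy
  split_ifs with h
  · exact isHomogeneous_X _ _
  · have := (isHomogeneous_C (Tau β k₀ s₀) (α s)).mul (isHomogeneous_X κ (tau0 β k₀ s₀))
    rwa [zero_add] at this

theorem th_gr [Algebra.EssFiniteType K κ] : Gr (th β k₀ s₀ α K) := gr_aeval _ yy_homog

theorem th_block (hα : α s₀ = 1) {n : ℕ} {f : MvPolynomial σ K} (hf : BH β k₀ n f) :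
    th β k₀ s₀ α K f = X (tau0 β k₀ s₀) ^ n * C (aeval α f) := by
  unfold th
  rw [BH.aeval_eq hf (yy β k₀ s₀ α) (fun s => C (α s)) (X (tau0 β k₀ s₀))
    (fun s hs => yy_block hα hs)]
  congr 1
  have h1 : (aeval (fun s => (C (α s) : MvPolynomial (Tau β k₀ s₀) κ)) :
      MvPolynomial σ K →ₐ[K] MvPolynomial (Tau β k₀ s₀) κ) =
      (IsScalarTower.toAlgHom K κ (MvPolynomial (Tau β k₀ s₀) κ)).comp (aeval α) := by
    apply MvPolynomial.algHom_ext
    intro s
    rw [aeval_X, AlgHom.comp_apply, aeval_X]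
    rfl
  rw [h1]
  rfl

/-- the denominators -/
def locS (β : σ → T) (k₀ : T) (V : PrimeSpectrum (MvPolynomial σ K)) :
    Submonoid (MvPolynomial σ K) where
  carrier := {u | (∃ n, BH β k₀ n u) ∧ u ∉ V.asIdeal}
  one_mem' := ⟨⟨0, BH.one⟩, fun h => V.2.ne_top ((Ideal.eq_top_iff_one _).2 h)⟩
  mul_mem' := by
    rintro u v ⟨⟨m, hm⟩, hu⟩ ⟨⟨n, hn⟩, hv⟩
    exact ⟨⟨m + n, hm.mul hn⟩, fun h => (V.2.mem_or_mem h).elim hu hv⟩

theorem locS_hom (V : PrimeSpectrum (MvPolynomial σ K)) :
    ∀ u ∈ locS β k₀ V, ∃ n, u.IsHomogeneous n := by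
  rintro u ⟨⟨n, hn⟩, _⟩
  exact ⟨n, hn.isHomogeneous⟩

/-- every element of the field is a quotient of forms of the same degree -/
def Gen0 (β : σ → T) (k₀ : T) (α : σ → κ) (K : Type) [Field K] [Algebra K κ] : Prop :=
  ∀ c : κ, ∃ (n : ℕ) (u a : MvPolynomial σ K), BH β k₀ n u ∧ BH β k₀ n a ∧ aeval α u ≠ 0 ∧
    c * aeval α u = aeval α a

theorem th_frac (hα : α s₀ = 1) (hβ : β s₀ = k₀) (hg : Gen0 β k₀ α K)
    {V : PrimeSpectrum (MvPolynomial σ K)}
    (hV : ∀ (u : MvPolynomial σ K) (n : ℕ), BH β k₀ n u → aeval α u ≠ 0 → u ∉ V.asIdeal) :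
    Frac K (th β k₀ s₀ α K) (locS β k₀ V) := by
  intro t
  induction t using MvPolynomial.induction_on with
  | C c =>
    obtain ⟨n, u, a, hu, ha, h1, h2⟩ := hg c
    refine ⟨u, ⟨⟨n, hu⟩, hV u n hu h1⟩, a, ?_⟩
    rw [th_block hα hu, th_block hα ha, ← h2, map_mul]
    ring
  | add p q hp hq =>
    obtain ⟨u, hu, a, h1⟩ := hp
    obtain ⟨v, hv, b, h2⟩ := hq
    refine ⟨u * v, (locS β k₀ V).mul_mem hu hv, a * v + b * u, ?_⟩
    rw [map_mul, map_add, map_mul, map_mul, ← h1, ← h2]; ring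
  | mul_X p s hp =>
    obtain ⟨u, hu, a, h1⟩ := hp
    refine ⟨u, hu, a * X s.1, ?_⟩
    have : th β k₀ s₀ α K (X s.1) = X s := by
      unfold th
      rw [aeval_X, yy_tau]
    rw [map_mul, this, ← h1]; ring

theorem th_uset (hα : α s₀ = 1) (hβ : β s₀ = k₀) {V : PrimeSpectrum (MvPolynomial σ K)}
    {V' : PrimeSpectrum (MvPolynomial (Tau β k₀ s₀) κ)} (h : ctr K (th β k₀ s₀ α K) V' = V) :
    V' ∈ Uset K (th β k₀ s₀ α K) (locS β k₀ V) := by
  rintro u ⟨_, hu⟩ h1
  apply hu
  rw [← h]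
  exact h1

/-- a prime is in the open set if it does not contain the distinguished variable -/
theorem th_uset' (hα : α s₀ = 1) {V : PrimeSpectrum (MvPolynomial σ K)}
    (hV : ∀ (u : MvPolynomial σ K) (n : ℕ), BH β k₀ n u → u ∉ V.asIdeal → aeval α u ≠ 0)
    (V' : PrimeSpectrum (MvPolynomial (Tau β k₀ s₀) κ)) (h : X (tau0 β k₀ s₀) ∉ V'.asIdeal) :
    V' ∈ Uset K (th β k₀ s₀ α K) (locS β k₀ V) := by
  rintro u ⟨⟨n, hn⟩, hu⟩ h1
  rw [th_block hα hn] at h1
  rcases V'.2.mem_or_mem h1 with h2 | h2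
  · exact h (V'.2.mem_of_pow_mem _ h2)
  · have h3 := hV u n hn hu
    apply V'.2.ne_top
    exact Ideal.eq_top_of_isUnit_mem _ h2 ((IsUnit.mk0 _ h3).map C)

theorem th_uset_iff (hα : α s₀ = 1) (hβ : β s₀ = k₀) {V : PrimeSpectrum (MvPolynomial σ K)}
    (hV : ∀ (u : MvPolynomial σ K) (n : ℕ), BH β k₀ n u → u ∉ V.asIdeal → aeval α u ≠ 0)
    (h0 : X s₀ ∉ V.asIdeal)
    (V' : PrimeSpectrum (MvPolynomial (Tau β k₀ s₀) κ)) :
    V' ∈ Uset K (th β k₀ s₀ α K) (locS β k₀ V) ↔ X (tau0 β k₀ s₀) ∉ V'.asIdeal := by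
  refine ⟨fun h h1 => ?_, th_uset' hα hV V'⟩
  refine h (X s₀) ⟨⟨1, BH.X' hβ⟩, h0⟩ ?_
  unfold th
  rw [aeval_X]
  have := yy_tau (α := α) (tau0 β k₀ s₀)
  have h2 : yy β k₀ s₀ α s₀ = X (tau0 β k₀ s₀) := this
  rw [h2]
  exact h1

end loc

section ex
variable {K : Type} [Field K] {σ : Type} [Fintype σ] {T : Type} (β : σ → T) (k₀ : T) (s₀ : σ)

/-- The generic point of the projection of a subvariety to a block. -/
theorem exists_loc (hβ : β s₀ = k₀) (V : PrimeSpectrum (MvPolynomial σ K))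
    (hs : X s₀ ∉ V.asIdeal) :
    ∃ (κ : Type) (_ : Field κ) (_ : Algebra K κ) (_ : Algebra.EssFiniteType K κ) (α : σ → κ),
      α s₀ = 1 ∧ (∀ (u : MvPolynomial σ K) (n : ℕ), BH β k₀ n u →
        (u ∈ V.asIdeal ↔ aeval α u = 0)) ∧ Gen0 β k₀ α K ∧
      ∃ V' : PrimeSpectrum (MvPolynomial (Tau β k₀ s₀) κ), ctr K (th β k₀ s₀ α K) V' = V ∧
        X (tau0 β k₀ s₀) ∉ V'.asIdeal := by
  classical
  let L := Kap V
  let x : σ → L := fun s => toKap V (X s)
  have hx0 : x s₀ ≠ 0 := by
    intro h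
    exact hs ((toKap_eq_zero V _).1 h)
  let ρ : σ → L := fun s => if β s = k₀ then x s / x s₀ else 0
  let κ : IntermediateField K L := IntermediateField.adjoin K (Set.range ρ)
  let α : σ → κ := fun s => ⟨ρ s, IntermediateField.subset_adjoin K _ ⟨s, rfl⟩⟩
  have hαρ : ∀ u : MvPolynomial σ K, ((aeval α u : κ) : L) = aeval ρ u := by
    intro u
    have h1 : (κ.val.comp (aeval α) : MvPolynomial σ K →ₐ[K] L) = aeval ρ := by
      apply MvPolynomial.algHom_ext
      intro s
      rw [AlgHom.comp_apply, aeval_X, aeval_X]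
      rfl
    rw [← h1]
    rfl
  have hbl : ∀ (u : MvPolynomial σ K) (n : ℕ), BH β k₀ n u → toKap V u = x s₀ ^ n * aeval ρ u := by
    intro u n hu
    have h1 : toKap V u = aeval x u := by
      have h2 : (aeval x : MvPolynomial σ K →ₐ[K] L) = toKapA K V := by
        apply MvPolynomial.algHom_ext
        intro s
        rw [aeval_X]
        rfl
      rw [h2]
      rfl
    rw [h1]
    apply BH.aeval_eq hu
    intro s hs
    simp only [ρ, if_pos hs]
    field_simp
  have hmem : ∀ (u : MvPolynomial σ K) (n : ℕ), BH β k₀ n u →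
      (u ∈ V.asIdeal ↔ aeval α u = 0) := by
    intro u n hu
    rw [← toKap_eq_zero V u, hbl u n hu, mul_eq_zero, or_iff_right (pow_ne_zero n hx0), ← hαρ]
    exact ZeroMemClass.coe_eq_zero
  have hα1 : α s₀ = 1 := by
    apply Subtype.ext
    change ρ s₀ = 1
    simp only [ρ, if_pos hβ]
    exact div_self hx0
  refine ⟨κ, inferInstance, inferInstance, ?_, α, hα1, hmem, ?_, ?_⟩
  · rw [IntermediateField.essFiniteType_iff]
    exact IntermediateField.fg_adjoin_of_finite (Set.finite_range ρ)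
  · -- generation
    have key : ∀ c ∈ IntermediateField.adjoin K (Set.range ρ), ∃ (n : ℕ)
        (u a : MvPolynomial σ K), BH β k₀ n u ∧ BH β k₀ n a ∧ aeval ρ u ≠ 0 ∧
        c * aeval ρ u = aeval ρ a := by
      intro c hc
      induction hc using IntermediateField.adjoin_induction with
      | mem c hc =>
        obtain ⟨s, rfl⟩ := hc
        by_cases hs : β s = k₀
        · refine ⟨1, X s₀, X s, BH.X' hβ, BH.X' hs, ?_, ?_⟩
          · rw [aeval_X]
            simp only [ρ, if_pos hβ]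
            rw [div_self hx0]
            exact one_ne_zero
          · rw [aeval_X, aeval_X]
            have : ρ s₀ = 1 := by simp only [ρ, if_pos hβ]; exact div_self hx0
            rw [this, mul_one]
        · refine ⟨0, 1, 0, BH.one, BH.zero, by rw [map_one]; exact one_ne_zero, ?_⟩
          simp only [ρ, if_neg hs]
          rw [zero_mul, map_zero]
      | algebraMap c =>
        exact ⟨0, 1, C c, BH.one, BH.C' c, by rw [map_one]; exact one_ne_zero, by
          rw [map_one, mul_one, aeval_C]⟩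
      | add c c' _ _ hc hc' =>
        obtain ⟨n, u, a, h1, h2, h3, h4⟩ := hc
        obtain ⟨n', u', a', h1', h2', h3', h4'⟩ := hc'
        refine ⟨n + n', u * u', a * u' + a' * u, h1.mul h1', (h2.mul h1').add ?_, ?_, ?_⟩
        · rw [add_comm n n']
          exact h2'.mul h1
        · rw [map_mul]; exact mul_ne_zero h3 h3'
        · rw [map_mul, map_add, map_mul, map_mul, ← h4, ← h4']; ring
      | inv c _ hc =>
        obtain ⟨n, u, a, h1, h2, h3, h4⟩ := hc
        by_cases h0 : c = 0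
        · refine ⟨0, 1, 0, BH.one, BH.zero, by rw [map_one]; exact one_ne_zero, ?_⟩
          rw [h0, inv_zero, zero_mul, map_zero]
        · refine ⟨n, a, u, h2, h1, ?_, ?_⟩
          · rw [← h4]; exact mul_ne_zero h0 h3
          · rw [← h4, ← mul_assoc, inv_mul_cancel₀ h0, one_mul]
      | mul c c' _ _ hc hc' =>
        obtain ⟨n, u, a, h1, h2, h3, h4⟩ := hc
        obtain ⟨n', u', a', h1', h2', h3', h4'⟩ := hc'
        refine ⟨n + n', u * u', a * a', h1.mul h1', h2.mul h2', ?_, ?_⟩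
        · rw [map_mul]; exact mul_ne_zero h3 h3'
        · rw [map_mul, map_mul, ← h4, ← h4']; ring
    intro c
    obtain ⟨n, u, a, h1, h2, h3, h4⟩ := key c.1 c.2
    refine ⟨n, u, a, h1, h2, ?_, ?_⟩
    · intro h
      apply h3
      rw [← hαρ, h]
      rfl
    · apply Subtype.ext
      change (c : L) * ((aeval α u : κ) : L) = ((aeval α a : κ) : L)
      rw [hαρ, hαρ]
      exact h4
  · -- the point
    let ψ : MvPolynomial (Tau β k₀ s₀) κ →ₐ[κ] L := aeval (fun s => x s.1)
    refine ⟨⟨RingHom.ker (ψ : MvPolynomial (Tau β k₀ s₀) κ →+* L), RingHom.ker_isPrime _⟩, ?_, ?_⟩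
    · have hcomp : ∀ f : MvPolynomial σ K, ψ (th β k₀ s₀ α K f) = toKap V f := by
        intro f
        have h1 : ((ψ.restrictScalars K).comp (th β k₀ s₀ α K) : MvPolynomial σ K →ₐ[K] L) =
            toKapA K V := by
          apply MvPolynomial.algHom_ext
          intro s
          rw [AlgHom.comp_apply]
          change ψ (th β k₀ s₀ α K (X s)) = x s
          have h2 : th β k₀ s₀ α K (X s) = yy β k₀ s₀ α s := by
            unfold th
            rw [aeval_X]
          rw [h2]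
          by_cases hs : β s = k₀
          · rw [yy_block hα1 hs, map_mul]
            change ψ (X _) * ψ (C _) = _
            rw [aeval_X, aeval_C]
            change x s₀ * ρ s = x s
            have h3 : ρ s = x s / x s₀ := if_pos hs
            rw [h3, div_eq_mul_inv, mul_comm, mul_assoc, inv_mul_cancel₀ hx0, mul_one]
          · rw [yy_off hs, aeval_X]
        exact DFunLike.congr_fun h1 f
      apply PrimeSpectrum.ext
      ext f
      rw [mem_ctr]
      change ψ (th β k₀ s₀ α K f) = 0 ↔ _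
      rw [hcomp, toKap_eq_zero]
    · intro h
      have h1 : ψ (X (tau0 β k₀ s₀)) = 0 := h
      rw [aeval_X] at h1
      exact hx0 h1

end ex

end Pool.Agent.Bloch
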