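import Pool.Agent.Bloch.Rel

set_option linter.unusedSectionVars false

namespace Pool.Agent.Bloch

section length
variable {A B : Type} [CommRing A] [CommRing B]

theorem length_quot_comap (σ : A →+* B) (hσ : Function.Surjective σ) (J : Ideal B) :
    Module.length A (A ⧸ J.comap σ) = Module.length B (B ⧸ J) := by
  letI : Algebra A B := σ.toAlgebra
  have h1 : Module.length A (B ⧸ J) = Module.length B (B ⧸ J) :=
    Module.length_eq_of_surjective hσ
  rw [← h1]
  let f : A →ₗ[A] (B ⧸ J) := (J.mkQ.restrictScalars A) ∘ₗ (Algebra.linearMap A B)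
  have hf : Function.Surjective f := by
    intro x
    obtain ⟨y, rfl⟩ := Submodule.mkQ_surjective _ x
    obtain ⟨a, rfl⟩ := hσ y
    exact ⟨a, rfl⟩
  have hk : LinearMap.ker f = J.comap σ := by
    ext a
    rw [LinearMap.mem_ker]
    change (Submodule.Quotient.mk (σ a) : B ⧸ J) = 0 ↔ _
    rw [Submodule.Quotient.mk_eq_zero]
    exact Iff.rfl
  exact ((Submodule.quotEquivOfEq _ _ hk.symm).trans (f.quotKerEquivOfSurjective hf)).length_eq

/-- the ideal generated by `I` in the local ring at `p` -/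
noncomputable def locId (p : PrimeSpectrum A) (I : Ideal A) :
    Ideal (Localization.AtPrime p.asIdeal) :=
  LinearMap.ker (LinearMap.toSpanSingleton (Localization.AtPrime p.asIdeal)
    (LocalizedModule p.asIdeal.primeCompl (A ⧸ I)) (LocalizedModule.mk (Ideal.Quotient.mk I 1) 1))

theorem mk_mem_locId (p : PrimeSpectrum A) (I : Ideal A) (x : A) (s : p.asIdeal.primeCompl) :
    Localization.mk x s ∈ locId p I ↔ ∃ c ∉ p.asIdeal, c * x ∈ I := by
  unfold locId
  rw [LinearMap.mem_ker, LinearMap.toSpanSingleton_apply, LocalizedModule.mk_smul_mk,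
    ← LocalizedModule.zero_mk (s * 1), LocalizedModule.mk_eq]
  constructor
  · rintro ⟨u, hu⟩
    refine ⟨u * (s * 1 : p.asIdeal.primeCompl), ?_, ?_⟩
    · exact (u * (s * 1)).2
    · rw [smul_zero, smul_zero] at hu
      have : Ideal.Quotient.mk I (u * ((s * 1 : p.asIdeal.primeCompl) * (x * 1))) = 0 := hu
      rw [Ideal.Quotient.eq_zero_iff_mem] at this
      simpa [mul_assoc] using this
  · rintro ⟨c, hc, hcx⟩
    refine ⟨⟨c, hc⟩, ?_⟩
    rw [smul_zero, smul_zero]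
    have : Ideal.Quotient.mk I (c * ((s * 1 : p.asIdeal.primeCompl) * (x * 1))) = 0 := by
      rw [Ideal.Quotient.eq_zero_iff_mem]
      have h2 : c * ((s * 1 : p.asIdeal.primeCompl) * (x * 1))
          = ((s * 1 : p.asIdeal.primeCompl) : A) * (c * x) := by ring
      rw [h2]
      exact Ideal.mul_mem_left _ _ hcx
    exact this

theorem len_eq_locId (p : PrimeSpectrum A) (I : Ideal A) :
    len p (A ⧸ I) = Module.length (Localization.AtPrime p.asIdeal)
      (Localization.AtPrime p.asIdeal ⧸ locId p I) := by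
  unfold len
  symm
  refine (LinearMap.quotKerEquivOfSurjective _ ?_).length_eq
  intro y
  induction y using LocalizedModule.induction_on with
  | _ b t =>
  obtain ⟨b, rfl⟩ := Ideal.Quotient.mk_surjective b
  refine ⟨Localization.mk b t, ?_⟩
  rw [LinearMap.toSpanSingleton_apply, LocalizedModule.mk_smul_mk, mul_one,
    ← Ideal.Quotient.mk_eq_mk, ← Ideal.Quotient.mk_eq_mk, ← Submodule.Quotient.mk_smul,
    smul_eq_mul, mul_one]

theorem len_quot_congr (p : PrimeSpectrum A) {I₁ I₂ : Ideal A} (hle : I₁ ≤ I₂)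
    (h : ∀ x ∈ I₂, ∃ s ∉ p.asIdeal, s * x ∈ I₁) : len p (A ⧸ I₁) = len p (A ⧸ I₂) := by
  let f : (A ⧸ I₁) →ₗ[A] (A ⧸ I₂) := Submodule.factor hle
  have h1 := len_exact p (LinearMap.ker f).subtype f (Submodule.injective_subtype _)
    (Submodule.factor_surjective hle) (LinearMap.exact_subtype_ker_map f)
  have h2 : len p (LinearMap.ker f) = 0 := by
    rw [len_eq_zero_iff, Module.notMem_support_iff']
    rintro ⟨m, hm⟩
    obtain ⟨m, rfl⟩ := Submodule.Quotient.mk_surjective _ m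
    have hm' : (Submodule.Quotient.mk m : A ⧸ I₂) = 0 := hm
    rw [Submodule.Quotient.mk_eq_zero] at hm'
    obtain ⟨s, hs, hsx⟩ := h m hm'
    refine ⟨s, hs, ?_⟩
    apply Subtype.ext
    change s • (Submodule.Quotient.mk m : A ⧸ I₁) = 0
    rw [← Submodule.Quotient.mk_smul, Submodule.Quotient.mk_eq_zero]
    exact hsx
  rw [h1, h2, zero_add]

end length

variable (K : Type) [Field K] (𝕜 : Type) [Field 𝕜] [CharZero 𝕜]

section
variable {P T : Type} [CommRing P] [Algebra K P] [CommRing T] [Algebra K T]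
variable (θ : P →ₐ[K] T) (S : Submonoid P)

/-- every element of `T` is a fraction with denominator in `S` -/
def Frac : Prop := ∀ t : T, ∃ u ∈ S, ∃ a : P, t * θ u = θ a

/-- the primes of `T` avoiding `S` -/
def Uset : Set (PrimeSpectrum T) := {Q | ∀ u ∈ S, θ u ∉ Q.asIdeal}

variable {K θ S}

theorem uset_mono {Q Q' : PrimeSpectrum T} (h : Q ≤ Q') (h' : Q' ∈ Uset K θ S) :
    Q ∈ Uset K θ S := fun u hu hq => h' u hu (h hq)

theorem dl_uset (hF : Frac K θ S) {Q : PrimeSpectrum T} (hQ : Q ∈ Uset K θ S) :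
    dl K (ctr K θ Q) = dl K Q := by
  apply dl_ctr_eq_of_frac
  intro b
  obtain ⟨u, hu, a, h⟩ := hF b
  exact ⟨u, a, h, hQ u hu⟩

theorem le_of_ctr_le (hF : Frac K θ S) {Q Q' : PrimeSpectrum T} (hQ' : Q' ∈ Uset K θ S)
    (h : ctr K θ Q ≤ ctr K θ Q') : Q ≤ Q' := by
  intro t ht
  obtain ⟨u, hu, a, h1⟩ := hF t
  have h2 : a ∈ (ctr K θ Q).asIdeal := by
    rw [mem_ctr, ← h1]
    exact Ideal.mul_mem_right _ _ ht
  have h3 := h h2
  rw [mem_ctr, ← h1] at h3
  exact (Q'.2.mem_or_mem h3).resolve_right (hQ' u hu)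

theorem ctr_inj (hF : Frac K θ S) {Q Q' : PrimeSpectrum T} (hQ : Q ∈ Uset K θ S)
    (hQ' : Q' ∈ Uset K θ S) (h : ctr K θ Q = ctr K θ Q') : Q = Q' :=
  le_antisymm (le_of_ctr_le hF hQ' h.le) (le_of_ctr_le hF hQ h.ge)

/-- existence of primes of `T` over primes of `P` avoiding `S` -/
theorem exists_uset (hF : Frac K θ S) (p : PrimeSpectrum P) (hker : ∀ x, θ x = 0 → x ∈ p.asIdeal)
    (hS : ∀ u ∈ S, u ∉ p.asIdeal) : ∃ Q ∈ Uset K θ S, ctr K θ Q = p := by
  have indep : ∀ (t : T) (u a u' a' : P), u ∈ S → u' ∈ S → t * θ u = θ a → t * θ u' = θ a' →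
      a ∈ p.asIdeal → a' ∈ p.asIdeal := by
    intro t u a u' a' hu hu' h h' ha
    have h1 : θ (a * u' - a' * u) = 0 := by
      rw [map_sub, map_mul, map_mul, ← h, ← h']; ring
    have h2 := hker _ h1
    have h3 : a' * u ∈ p.asIdeal := by
      have : a' * u = a * u' - (a * u' - a' * u) := by ring
      rw [this]
      exact Ideal.sub_mem _ (Ideal.mul_mem_right _ _ ha) h2
    exact (p.2.mem_or_mem h3).resolve_right (hS u hu)
  let J : Ideal T :=
    { carrier := {t | ∃ u ∈ S, ∃ a ∈ p.asIdeal, t * θ u = θ a}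
      add_mem' := by
        rintro t t' ⟨u, hu, a, ha, h⟩ ⟨u', hu', a', ha', h'⟩
        refine ⟨u * u', S.mul_mem hu hu', a * u' + a' * u,
          Ideal.add_mem _ (Ideal.mul_mem_right _ _ ha) (Ideal.mul_mem_right _ _ ha'), ?_⟩
        rw [map_mul, map_add, map_mul, map_mul, ← h, ← h']; ring
      zero_mem' := ⟨1, S.one_mem, 0, Ideal.zero_mem _, by simp⟩
      smul_mem' := by
        rintro c t ⟨u, hu, a, ha, h⟩
        obtain ⟨v, hv, b, hb⟩ := hF c
        refine ⟨v * u, S.mul_mem hv hu, b * a, Ideal.mul_mem_left _ _ ha, ?_⟩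
        rw [map_mul, map_mul, ← h, ← hb, smul_eq_mul]; ring }
  have memJ : ∀ (t : T) (u a : P), u ∈ S → t * θ u = θ a → (t ∈ J ↔ a ∈ p.asIdeal) := by
    intro t u a hu h
    constructor
    · rintro ⟨u', hu', a', ha', h'⟩
      exact indep t u' a' u a hu' hu h' h ha'
    · intro ha
      exact ⟨u, hu, a, ha, h⟩
  have hJp : J.IsPrime := by
    refine ⟨?_, ?_⟩
    · rw [Ideal.ne_top_iff_one, memJ 1 1 1 S.one_mem (by simp)]
      intro h
      exact p.2.ne_top ((Ideal.eq_top_iff_one _).2 h)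
    · intro x y hxy
      obtain ⟨u, hu, a, h1⟩ := hF x
      obtain ⟨v, hv, b, h2⟩ := hF y
      rw [memJ x u a hu h1, memJ y v b hv h2]
      rw [memJ (x * y) (u * v) (a * b) (S.mul_mem hu hv)
        (by rw [map_mul, map_mul, ← h1, ← h2]; ring)] at hxy
      exact p.2.mem_or_mem hxy
  refine ⟨⟨J, hJp⟩, ?_, ?_⟩
  · intro u hu h
    have h' : θ u ∈ J := h
    rw [memJ (θ u) 1 u S.one_mem (by simp)] at h'
    exact hS u hu h'
  · apply PrimeSpectrum.ext
    ext x
    rw [mem_ctr]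
    exact memJ (θ x) 1 x S.one_mem (by simp)

/-- Comparison of multiplicities. -/
theorem len_uset (hF : Frac K θ S) {Q : PrimeSpectrum T} (hQ : Q ∈ Uset K θ S) (J : Ideal T) :
    len Q (T ⧸ J) = len (ctr K θ Q) (P ⧸ J.comap (θ : P →+* T)) := by
  rw [len_eq_locId, len_eq_locId]
  let σ := Localization.localRingHom (ctr K θ Q).asIdeal Q.asIdeal (θ : P →+* T) rfl
  have hσ : Function.Surjective σ := by
    intro y
    induction y using Localization.induction_on with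
    | _ y =>
    obtain ⟨b, s⟩ := y
    obtain ⟨u, hu, a, h1⟩ := hF b
    obtain ⟨v, hv, c, h2⟩ := hF s
    have hc : c * u ∉ (ctr K θ Q).asIdeal := by
      rw [mem_ctr, map_mul, ← h2]
      intro h
      rcases Q.2.mem_or_mem h with h | h
      · rcases Q.2.mem_or_mem h with h | h
        · exact s.2 h
        · exact hQ v hv h
      · exact hQ u hu h
    refine ⟨Localization.mk (a * v) ⟨c * u, hc⟩, ?_⟩
    change Localization.localRingHom _ _ _ _ _ = _
    rw [Localization.localRingHom_mk, Localization.mk_eq_mk_iff, Localization.r_iff_exists]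
    refine ⟨1, ?_⟩
    change ((1 : Q.asIdeal.primeCompl) : T) * ((s : T) * θ (a * v))
      = ((1 : Q.asIdeal.primeCompl) : T) * (θ (c * u) * b)
    rw [map_mul, map_mul, ← h1, ← h2]
    ring
  rw [← length_quot_comap σ hσ]
  have : (locId Q J).comap σ = locId (ctr K θ Q) (J.comap (θ : P →+* T)) := by
    ext x
    induction x using Localization.induction_on with
    | _ x =>
    obtain ⟨x, s⟩ := x
    rw [mk_mem_locId, Ideal.mem_comap]
    change Localization.localRingHom _ _ _ _ _ ∈ _ ↔ _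
    rw [Localization.localRingHom_mk, mk_mem_locId]
    constructor
    · rintro ⟨c, hc, hcx⟩
      obtain ⟨u, hu, a, h1⟩ := hF c
      refine ⟨a, ?_, ?_⟩
      · rw [mem_ctr, ← h1]
        intro h
        rcases Q.2.mem_or_mem h with h | h
        · exact hc h
        · exact hQ u hu h
      · rw [Ideal.mem_comap, map_mul]
        change θ a * θ x ∈ J
        rw [← h1]
        have h2 : c * θ u * θ x = θ u * (c * θ x) := by ring
        rw [h2]
        exact Ideal.mul_mem_left _ _ hcx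
    · rintro ⟨c, hc, hcx⟩
      refine ⟨θ c, hc, ?_⟩
      rw [Ideal.mem_comap, map_mul] at hcx
      exact hcx
  rw [this]

theorem len_uset_div (hF : Frac K θ S) {Q Q₀ : PrimeSpectrum T} (hQ : Q ∈ Uset K θ S)
    {t : T} {u a : P} (hu : u ∈ S) (h : t * θ u = θ a) :
    len Q (T ⧸ (Q₀.asIdeal ⊔ Ideal.span {t})) =
      len (ctr K θ Q) (P ⧸ ((ctr K θ Q₀).asIdeal ⊔ Ideal.span {a})) := by
  rw [len_uset hF hQ]
  symm
  have hSQ : ∀ u ∈ S, u ∉ (ctr K θ Q).asIdeal := fun u hu => hQ u hu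
  apply len_quot_congr
  · rw [sup_le_iff]
    refine ⟨fun x hx => ?_, ?_⟩
    · rw [Ideal.mem_comap]
      exact Ideal.mem_sup_left hx
    · rw [Ideal.span_singleton_le_iff_mem, Ideal.mem_comap]
      change θ a ∈ _
      rw [← h]
      exact Ideal.mem_sup_right (Ideal.mul_mem_right _ _ (Ideal.mem_span_singleton_self t))
  · intro x hx
    rw [Ideal.mem_comap] at hx
    obtain ⟨y, hy, z, hz, hyz⟩ := Submodule.mem_sup.1 hx
    obtain ⟨c, rfl⟩ := Ideal.mem_span_singleton'.1 hz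
    obtain ⟨u₁, hu₁, y₁, h1⟩ := hF y
    obtain ⟨u₂, hu₂, c₂, h2⟩ := hF c
    refine ⟨u₁ * u₂ * u, hSQ _ (S.mul_mem (S.mul_mem hu₁ hu₂) hu), ?_⟩
    have h3 : θ (u₁ * u₂ * u * x - (y₁ * u₂ * u + a * c₂ * u₁)) = 0 := by
      simp only [map_sub, map_mul, map_add]
      have hx' : θ x = y + c * t := hyz.symm
      rw [← h1, ← h2, ← h, hx']
      ring
    have h4 : u₁ * u₂ * u * x - (y₁ * u₂ * u + a * c₂ * u₁) ∈ (ctr K θ Q₀).asIdeal := by
      rw [mem_ctr, h3]
      exact Ideal.zero_mem _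
    have h5 : y₁ ∈ (ctr K θ Q₀).asIdeal := by
      rw [mem_ctr, ← h1]
      exact Ideal.mul_mem_right _ _ hy
    have h6 : u₁ * u₂ * u * x = (u₁ * u₂ * u * x - (y₁ * u₂ * u + a * c₂ * u₁))
      + (y₁ * u₂ * u + a * c₂ * u₁) := by ring
    rw [h6]
    refine Ideal.add_mem _ (Ideal.mem_sup_left h4) (Ideal.add_mem _ (Ideal.mem_sup_left ?_)
      (Ideal.mem_sup_right ?_))
    · exact Ideal.mul_mem_right _ _ (Ideal.mul_mem_right _ _ h5)
    · exact Ideal.mul_mem_right _ _ (Ideal.mul_mem_right _ _ (Ideal.mem_span_singleton_self a))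

end

section push
variable {P T : Type} [CommRing P] [Algebra K P] [CommRing T] [Algebra K T]
variable [Algebra.EssFiniteType K P] [IsNoetherianRing P] [Algebra.EssFiniteType K T]
  [IsNoetherianRing T]
variable (θ : P →ₐ[K] T) (S : Submonoid P)

/-- closure in `Spec P` of cycles on the open part of `Spec T` -/
noncomputable def push : (PrimeSpectrum T →₀ 𝕜) →ₗ[𝕜] (PrimeSpectrum P →₀ 𝕜) :=
  open Classical in
  Finsupp.linearCombination 𝕜
    (fun Q : PrimeSpectrum T => if Q ∈ Uset K θ S then Finsupp.single (ctr K θ Q) (1 : 𝕜) else 0)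

theorem push_single {Q : PrimeSpectrum T} (hQ : Q ∈ Uset K θ S) (c : 𝕜) :
    push K 𝕜 θ S (Finsupp.single Q c) = Finsupp.single (ctr K θ Q) c := by
  unfold push
  rw [Finsupp.linearCombination_single, if_pos hQ, Finsupp.smul_single, smul_eq_mul, mul_one]

theorem push_single_of_not {Q : PrimeSpectrum T} (hQ : Q ∉ Uset K θ S) (c : 𝕜) :
    push K 𝕜 θ S (Finsupp.single Q c) = 0 := by
  unfold push
  rw [Finsupp.linearCombination_single, if_neg hQ, smul_zero]

variable {θ S}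

theorem push_apply (hF : Frac K θ S) {Q : PrimeSpectrum T} (hQ : Q ∈ Uset K θ S)
    (z : PrimeSpectrum T →₀ 𝕜) : push K 𝕜 θ S z (ctr K θ Q) = z Q := by
  classical
  induction z using Finsupp.induction_linear with
  | zero => simp
  | add x y hx hy => rw [map_add, Finsupp.add_apply, Finsupp.add_apply, hx, hy]
  | single Q' c =>
    by_cases hQ' : Q' ∈ Uset K θ S
    · rw [push_single K 𝕜 θ S hQ']
      rw [Finsupp.single_apply, Finsupp.single_apply]
      congr 1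
      rw [eq_iff_iff]
      exact ⟨fun h => ctr_inj hF hQ' hQ h, fun h => by rw [h]⟩
    · rw [push_single_of_not K 𝕜 θ S hQ']
      rw [Finsupp.single_apply, if_neg]
      · rfl
      · rintro rfl; exact hQ' hQ

theorem push_apply_of_not {p : PrimeSpectrum P} (hp : ∀ Q ∈ Uset K θ S, ctr K θ Q ≠ p)
    (z : PrimeSpectrum T →₀ 𝕜) : push K 𝕜 θ S z p = 0 := by
  classical
  induction z using Finsupp.induction_linear with
  | zero => simp
  | add x y hx hy => rw [map_add, Finsupp.add_apply, hx, hy, add_zero]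
  | single Q' c =>
    by_cases hQ' : Q' ∈ Uset K θ S
    · rw [push_single K 𝕜 θ S hQ', Finsupp.single_apply, if_neg (hp Q' hQ')]
    · rw [push_single_of_not K 𝕜 θ S hQ']; rfl

theorem finsupp_mem_span {ι : Type} (z : ι →₀ 𝕜) (s : Set ι) (h : ∀ i, z i ≠ 0 → i ∈ s) :
    z ∈ Submodule.span 𝕜 {w : ι →₀ 𝕜 | ∃ i ∈ s, w = Finsupp.single i 1} := by
  rw [← Finsupp.sum_single z]
  apply Submodule.sum_mem
  intro i hi
  rw [Finsupp.mem_support_iff] at hi
  change Finsupp.single i (z i) ∈ _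
  rw [← mul_one (z i), ← smul_eq_mul, ← Finsupp.smul_single]
  exact Submodule.smul_mem _ _ (Submodule.subset_span ⟨i, h i hi, rfl⟩)

/-- Transfer of principal divisors from `T` to `P`. -/
theorem transfer_div (hF : Frac K θ S) {k : ℕ} {Q₀ : PrimeSpectrum T} (hQ₀ : Q₀ ∈ Uset K θ S)
    (hd : dl K Q₀ = k + 1) {t : T} (ht : t ∉ Q₀.asIdeal) {u a : P} (hu : u ∈ S)
    (h : t * θ u = θ a) :
    push K 𝕜 θ S (divCyc K 𝕜 k Q₀ t) - divCyc K 𝕜 k (ctr K θ Q₀) a ∈
      Submodule.span 𝕜 {w : PrimeSpectrum P →₀ 𝕜 | ∃ p ∈ {p : PrimeSpectrum P |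
        dl K p = k ∧ ctr K θ Q₀ ≤ p ∧ a ∈ p.asIdeal ∧ ∃ v ∈ S, v ∈ p.asIdeal},
          w = Finsupp.single p 1} := by
  have hd' : dl K (ctr K θ Q₀) = k + 1 := by rw [dl_uset hF hQ₀, hd]
  have ha : a ∉ (ctr K θ Q₀).asIdeal := by
    rw [mem_ctr, ← h]
    intro h1
    rcases Q₀.2.mem_or_mem h1 with h1 | h1
    · exact ht h1
    · exact hQ₀ u hu h1
  apply finsupp_mem_span
  intro p hp
  rw [Finsupp.sub_apply] at hp
  by_cases hex : ∃ Q ∈ Uset K θ S, ctr K θ Q = p
  · exfalso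
    obtain ⟨Q, hQ, rfl⟩ := hex
    apply hp
    rw [push_apply K 𝕜 hF hQ, sub_eq_zero]
    unfold divCyc
    rw [cyc_apply K 𝕜 (bd_div K hd ht), cyc_apply K 𝕜 (bd_div K hd' ha), dl_uset hF hQ]
    split_ifs with h1
    · rw [len_uset_div hF hQ hu h]
    · rfl
  · push Not at hex
    rw [push_apply_of_not K 𝕜 hex, zero_sub, neg_ne_zero, divCyc_ne_zero_iff K 𝕜 hd' ha] at hp
    obtain ⟨h1, h2, h3⟩ := hp
    refine ⟨h1, h2, h3, ?_⟩
    by_contra hcon
    push Not at hcon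
    obtain ⟨Q, hQ, hQ2⟩ := exists_uset hF p (fun x hx => h2 (by
      rw [mem_ctr, hx]; exact Ideal.zero_mem _)) hcon
    exact hex Q hQ hQ2

theorem push_div_of_not {k : ℕ} {Q₀ : PrimeSpectrum T} (hQ₀ : Q₀ ∉ Uset K θ S)
    (hd : dl K Q₀ = k + 1) {t : T} (ht : t ∉ Q₀.asIdeal) :
    push K 𝕜 θ S (divCyc K 𝕜 k Q₀ t) = 0 := by
  have h1 : ∀ Q, (divCyc K 𝕜 k Q₀ t) Q ≠ 0 → Q ∉ Uset K θ S := by
    intro Q hQ hQ2
    rw [divCyc_ne_zero_iff K 𝕜 hd ht] at hQ
    exact hQ₀ (uset_mono hQ.2.1 hQ2)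
  rw [← Finsupp.sum_single (divCyc K 𝕜 k Q₀ t), Finsupp.sum, map_sum]
  apply Finset.sum_eq_zero
  intro Q hQ
  rw [Finsupp.mem_support_iff] at hQ
  exact push_single_of_not K 𝕜 θ S (h1 Q hQ) _

/-- Transfer of rational equivalence from `T` to `P`. -/
theorem transfer_rel (hF : Frac K θ S) {k : ℕ} {Z : Set (PrimeSpectrum T)}
    {Z' : Set (PrimeSpectrum P)} (hZ : ∀ Q ∈ Z, Q ∈ Uset K θ S → ctr K θ Q ∈ Z')
    {z : PrimeSpectrum T →₀ 𝕜} (hz : z ∈ Rel K 𝕜 k Z) :
    push K 𝕜 θ S z ∈ Rel K 𝕜 k Z' ⊔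
      Submodule.span 𝕜 {w : PrimeSpectrum P →₀ 𝕜 | ∃ p ∈ {p : PrimeSpectrum P |
        dl K p = k ∧ (∃ Q₀ ∈ Z, ctr K θ Q₀ ≤ p ∧ ctr K θ Q₀ ∈ Z') ∧ ∃ v ∈ S, v ∈ p.asIdeal},
          w = Finsupp.single p 1} := by
  unfold Rel at hz
  induction hz using Submodule.span_induction with
  | mem z hz =>
    obtain ⟨Q₀, hQ₀Z, t, h1, h2, rfl⟩ := hz
    by_cases hQ₀ : Q₀ ∈ Uset K θ S
    · obtain ⟨u, hu, a, h⟩ := hF t
      have h3 := transfer_div K 𝕜 hF hQ₀ h1 h2 hu h
      have ha : a ∉ (ctr K θ Q₀).asIdeal := by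
        rw [mem_ctr, ← h]
        intro h1
        rcases Q₀.2.mem_or_mem h1 with h1 | h1
        · exact h2 h1
        · exact hQ₀ u hu h1
      have h4 := divCyc_mem_rel K 𝕜 (hZ Q₀ hQ₀Z hQ₀) (by rw [dl_uset hF hQ₀, h1]) ha
      have h5 : push K 𝕜 θ S (divCyc K 𝕜 k Q₀ t) = divCyc K 𝕜 k (ctr K θ Q₀) a +
        (push K 𝕜 θ S (divCyc K 𝕜 k Q₀ t) - divCyc K 𝕜 k (ctr K θ Q₀) a) := by abel
      rw [h5]
      refine Submodule.add_mem_sup h4 (Submodule.span_mono ?_ h3)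
      rintro w ⟨p, ⟨g1, g2, g3, g4⟩, rfl⟩
      exact ⟨p, ⟨g1, ⟨Q₀, hQ₀Z, g2, hZ Q₀ hQ₀Z hQ₀⟩, g4⟩, rfl⟩
    · rw [push_div_of_not K 𝕜 hQ₀ h1 h2]
      exact Submodule.zero_mem _
  | zero => rw [map_zero]; exact Submodule.zero_mem _
  | add x y _ _ hx hy => rw [map_add]; exact Submodule.add_mem _ hx hy
  | smul c x _ hx => rw [map_smul]; exact Submodule.smul_mem _ _ hx

end push

end Pool.Agent.Bloch
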