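import Pool.Agent.Bloch.MainQ

open MvPolynomial

namespace Pool.Agent.Bloch

/-- the index set of the variables -/
abbrev Vars {t : ℕ} (ν : Fin t → ℕ) : Type := (k : Fin t) × Fin (ν k + 1)

theorem bh_rename {t : ℕ} {ν : Fin t → ℕ} {d : ℕ} (k : Fin t) (f : MvPolynomial (Fin (ν k + 1)) ℂ)
    (hf : f.IsHomogeneous d) :
    BH (fun s : Vars ν => s.1) k d
      (rename (fun j => (⟨k, j⟩ : Vars ν)) f) := by
  classical
  have hinj : Function.Injective (fun j => (⟨k, j⟩ : Vars ν)) := by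
    intro j j' h
    simpa using h
  intro m hm
  rw [support_rename_of_injective hinj, Finset.mem_image] at hm
  obtain ⟨m', hm', rfl⟩ := hm
  refine ⟨fun s hs => ?_, ?_⟩
  · by_contra h
    apply hs
    apply Finsupp.mapDomain_of_notMem_range
    rintro ⟨j, rfl⟩
    exact h rfl
  · rw [Finsupp.degree_mapDomain]
    have := hf (mem_support_iff.1 hm')
    rw [Finsupp.degree_eq_weight_one]
    exact this

/-- the forms in the variables of the blocks -/
noncomputable def ff {t r : ℕ} (ν : Fin t → ℕ)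
    (f : Fin r → (k : Fin t) → MvPolynomial (Fin (ν k + 1)) ℂ) (e : Fin r) (k : Fin t) :
    MvPolynomial (Vars ν) ℂ := rename (fun j => (⟨k, j⟩ : Vars ν)) (f e k)

/-- the ideal of the equations -/
noncomputable def eqI {t r : ℕ} (ν : Fin t → ℕ)
    (f : Fin r → (k : Fin t) → MvPolynomial (Fin (ν k + 1)) ℂ) : Ideal (MvPolynomial (Vars ν) ℂ) :=
  Ideal.span (Set.range fun e : Fin r => ∑ k : Fin t, ff ν f e k)

theorem eqI_le {t r : ℕ} (ν : Fin t → ℕ)
    (f : Fin r → (k : Fin t) → MvPolynomial (Fin (ν k + 1)) ℂ)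
    (Q : PrimeSpectrum (MvPolynomial (Vars ν) ℂ)) :
    Q ∈ {Q : PrimeSpectrum (MvPolynomial (Vars ν) ℂ) | eqI ν f ≤ Q.asIdeal} ↔
      ∀ e : Fin r, ∑ k, ff ν f e k ∈ Q.asIdeal := by
  change Ideal.span _ ≤ _ ↔ _
  rw [Ideal.span_le]
  constructor
  · intro h e; exact h ⟨e, rfl⟩
  · rintro h _ ⟨e, rfl⟩; exact h e

/-- the system of equations -/
noncomputable def sysST {t r : ℕ} (d : ℕ) (ν : Fin t → ℕ)
    (f : Fin r → (k : Fin t) → MvPolynomial (Fin (ν k + 1)) ℂ)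
    (hf : ∀ e k, (f e k).IsHomogeneous d) : Sys ℂ (Vars ν) t d where
  β := fun s => s.1
  ι := Fin r
  f := ff ν f
  hf := fun e k => bh_rename k (f e k) (hf e k)
  Z := {Q | eqI ν f ≤ Q.asIdeal}
  HZ := eqI_le ν f

/-- the scaling of the variables of the blocks -/
noncomputable def bscale {t : ℕ} (d : ℕ) (ν : Fin t → ℕ) (g : Fin t → ZMod d) :
    MvPolynomial (Vars ν) ℂ →ₐ[ℂ] MvPolynomial (Vars ν) ℂ :=
  aeval (fun s => C (Complex.exp (2 * Real.pi * Complex.I / d) ^ (g s.1).val) * X s)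

/-- differences of cycles in the same orbit -/
def odST {t r : ℕ} (d : ℕ) (ν : Fin t → ℕ)
    (f : Fin r → (k : Fin t) → MvPolynomial (Fin (ν k + 1)) ℂ)
    (G : Set (Fin t → ZMod d)) (k : ℕ) :
    Set (VH {Q : PrimeSpectrum (MvPolynomial (Vars ν) ℂ) | eqI ν f ≤ Q.asIdeal} k →₀ ℚ) :=
  {z | ∃ g ∈ G, ∃ V V' : VH {Q : PrimeSpectrum (MvPolynomial (Vars ν) ℂ) |
      eqI ν f ≤ Q.asIdeal} k,
    V'.1.asIdeal = V.1.asIdeal.comap (bscale d ν g) ∧
    z = Finsupp.single V' 1 - Finsupp.single V 1}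

theorem main_ST (d t r i : ℕ) (hd : 0 < d) (ν : Fin t → ℕ)
    (f : Fin r → (k : Fin t) → MvPolynomial (Fin (ν k + 1)) ℂ)
    (hf : ∀ e k, (f e k).IsHomogeneous d)
    (G : Set (Fin t → ZMod d))
    (H : d * (r + i) < t ∨
      ∀ c : Fin t → ZMod d, ∑ k, c k = 0 → (∀ g ∈ G, ∑ k, g k * c k = 0) →
        ∃ π : Fin t → Fin (r + i + 1), Function.Surjective π ∧
          ∀ l, ∑ k, (if π k = l then c k else 0) = 0) :
    Module.rank ℚ ((VH {Q : PrimeSpectrum (MvPolynomial (Vars ν) ℂ) | eqI ν f ≤ Q.asIdeal} (i + 1)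
        →₀ ℚ) ⧸
      Submodule.span ℚ (pdiv {Q : PrimeSpectrum (MvPolynomial (Vars ν) ℂ) | eqI ν f ≤ Q.asIdeal}
        (i + 1) ∪ odST d ν f G (i + 1))) ≤ 1 := by
  classical
  haveI : NeZero d := ⟨hd.ne'⟩
  letI hY : Fintype (sysST d ν f hf).ι := inferInstanceAs (Fintype (Fin r))
  have hr : Fintype.card (sysST d ν f hf).ι = r := Fintype.card_fin r
  have hβ : Function.Surjective (sysST d ν f hf).β := fun k => ⟨⟨k, 0⟩, rfl⟩
  have hζ : IsPrimitiveRoot (Complex.exp (2 * Real.pi * Complex.I / d)) d :=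
    Complex.isPrimitiveRoot_exp d hd.ne'
  set ζ := Complex.exp (2 * Real.pi * Complex.I / d) with hζdef
  have hcastsum : ∀ b : Fin t → ℕ, d ∣ ∑ k, b k ↔ ∑ k, (b k : ZMod d) = 0 := by
    intro b
    rw [← Nat.cast_sum, ZMod.natCast_eq_zero_iff]
  have key := main_Q (sysST d ν f hf) hβ hζ (i := i)
    {γ | ∃ g ∈ G, ∀ k, wt γ k = ζ ^ (g k).val} (by
    intro a ha hG
    rw [hr]
    have h1 : ∑ k, ((a k : ℕ) : ZMod d) = 0 := (hcastsum a).1 ha
    have h2 : ∀ g ∈ G, ∑ k, g k * ((a k : ℕ) : ZMod d) = 0 := by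
      intro g hg
      obtain ⟨γ, hγ⟩ := exists_wt (d := d) (fun k => ζ ^ (g k).val) (fun k => by
        rw [← pow_mul, mul_comm, pow_mul, hζ.pow_eq_one, one_pow])
      have h3 := hG γ ⟨g, hg, hγ⟩
      have h4 : ζ ^ (∑ k, (g k).val * a k) = 1 := by
        rw [← Finset.prod_pow_eq_pow_sum, ← h3]
        unfold chr
        apply Finset.prod_congr rfl
        intro k _
        rw [hγ, pow_mul]
      have h5 := (hcastsum _).1 (hζ.dvd_of_pow_eq_one _ h4)
      rw [← h5]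
      apply Finset.sum_congr rfl
      intro k _
      rw [Nat.cast_mul, ZMod.natCast_zmod_val]
    have h6 : ∃ π : Fin t → Fin (r + i + 1), Function.Surjective π ∧
        ∀ l, ∑ k, (if π k = l then ((a k : ℕ) : ZMod d) else 0) = 0 := by
      rcases H with H | H
      · obtain ⟨π, h7, h8⟩ := davenport (fun k => ((a k : ℕ) : ZMod d)) (r + i)
          Finset.univ (by rw [Finset.card_univ, Fintype.card_fin]; exact H) h1
        refine ⟨π, fun l => ?_, h8⟩
        obtain ⟨k, _, hk⟩ := h7 l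
        exact ⟨k, hk⟩
      · exact H _ h1 h2
    obtain ⟨π, h7, h8⟩ := h6
    refine ⟨π, h7, fun l => ?_⟩
    rw [hcastsum, ← h8 l]
    apply Finset.sum_congr rfl
    intro k _
    split_ifs
    · rfl
    · simp)
  have hS : odiff (sysST d ν f hf) (i + 1) {γ | ∃ g ∈ G, ∀ k, wt γ k = ζ ^ (g k).val} ⊆
      odST d ν f G (i + 1) := by
    rintro z ⟨γ, ⟨g, hg, hγ⟩, V, rfl⟩
    refine ⟨g, hg, V, sc (sysST d ν f hf) (i + 1) γ V, ?_, rfl⟩
    rw [sc_val]
    have : (scl ℂ (fun s => wt γ ((sysST d ν f hf).β s)) :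
        MvPolynomial (Vars ν) ℂ →ₐ[ℂ] MvPolynomial (Vars ν) ℂ) = bscale d ν g := by
      apply MvPolynomial.algHom_ext
      intro s
      rw [scl_X]
      unfold bscale
      rw [aeval_X, hγ]
      rfl
    rw [this]
    rfl
  refine le_trans ?_ key
  exact LinearMap.rank_le_of_surjective (Submodule.factor (Submodule.span_mono
    (Set.union_subset_union_right _ hS))) (Submodule.factor_surjective _)

end Pool.Agent.Bloch
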