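import Pool.Agent.Bloch.Big8
import Pool.Agent.Bloch.Comb3
import Pool.Agent.Bloch.SysST

/-! Systems of forms with big blocks: final form. -/

set_option linter.unusedSectionVars false

open MvPolynomial

namespace Pool.Agent.Bloch

section
variable {t r : ℕ} (d : ℕ) (ν : Fin t → ℕ)
  (f : Fin r → (k : Fin t) → MvPolynomial (Fin (ν k + 1)) ℂ)

/-- the rank of the forms of a set of blocks -/
noncomputable def rkS (S : Finset (Fin t)) : ℕ :=
  Module.finrank ℂ (Submodule.span ℂ (Set.range fun e : Fin r => ∑ k ∈ S, ff ν f e k))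

/-- big sets of blocks -/
def BigS (S : Finset (Fin t)) : Prop := rkS ν f S * (d - 1) < ∑ k ∈ S, (ν k + 1)

theorem card_blkV (ν : Fin t → ℕ) (k : Fin t) :
    Nat.card {s : Vars ν // s.1 = k} = ν k + 1 := by
  have e : {s : Vars ν // s.1 = k} ≃ Fin (ν k + 1) :=
    { toFun := fun s => Fin.cast (by rw [s.2]) s.1.2
      invFun := fun j => ⟨⟨k, j⟩, rfl⟩
      left_inv := by
        rintro ⟨⟨k', j⟩, h⟩
        subst h
        rfl
      right_inv := fun j => rfl }
  rw [Nat.card_congr e, Nat.card_eq_fintype_card, Fintype.card_fin]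

open Classical in
theorem card_grpV {T' : Type} (ν : Fin t → ℕ) (ρ : Fin t → T') (j : T') :
    Nat.card {s : Vars ν // ρ s.1 = j} =
      ∑ k ∈ Finset.univ.filter (fun k => ρ k = j), (ν k + 1) := by
  have h1 : Nat.card {s : Vars ν // ρ s.1 = j} =
      (Finset.univ.filter (fun s : Vars ν => ρ s.1 = j)).card := by
    rw [Nat.card_eq_fintype_card, Fintype.card_subtype]
  have h2 : ∀ k, ν k + 1 = (Finset.univ.filter (fun s : Vars ν => s.1 = k)).card := by
    intro k
    rw [← card_blkV ν k, Nat.card_eq_fintype_card, Fintype.card_subtype]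
  rw [h1, Finset.card_eq_sum_card_fiberwise (f := fun s : Vars ν => s.1)
    (t := Finset.univ.filter (fun k => ρ k = j)) (fun s hs => by
      rw [Finset.mem_coe, Finset.mem_filter] at hs ⊢
      exact ⟨Finset.mem_univ _, hs.2⟩)]
  apply Finset.sum_congr rfl
  intro k hk
  rw [Finset.mem_filter] at hk
  rw [h2]
  congr 1
  ext s
  rw [Finset.mem_filter, Finset.mem_filter, Finset.mem_filter]
  constructor
  · rintro ⟨⟨_, _⟩, h⟩
    exact ⟨Finset.mem_univ _, h⟩
  · rintro ⟨_, h⟩
    exact ⟨⟨Finset.mem_univ _, by rw [h]; exact hk.2⟩, h⟩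

open Classical in
theorem bigBl_S {d : ℕ} [NeZero d] (hf : ∀ e k, (f e k).IsHomogeneous d)
    {T' : Type} [Fintype T'] (ρ : Fin t → T') (a : Fin t → ℕ) (j : T')
    (h : rkS ν f (Finset.univ.filter (fun k => ρ k = j)) * (d - 1) +
      (if d ∣ ga' ρ a j then 1 else 0) <
        ∑ k ∈ Finset.univ.filter (fun k => ρ k = j), (ν k + 1)) :
    BigBl (fun s => ρ ((sysST d ν f hf).β s)) (gf ρ (sysST d ν f hf).f) d (ga' ρ a) j := by
  haveI : Finite (sysST d ν f hf).ι := inferInstanceAs (Finite (Fin r))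
  apply bigBl_of_rank ρ (sysST d ν f hf).hf a j
  change _ < Nat.card {s : Vars ν // ρ s.1 = j}
  rw [card_grpV]
  exact h

open Classical in
theorem main_BC (i : ℕ) (hd : 0 < d)
    (hf : ∀ e k, (f e k).IsHomogeneous d)
    (G : Set (Fin t → ZMod d))
    (H : (∃ B : Finset (Fin t), (∀ k ∈ B, BigS d ν f {k}) ∧
        d * (r + i) < t + (d - 1) * B.card) ∨
      (∃ g, 0 < g ∧ g * (r + i) < t ∧ ∀ S : Finset (Fin t), S.card = g → BigS d ν f S) ∨
      (r + i < t ∧ ∀ c : Fin t → ZMod d, c ≠ 0 → ∑ k, c k = 0 →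
        (∀ g ∈ G, ∑ k, g k * c k = 0) →
        ∃ (q m : ℕ) (ρ : Fin t → Fin m) (π : Fin m → Fin q) (E : Finset (Fin m)),
          Function.Surjective ρ ∧ Function.Surjective π ∧
          (∀ l, ∑ k ∈ Finset.univ.filter (fun k => π (ρ k) = l), c k = 0) ∧
          (∃ j, ∑ k ∈ Finset.univ.filter (fun k => ρ k = j), c k ≠ 0) ∧
          r + i + 1 ≤ q + E.card ∧
          ∀ j ∈ E, rkS ν f (Finset.univ.filter (fun k => ρ k = j)) * (d - 1) +
            (if ∑ k ∈ Finset.univ.filter (fun k => ρ k = j), c k = 0 then 1 else 0) <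
              ∑ k ∈ Finset.univ.filter (fun k => ρ k = j), (ν k + 1))) :
    Module.rank ℚ ((VH {Q : PrimeSpectrum (MvPolynomial (Vars ν) ℂ) | eqI ν f ≤ Q.asIdeal} (i + 1)
        →₀ ℚ) ⧸
      Submodule.span ℚ (pdiv {Q : PrimeSpectrum (MvPolynomial (Vars ν) ℂ) | eqI ν f ≤ Q.asIdeal}
        (i + 1) ∪ odST d ν f G (i + 1))) ≤ 1 := by
  haveI : NeZero d := ⟨hd.ne'⟩
  letI hY : Fintype (sysST d ν f hf).ι := inferInstanceAs (Fintype (Fin r))
  have hr : Fintype.card (sysST d ν f hf).ι = r := Fintype.card_fin r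
  have hβ : Function.Surjective (sysST d ν f hf).β := fun k => ⟨⟨k, 0⟩, rfl⟩
  have hζ : IsPrimitiveRoot (Complex.exp (2 * Real.pi * Complex.I / d)) d :=
    Complex.isPrimitiveRoot_exp d hd.ne'
  set ζ := Complex.exp (2 * Real.pi * Complex.I / d) with hζdef
  have hcastsum : ∀ (U : Finset (Fin t)) (b : Fin t → ℕ),
      d ∣ ∑ k ∈ U, b k ↔ ∑ k ∈ U, (b k : ZMod d) = 0 := by
    intro U b
    rw [← Nat.cast_sum, ZMod.natCast_eq_zero_iff]
  -- the number of blocks
  have hcard : i + Fintype.card (sysST d ν f hf).ι < t := by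
    rw [hr]
    rcases H with ⟨B, _, hB⟩ | ⟨g, hg, hgt, _⟩ | ⟨h, _⟩
    · have h1 : B.card ≤ t := by
        have := Finset.card_le_univ B
        rwa [Fintype.card_fin] at this
      have h2 : (d - 1) * B.card ≤ (d - 1) * t := Nat.mul_le_mul_left _ h1
      have h3 : t + (d - 1) * t = d * t := by
        obtain ⟨d', rfl⟩ : ∃ d', d = d' + 1 := ⟨d - 1, by omega⟩
        rw [Nat.add_sub_cancel]; ring
      have h4 : d * (r + i) < d * t := by omega
      have := lt_of_mul_lt_mul_left h4 (Nat.zero_le d)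
      omega
    · have h1 : 1 * (r + i) ≤ g * (r + i) := Nat.mul_le_mul_right _ hg
      omega
    · omega
  -- the conclusion from a grouping
  have hplan : ∀ a : Fin t → ℕ, ∀ (T' Q' : Type) [Fintype T'] [Fintype Q'] (ρ : Fin t → T')
      (π : T' → Q') (E : Finset T'), Function.Surjective ρ → Function.Surjective π →
      (∀ l, d ∣ ∑ k ∈ Finset.univ.filter (fun k => π (ρ k) = l), a k) →
      (∀ j ∈ E, rkS ν f (Finset.univ.filter (fun k => ρ k = j)) * (d - 1) +
        (if d ∣ ∑ k ∈ Finset.univ.filter (fun k => ρ k = j), a k then 1 else 0) <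
          ∑ k ∈ Finset.univ.filter (fun k => ρ k = j), (ν k + 1)) →
      r + i + 1 ≤ Fintype.card Q' + E.card →
      (∃ j, ¬ d ∣ ∑ k ∈ Finset.univ.filter (fun k => ρ k = j), a k) →
      ∀ V : VH (sysST d ν f hf).Z (i + 1), Finsupp.single V 1 ∈ Na (sysST d ν f hf) (i + 1) a := by
    intro a T' Q' _ _ ρ π E hρ hπ hπa hE hi hj V
    exact chi_big (sysST d ν f hf) hβ hζ a ρ hρ π hπ hπa E
      (fun j hj => bigBl_S ν f hf ρ a j (hE j hj)) (by rw [hr]; omega) _ le_rfl (Or.inl hj) V
  have hW : ∀ (W : ℕ) (ω a : Fin t → ℕ), CondW d W (BigS d ν f) ω →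
      W * (r + i) < ∑ k, ω k → d ∣ ∑ k, a k → (∃ k, ¬ d ∣ a k) →
      ∀ V : VH (sysST d ν f hf).Z (i + 1), Finsupp.single V 1 ∈ Na (sysST d ν f hf) (i + 1) a := by
    intro W ω a hC hs has ha V
    obtain ⟨T', Q', _, _, ρ, π, E, h1, h2, h3, h4, h5, h6⟩ := exists_planW hd hC hs has ha
    refine hplan a T' Q' ρ π E h1 h2 h3 ?_ (by omega) h6 V
    intro j hj
    rw [if_neg (h4 j hj).2, add_zero]
    exact (h4 j hj).1
  have key := main_Q' (sysST d ν f hf) hβ hζ (i := i) hcard
    {γ | ∃ g ∈ G, ∀ k, wt γ k = ζ ^ (g k).val} (by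
    intro a had ha0 has hG V
    have ha : ∃ k, ¬ d ∣ a k := by
      obtain ⟨k, hk⟩ := ha0
      refine ⟨k, fun hdv => ?_⟩
      have := Nat.le_of_dvd (Nat.pos_of_ne_zero hk) hdv
      have := had k
      omega
    rcases H with ⟨B, hB1, hB2⟩ | ⟨g, hg, hgt, hgS⟩ | ⟨_, h⟩
    · refine hW d (fun k => if k ∈ B then d else 1) a ?_ ?_ has ha V
      · apply condW_single hd
        intro k
        split_ifs with hk
        · exact Or.inr ⟨le_rfl, hB1 k hk⟩
        · exact Or.inl le_rfl
      · rw [← Finset.sum_filter_add_sum_filter_not Finset.univ (fun k => k ∈ B)]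
        have h1 : ∑ k ∈ Finset.univ.filter (fun k => k ∈ B), (if k ∈ B then d else 1) =
            B.card * d := by
          rw [Finset.sum_congr rfl (fun k hk => if_pos (Finset.mem_filter.1 hk).2),
            Finset.sum_const, smul_eq_mul, Finset.filter_mem_eq_inter, Finset.univ_inter]
        have h2 : ∑ k ∈ Finset.univ.filter (fun k => ¬ k ∈ B), (if k ∈ B then d else 1) =
            (Finset.univ.filter (fun k => ¬ k ∈ B)).card * 1 := by
          rw [Finset.sum_congr rfl (fun k hk => if_neg (Finset.mem_filter.1 hk).2),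
            Finset.sum_const, smul_eq_mul]
        have h3 := Finset.card_filter_add_card_filter_not (s := (Finset.univ : Finset (Fin t)))
          (fun k => k ∈ B)
        rw [Finset.filter_mem_eq_inter, Finset.univ_inter, Finset.card_univ, Fintype.card_fin] at h3
        rw [h1, h2]
        obtain ⟨d', rfl⟩ : ∃ d', d = d' + 1 := ⟨d - 1, by omega⟩
        rw [Nat.add_sub_cancel] at hB2
        have h4 : B.card * (d' + 1) = d' * B.card + B.card := by ring
        omega
    · refine hW g (fun _ => 1) a ?_ ?_ has ha V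
      · exact condW_group hg _ (fun _ => hgS)
      · rw [Finset.sum_const, smul_eq_mul, mul_one, Finset.card_univ, Fintype.card_fin]
        exact hgt
    · have h1 : ∑ k, ((a k : ℕ) : ZMod d) = 0 := (hcastsum _ a).1 has
      have h2 : ∀ g ∈ G, ∑ k, g k * ((a k : ℕ) : ZMod d) = 0 := by
        intro g hg
        obtain ⟨γ, hγ⟩ := exists_wt (d := d) (fun k => ζ ^ (g k).val) (fun k => by
          rw [← pow_mul, mul_comm, pow_mul, hζ.pow_eq_one, one_pow])
        have h3 := hG γ ⟨g, hg, hγ⟩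
        have h4 : ζ ^ (∑ k, (g k).val * a k) = 1 := by
          rw [← Finset.prod_pow_eq_pow_sum, ← h3]
          unfold chr
          apply Finset.prod_congr rfl
          intro k _
          rw [hγ, pow_mul]
        have h5 := (hcastsum _ _).1 (hζ.dvd_of_pow_eq_one _ h4)
        rw [← h5]
        apply Finset.sum_congr rfl
        intro k _
        rw [Nat.cast_mul, ZMod.natCast_zmod_val]
      obtain ⟨q, m, ρ, π, E, h3, h4, h5, ⟨j, hj⟩, h7, h8⟩ := h (fun k => ((a k : ℕ) : ZMod d)) (by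
          intro h0
          obtain ⟨k, hk⟩ := ha
          apply hk
          rw [← ZMod.natCast_eq_zero_iff]
          exact congrFun h0 k) h1 h2
      refine hplan a (Fin m) (Fin q) ρ π E h3 h4 ?_ ?_
        (by rw [Fintype.card_fin]; exact h7) ⟨j, ?_⟩ V
      · intro l
        rw [hcastsum]
        convert h5 l
      · intro j hj
        have h9 := h8 j hj
        simp only [hcastsum]
        convert h9
      · intro hdv
        rw [hcastsum] at hdv
        apply hj
        convert hdv)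
  have hS : odiff (sysST d ν f hf) (i + 1) {γ | ∃ g ∈ G, ∀ k, wt γ k = ζ ^ (g k).val} ⊆
      odST d ν f G (i + 1) := by
    rintro z ⟨γ, ⟨g, hg, hγ⟩, V, rfl⟩
    refine ⟨g, hg, V, sc (sysST d ν f hf) (i + 1) γ V, ?_, rfl⟩
    rw [sc_val]
    have : (scl ℂ (fun s => wt γ ((sysST d ν f hf).β s)) :
        MvPolynomial (Vars ν) ℂ →ₐ[ℂ] MvPolynomial (Vars ν) ℂ) = bscale d ν g := by
      apply MvPolynomial.algHom_ext
      intro s
      rw [scl_X]
      unfold bscale
      rw [aeval_X, hγ]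
      rfl
    rw [this]
    rfl
  refine le_trans ?_ key
  exact LinearMap.rank_le_of_surjective (Submodule.factor (Submodule.span_mono
    (Set.union_subset_union_right _ hS))) (Submodule.factor_surjective _)

end

end Pool.Agent.Bloch
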