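import Pool.Agent.Bloch.MainChi

/-! Quotients of diagonal complete intersections. -/

set_option linter.unusedSectionVars false

open MvPolynomial

namespace Pool.Agent.Bloch

/-- the ideal of the diagonal equations -/
noncomputable def diagI {t r : ℕ} (d : ℕ) (A : Fin r → Fin t → ℂ) : Ideal (MvPolynomial (Fin t) ℂ) :=
  Ideal.span (Set.range fun e : Fin r => ∑ k : Fin t, df d A e k)

theorem diagI_le {t r : ℕ} (d : ℕ) (A : Fin r → Fin t → ℂ)
    (Q : PrimeSpectrum (MvPolynomial (Fin t) ℂ)) :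
    Q ∈ {Q : PrimeSpectrum (MvPolynomial (Fin t) ℂ) | diagI d A ≤ Q.asIdeal} ↔
      ∀ e : Fin r, ∑ k, df d A e k ∈ Q.asIdeal := by
  change Ideal.span _ ≤ _ ↔ _
  rw [Ideal.span_le]
  constructor
  · intro h e; exact h ⟨e, rfl⟩
  · rintro h _ ⟨e, rfl⟩; exact h e

/-- the system of equations -/
noncomputable def sysD {t r : ℕ} (d : ℕ) (A : Fin r → Fin t → ℂ) : Sys ℂ (Fin t) t d where
  β := fun s => s
  ι := Fin r
  f := df d A
  hf := df_bh d A
  Z := {Q | diagI d A ≤ Q.asIdeal}
  HZ := diagI_le d A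

/-- the scaling of the variables -/
noncomputable def vscale {t : ℕ} (d : ℕ) (g : Fin t → ZMod d) :
    MvPolynomial (Fin t) ℂ →ₐ[ℂ] MvPolynomial (Fin t) ℂ :=
  aeval (fun s => C (Complex.exp (2 * Real.pi * Complex.I / d) ^ (g s).val) * X s)

/-- differences of cycles in the same orbit -/
def odD {t r : ℕ} (d : ℕ) (A : Fin r → Fin t → ℂ) (G : Set (Fin t → ZMod d)) (k : ℕ) :
    Set (VH {Q : PrimeSpectrum (MvPolynomial (Fin t) ℂ) | diagI d A ≤ Q.asIdeal} k →₀ ℚ) :=
  {z | ∃ g ∈ G, ∃ V V' : VH {Q : PrimeSpectrum (MvPolynomial (Fin t) ℂ) |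
      diagI d A ≤ Q.asIdeal} k,
    V'.1.asIdeal = V.1.asIdeal.comap (vscale d g) ∧
    z = Finsupp.single V' 1 - Finsupp.single V 1}

theorem vl_add_val {d : ℕ} [NeZero d] (x : ZMod d) : vl x + (-x).val = d := by
  by_cases hx : x = 0
  · subst hx
    unfold vl
    simp
  · unfold vl
    rw [if_neg hx, ZMod.neg_val, if_neg hx]
    have := ZMod.val_lt x
    omega

/-- the combinatorial step -/
theorem exists_part {d t : ℕ} [NeZero d] (hd : d = 2 ∨ d = 3 ∨ d = 4 ∨ d = 5 ∨ d = 7) (m : ℕ)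
    (c : Fin t → ZMod d) (hc : ∑ k, c k = 0)
    (H : ∀ u v : ZMod d, u * v = 1 → ∑ k, (u * c k).val + d * (m + 1) ≤ d * t) :
    ∃ π : Fin t → Fin (m + 1), Function.Surjective π ∧
      ∀ l, ∑ k, (if π k = l then c k else 0) = 0 := by
  have h1 : Good c (m + 1) Finset.univ := by
    apply good_of_val hd c Finset.univ (m + 1) hc
    intro u v huv
    have h2 := H (-u) (-v) (by rw [neg_mul_neg, huv])
    have h3 : ∑ k, vl (u * c k) + ∑ k, (-u * c k).val = d * t := by
      rw [← Finset.sum_add_distrib]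
      have : ∀ k, vl (u * c k) + (-u * c k).val = d := by
        intro k
        rw [neg_mul]
        exact vl_add_val _
      rw [Finset.sum_congr rfl (fun k _ => this k), Finset.sum_const, Finset.card_univ,
        Fintype.card_fin, smul_eq_mul, mul_comm]
    omega
  obtain ⟨π, h2, h3⟩ := good_part c m Finset.univ h1 hc
  exact ⟨π, fun l => (h2 l).imp (fun k hk => hk.2), h3⟩

theorem main_diag (d t r i : ℕ) (hd0 : 0 < d) (hi : i + r < t)
    (A : Fin r → Fin t → ℂ)
    (hA : ∀ S : Fin r ↪ Fin t, (Matrix.of fun e j => A e (S j)).det ≠ 0)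
    (G : Set (Fin t → ZMod d))
    (H : ∀ c : Fin t → ZMod d, c ≠ 0 → ∑ k, c k = 0 → (∀ g ∈ G, ∑ k, g k * c k = 0) →
      (Finset.univ.filter (fun k => c k = 0)).card < r →
        ∃ π : Fin t → Fin (r + i + 1), Function.Surjective π ∧
          ∀ l, ∑ k, (if π k = l then c k else 0) = 0) :
    Module.rank ℚ ((VH {Q : PrimeSpectrum (MvPolynomial (Fin t) ℂ) | diagI d A ≤ Q.asIdeal} (i + 1)
        →₀ ℚ) ⧸
      Submodule.span ℚ (pdiv {Q : PrimeSpectrum (MvPolynomial (Fin t) ℂ) | diagI d A ≤ Q.asIdeal}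
        (i + 1) ∪ odD d A G (i + 1))) ≤ 1 := by
  classical
  haveI : NeZero d := ⟨hd0.ne'⟩
  letI hY : Fintype (sysD d A).ι := inferInstanceAs (Fintype (Fin r))
  have hr : Fintype.card (sysD d A).ι = r := Fintype.card_fin r
  have hβ : Function.Surjective (sysD d A).β := fun k => ⟨k, rfl⟩
  have hζ : IsPrimitiveRoot (Complex.exp (2 * Real.pi * Complex.I / d)) d :=
    Complex.isPrimitiveRoot_exp d hd0.ne'
  set ζ := Complex.exp (2 * Real.pi * Complex.I / d) with hζdef
  have hcastsum : ∀ b : Fin t → ℕ, d ∣ ∑ k, b k ↔ ∑ k, (b k : ZMod d) = 0 := by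
    intro b
    rw [← Nat.cast_sum, ZMod.natCast_eq_zero_iff]
  have key := main_Q' (sysD d A) hβ hζ (i := i) (by rw [hr]; exact hi)
    {γ | ∃ g ∈ G, ∀ k, wt γ k = ζ ^ (g k).val} (by
    intro a had ha0 ha hG V
    have h1 : ∑ k, ((a k : ℕ) : ZMod d) = 0 := (hcastsum a).1 ha
    have h2 : ∀ g ∈ G, ∑ k, g k * ((a k : ℕ) : ZMod d) = 0 := by
      intro g hg
      obtain ⟨γ, hγ⟩ := exists_wt (d := d) (fun k => ζ ^ (g k).val) (fun k => by
        rw [← pow_mul, mul_comm, pow_mul, hζ.pow_eq_one, one_pow])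
      have h3 := hG γ ⟨g, hg, hγ⟩
      have h4 : ζ ^ (∑ k, (g k).val * a k) = 1 := by
        rw [← Finset.prod_pow_eq_pow_sum, ← h3]
        unfold chr
        apply Finset.prod_congr rfl
        intro k _
        rw [hγ, pow_mul]
      have h5 := (hcastsum _).1 (hζ.dvd_of_pow_eq_one _ h4)
      rw [← h5]
      apply Finset.sum_congr rfl
      intro k _
      rw [Nat.cast_mul, ZMod.natCast_zmod_val]
    obtain ⟨k₁, hk₁⟩ := ha0
    have hk₁d : ¬ d ∣ a k₁ := by
      intro hdvd
      have := Nat.le_of_dvd (Nat.pos_of_ne_zero hk₁) hdvd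
      have := had k₁
      omega
    have hzero : ∀ k, ((a k : ℕ) : ZMod d) = 0 → a k = 0 := by
      intro k hk
      rw [ZMod.natCast_eq_zero_iff] at hk
      exact Nat.eq_zero_of_dvd_of_lt hk (had k)
    by_cases hz : (Finset.univ.filter (fun k => ((a k : ℕ) : ZMod d) = 0)).card < r
    · obtain ⟨π, h7, h8⟩ := H (fun k => ((a k : ℕ) : ZMod d)) (by
        intro h
        apply hk₁
        exact hzero k₁ (congrFun h k₁)) h1 h2 hz
      refine chi_ne hd0 hζ (sysD d A).β hβ (sysD d A).f (sysD d A).hf (sysD d A).HZ (i := i)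
        (q := r + i) (by rw [hr]; omega) a π h7 ?_ k₁ hk₁d (Na (sysD d A) (i + 1) a) le_sup_left
        (na_scl (sysD d A) a) V
      intro l
      rw [hcastsum, ← h8 l]
      apply Finset.sum_congr rfl
      intro k _
      split_ifs
      · rfl
      · simp
    · obtain ⟨T, hT, hTc⟩ := Finset.exists_subset_card_eq (not_lt.1 hz)
      let e : Fin r ≃ T := (Finset.equivFinOfCardEq hTc).symm
      let S : Fin r ↪ Fin t := (Equiv.toEmbedding e).trans (Function.Embedding.subtype _)
      have hS : ∀ j, a (S j) = 0 := by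
        intro j
        exact hzero _ (Finset.mem_filter.1 (hT (e j).2)).2
      let M : Matrix (Fin r) (Fin r) ℂ := Matrix.of fun e j => A e (S j)
      have hM : IsUnit M.det := (hA S).isUnit
      refine chi_zero hd0 hζ A S (fun j e => M⁻¹ j e) ?_ ?_ (diagI_le d A) a
        (fun j => by rw [hS j]; exact dvd_zero d) ha k₁ hk₁d (Na (sysD d A) (i + 1) a) le_sup_left
        (na_scl (sysD d A) a) V
      · intro e e'
        have h3 := congrFun (congrFun (Matrix.mul_nonsing_inv M hM) e) e'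
        rw [Matrix.mul_apply, Matrix.one_apply] at h3
        exact h3
      · intro j j'
        have h3 := congrFun (congrFun (Matrix.nonsing_inv_mul M hM) j) j'
        rw [Matrix.mul_apply, Matrix.one_apply] at h3
        exact h3)
  have hS : odiff (sysD d A) (i + 1) {γ | ∃ g ∈ G, ∀ k, wt γ k = ζ ^ (g k).val} ⊆
      odD d A G (i + 1) := by
    rintro z ⟨γ, ⟨g, hg, hγ⟩, V, rfl⟩
    refine ⟨g, hg, V, sc (sysD d A) (i + 1) γ V, ?_, rfl⟩
    rw [sc_val]
    have : (scl ℂ (fun s => wt γ ((sysD d A).β s)) :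
        MvPolynomial (Fin t) ℂ →ₐ[ℂ] MvPolynomial (Fin t) ℂ) = vscale d g := by
      apply MvPolynomial.algHom_ext
      intro s
      rw [scl_X]
      unfold vscale
      rw [aeval_X, hγ]
      rfl
    rw [this]
    rfl
  refine le_trans ?_ key
  exact LinearMap.rank_le_of_surjective (Submodule.factor (Submodule.span_mono
    (Set.union_subset_union_right _ hS))) (Submodule.factor_surjective _)

end Pool.Agent.Bloch
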