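import Pool.Agent.Bloch.Plan
import Pool.Agent.Bloch.Comb2

/-! Hypersurfaces which are sums of forms in separate sets of variables. -/

set_option linter.unusedSectionVars false

open MvPolynomial

namespace Pool.Agent.Bloch

section
variable {K : Type} [Field K] [CharZero K]
variable {σ : Type} [Fintype σ] {t : ℕ} {d : ℕ} [NeZero d]
variable (Y : Sys K σ t d)

/-- The isotypic parts determine the group of cycles. -/
theorem main_sum {ζ : K} (hζ : IsPrimitiveRoot ζ d) {i : ℕ}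
    (H0 : ∃ α : VH Y.Z (i + 1) →₀ K, ∀ V : VH Y.Z (i + 1),
      Finsupp.single V 1 ∈ Na Y (i + 1) (fun _ => 0) ⊔ Submodule.span K {α})
    (H : ∀ a : Fin t → ℕ, (∀ k, a k < d) → (∃ k, a k ≠ 0) → (d ∣ ∑ k, a k) →
      ∀ V, Finsupp.single V 1 ∈ Na Y (i + 1) a) :
    ∃ α : VH Y.Z (i + 1) →₀ K, ∀ V : VH Y.Z (i + 1),
      Finsupp.single V 1 ∈ RelH K Y.Z (i + 1) ⊔ Submodule.span K {α} := by
  classical
  have hd : 0 < d := Nat.pos_of_ne_zero (NeZero.ne d)
  obtain ⟨α, hα⟩ := H0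
  refine ⟨Em Y (i + 1) (fun _ => 0) α, fun V => ?_⟩
  set T := RelH K Y.Z (i + 1) ⊔
    Submodule.span K {Em Y (i + 1) (fun _ => 0) α} with hT
  have hRT : RelH K Y.Z (i + 1) ≤ T := le_sup_left
  have key : ∀ a : Fin t → ℕ, (∀ k, a k < d) →
      Em Y (i + 1) a (Finsupp.single V 1) ∈ T := by
    intro a had
    by_cases hs : d ∣ ∑ k, a k
    · by_cases h0 : ∀ k, a k = 0
      · have : a = fun _ => 0 := funext h0
        subst this
        obtain ⟨x, hx, y, hy, hxy⟩ := Submodule.mem_sup.1 (hα V)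
        rw [← hxy, map_add]
        obtain ⟨c, rfl⟩ := Submodule.mem_span_singleton.1 hy
        refine Submodule.add_mem _ (hRT (Em_Na Y (i + 1) _ hx)) ?_
        rw [map_smul]
        exact Submodule.smul_mem _ _ (Submodule.mem_sup_right
          (Submodule.mem_span_singleton_self _))
      · push Not at h0
        exact hRT (Em_Na Y (i + 1) a (H a had h0 hs V))
    · -- diagonal scaling
      obtain ⟨δ, hδ⟩ := exists_wt (d := d) (fun _ : Fin t => ζ) (fun _ => hζ.pow_eq_one)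
      have h1 : sc Y (i + 1) δ V = V := by
        apply Subtype.ext
        rw [sc_val]
        have : (fun s => wt δ (Y.β s)) = fun _ => ζ := by
          funext s; rw [hδ]
        rw [this]
        exact scl_homog ζ V.2.1 (hζ.ne_zero hd.ne')
      have h2 := Em_Tm Y (i + 1) a δ (Finsupp.single V 1)
      rw [Tm_single, h1] at h2
      have h3 : chr a δ = ζ ^ (∑ k, a k) := by
        unfold chr
        simp only [hδ]
        exact Finset.prod_pow_eq_pow_sum _ _ _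
      have h4 : chr a δ ≠ 1 := by
        rw [h3]
        intro h
        exact hs (hζ.dvd_of_pow_eq_one _ h)
      have h5 : (1 - chr a δ) • Em Y (i + 1) a (Finsupp.single V 1) = 0 := by
        rw [sub_smul, one_smul, ← h2, sub_self]
      rw [(smul_eq_zero.1 h5).resolve_left (sub_ne_zero.2 h4.symm)]
      exact Submodule.zero_mem _
  have hsum := sum_Em Y (i + 1) (Finsupp.single V 1)
  have hd0 : ((d : K) ^ t) ≠ 0 := pow_ne_zero _ (Nat.cast_ne_zero.2 hd.ne')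
  have h1 : ((d : K) ^ t) • Finsupp.single V (1 : K) ∈ T := by
    rw [← hsum]
    apply Submodule.sum_mem
    intro a _
    exact key (fun k => (a k : ℕ)) (fun k => (a k).2)
  have h2 := Submodule.smul_mem _ ((d : K) ^ t)⁻¹ h1
  rwa [smul_smul, inv_mul_cancel₀ hd0, one_smul] at h2

end

section
variable {σ : Type} [Fintype σ] {t : ℕ} {d : ℕ} [NeZero d]

open Classical in
theorem card_fib {T' : Type} (β : σ → Fin t) (ρ : Fin t → T') (j : T') (m : Fin t → ℕ)
    (hm : ∀ k, m k ≤ Nat.card {s : σ // β s = k}) :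
    ∑ k ∈ Finset.univ.filter (fun k => ρ k = j), m k ≤ Nat.card {s : σ // ρ (β s) = j} := by
  have h1 : Nat.card {s : σ // ρ (β s) = j} =
      (Finset.univ.filter (fun s => ρ (β s) = j)).card := by
    rw [Nat.card_eq_fintype_card, Fintype.card_subtype]
  have h2 : ∀ k, Nat.card {s : σ // β s = k} = (Finset.univ.filter (fun s => β s = k)).card := by
    intro k
    rw [Nat.card_eq_fintype_card, Fintype.card_subtype]
  rw [h1, Finset.card_eq_sum_card_fiberwise (f := β)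
    (t := Finset.univ.filter (fun k => ρ k = j)) (fun s hs => by
      rw [Finset.mem_coe, Finset.mem_filter] at hs ⊢
      exact ⟨Finset.mem_univ _, hs.2⟩)]
  apply Finset.sum_le_sum
  intro k hk
  rw [Finset.mem_filter] at hk
  refine (hm k).trans ?_
  rw [h2]
  apply Finset.card_le_card
  intro s hs
  rw [Finset.mem_filter] at hs
  rw [Finset.mem_filter, Finset.mem_filter]
  exact ⟨⟨Finset.mem_univ _, by rw [hs.2]; exact hk.2⟩, hs.2⟩

/-- The case of pivots with nonzero coefficients. -/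
theorem main_pv (β : σ → Fin t) (f : Fin t → MvPolynomial σ ℂ)
    (hf : ∀ k, BH β k d (f k)) (Z : Set (PrimeSpectrum (MvPolynomial σ ℂ)))
    (HZ : ∀ Q, Q ∈ Z ↔ ∑ k, f k ∈ Q.asIdeal) {ζ : ℂ} (hζ : IsPrimitiveRoot ζ d)
    (J₀ : Fin t → σ) (hJ₀ : ∀ k, β (J₀ k) = k)
    (hc : ∀ k, pvc f J₀ k ≠ 0) {i : ℕ} (hd2 : 2 ≤ d) (hi : 1 ≤ i) (m : Fin t → ℕ)
    (hm : ∀ k, m k ≤ Nat.card {s : σ // β s = k}) (hC : Cond d m)
    (hsum : d * (1 + i) < ∑ k, m k) :
    ∃ α : VH Z (i + 1) →₀ ℂ, ∀ V : VH Z (i + 1),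
      Finsupp.single V 1 ∈ RelH ℂ Z (i + 1) ⊔ Submodule.span ℂ {α} := by
  classical
  refine main_sum (sys1 β f hf Z HZ) hζ ?_ ?_
  · obtain ⟨E, h1, h2, k₀, hk₀⟩ := exists_plan_zero hd2 hi hC hsum
    exact plan_one β f hf Z HZ hζ J₀ hJ₀ hc E (fun k hk => (h1 k hk).trans (hm k)) h2 k₀ hk₀
  · intro a had ha has V
    obtain ⟨T', Q', _, _, ρ, π, E, hρ, hπ, hπa, hE, hcard, hyp⟩ := exists_plan hd2 hi hC hsum has
    refine plan_ne β f hf Z HZ hζ J₀ hJ₀ hc a has ?_ ρ hρ π hπ hπa E ?_ hcard hyp V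
    · obtain ⟨k, hk⟩ := ha
      refine ⟨k, fun hdv => ?_⟩
      have := Nat.le_of_dvd (Nat.pos_of_ne_zero hk) hdv
      have := had k
      omega
    · intro j hj
      have h1 := card_fib β ρ j m hm
      have h2 := hE j hj
      exact ⟨h2.1.trans h1, fun h => (h2.2 h).trans h1⟩

/-- Sums of nonzero forms in separate sets of variables. -/
theorem main_H (β : σ → Fin t) (hβ : Function.Surjective β) (f : Fin t → MvPolynomial σ ℂ)
    (hf : ∀ k, BH β k d (f k)) (hf0 : ∀ k, f k ≠ 0) (Z : Set (PrimeSpectrum (MvPolynomial σ ℂ)))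
    (HZ : ∀ Q, Q ∈ Z ↔ ∑ k, f k ∈ Q.asIdeal) {ζ : ℂ} (hζ : IsPrimitiveRoot ζ d)
    {i : ℕ} (hd2 : 2 ≤ d) (hi : 1 ≤ i) (m : Fin t → ℕ)
    (hm : ∀ k, m k ≤ Nat.card {s : σ // β s = k}) (hC : Cond d m)
    (hsum : d * (1 + i) < ∑ k, m k) :
    ∃ α : VH Z (i + 1) →₀ ℂ, ∀ V : VH Z (i + 1),
      Finsupp.single V 1 ∈ RelH ℂ Z (i + 1) ⊔ Submodule.span ℂ {α} := by
  classical
  choose J₀ hJ₀ using hβ
  choose q₀ hq₀ hq₁ using fun k => exists_point β (hJ₀ k) (hf k) (hf0 k)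
  let q : σ → ℂ := fun s => q₀ (β s) s
  have hq : ∀ k, q (J₀ k) = 0 := by
    intro k
    change q₀ (β (J₀ k)) (J₀ k) = 0
    rw [hJ₀]
    exact hq₀ k
  set Φ := shr β J₀ q with hΦ
  apply transport ℂ (shr_surj β J₀ q hJ₀ hq) (shr_inj β J₀ q hJ₀ hq) (shr_gr β J₀ q)
  · intro p hp q hpq
    rw [HZ] at hp ⊢
    exact hpq hp
  · refine main_pv β (fun k => Φ (f k)) (fun k => shr_bh β J₀ q hJ₀ (hf k)) _ ?_ hζ J₀ hJ₀ ?_
      hd2 hi m hm hC hsum
    · intro Q
      change ctr ℂ Φ Q ∈ Z ↔ _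
      rw [HZ, mem_ctr, map_sum]
    · intro k h
      apply hq₁ k
      unfold pvc at h
      rw [shr_coeff β J₀ q hJ₀ (hf k)] at h
      refine Eq.trans ?_ h
      apply (hf k).aeval_congr
      intro s hs
      change _ = _ + q₀ (β s) s
      rw [hs]

/-- The theorem with rational coefficients. -/
theorem main_HQ (β : σ → Fin t) (hβ : Function.Surjective β) (f : Fin t → MvPolynomial σ ℂ)
    (hf : ∀ k, BH β k d (f k)) (hf0 : ∀ k, f k ≠ 0) (Z : Set (PrimeSpectrum (MvPolynomial σ ℂ)))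
    (HZ : ∀ Q, Q ∈ Z ↔ ∑ k, f k ∈ Q.asIdeal)
    {i : ℕ} (hd2 : 2 ≤ d) (hi : 1 ≤ i) (m : Fin t → ℕ)
    (hm : ∀ k, m k ≤ Nat.card {s : σ // β s = k}) (hC : Cond d m)
    (hsum : d * (1 + i) < ∑ k, m k) :
    Module.rank ℚ ((VH Z (i + 1) →₀ ℚ) ⧸ Submodule.span ℚ (pdiv Z (i + 1))) ≤ 1 := by
  have hζ : IsPrimitiveRoot (Complex.exp (2 * Real.pi * Complex.I / d)) d :=
    Complex.isPrimitiveRoot_exp d (NeZero.ne d)
  obtain ⟨α, hα⟩ := main_H β hβ f hf hf0 Z HZ hζ hd2 hi m hm hC hsum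
  apply descent _ α
  intro V
  exact (sup_le_sup (relH_le Z (i + 1)) le_rfl : _ ⊔ Submodule.span ℂ {α} ≤ _) (hα V)

end

end Pool.Agent.Bloch
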