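import Pool.Agent.Bloch.MainH
import Pool.Agent.Bloch.SysST

/-! Hypersurfaces which are sums of forms in separate sets of variables: final form. -/

set_option linter.unusedSectionVars false

open MvPolynomial

namespace Pool.Agent.Bloch

/-- the index set of the variables -/
abbrev VarsN {t : ℕ} (n : Fin t → ℕ) : Type := (k : Fin t) × Fin (n k)

theorem bh_renameN {t : ℕ} {n : Fin t → ℕ} {d : ℕ} (k : Fin t) (f : MvPolynomial (Fin (n k)) ℂ)
    (hf : f.IsHomogeneous d) :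
    BH (fun s : VarsN n => s.1) k d (rename (fun j => (⟨k, j⟩ : VarsN n)) f) := by
  classical
  have hinj : Function.Injective (fun j => (⟨k, j⟩ : VarsN n)) := by
    intro j j' h
    simpa using h
  intro m hm
  rw [support_rename_of_injective hinj, Finset.mem_image] at hm
  obtain ⟨m', hm', rfl⟩ := hm
  refine ⟨fun s hs => ?_, ?_⟩
  · by_contra h
    apply hs
    apply Finsupp.mapDomain_of_notMem_range
    rintro ⟨j, rfl⟩
    exact h rfl
  · rw [Finsupp.degree_mapDomain]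
    have := hf (mem_support_iff.1 hm')
    rw [Finsupp.degree_eq_weight_one]
    exact this

theorem card_blk {t : ℕ} (n : Fin t → ℕ) (k : Fin t) : Nat.card {s : VarsN n // s.1 = k} = n k := by
  have e : {s : VarsN n // s.1 = k} ≃ Fin (n k) :=
    { toFun := fun s => Fin.cast (by rw [s.2]) s.1.2
      invFun := fun j => ⟨⟨k, j⟩, rfl⟩
      left_inv := by
        rintro ⟨⟨k', j⟩, h⟩
        subst h
        rfl
      right_inv := fun j => rfl }
  rw [Nat.card_congr e, Nat.card_eq_fintype_card, Fintype.card_fin]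

/-- the ideal of the equation -/
noncomputable def eqH {t : ℕ} (n : Fin t → ℕ)
    (f : (k : Fin t) → MvPolynomial (Fin (n k)) ℂ) : Ideal (MvPolynomial (VarsN n) ℂ) :=
  Ideal.span {∑ k : Fin t, rename (fun j => (⟨k, j⟩ : VarsN n)) (f k)}

theorem main_HS (d t i : ℕ) (hd : 2 ≤ d) (hi : 1 ≤ i) (n : Fin t → ℕ)
    (f : (k : Fin t) → MvPolynomial (Fin (n k)) ℂ)
    (hf : ∀ k, (f k).IsHomogeneous d) (hf0 : ∀ k, f k ≠ 0)
    (m : Fin t → ℕ) (hm : ∀ k, 0 < m k ∧ m k ≤ n k) (hsum : d * (i + 1) < ∑ k, m k)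
    (H : ((∀ k, m k ≤ 2 ∨ m k = d ∨ m k = d + 1) ∧
        ∀ k l, m k = d + 1 → m l = d + 1 → k = l) ∨
      ((∀ k, m k ∣ d ∨ m k = d + 1) ∧ (∀ k l, m k = d + 1 → m l = d + 1 → k = l) ∧
        ∀ k l, m k ∣ d → m l ∣ d → m k ∣ m l ∨ m l ∣ m k) ∨
      ((∀ k, m k ≤ 3) ∧ d % 3 ≠ 1) ∨
      (∃ w, w ∣ d + 1 ∧ ∀ k, m k = w) ∨ Cond d m) :
    Module.rank ℚ ((VH {Q : PrimeSpectrum (MvPolynomial (VarsN n) ℂ) | eqH n f ≤ Q.asIdeal} (i + 1)
        →₀ ℚ) ⧸
      Submodule.span ℚ (pdiv {Q : PrimeSpectrum (MvPolynomial (VarsN n) ℂ) | eqH n f ≤ Q.asIdeal}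
        (i + 1))) ≤ 1 := by
  haveI : NeZero d := ⟨by omega⟩
  have hC : Cond d m := by
    rcases H with H | H | H | ⟨w, hw, H⟩ | H
    · exact cond_two (by omega) m (fun k => (hm k).1) H.1 H.2
    · exact cond_chain (by omega) m (fun k => (hm k).1) H.1 H.2.1 H.2.2
    · exact cond_three (by omega) m (fun k => (hm k).1) H.1 H.2
    · exact cond_eq m w H hw
    · exact H
  refine main_HQ (d := d) (fun s : VarsN n => s.1) (fun k => ⟨⟨k, ⟨0, (hm k).1.trans_le (hm k).2⟩⟩, rfl⟩)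
    (fun k => rename (fun j => (⟨k, j⟩ : VarsN n)) (f k)) (fun k => bh_renameN k (f k) (hf k))
    ?_ _ ?_ hd hi m ?_ hC (by rwa [add_comm 1 i])
  · intro k h
    apply hf0 k
    have hinj : Function.Injective (fun j => (⟨k, j⟩ : VarsN n)) := by
      intro j j' h
      simpa using h
    exact (map_eq_zero_iff _ (rename_injective _ hinj)).1 h
  · intro Q
    change Ideal.span _ ≤ _ ↔ _
    rw [Ideal.span_singleton_le_iff_mem]
  · intro k
    rw [card_blk]
    exact (hm k).2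

end Pool.Agent.Bloch
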