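import Pool.Agent.Bloch.Rep

set_option linter.unusedSectionVars false

open MvPolynomial

namespace Pool.Agent.Bloch

variable {K : Type} [Field K] [CharZero K]

section
variable {σ : Type} [Fintype σ] {t : ℕ} {d : ℕ} [NeZero d]
variable (Y : Sys K σ t d)

/-- the relations of coinvariants -/
noncomputable def IG (k : ℕ) (G : Set (Gam K d t)) : Submodule K (VH Y.Z k →₀ K) :=
  Submodule.span K {w | ∃ g ∈ G, ∃ V : VH Y.Z k,
    w = Finsupp.single (sc Y k g V) 1 - Finsupp.single V 1}

/-- the relations of the isotypic part -/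
noncomputable def Na (k : ℕ) (a : Fin t → ℕ) : Submodule K (VH Y.Z k →₀ K) :=
  RelH K Y.Z k ⊔ Submodule.span K {w | ∃ (γ : Gam K d t) (V : VH Y.Z k),
    w = Finsupp.single (sc Y k γ V) 1 - chr a γ • Finsupp.single V (1 : K)}

theorem Tm_IG (k : ℕ) (G : Set (Gam K d t)) (γ : Gam K d t) {z : VH Y.Z k →₀ K}
    (hz : z ∈ IG Y k G) : Tm Y k γ z ∈ IG Y k G := by
  unfold IG at hz
  induction hz using Submodule.span_induction with
  | mem z hz =>
    obtain ⟨g, hg, V, rfl⟩ := hz
    refine Submodule.subset_span ⟨g, hg, sc Y k γ V, ?_⟩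
    rw [map_sub, Tm_single, Tm_single, sc_mul, sc_mul, mul_comm]
  | zero => rw [map_zero]; exact Submodule.zero_mem _
  | add x y _ _ hx hy => rw [map_add]; exact Submodule.add_mem _ hx hy
  | smul c x _ hx => rw [map_smul]; exact Submodule.smul_mem _ _ hx

theorem Em_Na (k : ℕ) (a : Fin t → ℕ) {z : VH Y.Z k →₀ K} (hz : z ∈ Na Y k a) :
    Em Y k a z ∈ RelH K Y.Z k := by
  obtain ⟨x, hx, y, hy, rfl⟩ := Submodule.mem_sup.1 hz
  rw [map_add]
  refine Submodule.add_mem _ (Em_mem Y k a (fun γ z hz => Tm_relH Y k γ hz) hx) ?_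
  clear hz hx
  induction hy using Submodule.span_induction with
  | mem z hz =>
    obtain ⟨γ, V, rfl⟩ := hz
    rw [map_sub, map_smul, ← Tm_single, Em_Tm, sub_self]
    exact Submodule.zero_mem _
  | zero => rw [map_zero]; exact Submodule.zero_mem _
  | add x y _ _ hx hy => rw [map_add]; exact Submodule.add_mem _ hx hy
  | smul c x _ hx => rw [map_smul]; exact Submodule.smul_mem _ _ hx

/-- The main theorem over a field containing the roots of unity. -/
theorem main_K [Fintype Y.ι] (hβ : Function.Surjective Y.β) {ζ : K} (hζ : IsPrimitiveRoot ζ d)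
    {i : ℕ} (G : Set (Gam K d t))
    (H : ∀ a : Fin t → ℕ, (d ∣ ∑ k, a k) → (∀ g ∈ G, chr a g = 1) →
      ∃ π : Fin t → Fin (Fintype.card Y.ι + i + 1), Function.Surjective π ∧
        ∀ l, d ∣ ∑ k, if π k = l then a k else 0) :
    ∃ α : VH Y.Z (i + 1) →₀ K, ∀ V : VH Y.Z (i + 1),
      Finsupp.single V 1 ∈ RelH K Y.Z (i + 1) ⊔ IG Y (i + 1) G ⊔ Submodule.span K {α} := by
  classical
  have hd : 0 < d := Nat.pos_of_ne_zero (NeZero.ne d)
  have hN2 : ∀ a : Fin t → ℕ, ∀ c : Fin t → K, (∀ l, c l ^ d = 1) → ∀ V V' : VH Y.Z (i + 1),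
      V'.1 = ctr K (scl K (fun s => c (Y.β s))) V.1 →
        Finsupp.single V' 1 - (∏ k, c k ^ a k) • Finsupp.single V (1 : K) ∈ Na Y (i + 1) a := by
    intro a c hc V V' h
    obtain ⟨γ, hγ⟩ := exists_wt c hc
    have h1 : V' = sc Y (i + 1) γ V := by
      apply Subtype.ext
      rw [h, sc_val]
      congr 2
      funext s
      rw [hγ]
    have h2 : (∏ k, c k ^ a k) = chr a γ := by
      unfold chr
      apply Finset.prod_congr rfl
      intro k _
      rw [hγ]
    rw [h1, h2]
    exact Submodule.mem_sup_right (Submodule.subset_span ⟨γ, V, rfl⟩)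
  -- the trivial character
  obtain ⟨π₀, hπ₀, _⟩ := H (fun _ => 0) (by simp) (by
    intro g _
    unfold chr
    simp)
  have hcard : i + Fintype.card Y.ι < t := by
    have := Fintype.card_le_of_surjective _ hπ₀
    rw [Fintype.card_fin, Fintype.card_fin] at this
    omega
  obtain ⟨α, hα⟩ := chi_one K hd hζ Y.β hβ Y.f Y.hf Y.HZ hcard (Na Y (i + 1) (fun _ => 0))
    le_sup_left (by
      intro c hc V V' h
      have := hN2 (fun _ => 0) c hc V V' h
      simp only [pow_zero, Finset.prod_const_one, one_smul] at this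
      exact this)
  refine ⟨Em Y (i + 1) (fun _ => 0) α, fun V => ?_⟩
  set T := RelH K Y.Z (i + 1) ⊔ IG Y (i + 1) G ⊔
    Submodule.span K {Em Y (i + 1) (fun _ => 0) α} with hT
  have hRT : RelH K Y.Z (i + 1) ≤ T := le_sup_left.trans le_sup_left
  have hIT : IG Y (i + 1) G ≤ T := le_sup_right.trans le_sup_left
  have key : ∀ a : Fin t → ℕ, (∀ k, a k < d) →
      Em Y (i + 1) a (Finsupp.single V 1) ∈ T := by
    intro a had
    by_cases hG : ∀ g ∈ G, chr a g = 1
    · by_cases hs : d ∣ ∑ k, a k
      · by_cases h0 : ∀ k, a k = 0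
        · have : a = fun _ => 0 := funext h0
          subst this
          obtain ⟨x, hx, y, hy, hxy⟩ := Submodule.mem_sup.1 (hα V)
          rw [← hxy, map_add]
          obtain ⟨c, rfl⟩ := Submodule.mem_span_singleton.1 hy
          refine Submodule.add_mem _ (hRT (Em_Na Y (i + 1) _ hx)) ?_
          rw [map_smul]
          exact Submodule.smul_mem _ _ (Submodule.mem_sup_right
            (Submodule.mem_span_singleton_self _))
        · push Not at h0
          obtain ⟨k₁, hk₁⟩ := h0
          obtain ⟨π, hπ, hπa⟩ := H a hs hG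
          have := chi_ne hd hζ Y.β hβ Y.f Y.hf Y.HZ (i := i) (q := Fintype.card Y.ι + i)
            (by omega) a π hπ hπa k₁ (by
              intro hdvd
              have := Nat.le_of_dvd (Nat.pos_of_ne_zero hk₁) hdvd
              have := had k₁
              omega) (Na Y (i + 1) a) le_sup_left (hN2 a) V
          exact hRT (Em_Na Y (i + 1) a this)
      · -- diagonal scaling
        obtain ⟨δ, hδ⟩ := exists_wt (d := d) (fun _ : Fin t => ζ) (fun _ => hζ.pow_eq_one)
        have h1 : sc Y (i + 1) δ V = V := by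
          apply Subtype.ext
          rw [sc_val]
          have : (fun s => wt δ (Y.β s)) = fun _ => ζ := by
            funext s; rw [hδ]
          rw [this]
          exact scl_homog ζ V.2.1 (hζ.ne_zero hd.ne')
        have h2 := Em_Tm Y (i + 1) a δ (Finsupp.single V 1)
        rw [Tm_single, h1] at h2
        have h3 : chr a δ = ζ ^ (∑ k, a k) := by
          unfold chr
          simp only [hδ]
          exact Finset.prod_pow_eq_pow_sum _ _ _
        have h4 : chr a δ ≠ 1 := by
          rw [h3]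
          intro h
          exact hs (hζ.dvd_of_pow_eq_one _ h)
        have h5 : (1 - chr a δ) • Em Y (i + 1) a (Finsupp.single V 1) = 0 := by
          rw [sub_smul, one_smul, ← h2, sub_self]
        rw [(smul_eq_zero.1 h5).resolve_left (sub_ne_zero.2 h4.symm)]
        exact Submodule.zero_mem _
    · push Not at hG
      obtain ⟨g, hg, hg1⟩ := hG
      have h1 : Em Y (i + 1) a (Finsupp.single (sc Y (i + 1) g V) 1 - Finsupp.single V 1) ∈
          IG Y (i + 1) G :=
        Em_mem Y (i + 1) a (fun γ z hz => Tm_IG Y (i + 1) G γ hz)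
          (Submodule.subset_span ⟨g, hg, V, rfl⟩)
      rw [map_sub, ← Tm_single, Em_Tm] at h1
      have h2 : Em Y (i + 1) a (Finsupp.single V 1) = (chr a g - 1)⁻¹ •
          (chr a g • Em Y (i + 1) a (Finsupp.single V 1) - Em Y (i + 1) a (Finsupp.single V 1)) := by
        conv_rhs => rw [← one_smul K (Em Y (i + 1) a (Finsupp.single V 1)), smul_smul, ← sub_smul,
          smul_smul, mul_one, inv_mul_cancel₀ (sub_ne_zero.2 hg1), one_smul]
      rw [h2]
      exact Submodule.smul_mem _ _ (hIT h1)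
  have hsum := sum_Em Y (i + 1) (Finsupp.single V 1)
  have hd0 : ((d : K) ^ t) ≠ 0 := pow_ne_zero _ (Nat.cast_ne_zero.2 hd.ne')
  have h1 : ((d : K) ^ t) • Finsupp.single V (1 : K) ∈ T := by
    rw [← hsum]
    apply Submodule.sum_mem
    intro a _
    exact key (fun k => (a k : ℕ)) (fun k => (a k).2)
  have h2 := Submodule.smul_mem _ ((d : K) ^ t)⁻¹ h1
  rwa [smul_smul, inv_mul_cancel₀ hd0, one_smul] at h2

end

end Pool.Agent.Bloch
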