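import Pool.Agent.Bloch.MainK
import Pool.Agent.Bloch.Desc

set_option linter.unusedSectionVars false

open MvPolynomial

namespace Pool.Agent.Bloch

section
variable {σ : Type} [Fintype σ] {t : ℕ} {d : ℕ} [NeZero d]
variable (Y : Sys ℂ σ t d)

/-- principal divisors with rational coefficients -/
def pdiv {σ : Type} [Fintype σ] (Z : Set (PrimeSpectrum (MvPolynomial σ ℂ))) (k : ℕ) :
    Set (VH Z k →₀ ℚ) :=
  {z | ∃ (W : VH Z (k + 1)) (n : ℕ) (f g : MvPolynomial σ ℂ),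
    f.IsHomogeneous n ∧ g.IsHomogeneous n ∧ f ∉ W.1.asIdeal ∧ g ∉ W.1.asIdeal ∧
    ∀ V : VH Z k, z V = ((len V.1 (MvPolynomial σ ℂ ⧸ (W.1.asIdeal ⊔ Ideal.span {f}))).toNat : ℚ)
      - ((len V.1 (MvPolynomial σ ℂ ⧸ (W.1.asIdeal ⊔ Ideal.span {g}))).toNat : ℚ)}

/-- orbit differences with rational coefficients -/
def odiff (k : ℕ) (G : Set (Gam ℂ d t)) : Set (VH Y.Z k →₀ ℚ) :=
  {z | ∃ g ∈ G, ∃ V : VH Y.Z k, z = Finsupp.single (sc Y k g V) 1 - Finsupp.single V 1}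

theorem relH_le (Z : Set (PrimeSpectrum (MvPolynomial σ ℂ))) (k : ℕ) :
    RelH ℂ Z k ≤ Submodule.span ℂ (castf '' (pdiv Z k)) := by
  unfold RelH
  rw [Submodule.span_le]
  rintro z ⟨W, n, f, g, hf, hg, hfW, hgW, rfl⟩
  apply Submodule.subset_span
  refine ⟨res ℚ Z k (divCyc ℂ ℚ k W.1 f - divCyc ℂ ℚ k W.1 g),
    ⟨W, n, f, g, hf, hg, hfW, hgW, ?_⟩, ?_⟩
  · intro V
    rw [res_apply, Finsupp.sub_apply, divCyc_apply ℂ ℚ W.2.2.2 hfW V.1 V.2.2.2,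
      divCyc_apply ℂ ℚ W.2.2.2 hgW V.1 V.2.2.2]
  · ext V
    rw [castf_apply, res_apply, res_apply, Finsupp.sub_apply, Finsupp.sub_apply,
      divCyc_apply ℂ ℚ W.2.2.2 hfW V.1 V.2.2.2, divCyc_apply ℂ ℚ W.2.2.2 hgW V.1 V.2.2.2,
      divCyc_apply ℂ ℂ W.2.2.2 hfW V.1 V.2.2.2, divCyc_apply ℂ ℂ W.2.2.2 hgW V.1 V.2.2.2]
    push_cast
    rfl

theorem castf_single {ι : Type} (V : ι) : castf (Finsupp.single V (1 : ℚ)) =
    Finsupp.single V (1 : ℂ) := by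
  classical
  ext W
  rw [castf_apply, Finsupp.single_apply, Finsupp.single_apply]
  split_ifs <;> simp

theorem IG_le (k : ℕ) (G : Set (Gam ℂ d t)) :
    IG Y k G ≤ Submodule.span ℂ (castf '' (odiff Y k G)) := by
  unfold IG
  rw [Submodule.span_le]
  rintro z ⟨g, hg, V, rfl⟩
  apply Submodule.subset_span
  exact ⟨_, ⟨g, hg, V, rfl⟩, by rw [map_sub, castf_single, castf_single]⟩

/-- The main theorem with rational coefficients. -/
theorem main_Q [Fintype Y.ι] (hβ : Function.Surjective Y.β) {ζ : ℂ} (hζ : IsPrimitiveRoot ζ d)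
    {i : ℕ} (G : Set (Gam ℂ d t))
    (H : ∀ a : Fin t → ℕ, (d ∣ ∑ k, a k) → (∀ g ∈ G, chr a g = 1) →
      ∃ π : Fin t → Fin (Fintype.card Y.ι + i + 1), Function.Surjective π ∧
        ∀ l, d ∣ ∑ k, if π k = l then a k else 0) :
    Module.rank ℚ ((VH Y.Z (i + 1) →₀ ℚ) ⧸
      Submodule.span ℚ (pdiv Y.Z (i + 1) ∪ odiff Y (i + 1) G)) ≤ 1 := by
  obtain ⟨α, hα⟩ := main_K Y hβ hζ G H
  apply descent _ α
  intro V
  rw [Set.image_union, Submodule.span_union]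
  exact (sup_le_sup (sup_le_sup (relH_le Y.Z (i + 1)) (IG_le Y (i + 1) G)) le_rfl :
    _ ⊔ Submodule.span ℂ {α} ≤ _) (hα V)

end

end Pool.Agent.Bloch
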