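import Pool.Agent.Bloch.Gal6

set_option linter.unusedSectionVars false

open MvPolynomial

namespace Pool.Agent.Bloch

section height
variable {Ω : Type} [Field Ω]

/-- the ideal of the origin -/
noncomputable def orig (Ω : Type) [Field Ω] (τ : Type) : Ideal (MvPolynomial τ Ω) :=
  RingHom.ker (aeval (fun _ => (0 : Ω)) : MvPolynomial τ Ω →ₐ[Ω] Ω)

theorem mem_orig {τ : Type} (f : MvPolynomial τ Ω) :
    f ∈ orig Ω τ ↔ aeval (fun _ => (0 : Ω)) f = 0 := Iff.rfl

theorem orig_max (τ : Type) : (orig Ω τ).IsMaximal :=
  RingHom.ker_isMaximal_of_surjective _ (fun c => ⟨C c, by simp⟩)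

theorem orig_height (τ : Type) [Finite τ] : (orig Ω τ).height = Nat.card τ := by
  induction τ using Finite.induction_empty_option with
  | of_equiv e h =>
    rename_i α β
    have h1 : orig Ω β = (orig Ω α).comap (renameEquiv Ω e.symm).toRingEquiv := by
      ext f
      rw [Ideal.mem_comap, mem_orig, mem_orig]
      change _ ↔ aeval (fun _ => (0 : Ω)) (rename e.symm f) = 0
      rw [aeval_rename]
      rfl
    rw [h1, RingEquiv.height_comap, h, Nat.card_congr e]
  | h_empty =>
    have h1 : orig Ω PEmpty = ⊥ := by
      rw [eq_bot_iff]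
      intro f hf
      rw [mem_orig] at hf
      obtain ⟨c, rfl⟩ := C_surjective PEmpty f
      rw [aeval_C] at hf
      change c = 0 at hf
      rw [hf, map_zero]
      exact Ideal.zero_mem _
    rw [h1, Ideal.height_bot]
    simp
  | h_option h =>
    rename_i α hα
    have hmaxP := orig_max (Ω := Ω) (Option α)
    let e := (optionEquivLeft Ω α).toRingEquiv
    let Q : Ideal (Polynomial (MvPolynomial α Ω)) := (orig Ω (Option α)).comap e.symm
    haveI hQ : Q.IsMaximal := Ideal.comap_isMaximal_of_equiv e.symm
    have hfin : (orig Ω (Option α)).height = Q.height := (RingEquiv.height_comap e.symm _).symm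
    haveI : Q.LiesOver (orig Ω α) := by
      constructor
      ext g
      rw [Ideal.mem_comap, Ideal.mem_comap, mem_orig, mem_orig]
      have h1 : e.symm (algebraMap (MvPolynomial α Ω) (Polynomial (MvPolynomial α Ω)) g) =
          rename some g := by
        have h2 : (((optionEquivLeft Ω α).symm : Polynomial (MvPolynomial α Ω) →ₐ[Ω] _).comp
            (IsScalarTower.toAlgHom Ω (MvPolynomial α Ω) (Polynomial (MvPolynomial α Ω)))) =
            rename some := by
          apply MvPolynomial.algHom_ext
          intro s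
          rw [AlgHom.comp_apply, rename_X]
          change (optionEquivLeft Ω α).symm (Polynomial.C (X s)) = _
          rw [optionEquivLeft_symm_C_X]
        exact DFunLike.congr_fun h2 g
      rw [h1, aeval_rename]
      rfl
    rw [hfin, Polynomial.height_eq_height_add_one (orig Ω α) Q, h, Finite.card_option]
    push_cast
    rfl

end height

section osc
variable {K : Type} [Field K] {Ω : Type} [Field Ω] [Algebra K Ω] [CharZero Ω]
variable {σ : Type} [Fintype σ]

/-- restriction to the line through two points -/
theorem homog_line {d : ℕ} {f : MvPolynomial σ K} (hf : f.IsHomogeneous d)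
    (α v : σ → Ω) {A B : Ω} (h : ∀ u : Ω, aeval (fun j => α j + u * v j) f = A + B * u ^ d)
    (hd : 1 ≤ d) (s u : Ω) : aeval (fun j => s * α j + u * v j) f =
      s ^ d * aeval α f + u ^ d * aeval v f := by
  have hA : aeval α f = A := by
    have h1 := h 0
    rw [zero_pow (by omega), mul_zero, add_zero] at h1
    rw [← h1]
    congr 1
    apply MvPolynomial.algHom_ext
    intro j
    rw [aeval_X, aeval_X, zero_mul, add_zero]
  have hs : ∀ s u : Ω, s ≠ 0 → aeval (fun j => s * α j + u * v j) f = s ^ d * A + u ^ d * B := by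
    intro s u hs
    rw [isHomogeneous_aeval hf (fun j => s * α j + u * v j) (fun j => α j + (u / s) * v j) s
      (fun j => by field_simp), h, div_pow]
    field_simp
  have hB : aeval v f = B := by
    let P : Polynomial Ω := aeval (fun j => Polynomial.C (α j) * Polynomial.X +
      Polynomial.C (v j)) f
    have hP : ∀ s : Ω, P.eval s = aeval (fun j => s * α j + 1 * v j) f := by
      intro s
      have h1 := comp_aeval_apply (R := K) (fun j => Polynomial.C (α j) * Polynomial.X +
        Polynomial.C (v j)) ((Polynomial.aeval s : Polynomial Ω →ₐ[Ω] Ω).restrictScalars K) f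
      change Polynomial.aeval s P = _ at h1
      rw [Polynomial.coe_aeval_eq_eval] at h1
      rw [h1]
      congr 1
      apply MvPolynomial.algHom_ext
      intro j
      rw [aeval_X, aeval_X]
      change Polynomial.aeval s _ = _
      rw [map_add, map_mul, Polynomial.aeval_C, Polynomial.aeval_C, Polynomial.aeval_X, one_mul,
        mul_comm]
      rfl
    have hPe : P = Polynomial.C A * Polynomial.X ^ d + Polynomial.C B := by
      apply Polynomial.eq_of_infinite_eval_eq
      apply Set.Infinite.mono (s := {s : Ω | s ≠ 0})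
      · intro s hs0
        change P.eval s = _
        rw [hP, hs s 1 hs0, one_pow, one_mul, Polynomial.eval_add, Polynomial.eval_mul,
          Polynomial.eval_C, Polynomial.eval_C, Polynomial.eval_pow, Polynomial.eval_X, mul_comm]
      · haveI : Infinite Ω := CharZero.infinite Ω
        exact (Set.finite_singleton (0 : Ω)).infinite_compl
    have h2 := hP 0
    rw [hPe, Polynomial.eval_add, Polynomial.eval_mul, Polynomial.eval_C, Polynomial.eval_C,
      Polynomial.eval_pow, Polynomial.eval_X, zero_pow (by omega), mul_zero, zero_add] at h2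
    rw [h2]
    congr 1
    apply MvPolynomial.algHom_ext
    intro j
    rw [aeval_X, aeval_X, zero_mul, zero_add, one_mul]
  by_cases h0 : s = 0
  · subst h0
    rw [isHomogeneous_aeval hf (fun j => 0 * α j + u * v j) v u (fun j => by ring),
      zero_pow (by omega), zero_mul, zero_add]
  · rw [hs s u h0, hA, hB]

open Classical in
/-- the lines through a point -/
noncomputable def yv (B : σ → Prop) (Ω : Type) [Field Ω] (α : σ → Ω) (s : σ) :
    Polynomial (MvPolynomial {s : σ // B s} Ω) :=
  Polynomial.C (C (α s)) + Polynomial.C (if h : B s then X ⟨s, h⟩ else 0) * Polynomial.X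

open Classical in
/-- extension by zero -/
noncomputable def ez (B : σ → Prop) (v₀ : {s : σ // B s} → Ω) (s : σ) : Ω :=
  if h : B s then v₀ ⟨s, h⟩ else 0

open Classical in
theorem yv_map (B : σ → Prop) (α : σ → Ω) (v₀ : {s : σ // B s} → Ω) (f : MvPolynomial σ K) :
    (aeval (yv B Ω α) f).map (aeval v₀ : MvPolynomial {s : σ // B s} Ω →ₐ[Ω] Ω).toRingHom =
      aeval (fun s => Polynomial.C (α s) + Polynomial.C (ez B v₀ s) * Polynomial.X) f := by
  have h1 := comp_aeval_apply (R := K) (yv B Ω α)
    ((Polynomial.mapAlgHom (aeval v₀ : MvPolynomial {s : σ // B s} Ω →ₐ[Ω] Ω)).restrictScalars K) f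
  change (aeval (yv B Ω α) f).map _ = _ at h1
  refine Eq.trans h1 ?_
  congr 1
  apply MvPolynomial.algHom_ext
  intro s
  rw [aeval_X, aeval_X]
  change (yv B Ω α s).map _ = _
  unfold yv ez
  rw [Polynomial.map_add, Polynomial.map_mul, Polynomial.map_C, Polynomial.map_C,
    Polynomial.map_X]
  have e1 : (aeval v₀ : MvPolynomial {s : σ // B s} Ω →ₐ[Ω] Ω).toRingHom (C (α s)) = α s := by
    change aeval v₀ (C (α s)) = _
    rw [aeval_C]
    rfl
  have e2 : (aeval v₀ : MvPolynomial {s : σ // B s} Ω →ₐ[Ω] Ω).toRingHom
      (if h : B s then X ⟨s, h⟩ else 0) = if h : B s then v₀ ⟨s, h⟩ else 0 := by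
    split_ifs with h
    · change aeval v₀ (X _) = _
      rw [aeval_X]
    · rw [map_zero]
  rw [e1, e2]

/-- Existence of osculating directions. -/
theorem exists_osc [IsAlgClosed Ω] {ι : Type} [Fintype ι] (B : σ → Prop)
    (f : ι → MvPolynomial σ K) {d : ℕ} (hd : 1 ≤ d) (hf : ∀ e, (f e).IsHomogeneous d)
    (α : σ → Ω) (s₀ : σ) (hs₀ : B s₀) (z : Prop) [Decidable z]
    (hn : Fintype.card ι * (d - 1) + (if z then 1 else 0) < Nat.card {s : σ // B s}) :
    ∃ v : σ → Ω, (∀ s, ¬ B s → v s = 0) ∧ v ≠ 0 ∧ (z → v s₀ = 0) ∧ ∀ e (s u : Ω),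
      aeval (fun j => s * α j + u * v j) (f e) = s ^ d * aeval α (f e) + u ^ d * aeval v (f e) := by
  classical
  let τ := {s : σ // B s}
  let g : ι → Polynomial (MvPolynomial τ Ω) := fun e => aeval (yv B Ω α) (f e)
  let c : (ι × Fin (d - 1)) ⊕ {x : Unit // z} → MvPolynomial τ Ω :=
    Sum.elim (fun p => (g p.1).coeff (p.2 + 1)) (fun _ => X ⟨s₀, hs₀⟩)
  have hco : ∀ (v₀ : τ → Ω) (e : ι) (b : ℕ), aeval v₀ ((g e).coeff b) =
      (aeval (fun s => Polynomial.C (α s) + Polynomial.C (ez B v₀ s) * Polynomial.X) (f e) :
        Polynomial Ω).coeff b := by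
    intro v₀ e b
    rw [← yv_map, Polynomial.coeff_map]
    rfl
  have hex : ∃ v₀ : τ → Ω, v₀ ≠ 0 ∧ ∀ p, aeval v₀ (c p) = 0 := by
    by_contra hcon
    push Not at hcon
    set I := Ideal.span (Set.range c) with hI
    have hz : ∀ p, aeval (fun _ => (0 : Ω)) (c p) = 0 := by
      rintro (⟨e, b⟩ | x)
      · change aeval (fun _ => (0 : Ω)) ((g e).coeff (b + 1)) = 0
        rw [hco]
        have h1 : (aeval (fun s => Polynomial.C (α s) +
            Polynomial.C (ez B (fun _ => (0 : Ω)) s) * Polynomial.X) (f e) : Polynomial Ω) =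
            Polynomial.C (aeval α (f e)) := by
          have h2 := comp_aeval_apply (R := K) α
            (IsScalarTower.toAlgHom K Ω (Polynomial Ω)) (f e)
          change Polynomial.C (aeval α (f e)) = _ at h2
          rw [h2]
          congr 1
          apply MvPolynomial.algHom_ext
          intro s
          rw [aeval_X, aeval_X]
          unfold ez
          rw [dite_eq_ite, ite_self, map_zero, zero_mul, add_zero]
          rfl
        rw [h1, Polynomial.coeff_C, if_neg (by omega)]
      · change aeval (fun _ => (0 : Ω)) (X (⟨s₀, hs₀⟩ : τ)) = 0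
        rw [aeval_X]
    have hzl : zeroLocus Ω I = {fun _ => (0 : Ω)} := by
      ext v₀
      rw [hI, zeroLocus_span, Set.mem_singleton_iff]
      constructor
      · intro h
        by_contra hne
        obtain ⟨p, hp⟩ := hcon v₀ hne
        exact hp (h (c p) ⟨p, rfl⟩)
      · rintro rfl _ ⟨p, rfl⟩
        exact hz p
    have hrad : I.radical = orig Ω τ := by
      rw [← vanishingIdeal_zeroLocus_eq_radical (K := Ω) I, hzl]
      ext p
      rw [mem_vanishingIdeal_singleton_iff]
      rfl
    have hmin : orig Ω τ ∈ I.minimalPrimes := by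
      refine ⟨⟨(orig_max τ).isPrime, ?_⟩, ?_⟩
      · rw [← hrad]; exact Ideal.le_radical
      · rintro q ⟨hq1, hq2⟩ _
        rw [← hrad]
        exact hq1.radical_le_iff.2 hq2
    have hh := Ideal.height_le_card_of_mem_minimalPrimes_span (Set.finite_range c) hmin
    rw [orig_height] at hh
    have h1 : (Set.range c).ncard ≤ Fintype.card ι * (d - 1) + (if z then 1 else 0) := by
      have h2 : (Set.range c).ncard ≤ Nat.card ((ι × Fin (d - 1)) ⊕ {x : Unit // z}) := by
        rw [← Set.image_univ, ← Set.ncard_univ]
        exact Set.ncard_image_le Set.finite_univ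
      rw [Nat.card_eq_fintype_card, Fintype.card_sum, Fintype.card_prod, Fintype.card_fin] at h2
      have h3 : Fintype.card {x : Unit // z} ≤ (if z then 1 else 0) := by
        split_ifs with hz'
        · exact (Fintype.card_subtype_le _).trans (by rw [Fintype.card_unit])
        · rw [Fintype.card_eq_zero_iff.2 ⟨fun x => hz' x.2⟩]
      omega
    have h2 : Nat.card {s : σ // B s} ≤ (Set.range c).ncard := by exact_mod_cast hh
    omega
  obtain ⟨v₀, hv₀, hv₁⟩ := hex
  refine ⟨ez B v₀, fun s hs => dif_neg hs, ?_, ?_, ?_⟩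
  · intro h
    apply hv₀
    funext s
    have := congrFun h s.1
    unfold ez at this
    rw [dif_pos s.2] at this
    exact this
  · intro hz
    have h1 := hv₁ (Sum.inr ⟨(), hz⟩)
    change aeval v₀ (X (⟨s₀, hs₀⟩ : τ)) = 0 at h1
    rw [aeval_X] at h1
    unfold ez
    rw [dif_pos hs₀]
    exact h1
  · intro e s u
    set H : Polynomial Ω :=
      aeval (fun s => Polynomial.C (α s) + Polynomial.C (ez B v₀ s) * Polynomial.X) (f e) with hH
    have hcoeff : ∀ b, 1 ≤ b → b < d → H.coeff b = 0 := by
      intro b hb1 hb2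
      have h1 := hv₁ (Sum.inl (e, ⟨b - 1, by omega⟩))
      change aeval v₀ ((g e).coeff (b - 1 + 1)) = 0 at h1
      rw [hco, Nat.sub_add_cancel hb1] at h1
      exact h1
    have hdeg : H.natDegree < d + 1 := by
      have h1 : H = aeval (fun s => Polynomial.C (α s) + Polynomial.C (ez B v₀ s) * Polynomial.X)
          (map (algebraMap K Ω) (f e)) := by
        rw [hH, aeval_map_algebraMap]
      have h2 := aeval_natDegree_le (m := d) (n := 1) (map (algebraMap K Ω) (f e))
        (((hf e).map _).totalDegree_le)
        (fun s => Polynomial.C (α s) + Polynomial.C (ez B v₀ s) * Polynomial.X) (by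
          intro s
          refine (Polynomial.natDegree_add_le _ _).trans ?_
          rw [Polynomial.natDegree_C]
          refine max_le (by omega) ?_
          exact (Polynomial.natDegree_C_mul_le _ _).trans (Polynomial.natDegree_X_le))
      rw [← h1] at h2
      omega
    have hev : ∀ u : Ω, aeval (fun j => α j + u * ez B v₀ j) (f e) =
        H.coeff 0 + H.coeff d * u ^ d := by
      intro u
      have h1 : H.eval u = aeval (fun j => α j + u * ez B v₀ j) (f e) := by
        have h2 := comp_aeval_apply (R := K) (fun s => Polynomial.C (α s) +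
          Polynomial.C (ez B v₀ s) * Polynomial.X)
          ((Polynomial.aeval u : Polynomial Ω →ₐ[Ω] Ω).restrictScalars K) (f e)
        change Polynomial.aeval u H = _ at h2
        rw [Polynomial.coe_aeval_eq_eval] at h2
        rw [h2]
        congr 1
        apply MvPolynomial.algHom_ext
        intro j
        rw [aeval_X, aeval_X]
        change Polynomial.aeval u _ = _
        rw [map_add, map_mul, Polynomial.aeval_C, Polynomial.aeval_C, Polynomial.aeval_X,
          mul_comm]
        rfl
      rw [← h1, Polynomial.eval_eq_sum_range' hdeg, Finset.sum_range_succ]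
      obtain ⟨d', rfl⟩ : ∃ d', d = d' + 1 := ⟨d - 1, by omega⟩
      rw [Finset.sum_range_succ']
      rw [Finset.sum_eq_zero, zero_add, pow_zero, mul_one]
      intro b hb
      rw [Finset.mem_range] at hb
      rw [hcoeff (b + 1) (by omega) (by omega), zero_mul]
    exact homog_line (hf e) α (ez B v₀) hev hd s u

/-- An osculating direction is different from a point with a nonzero value. -/
theorem osc_indep {d : ℕ} (hd : 2 ≤ d) {f : MvPolynomial σ K} (hf : f.IsHomogeneous d)
    (α v : σ → Ω) (hα : aeval α f ≠ 0) (hv : v ≠ 0) (c : Ω) (hc : v = fun s => c * α s)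
    (h : ∀ s u : Ω, aeval (fun j => s * α j + u * v j) f =
      s ^ d * aeval α f + u ^ d * aeval v f) : False := by
  have hc0 : c ≠ 0 := by
    rintro rfl
    apply hv
    rw [hc]
    funext s
    simp
  have h1 := h 1 c⁻¹
  have h2 : aeval (fun j => 1 * α j + c⁻¹ * v j) f = 2 ^ d * aeval α f := by
    apply isHomogeneous_aeval hf
    intro s
    rw [hc]
    field_simp
    ring
  have h3 : aeval v f = c ^ d * aeval α f := by
    apply isHomogeneous_aeval hf
    intro s
    rw [hc]
  rw [h2, h3, one_pow, ← mul_assoc, ← mul_pow, inv_mul_cancel₀ hc0, one_pow, ← add_mul] at h1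
  have h4 := mul_right_cancel₀ hα h1
  have h5 : (2 : Ω) ^ d = 2 := by rw [h4]; norm_num
  have h6 : (2 : ℕ) ^ d = 2 := by exact_mod_cast h5
  have h7 : 2 ^ 2 ≤ 2 ^ d := Nat.pow_le_pow_right (by norm_num) hd
  omega

end osc

end Pool.Agent.Bloch
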