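import Pool.Agent.Bloch.Shear
import Pool.Agent.Bloch.ChiP5

/-! Hypersurfaces: isotypic parts in terms of a grouping of the blocks. -/

set_option linter.unusedSectionVars false

open MvPolynomial

namespace Pool.Agent.Bloch

section
variable {σ : Type} [Fintype σ] {t : ℕ} {d : ℕ} [NeZero d]

/-- a system with one equation -/
noncomputable def sys1 (β : σ → Fin t) (f : Fin t → MvPolynomial σ ℂ)
    (hf : ∀ k, BH β k d (f k)) (Z : Set (PrimeSpectrum (MvPolynomial σ ℂ)))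
    (HZ : ∀ Q, Q ∈ Z ↔ ∑ k, f k ∈ Q.asIdeal) : Sys ℂ σ t d where
  β := β
  ι := Fin 1
  f := fun _ => f
  hf := fun _ => hf
  Z := Z
  HZ := fun Q => (HZ Q).trans ⟨fun h _ => h, fun h => h 0⟩

/-- A subvariety on which all variables of a block vanish does not contribute to the characters
which are nontrivial on the block. -/
theorem kill_blk (Y : Sys ℂ σ t d) {ζ : ℂ} (hζ : IsPrimitiveRoot ζ d) {i : ℕ} (a : Fin t → ℕ)
    (k₁ : Fin t) (hk₁ : ¬ d ∣ a k₁) (V : VH Y.Z (i + 1))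
    (hV : ∀ s, Y.β s = k₁ → X s ∈ V.1.asIdeal) : Finsupp.single V 1 ∈ Na Y (i + 1) a := by
  classical
  let c : Fin t → ℂ := Function.update (fun _ => 1) k₁ ζ
  have hc : ∀ k, c k ^ d = 1 := by
    intro k
    by_cases h : k = k₁
    · have : c k = ζ := by rw [h]; exact Function.update_self _ _ _
      rw [this, hζ.pow_eq_one]
    · have : c k = 1 := Function.update_of_ne h _ _
      rw [this, one_pow]
  have hfix : ctr ℂ (scl ℂ (fun s => c (Y.β s))) V.1 = V.1 := by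
    apply ctr_scl_fixed
    intro s hs
    apply hV
    by_contra h
    exact hs (Function.update_of_ne h _ _)
  have h1 := na_scl Y a c hc V V hfix.symm
  have h2 : (∏ k, c k ^ a k) = ζ ^ a k₁ := by
    rw [Finset.prod_eq_single k₁]
    · have : c k₁ = ζ := Function.update_self _ _ _
      rw [this]
    · intro k _ h
      have : c k = 1 := Function.update_of_ne h _ _
      rw [this, one_pow]
    · intro h; exact absurd (Finset.mem_univ _) h
  rw [h2] at h1
  have h3 : (1 - ζ ^ a k₁) ≠ 0 := by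
    intro h
    apply hk₁
    exact hζ.dvd_of_pow_eq_one _ (sub_eq_zero.1 h).symm
  have h4 : Finsupp.single V (1 : ℂ) = (1 - ζ ^ a k₁)⁻¹ •
      (Finsupp.single V 1 - ζ ^ a k₁ • Finsupp.single V (1 : ℂ)) := by
    rw [← one_smul ℂ (Finsupp.single V (1 : ℂ)), smul_smul, ← sub_smul, smul_smul, mul_one,
      inv_mul_cancel₀ h3]
  rw [h4]
  exact Submodule.smul_mem _ _ h1

variable (β : σ → Fin t) (f : Fin t → MvPolynomial σ ℂ)
  (hf : ∀ k, BH β k d (f k)) (Z : Set (PrimeSpectrum (MvPolynomial σ ℂ)))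
  (HZ : ∀ Q, Q ∈ Z ↔ ∑ k, f k ∈ Q.asIdeal)

open Classical in
/-- a group of blocks is big if it has sufficiently many variables -/
theorem bigBl_one {T' : Type} [Fintype T'] (ρ : Fin t → T') (a : Fin t → ℕ) (j : T')
    (h : d ≤ Nat.card {s : σ // ρ (β s) = j})
    (h' : d ∣ ga' ρ a j → d + 1 ≤ Nat.card {s : σ // ρ (β s) = j}) :
    BigBl (fun s => ρ (β s)) (gf ρ (sys1 β f hf Z HZ).f) d (ga' ρ a) j := by
  have hd : 0 < d := Nat.pos_of_ne_zero (NeZero.ne d)
  haveI : Finite (sys1 β f hf Z HZ).ι := inferInstanceAs (Finite (Fin 1))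
  apply bigBl_of_rank ρ (sys1 β f hf Z HZ).hf a j
  have h1 : Module.finrank ℂ (Submodule.span ℂ (Set.range fun e : Fin 1 =>
      gf ρ (fun _ : Fin 1 => f) e j)) ≤ 1 := by
    have := finrank_range_le_card (R := ℂ) (fun e : Fin 1 => gf ρ (fun _ : Fin 1 => f) e j)
    rw [Fintype.card_fin] at this
    exact this
  have h2 : Module.finrank ℂ (Submodule.span ℂ (Set.range fun e =>
      gf ρ (sys1 β f hf Z HZ).f e j)) ≤ 1 := h1
  have h3 : Module.finrank ℂ (Submodule.span ℂ (Set.range fun e =>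
      gf ρ (sys1 β f hf Z HZ).f e j)) * (d - 1) ≤ 1 * (d - 1) := Nat.mul_le_mul_right _ h2
  split_ifs with h4
  · have := h' h4
    change _ < Nat.card {s : σ // ρ (β s) = j}
    omega
  · change _ < Nat.card {s : σ // ρ (β s) = j}
    omega

open Classical in
/-- the coefficient of the pivot -/
noncomputable def pvc (J₀ : Fin t → σ) (k : Fin t) : ℂ :=
  aeval (fun s => if s = J₀ k then (1 : ℂ) else 0) (f k)

/-- the embedding of one block -/
def emb1 (k₀ : Fin t) : Fin 1 ↪ Fin t := ⟨fun _ => k₀, fun _ _ _ => Subsingleton.elim _ _⟩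

theorem cfP_one (J₀ : Fin t → σ) (k₀ : Fin t) (e j : Fin 1) :
    cfP (emb1 k₀) (fun _ => J₀ k₀) (fun _ : Fin 1 => f) e j = pvc f J₀ k₀ := rfl

/-- The vanishing of an isotypic part, for supported subvarieties. -/
theorem sup_ne {ζ : ℂ} (hζ : IsPrimitiveRoot ζ d) (J₀ : Fin t → σ) (hJ₀ : ∀ k, β (J₀ k) = k)
    {i : ℕ} (a : Fin t → ℕ) (k₀ : Fin t) (hc : pvc f J₀ k₀ ≠ 0) (hk₀ : d ∣ a k₀)
    (has : d ∣ ∑ k, a k) (k₁ : Fin t) (hk₁ : ¬ d ∣ a k₁)
    (V : VH (sys1 β f hf Z HZ).Z (i + 1)) (hV : ∀ s, β s = k₀ → s ≠ J₀ k₀ → X s ∈ V.1.asIdeal) :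
    Finsupp.single V 1 ∈ Na (sys1 β f hf Z HZ) (i + 1) a := by
  have hd : 0 < d := Nat.pos_of_ne_zero (NeZero.ne d)
  refine chi_P hd hζ β (fun _ : Fin 1 => f) (fun _ => hf) (emb1 k₀) (fun _ => J₀ k₀)
    (fun _ => hJ₀ k₀) (fun _ _ => (pvc f J₀ k₀)⁻¹) ?_ ?_ (sys1 β f hf Z HZ).HZ a (fun _ => hk₀) has
    k₁ hk₁ _ le_sup_left (fun c hc V V' h => na_scl (sys1 β f hf Z HZ) a c hc V V' h) V ?_
  · intro e e'
    rw [Fin.sum_univ_one, cfP_one, mul_inv_cancel₀ hc, if_pos (Subsingleton.elim _ _)]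
  · intro e e'
    rw [Fin.sum_univ_one, cfP_one, inv_mul_cancel₀ hc, if_pos (Subsingleton.elim _ _)]
  · rintro s ⟨j, hj, hs⟩
    exact hV s hj.symm hs

theorem sup_one {ζ : ℂ} (hζ : IsPrimitiveRoot ζ d) (J₀ : Fin t → σ) (hJ₀ : ∀ k, β (J₀ k) = k)
    {i : ℕ} (k₀ : Fin t) (hc : pvc f J₀ k₀ ≠ 0) :
    ∃ α : VH (sys1 β f hf Z HZ).Z (i + 1) →₀ ℂ, ∀ V : VH (sys1 β f hf Z HZ).Z (i + 1),
      (∀ s, β s = k₀ → s ≠ J₀ k₀ → X s ∈ V.1.asIdeal) →
      Finsupp.single V 1 ∈ Na (sys1 β f hf Z HZ) (i + 1) (fun _ => 0) ⊔ Submodule.span ℂ {α} := by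
  have hd : 0 < d := Nat.pos_of_ne_zero (NeZero.ne d)
  obtain ⟨α, hα⟩ := one_P ℂ hd hζ β (fun _ : Fin 1 => f) (fun _ => hf) (emb1 k₀) (fun _ => J₀ k₀)
    (fun _ => hJ₀ k₀) (fun _ _ => (pvc f J₀ k₀)⁻¹) (by
      intro e e'
      rw [Fin.sum_univ_one, cfP_one, mul_inv_cancel₀ hc, if_pos (Subsingleton.elim _ _)]) (by
      intro e e'
      rw [Fin.sum_univ_one, cfP_one, inv_mul_cancel₀ hc, if_pos (Subsingleton.elim _ _)])
    (sys1 β f hf Z HZ).HZ (i := i) (Na (sys1 β f hf Z HZ) (i + 1) (fun _ => 0)) le_sup_left (by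
      intro c hc V V' h
      have := na_scl (sys1 β f hf Z HZ) (fun _ => 0) (fun k => c (sbT (emb1 k₀) k))
        (fun k => hc _) V V' h
      simp only [pow_zero, Finset.prod_const_one, one_smul] at this
      exact this)
  refine ⟨α, fun V hV => hα V ?_⟩
  rintro s ⟨j, hj, hs⟩
  exact hV s hj.symm hs

open Classical in
/-- The vanishing of an isotypic part, with a grouping of the blocks depending on the character. -/
theorem plan_ne {ζ : ℂ} (hζ : IsPrimitiveRoot ζ d) (J₀ : Fin t → σ) (hJ₀ : ∀ k, β (J₀ k) = k)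
    (hc : ∀ k, pvc f J₀ k ≠ 0) {i : ℕ} (a : Fin t → ℕ) (has : d ∣ ∑ k, a k)
    (ha : ∃ k, ¬ d ∣ a k) {T' Q' : Type} [Fintype T'] [Fintype Q'] (ρ : Fin t → T')
    (hρ : Function.Surjective ρ) (π : T' → Q') (hπ : Function.Surjective π)
    (hπa : ∀ l, d ∣ ∑ k ∈ Finset.univ.filter (fun k => π (ρ k) = l), a k)
    (E : Finset T') (hE : ∀ j ∈ E, d ≤ Nat.card {s : σ // ρ (β s) = j} ∧
      (d ∣ ga' ρ a j → d + 1 ≤ Nat.card {s : σ // ρ (β s) = j}))
    (hi : i + 2 ≤ Fintype.card Q' + E.card)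
    (hyp : (∃ j, ¬ d ∣ ga' ρ a j) ∨ (Function.Injective π ∧ ∃ g, g ∉ E ∧
      ((∃ k₁, ρ k₁ = g ∧ ¬ d ∣ a k₁) ∨ ∃ k₀, ∀ k, ρ k = g ↔ k = k₀)))
    (V : VH (sys1 β f hf Z HZ).Z (i + 1)) :
    Finsupp.single V 1 ∈ Na (sys1 β f hf Z HZ) (i + 1) a := by
  letI : Fintype (sys1 β f hf Z HZ).ι := inferInstanceAs (Fintype (Fin 1))
  have hcard : Fintype.card (sys1 β f hf Z HZ).ι = 1 := Fintype.card_fin 1
  refine chi_big (sys1 β f hf Z HZ) (fun k => ⟨J₀ k, hJ₀ k⟩) hζ a ρ hρ π hπ hπa E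
    (fun j hj => bigBl_one β f hf Z HZ ρ a j (hE j hj).1 (hE j hj).2)
    (by rw [hcard]; omega) _ le_rfl ?_ V
  by_cases hz : ∃ j, ¬ d ∣ ga' ρ a j
  · exact Or.inl hz
  obtain ⟨hπi, g, hg, hgk⟩ := hyp.resolve_left hz
  push Not at hz
  refine Or.inr ⟨hz, hπi, ?_⟩
  rcases hgk with ⟨k₁, hk₁, hk₁'⟩ | ⟨k₀, hk₀⟩
  · -- another block of the group
    obtain ⟨k₂, hk₂, hk₂'⟩ : ∃ k₂, ρ k₂ = g ∧ k₂ ≠ k₁ := by
      by_contra hcon
      push Not at hcon
      apply hk₁'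
      have h1 := hz g
      unfold ga' at h1
      have h2 : Finset.univ.filter (fun k => ρ k = g) = {k₁} := by
        ext k
        rw [Finset.mem_filter, Finset.mem_singleton]
        exact ⟨fun h => hcon k h.2, fun h => ⟨Finset.mem_univ _, by rw [h, hk₁]⟩⟩
      rwa [h2, Finset.sum_singleton] at h1
    let J : T' → σ := Function.update (fun j => J₀ (Classical.choose (hρ j))) g (J₀ k₂)
    have hJg : J g = J₀ k₂ := Function.update_self _ _ _
    refine ⟨J, ?_, ?_⟩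
    · intro j
      change ρ (β (J j)) = j
      by_cases h : j = g
      · rw [h, hJg, hJ₀, hk₂]
      · have : J j = J₀ (Classical.choose (hρ j)) := Function.update_of_ne h _ _
        rw [this, hJ₀]
        exact Classical.choose_spec (hρ j)
    · intro V hV
      apply kill_blk (sys1 β f hf Z HZ) hζ a k₁ hk₁' V
      intro s hs
      have hs' : β s = k₁ := hs
      apply hV s
      · change ρ (β s) ∉ E
        rw [hs', hk₁]
        exact hg
      · change s ≠ J (ρ (β s))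
        rw [hs', hk₁, hJg]
        rintro rfl
        rw [hJ₀] at hs'
        exact hk₂' hs'
  · let J : T' → σ := fun j => J₀ (Classical.choose (hρ j))
    have hJg : J g = J₀ k₀ := by
      change J₀ (Classical.choose (hρ g)) = _
      rw [(hk₀ _).1 (Classical.choose_spec (hρ g))]
    refine ⟨J, ?_, ?_⟩
    · intro j
      change ρ (β (J₀ (Classical.choose (hρ j)))) = j
      rw [hJ₀]
      exact Classical.choose_spec (hρ j)
    · intro V hV
      obtain ⟨k₁, hk₁⟩ := ha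
      refine sup_ne β f hf Z HZ hζ J₀ hJ₀ a k₀ (hc k₀) ?_ has k₁ hk₁ V ?_
      · have h1 := hz g
        unfold ga' at h1
        have h2 : Finset.univ.filter (fun k => ρ k = g) = {k₀} := by
          ext k
          rw [Finset.mem_filter, Finset.mem_singleton, hk₀]
          exact ⟨fun h => h.2, fun h => ⟨Finset.mem_univ _, h⟩⟩
        rwa [h2, Finset.sum_singleton] at h1
      · intro s hs hsJ
        have hg' : ρ (β s) = g := (hk₀ _).2 hs
        apply hV s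
        · change ρ (β s) ∉ E
          rw [hg']; exact hg
        · change s ≠ J (ρ (β s))
          rw [hg', hJg]
          exact hsJ

/-- The invariant part is generated by one element. -/
theorem plan_one {ζ : ℂ} (hζ : IsPrimitiveRoot ζ d) (J₀ : Fin t → σ) (hJ₀ : ∀ k, β (J₀ k) = k)
    (hc : ∀ k, pvc f J₀ k ≠ 0) {i : ℕ}
    (E : Finset (Fin t)) (hE : ∀ k ∈ E, d + 1 ≤ Nat.card {s : σ // β s = k})
    (hi : i + 2 ≤ t + E.card) (k₀ : Fin t) (hk₀ : k₀ ∉ E) :
    ∃ α : VH (sys1 β f hf Z HZ).Z (i + 1) →₀ ℂ, ∀ V : VH (sys1 β f hf Z HZ).Z (i + 1),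
      Finsupp.single V 1 ∈ Na (sys1 β f hf Z HZ) (i + 1) (fun _ => 0) ⊔ Submodule.span ℂ {α} := by
  classical
  obtain ⟨α, hα⟩ := sup_one β f hf Z HZ hζ J₀ hJ₀ (i := i) k₀ (hc k₀)
  refine ⟨α, fun V => ?_⟩
  letI : Fintype (sys1 β f hf Z HZ).ι := inferInstanceAs (Fintype (Fin 1))
  have hcard : Fintype.card (sys1 β f hf Z HZ).ι = 1 := Fintype.card_fin 1
  refine chi_big (sys1 β f hf Z HZ) (fun k => ⟨J₀ k, hJ₀ k⟩) hζ (fun _ => 0) (fun k : Fin t => k)
    Function.surjective_id (fun k : Fin t => k) Function.surjective_id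
    (fun l => by simp) E (fun j hj => bigBl_one β f hf Z HZ (fun k : Fin t => k) _ j
      ((Nat.le_succ d).trans (hE j hj)) (fun _ => hE j hj))
    (by rw [hcard, Fintype.card_fin]; omega) _ le_sup_left ?_ V
  refine Or.inr ⟨fun k => ?_, Function.injective_id, J₀, hJ₀, ?_⟩
  · unfold ga'
    rw [Finset.sum_const_zero]
    exact dvd_zero d
  · intro V hV
    apply hα V
    intro s hs hsJ
    apply hV s
    · change β s ∉ E
      rw [hs]; exact hk₀
    · change s ≠ J₀ (β s)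
      rw [hs]; exact hsJ

end

end Pool.Agent.Bloch
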