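import Pool.Agent.Bloch.FlatPull

set_option linter.unusedSectionVars false

namespace Pool.Agent.Bloch

variable (K : Type) [Field K] (𝕜 : Type) [Field 𝕜] [CharZero 𝕜]

section
variable {R : Type} [CommRing R] [Algebra K R] [Algebra.EssFiniteType K R] [IsNoetherianRing R]

/-- cycles of dimension `k` rationally equivalent to zero on the set `Z` -/
noncomputable def Rel (k : ℕ) (Z : Set (PrimeSpectrum R)) : Submodule 𝕜 (PrimeSpectrum R →₀ 𝕜) :=
  Submodule.span 𝕜 {z | ∃ q ∈ Z, ∃ a : R, dl K q = k + 1 ∧ a ∉ q.asIdeal ∧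
    z = divCyc K 𝕜 k q a}

/-- vanishing of the group of cycles of dimension `k` on `Z` -/
def Van (k : ℕ) (Z : Set (PrimeSpectrum R)) : Prop :=
  ∀ p ∈ Z, dl K p = k → Finsupp.single p 1 ∈ Rel K 𝕜 k Z

theorem rel_mono (k : ℕ) {Z Z' : Set (PrimeSpectrum R)} (h : Z ⊆ Z') :
    Rel K 𝕜 k Z ≤ Rel K 𝕜 k Z' := by
  apply Submodule.span_mono
  rintro z ⟨q, hq, a, h1, h2, h3⟩
  exact ⟨q, h hq, a, h1, h2, h3⟩

theorem divCyc_mem_rel {k : ℕ} {Z : Set (PrimeSpectrum R)} {q : PrimeSpectrum R} (hq : q ∈ Z)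
    {a : R} (h1 : dl K q = k + 1) (h2 : a ∉ q.asIdeal) : divCyc K 𝕜 k q a ∈ Rel K 𝕜 k Z :=
  Submodule.subset_span ⟨q, hq, a, h1, h2, rfl⟩

theorem support_div (q : PrimeSpectrum R) (a : R) (p : PrimeSpectrum R) :
    p ∈ Module.support R (R ⧸ (q.asIdeal ⊔ Ideal.span {a})) ↔ q ≤ p ∧ a ∈ p.asIdeal := by
  rw [support_quot]
  change q.asIdeal ⊔ Ideal.span {a} ≤ p.asIdeal ↔ _
  rw [sup_le_iff, Ideal.span_singleton_le_iff_mem]
  exact Iff.rfl

theorem bd_div {k : ℕ} {q : PrimeSpectrum R} {a : R} (h1 : dl K q = k + 1)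
    (h2 : a ∉ q.asIdeal) : Bd K (R := R) k (R ⧸ (q.asIdeal ⊔ Ideal.span {a})) := by
  refine ⟨inferInstance, fun p hp => ?_⟩
  rw [support_div] at hp
  have : q ≠ p := by rintro rfl; exact h2 hp.2
  have := dl_lt K (lt_of_le_of_ne hp.1 this)
  omega

theorem divCyc_apply {k : ℕ} {q : PrimeSpectrum R} {a : R} (h1 : dl K q = k + 1)
    (h2 : a ∉ q.asIdeal) (p : PrimeSpectrum R) (hp : dl K p = k) :
    divCyc K 𝕜 k q a p = ((len p (R ⧸ (q.asIdeal ⊔ Ideal.span {a}))).toNat : 𝕜) := by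
  unfold divCyc
  rw [cyc_apply K 𝕜 (bd_div K h1 h2), if_pos hp]

theorem divCyc_ne_zero_iff {k : ℕ} {q : PrimeSpectrum R} {a : R} (h1 : dl K q = k + 1)
    (h2 : a ∉ q.asIdeal) (p : PrimeSpectrum R) :
    divCyc K 𝕜 k q a p ≠ 0 ↔ dl K p = k ∧ q ≤ p ∧ a ∈ p.asIdeal := by
  unfold divCyc
  rw [cyc_apply K 𝕜 (bd_div K h1 h2)]
  split_ifs with hp
  · rw [Nat.cast_ne_zero]
    rw [← support_div, ← len_pos_iff]
    have h3 := bd_len K (bd_div K h1 h2) p hp
    constructor
    · intro h4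
      refine ⟨hp, ?_⟩
      rw [pos_iff_ne_zero]
      intro h5; rw [h5] at h4; exact h4 rfl
    · rintro ⟨-, h4⟩ h5
      rw [ENat.toNat_eq_zero] at h5
      rcases h5 with h5 | h5
      · rw [h5] at h4; exact lt_irrefl _ h4
      · exact h3 h5
  · constructor
    · intro h; exact absurd rfl h
    · intro h; exact absurd h.1 hp

theorem single_mem_of {ι : Type} {W : Submodule 𝕜 (ι →₀ 𝕜)} {D : ι →₀ 𝕜}
    (hD : D ∈ W) (P : ι) (hP : D P ≠ 0)
    (h : ∀ Q, Q ≠ P → D Q ≠ 0 → Finsupp.single Q 1 ∈ W) : Finsupp.single P (1 : 𝕜) ∈ W := by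
  classical
  have h1 : D = Finsupp.single P (D P) + D.erase P := (Finsupp.single_add_erase P D).symm
  have h2 : D.erase P ∈ W := by
    rw [← Finsupp.sum_single (D.erase P)]
    apply Submodule.sum_mem
    intro Q hQ
    rw [Finsupp.mem_support_iff] at hQ
    have hne : Q ≠ P := by
      rintro rfl; exact hQ (Finsupp.erase_same)
    have h3 : (D.erase P) Q = D Q := Finsupp.erase_ne hne
    change Finsupp.single Q ((D.erase P) Q) ∈ W
    rw [← mul_one ((D.erase P) Q), ← smul_eq_mul, ← Finsupp.smul_single]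
    apply Submodule.smul_mem
    apply h Q hne
    rw [← h3]; exact hQ
  have h3 : Finsupp.single P (D P) ∈ W := by
    have : Finsupp.single P (D P) = D - D.erase P := by
      rw [eq_sub_iff_add_eq]; exact h1.symm
    rw [this]
    exact Submodule.sub_mem _ hD h2
  have h4 : Finsupp.single P (1 : 𝕜) = (D P)⁻¹ • Finsupp.single P (D P) := by
    rw [Finsupp.smul_single, smul_eq_mul, inv_mul_cancel₀ hP]
  rw [h4]
  exact Submodule.smul_mem _ _ h3

end

section
variable {A : Type} [CommRing A] [Algebra K A] [Algebra.EssFiniteType K A] [IsNoetherianRing A]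
variable (B : Type) [CommRing B] [Algebra K B] [Algebra.EssFiniteType K B] [IsNoetherianRing B]
variable [Algebra A B] [IsScalarTower K A B]

theorem pull_rel [Module.Flat A B] {k ρ : ℕ}
    (hρ : ∀ P : PrimeSpectrum B, dl K P ≤ dl K (ct K (A := A) P) + ρ)
    {Z : Set (PrimeSpectrum A)} {z : PrimeSpectrum A →₀ 𝕜} (hz : z ∈ Rel K 𝕜 k Z) :
    pull K 𝕜 B ρ z ∈ Rel K 𝕜 (k + ρ) {P : PrimeSpectrum B | ct K P ∈ Z} := by
  unfold Rel at hz
  induction hz using Submodule.span_induction with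
  | mem z hz =>
    obtain ⟨q, hq, a, h1, h2, rfl⟩ := hz
    refine Submodule.span_mono ?_ (pull_divCyc K 𝕜 B hρ q h1 a h2)
    rintro z ⟨Q, hQ1, hQ2, hQ3⟩
    have h5 : q = ct K Q := by
      have := hρ Q
      exact eq_of_le_of_dl K hQ1 (by omega)
    refine ⟨Q, ?_, algebraMap A B a, hQ2, ?_, hQ3⟩
    · change ct K Q ∈ Z
      rw [← h5]; exact hq
    · intro h6
      apply h2
      rw [h5]; exact h6
  | zero => rw [map_zero]; exact Submodule.zero_mem _
  | add x y _ _ hx hy => rw [map_add]; exact Submodule.add_mem _ hx hy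
  | smul c x _ hx => rw [map_smul]; exact Submodule.smul_mem _ _ hx

end

section poly
variable {A : Type} [CommRing A] [Algebra K A] [Algebra.EssFiniteType K A] [IsNoetherianRing A]

theorem ct_poly (P : PrimeSpectrum (Polynomial A)) : ct K (A := A) P = ctr K (polyC K A) P := rfl

theorem pull_poly (p : PrimeSpectrum A) :
    pull K 𝕜 (Polynomial A) 1 (Finsupp.single p 1) = Finsupp.single (ext p) 1 := by
  rw [pull_single, one_smul, ← dl_ext]
  exact cyc_quot_self K 𝕜 (ext p) rfl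

theorem rho_poly (P : PrimeSpectrum (Polynomial A)) :
    dl K P ≤ dl K (ct K (A := A) P) + 1 := dl_le_ctr_succ K P

theorem single_ext_mem {k : ℕ} {Z : Set (PrimeSpectrum A)} {p : PrimeSpectrum A}
    (h : Finsupp.single p 1 ∈ Rel K 𝕜 k Z) :
    Finsupp.single (ext p) 1 ∈ Rel K 𝕜 (k + 1)
      {P : PrimeSpectrum (Polynomial A) | ctr K (polyC K A) P ∈ Z} := by
  rw [← pull_poly K 𝕜 p]
  exact pull_rel K 𝕜 (Polynomial A) (rho_poly K) h

end poly

section frac
variable {A : Type} [CommRing A]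

/-- the residue field at a prime -/
abbrev Kap (p : PrimeSpectrum A) : Type := FractionRing (A ⧸ p.asIdeal)

/-- the map to the residue field -/
noncomputable def toKap (p : PrimeSpectrum A) : A →+* Kap p :=
  (algebraMap (A ⧸ p.asIdeal) (Kap p)).comp (Ideal.Quotient.mk p.asIdeal)

theorem toKap_eq_zero (p : PrimeSpectrum A) (a : A) : toKap p a = 0 ↔ a ∈ p.asIdeal := by
  unfold toKap
  rw [RingHom.comp_apply, FaithfulSMul.algebraMap_eq_zero_iff, Ideal.Quotient.eq_zero_iff_mem]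

theorem toKap_frac (p : PrimeSpectrum A) (x : Kap p) :
    ∃ u a : A, x * toKap p u = toKap p a ∧ u ∉ p.asIdeal := by
  obtain ⟨a, u, hu, rfl⟩ := IsFractionRing.div_surjective (A := A ⧸ p.asIdeal) x
  obtain ⟨a, rfl⟩ := Ideal.Quotient.mk_surjective a
  obtain ⟨u, rfl⟩ := Ideal.Quotient.mk_surjective u
  have hu' : u ∉ p.asIdeal := by
    intro h
    rw [← Ideal.Quotient.eq_zero_iff_mem] at h
    rw [h] at hu
    exact nonZeroDivisors.ne_zero hu rfl
  refine ⟨u, a, ?_, hu'⟩
  have : toKap p u ≠ 0 := by rwa [ne_eq, toKap_eq_zero]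
  change _ / toKap p u * toKap p u = _
  rw [div_mul_cancel₀ _ this]
  rfl

theorem toKap_poly_frac (p : PrimeSpectrum A) (t : Polynomial (Kap p)) :
    ∃ (u : A) (a : Polynomial A), t * Polynomial.C (toKap p u) = a.map (toKap p) ∧
      u ∉ p.asIdeal := by
  induction t using Polynomial.induction_on' with
  | add t s ht hs =>
    obtain ⟨u, a, h1, h2⟩ := ht
    obtain ⟨v, b, h3, h4⟩ := hs
    refine ⟨u * v, a * Polynomial.C v + b * Polynomial.C u, ?_,
      fun h => (p.2.mem_or_mem h).elim h2 h4⟩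
    rw [map_mul, map_mul, Polynomial.map_add, Polynomial.map_mul, Polynomial.map_mul, ← h1, ← h3,
      Polynomial.map_C, Polynomial.map_C]
    ring
  | monomial n x =>
    obtain ⟨u, a, h1, h2⟩ := toKap_frac p x
    refine ⟨u, Polynomial.monomial n a, ?_, h2⟩
    rw [Polynomial.monomial_mul_C, h1, Polynomial.map_monomial]

/-- A prime of `A[X]` is generated over the generic point of its contraction by one element. -/
theorem exists_gen [Algebra K A] [Algebra.EssFiniteType K A] (P : PrimeSpectrum (Polynomial A)) (hP : P ≠ ext (ctr K (polyC K A) P)) :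
    ∃ f ∈ P.asIdeal, f ∉ (ext (ctr K (polyC K A) P)).asIdeal ∧
      ∀ g ∈ P.asIdeal, ∃ u : A, u ∉ (ctr K (polyC K A) P).asIdeal ∧
        Polynomial.C u * g ∈ (ext (ctr K (polyC K A) P)).asIdeal ⊔ Ideal.span {f} := by
  set p := ctr K (polyC K A) P with hp
  have hker : ∀ g : Polynomial A, g ∈ (ext p).asIdeal ↔ g.map (toKap p) = 0 := by
    intro g
    rw [mem_ext, Polynomial.ext_iff]
    simp only [Polynomial.coeff_map, Polynomial.coeff_zero, toKap_eq_zero]
  have hne : ∃ f, f ∈ P.asIdeal ∧ f ∉ (ext p).asIdeal := by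
    by_contra hcon
    push Not at hcon
    exact hP (le_antisymm hcon (ext_ctr_le K P))
  obtain ⟨f, ⟨hf1, hf2⟩, hfmin⟩ := WellFounded.has_min
    (measure (fun f : Polynomial A => (f.map (toKap p)).natDegree)).wf
    {f | f ∈ P.asIdeal ∧ f ∉ (ext p).asIdeal} hne
  refine ⟨f, hf1, hf2, fun g hg => ?_⟩
  set F := f.map (toKap p) with hF
  have hF0 : F ≠ 0 := fun h => hf2 ((hker f).2 h)
  set G := g.map (toKap p) with hG
  obtain ⟨u, h, h1, h2⟩ := toKap_poly_frac p (G / F)
  refine ⟨u, h2, ?_⟩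
  have hu0 : toKap p u ≠ 0 := by rwa [ne_eq, toKap_eq_zero]
  have h3 : (Polynomial.C u * g - h * f).map (toKap p) = Polynomial.C (toKap p u) * (G % F) := by
    rw [Polynomial.map_sub, Polynomial.map_mul, Polynomial.map_mul, Polynomial.map_C, ← h1]
    have := EuclideanDomain.div_add_mod G F
    rw [← hG, ← hF]
    linear_combination (-Polynomial.C (toKap p u)) * this
  have h4 : Polynomial.C u * g - h * f ∈ P.asIdeal :=
    Ideal.sub_mem _ (Ideal.mul_mem_left _ _ hg) (Ideal.mul_mem_left _ _ hf1)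
  have h5 : Polynomial.C u * g - h * f ∈ (ext p).asIdeal := by
    by_contra h6
    have h7 := hfmin _ ⟨h4, h6⟩
    apply h7
    change (Polynomial.map (toKap p) (Polynomial.C u * g - h * f)).natDegree < F.natDegree
    have h8 : Polynomial.map (toKap p) (Polynomial.C u * g - h * f) ≠ 0 :=
      fun h => h6 ((hker _).2 h)
    apply Polynomial.natDegree_lt_natDegree h8
    rw [h3, Polynomial.degree_C_mul hu0]
    exact EuclideanDomain.mod_lt G hF0
  have h6 : Polynomial.C u * g = (Polynomial.C u * g - h * f) + h * f := by ring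
  rw [h6]
  exact Ideal.add_mem _ (Ideal.mem_sup_left h5)
    (Ideal.mem_sup_right (Ideal.mul_mem_left _ _ (Ideal.mem_span_singleton_self f)))

end frac

section van
variable {A : Type} [CommRing A] [Algebra K A] [Algebra.EssFiniteType K A] [IsNoetherianRing A]

/-- Vanishing for a product with the affine line. -/
theorem van_poly (Z : Set (PrimeSpectrum A)) (hZ : ∀ p ∈ Z, ∀ q, p ≤ q → q ∈ Z) (k : ℕ)
    (h : ∀ j, k = j + 1 → Van K 𝕜 j Z) :
    Van K 𝕜 k {P : PrimeSpectrum (Polynomial A) | ctr K (polyC K A) P ∈ Z} := by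
  have hext : ∀ q ∈ Z, dl K (ext q) = k →
      Finsupp.single (ext q) 1 ∈ Rel K 𝕜 k
        {P : PrimeSpectrum (Polynomial A) | ctr K (polyC K A) P ∈ Z} := by
    intro q hq hd
    rw [dl_ext] at hd
    obtain ⟨j, rfl⟩ : ∃ j, k = j + 1 := ⟨dl K q, hd.symm⟩
    exact single_ext_mem K 𝕜 (h j rfl q hq (by omega))
  intro P hP hd
  by_cases hPe : P = ext (ctr K (polyC K A) P)
  · rw [hPe]
    exact hext _ hP (by rw [← hPe]; exact hd)
  · obtain ⟨f, hf1, hf2, hf3⟩ := exists_gen K P hPe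
    set p := ctr K (polyC K A) P with hp
    have hdp : dl K p = k := by rw [← hd]; exact (dl_eq_ctr_of_ne K P hPe).symm
    have hde : dl K (ext p) = k + 1 := by rw [dl_ext, hdp]
    have hD := divCyc_mem_rel K 𝕜 (k := k)
      (Z := {P : PrimeSpectrum (Polynomial A) | ctr K (polyC K A) P ∈ Z})
      (q := ext p) (a := f) (by change ctr K (polyC K A) (ext p) ∈ Z; rw [ctr_ext]; exact hP)
      hde hf2
    refine single_mem_of 𝕜 hD P ?_ ?_
    · rw [divCyc_ne_zero_iff K 𝕜 hde hf2]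
      exact ⟨hd, ext_ctr_le K P, hf1⟩
    · intro Q hne hQ
      rw [divCyc_ne_zero_iff K 𝕜 hde hf2] at hQ
      obtain ⟨hQ1, hQ2, hQ3⟩ := hQ
      have hle : p ≤ ctr K (polyC K A) Q := by
        have := ctr_mono K (polyC K A) hQ2
        rwa [ctr_ext] at this
      have hne' : p ≠ ctr K (polyC K A) Q := by
        intro heq
        apply hne
        symm
        refine eq_of_le_of_dl K ?_ (by rw [hd, hQ1])
        intro g hg
        obtain ⟨u, hu1, hu2⟩ := hf3 g hg
        have hle2 : (ext p).asIdeal ⊔ Ideal.span {f} ≤ Q.asIdeal := by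
          rw [sup_le_iff, Ideal.span_singleton_le_iff_mem]
          exact ⟨hQ2, hQ3⟩
        refine (Q.2.mem_or_mem (hle2 hu2)).resolve_left ?_
        intro h1
        apply hu1
        rw [heq]; exact h1
      have hlt := dl_lt K (lt_of_le_of_ne hle hne')
      by_cases hQe : Q = ext (ctr K (polyC K A) Q)
      · rw [hQe]
        exact hext _ (hZ p hP _ hle) (by rw [← hQe]; exact hQ1)
      · have := dl_eq_ctr_of_ne K Q hQe
        omega

end van

end Pool.Agent.Bloch
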