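import Pool.Agent.Bloch.Chi

set_option linter.unusedSectionVars false

open MvPolynomial

namespace Pool.Agent.Bloch

variable {K : Type} [Field K]

section scale
variable {σ : Type} [Fintype σ]

theorem ctr_scl_scl (c c' : σ → K) (p : PrimeSpectrum (MvPolynomial σ K)) :
    ctr K (scl K c) (ctr K (scl K c') p) = ctr K (scl K (fun s => c' s * c s)) p := by
  apply PrimeSpectrum.ext
  ext f
  rw [mem_ctr, mem_ctr, mem_ctr, scl_scl]

theorem ctr_scl_one (p : PrimeSpectrum (MvPolynomial σ K)) :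
    ctr K (scl K (fun _ => (1 : K))) p = p := by
  apply PrimeSpectrum.ext
  ext f
  rw [mem_ctr, scl_one]

theorem homP_scl (c : σ → K) {p : PrimeSpectrum (MvPolynomial σ K)} (hp : HomP p) :
    HomP (ctr K (scl K c) p) := by
  intro f hf n
  rw [mem_ctr] at hf ⊢
  rw [← homogeneousComponent_scl]
  exact hp _ hf n

theorem scl_BH {β : Type} {bl : σ → β} {k : β} {d : ℕ} {f : MvPolynomial σ K}
    (hf : BH bl k d f) (c : β → K) (hc : c k ^ d = 1) :
    scl K (fun s => c (bl s)) f = f := by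
  change aeval (fun s => C (algebraMap K K (c (bl s))) * X s) f = f
  rw [hf.aeval_eq (fun s => C (algebraMap K K (c (bl s))) * X s) X (C (c k))
    (fun s hs => by rw [hs]; rfl), ← C_pow, hc, C_1, one_mul, aeval_X_left_apply]

theorem scl_homog (c : K) {p : PrimeSpectrum (MvPolynomial σ K)} (hp : HomP p) (hc : c ≠ 0) :
    ctr K (scl K (fun _ => c)) p = p := by
  have h1 : ∀ (n : ℕ) (f : MvPolynomial σ K), f.IsHomogeneous n →
      scl K (fun _ => c) f = C (c ^ n) * f := by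
    intro n f hf
    change aeval (fun s => C (algebraMap K K c) * X s) f = _
    rw [isHomogeneous_aeval hf (fun s => C (algebraMap K K c) * X s) X (C c)
      (fun s => rfl), ← C_pow, aeval_X_left_apply]
  have h2 : ∀ (n : ℕ) (f : MvPolynomial σ K), f.IsHomogeneous n →
      (scl K (fun _ => c) f ∈ p.asIdeal ↔ f ∈ p.asIdeal) := by
    intro n f hf
    rw [h1 n f hf]
    constructor
    · intro h
      refine (p.2.mem_or_mem h).resolve_left ?_
      intro h3
      apply p.2.ne_top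
      rw [Ideal.eq_top_iff_one]
      have : (1 : MvPolynomial σ K) = C ((c ^ n)⁻¹) * C (c ^ n) := by
        rw [← C_mul, inv_mul_cancel₀ (pow_ne_zero n hc), C_1]
      rw [this]
      exact Ideal.mul_mem_left _ _ h3
    · intro h; exact Ideal.mul_mem_left _ _ h
  apply PrimeSpectrum.ext
  ext f
  rw [mem_ctr]
  constructor
  · intro h
    rw [← sum_homogeneousComponent f]
    apply Ideal.sum_mem
    intro n _
    rw [← h2 n _ (homogeneousComponent_isHomogeneous n f), ← homogeneousComponent_scl]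
    exact hp _ h n
  · intro h
    rw [← sum_homogeneousComponent f, map_sum]
    apply Ideal.sum_mem
    intro n _
    rw [h2 n _ (homogeneousComponent_isHomogeneous n f)]
    exact hp _ h n

end scale

section action
variable {σ : Type} [Fintype σ] {t : ℕ} {d : ℕ}

/-- the group of block scalings -/
abbrev Gam (K : Type) [Field K] (d t : ℕ) : Type := Fin t → rootsOfUnity d K

/-- the scaling factors -/
def wt (γ : Gam K d t) (k : Fin t) : K := ((γ k : Kˣ) : K)

theorem wt_pow (γ : Gam K d t) (k : Fin t) : wt γ k ^ d = 1 := by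
  have := (γ k).2
  rw [mem_rootsOfUnity] at this
  change ((γ k : Kˣ) : K) ^ d = 1
  rw [← Units.val_pow_eq_pow_val, this, Units.val_one]

theorem wt_ne (γ : Gam K d t) (k : Fin t) : wt γ k ≠ 0 := Units.ne_zero _

theorem wt_mul (γ δ : Gam K d t) (k : Fin t) : wt (γ * δ) k = wt γ k * wt δ k := rfl

theorem wt_one (k : Fin t) : wt (1 : Gam K d t) k = 1 := rfl

theorem exists_wt [NeZero d] (c : Fin t → K) (hc : ∀ k, c k ^ d = 1) :
    ∃ γ : Gam K d t, ∀ k, wt γ k = c k :=
  ⟨fun k => rootsOfUnity.mkOfPowEq (c k) (hc k), fun k => rootsOfUnity.coe_mkOfPowEq (hc k)⟩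

/-- the system of equations -/
structure Sys (K : Type) [Field K] (σ : Type) (t d : ℕ) where
  /-- the blocks -/
  β : σ → Fin t
  /-- the index set of the equations -/
  ι : Type
  /-- the equations -/
  f : ι → Fin t → MvPolynomial σ K
  hf : ∀ e k, BH β k d (f e k)
  /-- the closed set -/
  Z : Set (PrimeSpectrum (MvPolynomial σ K))
  HZ : ∀ Q, Q ∈ Z ↔ ∀ e, ∑ k, f e k ∈ Q.asIdeal

variable (Y : Sys K σ t d)

/-- the action on subvarieties -/
noncomputable def sc (k : ℕ) (γ : Gam K d t) (V : VH Y.Z k) : VH Y.Z k :=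
  ⟨ctr K (scl K (fun s => wt γ (Y.β s))) V.1, homP_scl _ V.2.1, by
    rw [Y.HZ]
    intro e
    rw [mem_ctr, map_sum]
    have h1 : ∀ k, scl K (fun s => wt γ (Y.β s)) (Y.f e k) = Y.f e k := fun k =>
      scl_BH (Y.hf e k) (wt γ) (wt_pow γ k)
    rw [Finset.sum_congr rfl (fun k _ => h1 k)]
    exact (Y.HZ _).1 V.2.2.1 e, by
    rw [dl_scl _ (fun s => wt_ne γ _)]
    exact V.2.2.2⟩

theorem sc_val (k : ℕ) (γ : Gam K d t) (V : VH Y.Z k) :
    (sc Y k γ V).1 = ctr K (scl K (fun s => wt γ (Y.β s))) V.1 := rfl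

theorem sc_mul (k : ℕ) (γ δ : Gam K d t) (V : VH Y.Z k) :
    sc Y k γ (sc Y k δ V) = sc Y k (γ * δ) V := by
  apply Subtype.ext
  change ctr K (scl K _) (ctr K (scl K _) V.1) = _
  rw [ctr_scl_scl]
  congr 2
  funext s
  rw [wt_mul, mul_comm]

theorem sc_one (k : ℕ) (V : VH Y.Z k) : sc Y k 1 V = V := by
  apply Subtype.ext
  exact ctr_scl_one V.1

theorem sc_inj (k : ℕ) (γ : Gam K d t) : Function.Injective (sc Y k γ) := by
  intro V V' h
  have := congrArg (sc Y k γ⁻¹) h
  rwa [sc_mul, sc_mul, inv_mul_cancel, sc_one, sc_one] at this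

theorem sc_surj (k : ℕ) (γ : Gam K d t) (V : VH Y.Z k) : ∃ V', sc Y k γ V' = V :=
  ⟨sc Y k γ⁻¹ V, by rw [sc_mul, mul_inv_cancel, sc_one]⟩

/-- the action on cycles -/
noncomputable def Tm (k : ℕ) (γ : Gam K d t) : (VH Y.Z k →₀ K) →ₗ[K] (VH Y.Z k →₀ K) :=
  Finsupp.lmapDomain K K (sc Y k γ)

theorem Tm_single (k : ℕ) (γ : Gam K d t) (V : VH Y.Z k) (c : K) :
    Tm Y k γ (Finsupp.single V c) = Finsupp.single (sc Y k γ V) c :=
  Finsupp.mapDomain_single

theorem Tm_apply (k : ℕ) (γ : Gam K d t) (z : VH Y.Z k →₀ K) (V : VH Y.Z k) :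
    Tm Y k γ z (sc Y k γ V) = z V :=
  Finsupp.mapDomain_apply (sc_inj Y k γ) z V

theorem Tm_mul (k : ℕ) (γ δ : Gam K d t) (z : VH Y.Z k →₀ K) :
    Tm Y k γ (Tm Y k δ z) = Tm Y k (γ * δ) z := by
  induction z using Finsupp.induction_linear with
  | zero => simp
  | add x y hx hy => simp only [map_add, hx, hy]
  | single V c => rw [Tm_single, Tm_single, Tm_single, sc_mul]

theorem Tm_one (k : ℕ) (z : VH Y.Z k →₀ K) : Tm Y k 1 z = z := by
  induction z using Finsupp.induction_linear with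
  | zero => simp
  | add x y hx hy => simp only [map_add, hx, hy]
  | single V c => rw [Tm_single, sc_one]

variable [CharZero K]

/-- rational equivalence is stable under the action -/
theorem Tm_relH (k : ℕ) (γ : Gam K d t) {z : VH Y.Z k →₀ K} (hz : z ∈ RelH K Y.Z k) :
    Tm Y k γ z ∈ RelH K Y.Z k := by
  unfold RelH at hz
  induction hz using Submodule.span_induction with
  | mem z hz =>
    obtain ⟨W, n, f, g, hf, hg, hfW, hgW, rfl⟩ := hz
    have hsc : ∀ f : MvPolynomial σ K, scl K (fun s => wt γ (Y.β s))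
        (scl K (fun s => wt γ⁻¹ (Y.β s)) f) = f := by
      intro f
      rw [scl_scl]
      have : (fun s => wt γ (Y.β s) * wt γ⁻¹ (Y.β s)) = fun _ => (1 : K) := by
        funext s
        rw [← wt_mul, mul_inv_cancel, wt_one]
      rw [this, scl_one]
    have hhom : ∀ f : MvPolynomial σ K, f.IsHomogeneous n →
        (scl K (fun s => wt γ⁻¹ (Y.β s)) f).IsHomogeneous n := by
      intro f hf
      have := homogeneousComponent_scl (fun s => wt γ⁻¹ (Y.β s)) f n
      rw [homogeneousComponent_eq_self hf] at this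
      rw [← this]
      exact homogeneousComponent_isHomogeneous _ _
    have hmem : ∀ f : MvPolynomial σ K, f ∉ W.1.asIdeal →
        scl K (fun s => wt γ⁻¹ (Y.β s)) f ∉ (sc Y (k + 1) γ W).1.asIdeal := by
      intro f hf h
      apply hf
      rwa [sc_val, mem_ctr, hsc] at h
    refine Submodule.subset_span ⟨sc Y (k + 1) γ W, n, scl K (fun s => wt γ⁻¹ (Y.β s)) f,
      scl K (fun s => wt γ⁻¹ (Y.β s)) g, hhom f hf, hhom g hg, hmem f hfW, hmem g hgW, ?_⟩
    have hF : Frac K (scl K (fun s => wt γ (Y.β s))) (⊥ : Submonoid (MvPolynomial σ K)) := by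
      intro y
      exact ⟨1, Submonoid.one_mem _, scl K (fun s => wt γ⁻¹ (Y.β s)) y, by
        rw [map_one, mul_one, hsc y]⟩
    have hdiv : ∀ f : MvPolynomial σ K, f ∉ W.1.asIdeal → ∀ V : VH Y.Z k,
        divCyc K K k (sc Y (k + 1) γ W).1 (scl K (fun s => wt γ⁻¹ (Y.β s)) f) (sc Y k γ V).1 =
        divCyc K K k W.1 f V.1 := by
      intro f hfW V
      rw [divCyc_apply K K (sc Y (k + 1) γ W).2.2.2 (hmem f hfW) _ (sc Y k γ V).2.2.2,
        divCyc_apply K K W.2.2.2 hfW _ V.2.2.2]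
      have hU : V.1 ∈ Uset K (scl K (fun s => wt γ (Y.β s))) (⊥ : Submonoid (MvPolynomial σ K)) := by
        intro u hu h
        rw [Submonoid.mem_bot] at hu
        rw [hu, map_one] at h
        exact V.1.2.ne_top ((Ideal.eq_top_iff_one _).2 h)
      have e3 := len_uset_div (Q₀ := W.1) hF hU (Submonoid.one_mem _)
        (show f * scl K (fun s => wt γ (Y.β s)) 1 = scl K (fun s => wt γ (Y.β s))
          (scl K (fun s => wt γ⁻¹ (Y.β s)) f) by rw [map_one, mul_one, hsc])
      rw [sc_val, sc_val, e3]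
    ext V'
    obtain ⟨V, rfl⟩ := sc_surj Y k γ V'
    rw [Tm_apply, res_apply, res_apply, Finsupp.sub_apply, Finsupp.sub_apply, hdiv f hfW,
      hdiv g hgW]
  | zero => rw [map_zero]; exact Submodule.zero_mem _
  | add x y _ _ hx hy => rw [map_add]; exact Submodule.add_mem _ hx hy
  | smul c x _ hx => rw [map_smul]; exact Submodule.smul_mem _ _ hx

end action

section proj
variable {σ : Type} [Fintype σ] {t : ℕ} {d : ℕ} [NeZero d]
variable (Y : Sys K σ t d)

noncomputable instance : Fintype (Gam K d t) := Fintype.ofFinite _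

/-- the character attached to a vector of exponents -/
def chr (a : Fin t → ℕ) (γ : Gam K d t) : K := ∏ k, wt γ k ^ a k

theorem chr_mul (a : Fin t → ℕ) (γ δ : Gam K d t) : chr a (γ * δ) = chr a γ * chr a δ := by
  unfold chr
  rw [← Finset.prod_mul_distrib]
  apply Finset.prod_congr rfl
  intro k _
  rw [wt_mul, mul_pow]

theorem chr_one (a : Fin t → ℕ) : chr a (1 : Gam K d t) = 1 := by
  unfold chr
  simp [wt_one]

theorem chr_ne (a : Fin t → ℕ) (γ : Gam K d t) : chr a γ ≠ 0 := by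
  unfold chr
  rw [Finset.prod_ne_zero_iff]
  intro k _
  exact pow_ne_zero _ (wt_ne γ k)

/-- the projector onto the isotypic part, up to a scalar -/
noncomputable def Em (k : ℕ) (a : Fin t → ℕ) : (VH Y.Z k →₀ K) →ₗ[K] (VH Y.Z k →₀ K) :=
  ∑ γ : Gam K d t, (chr a γ)⁻¹ • Tm Y k γ

theorem Em_apply (k : ℕ) (a : Fin t → ℕ) (z : VH Y.Z k →₀ K) :
    Em Y k a z = ∑ γ : Gam K d t, (chr a γ)⁻¹ • Tm Y k γ z := by
  unfold Em
  rw [LinearMap.sum_apply]
  rfl

theorem Em_Tm (k : ℕ) (a : Fin t → ℕ) (δ : Gam K d t) (z : VH Y.Z k →₀ K) :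
    Em Y k a (Tm Y k δ z) = chr a δ • Em Y k a z := by
  rw [Em_apply, Em_apply, Finset.smul_sum]
  refine Fintype.sum_equiv (Equiv.mulRight δ) _ _ (fun γ => ?_)
  change (chr a γ)⁻¹ • Tm Y k γ (Tm Y k δ z) = chr a δ • (chr a (γ * δ))⁻¹ • Tm Y k (γ * δ) z
  rw [Tm_mul, smul_smul, chr_mul, mul_inv]
  congr 1
  field_simp [chr_ne a δ]

theorem Em_mem (k : ℕ) (a : Fin t → ℕ) {N : Submodule K (VH Y.Z k →₀ K)}
    (hN : ∀ γ, ∀ z ∈ N, Tm Y k γ z ∈ N) {z : VH Y.Z k →₀ K} (hz : z ∈ N) : Em Y k a z ∈ N := by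
  rw [Em_apply]
  apply Submodule.sum_mem
  intro γ _
  exact Submodule.smul_mem _ _ (hN γ z hz)

open Classical in
theorem sum_chr [CharZero K] (γ : Gam K d t) :
    ∑ a : Fin t → Fin d, (chr (fun k => (a k : ℕ)) γ)⁻¹ =
      if γ = 1 then ((d : K) ^ t) else 0 := by
  classical
  have h1 : ∀ a : Fin t → Fin d, (chr (fun k => (a k : ℕ)) γ)⁻¹ =
      ∏ k, ((wt γ k)⁻¹) ^ (a k : ℕ) := by
    intro a
    unfold chr
    rw [← Finset.prod_inv_distrib]
    apply Finset.prod_congr rfl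
    intro k _
    rw [inv_pow]
  rw [Finset.sum_congr rfl (fun a _ => h1 a)]
  have h2 : ∏ k : Fin t, ∑ j : Fin d, ((wt γ k)⁻¹) ^ (j : ℕ) =
      ∑ a : Fin t → Fin d, ∏ k, ((wt γ k)⁻¹) ^ (a k : ℕ) := by
    rw [Finset.prod_univ_sum, Fintype.piFinset_univ]
  rw [← h2]
  split_ifs with h
  · subst h
    simp [wt_one]
  · obtain ⟨k, hk⟩ : ∃ k, γ k ≠ 1 := by
      by_contra hcon
      push Not at hcon
      exact h (funext hcon)
    apply Finset.prod_eq_zero (Finset.mem_univ k)
    have hω : (wt γ k)⁻¹ ≠ 1 := by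
      intro h3
      apply hk
      rw [inv_eq_one] at h3
      exact Subtype.ext (Units.ext h3)
    have hωd : ((wt γ k)⁻¹) ^ d = 1 := by rw [inv_pow, wt_pow, inv_one]
    rw [Fin.sum_univ_eq_sum_range (fun j => ((wt γ k)⁻¹) ^ j) d]
    have h4 := mul_neg_geom_sum ((wt γ k)⁻¹) d
    rw [hωd, sub_self] at h4
    exact (mul_eq_zero.1 h4).resolve_left (sub_ne_zero.2 hω.symm)

theorem sum_Em [CharZero K] (k : ℕ) (z : VH Y.Z k →₀ K) :
    ∑ a : Fin t → Fin d, Em Y k (fun k => (a k : ℕ)) z = ((d : K) ^ t) • z := by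
  classical
  simp only [Em_apply]
  rw [Finset.sum_comm]
  have h1 : ∀ γ : Gam K d t, ∑ a : Fin t → Fin d,
      (chr (fun k => (a k : ℕ)) γ)⁻¹ • Tm Y k γ z =
      (if γ = 1 then ((d : K) ^ t) else 0) • Tm Y k γ z := by
    intro γ
    rw [← Finset.sum_smul, sum_chr]
  rw [Finset.sum_congr rfl (fun γ _ => h1 γ), Finset.sum_eq_single 1]
  · rw [if_pos rfl, Tm_one]
  · intro γ _ h; rw [if_neg h, zero_smul]
  · intro h; exact absurd (Finset.mem_univ _) h

end proj

end Pool.Agent.Bloch
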