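import Pool.Agent.Bloch.Cone

set_option linter.unusedSectionVars false

open MvPolynomial

namespace Pool.Agent.Bloch

section scl
variable {K : Type} [Field K] {τ : Type} [Fintype τ] {R : Type} [CommRing R] [Algebra K R]

/-- scaling of the variables -/
noncomputable def scl (R : Type) [CommRing R] [Algebra K R] (c : τ → K) :
    MvPolynomial τ R →ₐ[K] MvPolynomial τ R :=
  (aeval (R := R) (fun l => C (algebraMap K R (c l)) * X l) :
    MvPolynomial τ R →ₐ[R] MvPolynomial τ R).restrictScalars K

theorem scl_C (c : τ → K) (r : R) : scl R c (C r) = C r := by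
  change (aeval (R := R) (fun l => C (algebraMap K R (c l)) * X l) :
    MvPolynomial τ R →ₐ[R] MvPolynomial τ R) (C r) = _
  rw [aeval_C]; rfl

theorem scl_X (c : τ → K) (l : τ) : scl R c (X l) = C (algebraMap K R (c l)) * X l := by
  change (aeval (R := R) (fun l => C (algebraMap K R (c l)) * X l) :
    MvPolynomial τ R →ₐ[R] MvPolynomial τ R) (X l) = _
  rw [aeval_X]

theorem scl_monomial (c : τ → K) (m : τ →₀ ℕ) (r : R) :
    scl R c (monomial m r) = monomial m (algebraMap K R (m.prod fun l k => c l ^ k) * r) := by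
  change (aeval (R := R) (fun l => C (algebraMap K R (c l)) * X l) :
    MvPolynomial τ R →ₐ[R] MvPolynomial τ R) (monomial m r) = _
  rw [aeval_monomial]
  simp only [mul_pow]
  rw [Finsupp.prod_mul, monomial_eq, C_mul, algebraMap_eq]
  have : (m.prod fun l k => (C (algebraMap K R (c l)) : MvPolynomial τ R) ^ k) =
      C (algebraMap K R (m.prod fun l k => c l ^ k)) := by
    rw [Finsupp.prod, Finsupp.prod, map_prod, map_prod]
    simp
  rw [this]; ring

theorem scl_coeff (c : τ → K) (f : MvPolynomial τ R) (m : τ →₀ ℕ) :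
    coeff m (scl R c f) = algebraMap K R (m.prod fun l k => c l ^ k) * coeff m f := by
  classical
  induction f using MvPolynomial.induction_on' with
  | monomial n r =>
    rw [scl_monomial, coeff_monomial, coeff_monomial]
    split_ifs with h
    · rw [h]
    · rw [mul_zero]
  | add p q hp hq => rw [map_add, coeff_add, hp, hq, coeff_add, mul_add]

theorem scl_scl (c c' : τ → K) (f : MvPolynomial τ R) :
    scl R c (scl R c' f) = scl R (fun l => c l * c' l) f := by
  ext m
  rw [scl_coeff, scl_coeff, scl_coeff]
  simp only [mul_pow]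
  rw [Finsupp.prod_mul, map_mul, mul_assoc]

theorem scl_one (f : MvPolynomial τ R) : scl R (fun _ => (1 : K)) f = f := by
  ext m
  rw [scl_coeff]
  simp

theorem dl_scl [Algebra.EssFiniteType K R] (c : τ → K) (hc : ∀ l, c l ≠ 0)
    (Q : PrimeSpectrum (MvPolynomial τ R)) : dl K (ctr K (scl R c) Q) = dl K Q := by
  apply dl_ctr_eq_of_frac
  intro b
  refine ⟨1, scl R (fun l => (c l)⁻¹) b, ?_, ?_⟩
  · rw [map_one, mul_one, scl_scl]
    simp only [mul_inv_cancel₀ (hc _)]
    rw [scl_one]
  · rw [map_one]
    exact fun h => Q.2.ne_top ((Ideal.eq_top_iff_one _).2 h)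

/-- Polynomials invariant under scaling by roots of unity are polynomials in the powers. -/
theorem exists_expand {d : ℕ} {ζ : K} (hζ : IsPrimitiveRoot ζ d)
    (f : MvPolynomial τ R) (hf : ∀ c : τ → K, (∀ l, c l ^ d = 1) → scl R c f = f) :
    ∃ h, expand d h = f := by
  classical
  have hdvd : ∀ m ∈ f.support, ∀ l, d ∣ m l := by
    intro m hm l
    have h1 := hf (Function.update (fun _ => 1) l ζ) (by
      intro l'
      by_cases h : l' = l
      · subst h; rw [Function.update_self]; exact hζ.pow_eq_one
      · rw [Function.update_of_ne h, one_pow])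
    have h2 := congrArg (coeff m) h1
    rw [scl_coeff] at h2
    have h3 : (m.prod fun l' k => (Function.update (fun _ => (1 : K)) l ζ l') ^ k) = ζ ^ m l := by
      rw [Finsupp.prod_fintype _ _ (fun _ => pow_zero _),
        Finset.prod_eq_single l]
      · rw [Function.update_self]
      · intro l' _ h; rw [Function.update_of_ne h, one_pow]
      · intro h; exact absurd (Finset.mem_univ _) h
    rw [h3] at h2
    have h4 : (ζ ^ m l - 1) • coeff m f = 0 := by
      rw [sub_smul, one_smul, Algebra.smul_def, h2, sub_self]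
    rcases smul_eq_zero.1 h4 with h5 | h5
    · exact hζ.dvd_of_pow_eq_one _ (sub_eq_zero.1 h5)
    · exact absurd h5 (mem_support_iff.1 hm)
  refine ⟨∑ m ∈ f.support, monomial (m.mapRange (· / d) (Nat.zero_div d)) (coeff m f), ?_⟩
  rw [map_sum]
  conv_rhs => rw [f.as_sum]
  apply Finset.sum_congr rfl
  intro m hm
  rw [expand_monomial]
  have : d • m.mapRange (· / d) (Nat.zero_div d) = m := by
    ext l
    rw [Finsupp.smul_apply, Finsupp.mapRange_apply, smul_eq_mul]
    exact Nat.mul_div_cancel' (hdvd m hm l)
  rw [this]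

/-- Primes with the same contraction are conjugate under scaling. -/
theorem exists_scl [Algebra.EssFiniteType K R] {d : ℕ} (hd : 0 < d) {ζ : K}
    (hζ : IsPrimitiveRoot ζ d) (Q Q' : PrimeSpectrum (MvPolynomial τ R))
    (h : ∀ f, expand d f ∈ Q'.asIdeal → expand d f ∈ Q.asIdeal)
    (hdl : dl K Q' = dl K Q) :
    ∃ c : τ → K, (∀ l, c l ^ d = 1) ∧ Q' = ctr K (scl R c) Q := by
  classical
  haveI : NeZero d := ⟨hd.ne'⟩
  letI : Fintype (τ → rootsOfUnity d K) := Fintype.ofFinite _
  let w : (τ → rootsOfUnity d K) → τ → K := fun g l => ((g l : Kˣ) : K)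
  have hw : ∀ g l, w g l ^ d = 1 := by
    intro g l
    have := (g l).2
    rw [mem_rootsOfUnity] at this
    change ((g l : Kˣ) : K) ^ d = 1
    rw [← Units.val_pow_eq_pow_val, this, Units.val_one]
  have hw0 : ∀ g l, w g l ≠ 0 := fun g l => Units.ne_zero _
  by_contra hcon
  push Not at hcon
  have hnle : ∀ g : τ → rootsOfUnity d K, ¬ Q'.asIdeal ≤ (ctr K (scl R (w g)) Q).asIdeal := by
    intro g hle
    apply hcon (w g) (hw g)
    apply eq_of_le_of_dl K hle
    rw [dl_scl _ (hw0 g), hdl]
  have hav : ∃ f ∈ Q'.asIdeal, ∀ g : τ → rootsOfUnity d K, f ∉ (ctr K (scl R (w g)) Q).asIdeal := by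
    by_contra hc2
    push Not at hc2
    have hsub : (Q'.asIdeal : Set (MvPolynomial τ R)) ⊆
        ⋃ g ∈ ((Finset.univ : Finset (τ → rootsOfUnity d K)) : Set (τ → rootsOfUnity d K)),
          ((ctr K (scl R (w g)) Q).asIdeal : Set (MvPolynomial τ R)) := by
      intro f hf
      obtain ⟨g, hg⟩ := hc2 f hf
      simp only [Set.mem_iUnion]
      exact ⟨g, Finset.mem_coe.2 (Finset.mem_univ g), hg⟩
    rw [Ideal.subset_union_prime (1 : τ → rootsOfUnity d K) 1
      (fun g _ _ _ => (ctr K (scl R (w g)) Q).2)] at hsub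
    obtain ⟨g, _, hg⟩ := hsub
    exact hnle g hg
  obtain ⟨f, hfQ', hf⟩ := hav
  set nf := ∏ g : τ → rootsOfUnity d K, scl R (w g) f with hnf
  have hinv : ∀ c : τ → K, (∀ l, c l ^ d = 1) → scl R c nf = nf := by
    intro c hc
    let g₀ : τ → rootsOfUnity d K := fun l => rootsOfUnity.mkOfPowEq (c l) (hc l)
    have hg₀ : w g₀ = c := by
      funext l
      exact rootsOfUnity.coe_mkOfPowEq (hc l)
    rw [hnf, map_prod]
    refine Fintype.prod_equiv (Equiv.mulLeft g₀) _ _ (fun g => ?_)
    rw [scl_scl]
    congr 2
  obtain ⟨h', hh'⟩ := exists_expand hζ nf hinv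
  have h1 : nf ∈ Q'.asIdeal := by
    rw [hnf]
    apply Ideal.mem_of_dvd _ (Finset.dvd_prod_of_mem _ (Finset.mem_univ (1 : τ → rootsOfUnity d K)))
    have : scl R (w 1) f = f := by
      have : w 1 = fun _ => 1 := rfl
      rw [this, scl_one]
    rw [this]; exact hfQ'
  have h2 : nf ∈ Q.asIdeal := by
    rw [← hh'] at h1 ⊢
    exact h h' h1
  rw [hnf] at h2
  have h3 := Q.2.prod_mem_iff.1 h2
  obtain ⟨g, _, hg⟩ := h3
  exact hf g hg

end scl

section SS

/-- the polynomial ring, as an algebra over itself via the power map -/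
def SS (d : ℕ) (τ R : Type) [CommRing R] : Type := MvPolynomial τ R

variable (d : ℕ) (τ R : Type) [CommRing R]

noncomputable instance : CommRing (SS d τ R) := inferInstanceAs (CommRing (MvPolynomial τ R))

noncomputable instance (K : Type) [Field K] [Algebra K R] : Algebra K (SS d τ R) :=
  inferInstanceAs (Algebra K (MvPolynomial τ R))

instance (K : Type) [Field K] [Algebra K R] [Algebra.EssFiniteType K R] [Finite τ] :
    Algebra.EssFiniteType K (SS d τ R) :=
  inferInstanceAs (Algebra.EssFiniteType K (MvPolynomial τ R))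

instance [IsNoetherianRing R] [Finite τ] : IsNoetherianRing (SS d τ R) :=
  inferInstanceAs (IsNoetherianRing (MvPolynomial τ R))

noncomputable instance : Algebra (MvPolynomial τ R) (SS d τ R) :=
  ((expand d : MvPolynomial τ R →ₐ[R] MvPolynomial τ R) : MvPolynomial τ R →+*
    MvPolynomial τ R).toAlgebra

instance (K : Type) [Field K] [Algebra K R] : IsScalarTower K (MvPolynomial τ R) (SS d τ R) :=
  IsScalarTower.of_algebraMap_eq (fun x => by
    change C (algebraMap K R x) = expand d (C (algebraMap K R x))
    rw [expand_C])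

variable {d}

/-- the monomial attached to a vector of residues -/
noncomputable def remd [Fintype τ] (a : τ → Fin d) : τ →₀ ℕ :=
  Finsupp.equivFunOnFinite.symm (fun l => (a l : ℕ))

theorem remd_apply [Fintype τ] (a : τ → Fin d) (l : τ) : remd τ a l = (a l : ℕ) := rfl

/-- the decomposition of a polynomial according to residues of exponents -/
noncomputable def decomp (d : ℕ) [Fintype τ] [DecidableEq τ] :
    ((τ → Fin d) → MvPolynomial τ R) →ₗ[MvPolynomial τ R] SS d τ R :=
  Fintype.linearCombination (MvPolynomial τ R)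
    (fun a : τ → Fin d => (monomial (remd τ a) 1 : MvPolynomial τ R))

theorem decomp_apply [Fintype τ] [DecidableEq τ] (h : (τ → Fin d) → MvPolynomial τ R) :
    decomp τ R d h = (∑ a : τ → Fin d, expand d (h a) * monomial (remd τ a) 1 :
      MvPolynomial τ R) := by
  unfold decomp
  rw [Fintype.linearCombination_apply]
  rfl

theorem coeff_decomp [Fintype τ] [DecidableEq τ] (hd : 0 < d) (h : (τ → Fin d) → MvPolynomial τ R)
    (a : τ → Fin d) (n : τ →₀ ℕ) :
    coeff (d • n + remd τ a) (decomp τ R d h : MvPolynomial τ R) = coeff n (h a) := by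
  classical
  rw [decomp_apply, coeff_sum, Finset.sum_eq_single a]
  · rw [coeff_mul_monomial, mul_one, coeff_expand_smul _ hd.ne']
  · intro b _ hb
    rw [coeff_mul_monomial']
    split_ifs with hle
    · obtain ⟨l, hl⟩ : ∃ l, b l ≠ a l := by
        by_contra hcon
        push Not at hcon
        exact hb (funext hcon)
      rw [coeff_expand_of_not_dvd (i := l), zero_mul]
      intro hdvd
      apply hl
      have h1 : remd τ b l ≤ (d • n + remd τ a) l := hle l
      rw [Finsupp.coe_tsub, Pi.sub_apply] at hdvd
      rw [Finsupp.add_apply, Finsupp.smul_apply, smul_eq_mul, remd_apply, remd_apply] at h1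
      rw [Finsupp.add_apply, Finsupp.smul_apply, smul_eq_mul, remd_apply, remd_apply] at hdvd
      have h2 := (b l).2
      have h3 := (a l).2
      obtain ⟨k, hk⟩ := hdvd
      apply Fin.ext
      have h4 : d * n l + (a l : ℕ) = d * k + (b l : ℕ) := by omega
      have h5 := congrArg (· % d) h4
      simp only [Nat.mul_add_mod] at h5
      rw [Nat.mod_eq_of_lt h3, Nat.mod_eq_of_lt h2] at h5
      exact h5.symm
    · rfl
  · intro h; exact absurd (Finset.mem_univ _) h

theorem decomp_bijective [Fintype τ] [DecidableEq τ] (hd : 0 < d) : Function.Bijective (decomp τ R d) := by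
  classical
  constructor
  · intro h h' hh
    funext a
    ext n
    rw [← coeff_decomp τ R hd h a n, hh, coeff_decomp τ R hd h' a n]
  · have hmon : ∀ (m : τ →₀ ℕ) (r : R), ∃ h, decomp τ R d h = (monomial m r : MvPolynomial τ R) := by
      intro m r
      let a : τ → Fin d := fun l => ⟨m l % d, Nat.mod_lt _ hd⟩
      refine ⟨Pi.single a (monomial (m.mapRange (· / d) (Nat.zero_div d)) r), ?_⟩
      rw [decomp_apply, Finset.sum_eq_single a]
      · rw [Pi.single_eq_same, expand_monomial, monomial_mul, mul_one]
        have : d • m.mapRange (· / d) (Nat.zero_div d) + remd τ a = m := by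
          ext l
          rw [Finsupp.add_apply, Finsupp.smul_apply, Finsupp.mapRange_apply, smul_eq_mul,
            remd_apply]
          exact Nat.div_add_mod (m l) d
        rw [this]
      · intro b _ hb
        rw [Pi.single_eq_of_ne hb, map_zero, zero_mul]
      · intro h; exact absurd (Finset.mem_univ _) h
    intro f
    have : ∀ f : MvPolynomial τ R, ∃ h, decomp τ R d h = f := by
      intro f
      induction f using MvPolynomial.induction_on' with
      | monomial m r => exact hmon m r
      | add p q hp hq =>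
        obtain ⟨h, hh⟩ := hp
        obtain ⟨h', hh'⟩ := hq
        refine ⟨h + h', ?_⟩
        rw [map_add, hh, hh']
        rfl
    exact this f

theorem ss_finite [Fintype τ] (hd : 0 < d) : Module.Finite (MvPolynomial τ R) (SS d τ R) := by
  classical
  exact Module.Finite.equiv (LinearEquiv.ofBijective _ (decomp_bijective τ R hd))

theorem ss_flat [Fintype τ] (hd : 0 < d) : Module.Flat (MvPolynomial τ R) (SS d τ R) := by
  classical
  exact Module.Flat.of_linearEquiv (LinearEquiv.ofBijective _ (decomp_bijective τ R hd)).symm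

theorem ss_dl [Fintype τ] (hd : 0 < d) {K : Type} [Field K] [Algebra K R]
    (Q : PrimeSpectrum (SS d τ R)) : dl K (ct K (A := MvPolynomial τ R) Q) = dl K Q := by
  haveI := ss_finite τ R hd
  apply dl_ctr_eq_of_integral
  intro x
  exact Algebra.IsIntegral.isIntegral (R := MvPolynomial τ R) x

end SS

end Pool.Agent.Bloch
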