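import Pool.Agent.Bloch.Big8

/-! Linear changes of coordinates inside the blocks. -/

set_option linter.unusedSectionVars false

open MvPolynomial

namespace Pool.Agent.Bloch

section shear
variable {K : Type} [Field K] {σ : Type} [Finite σ] {T : Type}

/-- the change of coordinates -/
noncomputable def shr (β : σ → T) (J : T → σ) (q : σ → K) :
    MvPolynomial σ K →ₐ[K] MvPolynomial σ K :=
  aeval (fun s => X s + C (q s) * X (J (β s)))

theorem shr_X (β : σ → T) (J : T → σ) (q : σ → K) (s : σ) :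
    shr β J q (X s) = X s + C (q s) * X (J (β s)) := aeval_X _ _

theorem shr_C (β : σ → T) (J : T → σ) (q : σ → K) (a : K) :
    shr β J q (C a) = C a := by
  rw [← algebraMap_eq, AlgHom.commutes]

theorem shr_shr (β : σ → T) (J : T → σ) (q : σ → K) (hJ : ∀ k, β (J k) = k)
    (hq : ∀ k, q (J k) = 0) (f : MvPolynomial σ K) :
    shr β J q (shr β J (fun s => - q s) f) = f := by
  have : (shr β J q).comp (shr β J (fun s => - q s)) = AlgHom.id K (MvPolynomial σ K) := by
    apply MvPolynomial.algHom_ext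
    intro s
    rw [AlgHom.comp_apply, shr_X, map_add, map_mul, shr_X, shr_C, shr_X, hJ, hq, AlgHom.id_apply,
      C_neg, C_0]
    ring
  exact DFunLike.congr_fun this f

theorem shr_surj (β : σ → T) (J : T → σ) (q : σ → K) (hJ : ∀ k, β (J k) = k)
    (hq : ∀ k, q (J k) = 0) : Function.Surjective (shr β J q) :=
  fun f => ⟨_, shr_shr β J q hJ hq f⟩

theorem shr_inj (β : σ → T) (J : T → σ) (q : σ → K) (hJ : ∀ k, β (J k) = k)
    (hq : ∀ k, q (J k) = 0) : Function.Injective (shr β J q) := by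
  have h1 := shr_shr β J (fun s => - q s) hJ (fun k => by rw [hq, neg_zero])
  simp only [neg_neg] at h1
  exact Function.LeftInverse.injective h1

theorem shr_gr (β : σ → T) (J : T → σ) (q : σ → K) : Gr (shr β J q) := by
  apply gr_aeval
  intro s
  refine (isHomogeneous_X K s).add ?_
  have := (isHomogeneous_C σ (q s)).mul (isHomogeneous_X K (J (β s)))
  rwa [zero_add] at this

theorem shr_bh (β : σ → T) (J : T → σ) (q : σ → K) (hJ : ∀ k, β (J k) = k) {k : T} {d : ℕ}
    {f : MvPolynomial σ K} (hf : BH β k d f) : BH β k d (shr β J q f) := by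
  apply hf.aeval
  intro s hs
  refine (BH.X' hs).add ?_
  have := (BH.C' (bl := β) (l := k) (q s)).mul (BH.X' (bl := β) (l := k) (s := J (β s))
    (by rw [hJ, hs]))
  rwa [zero_add] at this

open Classical in
theorem shr_coeff (β : σ → T) (J : T → σ) (q : σ → K) (hJ : ∀ k, β (J k) = k) {k : T} {d : ℕ}
    {f : MvPolynomial σ K} (hf : BH β k d f) :
    aeval (fun s => if s = J k then (1 : K) else 0) (shr β J q f) =
      aeval (fun s => (if s = J k then (1 : K) else 0) + q s) f := by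
  unfold shr
  have h1 : ∀ y : σ → MvPolynomial σ K,
      aeval (fun s => if s = J k then (1 : K) else 0) (aeval y f) =
      aeval (fun s => aeval (fun s => if s = J k then (1 : K) else 0) (y s)) f := by
    intro y
    have : (aeval (fun s => if s = J k then (1 : K) else 0)).comp (aeval y) =
        (aeval (fun s => aeval (fun s => if s = J k then (1 : K) else 0) (y s)) :
          MvPolynomial σ K →ₐ[K] K) := by
      apply MvPolynomial.algHom_ext
      intro s
      rw [AlgHom.comp_apply, aeval_X, aeval_X]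
    exact DFunLike.congr_fun this f
  rw [h1]
  apply hf.aeval_congr
  intro s hs
  rw [map_add, map_mul, aeval_X, aeval_C, aeval_X, hs, if_pos rfl, mul_one]
  rfl

open Classical in
theorem exists_point [Infinite K] (β : σ → T) {k : T} {s₀ : σ} (hs₀ : β s₀ = k) {d : ℕ}
    {f : MvPolynomial σ K} (hf : BH β k d f) (hf0 : f ≠ 0) :
    ∃ q : σ → K, q s₀ = 0 ∧ aeval (fun s => (if s = s₀ then (1 : K) else 0) + q s) f ≠ 0 := by
  have h1 : X s₀ * f ≠ 0 := mul_ne_zero (X_ne_zero s₀) hf0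
  obtain ⟨x, hx⟩ : ∃ x : σ → K, eval x (X s₀ * f) ≠ 0 := by
    by_contra hcon
    push Not at hcon
    apply h1
    apply MvPolynomial.funext
    intro x
    rw [hcon x, map_zero]
  rw [map_mul, eval_X] at hx
  have hx0 : x s₀ ≠ 0 := left_ne_zero_of_mul hx
  have hxf : eval x f ≠ 0 := right_ne_zero_of_mul hx
  refine ⟨fun s => if s = s₀ then 0 else x s / x s₀, if_pos rfl, ?_⟩
  intro h
  apply hxf
  have h2 : aeval x f = x s₀ ^ d *
      aeval (fun s => (if s = s₀ then (1 : K) else 0) + if s = s₀ then 0 else x s / x s₀) f := by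
    apply hf.aeval_eq
    intro s _
    by_cases hs : s = s₀
    · rw [if_pos hs, if_pos hs, hs, add_zero, mul_one]
    · rw [if_neg hs, if_neg hs, zero_add, mul_div_cancel₀ _ hx0]
  rw [← coe_aeval_eq_eval]
  change aeval x f = 0
  rw [h2, h, mul_zero]

end shear

section transport
variable {K : Type} [Field K] (𝕜 : Type) [Field 𝕜] [CharZero 𝕜] {σ : Type} [Fintype σ]

theorem transport {Φ : MvPolynomial σ K →ₐ[K] MvPolynomial σ K} (hs : Function.Surjective Φ)
    (hi : Function.Injective Φ) (hgr : Gr Φ) {Z : Set (PrimeSpectrum (MvPolynomial σ K))}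
    (hup : ∀ p ∈ Z, ∀ q, p ≤ q → q ∈ Z) (k : ℕ)
    (h : ∃ α : VH {Q | ctr K Φ Q ∈ Z} k →₀ 𝕜, ∀ V,
      Finsupp.single V 1 ∈ RelH 𝕜 {Q | ctr K Φ Q ∈ Z} k ⊔ Submodule.span 𝕜 {α}) :
    ∃ α : VH Z k →₀ 𝕜, ∀ V, Finsupp.single V 1 ∈ RelH 𝕜 Z k ⊔ Submodule.span 𝕜 {α} := by
  have hF : Frac K Φ (⊥ : Submonoid (MvPolynomial σ K)) := frac_of_surj hs
  set Z' := {Q : PrimeSpectrum (MvPolynomial σ K) | ctr K Φ Q ∈ Z} with hZ'
  obtain ⟨α, hα⟩ := h
  refine ⟨pushH 𝕜 Φ ⊥ Z' k Z k α, fun V => ?_⟩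
  obtain ⟨Q, hQ, hQV⟩ := exists_uset hF V.1 (fun x hx => by
      rw [(map_eq_zero_iff Φ hi).1 hx]; exact Ideal.zero_mem _) (by
    intro u hu h
    rw [Submonoid.mem_bot] at hu
    rw [hu] at h
    exact V.1.2.ne_top ((Ideal.eq_top_iff_one _).2 h))
  have hQ1 : HomP Q := hgr.homP_of_ctr (by
    intro u hu
    rw [Submonoid.mem_bot] at hu
    exact ⟨0, by rw [hu]; exact isHomogeneous_one _ _⟩) hF hQ (by rw [hQV]; exact V.2.1)
  have hQ2 : Q ∈ Z' := by
    change ctr K Φ Q ∈ Z
    rw [hQV]; exact V.2.2.1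
  have hQ3 : dl K Q = k := by rw [← dl_uset hF hQ, hQV, V.2.2.2]
  let V' : VH Z' k := ⟨Q, hQ1, hQ2, hQ3⟩
  have h1 := pushH_single (𝕜 := 𝕜) (θ := Φ) (S := ⊥) V' V hQV.symm hQ 1
  rw [← h1]
  obtain ⟨x, hx, y, hy, hxy⟩ := Submodule.mem_sup.1 (hα V')
  rw [← hxy, map_add]
  refine Submodule.add_mem _ (Submodule.mem_sup_left ?_) ?_
  · refine push_rel 𝕜 hgr hF ?_ (fun Q hQ => hQ) _ le_rfl hx
    intro p hp q hpq
    exact hup _ hp _ (ctr_mono K Φ hpq)
  · obtain ⟨c, rfl⟩ := Submodule.mem_span_singleton.1 hy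
    rw [map_smul]
    exact Submodule.smul_mem _ _ (Submodule.mem_sup_right (Submodule.mem_span_singleton_self _))

end transport

end Pool.Agent.Bloch
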