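import Pool.Agent.Bloch.Rep

/-! Linear systems with invertible constant coefficients, and affine spaces. -/

set_option linter.unusedSectionVars false

open MvPolynomial

namespace Pool.Agent.Bloch

variable {K : Type} [Field K]

section solve
variable {R : Type} [CommRing R] [Algebra K R] {r : ℕ}

/-- the solution of a linear system -/
noncomputable def solve (B : Fin r → Fin r → K) (g : Fin r → R) :
    MvPolynomial (Fin r) R →ₐ[R] R :=
  aeval (fun j => -∑ e, B j e • g e)

theorem solve_C (B : Fin r → Fin r → K) (g : Fin r → R) (x : R) : solve B g (C x) = x := by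
  unfold solve
  rw [aeval_C]; rfl

theorem solve_X (B : Fin r → Fin r → K) (g : Fin r → R) (j : Fin r) :
    solve B g (X j) = -∑ e, B j e • g e := by
  unfold solve
  rw [aeval_X]

theorem solve_lin (A B : Fin r → Fin r → K)
    (hAB : ∀ e e', ∑ l, A e l * B l e' = if e = e' then 1 else 0) (g : Fin r → R) (e : Fin r) :
    solve B g (lin (g e) (fun l => algebraMap K R (A e l))) = 0 := by
  unfold lin
  rw [map_add, solve_C, map_sum]
  have h1 : ∀ l, solve B g (C (algebraMap K R (A e l)) * X l) =
      -∑ e', (A e l * B l e') • g e' := by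
    intro l
    rw [map_mul, solve_C, solve_X, mul_neg, Finset.mul_sum]
    congr 1
    apply Finset.sum_congr rfl
    intro e' _
    rw [← Algebra.smul_def, smul_smul]
  rw [Finset.sum_congr rfl (fun l _ => h1 l), Finset.sum_neg_distrib, Finset.sum_comm]
  have h2 : ∀ e', ∑ l, (A e l * B l e') • g e' = (if e = e' then (1 : K) else 0) • g e' := by
    intro e'
    rw [← Finset.sum_smul, hAB]
  rw [Finset.sum_congr rfl (fun e' _ => h2 e'), Finset.sum_eq_single e]
  · rw [if_pos rfl, one_smul, add_neg_cancel]
  · intro e' _ h; rw [if_neg h.symm, zero_smul]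
  · intro h; exact absurd (Finset.mem_univ _) h

theorem solve_mem (A B : Fin r → Fin r → K)
    (hBA : ∀ j j', ∑ e, B j e * A e j' = if j = j' then 1 else 0) (g : Fin r → R)
    (p : Ideal (MvPolynomial (Fin r) R))
    (hp : ∀ e, lin (g e) (fun l => algebraMap K R (A e l)) ∈ p) (x : MvPolynomial (Fin r) R) :
    x - C (solve B g x) ∈ p := by
  have hX : ∀ j, (X j : MvPolynomial (Fin r) R) - C (solve B g (X j)) ∈ p := by
    intro j
    have h1 : (X j : MvPolynomial (Fin r) R) - C (solve B g (X j)) =
        ∑ e, C (algebraMap K R (B j e)) * lin (g e) (fun l => algebraMap K R (A e l)) := by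
      rw [solve_X, map_neg, sub_neg_eq_add, map_sum]
      unfold lin
      simp only [mul_add, Finset.sum_add_distrib]
      rw [add_comm]
      congr 1
      · apply Finset.sum_congr rfl
        intro e _
        rw [Algebra.smul_def, C_mul]
      · simp only [Finset.mul_sum]
        rw [Finset.sum_comm]
        have h2 : ∀ l, ∑ e, C (algebraMap K R (B j e)) * (C (algebraMap K R (A e l)) *
            (X l : MvPolynomial (Fin r) R)) = C (algebraMap K R (if j = l then 1 else 0)) * X l := by
          intro l
          rw [← hBA, map_sum, map_sum, Finset.sum_mul]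
          apply Finset.sum_congr rfl
          intro e _
          rw [map_mul, C_mul]; ring
        rw [Finset.sum_congr rfl (fun l _ => h2 l), Finset.sum_eq_single j]
        · rw [if_pos rfl, map_one, C_1, one_mul]
        · intro l _ h; rw [if_neg h.symm, map_zero, C_0, zero_mul]
        · intro h; exact absurd (Finset.mem_univ _) h
    rw [h1]
    exact Ideal.sum_mem _ (fun e _ => Ideal.mul_mem_left _ _ (hp e))
  induction x using MvPolynomial.induction_on with
  | C a => rw [solve_C, sub_self]; exact Ideal.zero_mem _
  | add a b ha hb =>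
    rw [map_add, C_add]
    have : a + b - (C (solve B g a) + C (solve B g b)) =
        (a - C (solve B g a)) + (b - C (solve B g b)) := by ring
    rw [this]
    exact Ideal.add_mem _ ha hb
  | mul_X a j ha =>
    rw [map_mul, C_mul]
    have : a * X j - C (solve B g a) * C (solve B g (X j)) =
        (a - C (solve B g a)) * X j + C (solve B g a) * (X j - C (solve B g (X j))) := by ring
    rw [this]
    exact Ideal.add_mem _ (Ideal.mul_mem_right _ _ ha) (Ideal.mul_mem_left _ _ (hX j))

theorem solve_ker (A B : Fin r → Fin r → K)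
    (hBA : ∀ j j', ∑ e, B j e * A e j' = if j = j' then 1 else 0) (g : Fin r → R)
    (p : Ideal (MvPolynomial (Fin r) R))
    (hp : ∀ e, lin (g e) (fun l => algebraMap K R (A e l)) ∈ p) (x : MvPolynomial (Fin r) R)
    (hx : solve B g x = 0) : x ∈ p := by
  have := solve_mem A B hBA g p hp x
  rwa [hx, C_0, sub_zero] at this

end solve

section aff
variable (𝕜 : Type) [Field 𝕜] [CharZero 𝕜]

/-- Chow groups of affine space vanish below the top dimension. -/
theorem van_aff (τ : Type) [Fintype τ] {i : ℕ} (hi : i < Fintype.card τ) :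
    Van K 𝕜 i (Set.univ : Set (PrimeSpectrum (MvPolynomial τ K))) := by
  classical
  let e : τ ≃ Fin (Fintype.card τ) := Fintype.equivFin τ
  let E : MvPolynomial τ K ≃ₐ[K] MvPolynomial (Fin (Fintype.card τ)) K := renameEquiv K e
  have h := van_lin K 𝕜 (A := K) (Fintype.card τ) Empty ∅ (fun e => e.elim) (fun e => e.elim) i
      (by simpa using hi)
  have h' : Van K 𝕜 i (Set.univ : Set (PrimeSpectrum (MvPolynomial (Fin (Fintype.card τ)) K))) := by
    intro P _ hd
    exact rel_mono K 𝕜 i (Set.subset_univ _) (h P (by intro e; exact e.elim) hd)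
  refine van_of_surj K 𝕜 (E : MvPolynomial τ K →ₐ[K] MvPolynomial (Fin (Fintype.card τ)) K)
    E.surjective (Z := Set.univ) (fun Q => by simp) ?_ h'
  intro p _ x hx
  have : x = 0 := (map_eq_zero_iff _ E.injective).1 hx
  rw [this]; exact Ideal.zero_mem _

end aff

end Pool.Agent.Bloch
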