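import Mathlib

/-! Decompositions of sequences of sum zero in `ZMod d` into sequences of sum zero. -/

namespace Pool.Agent.Bloch

section good
variable {d t : ℕ}

/-- `S` contains `m` disjoint nonempty subsets of sum zero -/
def Good (c : Fin t → ZMod d) : ℕ → Finset (Fin t) → Prop
  | 0, _ => True
  | m + 1, S => ∃ B ⊆ S, B.Nonempty ∧ ∑ k ∈ B, c k = 0 ∧ Good c m (S \ B)

theorem good_smul (u v : ZMod d) (huv : u * v = 1) (c : Fin t → ZMod d) : ∀ (m : ℕ)
    (S : Finset (Fin t)), Good (fun k => u * c k) m S → Good c m S := by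
  intro m
  induction m with
  | zero => intro S _; trivial
  | succ m ih =>
    rintro S ⟨B, hB, hBn, hs, hg⟩
    refine ⟨B, hB, hBn, ?_, ih _ hg⟩
    rw [← Finset.mul_sum] at hs
    calc ∑ k ∈ B, c k = (u * v) * ∑ k ∈ B, c k := by rw [huv, one_mul]
      _ = v * (u * ∑ k ∈ B, c k) := by ring
      _ = 0 := by rw [hs, mul_zero]

theorem good_mono_set (c : Fin t → ZMod d) : ∀ (m : ℕ) (S S' : Finset (Fin t)), S ⊆ S' →
    Good c m S → Good c m S' := by
  intro m
  induction m with
  | zero => intro S S' _ _; trivial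
  | succ m ih =>
    rintro S S' hSS' ⟨B, hB, hBn, hs, hg⟩
    exact ⟨B, hB.trans hSS', hBn, hs, ih _ _ (Finset.sdiff_subset_sdiff hSS' (le_refl B)) hg⟩

theorem good_pred (c : Fin t → ZMod d) : ∀ (m : ℕ) (S : Finset (Fin t)),
    Good c (m + 1) S → Good c m S := by
  rintro m S ⟨B, hB, hBn, hs, hg⟩
  exact good_mono_set c m _ _ Finset.sdiff_subset hg

theorem good_le (c : Fin t → ZMod d) {m n : ℕ} (h : m ≤ n) (S : Finset (Fin t))
    (hg : Good c n S) : Good c m S := by
  induction n, h using Nat.le_induction with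
  | base => exact hg
  | succ n _ ih => exact ih (good_pred c n S hg)

/-- from disjoint subsets to a partition -/
theorem good_part (c : Fin t → ZMod d) : ∀ (m : ℕ) (T : Finset (Fin t)),
    Good c (m + 1) T → ∑ k ∈ T, c k = 0 → ∃ π : Fin t → Fin (m + 1),
      (∀ l, ∃ k ∈ T, π k = l) ∧ ∀ l, ∑ k ∈ T, (if π k = l then c k else 0) = 0 := by
  classical
  intro m
  induction m with
  | zero =>
    intro T hT hs
    obtain ⟨B, hB, ⟨k, hk⟩, _, _⟩ := hT
    refine ⟨fun _ => 0, fun l => ?_, fun l => ?_⟩
    · exact ⟨k, hB hk, (Fin.fin_one_eq_zero l).symm⟩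
    · simp only [Fin.fin_one_eq_zero l, if_true]
      exact hs
  | succ m ih =>
    intro T hT hs
    obtain ⟨S, hST, hSne, hS0, hG⟩ := hT
    obtain ⟨π, hπ1, hπ2⟩ := ih (T \ S) hG (by
      have := Finset.sum_sdiff hST (f := c)
      rw [hS0, add_zero, hs] at this
      exact this)
    refine ⟨fun k => if k ∈ S then Fin.last (m + 1) else (π k).castSucc, ?_, ?_⟩
    · intro l
      refine Fin.lastCases ?_ (fun l => ?_) l
      · obtain ⟨k, hk⟩ := hSne
        exact ⟨k, hST hk, if_pos hk⟩
      · obtain ⟨k, hk, hkl⟩ := hπ1 l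
        rw [Finset.mem_sdiff] at hk
        refine ⟨k, hk.1, ?_⟩
        change (if k ∈ S then Fin.last (m + 1) else (π k).castSucc) = l.castSucc
        rw [if_neg hk.2, hkl]
    · intro l
      rw [← Finset.sum_sdiff hST]
      refine Fin.lastCases ?_ (fun l => ?_) l
      · have h1 : ∑ k ∈ T \ S, (if (if k ∈ S then Fin.last (m + 1) else (π k).castSucc) =
            Fin.last (m + 1) then c k else 0) = 0 := by
          apply Finset.sum_eq_zero
          intro k hk
          rw [Finset.mem_sdiff] at hk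
          rw [if_neg hk.2, if_neg (Fin.castSucc_ne_last _)]
        have h2 : ∑ k ∈ S, (if (if k ∈ S then Fin.last (m + 1) else (π k).castSucc) =
            Fin.last (m + 1) then c k else 0) = ∑ k ∈ S, c k := by
          apply Finset.sum_congr rfl
          intro k hk
          rw [if_pos hk, if_pos rfl]
        rw [h1, h2, hS0, zero_add]
      · have h1 : ∑ k ∈ T \ S, (if (if k ∈ S then Fin.last (m + 1) else (π k).castSucc) =
            l.castSucc then c k else 0) = ∑ k ∈ T \ S, (if π k = l then c k else 0) := by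
          apply Finset.sum_congr rfl
          intro k hk
          rw [Finset.mem_sdiff] at hk
          rw [if_neg hk.2]
          simp only [Fin.castSucc_inj]
        have h2 : ∑ k ∈ S, (if (if k ∈ S then Fin.last (m + 1) else (π k).castSucc) =
            l.castSucc then c k else 0) = 0 := by
          apply Finset.sum_eq_zero
          intro k hk
          rw [if_pos hk, if_neg (Fin.castSucc_ne_last _).symm]
        rw [h1, h2, hπ2, add_zero]

end good

section counts
variable {d t : ℕ}

/-- the number of elements of `S` with value `x` -/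
def cnt (c : Fin t → ZMod d) (S : Finset (Fin t)) (x : ZMod d) : ℕ :=
  (S.filter (fun k => c k = x)).card

/-- a decomposition of a triple of multiplicities -/
def Dec (d p q r : ℕ) : ℕ → ℕ → ℕ → ℕ → Prop
  | 0, _, _, _ => True
  | m + 1, x, y, z => ∃ b₁ b₂ b₃, b₁ ≤ x ∧ b₂ ≤ y ∧ b₃ ≤ z ∧ 0 < b₁ + b₂ + b₃ ∧
      d ∣ p * b₁ + q * b₂ + r * b₃ ∧ Dec d p q r m (x - b₁) (y - b₂) (z - b₃)

theorem dec_good (c : Fin t → ZMod d) (p q r : ℕ) (hpq : (p : ZMod d) ≠ q)
    (hpr : (p : ZMod d) ≠ r) (hqr : (q : ZMod d) ≠ r) : ∀ (m : ℕ) (S : Finset (Fin t)),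
    Dec d p q r m (cnt c S p) (cnt c S q) (cnt c S r) → Good c m S := by
  classical
  intro m
  induction m with
  | zero => intro S _; trivial
  | succ m ih =>
    rintro S ⟨b₁, b₂, b₃, h1, h2, h3, h0, hd, hD⟩
    obtain ⟨B₁, hB₁, hc₁⟩ := Finset.exists_subset_card_eq h1
    obtain ⟨B₂, hB₂, hc₂⟩ := Finset.exists_subset_card_eq h2
    obtain ⟨B₃, hB₃, hc₃⟩ := Finset.exists_subset_card_eq h3
    have hv₁ : ∀ k ∈ B₁, c k = p := fun k hk => (Finset.mem_filter.1 (hB₁ hk)).2
    have hv₂ : ∀ k ∈ B₂, c k = q := fun k hk => (Finset.mem_filter.1 (hB₂ hk)).2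
    have hv₃ : ∀ k ∈ B₃, c k = r := fun k hk => (Finset.mem_filter.1 (hB₃ hk)).2
    have hd₁₂ : Disjoint B₁ B₂ := by
      rw [Finset.disjoint_left]
      intro k h h'
      exact hpq ((hv₁ k h).symm.trans (hv₂ k h'))
    have hd₁₂₃ : Disjoint (B₁ ∪ B₂) B₃ := by
      rw [Finset.disjoint_left]
      intro k h h'
      rcases Finset.mem_union.1 h with h | h
      · exact hpr ((hv₁ k h).symm.trans (hv₃ k h'))
      · exact hqr ((hv₂ k h).symm.trans (hv₃ k h'))
    refine ⟨B₁ ∪ B₂ ∪ B₃, ?_, ?_, ?_, ih _ ?_⟩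
    · refine Finset.union_subset (Finset.union_subset ?_ ?_) ?_
      · exact hB₁.trans (Finset.filter_subset _ _)
      · exact hB₂.trans (Finset.filter_subset _ _)
      · exact hB₃.trans (Finset.filter_subset _ _)
    · rw [← Finset.card_pos, Finset.card_union_of_disjoint hd₁₂₃,
        Finset.card_union_of_disjoint hd₁₂, hc₁, hc₂, hc₃]
      exact h0
    · rw [Finset.sum_union hd₁₂₃, Finset.sum_union hd₁₂, Finset.sum_congr rfl hv₁,
        Finset.sum_congr rfl hv₂, Finset.sum_congr rfl hv₃]
      simp only [Finset.sum_const, hc₁, hc₂, hc₃, nsmul_eq_mul]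
      have := (ZMod.natCast_eq_zero_iff _ _).2 hd
      push_cast at this
      linear_combination this
    · have key : ∀ (x : ZMod d) (b : ℕ) (B : Finset (Fin t)), B ⊆ S.filter (fun k => c k = x) →
          B.card = b → (∀ k ∈ B₁ ∪ B₂ ∪ B₃, c k = x → k ∈ B) → B ⊆ B₁ ∪ B₂ ∪ B₃ →
          cnt c (S \ (B₁ ∪ B₂ ∪ B₃)) x = cnt c S x - b := by
        intro x b B hB hb hB' hB''
        unfold cnt
        rw [← hb, ← Finset.card_sdiff_of_subset hB]
        congr 1
        ext k
        simp only [Finset.mem_filter, Finset.mem_sdiff]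
        constructor
        · rintro ⟨⟨h1, h2⟩, h3⟩
          exact ⟨⟨h1, h3⟩, fun h => h2 (hB'' h)⟩
        · rintro ⟨⟨h1, h2⟩, h3⟩
          exact ⟨⟨h1, fun h => h3 (hB' k h h2)⟩, h2⟩
      have e₁ := key p b₁ B₁ hB₁ hc₁ (by
        intro k hk hkp
        rcases Finset.mem_union.1 hk with h | h
        · rcases Finset.mem_union.1 h with h | h
          · exact h
          · exact absurd (hkp.symm.trans (hv₂ k h)) hpq
        · exact absurd (hkp.symm.trans (hv₃ k h)) hpr)
        (Finset.subset_union_left.trans Finset.subset_union_left)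
      have e₂ := key q b₂ B₂ hB₂ hc₂ (by
        intro k hk hkp
        rcases Finset.mem_union.1 hk with h | h
        · rcases Finset.mem_union.1 h with h | h
          · exact absurd ((hv₁ k h).symm.trans hkp) hpq
          · exact h
        · exact absurd (hkp.symm.trans (hv₃ k h)) hqr)
        (Finset.subset_union_right.trans Finset.subset_union_left)
      have e₃ := key r b₃ B₃ hB₃ hc₃ (by
        intro k hk hkp
        rcases Finset.mem_union.1 hk with h | h
        · rcases Finset.mem_union.1 h with h | h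
          · exact absurd ((hv₁ k h).symm.trans hkp) hpr
          · exact absurd ((hv₂ k h).symm.trans hkp) hqr
        · exact h)
        Finset.subset_union_right
      rw [e₁, e₂, e₃]
      exact hD

end counts

end Pool.Agent.Bloch
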