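import Pool.Agent.Bloch.ZeroSum

/-! Sequences of sum zero in `ZMod d`, `d = 2, 3, 4, 5, 7`, split into as many parts of sum zero as
the values allow. -/

namespace Pool.Agent.Bloch

section numeric

theorem dec7_1 : ∀ n x y z : ℕ, x + 2 * y + 3 * z = 7 * n → y ≤ 3 * x + 2 * z →
    2 * z ≤ 4 * x + y → Dec 7 1 2 3 n x y z := by
  intro n
  induction n with
  | zero => intros; trivial
  | succ n ih =>
    intro x y z h f g
    have step : ∀ b₁ b₂ b₃ : ℕ, b₁ ≤ x → b₂ ≤ y → b₃ ≤ z → b₁ + 2 * b₂ + 3 * b₃ = 7 →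
        (y - b₂) ≤ 3 * (x - b₁) + 2 * (z - b₃) → 2 * (z - b₃) ≤ 4 * (x - b₁) + (y - b₂) →
        Dec 7 1 2 3 (n + 1) x y z := by
      intro b₁ b₂ b₃ h1 h2 h3 h4 h5 h6
      exact ⟨b₁, b₂, b₃, h1, h2, h3, by omega, ⟨1, by omega⟩, ih _ _ _ (by omega) h5 h6⟩
    by_cases c1 : 2 ≤ y ∧ 1 ≤ z
    · exact step 0 2 1 (by omega) (by omega) (by omega) rfl (by omega) (by omega)
    by_cases c2 : z = 0
    · by_cases c3 : 3 ≤ y
      · exact step 1 3 0 (by omega) (by omega) (by omega) rfl (by omega) (by omega)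
      by_cases c4 : y = 0
      · exact step 7 0 0 (by omega) (by omega) (by omega) rfl (by omega) (by omega)
      by_cases c5 : y = 1
      · exact step 5 1 0 (by omega) (by omega) (by omega) rfl (by omega) (by omega)
      · exact step 3 2 0 (by omega) (by omega) (by omega) rfl (by omega) (by omega)
    by_cases c3 : y = 0
    · by_cases c4 : 2 ≤ z
      · exact step 1 0 2 (by omega) (by omega) (by omega) rfl (by omega) (by omega)
      · exact step 4 0 1 (by omega) (by omega) (by omega) rfl (by omega) (by omega)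
    · exact step 2 1 1 (by omega) (by omega) (by omega) rfl (by omega) (by omega)

theorem dec7_4 : ∀ n x y z : ℕ, 4 * x + y + 5 * z = 7 * n → 3 * x + 2 * z ≤ y →
    Dec 7 1 2 3 n x y z := by
  intro n
  induction n with
  | zero => intros; trivial
  | succ n ih =>
    intro x y z h f
    have step : ∀ b₁ b₂ b₃ : ℕ, b₁ ≤ x → b₂ ≤ y → b₃ ≤ z → 4 * b₁ + b₂ + 5 * b₃ = 7 →
        3 * (x - b₁) + 2 * (z - b₃) ≤ (y - b₂) →
        Dec 7 1 2 3 (n + 1) x y z := by
      intro b₁ b₂ b₃ h1 h2 h3 h4 h5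
      exact ⟨b₁, b₂, b₃, h1, h2, h3, by omega, by omega, ih _ _ _ (by omega) h5⟩
    by_cases c1 : 1 ≤ x
    · exact step 1 3 0 (by omega) (by omega) (by omega) rfl (by omega)
    by_cases c2 : 1 ≤ z
    · exact step 0 2 1 (by omega) (by omega) (by omega) rfl (by omega)
    · exact step 0 7 0 (by omega) (by omega) (by omega) rfl (by omega)

theorem dec7_5 : ∀ n x y z : ℕ, 5 * x + 3 * y + z = 7 * n → 4 * x + y ≤ 2 * z →
    Dec 7 1 2 3 n x y z := by
  intro n
  induction n with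
  | zero => intros; trivial
  | succ n ih =>
    intro x y z h f
    have step : ∀ b₁ b₂ b₃ : ℕ, b₁ ≤ x → b₂ ≤ y → b₃ ≤ z → 5 * b₁ + 3 * b₂ + b₃ = 7 →
        4 * (x - b₁) + (y - b₂) ≤ 2 * (z - b₃) →
        Dec 7 1 2 3 (n + 1) x y z := by
      intro b₁ b₂ b₃ h1 h2 h3 h4 h5
      exact ⟨b₁, b₂, b₃, h1, h2, h3, by omega, by omega, ih _ _ _ (by omega) h5⟩
    by_cases c1 : 1 ≤ x
    · exact step 1 0 2 (by omega) (by omega) (by omega) rfl (by omega)
    by_cases c2 : 2 ≤ y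
    · exact step 0 2 1 (by omega) (by omega) (by omega) rfl (by omega)
    by_cases c3 : y = 1
    · exact step 0 1 4 (by omega) (by omega) (by omega) rfl (by omega)
    · exact step 0 0 7 (by omega) (by omega) (by omega) rfl (by omega)

theorem dec_le {d p q r : ℕ} : ∀ {m : ℕ} {x y z x' y' z' : ℕ}, x ≤ x' → y ≤ y' → z ≤ z' →
    Dec d p q r m x y z → Dec d p q r m x' y' z' := by
  intro m
  induction m with
  | zero => intros; trivial
  | succ m ih =>
    rintro x y z x' y' z' hx hy hz ⟨b₁, b₂, b₃, h1, h2, h3, h4, h5, h6⟩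
    exact ⟨b₁, b₂, b₃, by omega, by omega, by omega, h4, h5,
      ih (by omega) (by omega) (by omega) h6⟩

theorem dec_of_le {d p q r : ℕ} {m n : ℕ} (hmn : m ≤ n) {x y z : ℕ} (h : Dec d p q r n x y z) :
    Dec d p q r m x y z := by
  induction n, hmn using Nat.le_induction with
  | base => exact h
  | succ n _ ih =>
    apply ih
    obtain ⟨b₁, b₂, b₃, h1, h2, h3, h4, h5, h6⟩ := h
    exact dec_le (by omega) (by omega) (by omega) h6

theorem dec7_123 (m x y z : ℕ) (h7 : 7 ∣ x + 2 * y + 3 * z) (h1 : 7 * m ≤ x + 2 * y + 3 * z)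
    (h4 : 7 * m ≤ 4 * x + y + 5 * z) (h5 : 7 * m ≤ 5 * x + 3 * y + z) :
    Dec 7 1 2 3 m x y z := by
  obtain ⟨n, hn⟩ := h7
  by_cases c1 : y ≤ 3 * x + 2 * z
  · by_cases c2 : 2 * z ≤ 4 * x + y
    · exact dec_of_le (n := n) (by omega) (dec7_1 n x y z hn c1 c2)
    · obtain ⟨n', hn'⟩ : 7 ∣ 5 * x + 3 * y + z := by omega
      exact dec_of_le (n := n') (by omega) (dec7_5 n' x y z hn' (by omega))
  · obtain ⟨n', hn'⟩ : 7 ∣ 4 * x + y + 5 * z := by omega
    exact dec_of_le (n := n') (by omega) (dec7_4 n' x y z hn' (by omega))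

theorem dec7_124_min : ∀ n x y z : ℕ, x + 2 * y + 4 * z = 7 * n → 3 * z ≤ x + 2 * y →
    y + 2 * z ≤ 3 * x → Dec 7 1 2 4 n x y z := by
  intro n
  induction n with
  | zero => intros; trivial
  | succ n ih =>
    intro x y z h f g
    have step : ∀ b₁ b₂ b₃ : ℕ, b₁ ≤ x → b₂ ≤ y → b₃ ≤ z → b₁ + 2 * b₂ + 4 * b₃ = 7 →
        3 * (z - b₃) ≤ (x - b₁) + 2 * (y - b₂) → (y - b₂) + 2 * (z - b₃) ≤ 3 * (x - b₁) →
        Dec 7 1 2 4 (n + 1) x y z := by
      intro b₁ b₂ b₃ h1 h2 h3 h4 h5 h6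
      exact ⟨b₁, b₂, b₃, h1, h2, h3, by omega, ⟨1, by omega⟩, ih _ _ _ (by omega) h5 h6⟩
    by_cases c1 : 1 ≤ y ∧ 1 ≤ z
    · exact step 1 1 1 (by omega) (by omega) (by omega) rfl (by omega) (by omega)
    by_cases c2 : z = 0
    · by_cases c3 : 3 ≤ y
      · exact step 1 3 0 (by omega) (by omega) (by omega) rfl (by omega) (by omega)
      by_cases c4 : y = 0
      · exact step 7 0 0 (by omega) (by omega) (by omega) rfl (by omega) (by omega)
      by_cases c5 : y = 1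
      · exact step 5 1 0 (by omega) (by omega) (by omega) rfl (by omega) (by omega)
      · exact step 3 2 0 (by omega) (by omega) (by omega) rfl (by omega) (by omega)
    · exact step 3 0 1 (by omega) (by omega) (by omega) rfl (by omega) (by omega)

theorem dec5_1 : ∀ n x y : ℕ, x + 2 * y = 5 * n → y ≤ 2 * x + 1 → Dec 5 1 2 3 n x y 0 := by
  intro n
  induction n with
  | zero => intros; trivial
  | succ n ih =>
    intro x y h f
    have step : ∀ b₁ b₂ : ℕ, b₁ ≤ x → b₂ ≤ y → b₁ + 2 * b₂ = 5 →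
        (y - b₂) ≤ 2 * (x - b₁) + 1 → Dec 5 1 2 3 (n + 1) x y 0 := by
      intro b₁ b₂ h1 h2 h4 h5
      exact ⟨b₁, b₂, 0, h1, h2, by omega, by omega, ⟨1, by omega⟩, ih _ _ (by omega) h5⟩
    by_cases c3 : 2 ≤ y
    · exact step 1 2 (by omega) (by omega) rfl (by omega)
    by_cases c4 : y = 0
    · exact step 5 0 (by omega) (by omega) rfl (by omega)
    · exact step 3 1 (by omega) (by omega) rfl (by omega)

theorem dec5_3 : ∀ n x y : ℕ, 3 * x + y = 5 * n → 2 * x ≤ y → Dec 5 1 2 3 n x y 0 := by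
  intro n
  induction n with
  | zero => intros; trivial
  | succ n ih =>
    intro x y h f
    have step : ∀ b₁ b₂ : ℕ, b₁ ≤ x → b₂ ≤ y → 3 * b₁ + b₂ = 5 →
        2 * (x - b₁) ≤ y - b₂ → Dec 5 1 2 3 (n + 1) x y 0 := by
      intro b₁ b₂ h1 h2 h4 h5
      exact ⟨b₁, b₂, 0, h1, h2, by omega, by omega, by omega, ih _ _ (by omega) h5⟩
    by_cases c3 : 1 ≤ x
    · exact step 1 2 (by omega) (by omega) rfl (by omega)
    · exact step 0 5 (by omega) (by omega) rfl (by omega)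

theorem dec5_12 (m x y : ℕ) (h5 : 5 ∣ x + 2 * y) (h1 : 5 * m ≤ x + 2 * y)
    (h3 : 5 * m ≤ 3 * x + y) : Dec 5 1 2 3 m x y 0 := by
  obtain ⟨n, hn⟩ := h5
  by_cases c1 : y ≤ 2 * x
  · exact dec_of_le (n := n) (by omega) (dec5_1 n x y hn (by omega))
  · obtain ⟨n', hn'⟩ : 5 ∣ 3 * x + y := by omega
    exact dec_of_le (n := n') (by omega) (dec5_3 n' x y hn' (by omega))

theorem dec4_12 : ∀ m x y : ℕ, 4 ∣ x + 2 * y → 4 * m ≤ x + 2 * y → y ≤ 1 →
    Dec 4 1 2 3 m x y 0 := by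
  intro m
  induction m with
  | zero => intros; trivial
  | succ n ih =>
    intro x y h f g
    by_cases c3 : y = 1
    · exact ⟨2, 1, 0, by omega, by omega, by omega, by omega, by omega,
        ih _ _ (by omega) (by omega) (by omega)⟩
    · exact ⟨4, 0, 0, by omega, by omega, by omega, by omega, by omega,
        ih _ _ (by omega) (by omega) (by omega)⟩

theorem dec3_1 : ∀ m x : ℕ, 3 * m ≤ x → Dec 3 1 2 3 m x 0 0 := by
  intro m
  induction m with
  | zero => intros; trivial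
  | succ n ih =>
    intro x f
    exact ⟨3, 0, 0, by omega, by omega, by omega, by omega, by omega, ih _ (by omega)⟩

end numeric

end Pool.Agent.Bloch
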